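import Mathlib

/-!
# F32: equal blocks (helper31)

Given finitely coloured finite sets, almost all elements can be arranged in monochromatic blocks of
equal size; two nested levels. The sample space of the extraction is a product of `Fin` types.
-/

set_option autoImplicit false

namespace Pool.Agent.F32

open Finset

namespace Blk

/-- `q` disjoint monochromatic blocks of size `s` inside `B` -/
theorem cut {V : Type} {N : ℕ} (p : V → Fin N) (s : ℕ) (B : Finset V) :
    ∀ q : ℕ, q * s + N * s ≤ B.card → ∃ f : Fin q × Fin s → V, Function.Injective f ∧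
      (∀ z, f z ∈ B) ∧ ∀ a i i', p (f (a, i)) = p (f (a, i')) := by
  classical
  intro q
  induction q with
  | zero =>
    intro _
    refine ⟨fun z => z.1.elim0, fun z => z.1.elim0, fun z => z.1.elim0, fun a => a.elim0⟩
  | succ q ih =>
    intro h
    rcases Nat.eq_zero_or_pos s with hs | hs
    · subst hs
      refine ⟨fun z => z.2.elim0, fun z => z.2.elim0, fun z => z.2.elim0, fun a i => i.elim0⟩
    obtain ⟨f, hf, hfB, hfp⟩ := ih (by nlinarith)
    set R : Finset V := B \ univ.image f with hR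
    have hRc : N * s + s ≤ R.card := by
      have h1 : (univ.image f).card = q * s := by
        rw [card_image_of_injective _ hf, card_univ, Fintype.card_prod, Fintype.card_fin,
          Fintype.card_fin]
      have h2 : univ.image f ⊆ B := by
        intro x hx
        obtain ⟨z, -, rfl⟩ := mem_image.1 hx
        exact hfB z
      have h3 := card_sdiff_add_card_eq_card h2
      rw [h1, ← hR] at h3
      have h4 : (q + 1) * s = q * s + s := by ring
      rw [h4] at h
      omega
    have hlt : (univ : Finset (Fin N)).card * (s - 1) < R.card := by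
      rw [card_univ, Fintype.card_fin]
      have : N * (s - 1) ≤ N * s := Nat.mul_le_mul_left _ (by omega)
      omega
    obtain ⟨c, -, hc⟩ := exists_lt_card_fiber_of_mul_lt_card_of_maps_to
      (f := p) (fun a _ => mem_univ (p a)) hlt
    obtain ⟨T, hT, hTc⟩ := exists_subset_card_eq (show s ≤ (R.filter fun x => p x = c).card by omega)
    set g : Fin s → V := fun i => (T.equivFin.symm (Fin.cast hTc.symm i) : V) with hg
    have hgT : ∀ i, g i ∈ T := fun i => (T.equivFin.symm (Fin.cast hTc.symm i)).2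
    have hgi : Function.Injective g := by
      intro i j hij
      have h1 := T.equivFin.symm.injective (Subtype.ext hij)
      have h2 := congrArg Fin.val h1
      exact Fin.ext h2
    have hgR : ∀ i, g i ∈ R ∧ p (g i) = c := fun i => mem_filter.1 (hT (hgT i))
    have hgf : ∀ i z, g i ≠ f z := by
      intro i z h1
      have h2 := (mem_sdiff.1 (hgR i).1).2
      exact h2 (mem_image.2 ⟨z, mem_univ _, h1.symm⟩)
    refine ⟨fun z => Fin.lastCases (g z.2) (fun a => f (a, z.2)) z.1, ?_, ?_, ?_⟩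
    · rintro ⟨a, i⟩ ⟨b, j⟩ hab
      dsimp only at hab
      induction a using Fin.lastCases with
      | last =>
        induction b using Fin.lastCases with
        | last =>
          rw [Fin.lastCases_last, Fin.lastCases_last] at hab
          rw [hgi hab]
        | cast b =>
          rw [Fin.lastCases_last, Fin.lastCases_castSucc] at hab
          exact absurd hab (hgf _ _)
      | cast a =>
        induction b using Fin.lastCases with
        | last =>
          rw [Fin.lastCases_last, Fin.lastCases_castSucc] at hab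
          exact absurd hab.symm (hgf _ _)
        | cast b =>
          rw [Fin.lastCases_castSucc, Fin.lastCases_castSucc] at hab
          have h1 := hf hab
          rw [Prod.mk.injEq] at h1
          rw [h1.1, h1.2]
    · rintro ⟨a, i⟩
      dsimp only
      induction a using Fin.lastCases with
      | last =>
        rw [Fin.lastCases_last]
        exact (mem_sdiff.1 (hgR i).1).1
      | cast a =>
        rw [Fin.lastCases_castSucc]
        exact hfB _
    · intro a i i'
      dsimp only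
      induction a using Fin.lastCases with
      | last =>
        rw [Fin.lastCases_last, Fin.lastCases_last, (hgR i).2, (hgR i').2]
      | cast a =>
        rw [Fin.lastCases_castSucc, Fin.lastCases_castSucc]
        exact hfp a i i'

/-- arithmetic: block size and number of blocks -/
theorem sizes (N : ℕ) (hN : 0 < N) {e : ℝ} (he : 0 < e) : ∃ A : ℕ, 0 < A ∧ ∀ m0 : ℕ, ∃ n0 : ℕ,
    0 < n0 ∧ ∀ n ≥ n0, ∃ q s : ℕ, m0 ≤ s ∧ 0 < q ∧ q ≤ A ∧ q * s + N * s ≤ n ∧
      (1 - e) * n ≤ q * s := by
  -- `s = n / (N * k)`, `q = N * k - N`, `k` large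
  obtain ⟨k, hk⟩ := exists_nat_gt (2 / e + 2)
  have hk2 : (2 : ℝ) < k := by
    have : 0 < 2 / e := by positivity
    linarith
  have hk2' : 2 < k := by exact_mod_cast hk2
  have hke : 2 / k ≤ e := by
    have h1 : 2 / e < k := by linarith
    rw [div_lt_iff₀ he] at h1
    rw [div_le_iff₀ (by linarith)]
    linarith
  refine ⟨N * k, by positivity, fun m0 => ⟨N * k * (k + m0), by positivity, fun n hn => ?_⟩⟩
  have hNk : 0 < N * k := by positivity
  refine ⟨N * k - N, n / (N * k), ?_, ?_, Nat.sub_le _ _, ?_, ?_⟩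
  · rw [Nat.le_div_iff_mul_le hNk]
    nlinarith
  · have : N * 1 < N * k := Nat.mul_lt_mul_of_pos_left (by omega) hN
    omega
  · rw [← Nat.add_mul, Nat.sub_add_cancel (Nat.le_mul_of_pos_right _ (by omega)), mul_comm]
    exact Nat.div_mul_le_self _ _
  · set s : ℕ := n / (N * k) with hs
    have h1 : n < N * k * (s + 1) := by
      have := Nat.lt_mul_div_succ n hNk
      rw [hs]
      exact this
    have h2 : (n : ℝ) < N * k * (s + 1) := by exact_mod_cast h1
    have h3 : ((N * k - N : ℕ) : ℝ) = N * k - N := by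
      rw [Nat.cast_sub (Nat.le_mul_of_pos_right _ (by omega))]
      push_cast
      ring
    rw [h3]
    have hn' : ((N * k * (k + m0) : ℕ) : ℝ) ≤ n := by exact_mod_cast hn
    push_cast at hn'
    have hNr : (1 : ℝ) ≤ N := by exact_mod_cast hN
    have hm0 : (0 : ℝ) ≤ m0 := Nat.cast_nonneg _
    have hkr : (0 : ℝ) < k := by linarith
    -- `s ≥ k`
    have h4 : (k : ℝ) ≤ s := by
      have h5 : k ≤ s := by
        rw [hs, Nat.le_div_iff_mul_le hNk]
        nlinarith
      exact_mod_cast h5
    -- `n < N k (s + 1)`, `(N k - N) s = N k (s + 1) - N k - N s`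
    have h6 : (N : ℝ) * k + N * s ≤ 2 / k * n := by
      have h7 : (N : ℝ) * k * s ≤ n := by
        have : N * k * s ≤ n := Nat.mul_div_le _ _
        exact_mod_cast this
      have h8 : (N : ℝ) * s ≤ n / k := by
        rw [le_div_iff₀ hkr]
        nlinarith
      have h9 : (N : ℝ) * k ≤ n / k := by
        rw [le_div_iff₀ hkr]
        have : (N : ℝ) * k * k ≤ N * k * s := by
          have : (0 : ℝ) ≤ N * k := by positivity
          nlinarith
        linarith
      have h10 : 2 / (k : ℝ) * n = n / k + n / k := by ring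
      linarith
    have h11 : 2 / (k : ℝ) * n ≤ e * n := mul_le_mul_of_nonneg_right hke (Nat.cast_nonneg _)
    nlinarith

end Blk

/-- one level of equal blocks -/
theorem blocks1 (N : ℕ) (hN : 0 < N) {e : ℝ} (he : 0 < e) : ∃ A n0 : ℕ, 0 < A ∧
    ∀ (V : Type) [Fintype V] (p : V → Fin N), n0 ≤ Fintype.card V →
      ∃ (b t : ℕ) (C : Fin b × Fin t → V), 0 < b ∧ b ≤ A ∧ 0 < t ∧ Function.Injective C ∧
        (1 - e) * Fintype.card V ≤ b * t ∧ ∀ z i i', p (C (z, i)) = p (C (z, i')) := by
  obtain ⟨A, hA, hA'⟩ := Blk.sizes N hN he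
  obtain ⟨n0, -, hn0⟩ := hA' 1
  refine ⟨A, n0, hA, fun V _ p hV => ?_⟩
  obtain ⟨q, s, h1, h2, h3, h4, h5⟩ := hn0 _ hV
  obtain ⟨f, f1, -, f3⟩ := Blk.cut p s univ q (by rw [card_univ]; exact h4)
  exact ⟨q, s, f, h2, h3, h1, f1, h5, f3⟩

/-- two nested levels of equal blocks; the bound `A0` for the number of the coarse blocks does not
depend on the finer colouring -/
theorem blocks2 (N0 : ℕ) (hN0 : 0 < N0) {e : ℝ} (he : 0 < e) (he1 : e ≤ 1) : ∃ A0 : ℕ, 0 < A0 ∧
    ∀ N1 : ℕ, 0 < N1 → ∃ A1 n0 : ℕ, 0 < A1 ∧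
    ∀ (V : Type) [Fintype V] (p0 : V → Fin N0) (p1 : V → Fin N1), n0 ≤ Fintype.card V →
      ∃ (a0 a1 s : ℕ) (X : Fin a0 → Fin a1 → Fin s → V), 0 < a0 ∧ a0 ≤ A0 ∧ 0 < a1 ∧ a1 ≤ A1 ∧
        0 < s ∧ (∀ a b i a' b' i', X a b i = X a' b' i' → a = a' ∧ b = b' ∧ i = i') ∧
        (1 - e) * Fintype.card V ≤ a0 * a1 * s ∧
        (∀ a b i b' i', p0 (X a b i) = p0 (X a b' i')) ∧
        ∀ a b i i', p1 (X a b i) = p1 (X a b i') := by
  have he2 : 0 < e / 2 := by positivity
  obtain ⟨A0, hA0, hA0'⟩ := Blk.sizes N0 hN0 he2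
  refine ⟨A0, hA0, fun N1 hN1 => ?_⟩
  obtain ⟨A1, hA1, hA1'⟩ := Blk.sizes N1 hN1 he2
  obtain ⟨n1, hn1, hn1'⟩ := hA1' 1
  obtain ⟨n0, -, hn0⟩ := hA0' n1
  refine ⟨A1, n0, hA1, fun V _ p0 p1 hV => ?_⟩
  classical
  obtain ⟨q, s, h1, h2, h3, h4, h5⟩ := hn0 _ hV
  obtain ⟨f, f1, -, f3⟩ := Blk.cut p0 s univ q (by rw [card_univ]; exact h4)
  obtain ⟨q1, s1, k1, k2, k3, k4, k5⟩ := hn1' s h1
  have hc : ∀ a : Fin q, ((univ : Finset (Fin s)).image fun i => f (a, i)).card = s := by
    intro a
    rw [card_image_of_injective _ fun i j hij => (Prod.mk.inj (f1 hij)).2, card_univ,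
      Fintype.card_fin]
  have hg : ∀ a : Fin q, ∃ g : Fin q1 × Fin s1 → V, Function.Injective g ∧
      (∀ z, g z ∈ (univ : Finset (Fin s)).image fun i => f (a, i)) ∧
      ∀ b i i', p1 (g (b, i)) = p1 (g (b, i')) := fun a =>
    Blk.cut p1 s1 _ q1 (by rw [hc a]; exact k4)
  choose g g1 g2 g3 using hg
  have hgf : ∀ a z, ∃ i, g a z = f (a, i) := fun a z => by
    obtain ⟨i, -, hi⟩ := mem_image.1 (g2 a z)
    exact ⟨i, hi.symm⟩
  refine ⟨q, q1, s1, fun a b i => g a (b, i), h2, h3, k2, k3, k1, ?_, ?_, ?_, ?_⟩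
  · intro a b i a' b' i' h
    dsimp only at h
    obtain ⟨j, hj⟩ := hgf a (b, i)
    obtain ⟨j', hj'⟩ := hgf a' (b', i')
    have h6 : a = a' := by
      rw [hj, hj'] at h
      exact (Prod.mk.inj (f1 h)).1
    subst h6
    have h7 := g1 a h
    rw [Prod.mk.injEq] at h7
    exact ⟨rfl, h7.1, h7.2⟩
  · have hq : (0 : ℝ) ≤ q := Nat.cast_nonneg _
    have hn : (0 : ℝ) ≤ Fintype.card V := Nat.cast_nonneg _
    have h6 : (q : ℝ) * ((1 - e / 2) * s) ≤ q * (q1 * s1) := mul_le_mul_of_nonneg_left k5 hq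
    have h7 : (1 - e / 2) * ((1 - e / 2) * (Fintype.card V : ℝ)) ≤ (1 - e / 2) * (q * s) :=
      mul_le_mul_of_nonneg_left h5 (by linarith)
    have h8 : (1 - e) * (Fintype.card V : ℝ) ≤
        (1 - e / 2) * ((1 - e / 2) * (Fintype.card V : ℝ)) := by
      nlinarith [mul_nonneg (sq_nonneg e) hn]
    have h9 : (q : ℝ) * ((1 - e / 2) * s) = (1 - e / 2) * (q * s) := by ring
    have h10 : (q : ℝ) * (q1 * s1) = q * q1 * s1 := by ring
    linarith
  · intro a b i b' i'
    obtain ⟨j, hj⟩ := hgf a (b, i)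
    obtain ⟨j', hj'⟩ := hgf a (b', i')
    show p0 (g a (b, i)) = p0 (g a (b', i'))
    rw [hj, hj']
    exact f3 a j j'
  · intro a b i i'
    exact g3 a b i i'

end Pool.Agent.F32
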