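import Mathlib

/-!
# F32: many T-pairs in the array (helper31)

Jensen for the law of the array: rows in one coarse block, the points of a row in one fine block, the
columns in one block.
-/

set_option autoImplicit false

namespace Pool.Agent.F32

open Finset

namespace Jen

/-- the average -/
noncomputable def av {ι : Type} [Fintype ι] (f : ι → ℝ) : ℝ := (∑ i, f i) / Fintype.card ι

theorem av_nonneg {ι : Type} [Fintype ι] {f : ι → ℝ} (hf : ∀ i, 0 ≤ f i) : 0 ≤ av f :=
  div_nonneg (sum_nonneg fun i _ => hf i) (Nat.cast_nonneg _)

theorem av_mono {ι : Type} [Fintype ι] {f g : ι → ℝ} (h : ∀ i, f i ≤ g i) : av f ≤ av g :=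
  div_le_div_of_nonneg_right (sum_le_sum fun i _ => h i) (Nat.cast_nonneg _)

theorem av_comm {ι κ : Type} [Fintype ι] [Fintype κ] (f : ι → κ → ℝ) :
    av (fun i => av (f i)) = av fun k => av fun i => f i k := by
  unfold av
  rw [← sum_div, ← sum_div, sum_comm, div_div, div_div, mul_comm]

theorem av_pair {ι κ : Type} [Fintype ι] [Fintype κ] (f : ι × κ → ℝ) :
    av f = av fun i => av fun k => f (i, k) := by
  unfold av
  rw [← sum_div, Fintype.sum_prod_type, Fintype.card_prod, Nat.cast_mul, div_div, mul_comm]

/-- Jensen -/
theorem pow_av_le {ι : Type} [Fintype ι] [Nonempty ι] {f : ι → ℝ} (hf : ∀ i, 0 ≤ f i) (n : ℕ) :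
    av f ^ n ≤ av fun i => f i ^ n := by
  have hc : (0 : ℝ) < Fintype.card ι := by exact_mod_cast Fintype.card_pos
  have h := Real.pow_arith_mean_le_arith_mean_pow (univ : Finset ι)
    (fun _ => 1 / (Fintype.card ι : ℝ)) f (fun _ _ => by positivity)
    (by rw [sum_const, card_univ, nsmul_eq_mul]; field_simp) (fun i _ => hf i) n
  unfold av
  have e1 : (∑ i, f i) / (Fintype.card ι : ℝ) = ∑ i, 1 / (Fintype.card ι : ℝ) * f i := by
    rw [← mul_sum]
    ring
  have e2 : (∑ i, f i ^ n) / (Fintype.card ι : ℝ) = ∑ i, 1 / (Fintype.card ι : ℝ) * f i ^ n := by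
    rw [← mul_sum]
    ring
  rw [e1, e2]
  exact h

/-- independent copies -/
theorem av_pi {ι : Type} [Fintype ι] (n : ℕ) (f : ι → ℝ) :
    av (fun x : Fin n → ι => ∏ k, f (x k)) = av f ^ n := by
  unfold av
  rw [div_pow, Fintype.card_fun, Fintype.card_fin, Nat.cast_pow, Fintype.sum_pow]

/-- independent variables -/
theorem av_pi' {ι : Type} [Fintype ι] (n : ℕ) (f : Fin n → ι → ℝ) :
    av (fun x : Fin n → ι => ∏ k, f k (x k)) = ∏ k, av (f k) := by
  unfold av
  rw [Finset.prod_div_distrib, Finset.prod_univ_sum, Fintype.piFinset_univ, Fintype.card_fun,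
    Fintype.card_fin, Nat.cast_pow, prod_const, card_univ, Fintype.card_fin]

end Jen

open Jen

/-- the density of the all-`T` arrays is at least `η ^ (R P K)` -/
theorem jensen_av {A B S Z T : Type} [Fintype A] [Fintype B] [Fintype S] [Fintype Z] [Fintype T]
    [Nonempty A] [Nonempty B] [Nonempty S] [Nonempty Z] [Nonempty T] (R P K : ℕ)
    (g : A → B → S → Z → T → ℝ) (hg : ∀ a b i z j, 0 ≤ g a b i z j) :
    (av fun a => av fun b => av fun i => av fun z => av fun j => g a b i z j) ^ (R * P * K) ≤
      av fun a => av fun b : Fin R → B => av fun i : Fin R → Fin P → S => av fun z =>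
        av fun j : Fin K → T => ∏ r, ∏ p, ∏ k, g a (b r) (i r p) z (j k) := by
  -- the inner product over the columns
  set G : Z → (Fin K → T) → A → B → S → ℝ := fun z j a b i => ∏ k, g a b i z (j k) with hG
  have hG0 : ∀ z j a b i, 0 ≤ G z j a b i := fun z j a b i =>
    prod_nonneg fun k _ => hg a b i z (j k)
  -- step 1: for every point the columns
  have s1 : ∀ a b i, (av fun z => av fun j => g a b i z j) ^ K ≤
      av fun z => av fun j : Fin K → T => G z j a b i := by
    intro a b i
    refine (pow_av_le (fun z => av_nonneg fun j => hg a b i z j) K).trans (le_of_eq ?_)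
    refine congrArg av (funext fun z => ?_)
    exact (av_pi K fun j => g a b i z j).symm
  have s2 : (av fun a => av fun b => av fun i => av fun z => av fun j => g a b i z j) ^ K ≤
      av fun a => av fun b => av fun i => av fun z => av fun j : Fin K → T => G z j a b i := by
    have h1 : ∀ a b i, 0 ≤ av fun z => av fun j => g a b i z j := fun a b i =>
      av_nonneg fun z => av_nonneg fun j => hg a b i z j
    refine (pow_av_le (fun a => av_nonneg fun b => av_nonneg fun i => h1 a b i) K).trans ?_
    refine av_mono fun a => ?_
    refine (pow_av_le (fun b => av_nonneg fun i => h1 a b i) K).trans ?_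
    refine av_mono fun b => ?_
    refine (pow_av_le (fun i => h1 a b i) K).trans ?_
    exact av_mono fun i => s1 a b i
  -- step 2: for all columns the points
  have s3 : ∀ z j, (av fun a => av fun b => av fun i => G z j a b i) ^ (R * P) ≤
      av fun a => av fun b : Fin R → B => av fun i : Fin R → Fin P → S =>
        ∏ r, ∏ p, G z j a (b r) (i r p) := by
    intro z j
    have e1 : ∀ a, (av fun b : Fin R → B => av fun i : Fin R → Fin P → S =>
        ∏ r, ∏ p, G z j a (b r) (i r p)) =
        (av fun b => (av fun i => G z j a b i) ^ P) ^ R := by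
      intro a
      rw [← av_pi R]
      refine congrArg av (funext fun b => ?_)
      rw [av_pi' R (fun r (q : Fin P → S) => ∏ p, G z j a (b r) (q p))]
      refine Finset.prod_congr rfl fun r _ => ?_
      exact av_pi P fun i => G z j a (b r) i
    have e2 : (fun a => av fun b : Fin R → B => av fun i : Fin R → Fin P → S =>
        ∏ r, ∏ p, G z j a (b r) (i r p)) =
        fun a => (av fun b => (av fun i => G z j a b i) ^ P) ^ R := funext e1
    rw [e2, mul_comm R P, pow_mul]
    have h1 : ∀ a b, 0 ≤ av fun i => G z j a b i := fun a b => av_nonneg fun i => hG0 z j a b i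
    have h2 : (av fun a => av fun b => av fun i => G z j a b i) ^ P ≤
        av fun a => av fun b => (av fun i => G z j a b i) ^ P :=
      (pow_av_le (fun a => av_nonneg fun b => h1 a b) P).trans
        (av_mono fun a => pow_av_le (fun b => h1 a b) P)
    refine (pow_le_pow_left₀ (pow_nonneg (av_nonneg fun a => av_nonneg fun b => h1 a b) _)
      h2 R).trans ?_
    exact pow_av_le (fun a => av_nonneg fun b => pow_nonneg (h1 a b) _) R
  -- step 3: average over the columns
  have s4 : (av fun z => av fun j : Fin K → T => av fun a => av fun b => av fun i => G z j a b i) ^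
      (R * P) ≤ av fun z => av fun j : Fin K → T => av fun a => av fun b : Fin R → B =>
        av fun i : Fin R → Fin P → S => ∏ r, ∏ p, G z j a (b r) (i r p) := by
    have h1 : ∀ z j, 0 ≤ av fun a => av fun b => av fun i => G z j a b i := fun z j =>
      av_nonneg fun a => av_nonneg fun b => av_nonneg fun i => hG0 z j a b i
    refine (pow_av_le (fun z => av_nonneg fun j => h1 z j) (R * P)).trans ?_
    refine av_mono fun z => ?_
    refine (pow_av_le (fun j => h1 z j) (R * P)).trans ?_
    exact av_mono fun j => s3 z j
  -- exchange of the averages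
  have c1 : (av fun a => av fun b => av fun i => av fun z => av fun j : Fin K → T =>
      G z j a b i) = av fun z => av fun j : Fin K → T => av fun a => av fun b => av fun i =>
        G z j a b i := by
    calc (av fun a => av fun b => av fun i => av fun z => av fun j : Fin K → T => G z j a b i)
        = av fun a => av fun b => av fun z => av fun j : Fin K → T => av fun i => G z j a b i := by
          refine congrArg av (funext fun a => congrArg av (funext fun b => ?_))
          rw [av_comm]
          exact congrArg av (funext fun z => av_comm _)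
      _ = av fun a => av fun z => av fun j : Fin K → T => av fun b => av fun i =>
            G z j a b i := by
          refine congrArg av (funext fun a => ?_)
          rw [av_comm]
          exact congrArg av (funext fun z => av_comm _)
      _ = _ := by
          rw [av_comm]
          exact congrArg av (funext fun z => av_comm _)
  have c2 : (av fun z => av fun j : Fin K → T => av fun a => av fun b : Fin R → B =>
      av fun i : Fin R → Fin P → S => ∏ r, ∏ p, G z j a (b r) (i r p)) =
      av fun a => av fun b : Fin R → B => av fun i : Fin R → Fin P → S => av fun z =>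
        av fun j : Fin K → T => ∏ r, ∏ p, ∏ k, g a (b r) (i r p) z (j k) := by
    symm
    calc (av fun a => av fun b : Fin R → B => av fun i : Fin R → Fin P → S => av fun z =>
          av fun j : Fin K → T => ∏ r, ∏ p, G z j a (b r) (i r p))
        = av fun a => av fun b : Fin R → B => av fun z => av fun j : Fin K → T =>
            av fun i : Fin R → Fin P → S => ∏ r, ∏ p, G z j a (b r) (i r p) := by
          refine congrArg av (funext fun a => congrArg av (funext fun b => ?_))
          rw [av_comm]
          exact congrArg av (funext fun z => av_comm _)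
      _ = av fun a => av fun z => av fun j : Fin K → T => av fun b : Fin R → B =>
            av fun i : Fin R → Fin P → S => ∏ r, ∏ p, G z j a (b r) (i r p) := by
          refine congrArg av (funext fun a => ?_)
          rw [av_comm]
          exact congrArg av (funext fun z => av_comm _)
      _ = _ := by
          rw [av_comm]
          exact congrArg av (funext fun z => av_comm _)
  have h0 : 0 ≤ av fun a => av fun b => av fun i => av fun z => av fun j => g a b i z j :=
    av_nonneg fun a => av_nonneg fun b => av_nonneg fun i => av_nonneg fun z =>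
      av_nonneg fun j => hg a b i z j
  rw [← c2, mul_comm (R * P) K, pow_mul]
  rw [c1] at s2
  exact (pow_le_pow_left₀ (pow_nonneg h0 _) s2 _).trans s4

open Classical in
/-- the counting form -/
theorem jensen {A B S Z T : Type} [Fintype A] [Fintype B] [Fintype S] [Fintype Z] [Fintype T]
    [Nonempty A] [Nonempty B] [Nonempty S] [Nonempty Z] [Nonempty T] (R P K : ℕ)
    (g : A → B → S → Z → T → Prop) {η : ℝ} (hη : 0 ≤ η)
    (h : η * (Fintype.card A * Fintype.card B * Fintype.card S * Fintype.card Z *
      Fintype.card T) ≤ ((univ.filter fun x : A × B × S × Z × T =>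
        g x.1 x.2.1 x.2.2.1 x.2.2.2.1 x.2.2.2.2).card : ℝ)) :
    η ^ (R * P * K) * (Fintype.card (A × (Fin R → B) × (Fin R → Fin P → S) × Z × (Fin K → T)) : ℝ) ≤
      ((univ.filter fun w : A × (Fin R → B) × (Fin R → Fin P → S) × Z × (Fin K → T) =>
        ∀ r p k, g w.1 (w.2.1 r) (w.2.2.1 r p) w.2.2.2.1 (w.2.2.2.2 k)).card : ℝ) := by
  set G : A → B → S → Z → T → ℝ := fun a b i z j => if g a b i z j then 1 else 0 with hG
  have hG0 : ∀ a b i z j, 0 ≤ G a b i z j := fun a b i z j => by
    rw [hG]
    dsimp only
    split_ifs <;> norm_num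
  have hJ := jensen_av R P K G hG0
  have cpos : ∀ (X : Type) [Fintype X] [Nonempty X], (0 : ℝ) < Fintype.card X := fun X _ _ => by
    exact_mod_cast Fintype.card_pos
  -- left side
  have e1 : (av fun a => av fun b => av fun i => av fun z => av fun j => G a b i z j) =
      ((univ.filter fun x : A × B × S × Z × T =>
        g x.1 x.2.1 x.2.2.1 x.2.2.2.1 x.2.2.2.2).card : ℝ) / Fintype.card (A × B × S × Z × T) := by
    have h1 : (av fun x : A × B × S × Z × T => G x.1 x.2.1 x.2.2.1 x.2.2.2.1 x.2.2.2.2) =
        av fun a => av fun b => av fun i => av fun z => av fun j => G a b i z j := by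
      rw [av_pair]
      refine congrArg av (funext fun a => ?_)
      rw [av_pair]
      refine congrArg av (funext fun b => ?_)
      rw [av_pair]
      refine congrArg av (funext fun i => ?_)
      rw [av_pair]
    rw [← h1]
    unfold av
    rw [hG]
    dsimp only
    rw [sum_boole]
  have e2 : (av fun a => av fun b : Fin R → B => av fun i : Fin R → Fin P → S => av fun z =>
        av fun j : Fin K → T => ∏ r, ∏ p, ∏ k, G a (b r) (i r p) z (j k)) =
      ((univ.filter fun w : A × (Fin R → B) × (Fin R → Fin P → S) × Z × (Fin K → T) =>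
        ∀ r p k, g w.1 (w.2.1 r) (w.2.2.1 r p) w.2.2.2.1 (w.2.2.2.2 k)).card : ℝ) /
      Fintype.card (A × (Fin R → B) × (Fin R → Fin P → S) × Z × (Fin K → T)) := by
    have h1 : (av fun w : A × (Fin R → B) × (Fin R → Fin P → S) × Z × (Fin K → T) =>
        ∏ r, ∏ p, ∏ k, G w.1 (w.2.1 r) (w.2.2.1 r p) w.2.2.2.1 (w.2.2.2.2 k)) =
        av fun a => av fun b : Fin R → B => av fun i : Fin R → Fin P → S => av fun z =>
        av fun j : Fin K → T => ∏ r, ∏ p, ∏ k, G a (b r) (i r p) z (j k) := by
      rw [av_pair]
      refine congrArg av (funext fun a => ?_)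
      rw [av_pair]
      refine congrArg av (funext fun b => ?_)
      rw [av_pair]
      refine congrArg av (funext fun i => ?_)
      rw [av_pair]
    rw [← h1]
    unfold av
    congr 1
    rw [← sum_boole]
    refine sum_congr rfl fun w _ => ?_
    rw [hG]
    dsimp only
    by_cases hw : ∀ r p k, g w.1 (w.2.1 r) (w.2.2.1 r p) w.2.2.2.1 (w.2.2.2.2 k)
    · rw [if_pos hw]
      exact prod_eq_one fun r _ => prod_eq_one fun p _ => prod_eq_one fun k _ =>
        if_pos (hw r p k)
    · rw [if_neg hw]
      push Not at hw
      obtain ⟨r, p, k, hk⟩ := hw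
      exact prod_eq_zero (mem_univ r) (prod_eq_zero (mem_univ p) (prod_eq_zero (mem_univ k)
        (if_neg hk)))
  rw [e1, e2] at hJ
  have hc1 : (0 : ℝ) < Fintype.card (A × B × S × Z × T) := cpos _
  have hc2 : (0 : ℝ) < Fintype.card (A × (Fin R → B) × (Fin R → Fin P → S) × Z × (Fin K → T)) :=
    cpos _
  have h2 : η ≤ ((univ.filter fun x : A × B × S × Z × T =>
        g x.1 x.2.1 x.2.2.1 x.2.2.2.1 x.2.2.2.2).card : ℝ) / Fintype.card (A × B × S × Z × T) := by
    rw [le_div_iff₀ hc1]
    refine le_trans (le_of_eq ?_) h
    rw [Fintype.card_prod, Fintype.card_prod, Fintype.card_prod, Fintype.card_prod]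
    push_cast
    ring
  have h3 := (pow_le_pow_left₀ hη h2 (R * P * K)).trans hJ
  rwa [le_div_iff₀ hc2] at h3

end Pool.Agent.F32
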