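import Pool.Agent.F32.Pat
import Pool.Agent.F32.Jen
import Pool.Agent.F32.Blocks

/-!
# F32: the random array and the count lemma (helper40)

`BK`: blocks of points. The outcome `o : Om K L` of the random experiment is a function on the set
`Co L` of coordinates: `a` coarse block, `A r` fine block of the row `r`, `P r i` position of the
point `i` of the row `r`, `z` block of the columns, `q k` position of the column `k`, `w` far point.
`count`: for a set `S` of fresh coordinates.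
-/

set_option autoImplicit false

namespace Pool.Agent.F32

open Finset Matrix Circ

/-- blocks: `X a b i` coarse block `a`, fine block `b`, position `i`; `C (z, j)` block `z`,
position `j` -/
structure BK (V : Type) where
  a0 : ℕ
  a1 : ℕ
  s : ℕ
  b : ℕ
  t : ℕ
  X : Fin a0 → Fin a1 → Fin s → V
  C : Fin b × Fin t → V
  injX : ∀ a b i a' b' i', X a b i = X a' b' i' → a = a' ∧ b = b' ∧ i = i'
  injC : Function.Injective C

/-- the random coordinates -/
inductive Co (L : ℕ) : Type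
  | a : Co L
  | A : Fin L → Co L
  | P : Fin L → Fin L → Co L
  | z : Co L
  | q : Fin L → Co L
  | w : Co L
deriving DecidableEq, Fintype

/-- the range of a coordinate -/
def BK.ty {V : Type} (K : BK V) {L : ℕ} : Co L → Type
  | .a => Fin K.a0
  | .A _ => Fin K.a1
  | .P _ _ => Fin K.s
  | .z => Fin K.b
  | .q _ => Fin K.t
  | .w => V

instance {V : Type} [Fintype V] (K : BK V) {L : ℕ} (c : Co L) : Fintype (K.ty c) :=
  match c with
  | .a => inferInstanceAs (Fintype (Fin K.a0))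
  | .A _ => inferInstanceAs (Fintype (Fin K.a1))
  | .P _ _ => inferInstanceAs (Fintype (Fin K.s))
  | .z => inferInstanceAs (Fintype (Fin K.b))
  | .q _ => inferInstanceAs (Fintype (Fin K.t))
  | .w => inferInstanceAs (Fintype V)

/-- the number of values of a coordinate -/
def BK.sz {V : Type} [Fintype V] (K : BK V) {L : ℕ} : Co L → ℕ
  | .a => K.a0
  | .A _ => K.a1
  | .P _ _ => K.s
  | .z => K.b
  | .q _ => K.t
  | .w => Fintype.card V

theorem BK.card_ty {V : Type} [Fintype V] (K : BK V) {L : ℕ} (c : Co L) :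
    Fintype.card (K.ty c) = K.sz c := by
  cases c
  · exact Fintype.card_fin _
  · exact Fintype.card_fin _
  · exact Fintype.card_fin _
  · exact Fintype.card_fin _
  · exact Fintype.card_fin _
  · rfl

/-- the outcomes -/
abbrev Om {V : Type} (K : BK V) (L : ℕ) : Type := ∀ c : Co L, K.ty c

/-- **count lemma**: `S` is a set of fresh coordinates, the value `g o` of `o ∈ F` lies in a set
`Q o` which does not depend on the fresh coordinates, and `g o` determines the fresh coordinates if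
the other coordinates are given -/
theorem count {V : Type} [Fintype V] {K : BK V} {L : ℕ} {β : Type} (S : Finset (Co L))
    (F : Finset (Om K L)) (g : Om K L → β) (Q : Om K L → Finset β) {B : ℝ}
    (hB : ∀ o, ((Q o).card : ℝ) ≤ B)
    (hQ : ∀ o o' : Om K L, (∀ c, c ∉ S → o c = o' c) → Q o = Q o')
    (hg : ∀ o ∈ F, g o ∈ Q o)
    (hinj : ∀ o ∈ F, ∀ o' ∈ F, (∀ c, c ∉ S → o c = o' c) → g o = g o' → ∀ c ∈ S, o c = o' c) :
    (F.card : ℝ) * ∏ c ∈ S, (K.sz c : ℝ) ≤ (Fintype.card (Om K L) : ℝ) * B := by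
  classical
  -- replace the fresh coordinates
  set upd : Om K L → (∀ c : S, K.ty c.1) → Om K L := fun o f c =>
    if h : c ∈ S then f ⟨c, h⟩ else o c with hupd
  have u1 : ∀ o f c (h : c ∈ S), upd o f c = f ⟨c, h⟩ := fun o f c h => dif_pos h
  have u2 : ∀ o f c, c ∉ S → upd o f c = o c := fun o f c h => dif_neg h
  have h1 : (F ×ˢ (univ : Finset (∀ c : S, K.ty c.1))).card ≤
      ((univ : Finset (Om K L)).sigma Q).card := by
    refine card_le_card_of_injOn (fun x => (⟨upd x.1 x.2, g x.1⟩ : (_ : Om K L) × β)) ?_ ?_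
    · intro x hx
      have hx1 := (mem_product.1 hx).1
      refine mem_sigma.2 ⟨mem_univ _, ?_⟩
      rw [hQ (upd x.1 x.2) x.1 fun c hc => u2 _ _ _ hc]
      exact hg _ hx1
    · rintro ⟨o, f⟩ hx ⟨o', f'⟩ hx' h
      have hx1 := (mem_product.1 (mem_coe.1 hx)).1
      have hx1' := (mem_product.1 (mem_coe.1 hx')).1
      dsimp only at h hx1 hx1'
      rw [Sigma.mk.injEq] at h
      obtain ⟨h2, h3⟩ := h
      have h3' := eq_of_heq h3
      have h4 : f = f' := by
        funext c
        have := congrFun h2 c.1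
        rw [u1 o f c.1 c.2, u1 o' f' c.1 c.2] at this
        exact this
      have h5 : ∀ c, c ∉ S → o c = o' c := by
        intro c hc
        have := congrFun h2 c
        rw [u2 o f c hc, u2 o' f' c hc] at this
        exact this
      have h6 : o = o' := by
        funext c
        by_cases hc : c ∈ S
        · exact hinj o hx1 o' hx1' h5 h3' c hc
        · exact h5 c hc
      rw [h4, h6]
  rw [card_product, card_sigma, card_univ, Fintype.card_pi] at h1
  have h2 : ∏ c : S, Fintype.card (K.ty c.1) = ∏ c ∈ S, K.sz c := by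
    rw [← prod_coe_sort S fun c => K.sz c]
    exact prod_congr rfl fun c _ => K.card_ty c.1
  rw [h2] at h1
  have h3 : ((F.card * ∏ c ∈ S, K.sz c : ℕ) : ℝ) ≤ ((∑ o : Om K L, (Q o).card : ℕ) : ℝ) := by
    exact_mod_cast h1
  push_cast at h3
  refine h3.trans ?_
  refine (sum_le_card_nsmul _ _ _ fun o _ => hB o).trans ?_
  rw [nsmul_eq_mul, card_univ]

open Classical in
/-- the number of outcomes with the property `P` -/
noncomputable def nc {V : Type} [Fintype V] {K : BK V} {L : ℕ} (P : Om K L → Prop) : ℝ :=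
  (((univ : Finset (Om K L)).filter P).card : ℝ)

/-- the number of outcomes -/
noncomputable def no {V : Type} [Fintype V] (K : BK V) (L : ℕ) : ℝ := (Fintype.card (Om K L) : ℝ)

/-- count lemma for the outcomes with the property `P` -/
theorem nc_count {V : Type} [Fintype V] {K : BK V} {L : ℕ} {β : Type} (S : Finset (Co L))
    (P : Om K L → Prop) (g : Om K L → β) (Q : Om K L → Finset β) {B : ℝ}
    (hB : ∀ o, ((Q o).card : ℝ) ≤ B)
    (hQ : ∀ o o' : Om K L, (∀ c, c ∉ S → o c = o' c) → Q o = Q o')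
    (hg : ∀ o, P o → g o ∈ Q o)
    (hinj : ∀ o o', P o → P o' → (∀ c, c ∉ S → o c = o' c) → g o = g o' → ∀ c ∈ S, o c = o' c) :
    nc P * ∏ c ∈ S, (K.sz c : ℝ) ≤ no K L * B := by
  classical
  refine count S _ g Q hB hQ (fun o ho => hg o (mem_filter.1 ho).2) ?_
  intro o ho o' ho' h1 h2
  exact hinj o o' (mem_filter.1 ho).2 (mem_filter.1 ho').2 h1 h2

/-- the pairs `x, c` of a system and their partners -/
structure PT (V : Type) where
  tp : V → V → Prop
  pr : V → V → V
  linj : ∀ x c c', tp x c → tp x c' → pr x c = pr x c' → c = c'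
  rinj : ∀ x x' c, tp x c → tp x' c → pr x c = pr x' c → x = x'

section elements

variable {V : Type} {K : BK V} {L : ℕ}

/-- the points `x r i` -/
def xx (o : Om K L) (r i : Fin L) : V := K.X (o .a) (o (.A r)) (o (.P r i))

/-- the columns -/
def cc (o : Om K L) (k : Fin L) : V := K.C (o .z, o (.q k))

/-- the partners -/
def yy (p : PT V) (o : Om K L) (r i k : Fin L) : V := p.pr (xx o r i) (cc o k)

/-- the far point -/
def ww (o : Om K L) : V := o .w

/-- all pairs `x, c` are pairs of the system -/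
def AllT (p : PT V) (o : Om K L) : Prop := ∀ r i k, p.tp (xx o r i) (cc o k)

/-- the array -/
def arr (p : PT V) (o : Om K L) : Arr V L := ⟨xx o, cc o, yy p o, ww o⟩

theorem xx_congr {o o' : Om K L} {r i : Fin L} (h1 : o .a = o' .a) (h2 : o (.A r) = o' (.A r))
    (h3 : o (.P r i) = o' (.P r i)) : xx o r i = xx o' r i := by
  unfold xx
  rw [h1, h2, h3]

theorem cc_congr {o o' : Om K L} {k : Fin L} (h1 : o .z = o' .z) (h2 : o (.q k) = o' (.q k)) :
    cc o k = cc o' k := by
  unfold cc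
  rw [h1, h2]

theorem xx_inj {o o' : Om K L} {r i : Fin L} (h : xx o r i = xx o' r i) :
    o .a = o' .a ∧ o (.A r) = o' (.A r) ∧ o (.P r i) = o' (.P r i) := K.injX _ _ _ _ _ _ h

theorem cc_inj {o o' : Om K L} {k : Fin L} (h : cc o k = cc o' k) :
    o .z = o' .z ∧ o (.q k) = o' (.q k) := Prod.mk.inj (K.injC h)

theorem yy_inj_c {p : PT V} {o o' : Om K L} (ho : AllT p o) (ho' : AllT p o') {r i k : Fin L}
    (hx : xx o r i = xx o' r i) (h : yy p o r i k = yy p o' r i k) : cc o k = cc o' k := by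
  unfold yy at h
  have h1 := ho' r i k
  rw [← hx] at h1 h
  exact p.linj _ _ _ (ho r i k) h1 h

theorem yy_inj_x {p : PT V} {o o' : Om K L} (ho : AllT p o) (ho' : AllT p o') {r i k : Fin L}
    (hc : cc o k = cc o' k) (h : yy p o r i k = yy p o' r i k) : xx o r i = xx o' r i := by
  unfold yy at h
  have h1 := ho' r i k
  rw [← hc] at h1 h
  exact p.rinj _ _ _ (ho r i k) h1 h

end elements

/-- points of the classes of `f` which are cut by `h` -/
noncomputable def cutf {V : Type} [Fintype V] (v : V → R5) {κ : Type} (f : V → κ) (h : R5) :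
    Finset V := by
  classical
  exact univ.filter fun p => ∃ q q', f q = f p ∧ f q' = f p ∧ h ⬝ᵥ v q < 0 ∧ 0 < h ⬝ᵥ v q'

section events

variable {V : Type} [Fintype V] {K : BK V} {L : ℕ}

/-- MODEL: a column in a small set which depends on four points `x` -/
theorem ev_cx (Z : V → V → V → V → Finset V) {E : ℝ} (hZ : ∀ x y z w, ((Z x y z w).card : ℝ) ≤ E)
    (k : Fin L) (a b d e : Fin L × Fin L) :
    nc (fun o : Om K L => cc o k ∈
      Z (xx o a.1 a.2) (xx o b.1 b.2) (xx o d.1 d.2) (xx o e.1 e.2)) *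
      ((K.b : ℝ) * K.t) ≤ no K L * E := by
  have h := nc_count (K := K) (L := L) {Co.z, Co.q k}
    (fun o : Om K L => cc o k ∈
      Z (xx o a.1 a.2) (xx o b.1 b.2) (xx o d.1 d.2) (xx o e.1 e.2))
    (fun o => cc o k)
    (fun o => Z (xx o a.1 a.2) (xx o b.1 b.2) (xx o d.1 d.2) (xx o e.1 e.2))
    (fun o => hZ _ _ _ _) ?_ (fun o ho => ho) ?_
  · rw [prod_insert (by simp), prod_singleton] at h
    exact h
  · intro o o' hoo
    have hx : ∀ r i, xx o r i = xx o' r i := fun r i =>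
      xx_congr (hoo _ (by simp)) (hoo _ (by simp)) (hoo _ (by simp))
    simp only [hx]
  · intro o o' _ _ _ hg c hc
    obtain ⟨h1, h2⟩ := cc_inj hg
    rcases mem_insert.1 hc with rfl | hc
    · exact h1
    · rw [mem_singleton.1 hc]
      exact h2

end events

/-! ### statements of the events -/

/-- a column in a small set which depends on three points `x` and an unrelated `y` -/
def Se_cy : Prop :=
  ∀ (V : Type) [Fintype V] (K : BK V) (L : ℕ) (p : PT V) (Z : V → V → V → V → Finset V) (E : ℝ),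
    (∀ x y z w, ((Z x y z w).card : ℝ) ≤ E) → ∀ (j k : Fin L) (a b d e : Fin L × Fin L),
    [a, b, d, e].Nodup →
    nc (fun o : Om K L => AllT p o ∧ cc o j ∈
      Z (xx o a.1 a.2) (xx o b.1 b.2) (xx o d.1 d.2) (yy p o e.1 e.2 k)) *
      ((K.b : ℝ) * K.t * K.s) ≤
      no K L * (((Fintype.card V : ℕ) : ℝ) * E)

/-- a point of the row `r` in a small set which depends on `w`, a `y` of the row, two `x` of other
rows -/
def Se_xa : Prop :=
  ∀ (V : Type) [Fintype V] (K : BK V) (L : ℕ) (p : PT V) (Z : V → V → V → V → Finset V) (E : ℝ),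
    (∀ x y z w, ((Z x y z w).card : ℝ) ≤ E) → ∀ (r j i k : Fin L) (a b : Fin L × Fin L),
    a.1 ≠ r → b.1 ≠ r →
    nc (fun o : Om K L => AllT p o ∧ xx o r i ∈
      Z (ww o) (yy p o r j k) (xx o a.1 a.2) (xx o b.1 b.2)) *
      ((K.a1 : ℝ) * K.s * (K.b * K.t)) ≤
      no K L * (((Fintype.card V : ℕ) : ℝ) * E)

/-- the same with an `x` and a `y` of two other rows -/
def Se_xb : Prop :=
  ∀ (V : Type) [Fintype V] (K : BK V) (L : ℕ) (p : PT V) (Z : V → V → V → V → Finset V) (E : ℝ),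
    (∀ x y z w, ((Z x y z w).card : ℝ) ≤ E) → ∀ (r j i k : Fin L) (a b : Fin L × Fin L),
    a.1 ≠ r → b.1 ≠ r → a.1 ≠ b.1 →
    nc (fun o : Om K L => AllT p o ∧ xx o r i ∈
      Z (ww o) (yy p o r j k) (xx o a.1 a.2) (yy p o b.1 b.2 k)) *
      (((K.a1 : ℝ) * K.s) ^ 2 * (K.b * K.t)) ≤
      no K L * (((Fintype.card V : ℕ) : ℝ) ^ 2 * E)

/-- the same with two `y` of two other rows -/
def Se_xc : Prop :=
  ∀ (V : Type) [Fintype V] (K : BK V) (L : ℕ) (p : PT V) (Z : V → V → V → V → Finset V) (E : ℝ),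
    (∀ x y z w, ((Z x y z w).card : ℝ) ≤ E) → ∀ (r j i k : Fin L) (a b : Fin L × Fin L),
    a.1 ≠ r → b.1 ≠ r → a.1 ≠ b.1 →
    nc (fun o : Om K L => AllT p o ∧ xx o r i ∈
      Z (ww o) (yy p o r j k) (yy p o a.1 a.2 k) (yy p o b.1 b.2 k)) *
      (((K.a1 : ℝ) * K.s) ^ 3 * (K.b * K.t)) ≤
      no K L * (((Fintype.card V : ℕ) : ℝ) ^ 3 * E)

/-- a pair `x, y` (arbitrary rows) in a small set -/
def Se_xy : Prop :=
  ∀ (V : Type) [Fintype V] (K : BK V) (L : ℕ) (p : PT V) (Q : Finset (V × V))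
    (r i s j k : Fin L),
    nc (fun o : Om K L => AllT p o ∧ (xx o r i, yy p o s j k) ∈ Q) *
      ((K.a0 : ℝ) * K.a1 * K.s * (K.b * K.t)) ≤ no K L * (Q.card : ℝ)

/-- two labels with the same point -/
def Se_inj : Prop :=
  ∀ (V : Type) [Fintype V] (K : BK V) (L : ℕ) (p : PT V),
    (∀ x c, p.tp x c → x ≠ c ∧ c ≠ p.pr x c ∧ x ≠ p.pr x c) → ∀ m : ℝ, 0 ≤ m → m ≤ (K.s : ℝ) →
    m ≤ (K.t : ℝ) → m ≤ ((Fintype.card V : ℕ) : ℝ) → ∀ (k : Fin L) (l l' : El L), l ≠ l' →
    nc (fun o : Om K L => AllT p o ∧ (arr p o).el k l = (arr p o).el k l') * m ≤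
      no K L

/-- an `x` in a small set -/
def Se_av : Prop :=
  ∀ (V : Type) [Fintype V] (K : BK V) (L : ℕ) (Q : Finset V) (r i : Fin L),
    nc (fun o : Om K L => xx o r i ∈ Q) * (K.s : ℝ) ≤
      no K L * (Q.card : ℝ)

/-- six labels with bounded law in a small set -/
def Se_es : Prop :=
  ∀ (V : Type) [Fintype V] (K : BK V) (L : ℕ) (p : PT V) (Q : Finset (Fin 6 → V)) (m : ℝ),
    0 ≤ m → m ≤ (K.s : ℝ) → m ≤ (K.t : ℝ) → m ≤ ((Fintype.card V : ℕ) : ℝ) →
    ∀ (k : Fin L) (l : Fin 6 → El L), Function.Injective l → Bdd k (univ.image l) →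
    nc (fun o : Om K L => AllT p o ∧ (fun i => (arr p o).el k (l i)) ∈ Q) *
      m ^ 6 ≤ no K L * (Q.card : ℝ)

/-! ### the deterministic part -/

/-- a good outcome: none of the bad events occurs; `W`, `U` two samples of points -/
structure Good {V : Type} [Fintype V] (v : V → R5) {K : BK V} {κ0 κ1 κ2 : Type} (f0 : V → κ0)
    (f1 : V → κ1) (f2 : V → κ2) {m N : ℕ} (W : Fin m → V) (U : Fin N → V) (p : PT V) {L : ℕ}
    (o : Om K L) : Prop where
  all : AllT p o
  inj : ∀ k, Function.Injective ((arr p o).el k)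
  cx : ∀ (a b d e : Fin L × Fin L) (k : Fin L), cc o k ∉ cutf v f2
    (cr ![v (xx o a.1 a.2), v (xx o b.1 b.2), v (xx o d.1 d.2), v (xx o e.1 e.2)])
  cy : ∀ (a b d e : Fin L × Fin L) (j k : Fin L), [a, b, d, e].Nodup → cc o j ∉ cutf v f2
    (cr ![v (xx o a.1 a.2), v (xx o b.1 b.2), v (xx o d.1 d.2), v (yy p o e.1 e.2 k)])
  xa : ∀ (r j i k : Fin L) (a b : Fin L × Fin L), a.1 ≠ r → b.1 ≠ r → xx o r i ∉ cutf v f1
    (cr ![v (ww o), v (yy p o r j k), v (xx o a.1 a.2), v (xx o b.1 b.2)])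
  xb : ∀ (r j i k : Fin L) (a b : Fin L × Fin L), a.1 ≠ r → b.1 ≠ r → a.1 ≠ b.1 →
    xx o r i ∉ cutf v f1
    (cr ![v (ww o), v (yy p o r j k), v (xx o a.1 a.2), v (yy p o b.1 b.2 k)])
  xc : ∀ (r j i k : Fin L) (a b : Fin L × Fin L), a.1 ≠ r → b.1 ≠ r → a.1 ≠ b.1 →
    xx o r i ∉ cutf v f1
    (cr ![v (ww o), v (yy p o r j k), v (yy p o a.1 a.2 k), v (yy p o b.1 b.2 k)])
  av : ∀ (r i : Fin L) (t : Fin m), xx o r i ≠ W t
  ec : ∀ (s j k : Fin L) (t : Fin 3 → Fin m), xx o s j ∉ cutf v f0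
    (cr ![v (yy p o s j k), v (W (t 0)), v (W (t 1)), v (W (t 2))])
  eu : ∀ (r i s j k : Fin L), r ≠ s → EdgeC v W (xx o r i) (yy p o s j k) →
    EdgeC v U (xx o r i) (yy p o s j k)
  ed : ∀ (k : Fin L) (l : Fin 6 → El L), Function.Injective l → Bdd k (univ.image l) →
    EdgeC v U ((arr p o).el k (l 0)) ((arr p o).el k (l 1)) →
    ¬ Pos4 (v ((arr p o).el k (l 0))) (v ((arr p o).el k (l 1))) (v ((arr p o).el k (l 2)))
      (v ((arr p o).el k (l 3))) (v ((arr p o).el k (l 4))) (v ((arr p o).el k (l 5)))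

/-- a good outcome is an array with the properties `ArrOK` -/
def S_det : Prop :=
  ∀ (V : Type) [Fintype V] [DecidableEq V] (v : V → R5) (K : BK V) (κ0 κ1 κ2 : Type)
    (f0 : V → κ0) (f1 : V → κ1) (f2 : V → κ2) (m N : ℕ) (W : Fin m → V) (U : Fin N → V)
    (p : PT V) (T : Finset (V × V × V)) (L : ℕ) (o : Om K L),
    GP v → 5 ≤ Fintype.card V → Sys v T → (∀ x c, p.tp x c → (x, c, p.pr x c) ∈ T) →
    (∀ a b i b' i', f0 (K.X a b i) = f0 (K.X a b' i')) →
    (∀ a b i i', f1 (K.X a b i) = f1 (K.X a b i')) →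
    (∀ z i i', f2 (K.C (z, i)) = f2 (K.C (z, i'))) →
    Good v f0 f1 f2 W U p o → ArrOK v (arr p o)

end Pool.Agent.F32
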