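import Pool.Agent.F32.ArrDefs

/-!
# F32: statement of the density lemma (helper40)
-/

set_option autoImplicit false

namespace Pool.Agent.F32

open Finset Matrix Circ

/-- most outcomes of a dense system have only pairs of the system (Jensen) -/
def S_dens : Prop :=
  ∀ (V : Type) [Fintype V] [DecidableEq V] (K : BK V) (p : PT V) (T : Finset (V × V × V))
    (L : ℕ) (e : ℝ), 0 < e → (∀ x c y, (x, c, y) ∈ T → p.tp x c) →
    (∀ x c y y', (x, c, y) ∈ T → (x, c, y') ∈ T → y = y') →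
    0 < K.a0 → 0 < K.a1 → 0 < K.s → 0 < K.b → 0 < K.t →
    (1 - e / 4) * ((Fintype.card V : ℕ) : ℝ) ≤ (K.a0 : ℝ) * K.a1 * K.s →
    (1 - e / 4) * ((Fintype.card V : ℕ) : ℝ) ≤ (K.b : ℝ) * K.t →
    e * ((Fintype.card V : ℕ) : ℝ) ^ 2 ≤ (T.card : ℝ) →
    (e / 2) ^ (L * L * L) * no K L ≤ nc (fun o : Om K L => AllT p o)

end Pool.Agent.F32
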