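import Pool.Agent.F32.ArrDefs

/-!
# F32: a good outcome is an array (helper61), deterministic
-/

set_option autoImplicit false

namespace Pool.Agent.F32

open Finset Matrix Circ

namespace DetS

theorem D5_rot (x y a b c : R5) : D5 x y a b c = D5 y a b c x := by
  unfold D5
  have h := Matrix.det_permute (finRotate 5).symm (Matrix.of ![y, a, b, c, x])
  have hs : Equiv.Perm.sign (finRotate 5).symm = 1 := by decide
  rw [hs] at h
  have e : (Matrix.of ![y, a, b, c, x]).submatrix (finRotate 5).symm id =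
      Matrix.of ![x, y, a, b, c] := by
    ext i j
    fin_cases i <;> rfl
  rw [e] at h
  simpa using h

theorem dot_cr (a b c d x : R5) : cr ![a, b, c, d] ⬝ᵥ x = D5 a b c d x := by
  rw [VC.cr_dot]
  rfl

/-- five distinct points have a nonzero determinant -/
theorem ne_zero {V : Type} {v : V → R5} (hv : GP v) {a b c d e : V}
    (h : Function.Injective ![a, b, c, d, e]) : D5 (v a) (v b) (v c) (v d) (v e) ≠ 0 := by
  have h1 := hv ![a, b, c, d, e] h
  unfold D5
  convert h1 using 2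
  ext i j
  fin_cases i <;> rfl

/-- points of the same class, no cut -/
theorem close {V : Type} [Fintype V] {v : V → R5} {κ : Type} {f : V → κ} {a b c d : R5} {p p' : V}
    (hp : p ∉ cutf v f (cr ![a, b, c, d])) (hf : f p' = f p) (h1 : D5 a b c d (v p) ≠ 0)
    (h2 : D5 a b c d (v p') ≠ 0) : 0 < D5 a b c d (v p) * D5 a b c d (v p') := by
  classical
  unfold cutf at hp
  simp only [mem_filter, mem_univ, true_and, not_exists, not_and, dot_cr] at hp
  rcases lt_or_gt_of_ne h1 with h3 | h3 <;> rcases lt_or_gt_of_ne h2 with h4 | h4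
  · exact mul_pos_of_neg_of_neg h3 h4
  · exact absurd h4 (hp p p' rfl hf h3)
  · exact absurd h3 (hp p' p hf rfl h4)
  · exact mul_pos h3 h4

theorem exists_two {V : Type} [Fintype V] [DecidableEq V] (h5 : 5 ≤ Fintype.card V) (x y z : V) :
    ∃ a b : V, a ≠ b ∧ a ≠ x ∧ a ≠ y ∧ a ≠ z ∧ b ≠ x ∧ b ≠ y ∧ b ≠ z := by
  have h1 : 1 < ((univ : Finset V) \ {x, y, z}).card := by
    have h2 := le_card_sdiff ({x, y, z} : Finset V) univ
    have h3 : ({x, y, z} : Finset V).card ≤ 3 := card_le_three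
    rw [card_univ] at h2
    omega
  obtain ⟨a, ha, b, hb, hab⟩ := one_lt_card.1 h1
  simp only [mem_sdiff, mem_univ, true_and, mem_insert, mem_singleton, not_or] at ha hb
  exact ⟨a, b, hab, ha.1, ha.2.1, ha.2.2, hb.1, hb.2.1, hb.2.2⟩

/-- a functional which vanishes at two points and is positive at a third one -/
theorem funct {V : Type} [Fintype V] [DecidableEq V] {v : V → R5} (hv : GP v)
    (h5 : 5 ≤ Fintype.card V) {x y z : V} (hxy : x ≠ y) (hxz : x ≠ z) (hyz : y ≠ z) :
    ∃ g : R5, v x ⬝ᵥ g = 0 ∧ v y ⬝ᵥ g = 0 ∧ 0 < v z ⬝ᵥ g := by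
  obtain ⟨a, b, hab, ax, ay, az, bx, b_y, bz⟩ := exists_two h5 x y z
  have h1 : D5 (v x) (v y) (v a) (v b) (v z) ≠ 0 := by
    apply ne_zero hv
    intro i j hij
    fin_cases i <;> fin_cases j <;> simp_all [eq_comm]
  have e1 : ∀ w : V, v w ⬝ᵥ cr ![v x, v y, v a, v b] = D5 (v x) (v y) (v a) (v b) (v w) := by
    intro w
    rw [dotProduct_comm, dot_cr]
  have x0 := e1 x
  have y0 := e1 y
  rw [Win.D5_15] at x0
  rw [Win.D5_25] at y0
  rcases lt_or_gt_of_ne h1 with h2 | h2
  · refine ⟨-cr ![v x, v y, v a, v b], ?_, ?_, ?_⟩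
    · rw [dotProduct_neg, x0, neg_zero]
    · rw [dotProduct_neg, y0, neg_zero]
    · rw [dotProduct_neg, e1]
      linarith
  · exact ⟨cr ![v x, v y, v a, v b], x0, y0, by rw [e1]; exact h2⟩

/-- the sides of a triangle are edges -/
theorem sides {V : Type} [Fintype V] [DecidableEq V] {v : V → R5} (hv : GP v)
    (h5 : 5 ≤ Fintype.card V) {x y z : V} (hxy : x ≠ y) (hxz : x ≠ z) (hyz : y ≠ z)
    (h : Tri v Set.univ x y z) :
    Edge v Set.univ x y ∧ Edge v Set.univ x z ∧ Edge v Set.univ y z := by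
  refine ⟨?_, ?_, ?_⟩
  · obtain ⟨g, g1, g2, g3⟩ := funct hv h5 hxy hxz hyz
    exact h.edge g1 g2 g3
  · obtain ⟨g, g1, g2, g3⟩ := funct hv h5 hxz hxy hyz.symm
    have h' : Tri v Set.univ x z y := by
      obtain ⟨f, k1, k2, k3, k4⟩ := h
      exact ⟨f, k1, k3, k2, fun s hs a b c => k4 s hs a c b⟩
    exact h'.edge g1 g2 g3
  · obtain ⟨g, g1, g2, g3⟩ := funct hv h5 hyz hxy.symm hxz.symm
    have h' : Tri v Set.univ y z x := by
      obtain ⟨f, k1, k2, k3, k4⟩ := h
      exact ⟨f, k2, k3, k1, fun s hs a b c => k4 s hs c a b⟩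
    exact h'.edge g1 g2 g3

/-- the circuit at a close point -/
theorem pos4_iff {x x' y a b c d : R5} (h1 : 0 < D5 y b c d x * D5 y b c d x')
    (h2 : 0 < D5 y a c d x * D5 y a c d x') (h3 : 0 < D5 y a b d x * D5 y a b d x')
    (h4 : 0 < D5 y a b c x * D5 y a b c x') (h : Pos4 x' y a b c d) : Pos4 x y a b c d := by
  unfold Pos4 at h ⊢
  rw [D5_rot x' y b c d, D5_rot x' y a c d, D5_rot x' y a b d, D5_rot x' y a b c] at h
  rw [D5_rot x y b c d, D5_rot x y a c d, D5_rot x y a b d, D5_rot x y a b c]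
  rcases h with ⟨k1, k2, k3, k4⟩ | ⟨k1, k2, k3, k4⟩
  · left
    exact ⟨(pos_iff_pos_of_mul_pos h1).2 k1, (neg_iff_neg_of_mul_pos h2).2 k2,
      (pos_iff_pos_of_mul_pos h3).2 k3, (neg_iff_neg_of_mul_pos h4).2 k4⟩
  · right
    exact ⟨(neg_iff_neg_of_mul_pos h1).2 k1, (pos_iff_pos_of_mul_pos h2).2 k2,
      (neg_iff_neg_of_mul_pos h3).2 k3, (pos_iff_pos_of_mul_pos h4).2 k4⟩

/-- five distinct labels have a nonzero determinant -/
theorem el_ne {V : Type} {v : V → R5} (hv : GP v) {L : ℕ} {A : Arr V L} {k : Fin L}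
    (hA : Function.Injective (A.el k)) {a b c d e : El L}
    (h : Function.Injective ![a, b, c, d, e]) :
    D5 (v (A.el k a)) (v (A.el k b)) (v (A.el k c)) (v (A.el k d)) (v (A.el k e)) ≠ 0 := by
  apply ne_zero hv
  have e1 : ![A.el k a, A.el k b, A.el k c, A.el k d, A.el k e] = A.el k ∘ ![a, b, c, d, e] := by
    funext i
    fin_cases i <;> rfl
  rw [e1]
  exact hA.comp h

theorem inj5 {α : Type} {a b c d e : α} (h : [a, b, c, d, e].Nodup) :
    Function.Injective ![a, b, c, d, e] := by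
  intro i j hij
  simp only [List.nodup_cons, List.mem_cons, List.not_mem_nil, or_false, not_or,
    not_false_eq_true, List.nodup_nil, and_true] at h
  obtain ⟨⟨h1, h2, h3, h4⟩, ⟨h5, h6, h7⟩, ⟨h8, h9⟩, h10⟩ := h
  fin_cases i <;> fin_cases j <;> first | rfl | (exfalso; revert hij; simp_all [eq_comm])

theorem X_ne {L : ℕ} {a b : Fin L × Fin L} (h : a ≠ b) : (El.X a.1 a.2 : El L) ≠ El.X b.1 b.2 := by
  intro he
  rw [El.X.injEq] at he
  exact h (Prod.ext he.1 he.2)

theorem Y_ne {L : ℕ} {a b : Fin L × Fin L} (h : a ≠ b) : (El.Y a.1 a.2 : El L) ≠ El.Y b.1 b.2 := by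
  intro he
  rw [El.Y.injEq] at he
  exact h (Prod.ext he.1 he.2)

theorem X_ne' {L : ℕ} {r s i j : Fin L} (h : r ≠ s) : (El.X r i : El L) ≠ El.X s j := by
  intro he
  rw [El.X.injEq] at he
  exact h he.1

theorem Y_ne' {L : ℕ} {r s i j : Fin L} (h : r ≠ s) : (El.Y r i : El L) ≠ El.Y s j := by
  intro he
  rw [El.Y.injEq] at he
  exact h he.1

/-- a nonzero determinant has distinct points -/
theorem inj_of_ne {V : Type} {v : V → R5} {a b c d e : V}
    (h : D5 (v a) (v b) (v c) (v d) (v e) ≠ 0) : Function.Injective ![a, b, c, d, e] := by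
  intro i j hij
  by_contra hne
  apply h
  unfold D5
  have e1 : ∀ i : Fin 5, (Matrix.of ![v a, v b, v c, v d, v e] : Matrix (Fin 5) (Fin 5) ℝ) i =
      v (![a, b, c, d, e] i) := by
    intro i
    fin_cases i <;> rfl
  refine Matrix.det_zero_of_row_eq hne ?_
  rw [e1, e1, hij]

theorem nd5 {α : Type} {a b c d e : α} (h1 : a ≠ b) (h2 : a ≠ c) (h3 : a ≠ d) (h4 : a ≠ e)
    (h5 : b ≠ c) (h6 : b ≠ d) (h7 : b ≠ e) (h8 : c ≠ d) (h9 : c ≠ e) (h10 : d ≠ e) :
    Function.Injective ![a, b, c, d, e] := by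
  apply inj5
  simp only [List.nodup_cons, List.mem_cons, List.not_mem_nil, or_false, not_or,
    not_false_eq_true, List.nodup_nil, and_true]
  exact ⟨⟨h1, h2, h3, h4⟩, ⟨h5, h6, h7⟩, ⟨h8, h9⟩, h10⟩

end DetS

open DetS in
theorem det_step : S_det := by
  intro V _ _ v K κ0 κ1 κ2 f0 f1 f2 m N W U p T L o hv h5 hT hp hf0 hf1 hf2 hG
  have hel : ∀ k : Fin L, Function.Injective ((arr p o).el k) := hG.inj
  have hmem : ∀ r i k, (xx o r i, cc o k, yy p o r i k) ∈ T := fun r i k => hp _ _ (hG.all r i k)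
  have htri : ∀ r i k, Tri v Set.univ (xx o r i) (cc o k) (yy p o r i k) :=
    fun r i k => hT.tri _ _ _ (hmem r i k)
  have hne : ∀ r i k, xx o r i ≠ cc o k ∧ cc o k ≠ yy p o r i k ∧ xx o r i ≠ yy p o r i k :=
    fun r i k => hT.ne _ _ _ (hmem r i k)
  have hsides := fun r i k => sides hv h5 (hne r i k).1 (hne r i k).2.2 (hne r i k).2.1 (htri r i k)
  have cl2 : ∀ k k', f2 (cc o k) = f2 (cc o k') := fun k k' => hf2 _ _ _
  have cl1 : ∀ r i i', f1 (xx o r i) = f1 (xx o r i') := fun r i i' => hf1 _ _ _ _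
  have cl0 : ∀ r i s j, f0 (xx o r i) = f0 (xx o s j) := fun r i s j => hf0 _ _ _ _ _
  refine ⟨hel, htri, fun r i k => (hsides r i k).1, fun r i k => (hsides r i k).2.1,
    fun r i k => (hsides r i k).2.2, ?_, ?_, ?_, ?_, ?_, ?_⟩
  · intro a b d e hn k k'
    simp only [List.nodup_cons, List.mem_cons, List.not_mem_nil, or_false, not_or,
      not_false_eq_true, List.nodup_nil, and_true] at hn
    obtain ⟨⟨n1, n2, n3⟩, ⟨n4, n5⟩, n6⟩ := hn
    have key : ∀ k : Fin L, D5 (v (xx o a.1 a.2)) (v (xx o b.1 b.2)) (v (xx o d.1 d.2))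
        (v (xx o e.1 e.2)) (v (cc o k)) ≠ 0 := fun k =>
      el_ne hv (hel k) (a := .X a.1 a.2) (b := .X b.1 b.2) (c := .X d.1 d.2) (d := .X e.1 e.2)
        (e := .C k) (nd5 (X_ne n1) (X_ne n2) (X_ne n3) nofun (X_ne n4) (X_ne n5) nofun (X_ne n6)
          nofun nofun)
    exact close (hG.cx a b d e k) (cl2 k' k) (key k) (key k')
  · intro a b d e hn k j j'
    have hn' := hn
    simp only [List.nodup_cons, List.mem_cons, List.not_mem_nil, or_false, not_or,
      not_false_eq_true, List.nodup_nil, and_true] at hn'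
    obtain ⟨⟨n1, n2, n3⟩, ⟨n4, n5⟩, n6⟩ := hn'
    have key : ∀ j : Fin L, D5 (v (xx o a.1 a.2)) (v (xx o b.1 b.2)) (v (xx o d.1 d.2))
        (v (yy p o e.1 e.2 k)) (v (cc o j)) ≠ 0 := fun j =>
      el_ne hv (hel k) (a := .X a.1 a.2) (b := .X b.1 b.2) (c := .X d.1 d.2) (d := .Y e.1 e.2)
        (e := .C j) (nd5 (X_ne n1) (X_ne n2) nofun nofun (X_ne n4) nofun nofun nofun
          nofun nofun)
    exact close (hG.cy a b d e j k hn) (cl2 j' j) (key j) (key j')
  · intro r j i i' k a b ha hb hab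
    have key : ∀ i : Fin L, D5 (v (ww o)) (v (yy p o r j k)) (v (xx o a.1 a.2))
        (v (xx o b.1 b.2)) (v (xx o r i)) ≠ 0 := fun i =>
      el_ne hv (hel k) (a := .W) (b := .Y r j) (c := .X a.1 a.2) (d := .X b.1 b.2)
        (e := .X r i) (nd5 nofun nofun nofun nofun nofun nofun nofun (X_ne hab) (X_ne' ha)
          (X_ne' hb))
    exact close (hG.xa r j i k a b ha hb) (cl1 r i' i) (key i) (key i')
  · intro r j i i' k a b ha hb hab
    have key : ∀ i : Fin L, D5 (v (ww o)) (v (yy p o r j k)) (v (xx o a.1 a.2))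
        (v (yy p o b.1 b.2 k)) (v (xx o r i)) ≠ 0 := fun i =>
      el_ne hv (hel k) (a := .W) (b := .Y r j) (c := .X a.1 a.2) (d := .Y b.1 b.2)
        (e := .X r i) (nd5 nofun nofun nofun nofun nofun (Y_ne' hb.symm) nofun nofun (X_ne' ha)
          nofun)
    exact close (hG.xb r j i k a b ha hb hab) (cl1 r i' i) (key i) (key i')
  · intro r j i i' k a b ha hb hab
    have key : ∀ i : Fin L, D5 (v (ww o)) (v (yy p o r j k)) (v (yy p o a.1 a.2 k))
        (v (yy p o b.1 b.2 k)) (v (xx o r i)) ≠ 0 := fun i =>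
      el_ne hv (hel k) (a := .W) (b := .Y r j) (c := .Y a.1 a.2) (d := .Y b.1 b.2)
        (e := .X r i) (nd5 nofun nofun nofun nofun (Y_ne' ha.symm) (Y_ne' hb.symm) nofun
          (Y_ne' hab) nofun nofun)
    exact close (hG.xc r j i k a b ha hb hab) (cl1 r i' i) (key i) (key i')
  · intro k r i s j hrs a b c d hcard hB
    -- the pair is an edge relative to `W`
    have e1 : EdgeC v W (xx o s j) (yy p o s j k) :=
      Win.edgeC_of_edge (hsides s j k).2.1 W fun _ => Set.mem_univ _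
    have e2 : EdgeC v W (xx o r i) (yy p o s j k) := by
      intro t ht
      apply e1 t
      have cl : ∀ q1 q2 q3 : Fin m,
          D5 (v (yy p o s j k)) (v (W q1)) (v (W q2)) (v (W q3)) (v (xx o r i)) ≠ 0 →
          0 < D5 (v (yy p o s j k)) (v (W q1)) (v (W q2)) (v (W q3)) (v (xx o s j)) *
            D5 (v (yy p o s j k)) (v (W q1)) (v (W q2)) (v (W q3)) (v (xx o r i)) := by
        intro q1 q2 q3 hq
        have h6 := inj_of_ne hq
        have g : ∀ x y : Fin 5, x ≠ y →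
            (![yy p o s j k, W q1, W q2, W q3, xx o r i] : Fin 5 → V) x ≠
              (![yy p o s j k, W q1, W q2, W q3, xx o r i] : Fin 5 → V) y :=
          fun x y hxy he => hxy (h6 he)
        have h7 : D5 (v (yy p o s j k)) (v (W q1)) (v (W q2)) (v (W q3)) (v (xx o s j)) ≠ 0 := by
          apply ne_zero hv
          exact nd5 (g 0 1 (by decide)) (g 0 2 (by decide)) (g 0 3 (by decide))
            (hne s j k).2.2.symm (g 1 2 (by decide)) (g 1 3 (by decide)) (hG.av s j q1).symm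
            (g 2 3 (by decide)) (hG.av s j q2).symm (hG.av s j q3).symm
        exact close (hG.ec s j k ![q1, q2, q3]) (cl0 r i s j) h7 hq
      have ht' := ht
      unfold Pos4 at ht'
      rw [D5_rot (v (xx o r i)), D5_rot (v (xx o r i)), D5_rot (v (xx o r i)),
        D5_rot (v (xx o r i))] at ht'
      have n1 : D5 (v (yy p o s j k)) (v (W (t 1))) (v (W (t 2))) (v (W (t 3))) (v (xx o r i)) ≠
          0 := by
        rcases ht' with ⟨k1, k2, k3, k4⟩ | ⟨k1, k2, k3, k4⟩
        · exact k1.ne'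
        · exact k1.ne
      have n2 : D5 (v (yy p o s j k)) (v (W (t 0))) (v (W (t 2))) (v (W (t 3))) (v (xx o r i)) ≠
          0 := by
        rcases ht' with ⟨k1, k2, k3, k4⟩ | ⟨k1, k2, k3, k4⟩
        · exact k2.ne
        · exact k2.ne'
      have n3 : D5 (v (yy p o s j k)) (v (W (t 0))) (v (W (t 1))) (v (W (t 3))) (v (xx o r i)) ≠
          0 := by
        rcases ht' with ⟨k1, k2, k3, k4⟩ | ⟨k1, k2, k3, k4⟩
        · exact k3.ne'
        · exact k3.ne
      have n4 : D5 (v (yy p o s j k)) (v (W (t 0))) (v (W (t 1))) (v (W (t 2))) (v (xx o r i)) ≠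
          0 := by
        rcases ht' with ⟨k1, k2, k3, k4⟩ | ⟨k1, k2, k3, k4⟩
        · exact k4.ne
        · exact k4.ne'
      exact pos4_iff (cl _ _ _ n1) (cl _ _ _ n2) (cl _ _ _ n3) (cl _ _ _ n4) ht
    have e3 := hG.eu r i s j k hrs e2
    set l : Fin 6 → El L := ![.X r i, .Y s j, a, b, c, d] with hl
    have himg : univ.image l = ({El.X r i, El.Y s j, a, b, c, d} : Finset (El L)) := by
      ext x
      simp only [mem_image, mem_univ, true_and, mem_insert, mem_singleton]
      constructor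
      · rintro ⟨y, rfl⟩
        fin_cases y <;> simp [hl]
      · rintro (h | h | h | h | h | h)
        · exact ⟨0, h.symm⟩
        · exact ⟨1, h.symm⟩
        · exact ⟨2, h.symm⟩
        · exact ⟨3, h.symm⟩
        · exact ⟨4, h.symm⟩
        · exact ⟨5, h.symm⟩
    have hinj : Function.Injective l := by
      have h6 := (Finset.card_image_iff (s := univ) (f := l)).1 (by
        rw [himg, hcard, card_univ, Fintype.card_fin])
      intro x y hxy
      exact h6 (by simp) (by simp) hxy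
    exact hG.ed k l hinj (by rw [himg]; exact hB) e3

end Pool.Agent.F32
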