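import Pool.Agent.F32.ArrDefs

/-!
# F32: the events `cy`, `xy`, `av` (helper70)
-/

set_option autoImplicit false

namespace Pool.Agent.F32

open Finset Matrix Circ

/-- a column in a small set which depends on three points `x` and an unrelated `y` -/
theorem ev_cy : Se_cy := by
  intro V _ K L p Z E hZ j k a b d e hnd
  have hae : ¬ (a.1 = e.1 ∧ a.2 = e.2) := by
    intro h
    have : a = e := Prod.ext h.1 h.2
    simp [this] at hnd
  have hbe : ¬ (b.1 = e.1 ∧ b.2 = e.2) := by
    intro h
    have : b = e := Prod.ext h.1 h.2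
    simp [this] at hnd
  have hde : ¬ (d.1 = e.1 ∧ d.2 = e.2) := by
    intro h
    have : d = e := Prod.ext h.1 h.2
    simp [this] at hnd
  have h := nc_count (K := K) (L := L) {Co.z, Co.q j, Co.P e.1 e.2}
    (fun o : Om K L => AllT p o ∧ cc o j ∈
      Z (xx o a.1 a.2) (xx o b.1 b.2) (xx o d.1 d.2) (yy p o e.1 e.2 k))
    (fun o => (⟨yy p o e.1 e.2 k, cc o j⟩ : (_ : V) × V))
    (fun o => univ.sigma fun y => Z (xx o a.1 a.2) (xx o b.1 b.2) (xx o d.1 d.2) y)
    (B := ((Fintype.card V : ℕ) : ℝ) * E) ?_ ?_ ?_ ?_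
  · rw [prod_insert (by simp), prod_insert (by simp), prod_singleton] at h
    refine le_trans (le_of_eq ?_) h
    simp only [BK.sz]
    ring
  · intro o
    rw [card_sigma]
    push_cast
    refine (sum_le_card_nsmul _ _ _ fun y _ => hZ _ _ _ _).trans ?_
    rw [nsmul_eq_mul, card_univ]
  · intro o o' hoo
    have hx : ∀ f : Fin L × Fin L, ¬ (f.1 = e.1 ∧ f.2 = e.2) → xx o f.1 f.2 = xx o' f.1 f.2 :=
      fun f hf => xx_congr (hoo _ (by simp)) (hoo _ (by simp)) (hoo _ (by
        simp only [mem_insert, mem_singleton, Co.P.injEq, reduceCtorEq, false_or]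
        exact hf))
    simp only [hx _ hae, hx _ hbe, hx _ hde]
  · intro o ho
    exact mem_sigma.2 ⟨mem_univ _, ho.2⟩
  · intro o o' ho ho' hoo hg c hc
    rw [Sigma.mk.injEq] at hg
    obtain ⟨g1, g2⟩ := hg
    have g2' := eq_of_heq g2
    obtain ⟨e1, e2⟩ := cc_inj g2'
    have e3 : o (.q k) = o' (.q k) := by
      by_cases hkj : k = j
      · rw [hkj]
        exact e2
      · exact hoo _ (by simp [hkj])
    obtain ⟨-, -, e4⟩ := xx_inj (yy_inj_x ho.1 ho'.1 (cc_congr e1 e3) g1)
    simp only [mem_insert, mem_singleton] at hc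
    rcases hc with rfl | rfl | rfl
    · exact e1
    · exact e2
    · exact e4

/-- a pair `x, y` (arbitrary rows) in a small set -/
theorem ev_xy : Se_xy := by
  intro V _ K L p Q r i s j k
  have h := nc_count (K := K) (L := L) {Co.a, Co.A r, Co.P r i, Co.z, Co.q k}
    (fun o : Om K L => AllT p o ∧ (xx o r i, yy p o s j k) ∈ Q)
    (fun o => (xx o r i, yy p o s j k)) (fun _ => Q)
    (B := (Q.card : ℝ)) (fun _ => le_rfl) (fun _ _ _ => rfl) (fun o ho => ho.2) ?_
  · rw [prod_insert (by simp), prod_insert (by simp), prod_insert (by simp),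
      prod_insert (by simp), prod_singleton] at h
    refine le_trans (le_of_eq ?_) h
    simp only [BK.sz]
    ring
  · intro o o' ho ho' hoo hg c hc
    rw [Prod.mk.injEq] at hg
    obtain ⟨g1, g2⟩ := hg
    obtain ⟨e1, e2, e3⟩ := xx_inj g1
    have e4 : o (.A s) = o' (.A s) := by
      by_cases hs : s = r
      · rw [hs]
        exact e2
      · exact hoo _ (by simp [hs])
    have e5 : o (.P s j) = o' (.P s j) := by
      by_cases hs : s = r ∧ j = i
      · rw [hs.1, hs.2]
        exact e3
      · refine hoo _ ?_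
        simp only [mem_insert, mem_singleton, Co.P.injEq, reduceCtorEq, false_or, or_false]
        exact hs
    obtain ⟨e6, e7⟩ := cc_inj (yy_inj_c ho.1 ho'.1 (xx_congr e1 e4 e5) g2)
    simp only [mem_insert, mem_singleton] at hc
    rcases hc with rfl | rfl | rfl | rfl | rfl
    · exact e1
    · exact e2
    · exact e3
    · exact e6
    · exact e7

/-- an `x` in a small set -/
theorem ev_av : Se_av := by
  intro V _ K L Q r i
  have h := nc_count (K := K) (L := L) {Co.P r i}
    (fun o : Om K L => xx o r i ∈ Q)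
    (fun o => xx o r i) (fun _ => Q)
    (B := (Q.card : ℝ)) (fun _ => le_rfl) (fun _ _ _ => rfl) (fun o ho => ho) ?_
  · rw [prod_singleton] at h
    exact h
  · intro o o' _ _ _ hg c hc
    rw [mem_singleton.1 hc]
    exact (xx_inj hg).2.2

end Pool.Agent.F32
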