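import Pool.Agent.F32.ArrDefs

/-!
# F32: two labels with the same point (helper31)
-/

set_option autoImplicit false

namespace Pool.Agent.F32

open Finset Matrix Circ

namespace Inj

variable {V : Type} [Fintype V] {K : BK V} {L : ℕ} {m : ℝ}

/-- one fresh coordinate -/
theorem one (c0 : Co L) (hm : m ≤ (K.sz c0 : ℝ)) (Pr : Om K L → Prop) (g h : Om K L → V)
    (hh : ∀ o o' : Om K L, (∀ c, c ≠ c0 → o c = o' c) → h o = h o')
    (hg : ∀ o o' : Om K L, (∀ c, c ≠ c0 → o c = o' c) → g o = g o' → o c0 = o' c0)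
    (hP : ∀ o, Pr o → g o = h o) : nc Pr * m ≤ no K L := by
  have h1 := nc_count (K := K) (L := L) {c0} Pr g (fun o => {h o}) (B := 1)
    (fun o => by simp)
    (fun o o' hoo => by rw [hh o o' fun c hc => hoo c (by simpa using hc)])
    (fun o ho => by rw [hP o ho]; exact mem_singleton_self _)
    (fun o o' ho ho' hoo he c hc => by
      obtain rfl := mem_singleton.1 hc
      exact hg o o' (fun c' hc' => hoo c' (by simpa using hc')) he)
  rw [prod_singleton, mul_one] at h1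
  have h2 : 0 ≤ nc Pr := Nat.cast_nonneg _
  exact (mul_le_mul_of_nonneg_left hm h2).trans h1

/-- an empty event -/
theorem empty (Pr : Om K L → Prop) (hP : ∀ o, ¬ Pr o) : nc Pr * m ≤ no K L := by
  have h1 : nc Pr = 0 := by
    classical
    unfold nc
    rw [Nat.cast_eq_zero, card_eq_zero, filter_eq_empty_iff]
    exact fun o _ => hP o
  rw [h1, zero_mul]
  exact Nat.cast_nonneg _

theorem mono (hm : 0 ≤ m) {Pr Pr' : Om K L → Prop} (h : ∀ o, Pr o → Pr' o)
    (h' : nc Pr' * m ≤ no K L) : nc Pr * m ≤ no K L := by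
  refine le_trans (mul_le_mul_of_nonneg_right ?_ hm) h'
  classical
  unfold nc
  exact_mod_cast card_le_card fun o ho => mem_filter.2 ⟨mem_univ _, h o (mem_filter.1 ho).2⟩

theorem xx_ne {o o' : Om K L} {r i r' i' : Fin L} (h : ¬ (r' = r ∧ i' = i))
    (hoo : ∀ c, c ≠ Co.P r i → o c = o' c) : xx o r' i' = xx o' r' i' :=
  xx_congr (hoo _ (by simp)) (hoo _ (by simp)) (hoo _ (by simpa using h))

theorem cc_ne {o o' : Om K L} {j j' : Fin L} (h : j' ≠ j)
    (hoo : ∀ c, c ≠ Co.q j → o c = o' c) : cc o j' = cc o' j' :=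
  cc_congr (hoo _ (by simp)) (hoo _ (by simpa using h))

theorem cXX (hs : m ≤ (K.s : ℝ)) (p : PT V) {r i r' i' : Fin L} (h : ¬ (r' = r ∧ i' = i)) :
    nc (fun o : Om K L => AllT p o ∧ xx o r i = xx o r' i') * m ≤ no K L :=
  one (.P r i) hs _ (fun o => xx o r i) (fun o => xx o r' i') (fun _ _ => xx_ne h)
    (fun _ _ _ he => (xx_inj he).2.2) fun _ ho => ho.2

theorem cXC (hs : m ≤ (K.s : ℝ)) (p : PT V) (r i j : Fin L) :
    nc (fun o : Om K L => AllT p o ∧ xx o r i = cc o j) * m ≤ no K L :=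
  one (.P r i) hs _ (fun o => xx o r i) (fun o => cc o j)
    (fun _ _ hoo => cc_congr (hoo _ (by simp)) (hoo _ (by simp)))
    (fun _ _ _ he => (xx_inj he).2.2) fun _ ho => ho.2

theorem cXY (hm : 0 ≤ m) (hs : m ≤ (K.s : ℝ)) (p : PT V)
    (hp : ∀ x c, p.tp x c → x ≠ c ∧ c ≠ p.pr x c ∧ x ≠ p.pr x c) (r i r' i' k : Fin L) :
    nc (fun o : Om K L => AllT p o ∧ xx o r i = yy p o r' i' k) * m ≤ no K L := by
  by_cases h : r' = r ∧ i' = i
  · obtain ⟨rfl, rfl⟩ := h
    exact empty _ fun o ho => (hp _ _ (ho.1 r' i' k)).2.2 ho.2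
  · refine one (.P r i) hs _ (fun o => xx o r i) (fun o => yy p o r' i' k) (fun o o' hoo => ?_)
      (fun _ _ _ he => (xx_inj he).2.2) fun _ ho => ho.2
    show p.pr (xx o r' i') (cc o k) = p.pr (xx o' r' i') (cc o' k)
    rw [xx_ne h hoo, cc_congr (o' := o') (hoo .z (by simp)) (hoo (.q k) (by simp))]

theorem cCC (ht : m ≤ (K.t : ℝ)) (p : PT V) {j j' : Fin L} (h : j' ≠ j) :
    nc (fun o : Om K L => AllT p o ∧ cc o j = cc o j') * m ≤ no K L :=
  one (.q j) ht _ (fun o => cc o j) (fun o => cc o j') (fun _ _ => cc_ne h)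
    (fun _ _ _ he => (cc_inj he).2) fun _ ho => ho.2

theorem cCY (hm : 0 ≤ m) (ht : m ≤ (K.t : ℝ)) (p : PT V)
    (hp : ∀ x c, p.tp x c → x ≠ c ∧ c ≠ p.pr x c ∧ x ≠ p.pr x c) (j r i k : Fin L) :
    nc (fun o : Om K L => AllT p o ∧ cc o j = yy p o r i k) * m ≤ no K L := by
  by_cases h : k = j
  · obtain rfl := h
    exact empty _ fun o ho => (hp _ _ (ho.1 r i k)).2.1 ho.2
  · refine one (.q j) ht _ (fun o => cc o j) (fun o => yy p o r i k) (fun o o' hoo => ?_)
      (fun _ _ _ he => (cc_inj he).2) fun _ ho => ho.2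
    show p.pr (xx o r i) (cc o k) = p.pr (xx o' r i) (cc o' k)
    rw [cc_ne h hoo, xx_congr (o' := o') (hoo .a (by simp)) (hoo (.A r) (by simp))
      (hoo (.P r i) (by simp))]

theorem cYY (hm : 0 ≤ m) (hs : m ≤ (K.s : ℝ)) (p : PT V) {r i r' i' k : Fin L}
    (h : ¬ (r' = r ∧ i' = i)) :
    nc (fun o : Om K L => AllT p o ∧ yy p o r i k = yy p o r' i' k) * m ≤ no K L :=
  mono hm (fun o ho => ⟨ho.1, p.rinj _ _ _ (ho.1 r i k) (ho.1 r' i' k) ho.2⟩) (cXX hs p h)

theorem cW (hw : m ≤ ((Fintype.card V : ℕ) : ℝ)) (p : PT V) (h : Om K L → V)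
    (hh : ∀ o o' : Om K L, (∀ c, c ≠ Co.w → o c = o' c) → h o = h o') :
    nc (fun o : Om K L => AllT p o ∧ ww o = h o) * m ≤ no K L :=
  one .w hw _ (fun o => ww o) h hh (fun _ _ _ he => he) fun _ ho => ho.2

theorem sym {Pr : Om K L → Prop} {f g : Om K L → V}
    (h : nc (fun o : Om K L => Pr o ∧ f o = g o) * m ≤ no K L) :
    nc (fun o : Om K L => Pr o ∧ g o = f o) * m ≤ no K L := by
  have : (fun o : Om K L => Pr o ∧ g o = f o) = fun o : Om K L => Pr o ∧ f o = g o := by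
    funext o
    exact propext (and_congr_right fun _ => eq_comm)
  rw [this]
  exact h

end Inj

/-- two labels with the same point -/
theorem ev_inj : Se_inj := by
  intro V _ K L p hp m hm hs ht hw k l l' hll
  have hxx : ∀ (o o' : Om K L) (r i : Fin L), (∀ c, c ≠ Co.w → o c = o' c) →
      xx o r i = xx o' r i := fun o o' r i hoo =>
    xx_congr (hoo _ (by simp)) (hoo _ (by simp)) (hoo _ (by simp))
  have hcc : ∀ (o o' : Om K L) (j : Fin L), (∀ c, c ≠ Co.w → o c = o' c) →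
      cc o j = cc o' j := fun o o' j hoo => cc_congr (hoo _ (by simp)) (hoo _ (by simp))
  have hyy : ∀ (o o' : Om K L) (r i j : Fin L), (∀ c, c ≠ Co.w → o c = o' c) →
      yy p o r i j = yy p o' r i j := fun o o' r i j hoo => by
    unfold yy
    rw [hxx o o' r i hoo, hcc o o' j hoo]
  cases l with
  | X r i =>
    cases l' with
    | X r' i' =>
      exact Inj.cXX hs p fun h => hll (by rw [h.1, h.2])
    | C j => exact Inj.cXC hs p r i j
    | Y r' i' => exact Inj.cXY hm hs p hp r i r' i' k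
    | W => exact Inj.sym (Inj.cW hw p (fun o => xx o r i) fun o o' hoo => hxx o o' r i hoo)
  | C j =>
    cases l' with
    | X r' i' => exact Inj.sym (Inj.cXC hs p r' i' j)
    | C j' => exact Inj.cCC ht p fun h => hll (by rw [h])
    | Y r' i' => exact Inj.cCY hm ht p hp j r' i' k
    | W => exact Inj.sym (Inj.cW hw p (fun o => cc o j) fun o o' hoo => hcc o o' j hoo)
  | Y r i =>
    cases l' with
    | X r' i' => exact Inj.sym (Inj.cXY hm hs p hp r' i' r i k)
    | C j' => exact Inj.sym (Inj.cCY hm ht p hp j' r i k)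
    | Y r' i' => exact Inj.cYY hm hs p fun h => hll (by rw [h.1, h.2])
    | W => exact Inj.sym (Inj.cW hw p (fun o => yy p o r i k) fun o o' hoo => hyy o o' r i k hoo)
  | W =>
    cases l' with
    | X r' i' => exact Inj.cW hw p (fun o => xx o r' i') fun o o' hoo => hxx o o' r' i' hoo
    | C j' => exact Inj.cW hw p (fun o => cc o j') fun o o' hoo => hcc o o' j' hoo
    | Y r' i' =>
      exact Inj.cW hw p (fun o => yy p o r' i' k) fun o o' hoo => hyy o o' r' i' k hoo
    | W => exact absurd rfl hll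

end Pool.Agent.F32
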