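import Mathlib

/-!
# F32: finite Ramsey theorem for s-subsets and its product form (helper40)
-/

set_option autoImplicit false

namespace Pool.Agent.F32

open Finset

namespace Rams

/-- Ramsey theorem for `s`-subsets of finite sets of naturals, all finite colour types -/
def RS (s : ℕ) : Prop :=
  ∀ (κ : Type) [Finite κ] [Nonempty κ] (m : ℕ), ∃ N : ℕ, ∀ A : Finset ℕ, N ≤ A.card →
    ∀ f : Finset ℕ → κ, ∃ H ⊆ A, H.card = m ∧ ∃ c : κ, ∀ T ⊆ H, T.card = s → f T = c

theorem rs_zero : RS 0 := by
  intro κ _ _ m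
  refine ⟨m, fun A hA f => ?_⟩
  obtain ⟨H, hH, hc⟩ := exists_subset_card_eq hA
  refine ⟨H, hH, hc, f ∅, fun T _ hT => ?_⟩
  rw [card_eq_zero.1 hT]

/-- sets on which the colour of an `(s+1)`-subset depends only on its least element -/
theorem min_hom {s : ℕ} (hs : RS s) (κ : Type) [Finite κ] [Nonempty κ] (L : ℕ) :
    ∃ N : ℕ, ∀ A : Finset ℕ, N ≤ A.card → ∀ f : Finset ℕ → κ,
      ∃ B ⊆ A, B.card = L ∧ ∃ c : ℕ → κ, ∀ a ∈ B, ∀ T ⊆ B, T.card = s →
        (∀ x ∈ T, a < x) → f (insert a T) = c a := by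
  classical
  induction L with
  | zero =>
    refine ⟨0, fun A _ f => ⟨∅, empty_subset _, rfl, fun _ => Classical.arbitrary κ, ?_⟩⟩
    intro a ha
    exact absurd ha (notMem_empty _)
  | succ L ih =>
    obtain ⟨N1, hN1⟩ := ih
    obtain ⟨N2, hN2⟩ := hs κ N1
    refine ⟨N2 + 1, fun A hA f => ?_⟩
    have hne : A.Nonempty := by
      rw [← card_pos]
      omega
    set a := A.min' hne with ha
    have haA : a ∈ A := min'_mem _ _
    have h1 : N2 ≤ (A.erase a).card := by
      rw [card_erase_of_mem haA]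
      omega
    obtain ⟨A2, hA2, hc2, c2, h2⟩ := hN2 (A.erase a) h1 fun S => f (insert a S)
    obtain ⟨B, hB, hcB, c, h3⟩ := hN1 A2 hc2.ge f
    have haB : a ∉ B := fun h => (mem_erase.1 (hA2 (hB h))).1 rfl
    have hlt : ∀ x ∈ B, a < x := by
      intro x hx
      have h4 := mem_erase.1 (hA2 (hB hx))
      exact lt_of_le_of_ne (min'_le _ _ h4.2) (Ne.symm h4.1)
    refine ⟨insert a B, ?_, ?_, Function.update c a c2, ?_⟩
    · intro x hx
      rcases mem_insert.1 hx with rfl | hx
      · exact haA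
      · exact (mem_erase.1 (hA2 (hB hx))).2
    · rw [card_insert_of_notMem haB, hcB]
    · intro x hx T hT hTs hlT
      rcases mem_insert.1 hx with rfl | hx
      · have h5 : T ⊆ A2 := by
          intro y hy
          rcases mem_insert.1 (hT hy) with rfl | h6
          · exact absurd (hlT _ hy) (lt_irrefl _)
          · exact hB h6
        rw [Function.update_self]
        exact h2 T h5 hTs
      · have hxa : x ≠ a := fun h => haB (h ▸ hx)
        have h5 : T ⊆ B := by
          intro y hy
          rcases mem_insert.1 (hT hy) with rfl | h6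
          · exact absurd (hlT _ hy) (not_lt.2 (hlt x hx).le)
          · exact h6
        rw [Function.update_of_ne hxa]
        exact h3 x hx T h5 hTs hlT

theorem rs_succ {s : ℕ} (hs : RS s) : RS (s + 1) := by
  classical
  intro κ _ _ m
  cases nonempty_fintype κ
  obtain ⟨N, hN⟩ := min_hom hs κ (Fintype.card κ * m)
  refine ⟨N, fun A hA f => ?_⟩
  obtain ⟨B, hB, hcB, c, h1⟩ := hN A hA f
  obtain ⟨k, hk⟩ : ∃ k : κ, m ≤ (B.filter fun x => c x = k).card := by
    by_contra hcon
    push Not at hcon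
    rcases Nat.eq_zero_or_pos m with h0 | h0
    · exact absurd (hcon (Classical.arbitrary κ)) (by omega)
    · have h2 : B.card = ∑ k : κ, (B.filter fun x => c x = k).card :=
        card_eq_sum_card_fiberwise fun x _ => mem_coe.2 (mem_univ _)
      have h3 : ∑ k : κ, (B.filter fun x => c x = k).card < ∑ _k : κ, m :=
        sum_lt_sum_of_nonempty univ_nonempty fun k _ => hcon k
      rw [sum_const, card_univ, smul_eq_mul] at h3
      omega
  obtain ⟨H, hH, hcH⟩ := exists_subset_card_eq hk
  refine ⟨H, fun x hx => hB (mem_filter.1 (hH hx)).1, hcH, k, fun T hT hTs => ?_⟩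
  have hne : T.Nonempty := by
    rw [← card_pos]
    omega
  set a := T.min' hne with ha
  have haT : a ∈ T := min'_mem _ _
  have h2 : f (insert a (T.erase a)) = c a := by
    refine h1 a (mem_filter.1 (hH (hT haT))).1 (T.erase a) ?_ ?_ ?_
    · intro x hx
      exact (mem_filter.1 (hH (hT (mem_erase.1 hx).2))).1
    · rw [card_erase_of_mem haT]
      omega
    · intro x hx
      have h4 := mem_erase.1 hx
      exact lt_of_le_of_ne (min'_le _ _ h4.2) (Ne.symm h4.1)
  rw [insert_erase haT] at h2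
  rw [h2]
  exact (mem_filter.1 (hH (hT haT))).2

/-- **Ramsey theorem** for `s`-subsets -/
theorem rs (s : ℕ) : RS s := by
  induction s with
  | zero => exact rs_zero
  | succ s ih => exact rs_succ ih

/-- **product Ramsey theorem**, sets -/
theorem prod_sets (s m t : ℕ) : ∀ (κ : Type) [Finite κ] [Nonempty κ], ∃ N : ℕ,
    ∀ A : Fin t → Finset ℕ, (∀ a, N ≤ (A a).card) → ∀ f : (Fin t → Finset ℕ) → κ,
      ∃ H : Fin t → Finset ℕ, (∀ a, H a ⊆ A a ∧ (H a).card = m) ∧ ∃ c : κ,
        ∀ T : Fin t → Finset ℕ, (∀ a, T a ⊆ H a ∧ (T a).card = s) → f T = c := by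
  classical
  induction t with
  | zero =>
    intro κ _ _
    refine ⟨0, fun A _ f => ⟨A, fun a => a.elim0, f A, fun T _ => ?_⟩⟩
    congr 1
    funext a
    exact a.elim0
  | succ t ih =>
    intro κ _ _
    obtain ⟨N1, hN1⟩ := ih κ
    obtain ⟨N2, hN2⟩ := rs s ((Fin t → Finset (Fin N1)) → κ) m
    refine ⟨max N1 N2, fun A hA f => ?_⟩
    have h1 : ∀ a : Fin t, ∃ B : Finset ℕ, B ⊆ A a.succ ∧ B.card = N1 := fun a =>
      exists_subset_card_eq ((le_max_left _ _).trans (hA a.succ))
    choose B hB hcB using h1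
    set e : ∀ a : Fin t, Fin N1 ↪ ℕ := fun a => ((B a).orderEmbOfFin (hcB a)).toEmbedding with he
    obtain ⟨H0, hH0, hc0, c0, h0⟩ := hN2 (A 0) ((le_max_right _ _).trans (hA 0))
      fun U S => f (Fin.cons U fun a => (S a).map (e a))
    have hkey : ∀ S : Fin t → Finset ℕ, (∀ a, S a ⊆ B a) → ∀ U ⊆ H0, U.card = s →
        f (Fin.cons U S) = c0 fun a => univ.filter fun i => e a i ∈ S a := by
      intro S hS U hU hUs
      have h2 := congrFun (h0 U hU hUs) fun a => univ.filter fun i => e a i ∈ S a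
      rw [← h2]
      dsimp only
      congr 1
      congr 1
      funext a
      ext x
      rw [mem_map]
      constructor
      · intro hx
        have hx2 : x ∈ Set.range ((B a).orderEmbOfFin (hcB a)) := by
          rw [range_orderEmbOfFin]
          exact hS a hx
        obtain ⟨i, hi⟩ := hx2
        refine ⟨i, mem_filter.2 ⟨mem_univ _, ?_⟩, hi⟩
        show (B a).orderEmbOfFin (hcB a) i ∈ S a
        rw [hi]
        exact hx
      · rintro ⟨i, hi, rfl⟩
        exact (mem_filter.1 hi).2
    obtain ⟨H1, hH1, c1, h1⟩ := hN1 B (fun a => (hcB a).ge)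
      fun S => c0 fun a => univ.filter fun i => e a i ∈ S a
    refine ⟨Fin.cons H0 H1, ?_, c1, ?_⟩
    · intro a
      refine Fin.cases ?_ (fun b => ?_) a
      · exact ⟨hH0, hc0⟩
      · exact ⟨(hH1 b).1.trans (hB b), (hH1 b).2⟩
    · intro T hT
      have h2 : T = Fin.cons (T 0) fun a => T a.succ := (Fin.cons_self_tail T).symm
      rw [h2, hkey _ (fun a => ((hT a.succ).1.trans (hH1 a).1)) _ (hT 0).1 (hT 0).2]
      exact h1 _ fun a => hT a.succ

/-- **product Ramsey theorem**, increasing maps: every colouring of the `t`-tuples of increasing maps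
`Fin s → Fin N` is constant on the maps through suitable increasing `e a : Fin m → Fin N` -/
theorem prod_maps (s m t : ℕ) (κ : Type) [Finite κ] : ∃ N : ℕ,
    ∀ f : (Fin t → Fin s → Fin N) → κ, ∃ e : Fin t → Fin m → Fin N, (∀ a, StrictMono (e a)) ∧
      ∀ u u' : Fin t → Fin s → Fin m, (∀ a, StrictMono (u a)) → (∀ a, StrictMono (u' a)) →
        f (fun a => e a ∘ u a) = f (fun a => e a ∘ u' a) := by
  classical
  rcases isEmpty_or_nonempty κ with hκ | hκ
  · refine ⟨m, fun f => ⟨fun _ => id, fun _ => strictMono_id, fun u _ _ _ => ?_⟩⟩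
    exact (hκ.false (f fun a => u a)).elim
  obtain ⟨N, hN⟩ := prod_sets s m t κ
  refine ⟨N, fun f => ?_⟩
  -- colour of a tuple of sets
  have hval : ∀ T : Finset ℕ, T ⊆ range N → ∀ h : T.card = s, ∀ i : Fin s,
      (T.orderEmbOfFin h i) < N := fun T hT h i => mem_range.1 (hT (orderEmbOfFin_mem _ _ _))
  set g : (Fin t → Finset ℕ) → κ := fun T =>
    if h : ∀ a, T a ⊆ range N ∧ (T a).card = s then
      f fun a i => ⟨(T a).orderEmbOfFin (h a).2 i, hval _ (h a).1 (h a).2 i⟩
    else Classical.arbitrary κ with hg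
  obtain ⟨H, hH, c, hc⟩ := hN (fun _ => range N) (fun _ => (card_range N).ge) g
  have hHval : ∀ a, ∀ i : Fin m, (H a).orderEmbOfFin (hH a).2 i < N := fun a i =>
    mem_range.1 ((hH a).1 (orderEmbOfFin_mem _ _ _))
  refine ⟨fun a i => ⟨(H a).orderEmbOfFin (hH a).2 i, hHval a i⟩, ?_, ?_⟩
  · intro a i j hij
    exact Fin.mk_lt_mk.2 (((H a).orderEmbOfFin (hH a).2).strictMono hij)
  · have key : ∀ u : Fin t → Fin s → Fin m, (∀ a, StrictMono (u a)) →
        f (fun a => (fun i : Fin m => (⟨(H a).orderEmbOfFin (hH a).2 i, hHval a i⟩ : Fin N)) ∘ u a)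
          = c := by
      intro u hu
      set T : Fin t → Finset ℕ := fun a =>
        univ.image fun i : Fin s => (H a).orderEmbOfFin (hH a).2 (u a i) with hT
      have hmono : ∀ a, StrictMono fun i : Fin s => (H a).orderEmbOfFin (hH a).2 (u a i) :=
        fun a => ((H a).orderEmbOfFin (hH a).2).strictMono.comp (hu a)
      have hT1 : ∀ a, T a ⊆ H a := by
        intro a x hx
        obtain ⟨i, _, rfl⟩ := mem_image.1 hx
        exact orderEmbOfFin_mem _ _ _
      have hT2 : ∀ a, (T a).card = s := by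
        intro a
        rw [hT]
        dsimp only
        rw [card_image_of_injective _ (hmono a).injective, card_univ, Fintype.card_fin]
      have h1 := hc T fun a => ⟨hT1 a, hT2 a⟩
      have h2 : ∀ a, T a ⊆ range N ∧ (T a).card = s := fun a => ⟨(hT1 a).trans (hH a).1, hT2 a⟩
      rw [hg] at h1
      dsimp only at h1
      rw [dif_pos h2] at h1
      rw [← h1]
      congr 1
      funext a i
      apply Fin.ext
      have h3 := Finset.orderEmbOfFin_unique (h2 a).2
        (f := fun i : Fin s => (H a).orderEmbOfFin (hH a).2 (u a i)) ?_ (hmono a)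
      · exact congrFun h3 i
      · intro x
        exact mem_image.2 ⟨x, mem_univ _, rfl⟩
    intro u u' hu hu'
    rw [key u hu, key u' hu']

end Rams

end Pool.Agent.F32
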