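import Pool.Agent.F32.Pat
import Pool.Agent.F32.Ramsey

/-!
# F32: large arrays contain homogeneous patterns (helper38)
-/

set_option autoImplicit false

namespace Pool.Agent.F32

open Finset Matrix Circ

namespace Hom

/-- row slots 0,1,2; column slots 3,4,5; point slots 6 + 3 r + i -/
def rowS (r : Fin 3) : Fin 15 := ⟨r.1, by omega⟩
def colS (k : Fin 3) : Fin 15 := ⟨3 + k.1, by omega⟩
def ptS (r i : Fin 3) : Fin 15 := ⟨6 + 3 * r.1 + i.1, by omega⟩

/-- the embedding of labels given by a choice of indices for the slots -/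
def emb {L : ℕ} (t : Fin 15 → Fin L) : El 3 → El L
  | .X r i => .X (t (rowS r)) (t (ptS r i))
  | .C k => .C (t (colS k))
  | .Y r i => .Y (t (rowS r)) (t (ptS r i))
  | .W => .W

theorem pt_inj {L : ℕ} {t : Fin 15 → Fin L} (ht : Function.Injective t) {r i s j : Fin 3}
    (h1 : t (rowS r) = t (rowS s)) (h2 : t (ptS r i) = t (ptS s j)) : r = s ∧ i = j := by
  have e1 := ht h1
  have e2 := ht h2
  simp only [rowS, ptS, Fin.mk.injEq] at e1 e2
  refine ⟨Fin.ext e1, Fin.ext ?_⟩
  omega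

theorem emb_inj {L : ℕ} {t : Fin 15 → Fin L} (ht : Function.Injective t) :
    Function.Injective (emb t) := by
  intro a b hab
  cases a <;> cases b <;> simp only [emb, El.X.injEq, El.Y.injEq, El.C.injEq, reduceCtorEq] at hab ⊢
  · obtain ⟨h1, h2⟩ := pt_inj ht hab.1 hab.2
    exact ⟨h1, h2⟩
  · have := ht hab
    simp only [colS, Fin.mk.injEq] at this
    exact Fin.ext (by omega)
  · obtain ⟨h1, h2⟩ := pt_inj ht hab.1 hab.2
    exact ⟨h1, h2⟩

/-- the pattern given by a choice of indices -/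
noncomputable def pat {V : Type} (v : V → R5) {L : ℕ} (A : Arr V L) (t : Fin 15 → Fin L) :
    El 3 → R5 := fun a => v (A.el (t (colS 1)) (emb t a))

/-- the pairs (slot of g, slot of f) -/
def SP : El 3 → El 3 → Fin 15 → Fin 15 → Prop
  | .X s j, .X r i, p, q => (p = rowS s ∧ q = rowS r) ∨ (p = ptS s j ∧ q = ptS r i)
  | .C k, .C l, p, q => p = colS k ∧ q = colS l
  | .Y s j, .Y r i, p, q =>
    (p = rowS s ∧ q = rowS r) ∨ (p = ptS s j ∧ q = ptS r i) ∨ (p = colS 1 ∧ q = colS 1)
  | _, _, _, _ => False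

theorem sp_mono {f g : Fin 5 → El 3} (h : SameT 1 f g) {a b : Fin 5} {p p' q q' : Fin 15}
    (h1 : SP (g a) (f a) p p') (h2 : SP (g b) (f b) q q') :
    (p < q → p' < q') ∧ (p = q → p' = q') := by
  have r1 := h.2.1 a b
  have r2 := h.2.1 b a
  have k1 := h.2.2 a b
  have k2 := h.2.2 b a
  revert h1 h2 r1 r2 k1 k2
  generalize g a = ga
  generalize f a = fa
  generalize g b = gb
  generalize f b = fb
  intro h1 h2 r1 r2 k1 k2
  cases ga <;> cases fa <;> simp only [SP] at h1 <;> cases gb <;> cases fb <;>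
    simp only [SP] at h2 <;>
    simp only [El.ri, El.kk, Option.mem_def, Option.some.injEq, forall_eq', reduceCtorEq,
      IsEmpty.forall_iff, implies_true] at r1 r2 k1 k2
  all_goals
    simp only [rowS, colS, ptS, Fin.ext_iff] at h1 h2
    rw [Fin.lt_def, Fin.lt_def, Fin.ext_iff, Fin.ext_iff]
    omega

/-- increasing extension of a partial increasing map with large gaps -/
noncomputable def ext (R : Fin 15 → Fin 15 → Prop) (j : Fin 15) : ℕ := by
  classical
  exact ((univ : Finset (Fin 15 × Fin 15)).filter fun pq => R pq.1 pq.2 ∧ pq.1 ≤ j).sup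
    (fun pq => 16 * ((pq.2 : ℕ) + 1) + ((j : ℕ) - pq.1)) ⊔ (j : ℕ)

theorem ext_lt (R : Fin 15 → Fin 15 → Prop) (j : Fin 15) : ext R j < 256 := by
  classical
  unfold ext
  rw [Nat.max_lt]
  constructor
  · rw [Finset.sup_lt_iff (by norm_num)]
    intro pq _
    omega
  · omega

theorem ext_mono (R : Fin 15 → Fin 15 → Prop) {j l : Fin 15} (h : j < l) : ext R j < ext R l := by
  classical
  have hl : (j : ℕ) < l := h
  have h0 : (l : ℕ) ≤ ext R l := le_max_right _ _
  have h1 : ∀ pq : Fin 15 × Fin 15, R pq.1 pq.2 → pq.1 ≤ l →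
      16 * ((pq.2 : ℕ) + 1) + ((l : ℕ) - pq.1) ≤ ext R l := by
    intro pq h2 h3
    unfold ext
    refine le_max_of_le_left ?_
    exact Finset.le_sup (f := fun pq : Fin 15 × Fin 15 =>
      16 * ((pq.2 : ℕ) + 1) + ((l : ℕ) - pq.1)) (mem_filter.2 ⟨mem_univ _, h2, h3⟩)
  conv_lhs => unfold ext
  rw [Nat.max_lt]
  constructor
  · rw [Finset.sup_lt_iff (by rw [Nat.bot_eq_zero]; omega)]
    intro pq hpq
    obtain ⟨h2, h3⟩ := (mem_filter.1 hpq).2
    have h4 := h1 pq h2 (h3.trans h.le)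
    have h5 : (pq.1 : ℕ) ≤ j := h3
    omega
  · omega

theorem ext_eq (R : Fin 15 → Fin 15 → Prop)
    (hR : ∀ p p' q q', R p p' → R q q' → (p < q → p' < q') ∧ (p = q → p' = q'))
    {p p' : Fin 15} (h : R p p') : ext R p = 16 * ((p' : ℕ) + 1) := by
  classical
  apply le_antisymm
  · unfold ext
    refine max_le ?_ (by omega)
    rw [Finset.sup_le_iff]
    intro pq hpq
    obtain ⟨h2, h3⟩ := (mem_filter.1 hpq).2
    rcases h3.lt_or_eq with h4 | h4
    · have h5 := (hR _ _ _ _ h2 h).1 h4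
      have h6 : (pq.2 : ℕ) < p' := h5
      omega
    · have h5 := (hR _ _ _ _ h2 h).2 h4
      rw [h5, h4]
      omega
  · unfold ext
    refine le_max_of_le_left ?_
    have := Finset.le_sup (f := fun pq : Fin 15 × Fin 15 =>
      16 * ((pq.2 : ℕ) + 1) + ((p : ℕ) - pq.1))
      (mem_filter.2 ⟨mem_univ (p, p'), h, le_rfl⟩ :
        (p, p') ∈ (univ : Finset (Fin 15 × Fin 15)).filter fun pq => R pq.1 pq.2 ∧ pq.1 ≤ p)
    simp only [Nat.sub_self, add_zero] at this
    exact this

/-- the base choice -/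
def t0 (j : Fin 15) : Fin 256 := ⟨16 * ((j : ℕ) + 1), by omega⟩

theorem t0_mono : StrictMono t0 := by
  intro i j h
  have : (i : ℕ) < j := h
  show 16 * ((i : ℕ) + 1) < 16 * ((j : ℕ) + 1)
  omega

theorem exists_t1 {f g : Fin 5 → El 3} (h : SameT 1 f g) :
    ∃ t1 : Fin 15 → Fin 256, StrictMono t1 ∧ ∀ a p p', SP (g a) (f a) p p' → t1 p = t0 p' := by
  set R : Fin 15 → Fin 15 → Prop := fun p p' => ∃ a, SP (g a) (f a) p p' with hR
  refine ⟨fun j => ⟨ext R j, ext_lt R j⟩, fun i j hij => Fin.mk_lt_mk.2 (ext_mono R hij), ?_⟩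
  intro a p p' hp
  apply Fin.ext
  show ext R p = 16 * ((p' : ℕ) + 1)
  refine ext_eq R ?_ ⟨a, hp⟩
  rintro q q' s s' ⟨b, hb⟩ ⟨c, hc⟩
  exact sp_mono h hb hc

/-- the labels of `g` in the choice `t1` are the labels of `f` in the choice `t0` -/
theorem el_eq {V : Type} {L : ℕ} (A : Arr V L) (e : Fin 256 → Fin L) {t1 : Fin 15 → Fin 256}
    {f g : El 3} (hty : f.ty = g.ty) (h : ∀ p p', SP g f p p' → t1 p = t0 p') :
    A.el ((e ∘ t1) (colS 1)) (emb (e ∘ t1) g) = A.el ((e ∘ t0) (colS 1)) (emb (e ∘ t0) f) := by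
  cases g with
  | X s j =>
    cases f with
    | X r i =>
      have h1 := h (rowS s) (rowS r) (Or.inl ⟨rfl, rfl⟩)
      have h2 := h (ptS s j) (ptS r i) (Or.inr ⟨rfl, rfl⟩)
      simp only [emb, Arr.el, Function.comp_apply, h1, h2]
    | C k => simp [El.ty] at hty
    | Y r i => simp [El.ty] at hty
    | W => simp [El.ty] at hty
  | C k =>
    cases f with
    | X r i => simp [El.ty] at hty
    | C l =>
      have h1 := h (colS k) (colS l) ⟨rfl, rfl⟩
      simp only [emb, Arr.el, Function.comp_apply, h1]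
    | Y r i => simp [El.ty] at hty
    | W => simp [El.ty] at hty
  | Y s j =>
    cases f with
    | X r i => simp [El.ty] at hty
    | C k => simp [El.ty] at hty
    | Y r i =>
      have h1 := h (rowS s) (rowS r) (Or.inl ⟨rfl, rfl⟩)
      have h2 := h (ptS s j) (ptS r i) (Or.inr (Or.inl ⟨rfl, rfl⟩))
      have h3 := h (colS 1) (colS 1) (Or.inr (Or.inr ⟨rfl, rfl⟩))
      simp only [emb, Arr.el, Function.comp_apply, h1, h2, h3]
    | W => simp [El.ty] at hty
  | W =>
    cases f with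
    | X r i => simp [El.ty] at hty
    | C k => simp [El.ty] at hty
    | Y r i => simp [El.ty] at hty
    | W => rfl

theorem not_pos4_of_edge {V : Type} {v : V → R5} {x y : V} (h : Edge v Set.univ x y)
    (a b c d : V) : ¬ Pos4 (v x) (v y) (v a) (v b) (v c) (v d) :=
  Win.edgeC_of_edge h ![a, b, c, d] (fun _ => Set.mem_univ _) id

theorem pos3_ne {x y z a b c : R5} (h : Pos3 x y z a b c) :
    a ≠ x ∧ a ≠ y ∧ a ≠ z ∧ b ≠ x ∧ b ≠ y ∧ b ≠ z ∧ c ≠ x ∧ c ≠ y ∧ c ≠ z := by
  have e1 : ∀ p q r s t : R5, p = s → D5 p q r s t = 0 := by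
    rintro p q r s t rfl
    exact Win.D5_14 _ _ _ _
  have e2 : ∀ p q r s t : R5, q = s → D5 p q r s t = 0 := by
    rintro p q r s t rfl
    exact Win.D5_24 _ _ _ _
  have e3 : ∀ p q r s t : R5, r = s → D5 p q r s t = 0 := by
    rintro p q r s t rfl
    exact Matrix.det_zero_of_row_eq (i := 2) (j := 3) (by decide) rfl
  have e4 : ∀ p q r s t : R5, p = t → D5 p q r s t = 0 := by
    rintro p q r s t rfl
    exact Win.D5_15 _ _ _ _
  have e5 : ∀ p q r s t : R5, q = t → D5 p q r s t = 0 := by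
    rintro p q r s t rfl
    exact Win.D5_25 _ _ _ _
  have e6 : ∀ p q r s t : R5, r = t → D5 p q r s t = 0 := by
    rintro p q r s t rfl
    exact Matrix.det_zero_of_row_eq (i := 2) (j := 4) (by decide) rfl
  have h1 : D5 x y z b c ≠ 0 ∧ D5 x y z a c ≠ 0 ∧ D5 x y z a b ≠ 0 := by
    rcases h with ⟨h1, h2, h3⟩ | ⟨h1, h2, h3⟩
    · exact ⟨h1.ne', h2.ne, h3.ne'⟩
    · exact ⟨h1.ne, h2.ne', h3.ne⟩
  obtain ⟨h1, h2, h3⟩ := h1
  refine ⟨?_, ?_, ?_, ?_, ?_, ?_, ?_, ?_, ?_⟩ <;> intro h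
  · exact h3 (e1 _ _ _ _ _ h.symm)
  · exact h3 (e2 _ _ _ _ _ h.symm)
  · exact h3 (e3 _ _ _ _ _ h.symm)
  · exact h1 (e1 _ _ _ _ _ h.symm)
  · exact h1 (e2 _ _ _ _ _ h.symm)
  · exact h1 (e3 _ _ _ _ _ h.symm)
  · exact h1 (e4 _ _ _ _ _ h.symm)
  · exact h1 (e5 _ _ _ _ _ h.symm)
  · exact h1 (e6 _ _ _ _ _ h.symm)

theorem not_pos3_of_tri {V : Type} {v : V → R5} {x y z : V} (h : Tri v Set.univ x y z)
    (a b c : V) : ¬ Pos3 (v x) (v y) (v z) (v a) (v b) (v c) := by
  intro hp
  obtain ⟨h1, h2, h3, h4, h5, h6, h7, h8, h9⟩ := pos3_ne hp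
  refine h.not_pos3 (Set.mem_univ a) (Set.mem_univ b) (Set.mem_univ c) ?_ ?_ ?_ ?_ ?_ ?_ ?_ ?_ ?_ hp
  · exact fun e => h1 (congrArg v e)
  · exact fun e => h2 (congrArg v e)
  · exact fun e => h3 (congrArg v e)
  · exact fun e => h4 (congrArg v e)
  · exact fun e => h5 (congrArg v e)
  · exact fun e => h6 (congrArg v e)
  · exact fun e => h7 (congrArg v e)
  · exact fun e => h8 (congrArg v e)
  · exact fun e => h9 (congrArg v e)

theorem D5_ne {V : Type} {v : V → R5} (hv : GP v) {a b c d e : V}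
    (h : [a, b, c, d, e].Nodup) : D5 (v a) (v b) (v c) (v d) (v e) ≠ 0 := by
  have h1 := hv ![a, b, c, d, e] (by
    simp only [List.nodup_cons, List.mem_cons, not_or, List.not_mem_nil, not_false_eq_true,
      and_true] at h
    intro i j hij
    fin_cases i <;> fin_cases j <;> simp_all [eq_comm])
  have h2 : (Matrix.of fun k => v (![a, b, c, d, e] k)) = Matrix.of ![v a, v b, v c, v d, v e] := by
    ext i j
    fin_cases i <;> rfl
  rw [h2] at h1
  exact h1

/-- the chosen labels at the distinguished column -/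
theorem pat_apply {V : Type} (v : V → R5) {L : ℕ} (A : Arr V L) (t : Fin 15 → Fin L) (a : El 3) :
    pat v A t a = v (A.el (t (colS 1)) (emb t a)) := rfl

theorem nodup_map {L : ℕ} {t : Fin 15 → Fin L} (ht : Function.Injective t)
    {a b d e : Fin 3 × Fin 3} (h : [a, b, d, e].Nodup) :
    [(t (rowS a.1), t (ptS a.1 a.2)), (t (rowS b.1), t (ptS b.1 b.2)),
      (t (rowS d.1), t (ptS d.1 d.2)), (t (rowS e.1), t (ptS e.1 e.2))].Nodup := by
  have hinj : Function.Injective fun a : Fin 3 × Fin 3 => (t (rowS a.1), t (ptS a.1 a.2)) := by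
    intro a b hab
    obtain ⟨h1, h2⟩ := Prod.mk.injEq _ _ _ _ ▸ hab
    obtain ⟨h3, h4⟩ := pt_inj ht h1 h2
    exact Prod.ext h3 h4
  exact h.map hinj

theorem bdd_emb {L : ℕ} {t : Fin 15 → Fin L} (ht : Function.Injective t) {S : Finset (El 3)}
    (h : Bdd 1 S) : Bdd (t (colS 1)) (S.image (emb t)) := by
  unfold Bdd at h ⊢
  refine le_trans (add_le_add ?_ ?_) h
  · have : ((univ : Finset (Fin L × Fin L)).filter fun p =>
        El.X p.1 p.2 ∈ S.image (emb t) ∧ El.Y p.1 p.2 ∈ S.image (emb t)) ⊆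
        ((univ : Finset (Fin 3 × Fin 3)).filter fun p => El.X p.1 p.2 ∈ S ∧ El.Y p.1 p.2 ∈ S).image
          fun a => (t (rowS a.1), t (ptS a.1 a.2)) := by
      intro p hp
      obtain ⟨h1, h2⟩ := (mem_filter.1 hp).2
      obtain ⟨a, ha, ha2⟩ := mem_image.1 h1
      obtain ⟨b, hb, hb2⟩ := mem_image.1 h2
      cases a with
      | X r i =>
        cases b with
        | Y s j =>
          simp only [emb, El.X.injEq] at ha2
          simp only [emb, El.Y.injEq] at hb2
          obtain ⟨rfl, rfl⟩ := pt_inj ht (ha2.1.trans hb2.1.symm) (ha2.2.trans hb2.2.symm)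
          exact mem_image.2 ⟨(r, i), mem_filter.2 ⟨mem_univ _, ha, hb⟩, Prod.ext ha2.1 ha2.2⟩
        | X s j => simp [emb] at hb2
        | C k => simp [emb] at hb2
        | W => simp [emb] at hb2
      | Y r i => simp [emb] at ha2
      | C k => simp [emb] at ha2
      | W => simp [emb] at ha2
    exact (card_le_card this).trans card_image_le
  · by_cases h1 : El.C (t (colS 1)) ∈ S.image (emb t)
    · have h2 : El.C 1 ∈ S := by
        obtain ⟨a, ha, ha2⟩ := mem_image.1 h1
        cases a with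
        | C k =>
          simp only [emb, El.C.injEq] at ha2
          have := ht ha2
          simp only [colS, Fin.mk.injEq] at this
          have h3 : 3 + (k : ℕ) = 3 + ((1 : Fin 3) : ℕ) := this
          have hk : k = 1 := Fin.ext (by omega)
          exact hk ▸ ha
        | X r i => simp [emb] at ha2
        | Y r i => simp [emb] at ha2
        | W => simp [emb] at ha2
      rw [if_pos h1, if_pos h2]
    · rw [if_neg h1]
      exact Nat.zero_le _

end Hom

open Hom in
/-- **pattern theorem** -/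
theorem pat_thm : PatThm := by
  classical
  obtain ⟨L, hL⟩ := Rams.prod_maps 15 256 1 ((Fin 5 → El 3) → Bool)
  refine ⟨L, fun V v hv A hA => ?_⟩
  obtain ⟨e0, he0, hc⟩ := hL fun t f => decide (0 < Dp (pat v A (t 0)) f)
  set e := e0 0 with he
  have hem : StrictMono e := he0 0
  set t : Fin 15 → Fin L := e ∘ t0 with ht
  have htm : StrictMono t := hem.comp t0_mono
  have hti : Function.Injective t := htm.injective
  have hei : Function.Injective (emb t) := emb_inj hti
  refine ⟨pat v A t, ?_⟩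
  have hpi : Function.Injective fun a => A.el (t (colS 1)) (emb t a) := (hA.inj _).comp hei
  have hne : ∀ r s : Fin 3, r ≠ s → t (rowS r) ≠ t (rowS s) := by
    intro r s hrs h
    have := hti h
    simp only [rowS, Fin.mk.injEq] at this
    exact hrs (Fin.ext this)
  have hne2 : ∀ a b : Fin 3 × Fin 3, a ≠ b →
      (t (rowS a.1), t (ptS a.1 a.2)) ≠ (t (rowS b.1), t (ptS b.1 b.2)) := by
    intro a b hab h
    obtain ⟨h1, h2⟩ := Prod.mk.injEq _ _ _ _ ▸ h
    obtain ⟨h3, h4⟩ := pt_inj hti h1 h2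
    exact hab (Prod.ext h3 h4)
  constructor
  case nz =>
    intro f hf
    have h1 := hv (fun a => A.el (t (colS 1)) (emb t (f a))) (hpi.comp hf)
    have h2 : (Matrix.of fun k => v (A.el (t (colS 1)) (emb t (f k)))) =
        Matrix.of ![pat v A t (f 0), pat v A t (f 1), pat v A t (f 2), pat v A t (f 3),
          pat v A t (f 4)] := by
      ext i j
      fin_cases i <;> rfl
    rw [h2] at h1
    exact h1
  case tri =>
    intro r i a b c
    exact not_pos3_of_tri (hA.tri _ _ _) _ _ _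
  case exc =>
    intro r i k a b c d
    exact not_pos4_of_edge (hA.exc _ _ _) _ _ _ _
  case exy =>
    intro r i a b c d
    exact not_pos4_of_edge (hA.exy _ _ _) _ _ _ _
  case ecy =>
    intro r i a b c d
    exact not_pos4_of_edge (hA.ecy _ _ _) _ _ _ _
  case es =>
    intro r i s j hrs a b c d h6 hB
    have h1 : (({El.X r i, El.Y s j, a, b, c, d} : Finset (El 3)).image (emb t)) =
        {El.X (t (rowS r)) (t (ptS r i)), El.Y (t (rowS s)) (t (ptS s j)), emb t a, emb t b,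
          emb t c, emb t d} := by
      simp only [image_insert, image_singleton]
      rfl
    have h2 := hA.es (t (colS 1)) (t (rowS r)) (t (ptS r i)) (t (rowS s)) (t (ptS s j))
      (hne _ _ hrs) (emb t a) (emb t b) (emb t c) (emb t d)
      (by rw [← h1, card_image_of_injective _ hei, h6]) (by rw [← h1]; exact bdd_emb hti hB)
    exact h2
  case cx =>
    intro a b d f hn k k'
    exact hA.cx _ _ _ _ (nodup_map hti hn) (t (colS k)) (t (colS k'))
  case cy =>
    intro a b d f hn k k'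
    exact hA.cy _ _ _ _ (nodup_map hti hn) (t (colS 1)) (t (colS k)) (t (colS k'))
  case xa =>
    intro r j i i' a b h1 h2 h3
    exact hA.xa (t (rowS r)) (t (ptS r j)) (t (ptS r i)) (t (ptS r i')) (t (colS 1))
      (t (rowS a.1), t (ptS a.1 a.2)) (t (rowS b.1), t (ptS b.1 b.2)) (hne _ _ h1) (hne _ _ h2)
      (hne2 _ _ h3)
  case xb =>
    intro r j i i' a b h1 h2 h3
    exact hA.xb (t (rowS r)) (t (ptS r j)) (t (ptS r i)) (t (ptS r i')) (t (colS 1))
      (t (rowS a.1), t (ptS a.1 a.2)) (t (rowS b.1), t (ptS b.1 b.2)) (hne _ _ h1) (hne _ _ h2)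
      (hne _ _ h3)
  case xc =>
    intro r j i i' a b h1 h2 h3
    exact hA.xc (t (rowS r)) (t (ptS r j)) (t (ptS r i)) (t (ptS r i')) (t (colS 1))
      (t (rowS a.1), t (ptS a.1 a.2)) (t (rowS b.1), t (ptS b.1 b.2)) (hne _ _ h1) (hne _ _ h2)
      (hne _ _ h3)
  case hom =>
    intro f g hfg
    obtain ⟨t1, ht1, hsp⟩ := exists_t1 hfg
    have h1 : ∀ a, pat v A (e ∘ t1) (g a) = pat v A t (f a) := fun a => by
      rw [pat_apply, pat_apply, el_eq A e (hfg.1 a) (fun p p' => hsp a p p')]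
    have h2 : Dp (pat v A (e ∘ t1)) g = Dp (pat v A t) f := by
      unfold Dp
      rw [h1, h1, h1, h1, h1]
    have h3 := congrFun (hc (fun _ => t1) (fun _ => t0) (fun _ => ht1) (fun _ => t0_mono)) g
    have h4 : (0 < Dp (pat v A (e ∘ t1)) g) ↔ (0 < Dp (pat v A t) g) := by
      simpa using h3
    rw [← h2, h4]

end Pool.Agent.F32
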