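import Pool.Agent.F32.ArrayThm
import Pool.Agent.F32.Ev_cy
import Pool.Agent.F32.Ev_inj
import Pool.Agent.F32.Det
import Pool.Agent.F32.Hom

/-!
# F32: the array theorem without hypotheses (helper40)
-/

set_option autoImplicit false

namespace Pool.Agent.F32

/-- **array theorem**: large systems of edge-disjoint triangles contain an array -/
theorem array_thm : ArrayThm := array_of ev_cy ev_xy ev_inj ev_av det_step

/-- systems of edge-disjoint triangles have `o(n²)` elements if the machine theorem holds -/
theorem few (h : SatThm) (e : ℝ) (he : 0 < e) :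
    ∃ n0 : ℕ, ∀ (V : Type) [Fintype V] [DecidableEq V] (v : V → R5), GP v →
      ∀ T : Finset (V × V × V), Sys v T → n0 ≤ Fintype.card V →
      (T.card : ℝ) < e * ((Fintype.card V : ℕ) : ℝ) ^ 2 :=
  few_of array_thm pat_thm h e he

end Pool.Agent.F32
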