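import Pool.Agent.F32.ArrDens

/-!
# F32: density of the outcomes with pairs of the system only (helper31)
-/

set_option autoImplicit false

namespace Pool.Agent.F32

open Finset Matrix Circ

namespace Dens

/-- the outcomes as a product -/
def eqv {V : Type} (K : BK V) (L : ℕ) : Om K L ≃
    (Fin K.a0 × (Fin L → Fin K.a1) × (Fin L → Fin L → Fin K.s) × Fin K.b × (Fin L → Fin K.t)) ×
      V where
  toFun o := ((o .a, fun r => o (.A r), fun r i => o (.P r i), o .z, fun k => o (.q k)), o .w)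
  invFun x := fun c => match c with
    | .a => x.1.1
    | .A r => x.1.2.1 r
    | .P r i => x.1.2.2.1 r i
    | .z => x.1.2.2.2.1
    | .q k => x.1.2.2.2.2 k
    | .w => x.2
  left_inv o := by
    funext c
    cases c <;> rfl
  right_inv _ := rfl

/-- the number of pairs of the system in the blocks -/
theorem pairs {V : Type} [Fintype V] [DecidableEq V] (K : BK V) (p : PT V)
    (T : Finset (V × V × V)) {e : ℝ} (he : 0 < e) (hT : ∀ x c y, (x, c, y) ∈ T → p.tp x c)
    (hi : ∀ x c y y', (x, c, y) ∈ T → (x, c, y') ∈ T → y = y')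
    (hX : (1 - e / 4) * ((Fintype.card V : ℕ) : ℝ) ≤ (K.a0 : ℝ) * K.a1 * K.s)
    (hC : (1 - e / 4) * ((Fintype.card V : ℕ) : ℝ) ≤ (K.b : ℝ) * K.t)
    (hc : e * ((Fintype.card V : ℕ) : ℝ) ^ 2 ≤ (T.card : ℝ)) (G : Finset (Fin K.a0 × Fin K.a1 ×
      Fin K.s × Fin K.b × Fin K.t))
    (hG : ∀ x, p.tp (K.X x.1 x.2.1 x.2.2.1) (K.C (x.2.2.2.1, x.2.2.2.2)) → x ∈ G) :
    e / 2 * ((K.a0 : ℝ) * K.a1 * K.s * K.b * K.t) ≤ (G.card : ℝ) := by
  classical
  set n : ℝ := ((Fintype.card V : ℕ) : ℝ) with hn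
  have hn0 : 0 ≤ n := Nat.cast_nonneg _
  -- ranges
  set RX : Finset V := (univ : Finset (Fin K.a0 × Fin K.a1 × Fin K.s)).image
    fun x => K.X x.1 x.2.1 x.2.2 with hRX
  set RC : Finset V := (univ : Finset (Fin K.b × Fin K.t)).image K.C with hRC
  have cX : (RX.card : ℝ) = (K.a0 : ℝ) * K.a1 * K.s := by
    rw [hRX, card_image_of_injective, card_univ, Fintype.card_prod, Fintype.card_prod,
      Fintype.card_fin, Fintype.card_fin, Fintype.card_fin]
    · push_cast
      ring
    · intro x y hxy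
      obtain ⟨h1, h2, h3⟩ := K.injX _ _ _ _ _ _ hxy
      exact Prod.ext h1 (Prod.ext h2 h3)
  have cC : (RC.card : ℝ) = (K.b : ℝ) * K.t := by
    rw [hRC, card_image_of_injective _ K.injC, card_univ, Fintype.card_prod,
      Fintype.card_fin, Fintype.card_fin]
    push_cast
    ring
  have cX' : ((RXᶜ).card : ℝ) = n - RX.card := by
    rw [card_compl, Nat.cast_sub (card_le_univ _)]
  have cC' : ((RCᶜ).card : ℝ) = n - RC.card := by
    rw [card_compl, Nat.cast_sub (card_le_univ _)]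
  -- the pairs
  set π : V × V × V → V × V := fun x => (x.1, x.2.1) with hπ
  have hπi : Set.InjOn π (T : Set (V × V × V)) := by
    rintro ⟨x, c, y⟩ hx ⟨x', c', y'⟩ hx' h
    rw [hπ] at h
    simp only [Prod.mk.injEq] at h
    obtain ⟨h1, h2⟩ := h
    subst h1
    subst h2
    rw [hi x c y y' (mem_coe.1 hx) (mem_coe.1 hx')]
  have h1 : T.card = (T.image π).card := (card_image_of_injOn hπi).symm
  have hsub : T.image π ⊆ (G.image fun x => (K.X x.1 x.2.1 x.2.2.1, K.C (x.2.2.2.1, x.2.2.2.2))) ∪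
      ((RXᶜ ×ˢ (univ : Finset V)) ∪ ((univ : Finset V) ×ˢ RCᶜ)) := by
    intro q hq
    obtain ⟨⟨x, c, y⟩, hx, rfl⟩ := mem_image.1 hq
    rw [hπ]
    dsimp only
    by_cases h2 : x ∈ RX
    · by_cases h3 : c ∈ RC
      · refine mem_union_left _ ?_
        rw [hRX, mem_image] at h2
        rw [hRC, mem_image] at h3
        obtain ⟨u, -, hu⟩ := h2
        obtain ⟨w, -, hw⟩ := h3
        refine mem_image.2 ⟨(u.1, u.2.1, u.2.2, w.1, w.2), hG _ ?_, ?_⟩
        · dsimp only
          rw [hu, hw]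
          exact hT _ _ _ hx
        · dsimp only
          rw [hu, hw]
      · refine mem_union_right _ (mem_union_right _ ?_)
        exact mem_product.2 ⟨mem_univ _, mem_compl.2 h3⟩
    · refine mem_union_right _ (mem_union_left _ ?_)
      exact mem_product.2 ⟨mem_compl.2 h2, mem_univ _⟩
  have h2 : (T.card : ℝ) ≤ G.card + ((n - RX.card) * n + n * (n - RC.card)) := by
    have h3 := (card_le_card hsub).trans ((card_union_le _ _).trans
      (add_le_add card_image_le (card_union_le _ _)))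
    rw [← h1, card_product, card_product, card_univ] at h3
    have h4 : (T.card : ℝ) ≤ G.card + ((RXᶜ).card * n + n * (RCᶜ).card) := by
      rw [hn]
      exact_mod_cast h3
    rw [cX', cC'] at h4
    exact h4
  have h3 : (RX.card : ℝ) ≤ n := by
    rw [hn]
    exact_mod_cast card_le_univ RX
  have h4 : (RC.card : ℝ) ≤ n := by
    rw [hn]
    exact_mod_cast card_le_univ RC
  rw [← cX] at hX
  rw [← cC] at hC
  have h5 : (n - RX.card) * n ≤ e / 4 * n * n := mul_le_mul_of_nonneg_right (by linarith) hn0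
  have h6 : n * (n - RC.card) ≤ n * (e / 4 * n) := mul_le_mul_of_nonneg_left (by linarith) hn0
  have h7 : e / 2 * n ^ 2 ≤ G.card := by nlinarith
  have h8 : (K.a0 : ℝ) * K.a1 * K.s * K.b * K.t = RX.card * RC.card := by
    rw [cX, cC]
    ring
  rw [h8]
  have h9 : (RX.card : ℝ) * RC.card ≤ n * n := mul_le_mul h3 h4 (Nat.cast_nonneg _) hn0
  have h10 : e / 2 * ((RX.card : ℝ) * RC.card) ≤ e / 2 * (n * n) :=
    mul_le_mul_of_nonneg_left h9 (by positivity)
  nlinarith

end Dens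

/-- most outcomes of a dense system have only pairs of the system (Jensen) -/
theorem dens : S_dens := by
  intro V _ _ K p T L e he hT hi ha0 ha1 hs hb ht hX hC hc
  classical
  haveI : Nonempty (Fin K.a0) := ⟨⟨0, ha0⟩⟩
  haveI : Nonempty (Fin K.a1) := ⟨⟨0, ha1⟩⟩
  haveI : Nonempty (Fin K.s) := ⟨⟨0, hs⟩⟩
  haveI : Nonempty (Fin K.b) := ⟨⟨0, hb⟩⟩
  haveI : Nonempty (Fin K.t) := ⟨⟨0, ht⟩⟩
  have h1 := Dens.pairs K p T he hT hi hX hC hc (univ.filter fun x =>
    p.tp (K.X x.1 x.2.1 x.2.2.1) (K.C (x.2.2.2.1, x.2.2.2.2))) fun x hx =>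
      mem_filter.2 ⟨mem_univ _, hx⟩
  have h2 := jensen (A := Fin K.a0) (B := Fin K.a1) (S := Fin K.s) (Z := Fin K.b) (T := Fin K.t)
    L L L (fun a b i z j => p.tp (K.X a b i) (K.C (z, j))) (η := e / 2) (by positivity) (by
      rw [Fintype.card_fin, Fintype.card_fin, Fintype.card_fin, Fintype.card_fin,
        Fintype.card_fin]
      refine h1.trans (le_of_eq ?_)
      congr 2)
  have h3 : no K L = (Fintype.card (Fin K.a0 × (Fin L → Fin K.a1) ×
      (Fin L → Fin L → Fin K.s) × Fin K.b × (Fin L → Fin K.t)) : ℝ) *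
      ((Fintype.card V : ℕ) : ℝ) := by
    unfold no
    rw [Fintype.card_congr (Dens.eqv K L), Fintype.card_prod]
    push_cast
    rfl
  have h4 : nc (fun o : Om K L => AllT p o) = (((univ.filter fun w : Fin K.a0 ×
      (Fin L → Fin K.a1) × (Fin L → Fin L → Fin K.s) × Fin K.b × (Fin L → Fin K.t) =>
        ∀ r i k, p.tp (K.X w.1 (w.2.1 r) (w.2.2.1 r i)) (K.C (w.2.2.2.1, w.2.2.2.2 k))).card : ℕ) :
        ℝ) * ((Fintype.card V : ℕ) : ℝ) := by
    unfold nc
    rw [← card_univ (α := V), ← Nat.cast_mul, ← card_product]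
    congr 1
    refine card_equiv (Dens.eqv K L) fun o => ?_
    rw [mem_filter, mem_product, mem_filter]
    constructor
    · rintro ⟨-, h⟩
      exact ⟨⟨mem_univ _, h⟩, mem_univ _⟩
    · rintro ⟨⟨-, h⟩, -⟩
      exact ⟨mem_univ _, h⟩
  rw [h3, h4, ← mul_assoc]
  refine mul_le_mul_of_nonneg_right ?_ (Nat.cast_nonneg _)
  refine h2.trans (le_of_eq ?_)
  congr 2

end Pool.Agent.F32
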