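import Pool.Agent.F32.ArrDefs

/-!
# F32: six labels with bounded law in a small set (helper40)
-/

set_option autoImplicit false

namespace Pool.Agent.F32

open Finset Matrix Circ

theorem Bdd.one {L : ℕ} {k : Fin L} {S : Finset (El L)} (h : Bdd k S) {r i s j : Fin L}
    (h1 : El.X r i ∈ S) (h2 : El.Y r i ∈ S) (h3 : El.X s j ∈ S) (h4 : El.Y s j ∈ S) :
    r = s ∧ i = j := by
  unfold Bdd at h
  have h5 : ((univ : Finset (Fin L × Fin L)).filter fun p =>
    El.X p.1 p.2 ∈ S ∧ El.Y p.1 p.2 ∈ S).card ≤ 1 := by omega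
  have h6 := card_le_one.1 h5 (r, i) (mem_filter.2 ⟨mem_univ _, h1, h2⟩) (s, j)
    (mem_filter.2 ⟨mem_univ _, h3, h4⟩)
  exact Prod.mk.inj h6

theorem Bdd.noC {L : ℕ} {k : Fin L} {S : Finset (El L)} (h : Bdd k S) {r i : Fin L}
    (h1 : El.X r i ∈ S) (h2 : El.Y r i ∈ S) : El.C k ∉ S := by
  intro hc
  unfold Bdd at h
  rw [if_pos hc] at h
  have h5 : 0 < ((univ : Finset (Fin L × Fin L)).filter fun p =>
    El.X p.1 p.2 ∈ S ∧ El.Y p.1 p.2 ∈ S).card :=
    card_pos.2 ⟨(r, i), mem_filter.2 ⟨mem_univ _, h1, h2⟩⟩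
  omega

/-- the fresh coordinate of a label -/
def fco {L : ℕ} (k : Fin L) (S : Finset (El L)) : El L → Co L
  | .X r i => .P r i
  | .C j => .q j
  | .Y r i => if El.X r i ∈ S then .q k else .P r i
  | .W => .w

theorem fco_X {L : ℕ} (k : Fin L) (S : Finset (El L)) (r i : Fin L) :
    fco k S (.X r i) = .P r i := rfl

theorem fco_C {L : ℕ} (k : Fin L) (S : Finset (El L)) (j : Fin L) : fco k S (.C j) = .q j := rfl

theorem fco_W {L : ℕ} (k : Fin L) (S : Finset (El L)) : fco k S .W = .w := rfl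

theorem fco_Y1 {L : ℕ} {k : Fin L} {S : Finset (El L)} {r i : Fin L} (h : El.X r i ∈ S) :
    fco k S (.Y r i) = .q k := if_pos h

theorem fco_Y2 {L : ℕ} {k : Fin L} {S : Finset (El L)} {r i : Fin L} (h : El.X r i ∉ S) :
    fco k S (.Y r i) = .P r i := if_neg h

theorem fco_inj {L : ℕ} {k : Fin L} {S : Finset (El L)} (h : Bdd k S) :
    ∀ l ∈ S, ∀ l' ∈ S, fco k S l = fco k S l' → l = l' := by
  have hXY : ∀ r i s j, El.X r i ∈ S → El.Y s j ∈ S → fco k S (.X r i) ≠ fco k S (.Y s j) := by
    intro r i s j h1 h2 h3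
    by_cases h4 : El.X s j ∈ S
    · rw [fco_X, fco_Y1 h4] at h3
      exact absurd h3 (by simp)
    · rw [fco_X, fco_Y2 h4, Co.P.injEq] at h3
      rw [h3.1, h3.2] at h1
      exact h4 h1
  have hCY : ∀ j' s j, El.C j' ∈ S → El.Y s j ∈ S → fco k S (.C j') ≠ fco k S (.Y s j) := by
    intro j' s j h1 h2 h3
    by_cases h4 : El.X s j ∈ S
    · rw [fco_C, fco_Y1 h4, Co.q.injEq] at h3
      rw [h3] at h1
      exact h.noC h4 h2 h1
    · rw [fco_C, fco_Y2 h4] at h3
      exact absurd h3 (by simp)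
  have hWY : ∀ s j, fco k S .W ≠ fco k S (.Y s j) := by
    intro s j h3
    by_cases h4 : El.X s j ∈ S
    · rw [fco_W, fco_Y1 h4] at h3
      exact absurd h3 (by simp)
    · rw [fco_W, fco_Y2 h4] at h3
      exact absurd h3 (by simp)
  intro l hl l' hl' e
  cases l with
  | X r i =>
    cases l' with
    | X s j =>
      rw [fco_X, fco_X, Co.P.injEq] at e
      rw [e.1, e.2]
    | C j => exact absurd e (by rw [fco_X, fco_C]; simp)
    | Y s j => exact absurd e (hXY _ _ _ _ hl hl')
    | W => exact absurd e (by rw [fco_X, fco_W]; simp)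
  | C j =>
    cases l' with
    | X s j => exact absurd e (by rw [fco_X, fco_C]; simp)
    | C j =>
      rw [fco_C, fco_C, Co.q.injEq] at e
      rw [e]
    | Y s j => exact absurd e (hCY _ _ _ hl hl')
    | W => exact absurd e (by rw [fco_C, fco_W]; simp)
  | Y r i =>
    cases l' with
    | X s j => exact absurd e.symm (hXY _ _ _ _ hl' hl)
    | C j => exact absurd e.symm (hCY _ _ _ hl' hl)
    | Y s j =>
      by_cases h1 : El.X r i ∈ S
      · by_cases h2 : El.X s j ∈ S
        · obtain ⟨h3, h4⟩ := h.one h1 hl h2 hl'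
          rw [h3, h4]
        · rw [fco_Y1 h1, fco_Y2 h2] at e
          exact absurd e (by simp)
      · by_cases h2 : El.X s j ∈ S
        · rw [fco_Y2 h1, fco_Y1 h2] at e
          exact absurd e (by simp)
        · rw [fco_Y2 h1, fco_Y2 h2, Co.P.injEq] at e
          rw [e.1, e.2]
    | W => exact absurd e.symm (hWY _ _)
  | W =>
    cases l' with
    | X s j => exact absurd e (by rw [fco_X, fco_W]; simp)
    | C j => exact absurd e (by rw [fco_C, fco_W]; simp)
    | Y s j => exact absurd e (hWY _ _)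
    | W => rfl

theorem fco_not {L : ℕ} {k : Fin L} {S : Finset (El L)} (l : El L) :
    fco k S l ≠ .a ∧ (∀ r, fco k S l ≠ .A r) ∧ fco k S l ≠ .z := by
  cases l with
  | X r i => simp [fco_X]
  | C j => simp [fco_C]
  | W => simp [fco_W]
  | Y r i =>
    by_cases h : El.X r i ∈ S
    · simp [fco_Y1 h]
    · simp [fco_Y2 h]

theorem ev_es : Se_es := by
  intro V _ K L p Q m hm0 hms hmt hmn k l hl hb
  classical
  set S : Finset (El L) := univ.image l with hS
  have hlS : ∀ i, l i ∈ S := fun i => mem_image_of_mem _ (mem_univ i)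
  have hSl : ∀ e ∈ S, ∃ i, l i = e := fun e he => by
    obtain ⟨i, -, hi⟩ := mem_image.1 he
    exact ⟨i, hi⟩
  set F : Finset (Co L) := univ.image fun i : Fin 6 => fco k S (l i) with hF
  have hFm : ∀ e ∈ S, fco k S e ∈ F := fun e he => by
    obtain ⟨i, rfl⟩ := hSl e he
    exact mem_image_of_mem _ (mem_univ i)
  have hinj : Function.Injective fun i : Fin 6 => fco k S (l i) := fun i j hij =>
    hl (fco_inj hb _ (hlS i) _ (hlS j) hij)
  have ha : (Co.a : Co L) ∉ F := fun h => by
    obtain ⟨i, -, hi⟩ := mem_image.1 h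
    exact (fco_not (l i)).1 hi
  have hA : ∀ r, (Co.A r : Co L) ∉ F := fun r h => by
    obtain ⟨i, -, hi⟩ := mem_image.1 h
    exact (fco_not (l i)).2.1 r hi
  have hz : (Co.z : Co L) ∉ F := fun h => by
    obtain ⟨i, -, hi⟩ := mem_image.1 h
    exact (fco_not (l i)).2.2 hi
  have h := nc_count (K := K) (L := L) F
    (fun o : Om K L => AllT p o ∧ (fun i => (arr p o).el k (l i)) ∈ Q)
    (fun o i => (arr p o).el k (l i)) (fun _ => Q) (fun _ => le_rfl) (fun _ _ _ => rfl)
    (fun o ho => ho.2) ?_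
  · have h0 : 0 ≤ nc (fun o : Om K L => AllT p o ∧ (fun i => (arr p o).el k (l i)) ∈ Q) :=
      Nat.cast_nonneg _
    refine (mul_le_mul_of_nonneg_left ?_ h0).trans h
    have h1 : ∏ c ∈ F, (K.sz c : ℝ) = ∏ i : Fin 6, (K.sz (fco k S (l i)) : ℝ) := by
      rw [hF, prod_image fun i _ j _ hij => hinj hij]
    rw [h1]
    have h2 : m ^ 6 = ∏ _i : Fin 6, m := by
      rw [prod_const, card_univ, Fintype.card_fin]
    rw [h2]
    refine prod_le_prod (fun _ _ => hm0) fun i _ => ?_
    have h3 : ∀ e : El L, m ≤ (K.sz (fco k S e) : ℝ) := by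
      intro e
      cases e with
      | X r i => exact hms
      | C j => exact hmt
      | Y r i =>
        by_cases h4 : El.X r i ∈ S
        · rw [fco_Y1 h4]
          exact hmt
        · rw [fco_Y2 h4]
          exact hms
      | W => exact hmn
    exact h3 _
  · intro o o' ho ho' hoo hg c hc
    have hv : ∀ e ∈ S, (arr p o).el k e = (arr p o').el k e := by
      intro e he
      obtain ⟨i, rfl⟩ := hSl e he
      exact congrFun hg i
    -- the column `k`
    have hYc : ∀ r i, El.Y r i ∈ S → El.X r i ∈ S → cc o k = cc o' k := by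
      intro r i h1 h2
      exact yy_inj_c ho.1 ho'.1 (hv _ h2) (hv _ h1)
    have hck : cc o k = cc o' k := by
      by_cases hq : (Co.q k : Co L) ∈ F
      · obtain ⟨i, -, hi⟩ := mem_image.1 hq
        have hli := hlS i
        generalize l i = e at hi hli
        cases e with
        | X r i => exact absurd hi (by rw [fco_X]; simp)
        | C j =>
          rw [fco_C, Co.q.injEq] at hi
          rw [hi] at hli
          exact hv _ hli
        | Y r i =>
          by_cases h4 : El.X r i ∈ S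
          · exact hYc r i hli h4
          · exact absurd hi (by rw [fco_Y2 h4]; simp)
        | W => exact absurd hi (by rw [fco_W]; simp)
      · exact cc_congr (hoo _ hz) (hoo _ hq)
    obtain ⟨i, -, hi⟩ := mem_image.1 hc
    have hli := hlS i
    generalize l i = e at hi hli
    subst hi
    cases e with
    | X r i => exact (xx_inj (hv _ hli)).2.2
    | C j => exact (cc_inj (hv _ hli)).2
    | Y r i =>
      by_cases h4 : El.X r i ∈ S
      · rw [fco_Y1 h4]
        exact (cc_inj hck).2
      · rw [fco_Y2 h4]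
        exact (xx_inj (yy_inj_x ho.1 ho'.1 hck (hv _ hli))).2.2
    | W => exact hv _ hli

end Pool.Agent.F32
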