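import Pool.Agent.F32.ArrDefs

/-!
# F32: the events `xa`, `xb`, `xc` (helper31)
-/

set_option autoImplicit false

namespace Pool.Agent.F32

open Finset Matrix Circ

/-- a point of the row `r` in a small set which depends on `w`, a `y` of the row, two `x` of other
rows -/
theorem ev_xa : Se_xa := by
  intro V _ K L p Z E hZ r j i k a b ha hb
  have h := nc_count (K := K) (L := L) {Co.A r, Co.P r i, Co.z, Co.q k}
    (fun o : Om K L => AllT p o ∧ xx o r i ∈
      Z (ww o) (yy p o r j k) (xx o a.1 a.2) (xx o b.1 b.2))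
    (fun o => (⟨yy p o r j k, xx o r i⟩ : (_ : V) × V))
    (fun o => univ.sigma fun y => Z (ww o) y (xx o a.1 a.2) (xx o b.1 b.2))
    (B := ((Fintype.card V : ℕ) : ℝ) * E) ?_ ?_ ?_ ?_
  · rw [prod_insert (by simp), prod_insert (by simp), prod_insert (by simp), prod_singleton] at h
    refine le_trans (le_of_eq ?_) h
    simp only [BK.sz]
    ring
  · intro o
    rw [card_sigma]
    push_cast
    refine (sum_le_card_nsmul _ _ _ fun y _ => hZ _ _ _ _).trans ?_
    rw [nsmul_eq_mul, card_univ]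
  · intro o o' hoo
    have hx : ∀ s l, s ≠ r → xx o s l = xx o' s l := fun s l hs =>
      xx_congr (hoo _ (by simp)) (hoo _ (by simp [hs])) (hoo _ (by simp [hs]))
    have hw : ww o = ww o' := hoo Co.w (by simp)
    simp only [hx _ _ ha, hx _ _ hb, hw]
  · intro o ho
    exact mem_sigma.2 ⟨mem_univ _, ho.2⟩
  · intro o o' ho ho' hoo hg c hc
    rw [Sigma.mk.injEq] at hg
    obtain ⟨g1, g2⟩ := hg
    have g2' := eq_of_heq g2
    obtain ⟨e1, e2, e3⟩ := xx_inj g2'
    have e4 : o (.P r j) = o' (.P r j) := by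
      by_cases hji : j = i
      · rw [hji]
        exact e3
      · exact hoo _ (by simp [hji])
    have e5 := yy_inj_c ho.1 ho'.1 (xx_congr e1 e2 e4) g1
    obtain ⟨e6, e7⟩ := cc_inj e5
    simp only [mem_insert, mem_singleton] at hc
    rcases hc with rfl | rfl | rfl | rfl
    · exact e2
    · exact e3
    · exact e6
    · exact e7

/-- the same with an `x` and a `y` of two other rows -/
theorem ev_xb : Se_xb := by
  intro V _ K L p Z E hZ r j i k a b ha hb hab
  have h := nc_count (K := K) (L := L)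
    {Co.A r, Co.P r i, Co.z, Co.q k, Co.A b.1, Co.P b.1 b.2}
    (fun o : Om K L => AllT p o ∧ xx o r i ∈
      Z (ww o) (yy p o r j k) (xx o a.1 a.2) (yy p o b.1 b.2 k))
    (fun o => (⟨(yy p o r j k, yy p o b.1 b.2 k), xx o r i⟩ : (_ : V × V) × V))
    (fun o => univ.sigma fun y => Z (ww o) y.1 (xx o a.1 a.2) y.2)
    (B := ((Fintype.card V : ℕ) : ℝ) ^ 2 * E) ?_ ?_ ?_ ?_
  · rw [prod_insert (by simp [hb.symm]), prod_insert (by simp [hb.symm]), prod_insert (by simp),
      prod_insert (by simp), prod_insert (by simp), prod_singleton] at h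
    refine le_trans (le_of_eq ?_) h
    simp only [BK.sz]
    ring
  · intro o
    rw [card_sigma]
    push_cast
    refine (sum_le_card_nsmul _ _ _ fun y _ => hZ _ _ _ _).trans (le_of_eq ?_)
    rw [nsmul_eq_mul, card_univ, Fintype.card_prod]
    push_cast
    ring
  · intro o o' hoo
    have hx : xx o a.1 a.2 = xx o' a.1 a.2 :=
      xx_congr (hoo _ (by simp)) (hoo _ (by simp [ha, hab])) (hoo _ (by simp [ha, hab]))
    have hw : ww o = ww o' := hoo Co.w (by simp)
    simp only [hx, hw]
  · intro o ho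
    exact mem_sigma.2 ⟨mem_univ _, ho.2⟩
  · intro o o' ho ho' hoo hg c hc
    rw [Sigma.mk.injEq] at hg
    obtain ⟨g1, g2⟩ := hg
    have g2' := eq_of_heq g2
    rw [Prod.mk.injEq] at g1
    obtain ⟨g1, g3⟩ := g1
    obtain ⟨e1, e2, e3⟩ := xx_inj g2'
    have e4 : o (.P r j) = o' (.P r j) := by
      by_cases hji : j = i
      · rw [hji]
        exact e3
      · exact hoo _ (by simp [hji, hb.symm])
    have e5 := yy_inj_c ho.1 ho'.1 (xx_congr e1 e2 e4) g1
    obtain ⟨e6, e7⟩ := cc_inj e5
    obtain ⟨-, e8, e9⟩ := xx_inj (yy_inj_x ho.1 ho'.1 e5 g3)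
    simp only [mem_insert, mem_singleton] at hc
    rcases hc with rfl | rfl | rfl | rfl | rfl | rfl
    · exact e2
    · exact e3
    · exact e6
    · exact e7
    · exact e8
    · exact e9

/-- the same with two `y` of two other rows -/
theorem ev_xc : Se_xc := by
  intro V _ K L p Z E hZ r j i k a b ha hb hab
  have h := nc_count (K := K) (L := L)
    {Co.A r, Co.P r i, Co.z, Co.q k, Co.A a.1, Co.P a.1 a.2, Co.A b.1, Co.P b.1 b.2}
    (fun o : Om K L => AllT p o ∧ xx o r i ∈
      Z (ww o) (yy p o r j k) (yy p o a.1 a.2 k) (yy p o b.1 b.2 k))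
    (fun o => (⟨(yy p o r j k, yy p o a.1 a.2 k, yy p o b.1 b.2 k), xx o r i⟩ :
      (_ : V × V × V) × V))
    (fun o => univ.sigma fun y => Z (ww o) y.1 y.2.1 y.2.2)
    (B := ((Fintype.card V : ℕ) : ℝ) ^ 3 * E) ?_ ?_ ?_ ?_
  · rw [prod_insert (by simp [hb.symm, ha.symm]), prod_insert (by simp [hb.symm, ha.symm]),
      prod_insert (by simp), prod_insert (by simp), prod_insert (by simp [hab]),
      prod_insert (by simp [hab]), prod_insert (by simp), prod_singleton] at h
    refine le_trans (le_of_eq ?_) h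
    simp only [BK.sz]
    ring
  · intro o
    rw [card_sigma]
    push_cast
    refine (sum_le_card_nsmul _ _ _ fun y _ => hZ _ _ _ _).trans (le_of_eq ?_)
    rw [nsmul_eq_mul, card_univ, Fintype.card_prod, Fintype.card_prod]
    push_cast
    ring
  · intro o o' hoo
    have hw : ww o = ww o' := hoo Co.w (by simp)
    simp only [hw]
  · intro o ho
    exact mem_sigma.2 ⟨mem_univ _, ho.2⟩
  · intro o o' ho ho' hoo hg c hc
    rw [Sigma.mk.injEq] at hg
    obtain ⟨g1, g2⟩ := hg
    have g2' := eq_of_heq g2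
    rw [Prod.mk.injEq, Prod.mk.injEq] at g1
    obtain ⟨g1, g3, g4⟩ := g1
    obtain ⟨e1, e2, e3⟩ := xx_inj g2'
    have e4 : o (.P r j) = o' (.P r j) := by
      by_cases hji : j = i
      · rw [hji]
        exact e3
      · exact hoo _ (by simp [hji, hb.symm, ha.symm])
    have e5 := yy_inj_c ho.1 ho'.1 (xx_congr e1 e2 e4) g1
    obtain ⟨e6, e7⟩ := cc_inj e5
    obtain ⟨-, e8, e9⟩ := xx_inj (yy_inj_x ho.1 ho'.1 e5 g3)
    obtain ⟨-, e10, e11⟩ := xx_inj (yy_inj_x ho.1 ho'.1 e5 g4)
    simp only [mem_insert, mem_singleton] at hc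
    rcases hc with rfl | rfl | rfl | rfl | rfl | rfl | rfl | rfl
    · exact e2
    · exact e3
    · exact e6
    · exact e7
    · exact e8
    · exact e9
    · exact e10
    · exact e11

end Pool.Agent.F32
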