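import Pool.Agent.F32.VC
import Pool.Agent.F32.ArrDefs

/-!
# F32: the strong VC lemma, partition form (helper61)
-/

set_option autoImplicit false

namespace Pool.Agent.F32

open Finset Matrix

/-- **Strong VC lemma, partition form.** The points are divided into a bounded number of classes such
that every hyperplane cuts classes which contain at most `e |V|` points. -/
theorem vcp {e : ℝ} (he : 0 < e) : ∃ K n0 : ℕ, 0 < K ∧ ∀ (V : Type) [Fintype V] (v : V → R5),
    GP v → n0 ≤ Fintype.card V → ∃ f : V → Fin K, ∀ h : R5,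
      ((cutf v f h).card : ℝ) ≤ e * Fintype.card V := by
  classical
  obtain ⟨m, hm⟩ := strong_vc he (show (0 : ℝ) < 1 / 2 by norm_num)
  refine ⟨Fintype.card ((Fin 4 → Fin m) → SignType), 4 * m ^ 2 + 1, Fintype.card_pos, ?_⟩
  intro V _ v hv hn
  obtain ⟨n, hn'⟩ : ∃ n : ℝ, n = ((Fintype.card V : ℕ) : ℝ) := ⟨_, rfl⟩
  have hn1 : 4 * (m : ℝ) ^ 2 + 1 ≤ n := by
    rw [hn']
    exact_mod_cast hn
  have hn0 : 0 < n := by
    have := sq_nonneg (m : ℝ)
    linarith
  have h1 := hm m le_rfl V v hv (by
    rw [← hn']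
    linarith)
  rw [← hn'] at h1 ⊢
  have h2 : ∃ W : Fin m → V, ¬ ∃ h : R5, e * n < (cut v W h).card := by
    by_contra hcon
    push Not at hcon
    have h3 : ((univ : Finset (Fin m → V)).filter fun W =>
        ∃ h : R5, e * n < (cut v W h).card) = univ := by
      rw [filter_eq_self]
      exact fun W _ => hcon W
    rw [h3, card_univ, Fintype.card_fun, Fintype.card_fin] at h1
    push_cast at h1
    rw [← hn'] at h1
    have h4 : 0 < n ^ m := pow_pos hn0 m
    linarith
  obtain ⟨W, hW⟩ := h2
  push Not at hW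
  let g : V → ((Fin 4 → Fin m) → SignType) := fun p i =>
    SignType.sign (det5 (fun k => v (W (i k))) (v p))
  let E := Fintype.equivFin ((Fin 4 → Fin m) → SignType)
  have hE : ∀ p q, E (g q) = E (g p) ↔ Same v W p q := by
    intro p q
    rw [E.injective.eq_iff]
    constructor
    · intro h i
      exact (congrFun h i).symm
    · intro h
      funext i
      exact (h i).symm
  refine ⟨fun p => E (g p), fun h => ?_⟩
  have h5 : cutf v (fun p => E (g p)) h = cut v W h := by
    ext p
    unfold cutf cut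
    simp only [mem_filter, mem_univ, true_and]
    constructor
    · rintro ⟨q, q', h1, h2, h3, h4⟩
      exact ⟨q, q', (hE p q).1 h1, (hE p q').1 h2, h3, h4⟩
    · rintro ⟨q, q', h1, h2, h3, h4⟩
      exact ⟨q, q', (hE p q).2 h1, (hE p q').2 h2, h3, h4⟩
  rw [h5]
  exact hW h

end Pool.Agent.F32
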