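import Pool.Agent.F32.Union
import Pool.Agent.F32.VCP
import Pool.Agent.F32.Dens
import Pool.Agent.F32.Ev_xa
import Pool.Agent.F32.Ev_es

/-!
# F32: the array theorem (helper40)

Choice of the parameters: `e`, `L`, the measure `θ` of the bad events, the window `m` of the sample,
closeness `e0(m)`, coarse blocks, closeness `e1(m)`, fine blocks, closeness `e2(m)`, blocks of the
columns, the density `dD(m)` of the destroyed edges.
-/

set_option autoImplicit false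

namespace Pool.Agent.F32

open Finset Matrix Circ

open Classical in
/-- the pairs of a system -/
noncomputable def ptOf {V : Type} {v : V → R5} {T : Finset (V × V × V)} (hT : Sys v T) : PT V where
  tp := fun x c => ∃ y, (x, c, y) ∈ T
  pr := fun x c => if h : ∃ y, (x, c, y) ∈ T then h.choose else x
  linj := by
    intro x c c' h h' e
    rw [dif_pos h, dif_pos h'] at e
    have h1 := h.choose_spec
    have h2 := h'.choose_spec
    rw [← e] at h2
    exact hT.inj3 _ _ _ _ h1 h2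
  rinj := by
    intro x x' c h h' e
    rw [dif_pos h, dif_pos h'] at e
    have h1 := h.choose_spec
    have h2 := h'.choose_spec
    rw [← e] at h2
    exact hT.inj2 _ _ _ _ h1 h2

theorem ptOf_mem {V : Type} {v : V → R5} {T : Finset (V × V × V)} (hT : Sys v T) (x c : V)
    (h : (ptOf hT).tp x c) : (x, c, (ptOf hT).pr x c) ∈ T := by
  have h' : ∃ y, (x, c, y) ∈ T := h
  have h1 : (ptOf hT).pr x c = h'.choose := dif_pos h'
  rw [h1]
  exact h'.choose_spec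

theorem no_pos {V : Type} [Fintype V] (K : BK V) (L : ℕ) (h0 : 0 < K.a0) (h1 : 0 < K.a1)
    (h2 : 0 < K.s) (h3 : 0 < K.b) (h4 : 0 < K.t) (h5 : 0 < Fintype.card V) : 0 < no K L := by
  have h6 : ∀ c : Co L, 0 < Fintype.card (K.ty c) := by
    intro c
    rw [K.card_ty]
    cases c <;> assumption
  have : ∀ c : Co L, Nonempty (K.ty c) := fun c => Fintype.card_pos_iff.1 (h6 c)
  unfold no
  exact_mod_cast Fintype.card_pos

/-- the array theorem for a given sample -/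
theorem core (hcy : Se_cy) (hxy : Se_xy) (hij : Se_inj) (hav : Se_av) (hdet : S_det) {e : ℝ}
    (L : ℕ) (he : 0 < e) (he1 : e ≤ 1) {θ : ℝ} (hθ : 0 < θ)
    (hM : (Fintype.card (Evt L) : ℝ) * θ < (e / 2) ^ (L * L * L)) (m : ℕ) :
    ∃ dD : ℝ, 0 < dD ∧ ∃ n0 : ℕ, ∀ (V : Type) [Fintype V] [DecidableEq V] (v : V → R5), GP v →
      ∀ T : Finset (V × V × V), Sys v T → n0 ≤ Fintype.card V →
      e * ((Fintype.card V : ℕ) : ℝ) ^ 2 ≤ (T.card : ℝ) →
      ∀ (N : ℕ) (W : Fin m → V) (U : Fin N → V),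
      ((Smp.QE v W U).card : ℝ) ≤ 2 * (θ / 8) * ((Fintype.card V : ℕ) : ℝ) ^ 2 →
      ((Smp.QD v U).card : ℝ) ≤ 2 * dD * ((Fintype.card V : ℕ) : ℝ) ^ 6 →
      ∃ A : Arr V L, ArrOK v A := by
  obtain ⟨e0, he0, hp0⟩ : ∃ e0 : ℝ, 0 < e0 ∧ 4 * (m : ℝ) ^ 3 * e0 ≤ θ := by
    refine ⟨θ / (4 * (m : ℝ) ^ 3 + 1), by positivity, ?_⟩
    rw [← mul_div_assoc, div_le_iff₀ (by positivity)]
    nlinarith
  obtain ⟨K0, n0, hK0, h0⟩ := vcp he0
  obtain ⟨A0, hA0, hX⟩ := blocks2 K0 hK0 (show 0 < e / 4 by positivity)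
    (show e / 4 ≤ 1 by linarith)
  have hA0' : (0 : ℝ) < A0 := by exact_mod_cast hA0
  obtain ⟨e1, he1', hp1⟩ : ∃ e1 : ℝ, 0 < e1 ∧ 16 * e1 * (A0 : ℝ) ^ 3 ≤ θ := by
    refine ⟨θ / (16 * (A0 : ℝ) ^ 3), by positivity, le_of_eq ?_⟩
    field_simp
  obtain ⟨K1, n1, hK1, h1⟩ := vcp he1'
  obtain ⟨A1, n2, hA1, hX1⟩ := hX K1 hK1
  have hA1' : (0 : ℝ) < A1 := by exact_mod_cast hA1
  obtain ⟨e2, he2, hp2⟩ : ∃ e2 : ℝ, 0 < e2 ∧ 4 * e2 * ((A0 : ℝ) * A1) ≤ θ := by
    refine ⟨θ / (4 * ((A0 : ℝ) * A1)), by positivity, le_of_eq ?_⟩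
    field_simp
  obtain ⟨K2, n3, hK2, h2⟩ := vcp he2
  obtain ⟨B, n4, hB, hC⟩ := blocks1 K2 hK2 (show 0 < e / 4 by positivity)
  have hB' : (0 : ℝ) < B := by exact_mod_cast hB
  obtain ⟨dD, hdD, hpD⟩ : ∃ dD : ℝ, 0 < dD ∧ 2 * dD * (2 * ((A0 : ℝ) * A1 + B)) ^ 6 ≤ θ := by
    refine ⟨θ / (2 * (2 * ((A0 : ℝ) * A1 + B)) ^ 6), by positivity, le_of_eq ?_⟩
    field_simp
  obtain ⟨n5, hn5⟩ := exists_nat_gt (2 * ((A0 : ℝ) * A1 + B) * (m + 1) / θ)
  refine ⟨dD, hdD, n0 + n1 + n2 + n3 + n4 + n5 + 5, ?_⟩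
  intro V _ _ v hv T hT hV hTd N W U hQE hQD
  obtain ⟨f0, hf0⟩ := h0 V v hv (by omega)
  obtain ⟨f1, hf1⟩ := h1 V v hv (by omega)
  obtain ⟨f2, hf2⟩ := h2 V v hv (by omega)
  obtain ⟨a0, a1, s, X, q1, q2, q3, q4, q5, q6, q7, q8, q9⟩ := hX1 V f0 f1 (by omega)
  obtain ⟨b, t, C, r1, r2, r3, r4, r5, r6⟩ := hC V f2 (by omega)
  set K : BK V := ⟨a0, a1, s, b, t, X, C, q6, r4⟩ with hK
  set n : ℝ := ((Fintype.card V : ℕ) : ℝ) with hn
  have hn5' : (n5 : ℝ) ≤ n := by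
    rw [hn]
    exact_mod_cast (show n5 ≤ Fintype.card V by omega)
  have hnpos : 0 < Fintype.card V := by omega
  have hn0 : 0 < n := by
    rw [hn]
    exact_mod_cast hnpos
  have P : Par v K f0 f1 f2 W U θ n A0 A1 B e0 e1 e2 (θ / 8) dD :=
    { hn := hn
      n0 := hn0
      th := hθ
      pa0 := q1
      pa1 := q3
      ps := q5
      pb := r1
      pt := r3
      x := by
        have h3 : (1 - e / 4) * n ≤ (a0 : ℝ) * a1 * s := q7
        show n ≤ 2 * ((a0 : ℝ) * a1 * s)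
        nlinarith
      c := by
        have h3 : (1 - e / 4) * n ≤ (b : ℝ) * t := r5
        show n ≤ 2 * ((b : ℝ) * t)
        nlinarith
      la0 := by
        show (a0 : ℝ) ≤ A0
        exact_mod_cast q2
      la1 := by
        show (a1 : ℝ) ≤ A1
        exact_mod_cast q4
      lb := by
        show (b : ℝ) ≤ B
        exact_mod_cast r2
      c0 := hf0
      c1 := hf1
      c2 := hf2
      qe := hQE
      qd := hQD
      p0 := hp0
      p1 := hp1
      p2 := hp2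
      pd := by linarith
      pD := hpD
      pn := by
        rw [div_lt_iff₀ hθ] at hn5
        nlinarith }
  have hp : ∀ x c, (ptOf hT).tp x c → x ≠ c ∧ c ≠ (ptOf hT).pr x c ∧ x ≠ (ptOf hT).pr x c :=
    fun x c h => hT.ne _ _ _ (ptOf_mem hT x c h)
  have hD := dens V K (ptOf hT) T L e he (fun x c y h => ⟨y, h⟩) hT.inj1 q1 q3 q5 r1 r3 q7 r5 hTd
  obtain ⟨o, ho, hbad⟩ := exists_of_nc (K := K) (L := L) (fun o => AllT (ptOf hT) o)
    (fun e' o => Evt.bad v f0 f1 f2 W U (ptOf hT) e' o)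
    (no_pos K L q1 q3 q5 r1 r3 hnpos) hD
    (fun e' => bad_le P (ptOf hT) hp hcy ev_xa ev_xb ev_xc hxy hij hav ev_es e') hM
  exact ⟨arr (ptOf hT) o, hdet V v K (Fin K0) (Fin K1) (Fin K2) f0 f1 f2 m N W U (ptOf hT) T L o hv
    (by omega) hT (ptOf_mem hT) q8 q9 r6 (good_of ho hbad)⟩

/-- **array theorem** from the events -/
theorem array_of (hcy : Se_cy) (hxy : Se_xy) (hij : Se_inj) (hav : Se_av) (hdet : S_det) :
    ArrayThm := by
  intro e L he
  -- `e ≤ 1` without loss of generality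
  set e' : ℝ := min e 1 with he'
  have he0 : 0 < e' := lt_min he one_pos
  have he1 : e' ≤ 1 := min_le_right _ _
  obtain ⟨θ, hθ, hM⟩ : ∃ θ : ℝ, 0 < θ ∧
      (Fintype.card (Evt L) : ℝ) * θ < (e' / 2) ^ (L * L * L) := by
    refine ⟨(e' / 2) ^ (L * L * L) / ((Fintype.card (Evt L) : ℝ) + 1), by positivity, ?_⟩
    rw [← mul_div_assoc, div_lt_iff₀ (by positivity)]
    have : 0 < (e' / 2) ^ (L * L * L) := by positivity
    nlinarith
  have hcore := core hcy hxy hij hav hdet L he0 he1 hθ hM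
  choose dD hdD n0 hn0 using hcore
  set I : ℕ := ⌊1 / (θ / 8)⌋₊ + 1 with hI
  refine ⟨(Finset.range I).sup (fun i => n0 ((Smp.G dD)^[i] 0)) + 1, ?_⟩
  intro V _ _ v hv T hT hV hTd
  obtain ⟨i, hi, m, hm, j, _, U, hQE, hQD⟩ := Smp.sample (show 0 < θ / 8 by positivity) hdD 0 v
    (by omega)
  have h1 : n0 m ≤ Fintype.card V := by
    have h2 : n0 ((Smp.G dD)^[i] 0) ≤
        (Finset.range I).sup (fun i => n0 ((Smp.G dD)^[i] 0)) :=
      Finset.le_sup (f := fun i => n0 ((Smp.G dD)^[i] 0)) (Finset.mem_range.2 hi)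
    rw [← hm] at h2
    omega
  refine hn0 m V v hv T hT h1 ?_ _ _ U hQE hQD
  refine le_trans ?_ hTd
  exact mul_le_mul_of_nonneg_right (min_le_left _ _) (by positivity)

end Pool.Agent.F32
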