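import Pool.Agent.F32.Sem3

/-!
# F32: the certificate checker and its soundness (helper46)

A relation is given by its label numbers (five bits each), the numbers of the order types of its
tuples (twelve bits each) and the list of the patterns used.
-/

set_option autoImplicit false

namespace Pool.Agent.F32.Sem

open Circ Rup

noncomputable section

/-- relations: three-term relation, edge, triangle, closeness -/
inductive Rel : Type
  | G : ℕ → ℕ → List ℕ → Rel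
  | E : ℕ → ℕ → List ℕ → Rel
  | T : ℕ → ℕ → List ℕ → Rel
  | C : ℕ → ℕ → List ℕ → Rel

/-- five bits -/
def lb (q j : ℕ) : ℕ := Nat.land (Nat.shiftRight q j) (nat_lit 31)
/-- twelve bits -/
def ib (q j : ℕ) : ℕ := Nat.land (Nat.shiftRight q j) (nat_lit 4095)

def doG (K : ℕ) (U : Tr) (cont : Tr → ℕ → Bool) (q x : ℕ) (ps : List ℕ) (t : Tr) (k : ℕ) : Bool :=
  frc (lb q (nat_lit 0)) fun a => frc (lb q (nat_lit 5)) fun b => frc (lb q (nat_lit 10)) fun c =>
  frc (lb q (nat_lit 15)) fun d => frc (lb q (nat_lit 20)) fun e =>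
  frc (lb q (nat_lit 25)) fun f => frc (lb q (nat_lit 30)) fun g =>
  tup K U a b c d e (ib x (nat_lit 0)) fun m0 n0 =>
  tup K U a b c f g (ib x (nat_lit 12)) fun m1 n1 =>
  tup K U a b c d f (ib x (nat_lit 24)) fun m2 n2 =>
  tup K U a b c e g (ib x (nat_lit 36)) fun m3 n3 =>
  tup K U a b c d g (ib x (nat_lit 48)) fun m4 n4 =>
  tup K U a b c e f (ib x (nat_lit 60)) fun m5 n5 =>
  insP vG (cG m0 n0 m1 n1 m2 n2 m3 n3 m4 n4 m5 n5) ps cont t k

def doE (K : ℕ) (U : Tr) (cont : Tr → ℕ → Bool) (q i : ℕ) (ps : List ℕ) (t : Tr) (k : ℕ) : Bool :=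
  frc (lb q (nat_lit 0)) fun x => frc (lb q (nat_lit 5)) fun y => frc (lb q (nat_lit 10)) fun a =>
  frc (lb q (nat_lit 15)) fun b => frc (lb q (nat_lit 20)) fun c =>
  frc (lb q (nat_lit 25)) fun d =>
  tup K U x y b c d (ib i (nat_lit 0)) fun m0 n0 =>
  tup K U x y a c d (ib i (nat_lit 12)) fun m1 n1 =>
  tup K U x y a b d (ib i (nat_lit 24)) fun m2 n2 =>
  tup K U x y a b c (ib i (nat_lit 36)) fun m3 n3 =>
  aa (edgeOK x y a b c d) (insP vE (cE m0 n0 m1 n1 m2 n2 m3 n3) ps cont t k)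

def doT (K : ℕ) (U : Tr) (cont : Tr → ℕ → Bool) (q i : ℕ) (ps : List ℕ) (t : Tr) (k : ℕ) : Bool :=
  frc (lb q (nat_lit 0)) fun x => frc (lb q (nat_lit 5)) fun y => frc (lb q (nat_lit 10)) fun z =>
  frc (lb q (nat_lit 15)) fun a => frc (lb q (nat_lit 20)) fun b =>
  frc (lb q (nat_lit 25)) fun c =>
  tup K U x y z b c (ib i (nat_lit 0)) fun m0 n0 =>
  tup K U x y z a c (ib i (nat_lit 12)) fun m1 n1 =>
  tup K U x y z a b (ib i (nat_lit 24)) fun m2 n2 =>
  aa (triOK x y z) (insP vT (cT m0 n0 m1 n1 m2 n2) ps cont t k)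

def doC (K : ℕ) (U : Tr) (cont : Tr → ℕ → Bool) (q i : ℕ) (ps : List ℕ) (t : Tr) (k : ℕ) : Bool :=
  frc (lb q (nat_lit 0)) fun a => frc (lb q (nat_lit 5)) fun b => frc (lb q (nat_lit 10)) fun c =>
  frc (lb q (nat_lit 15)) fun d => frc (lb q (nat_lit 20)) fun x =>
  frc (lb q (nat_lit 25)) fun y =>
  tup K U a b c d x (ib i (nat_lit 0)) fun m0 n0 =>
  tup K U a b c d y (ib i (nat_lit 12)) fun m1 n1 =>
  aa (closeOK a b c d x y) (insP vC (cC m0 n0 m1 n1) ps cont t k)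

/-- one relation -/
def doR (K : ℕ) (U : Tr) (cont : Tr → ℕ → Bool) (R : Rel) : Tr → ℕ → Bool :=
  Rel.rec (motive := fun _ => Tr → ℕ → Bool) (doG K U cont) (doE K U cont) (doT K U cont)
    (doC K U cont) R

/-- all relations -/
def doL (K : ℕ) (U : Tr) (cont : Tr → ℕ → Bool) (L : List Rel) : Tr → ℕ → Bool :=
  List.rec (motive := fun _ => Tr → ℕ → Bool) cont (fun R _ ih => doR K U ih R) L

/-- the table of order types -/
def bld (L : List ℕ) : Tr → ℕ → (Tr → Bool) → Bool :=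
  List.rec (motive := fun _ => Tr → ℕ → (Tr → Bool) → Bool) (fun t _ k => k t)
    (fun x _ ih t i k => insK x t i fun t' => frc (Nat.succ i) fun i' => ih t' i' k) L

/-- the checker -/
def cert (K Kp d : ℕ) (keys : List ℕ) (R : List Rel) (L : List (List ℕ × List ℕ)) : Bool :=
  bld keys Tr.e (nat_lit 1) fun U => doL K U (chk K Kp d L) R Tr.e (nat_lit 1)

/-! ## Soundness -/

theorem doG_sound {P : El 3 → R5} (hP : Pat P) {K : ℕ} {U : Tr} {cont : Tr → ℕ → Bool}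
    {q x : ℕ} {ps : List ℕ} {t : Tr} {k : ℕ} (ht : Ok (tau P K U) t)
    (h : doG K U cont q x ps t k = true) : ∃ t' k', Ok (tau P K U) t' ∧ cont t' k' = true := by
  unfold doG at h
  simp only [frc_eq] at h
  obtain ⟨m0, n0, h, q0⟩ := tup_sound hP h
  obtain ⟨m1, n1, h, q1⟩ := tup_sound hP h
  obtain ⟨m2, n2, h, q2⟩ := tup_sound hP h
  obtain ⟨m3, n3, h, q3⟩ := tup_sound hP h
  obtain ⟨m4, n4, h, q4⟩ := tup_sound hP h
  obtain ⟨m5, n5, h, q5⟩ := tup_sound hP h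
  exact insP_sound (fun p hp => cG_sat q0 q1 q2 q3 q4 q5 (gp _ _ _ _ _ _ _) p hp) ps t k ht h

theorem doE_sound {P : El 3 → R5} (hP : Pat P) {K : ℕ} {U : Tr} {cont : Tr → ℕ → Bool}
    {q x : ℕ} {ps : List ℕ} {t : Tr} {k : ℕ} (ht : Ok (tau P K U) t)
    (h : doE K U cont q x ps t k = true) : ∃ t' k', Ok (tau P K U) t' ∧ cont t' k' = true := by
  unfold doE at h
  simp only [frc_eq] at h
  obtain ⟨m0, n0, h, q0⟩ := tup_sound hP h
  obtain ⟨m1, n1, h, q1⟩ := tup_sound hP h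
  obtain ⟨m2, n2, h, q2⟩ := tup_sound hP h
  obtain ⟨m3, n3, h, q3⟩ := tup_sound hP h
  rw [aa_eq, Bool.and_eq_true] at h
  exact insP_sound (fun p hp => cE_sat q0 q1 q2 q3
    (edgeOK_sound hP h.1 q0.ne q1.ne q2.ne) p hp) ps t k ht h.2

theorem doT_sound {P : El 3 → R5} (hP : Pat P) {K : ℕ} {U : Tr} {cont : Tr → ℕ → Bool}
    {q x : ℕ} {ps : List ℕ} {t : Tr} {k : ℕ} (ht : Ok (tau P K U) t)
    (h : doT K U cont q x ps t k = true) : ∃ t' k', Ok (tau P K U) t' ∧ cont t' k' = true := by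
  unfold doT at h
  simp only [frc_eq] at h
  obtain ⟨m0, n0, h, q0⟩ := tup_sound hP h
  obtain ⟨m1, n1, h, q1⟩ := tup_sound hP h
  obtain ⟨m2, n2, h, q2⟩ := tup_sound hP h
  rw [aa_eq, Bool.and_eq_true] at h
  exact insP_sound (fun p hp => cT_sat q0 q1 q2 (triOK_sound hP _ _ _ h.1) p hp) ps t k ht h.2

theorem doC_sound {P : El 3 → R5} (hP : Pat P) {K : ℕ} {U : Tr} {cont : Tr → ℕ → Bool}
    {q x : ℕ} {ps : List ℕ} {t : Tr} {k : ℕ} (ht : Ok (tau P K U) t)
    (h : doC K U cont q x ps t k = true) : ∃ t' k', Ok (tau P K U) t' ∧ cont t' k' = true := by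
  unfold doC at h
  simp only [frc_eq] at h
  obtain ⟨m0, n0, h, q0⟩ := tup_sound hP h
  obtain ⟨m1, n1, h, q1⟩ := tup_sound hP h
  rw [aa_eq, Bool.and_eq_true] at h
  exact insP_sound (fun p hp => cC_sat q0 q1 (closeOK_sound hP h.1 q0.ne) p hp) ps t k ht h.2

theorem doR_sound {P : El 3 → R5} (hP : Pat P) {K : ℕ} {U : Tr} {cont : Tr → ℕ → Bool}
    {R : Rel} {t : Tr} {k : ℕ} (ht : Ok (tau P K U) t) (h : doR K U cont R t k = true) :
    ∃ t' k', Ok (tau P K U) t' ∧ cont t' k' = true := by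
  cases R with
  | G q x ps => exact doG_sound hP ht h
  | E q x ps => exact doE_sound hP ht h
  | T q x ps => exact doT_sound hP ht h
  | C q x ps => exact doC_sound hP ht h

theorem doL_cons (K : ℕ) (U : Tr) (cont : Tr → ℕ → Bool) (R : Rel) (L : List Rel) :
    doL K U cont (R :: L) = doR K U (doL K U cont L) R := rfl

theorem doL_sound {P : El 3 → R5} (hP : Pat P) {K : ℕ} {U : Tr} {cont : Tr → ℕ → Bool} :
    ∀ (L : List Rel) (t : Tr) (k : ℕ), Ok (tau P K U) t → doL K U cont L t k = true →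
      ∃ t' k', Ok (tau P K U) t' ∧ cont t' k' = true
  | [], t, k, ht, h => ⟨t, k, ht, h⟩
  | R :: L, t, k, ht, h => by
    rw [doL_cons] at h
    obtain ⟨t', k', ht', h'⟩ := doR_sound hP ht h
    exact doL_sound hP L t' k' ht' h'

theorem bld_cons (x : ℕ) (L : List ℕ) (t : Tr) (i : ℕ) (k : Tr → Bool) :
    bld (x :: L) t i k = insK x t i fun t' => frc (Nat.succ i) fun i' => bld L t' i' k := rfl

theorem bld_spec : ∀ (L : List ℕ) (t : Tr) (i : ℕ) (k : Tr → Bool), bld L t i k = true →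
    ∃ U, k U = true
  | [], t, _, _, h => ⟨t, h⟩
  | x :: L, t, i, k, h => by
    rw [bld_cons, insK_eq, frc_eq] at h
    exact bld_spec L _ _ k h

/-- soundness of the checker -/
theorem cert_sound {K : ℕ} (hK : 0 < K) {keys : List ℕ} {R : List Rel}
    {L : List (List ℕ × List ℕ)} (h : cert K (2 ^ K) (1 ||| 2 ^ K) keys R L = true) (P : El 3 → R5) :
    ¬ Pat P := by
  intro hP
  unfold cert at h
  obtain ⟨U, hU⟩ := bld_spec _ _ _ _ h
  obtain ⟨t, k, ht, h1⟩ := doL_sound hP R Tr.e _ trivial hU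
  have hv := tau_val P hK U
  exact chk_sound hv (dflt_sat hv) L t k ht h1

end

end Pool.Agent.F32.Sem
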