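import Pool.Agent.F32.VC

/-!
# F32: circuits (helper40)

Signs of five-row determinants at a supporting functional: an edge `x y` of the convex hull excludes
positive circuits modulo `x, y`; a two-dimensional face `x y z` excludes positive circuits modulo
`x, y, z`; three-term relations.
-/

set_option autoImplicit false

namespace Pool.Agent.F32

open Finset Matrix

/-- the determinant of five rows -/
def D5 (a b c d e : R5) : ℝ := Matrix.det (Matrix.of ![a, b, c, d, e])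

theorem det5_eq_D5 (a b c d e : R5) : det5 ![a, b, c, d] e = D5 a b c d e := rfl

namespace Circ

theorem six (w : Fin 6 → R5) (h : R5) :
    ∑ i : Fin 6, (-1) ^ (i : ℕ) * (w i ⬝ᵥ h) *
      Matrix.det (Matrix.of fun j : Fin 5 => w (i.succAbove j)) = 0 := by
  set M : Matrix (Fin 6) (Fin 6) ℝ := Matrix.of fun i => Fin.cons (w i ⬝ᵥ h) (w i) with hM
  have h0 : M.det = 0 := by
    rw [← Matrix.exists_mulVec_eq_zero_iff]
    refine ⟨Fin.cons 1 (-h), ?_, ?_⟩
    · intro hcon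
      have := congrFun hcon 0
      simp at this
    · ext i
      rw [hM]
      simp only [Matrix.mulVec, dotProduct, Matrix.of_apply, Pi.zero_apply]
      rw [Fin.sum_univ_succ]
      simp [dotProduct]
  rw [Matrix.det_succ_column_zero] at h0
  exact h0

/-- the linear relation between six vectors -/
theorem rel (a b c d e f h : R5) :
    (a ⬝ᵥ h) * D5 b c d e f - (b ⬝ᵥ h) * D5 a c d e f + (c ⬝ᵥ h) * D5 a b d e f
      - (d ⬝ᵥ h) * D5 a b c e f + (e ⬝ᵥ h) * D5 a b c d f - (f ⬝ᵥ h) * D5 a b c d e = 0 := by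
  have h1 := six ![a, b, c, d, e, f] h
  rw [Fin.sum_univ_six] at h1
  have e0 : (fun j : Fin 5 => (![a, b, c, d, e, f] : Fin 6 → R5) ((0 : Fin 6).succAbove j)) =
      ![b, c, d, e, f] := by
    funext j
    fin_cases j <;> rfl
  have e1 : (fun j : Fin 5 => (![a, b, c, d, e, f] : Fin 6 → R5) ((1 : Fin 6).succAbove j)) =
      ![a, c, d, e, f] := by
    funext j
    fin_cases j <;> rfl
  have e2 : (fun j : Fin 5 => (![a, b, c, d, e, f] : Fin 6 → R5) ((2 : Fin 6).succAbove j)) =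
      ![a, b, d, e, f] := by
    funext j
    fin_cases j <;> rfl
  have e3 : (fun j : Fin 5 => (![a, b, c, d, e, f] : Fin 6 → R5) ((3 : Fin 6).succAbove j)) =
      ![a, b, c, e, f] := by
    funext j
    fin_cases j <;> rfl
  have e4 : (fun j : Fin 5 => (![a, b, c, d, e, f] : Fin 6 → R5) ((4 : Fin 6).succAbove j)) =
      ![a, b, c, d, f] := by
    funext j
    fin_cases j <;> rfl
  have e5 : (fun j : Fin 5 => (![a, b, c, d, e, f] : Fin 6 → R5) ((5 : Fin 6).succAbove j)) =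
      ![a, b, c, d, e] := by
    funext j
    fin_cases j <;> rfl
  rw [e0, e1, e2, e3, e4, e5] at h1
  simp only [D5]
  have g0 : (![a, b, c, d, e, f] : Fin 6 → R5) 0 = a := rfl
  have g1 : (![a, b, c, d, e, f] : Fin 6 → R5) 1 = b := rfl
  have g2 : (![a, b, c, d, e, f] : Fin 6 → R5) 2 = c := rfl
  have g3 : (![a, b, c, d, e, f] : Fin 6 → R5) 3 = d := rfl
  have g4 : (![a, b, c, d, e, f] : Fin 6 → R5) 4 = e := rfl
  have g5 : (![a, b, c, d, e, f] : Fin 6 → R5) 5 = f := rfl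
  rw [g0, g1, g2, g3, g4, g5] at h1
  norm_num at h1
  linarith

/-- `x y` is an edge of the cone over `S`: some functional vanishes at `x, y` and is positive at
the other points of `S` -/
def Edge {V : Type*} (v : V → R5) (S : Set V) (x y : V) : Prop :=
  ∃ h : R5, v x ⬝ᵥ h = 0 ∧ v y ⬝ᵥ h = 0 ∧ ∀ s ∈ S, s ≠ x → s ≠ y → 0 < v s ⬝ᵥ h

/-- `x y z` is a triangular face of the cone over `S` -/
def Tri {V : Type*} (v : V → R5) (S : Set V) (x y z : V) : Prop :=
  ∃ h : R5, v x ⬝ᵥ h = 0 ∧ v y ⬝ᵥ h = 0 ∧ v z ⬝ᵥ h = 0 ∧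
    ∀ s ∈ S, s ≠ x → s ≠ y → s ≠ z → 0 < v s ⬝ᵥ h

/-- `a b c d` form a positive circuit modulo `x y` -/
def Pos4 (x y a b c d : R5) : Prop :=
  (0 < D5 x y b c d ∧ D5 x y a c d < 0 ∧ 0 < D5 x y a b d ∧ D5 x y a b c < 0) ∨
    (D5 x y b c d < 0 ∧ 0 < D5 x y a c d ∧ D5 x y a b d < 0 ∧ 0 < D5 x y a b c)

/-- `a b c` form a positive circuit modulo `x y z` -/
def Pos3 (x y z a b c : R5) : Prop :=
  (0 < D5 x y z b c ∧ D5 x y z a c < 0 ∧ 0 < D5 x y z a b) ∨
    (D5 x y z b c < 0 ∧ 0 < D5 x y z a c ∧ D5 x y z a b < 0)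

theorem not_pos4 {x y a b c d h : R5} (hx : x ⬝ᵥ h = 0) (hy : y ⬝ᵥ h = 0) (ha : 0 < a ⬝ᵥ h)
    (hb : 0 < b ⬝ᵥ h) (hc : 0 < c ⬝ᵥ h) (hd : 0 < d ⬝ᵥ h) : ¬ Pos4 x y a b c d := by
  have h1 := rel x y a b c d h
  rw [hx, hy] at h1
  rintro (⟨h2, h3, h4, h5⟩ | ⟨h2, h3, h4, h5⟩)
  · have := mul_pos ha h2
    have := mul_pos_of_neg_of_neg (neg_lt_zero.2 hb) h3
    have := mul_pos hc h4
    have := mul_pos_of_neg_of_neg (neg_lt_zero.2 hd) h5
    linarith
  · have := mul_pos ha (neg_pos.2 h2)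
    have := mul_pos hb h3
    have := mul_pos hc (neg_pos.2 h4)
    have := mul_pos hd h5
    linarith

theorem not_pos3 {x y z a b c h : R5} (hx : x ⬝ᵥ h = 0) (hy : y ⬝ᵥ h = 0) (hz : z ⬝ᵥ h = 0)
    (ha : 0 < a ⬝ᵥ h) (hb : 0 < b ⬝ᵥ h) (hc : 0 < c ⬝ᵥ h) : ¬ Pos3 x y z a b c := by
  have h1 := rel x y z a b c h
  rw [hx, hy, hz] at h1
  rintro (⟨h2, h3, h4⟩ | ⟨h2, h3, h4⟩)
  · have := mul_pos ha h2
    have := mul_pos_of_neg_of_neg (neg_lt_zero.2 hb) h3
    have := mul_pos hc h4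
    linarith
  · have := mul_pos ha (neg_pos.2 h2)
    have := mul_pos hb h3
    have := mul_pos hc (neg_pos.2 h4)
    linarith

/-- an edge has no positive circuits -/
theorem Edge.not_pos4 {V : Type*} {v : V → R5} {S : Set V} {x y : V} (h : Edge v S x y)
    {a b c d : V} (ha : a ∈ S) (hb : b ∈ S) (hc : c ∈ S) (hd : d ∈ S)
    (ax : a ≠ x) (ay : a ≠ y) (bx : b ≠ x) (b_y : b ≠ y) (cx : c ≠ x) (cy : c ≠ y)
    (dx : d ≠ x) (dy : d ≠ y) : ¬ Pos4 (v x) (v y) (v a) (v b) (v c) (v d) := by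
  obtain ⟨f, h1, h2, h3⟩ := h
  exact Circ.not_pos4 h1 h2 (h3 a ha ax ay) (h3 b hb bx b_y) (h3 c hc cx cy) (h3 d hd dx dy)

/-- a triangular face has no positive circuits -/
theorem Tri.not_pos3 {V : Type*} {v : V → R5} {S : Set V} {x y z : V} (h : Tri v S x y z)
    {a b c : V} (ha : a ∈ S) (hb : b ∈ S) (hc : c ∈ S)
    (ax : a ≠ x) (ay : a ≠ y) (az : a ≠ z) (bx : b ≠ x) (b_y : b ≠ y) (bz : b ≠ z)
    (cx : c ≠ x) (cy : c ≠ y) (cz : c ≠ z) : ¬ Pos3 (v x) (v y) (v z) (v a) (v b) (v c) := by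
  obtain ⟨f, h1, h2, h3, h4⟩ := h
  exact Circ.not_pos3 h1 h2 h3 (h4 a ha ax ay az) (h4 b hb bx b_y bz) (h4 c hc cx cy cz)

/-- the sides of a triangular face of a cone with general functionals are edges (weak form: the
circuits which avoid the third vertex) -/
theorem Tri.mono {V : Type*} {v : V → R5} {S S' : Set V} (hS : S' ⊆ S) {x y z : V}
    (h : Tri v S x y z) : Tri v S' x y z := by
  obtain ⟨f, h1, h2, h3, h4⟩ := h
  exact ⟨f, h1, h2, h3, fun s hs => h4 s (hS hs)⟩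

theorem Edge.mono {V : Type*} {v : V → R5} {S S' : Set V} (hS : S' ⊆ S) {x y : V}
    (h : Edge v S x y) : Edge v S' x y := by
  obtain ⟨f, h1, h2, h3⟩ := h
  exact ⟨f, h1, h2, fun s hs => h3 s (hS hs)⟩

/-- a side of a triangular face is an edge, if some functional vanishes at `x, y` and is positive at
`z` -/
theorem Tri.edge {V : Type*} [Finite V] {v : V → R5} {S : Set V} {x y z : V} (h : Tri v S x y z)
    {g : R5} (gx : v x ⬝ᵥ g = 0) (gy : v y ⬝ᵥ g = 0) (gz : 0 < v z ⬝ᵥ g) : Edge v S x y := by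
  classical
  obtain ⟨f, h1, h2, h3, h4⟩ := h
  cases nonempty_fintype V
  -- f + t g with t small
  set I : Finset V := univ.filter fun s => 0 < v s ⬝ᵥ f with hI
  have hex : ∃ t : ℝ, 0 < t ∧ ∀ s ∈ I, 0 < v s ⬝ᵥ f + t * (v s ⬝ᵥ g) := by
    have : ∀ J : Finset V, J ⊆ I → ∃ t : ℝ, 0 < t ∧
        ∀ r, 0 < r → r ≤ t → ∀ s ∈ J, 0 < v s ⬝ᵥ f + r * (v s ⬝ᵥ g) := by
      intro J
      induction J using Finset.induction_on with
      | empty => intro _; exact ⟨1, one_pos, fun _ _ _ s hs => absurd hs (notMem_empty _)⟩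
      | insert a J ha ih =>
        intro hJ
        obtain ⟨t, ht, h⟩ := ih ((subset_insert _ _).trans hJ)
        have ha1 : 0 < v a ⬝ᵥ f := (mem_filter.1 (hJ (mem_insert_self _ _))).2
        refine ⟨min t ((v a ⬝ᵥ f) / (2 * (|v a ⬝ᵥ g| + 1))), lt_min ht (by positivity), ?_⟩
        intro r hr hrt s hs
        rw [mem_insert] at hs
        rcases hs with rfl | hs
        · have h5 : r ≤ (v s ⬝ᵥ f) / (2 * (|v s ⬝ᵥ g| + 1)) := hrt.trans (min_le_right _ _)
          rw [le_div_iff₀ (by positivity)] at h5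
          have h6 : -|v s ⬝ᵥ g| ≤ v s ⬝ᵥ g := neg_abs_le _
          have h7 : 0 ≤ |v s ⬝ᵥ g| := abs_nonneg _
          nlinarith
        · exact h r hr (hrt.trans (min_le_left _ _)) s hs
    obtain ⟨t, ht, h⟩ := this I (Finset.Subset.refl _)
    exact ⟨t, ht, fun s hs => h t ht le_rfl s hs⟩
  obtain ⟨t, ht, h5⟩ := hex
  refine ⟨f + t • g, ?_, ?_, ?_⟩
  · rw [dotProduct_add, dotProduct_smul, h1, gx, smul_zero, add_zero]
  · rw [dotProduct_add, dotProduct_smul, h2, gy, smul_zero, add_zero]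
  · intro s hs sx sy
    rw [dotProduct_add, dotProduct_smul, smul_eq_mul]
    by_cases sz : s = z
    · rw [sz, h3, zero_add]
      exact mul_pos ht gz
    · exact h5 s (mem_filter.2 ⟨mem_univ _, h4 s hs sx sy sz⟩)

end Circ

end Pool.Agent.F32
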