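import Pool.Agent.QMark.Big
import Pool.Agent.QMark.Red

/-!
# F32, final step: arbitrary (not simple, not simplicial) polytopes (helper38)

`Po v = {x | ⟪v i, x⟫ ≤ 1 for all i}` is a 4-polytope with exactly the facets `i : ι` (`Pol v`), not
necessarily simple. `vs v`: the sets `A` of facets through the vertices. GOALS: `SNonSimple` (few
vertices on more than four facets; dually few facets which are not simplices) and `STwo` (few 2-faces
which are not 4-gons), from `SFew` (few 2-faces which are not 4-gons in simple polytopes).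

The right hand sides are moved: `b = 1 - s w'`, `w' = w + δ β`, `β` generic, first `δ → 0`, then `s → 0`
(normals fixed!). Near the vertex `A` the vertices of the simple polytope `Poly v b` are the `Cell v w' A`.

All `S..` are closed statements (hypothesis style): a module proves `theorem t_Xxx (hYyy : SYyy) ... : SXxx`.
-/

set_option autoImplicit false

namespace Pool.Agent.F32.Dg

open Finset QMark
open scoped InnerProductSpace

section defs

variable {ι : Type} [Fintype ι] [DecidableEq ι]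

/-- the polytope `⟪v i, x⟫ ≤ 1` -/
abbrev Po (v : ι → E4) : Set E4 := Poly v (fun _ => 1)

/-- the facets through `x` -/
noncomputable abbrev ac (v : ι → E4) (x : E4) : Finset ι := act v (fun _ => 1) x

/-- `Po v` is a 4-polytope with exactly the facets `i : ι` and `0` in its interior -/
structure Pol (v : ι → E4) : Prop where
  bdd : Bornology.IsBounded (Po v)
  fac : ∀ i, ∃ x ∈ Po v, ac v x = {i}

open Classical in
/-- the vertices, given by the set of the facets through them -/
noncomputable def vs (v : ι → E4) : Finset (Finset ι) :=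
  univ.filter fun A => ∃ p ∈ Po v, ac v p = A ∧ ∀ y : E4, (∀ i ∈ A, ⟪v i, y⟫_ℝ = 0) → y = 0

open Classical in
/-- the 2-faces -/
noncomputable def f2 (v : ι → E4) : Finset (Finset ι) :=
  univ.filter fun e => e.card = 2 ∧ ∃ z ∈ Po v, ac v z = e

open Classical in
/-- the number of vertices on all facets in `e` -/
noncomputable def dg (v : ι → E4) (e : Finset ι) : ℕ := ((vs v).filter fun A => e ⊆ A).card

/-- `t` is a vertex of the polyhedron `⟪v i, y⟫ ≤ - w i`, `i ∈ A`, on no other of these facets -/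
def Cell (v : ι → E4) (w : ι → ℝ) (A t : Finset ι) : Prop :=
  t ⊆ A ∧ t.card = 4 ∧ LinearIndependent ℝ (fun i : t => v i) ∧
    ∃ y : E4, (∀ i ∈ t, ⟪v i, y⟫_ℝ = - w i) ∧ ∀ j ∈ A, j ∉ t → ⟪v j, y⟫_ℝ < - w j

/-- the same with weak inequalities -/
def WCell (v : ι → E4) (w : ι → ℝ) (A t : Finset ι) : Prop :=
  t ⊆ A ∧ t.card = 4 ∧ LinearIndependent ℝ (fun i : t => v i) ∧
    ∃ y : E4, (∀ i ∈ t, ⟪v i, y⟫_ℝ = - w i) ∧ ∀ j ∈ A, ⟪v j, y⟫_ℝ ≤ - w j

/-- no five of the equations `⟪v i, y⟫ = w i` have a solution -/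
def Gnr (v : ι → E4) (w : ι → ℝ) : Prop := ∀ S : Finset ι, S.card = 5 → w ∉ W v S

/-- `Poly v b` is a small general perturbation of `Po v` with heights `w`; `w'` are the heights which
were really used -/
structure Prt (v : ι → E4) (w : ι → ℝ) (b w' : ι → ℝ) : Prop where
  sp : SP v b
  gnr : Gnr v w'
  tets : ∀ t, t ∈ tets v b ↔ ∃ A ∈ vs v, Cell v w' A t
  cell : ∀ A ∈ vs v, ∀ t, Cell v w A t → Cell v w' A t
  wcell : ∀ A ∈ vs v, ∀ t, Cell v w' A t → WCell v w A t

/-- the two sides `G`, `G'` of the 2-face `e` at the vertex `A`, with directions `r`, `r'` -/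
structure Sides (v : ι → E4) (A e G G' : Finset ι) (r r' : E4) : Prop where
  eG : e ⊆ G
  GA : G ⊆ A
  eG' : e ⊆ G'
  GA' : G' ⊆ A
  int : G ∩ G' = e
  r0 : ∀ g ∈ G, ⟪v g, r⟫_ℝ = 0
  r1 : ∀ u ∈ A, u ∉ G → ⟪v u, r⟫_ℝ < 0
  r0' : ∀ g ∈ G', ⟪v g, r'⟫_ℝ = 0
  r1' : ∀ u ∈ A, u ∉ G' → ⟪v u, r'⟫_ℝ < 0
  pt : ∃ z ∈ Po v, ac v z = G
  pt' : ∃ z ∈ Po v, ac v z = G'
  card : 3 ≤ G.card
  card' : 3 ≤ G'.card
  span : ∀ y : E4, (∀ i ∈ e, ⟪v i, y⟫_ℝ = 0) → ∃ a c : ℝ, y = a • r + c • r'

/-- height `M` at `x`, height `1` at `y` -/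
def hts (x y : ι) (M : ℝ) : ι → ℝ := fun i => if i = x then M else if i = y then 1 else 0

end defs

/-! ### (I) perturbations -/

/-- **SPrt.** (uses nothing; tools: `QMark.exists_dir`, `ev_not`, `ev_lt`, `exists_inner`, `indep`, and the
proof of `QMark.reduce`, all in `QMark/Red.lean`.)
PROOF. `exists_dir v` gives `β` with `β ∉ W v S` for all `|S| = 5`. Step 1 (`δ → 0+`), `w' = w + δ • β`: for
every `S` eventually `w' ∉ W v S` (`ev_not`, as in `reduce`). For an independent `t` with four elements let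
`y0 t`, `y1 t` be the solutions of `⟪v i, y⟫ = - w i`, resp. `= - β i` (`i ∈ t`); the solution for `w'` is
`y0 t + δ • y1 t` (unique, because `v` on `t` spans). For the finitely many `(t, j)`: if `⟪v j, y0⟫ < - w j`
then eventually `⟪v j, y0 + δ y1⟫ < - w' j` (gives `cell`); if `⟪v j, y0⟫ > - w j` then eventually
`⟪v j, y0 + δ y1⟫ > - w' j` (gives `wcell`). Fix `δ`. Step 2 (`s → 0+`), `b = 1 - s • w'`: `s` with
`b ∈ W v S` is unique (`|S| = 5`; two of them would give `w' ∈ W v S`), so eventually no point is on five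
hyperplanes; eventually `b ≤ 2`, so `Poly v b ⊆ 2 • Po v` is bounded: `SP v b`. Let `q t` be the solution
of `⟪v i, q⟫ = 1` (`i ∈ t`), `y t` the one of `⟪v i, y⟫ = - w' i`; the solution for `b` is `q t + s • y t`.
For every `t` eventually: if `⟪v j, q t⟫ > 1` for some `j` then `⟪v j, q t + s • y t⟫ > b j`; if
`⟪v j, q t⟫ < 1` then `⟪v j, q t + s • y t⟫ < b j`. So if `t ∈ tets v b` (independent by `indep`) then
`q t ∈ Po v`, `A = ac v (q t) ⊇ t` is in `vs v`, and for `j ∈ A \ t` the inequality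
`1 + s ⟪v j, y t⟫ < 1 - s w' j` is the one of `Cell`. The converse is the same. -/
def SPrt : Prop := ∀ (ι : Type) [Fintype ι] [DecidableEq ι] (v : ι → E4) (w : ι → ℝ), Pol v →
  ∃ b w' : ι → ℝ, Prt v w b w'

/-- **SUniq.** A vertex is determined by four independent facets (uses nothing). -/
def SUniq : Prop := ∀ (ι : Type) [Fintype ι] [DecidableEq ι] (v : ι → E4) (A A' t : Finset ι),
  A ∈ vs v → A' ∈ vs v → t ⊆ A → t ⊆ A' → t.card = 4 → LinearIndependent ℝ (fun i : t => v i) → A = A'

/-- **SFace.** Every facet and every 2-face through a vertex survives at it (uses nothing).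
PROOF. `σ = ∅`: take any `i ∈ A` (`A ≠ ∅`) instead. The vectors `v i`, `i ∈ σ` are independent (for two
facets `i ≠ j` the points of `Pol.fac` show that `v i` and `v j` are not proportional and not `0`). Let `z ∈ Po v`,
`ac v z = σ`, `p ∈ Po v`, `ac v p = A`, `d = z - p`: `⟪v i, d⟫ = 0` for `i ∈ σ`, `< 0` for `i ∈ A \ σ`. `exists_inner`
gives `y0` with `⟪v i, y0⟫ = - w i`, `i ∈ σ`; `y = y0 + c • d` with `c` large satisfies all inequalities `⟪v i, y⟫ ≤ - w i`,
`i ∈ A`. Among the `y` with these inequalities and equality on `σ` take one whose set `a y` of equalities in `A` has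
the largest number of elements. If `v` on `a y` does not span `E4`, `exists_orth` gives `d ≠ 0` orthogonal to
them; as `A ∈ vs v`, some `⟪v j, d⟫ ≠ 0`, `j ∈ A`, replace `d` by `-d` so that it is positive, and move `y + c • d`
until a new equality occurs: contradiction. So `v` on `a y` spans, `|a y| ≥ 4`, and `|a y| ≤ 4` by `Gnr`
(`- w` would be in `W v S`, a submodule); `t = a y` is independent (four spanning vectors). -/
def SFace : Prop := ∀ (ι : Type) [Fintype ι] [DecidableEq ι] (v : ι → E4) (w : ι → ℝ) (A σ : Finset ι),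
  Pol v → Gnr v w → A ∈ vs v → σ ⊆ A → σ.card ≤ 2 → (σ = ∅ ∨ ∃ z ∈ Po v, ac v z = σ) →
  ∃ t, Cell v w A t ∧ σ ⊆ t

/-- **STwoFace.** Facets with three common vertices meet in a 2-face (uses nothing).
PROOF. `e = {i, j}`, three vertices `p1, p2, p3`, `q` = their centre, `ac v q = ac v p1 ∩ ac v p2 ∩ ac v p3 ⊇ e`. Suppose a
third `k` is in `ac v q`. `v i, v j, v k` take the value 1 on `p1, p2, p3`. If `p1, p2, p3` are linearly independent, then
`v i, v j, v k` are on a line (their differences are orthogonal to a 3-dimensional space), so one of them is a convex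
combination `v k = a v i + c v j`, `a, c > 0`, `a + c = 1` of the two others (they are different by `Pol.fac`); at the point
of `Pol.fac k`: `1 = a ⟪v i, x⟫ + c ⟪v j, x⟫ < 1`, contradiction. If they are dependent, then a relation
`a1 p1 + a2 p2 + a3 p3 = 0` has `a1 + a2 + a3 = 0` (pair with `v i`), so the three points are on a line and one of
them is strictly between the others: it is not a vertex (all facets through it contain the two others; their difference
is orthogonal to them). -/
def STwoFace : Prop := ∀ (ι : Type) [Fintype ι] [DecidableEq ι] (v : ι → E4) (e : Finset ι),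
  Pol v → e.card = 2 → 3 ≤ dg v e → e ∈ f2 v

/-- **SSides.** The two sides of a 2-face at a vertex (uses nothing).
PROOF. `p ∈ Po v`, `ac v p = A`, `z ∈ Po v`, `ac v z = e = {i, j}`, `d = z - p`, `Π = {y | ⟪v i, y⟫ = ⟪v j, y⟫ = 0}` has dimension 2
(`v i`, `v j` are independent). Let `d' ∈ Π` be independent of `d`. For `u ∈ A \ e`: `⟪v u, d⟫ < 0`; let `λ₊` be the largest
`λ` with `⟪v u, λ d'⟫ ≤ - ⟪v u, d⟫` for all `u ∈ A \ e`, and `λ₋ < 0` the smallest. (Both exist: if all `⟪v u, d'⟫ ≤ 0`,
`u ∈ A`, put `r = d' + ...`: it is easier to say: the functionals `v u`, `u ∈ A`, restricted to `Π` have only `0` as common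
zero, and the cone `C = {y ∈ Π | ⟪v u, y⟫ ≤ 0 for u ∈ A}` contains no line and has `d` in its interior, so it is a plane cone
between two rays `r`, `r'`: choose `g ∈ A \ e` with the largest quotient `⟪v g, d'⟫ / (- ⟪v g, d⟫)` and `g'` with the smallest one;
the quotients are not all equal because the `v u`, `u ∈ A`, have no common zero `≠ 0`; `r` = the point of `Π` with
`⟪v g, r⟫ = 0` on the side where `⟪v g', r⟫ < 0`, that is `r = d + a d'`, `a` = `1 / largest quotient` if it is positive, and so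
on.) `G = {u ∈ A | ⟪v u, r⟫ = 0}`, `G' = {u ∈ A | ⟪v u, r'⟫ = 0}`. `pt`: `p + ε r` with `ε > 0` small. `int`: `r, r'` is a basis of `Π`. -/
def SSides : Prop := ∀ (ι : Type) [Fintype ι] [DecidableEq ι] (v : ι → E4) (A e : Finset ι),
  Pol v → A ∈ vs v → e ∈ f2 v → e ⊆ A → ∃ (G G' : Finset ι) (r r' : E4), Sides v A e G G' r r'

/-- **SEnd.** At the vertex `A` some cell contains `e` and a further facet of the side `G` (uses nothing).
PROOF. `e = {i, j}`, `y0` with `⟪v i, y0⟫ = - w i`, `⟪v j, y0⟫ = - w j`. `y1 = y0 + c • r'`, `c` the smallest number such that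
`⟪v g, y1⟫ ≤ - w g` for all `g ∈ G \ e` (`⟪v g, r'⟫ < 0` as `G ∩ G' = e`), equality for some `g`. `y2 = y1 + c' • r`, `c'` the
smallest number such that `⟪v u, y2⟫ ≤ - w u` for all `u ∈ A \ G` (not empty: `G' \ e`), equality for some `u`. `t = {i, j, g, u}` is
independent (apply `r`, `r'`), all inequalities of `A` hold for `y2`, and no fifth one is an equality by `Gnr`. -/
def SEnd : Prop := ∀ (ι : Type) [Fintype ι] [DecidableEq ι] (v : ι → E4) (w : ι → ℝ)
  (A e G G' : Finset ι) (r r' : E4), Pol v → Gnr v w → e ∈ f2 v → Sides v A e G G' r r' →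
  ∃ t, Cell v w A t ∧ e ⊆ t ∧ ∃ g ∈ t, g ∈ G ∧ g ∉ e

/-! ### (II) input from simple polytopes -/

/-- **SFew.** The theorem for simple polytopes. -/
def SFew : Prop := ∀ e : ℝ, 0 < e → ∃ n0 : ℕ, ∀ (ι : Type) [Fintype ι] [DecidableEq ι]
  (v : ι → E4) (b : ι → ℝ), SP v b → n0 ≤ Fintype.card ι →
  ((nonq v b).card : ℝ) ≤ e * ((Fintype.card ι : ℕ) : ℝ) ^ 2

/-- **SBad.** Most vertices of a simple polytope are on exactly two large 2-faces, and these are opposite (uses `SFew`).
PROOF. `partIII`, `big_card`: `bad ≤ 8 n + 5 (nonq) (D - 1) + 90 * 3 n (n + 1) / D`; `D0 ≥ 10 ^ 4 / e`. -/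
def SBad : Prop := ∀ e : ℝ, 0 < e → ∃ D0 : ℕ, ∀ D : ℕ, D0 ≤ D → ∃ n0 : ℕ,
  ∀ (ι : Type) [Fintype ι] [DecidableEq ι] (v : ι → E4) (b : ι → ℝ), SP v b → n0 ≤ Fintype.card ι →
  ((bad v b (big v b D)).card : ℝ) ≤ e * ((Fintype.card ι : ℕ) : ℝ) ^ 2

/-! ### (III) vertices on more than four facets -/

/-- **SStatic.** (uses nothing or any of the statements of (I))
Write `x-y` for `{x, y} ∈ H`. PROOF. Let `A = ac v p`. An EDGE at `A` is a set `G = {u ∈ A | ⟪v u, r⟫ = 0} ≠ A` for some `r ≠ 0` with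
`⟪v u, r⟫ ≤ 0` for all `u ∈ A` and with `v` on `G` of rank 3.
(CL) CELL LEMMA. `G`, `r` an edge at `A`, `x ∈ A \ G`, `τ ⊆ G` three independent elements, `w` on `G` and `q` with
`⟪v i, q⟫ = - w i` (`i ∈ τ`), `⟪v g, q⟫ < - w g` (`g ∈ G \ τ`): then `τ ∪ {x}` is a cell for all heights which are `w` on `A \ {x}` and
`M` at `x`, `M` large: `y = q + c • r` with `⟪v x, y⟫ = - M`, `c → ∞`.
Case (β): all edges at `A` have three elements. If `{a, b, c}` is an edge, `x ∈ A \ {a, b, c}` (any `y`), then `{a, b, c, x}` is a cell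
for `hts x y M`, `M` large (`q` exists by independence), so it is good: exactly one pair in `{a, b, c}` is in `H`, say `a-b`, and then
`c-x`, for every such `x` (*). As `|A| ≥ 5` there are `x1 ≠ x2`. `c-x1` is a 2-face; it has two sides `{c, x1, w}`, `{c, x1, w'}` (`SSides`),
`w ≠ w'`. The only pair of `H` in `{c, x1, w}` is `c-x1`; so `{c, w}` is not in `H`, so `w ∈ {a, b}` (otherwise `c-w` by (*)); also
`w' ∈ {a, b}`: `{w, w'} = {a, b}`. By (*) for the edge `{c, x1, a}`: `a-x2`. In the same way `{c, x2, a}` is an edge whose only pair of `H` is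
`c-x2`; but also `a-x2`: contradiction.
Case (α): some edge `G` has at least four elements. Let `x ∈ A \ G`. Every `u ∈ G` has two different neighbours `u', u'' ∈ G`:
`{u, u'}`, `{u, u''}` are 2-faces with side `G` (the facet `u` at `A` is a cone of dimension 3, `r` one of its extreme rays; or: choose
`d` with `⟪v u, d⟫ = 0`, `⟪v g, d⟫ < 0` for the other `g ∈ G` (from `Pol.fac u`), the quotient space of `{y | ⟪v u, y⟫ = 0}` by `r` is a plane,
and argue as in `SSides`), and `{u', u''}` is not a 2-face: take `g ∈ G \ {u, u', u''}`, `v g = α v u' + β v u + γ v u''`; the directions `d'`,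
`d''` of the two 2-faces give `γ > 0` and `α > 0`; `β ≥ 0` contradicts `Pol.fac g`; so `β < 0`, and a point `z` with `ac v z = {u', u''}` would have
`⟪v g, z - p⟫ = β ⟪v u, z - p⟫ > 0`. CL with `w = 1` at `u'` and `0` elsewhere, `τ = {u', u, u''}`, `q` = a multiple of the direction of the
2-face `{u, u''}`: `t = {x, u', u, u''}` is a cell for `hts x u' M`, so it is good. `{u', u''} ∉ H`, so its complement `{x, u} ∉ H`. This holds for
all `u ∈ G`, so also for `u'`, `u''`: no pair of `t` with `x` is in `H`, but one of two complementary pairs contains `x`: contradiction. -/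
def SStatic : Prop := ∀ (ι : Type) [Fintype ι] [DecidableEq ι] (v : ι → E4) (A : Finset ι)
  (H : Finset (Finset ι)), Pol v → A ∈ vs v → 5 ≤ A.card → H ⊆ f2 v →
  (∀ x ∈ A, ∀ y ∈ A, x ≠ y → ∀ t, (∃ M0 : ℝ, ∀ M, M0 ≤ M → Cell v (hts x y M) A t) → Good H t) → False

/-- **SNonSimple.** Few vertices are on more than four facets (uses `SPrt`, `SUniq`, `SFace`, `STwoFace`, `SBad`, `SStatic`).
PROOF. (1) For every perturbation `Prt v w b w'`: `|A| ≤ 4 #{cells of A}` (`SFace` with `σ = {i}`), cells of different `A` are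
different (`SUniq`), so `∑ |A| ≤ 4 #tets ≤ 4 (n choose 2) + 4 n` (`f0_le`), and at most `4 n (n + 1) / K` of the `A ∈ vs v` have `|A| > K`.
(2) Fix `D ≥ 5` and `D1 ≥ D`. For `lvl : ι → Fin 3` let `w_lvl i = M, 1, 0` for `lvl i = 1, 2, 0`, `M` so large that all `M0` of `SStatic`
(finitely many `A, x, y, t`) are `≤ M`; choose `b`, `w'` by `SPrt`. Call `A` FINE for `lvl` if for every cell `t` of `A` (for `w'`): `t` is good
for `big D` and for `big D1`, and no `e ⊆ t`, `|e| = 2` has `dg v e < D` and `size v b e ≥ D1`. If `A` is fine then every cell `t` of it is good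
for `H = {e ∈ f2 v | D ≤ dg v e}`: `H` and `big D` have the same members below `t`. (⊆) `size v b e ≥ dg v e` for `e ∈ f2 v` by `SFace`,
`SUniq`. (⊇) `big D1 ⊆ big D` and both have exactly two members below `t`, so `e ∈ big D`, `e ⊆ t`, is in `big D1`, so `dg v e ≥ D`,
`e ∈ f2 v` by `STwoFace`. (3) The number of the `A` which are not fine is at most `#bad D + #bad D1 + D #big D1`, at most
`3 η n²` for suitable `D`, `D1`, `n` large (`SBad`, `big_card`). (4) If `5 ≤ |A| ≤ K`, `SStatic` gives `x ≠ y` in `A` such that `A` is not fine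
for all `lvl` with `lvl⁻¹ 1 ∩ A = {x}`, `lvl⁻¹ 2 ∩ A = {y}` (`Cell` depends only on the heights in `A`): at least `3 ^ n / 3 ^ K` of the `3 ^ n`
maps. So there are at most `3 ^ K 3 η n²` such `A`. -/
def SNonSimple : Prop := ∀ e : ℝ, 0 < e → ∃ n0 : ℕ, ∀ (ι : Type) [Fintype ι] [DecidableEq ι]
  (v : ι → E4), Pol v → n0 ≤ Fintype.card ι →
  (((vs v).filter fun A => 5 ≤ A.card).card : ℝ) ≤ e * ((Fintype.card ι : ℕ) : ℝ) ^ 2

end Pool.Agent.F32.Dg
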