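import Pool.Agent.F32.DgStmts

/-!
# F32, final step: 2-faces of arbitrary polytopes which are not 4-gons, statements (helper38)

Heights `-1` on a random set `R` of facets (these facets are relaxed), `0` elsewhere. A 2-face `e` with a vertex
on at least 13 facets is CAUGHT with probability at least `2⁻⁹`: it gets at least five vertices, or it is in a
bad vertex of the simple polytope, or it is linked to a pair which is not a 2-face of `Po v` but a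
2-face with `≠ 4` vertices of the simple polytope; every such pair is linked to at most 12 2-faces.
-/

set_option autoImplicit false

namespace Pool.Agent.F32.Dg

open Finset QMark
open scoped InnerProductSpace

section defs

variable {ι : Type} [Fintype ι] [DecidableEq ι]

/-- heights: the facets in `R` are relaxed -/
def hR (R : Finset ι) : ι → ℝ := fun i => if i ∈ R then -1 else 0

/-- `G` is the set of the facets through an edge -/
def Eg (v : ι → E4) (G : Finset ι) : Prop := 3 ≤ G.card ∧ G ∉ vs v ∧ ∃ z ∈ Po v, ac v z = G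

/-- the facets at the vertex `A` which are not on the two sides of `e` all have the same direction
modulo `e` -/
def Flat (v : ι → E4) (A e : Finset ι) : Prop :=
  A ∈ vs v ∧ 13 ≤ A.card ∧ ∃ (G G' : Finset ι) (r r' : E4), Sides v A e G G' r r' ∧
    G.card ≤ 4 ∧ G'.card ≤ 4 ∧ ∀ u ∈ A, u ∉ G → u ∉ G' → ∀ u' ∈ A, u' ∉ G → u' ∉ G' →
      ⟪v u, r⟫_ℝ * ⟪v u', r'⟫_ℝ = ⟪v u', r⟫_ℝ * ⟪v u, r'⟫_ℝ

/-- the pair `π` is linked to the 2-face `e` -/
def Lk (v : ι → E4) (π e : Finset ι) : Prop :=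
  e ∈ f2 v ∧ (e ∩ π).Nonempty ∧
    ((∃ G, Eg v G ∧ e ⊆ G ∧ π ⊆ G) ∨ ∃ A, Flat v A e ∧ π ⊆ A)

/-- `e` is caught by the perturbation `b` -/
def Caught (v : ι → E4) (b : ι → ℝ) (D : ℕ) (e : Finset ι) : Prop :=
  e ∈ nonq v b ∨ (∃ t ∈ bad v b (big v b D), e ⊆ t) ∨ ∃ π ∈ nonq v b, π ∉ f2 v ∧ Lk v π e

end defs

/-- **SThreeV.** A 2-face has at least three vertices (uses `SSides`).
PROOF. A vertex: among the `x ∈ Po v` with `e ⊆ ac v x` take one with `|ac v x|` maximal (see `KAG.StmtFaceV`, file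
`KAG/FaceV.lean`, or `QMark.exists_tet`): `A1 = ac v p1 ∈ vs v`. `SSides` at `A1`: `r`, `r'`. Move from `p1` in the direction `r` as far as
possible in `Po v` (bounded): `p2 = p1 + T • r`, `T > 0`; the facets of `G` contain `p2` and a further one does, with
`⟪v u, r⟫ > 0`; the vectors orthogonal to all `v g`, `g ∈ G`, are the multiples of `r` (`Sides.span` and `⟪v g, r'⟫ < 0` for
`g ∈ G \ e`), so `ac v p2 ∈ vs v`. The same for `r'`. `p1, p2, p3` are different, so their sets are different (`SUniq`-like: a vertex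
is the only point on all its facets). -/
def SThreeV : Prop := ∀ (ι : Type) [Fintype ι] [DecidableEq ι] (v : ι → E4) (e : Finset ι),
  Pol v → e ∈ f2 v → 3 ≤ dg v e

/-- **SNbr.** (uses nothing) In a set `S ⊆ A` of rank at most 3 every `i` has at most two partners `j` with `{i, j}` a 2-face.
PROOF. Three partners `j1, j2, j3`, `z1, z2, z3 ∈ Po v` with `ac v (z l) = {i, j l}`, `p ∈ Po v` with `ac v p = A`, `d l = z l - p`: `⟪v i, d l⟫ = 0`,
`⟪v (j l), d l⟫ = 0`, `⟪v u, d l⟫ < 0` for the other `u ∈ A`. `v i, v j1, v j2` are independent, so `v j3 = α v i + β v j1 + γ v j2`. `d1`: `γ > 0`,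
`d2`: `β > 0`, `d3`: `0 = β ⟪v j1, d3⟫ + γ ⟪v j2, d3⟫ < 0`. -/
def SNbr : Prop := ∀ (ι : Type) [Fintype ι] [DecidableEq ι] (v : ι → E4) (A S : Finset ι) (i : ι),
  Pol v → A ∈ vs v → S ⊆ A → Module.finrank ℝ (Submodule.span ℝ (v '' (S : Set ι))) ≤ 3 → i ∈ S →
  (S.filter fun j => ({i, j} : Finset ι) ∈ f2 v).card ≤ 2

/-- **SMult.** A pair which is not a 2-face is linked to at most 12 2-faces (uses `STwoFace`, `SNbr`).
PROOF. (T) Three different facets `u1, u2, u3` through a point `p ∈ Po v` are independent: a relation has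
`a1 + a2 + a3 = 0` (pair with `p`), so one of the three vectors is a convex combination of the two others (or two are equal):
contradiction at the point of `Pol.fac`. (1) EDGES: `π ⊆ G1`, `π ⊆ G2`, `Eg v G1`, `Eg v G2`, `π ∉ f2 v` imply `G1 = G2`: let `z1, z2` be the
points, `z` their middle, `J = ac v z = G1 ∩ G2 ⊇ π`; `J ≠ π`, so `|J| ≥ 3`, rank at least 3 by (T), rank not 4 (else `z1 = z2`). So
`z2 - z1` spans the orthogonal complement of `v` on `J`; `G1 ∉ vs v` has rank 3 too, so `z2 - z1` is orthogonal to `v` on `G1`; so all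
`⟪v g, z2⟫ = 1`, `g ∈ G1`: `G1 ⊆ G2`, and conversely. So `e = {x, j}` with `x ∈ π`, `j ∈ G`, `G` fixed of rank 3: at most 2 for each `x` by `SNbr` (`G ⊆ A` for some
vertex `A`; for instance the end of the edge), at most 4. (2) FLAT: `π` is in at most two `A ∈ vs v` (`STwoFace`). Fix `A` and `x ∈ π`. Let `e = {x, j}`
with `Flat v A e`, `S = (A \ (G ∪ G')) ∪ e`: all `v u`, `u ∈ A \ (G ∪ G')` are multiples of one of them modulo `span (v x, v j)` (`Sides.span`), so the rank of `S`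
is 3; `|A \ S| ≤ 4`; no `v g`, `g ∈ A \ S` is in the span `L` of `v` on `S` (apply `r`, `r'`, and (T)). So `S = {u ∈ A | v u ∈ L}`. For two such `j`, `j'` the sets
`S`, `S'` have at least `13 - 8 = 5` common elements, three of them span `L` and `L'`: `L = L'`, `S = S'`. So all `j` are in the same `S`, at most two
by `SNbr`. Total: `2 * 2 * 2 = 8`. -/
def SMult : Prop := ∀ (ι : Type) [Fintype ι] [DecidableEq ι] (v : ι → E4) (π : Finset ι)
  (E : Finset (Finset ι)), Pol v → π.card = 2 → π ∉ f2 v → (∀ e ∈ E, Lk v π e) → E.card ≤ 12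

/-- **SCaught.** (uses nothing) PROOF. `e = {i, j}`. If `t` is good then exactly one of the three pairs in `{i, j, g}` is in `big v b D` (of two
complementary pairs of `t` exactly one is in a given triple). If it is `e`: `e ∈ nonq v b` as `D ≥ 5`. If it is `{x, g}`: it is in `nonq v b`,
and it is linked to `e`. -/
def SCaught : Prop := ∀ (ι : Type) [Fintype ι] [DecidableEq ι] (v : ι → E4) (b : ι → ℝ) (D : ℕ)
  (e t : Finset ι) (g : ι), SP v b → e ∈ f2 v → t ∈ tets v b → e ⊆ t → g ∈ t → g ∉ e → 5 ≤ D →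
  (∀ x ∈ e, ({x, g} : Finset ι) ∉ f2 v) →
  ((∃ G, Eg v G ∧ e ⊆ G ∧ g ∈ G) ∨ ∃ A, Flat v A e ∧ g ∈ A) → Caught v b D e

/-- **SCatchA.** A side with at least five facets (uses `SNbr`, `SEnd`, `SCaught`).
PROOF. `N = {g ∈ G \ e | {x, g} ∈ f2 v for some x ∈ e}` has at most two elements (`SNbr` with `S = G`, rank 3; one partner of each `x ∈ e` is the
other element of `e`). `w0 ∈ G \ (e ∪ N)`, `C = e ∪ N ∪ {w0}`, `R0 = N`. Let `R ∩ C = R0`. `SEnd` (for `w'`) gives a cell `t ⊇ e ∪ {g}`, `g ∈ G \ e`;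
by `wcell` there is `y` with `⟪v i, y⟫ = 0` on `e` (`y = a r + c r'` by `Sides.span`), `⟪v g, y⟫ = c ⟪v g, r'⟫ = 1` if `g ∈ R`, and
`⟪v w0, y⟫ = c ⟪v w0, r'⟫ ≤ 0`; as `⟪v g, r'⟫, ⟪v w0, r'⟫ < 0`: `c ≥ 0`, so `g ∉ R`, `g ∉ N`. `SCaught` with `Eg v G` (`G ∉ vs v` because of `r ≠ 0`). -/
def SCatchA : Prop := ∀ (ι : Type) [Fintype ι] [DecidableEq ι] (v : ι → E4) (A e G G' : Finset ι)
  (r r' : E4), Pol v → A ∈ vs v → e ∈ f2 v → Sides v A e G G' r r' → 5 ≤ G.card →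
  ∃ C R0 : Finset ι, R0 ⊆ C ∧ C.card ≤ 9 ∧ ∀ R : Finset ι, R ∩ C = R0 → ∀ b w' : ι → ℝ,
    Prt v (hR R) b w' → ∀ D : ℕ, 5 ≤ D → Caught v b D e

/-- **SCatchB.** The flat case (uses `SNbr`, `SEnd`, `SCaught`).
PROOF. `S = (A \ (G ∪ G')) ∪ e` has rank 3 (see `SMult`). `N = {g ∈ A \ (G ∪ G') | {x, g} ∈ f2 v for some x ∈ e}` has at most two elements
(`SNbr`). `w0 ∈ A \ (G ∪ G' ∪ N)`. `C = G ∪ G' ∪ N ∪ {w0}` (at most 9 elements), `R0 = C \ (e ∪ {w0})`. Let `R ∩ C = R0`. `SEnd` gives a cell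
`t = e ∪ {g, w1}`, `g ∈ G \ e`; by `wcell` there is `y = a r + c r'` with `⟪v g, y⟫ = c ⟪v g, r'⟫ = 1`, so `c < 0`, and `⟪v w0, y⟫ ≤ 0`, so `a > 0`. `w1 ∉ G`
(independence of `t`, all of `v` on `G` is orthogonal to `r`); `w1 ∉ G'`: there `⟪v w1, y⟫ = a ⟪v w1, r⟫ < 0` but it must be `1`. So `w1 ∈ A \ (G ∪ G')`,
`⟪v w1, y⟫ = κ ⟪v w0, y⟫ ≤ 0` with `κ > 0` (flat), so `w1 ∉ R`, so `w1 ∉ N`. `SCaught` with `g := w1`. -/
def SCatchB : Prop := ∀ (ι : Type) [Fintype ι] [DecidableEq ι] (v : ι → E4) (A e : Finset ι),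
  Pol v → e ∈ f2 v → Flat v A e →
  ∃ C R0 : Finset ι, R0 ⊆ C ∧ C.card ≤ 9 ∧ ∀ R : Finset ι, R ∩ C = R0 → ∀ b w' : ι → ℝ,
    Prt v (hR R) b w' → ∀ D : ℕ, 5 ≤ D → Caught v b D e

/-- **SCatchC.** The case of two directions (uses `SUniq`, `SFace`, `SEnd`, `SThreeV`).
PROOF. `u1, u2 ∈ A \ (G ∪ G')` with `⟪v u1, r⟫ ⟪v u2, r'⟫ ≠ ⟪v u2, r⟫ ⟪v u1, r'⟫`. `C = G ∪ G' ∪ {u1, u2}` (at most 8), `R0 = (G ∪ G') \ e`. Let `R ∩ C = R0`.
Claim: at least three cells of `A` contain `e`; then `size v b e ≥ 3 + 1 + 1` (`SThreeV`, `SFace`, `SUniq`, `Prt.tets`), so `e ∈ nonq v b`.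
Put `ρ u = - ⟪v u, r⟫`, `ρ' u = - ⟪v u, r'⟫` (both `≥ 0`, both `> 0` outside of `G ∪ G'`). `SEnd` for both sides (the structure `Sides` is symmetric):
cells `t1 = e ∪ {g, k}`, `g ∈ G \ e`, and `t2 = e ∪ {g', k'}`, `g' ∈ G' \ e`. By `wcell` `t1` has `y = a r + c r'` with `- c ρ' g = 1`, so `c < 0`, and
`- a ρ u1 - c ρ' u1 ≤ 0`, so `a > 0`. `k ∉ G` (independence), `k ∉ G'` (there `⟪v k, y⟫ = - a ρ k < 0`, but it is `1`); in the same way `k' ∉ G ∪ G'`. So `t1 ≠ t2`.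
`{e, k}`: `tet_flip` gives a second `t3 ∈ tets v b`, `t3 ⊇ e ∪ {k}`, `g ∉ t3`; it is a cell of some `A' ∈ vs v`; `A' = A`: for `p, p'` the points,
`p' - p = a r + c r'` with `a, c ≥ 0` (all `⟪v u, p' - p⟫ ≤ 0`, `u ∈ A`; take `u ∈ G \ e`, `u ∈ G' \ e`), and `⟪v k, p' - p⟫ = 0` gives `a = c = 0`. If `t3 ≠ t2` we have
three cells. Otherwise `t2 = e ∪ {g', k}`, `k' = k`. Let `y = a r + c r'` belong to `t1` (`c = - 1 / ρ' g`) and `y2 = a2 r + c2 r'` to `t2` (`a2 = - 1 / ρ g'`). For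
`u = u1, u2`: `a ρ u ≥ |c| ρ' u`, `c2 ρ' u ≥ |a2| ρ u`, and for `k`: `a ρ k = |c| ρ' k - h`, `c2 ρ' k = |a2| ρ k - h`, `h = - hR R k ∈ {0, 1}`. So
`ρ' k / ρ k ≥ ρ' u / ρ u` and `ρ k / ρ' k ≥ ρ u / ρ' u`: equality for `u1` and `u2`, a contradiction. -/
def SCatchC : Prop := ∀ (ι : Type) [Fintype ι] [DecidableEq ι] (v : ι → E4) (A e G G' : Finset ι)
  (r r' : E4), Pol v → A ∈ vs v → e ∈ f2 v → Sides v A e G G' r r' → G.card ≤ 4 → G'.card ≤ 4 →
  (∃ u ∈ A, u ∉ G ∧ u ∉ G' ∧ ∃ u' ∈ A, u' ∉ G ∧ u' ∉ G' ∧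
    ⟪v u, r⟫_ℝ * ⟪v u', r'⟫_ℝ ≠ ⟪v u', r⟫_ℝ * ⟪v u, r'⟫_ℝ) →
  ∃ C R0 : Finset ι, R0 ⊆ C ∧ C.card ≤ 9 ∧ ∀ R : Finset ι, R ∩ C = R0 → ∀ b w' : ι → ℝ,
    Prt v (hR R) b w' → ∀ D : ℕ, 5 ≤ D → Caught v b D e

/-- **STwo.** Few 2-faces are not 4-gons (uses `SPrt`, `SUniq`, `SFace`, `SSides`, `SFew`, `SBad`, `SNonSimple`, `SMult`, `SThreeV`, `SCatchA`,
`SCatchB`, `SCatchC`).
PROOF. Let `e ∈ f2 v`, `dg v e ≠ 4`. (0) If all `A ∈ vs v` with `e ⊆ A` have four elements then `size v b e = dg v e` for `R = ∅` (the only cell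
of such an `A` is `A`, `SFace`), so `e ∈ nonq v b`: at most `η n²` (`SFew`). (1) `5 ≤ |A| ≤ 12` for some `A ∈ vs v`, `e ⊆ A`: at most
`66 η n²` (`SNonSimple`). (2) `|A| ≥ 13` for some `A`: by `SSides` and the three catching lemmas (`SCatchA` also for `G'`: `Sides` is
symmetric) there are `C`, `R0`, `|C| ≤ 9`, such that `e` is caught by all `R` with `R ∩ C = R0`, at least `2 ^ n / 2 ^ 9` of the `2 ^ n` sets. For
every `R` choose `b`, `w'` by `SPrt`: at most `#nonq + 6 #bad + 12 #nonq ≤ 19 η n²` 2-faces are caught by it (`SMult`). So there are at most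
`2 ^ 9 * 19 η n²` such `e`. -/
def STwo : Prop := ∀ e : ℝ, 0 < e → ∃ n0 : ℕ, ∀ (ι : Type) [Fintype ι] [DecidableEq ι]
  (v : ι → E4), Pol v → n0 ≤ Fintype.card ι →
  (((f2 v).filter fun x => dg v x ≠ 4).card : ℝ) ≤ e * ((Fintype.card ι : ℕ) : ℝ) ^ 2

end Pool.Agent.F32.Dg
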