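import Pool.Agent.F32.Fin2
import Pool.Agent.F32.ArrayFin
import Pool.Agent.F32C.Sat

/-!
# F32: the simple case, closed form (helper68)
-/

set_option autoImplicit false

namespace Pool.Agent.F32.G4

/-- **Simple 4-polytopes**: `o(n²)` of the 2-faces are not 4-gons. -/
theorem f1 : StmtF1 := t_F1 fun e he => few F32C.NC.sat_thm e he

end Pool.Agent.F32.G4
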