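import Pool.Agent.F32.Win

/-!
# F32: labels, arrays and patterns (helper38)

`El L`: labels of the points of an array with `L` rows of `L` points `x r i`, `L` columns `c k`, the
partners `y r i k` of `(x r i, c k)` (label `Y r i` for a distinguished column `k`) and one far point
`w`. `ArrOK`: the properties of the arrays which exist in every large system of edge-disjoint
triangles. `Pat`: the properties of the homogeneous `3`-array which are contradictory (machine proof).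
-/

set_option autoImplicit false

namespace Pool.Agent.F32

open Finset Matrix Circ

/-- labels of the points of an array; `Y r i` refers to a distinguished column -/
inductive El (L : ℕ) : Type
  | X : Fin L → Fin L → El L
  | C : Fin L → El L
  | Y : Fin L → Fin L → El L
  | W : El L
deriving DecidableEq, Fintype

/-- an array of points of `V` -/
structure Arr (V : Type) (L : ℕ) where
  x : Fin L → Fin L → V
  c : Fin L → V
  y : Fin L → Fin L → Fin L → V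
  w : V

/-- the point with a given label, `k` is the distinguished column -/
def Arr.el {V : Type} {L : ℕ} (A : Arr V L) (k : Fin L) : El L → V
  | .X r i => A.x r i
  | .C j => A.c j
  | .Y r i => A.y r i k
  | .W => A.w

/-- the joint law of the labels in `S` has bounded density: at most one of: a related pair
`X r i, Y r i`; the distinguished column -/
def Bdd {L : ℕ} (k : Fin L) (S : Finset (El L)) : Prop :=
  ((univ : Finset (Fin L × Fin L)).filter fun p =>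
    El.X p.1 p.2 ∈ S ∧ El.Y p.1 p.2 ∈ S).card + (if El.C k ∈ S then 1 else 0) ≤ 1

instance {L : ℕ} (k : Fin L) (S : Finset (El L)) : Decidable (Bdd k S) := by
  unfold Bdd
  infer_instance

/-- the properties of an array -/
structure ArrOK {V : Type} (v : V → R5) {L : ℕ} (A : Arr V L) : Prop where
  inj : ∀ k, Function.Injective (A.el k)
  tri : ∀ r i k, Tri v Set.univ (A.x r i) (A.c k) (A.y r i k)
  exc : ∀ r i k, Edge v Set.univ (A.x r i) (A.c k)
  exy : ∀ r i k, Edge v Set.univ (A.x r i) (A.y r i k)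
  ecy : ∀ r i k, Edge v Set.univ (A.c k) (A.y r i k)
  /-- columns are close, H = four `x` -/
  cx : ∀ a b d e : Fin L × Fin L, [a, b, d, e].Nodup → ∀ k k',
    0 < D5 (v (A.x a.1 a.2)) (v (A.x b.1 b.2)) (v (A.x d.1 d.2)) (v (A.x e.1 e.2)) (v (A.c k)) *
      D5 (v (A.x a.1 a.2)) (v (A.x b.1 b.2)) (v (A.x d.1 d.2)) (v (A.x e.1 e.2)) (v (A.c k'))
  /-- columns are close, H = three `x` and one `y` -/
  cy : ∀ a b d e : Fin L × Fin L, [a, b, d, e].Nodup → ∀ k j j',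
    0 < D5 (v (A.x a.1 a.2)) (v (A.x b.1 b.2)) (v (A.x d.1 d.2)) (v (A.y e.1 e.2 k)) (v (A.c j)) *
      D5 (v (A.x a.1 a.2)) (v (A.x b.1 b.2)) (v (A.x d.1 d.2)) (v (A.y e.1 e.2 k)) (v (A.c j'))
  /-- the points of a row are close, H = `w`, a `y` of the row, two `x` of other rows -/
  xa : ∀ (r j i i' k : Fin L) (a b : Fin L × Fin L), a.1 ≠ r → b.1 ≠ r → a ≠ b →
    0 < D5 (v A.w) (v (A.y r j k)) (v (A.x a.1 a.2)) (v (A.x b.1 b.2)) (v (A.x r i)) *
      D5 (v A.w) (v (A.y r j k)) (v (A.x a.1 a.2)) (v (A.x b.1 b.2)) (v (A.x r i'))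
  /-- the points of a row are close, H = `w`, a `y` of the row, an `x` and a `y` of two other rows -/
  xb : ∀ (r j i i' k : Fin L) (a b : Fin L × Fin L), a.1 ≠ r → b.1 ≠ r → a.1 ≠ b.1 →
    0 < D5 (v A.w) (v (A.y r j k)) (v (A.x a.1 a.2)) (v (A.y b.1 b.2 k)) (v (A.x r i)) *
      D5 (v A.w) (v (A.y r j k)) (v (A.x a.1 a.2)) (v (A.y b.1 b.2 k)) (v (A.x r i'))
  /-- the points of a row are close, H = `w`, a `y` of the row, two `y` of two other rows -/
  xc : ∀ (r j i i' k : Fin L) (a b : Fin L × Fin L), a.1 ≠ r → b.1 ≠ r → a.1 ≠ b.1 →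
    0 < D5 (v A.w) (v (A.y r j k)) (v (A.y a.1 a.2 k)) (v (A.y b.1 b.2 k)) (v (A.x r i)) *
      D5 (v A.w) (v (A.y r j k)) (v (A.y a.1 a.2 k)) (v (A.y b.1 b.2 k)) (v (A.x r i'))
  /-- edges between `x` and `y` of different rows, circuits with bounded law only -/
  es : ∀ (k r i s j : Fin L), r ≠ s → ∀ a b c d : El L,
    ({El.X r i, El.Y s j, a, b, c, d} : Finset (El L)).card = 6 →
    Bdd k ({El.X r i, El.Y s j, a, b, c, d} : Finset (El L)) →
    ¬ Pos4 (v (A.x r i)) (v (A.y s j k)) (v (A.el k a)) (v (A.el k b)) (v (A.el k c)) (v (A.el k d))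

/-- type of a label -/
def El.ty {L : ℕ} : El L → ℕ
  | .X _ _ => 0
  | .C _ => 1
  | .Y _ _ => 2
  | .W => 3

/-- row and index in the row -/
def El.ri {L : ℕ} : El L → Option (ℕ × ℕ)
  | .X r i => some (r, i)
  | .C _ => none
  | .Y r i => some (r, i)
  | .W => none

/-- column; `k` is the distinguished column -/
def El.kk {L : ℕ} (k : Fin L) : El L → Option ℕ
  | .X _ _ => none
  | .C j => some j
  | .Y _ _ => some k
  | .W => none

/-- two five-tuples of labels have the same order type -/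
def SameT {L : ℕ} (k : Fin L) (f g : Fin 5 → El L) : Prop :=
  (∀ a, (f a).ty = (g a).ty) ∧
  (∀ a b, ∀ p ∈ (f a).ri, ∀ q ∈ (f b).ri, ∀ p' ∈ (g a).ri, ∀ q' ∈ (g b).ri,
    (p.1 < q.1 ↔ p'.1 < q'.1) ∧ (p.1 = q.1 → (p.2 < q.2 ↔ p'.2 < q'.2))) ∧
  ∀ a b, ∀ p ∈ (f a).kk k, ∀ q ∈ (f b).kk k, ∀ p' ∈ (g a).kk k, ∀ q' ∈ (g b).kk k,
    (p < q ↔ p' < q')

/-- the determinant of five labels -/
def Dp {L : ℕ} (P : El L → R5) (f : Fin 5 → El L) : ℝ :=
  D5 (P (f 0)) (P (f 1)) (P (f 2)) (P (f 3)) (P (f 4))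

/-- the properties of the homogeneous `3`-array (distinguished column `1`) -/
structure Pat (P : El 3 → R5) : Prop where
  nz : ∀ f : Fin 5 → El 3, Function.Injective f → Dp P f ≠ 0
  tri : ∀ (r i : Fin 3) (a b c : El 3), ¬ Pos3 (P (.X r i)) (P (.C 1)) (P (.Y r i)) (P a) (P b) (P c)
  exc : ∀ (r i k : Fin 3) (a b c d : El 3),
    ¬ Pos4 (P (.X r i)) (P (.C k)) (P a) (P b) (P c) (P d)
  exy : ∀ (r i : Fin 3) (a b c d : El 3),
    ¬ Pos4 (P (.X r i)) (P (.Y r i)) (P a) (P b) (P c) (P d)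
  ecy : ∀ (r i : Fin 3) (a b c d : El 3),
    ¬ Pos4 (P (.C 1)) (P (.Y r i)) (P a) (P b) (P c) (P d)
  es : ∀ (r i s j : Fin 3), r ≠ s → ∀ a b c d : El 3,
    ({El.X r i, El.Y s j, a, b, c, d} : Finset (El 3)).card = 6 →
    Bdd 1 ({El.X r i, El.Y s j, a, b, c, d} : Finset (El 3)) →
    ¬ Pos4 (P (.X r i)) (P (.Y s j)) (P a) (P b) (P c) (P d)
  cx : ∀ a b d e : Fin 3 × Fin 3, [a, b, d, e].Nodup → ∀ k k',
    0 < Dp P ![.X a.1 a.2, .X b.1 b.2, .X d.1 d.2, .X e.1 e.2, .C k] *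
      Dp P ![.X a.1 a.2, .X b.1 b.2, .X d.1 d.2, .X e.1 e.2, .C k']
  cy : ∀ a b d e : Fin 3 × Fin 3, [a, b, d, e].Nodup → ∀ k k',
    0 < Dp P ![.X a.1 a.2, .X b.1 b.2, .X d.1 d.2, .Y e.1 e.2, .C k] *
      Dp P ![.X a.1 a.2, .X b.1 b.2, .X d.1 d.2, .Y e.1 e.2, .C k']
  xa : ∀ (r j i i' : Fin 3) (a b : Fin 3 × Fin 3), a.1 ≠ r → b.1 ≠ r → a ≠ b →
    0 < Dp P ![.W, .Y r j, .X a.1 a.2, .X b.1 b.2, .X r i] *
      Dp P ![.W, .Y r j, .X a.1 a.2, .X b.1 b.2, .X r i']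
  xb : ∀ (r j i i' : Fin 3) (a b : Fin 3 × Fin 3), a.1 ≠ r → b.1 ≠ r → a.1 ≠ b.1 →
    0 < Dp P ![.W, .Y r j, .X a.1 a.2, .Y b.1 b.2, .X r i] *
      Dp P ![.W, .Y r j, .X a.1 a.2, .Y b.1 b.2, .X r i']
  xc : ∀ (r j i i' : Fin 3) (a b : Fin 3 × Fin 3), a.1 ≠ r → b.1 ≠ r → a.1 ≠ b.1 →
    0 < Dp P ![.W, .Y r j, .Y a.1 a.2, .Y b.1 b.2, .X r i] *
      Dp P ![.W, .Y r j, .Y a.1 a.2, .Y b.1 b.2, .X r i']
  hom : ∀ f g : Fin 5 → El 3, SameT 1 f g → (0 < Dp P f ↔ 0 < Dp P g)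

/-- a system of pairwise edge-disjoint triangular faces, as ordered triples -/
structure Sys {V : Type} (v : V → R5) (T : Finset (V × V × V)) : Prop where
  ne : ∀ x c y, (x, c, y) ∈ T → x ≠ c ∧ c ≠ y ∧ x ≠ y
  tri : ∀ x c y, (x, c, y) ∈ T → Tri v Set.univ x c y
  inj1 : ∀ x c y y', (x, c, y) ∈ T → (x, c, y') ∈ T → y = y'
  inj2 : ∀ x x' c y, (x, c, y) ∈ T → (x', c, y) ∈ T → x = x'
  inj3 : ∀ x c c' y, (x, c, y) ∈ T → (x, c', y) ∈ T → c = c'

/-- **array theorem** -/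
def ArrayThm : Prop :=
  ∀ (e : ℝ) (L : ℕ), 0 < e → ∃ n0 : ℕ, ∀ (V : Type) [Fintype V] [DecidableEq V] (v : V → R5),
    GP v → ∀ T : Finset (V × V × V), Sys v T → n0 ≤ Fintype.card V →
    e * ((Fintype.card V : ℕ) : ℝ) ^ 2 ≤ (T.card : ℝ) → ∃ A : Arr V L, ArrOK v A

/-- **pattern theorem**: large arrays contain a homogeneous pattern -/
def PatThm : Prop :=
  ∃ L : ℕ, ∀ (V : Type) (v : V → R5), GP v → ∀ A : Arr V L, ArrOK v A → ∃ P : El 3 → R5, Pat P

/-- **machine theorem** -/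
def SatThm : Prop := ∀ P : El 3 → R5, ¬ Pat P

/-- **main theorem**: systems of edge-disjoint triangles have `o(n²)` elements -/
theorem few_of (h1 : ArrayThm) (h2 : PatThm) (h3 : SatThm) (e : ℝ) (he : 0 < e) :
    ∃ n0 : ℕ, ∀ (V : Type) [Fintype V] [DecidableEq V] (v : V → R5), GP v →
      ∀ T : Finset (V × V × V), Sys v T → n0 ≤ Fintype.card V →
      (T.card : ℝ) < e * ((Fintype.card V : ℕ) : ℝ) ^ 2 := by
  obtain ⟨L, hL⟩ := h2
  obtain ⟨n0, hn⟩ := h1 e L he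
  refine ⟨n0, fun V _ _ v hv T hT hV => ?_⟩
  by_contra hcon
  obtain ⟨A, hA⟩ := hn V v hv T hT hV (not_lt.1 hcon)
  obtain ⟨P, hP⟩ := hL V v hv A hA
  exact h3 P hP

end Pool.Agent.F32
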