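import Pool.Agent.F32.Gen4
import Pool.Agent.F32.Pat

/-!
# F32: perturbation to general position (helper68)
-/

set_option autoImplicit false

namespace Pool.Agent.F32.G4

open Finset QMark Matrix Filter Topology
open scoped InnerProductSpace

theorem ev_fin {A : Set ℝ} (hA : A.Finite) : ∀ᶠ τ in 𝓝[>] (0 : ℝ), τ ∉ A := by
  have h1 : (A \ {0}).Finite := hA.subset Set.sdiff_subset
  have h2 : (A \ {0})ᶜ ∈ 𝓝 (0 : ℝ) := h1.isClosed.isOpen_compl.mem_nhds (by simp)
  filter_upwards [nhdsWithin_le_nhds h2, self_mem_nhdsWithin] with τ h3 h4 h5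
  exact h3 ⟨h5, fun h6 => (ne_of_gt h4) h6⟩

theorem ev_det (A B : Matrix (Fin 5) (Fin 5) ℝ) (hA : A.det ≠ 0) :
    ∀ᶠ τ in 𝓝[>] (0 : ℝ), (B + τ • A).det ≠ 0 := by
  set p : Polynomial ℝ :=
    ((Polynomial.X : Polynomial ℝ) • A.map Polynomial.C + B.map Polynomial.C).det with hp
  have h1 : p ≠ 0 := by
    intro h0
    have h2 := Polynomial.coeff_det_X_add_C_card A B
    rw [← hp, h0, Polynomial.coeff_zero] at h2
    exact hA h2.symm
  have h3 : ∀ τ : ℝ, p.eval τ = (B + τ • A).det := by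
    intro τ
    have h4 := (Polynomial.evalRingHom τ).map_det
      ((Polynomial.X : Polynomial ℝ) • A.map Polynomial.C + B.map Polynomial.C)
    rw [← hp] at h4
    have h5 : (Polynomial.evalRingHom τ).mapMatrix
        ((Polynomial.X : Polynomial ℝ) • A.map Polynomial.C + B.map Polynomial.C) =
        B + τ • A := by
      ext i j
      rw [RingHom.mapMatrix_apply, Matrix.map_apply, Matrix.add_apply, Matrix.smul_apply,
        Matrix.map_apply, Matrix.map_apply, smul_eq_mul, Polynomial.coe_evalRingHom,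
        Polynomial.eval_add, Polynomial.eval_mul, Polynomial.eval_X, Polynomial.eval_C,
        Polynomial.eval_C, Matrix.add_apply, Matrix.smul_apply, smul_eq_mul, add_comm]
    rw [h5] at h4
    exact h4
  have h5 := ev_fin (A := {τ : ℝ | p.IsRoot τ}) (Polynomial.finite_setOfPred_isRoot h1)
  filter_upwards [h5] with τ hτ h6
  apply hτ
  show p.eval τ = 0
  rw [h3, h6]

theorem ev_tri {V : Type} [Fintype V] (v w : V → R5) {x c y : V}
    (hl : LinearIndependent ℝ ![v x, v c, v y]) (h : Circ.Tri v Set.univ x c y) :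
    ∀ᶠ τ in 𝓝[>] (0 : ℝ), Circ.Tri (fun i => v i + τ • w i) Set.univ x c y := by
  obtain ⟨g, g1, g2, g3, g4⟩ := h
  obtain ⟨f1, hf1⟩ := exists_linearIndependent_cons_of_lt_finrank hl (by simp)
  obtain ⟨f2, hf2⟩ := exists_linearIndependent_cons_of_lt_finrank hf1 (by simp)
  set M : ℝ → Matrix (Fin 5) (Fin 5) ℝ := fun τ =>
    Matrix.of ![f2, f1, v x + τ • w x, v c + τ • w c, v y + τ • w y] with hM
  set cv : Fin 5 → ℝ := ![f2 ⬝ᵥ g, f1 ⬝ᵥ g, 0, 0, 0] with hcv
  have hM0 : (M 0).det ≠ 0 := by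
    have h1 : LinearIndependent ℝ (M 0).row := by
      have h2 : (M 0).row = Fin.cons f2 (Fin.cons f1 ![v x, v c, v y] : Fin 4 → R5) := by
        funext i
        fin_cases i <;> simp [hM, Matrix.row] <;> rfl
      rw [h2]
      exact hf2
    have h3 := Matrix.linearIndependent_rows_iff_isUnit.1 h1
    exact ((Matrix.isUnit_iff_isUnit_det _).1 h3).ne_zero
  set δ := (M 0).det with hδ
  have hMg : M 0 *ᵥ g = cv := by
    funext i
    fin_cases i <;> simp [hM, hcv, Matrix.mulVec, g1, g2, g3]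
  set G : ℝ → R5 := fun τ => δ • ((M τ).adjugate *ᵥ cv) with hG
  have hG0 : G 0 = (δ * δ) • g := by
    show δ • ((M 0).adjugate *ᵥ cv) = _
    rw [← hMg, Matrix.mulVec_mulVec, Matrix.adjugate_mul, ← hδ, Matrix.smul_mulVec,
      Matrix.one_mulVec, smul_smul]
  have hMG : ∀ τ, M τ *ᵥ G τ = (δ * (M τ).det) • cv := by
    intro τ
    show M τ *ᵥ (δ • ((M τ).adjugate *ᵥ cv)) = _
    rw [Matrix.mulVec_smul, Matrix.mulVec_mulVec, Matrix.mul_adjugate, Matrix.smul_mulVec,
      Matrix.one_mulVec, smul_smul]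
  have hcM : Continuous M := by
    refine continuous_matrix fun i j => ?_
    fin_cases i <;> simp [hM] <;> fun_prop
  have hcG : Continuous G := by
    have h1 : Continuous fun τ => (M τ).adjugate := hcM.matrix_adjugate
    exact (h1.matrix_mulVec continuous_const).const_smul δ
  have hev : ∀ᶠ τ in 𝓝[>] (0 : ℝ), ∀ s : V, s ≠ x → s ≠ c → s ≠ y →
      0 < (v s + τ • w s) ⬝ᵥ G τ := by
    rw [eventually_all]
    intro s
    by_cases hs : s ≠ x ∧ s ≠ c ∧ s ≠ y
    · have h1 : Continuous fun τ : ℝ => (v s + τ • w s) ⬝ᵥ G τ := by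
        refine Continuous.dotProduct ?_ hcG
        fun_prop
      have h2 : (0 : ℝ) < (v s + (0 : ℝ) • w s) ⬝ᵥ G 0 := by
        rw [hG0, zero_smul, add_zero, dotProduct_smul, smul_eq_mul]
        exact mul_pos (mul_self_pos.2 hM0) (g4 s (Set.mem_univ _) hs.1 hs.2.1 hs.2.2)
      have h3 := h1.continuousAt.eventually (lt_mem_nhds h2)
      filter_upwards [nhdsWithin_le_nhds h3] with τ hτ _ _ _
      exact hτ
    · exact Eventually.of_forall fun τ a b d => absurd ⟨a, b, d⟩ hs
  filter_upwards [hev] with τ hτ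
  have hr := hMG τ
  refine ⟨G τ, ?_, ?_, ?_, fun s _ => hτ s⟩
  · have h5 := congrFun hr 2
    change (v x + τ • w x) ⬝ᵥ G τ = (δ * (M τ).det) * 0 at h5
    rw [mul_zero] at h5
    exact h5
  · have h5 := congrFun hr 3
    change (v c + τ • w c) ⬝ᵥ G τ = (δ * (M τ).det) * 0 at h5
    rw [mul_zero] at h5
    exact h5
  · have h5 := congrFun hr 4
    change (v y + τ • w y) ⬝ᵥ G τ = (δ * (M τ).det) * 0 at h5
    rw [mul_zero] at h5
    exact h5

/-- **Perturbation to general position**, keeping the given triangular faces. -/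
theorem gp_pert {V : Type} [Fintype V] [DecidableEq V] (v : V → R5) (T : Finset (V × V × V))
    (hT : ∀ x c y, (x, c, y) ∈ T → LinearIndependent ℝ ![v x, v c, v y] ∧
      Circ.Tri v Set.univ x c y) :
    ∃ v' : V → R5, GP v' ∧ ∀ x c y, (x, c, y) ∈ T → Circ.Tri v' Set.univ x c y := by
  set s : V → ℝ := fun i => ((Fintype.equivFin V i : ℕ) : ℝ) with hs
  have hsi : Function.Injective s := by
    intro i j hij
    have h1 : ((Fintype.equivFin V i : ℕ) : ℝ) = ((Fintype.equivFin V j : ℕ) : ℝ) := hij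
    exact (Fintype.equivFin V).injective (Fin.ext (by exact_mod_cast h1))
  set w : V → R5 := fun i k => s i ^ (k : ℕ) with hw
  have ev1 : ∀ᶠ τ in 𝓝[>] (0 : ℝ), ∀ a : Fin 5 → V, Function.Injective a →
      Matrix.det (Matrix.of fun k => v (a k) + τ • w (a k)) ≠ 0 := by
    rw [eventually_all]
    intro a
    by_cases ha : Function.Injective a
    · have h1 : (Matrix.of fun k => w (a k)).det ≠ 0 := by
        have h2 : (Matrix.of fun k => w (a k)) = Matrix.vandermonde (s ∘ a) := by
          ext i j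
          simp [hw, Matrix.vandermonde_apply]
        rw [h2, Matrix.det_vandermonde_ne_zero_iff]
        exact hsi.comp ha
      filter_upwards [ev_det _ (Matrix.of fun k => v (a k)) h1] with τ hτ _
      have h3 : (Matrix.of fun k => v (a k) + τ • w (a k)) =
          (Matrix.of fun k => v (a k)) + τ • (Matrix.of fun k => w (a k)) := by
        ext i j
        rfl
      rw [h3]
      exact hτ
    · exact Eventually.of_forall fun τ h => absurd h ha
  have ev2 : ∀ᶠ τ in 𝓝[>] (0 : ℝ), ∀ t ∈ T,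
      Circ.Tri (fun i => v i + τ • w i) Set.univ t.1 t.2.1 t.2.2 := by
    rw [eventually_all_finset]
    rintro ⟨x, c, y⟩ ht
    obtain ⟨h1, h2⟩ := hT x c y ht
    exact ev_tri v w h1 h2
  obtain ⟨τ, h1, h2⟩ := (ev1.and ev2).exists
  exact ⟨fun i => v i + τ • w i, h1, fun x c y ht => h2 (x, c, y) ht⟩

end Pool.Agent.F32.G4
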