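import Pool.Agent.F32.Fin1
import Pool.Agent.TRF.Main

/-!
# F32: the simple case (helper68)

From systems of edge-disjoint triangles to the 2-faces of simple 4-polytopes which are not 4-gons.
-/

set_option autoImplicit false

namespace Pool.Agent.F32.G4

open Finset QMark Matrix
open scoped InnerProductSpace

/-- the statement of `few_of` -/
def FewStmt : Prop := ∀ e : ℝ, 0 < e → ∃ n0 : ℕ, ∀ (V : Type) [Fintype V] [DecidableEq V]
  (v : V → R5), GP v → ∀ T : Finset (V × V × V), Sys v T → n0 ≤ Fintype.card V →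
  (T.card : ℝ) < e * ((Fintype.card V : ℕ) : ℝ) ^ 2

/-- the vector of a facet -/
def vec {ι : Type} (u : ι → E4) (b : ι → ℝ) (i : ι) : R5 := ![u i 0, u i 1, u i 2, u i 3, b i]

theorem vec_dot {ι : Type} (u : ι → E4) (b : ι → ℝ) (i : ι) (p : E4) :
    vec u b i ⬝ᵥ ![-p 0, -p 1, -p 2, -p 3, 1] = b i - ⟪u i, p⟫_ℝ := by
  simp [vec, dotProduct, Fin.sum_univ_five, PiLp.inner_apply, Fin.sum_univ_four]
  ring

section

variable {ι : Type} [Fintype ι] [DecidableEq ι] {u : ι → E4} {b : ι → ℝ}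

theorem vec_indep {x c y : ι} (hxc : x ≠ c) (hxy : x ≠ y) (hcy : c ≠ y)
    (h : Ind u ({x, c, y} : Finset ι)) : LinearIndependent ℝ ![vec u b x, vec u b c, vec u b y] := by
  rw [Fintype.linearIndependent_iff]
  intro g hg
  have h1 : ∑ i ∈ ({x, c, y} : Finset ι),
      (if i = x then g 0 else if i = c then g 1 else g 2) • u i = 0 := by
    rw [sum_insert (by simp [hxc, hxy]), sum_insert (by simp [hcy]), sum_singleton, if_pos rfl,
      if_neg hxc.symm, if_pos rfl, if_neg hxy.symm, if_neg hcy.symm]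
    rw [Fin.sum_univ_three] at hg
    ext k
    fin_cases k
    · have := congrFun hg 0
      simpa [vec, add_assoc] using this
    · have := congrFun hg 1
      simpa [vec, add_assoc] using this
    · have := congrFun hg 2
      simpa [vec, add_assoc] using this
    · have := congrFun hg 3
      simpa [vec, add_assoc] using this
  have h2 := h _ h1
  intro i
  fin_cases i
  · have := h2 x (by simp)
    simpa using this
  · have := h2 c (by simp)
    simpa [hxc.symm] using this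
  · have := h2 y (by simp)
    simpa [hxy.symm, hcy.symm] using this

theorem vec_tri (h : SP u b) {x c y : ι} (hxc : x ≠ c) (hxy : x ≠ y) (hcy : c ≠ y)
    (hf : ({x, c, y} : Finset ι) ∈ faces u b 3) :
    LinearIndependent ℝ ![vec u b x, vec u b c, vec u b y] ∧
      Circ.Tri (vec u b) Set.univ x c y := by
  obtain ⟨p, hp, hpa, hi⟩ := wit_of_mem h hf
  refine ⟨vec_indep hxc hxy hcy hi, ![-p 0, -p 1, -p 2, -p 3, 1], ?_, ?_, ?_, ?_⟩
  · rw [vec_dot, sub_eq_zero]
    exact (mem_act.1 (by rw [hpa]; simp)).symm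
  · rw [vec_dot, sub_eq_zero]
    exact (mem_act.1 (by rw [hpa]; simp)).symm
  · rw [vec_dot, sub_eq_zero]
    exact (mem_act.1 (by rw [hpa]; simp)).symm
  · intro s _ h1 h2 h3
    rw [vec_dot, sub_pos]
    refine lt_of_le_of_ne (hp s) fun h4 => ?_
    have h5 : s ∈ act u b p := mem_act.2 h4
    rw [hpa] at h5
    simp [h1, h2, h3] at h5

/-- the triples without a large pair -/
noncomputable def lgt (u : ι → E4) (b : ι → ℝ) (D : ℕ) : Finset (Finset ι) :=
  (faces u b 3).filter fun s => ∀ e ∈ big u b D, ¬ e ⊆ s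

theorem few_le (h : SP u b) (D : ℕ) : (few u b D).card ≤ 2 * (lgt u b D).card := by
  classical
  have h1 : few u b D ⊆ (lgt u b D).biUnion fun s => (tets u b).filter fun t => s ⊆ t := by
    intro t ht
    rw [few, mem_filter] at ht
    obtain ⟨s, hst, hs3, hs⟩ := TRF.exists_triple (mem_tets.1 ht.1).1 big_two ht.2
    rw [mem_biUnion]
    exact ⟨s, mem_filter.2 ⟨mem_faces.2 ⟨hs3, t, ht.1, hst⟩, hs⟩, mem_filter.2 ⟨ht.1, hst⟩⟩
  refine (card_le_card h1).trans (card_biUnion_le.trans ?_)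
  rw [mul_comm, ← smul_eq_mul, ← sum_const]
  refine sum_le_sum fun s hs => ?_
  obtain ⟨h3, t, ht, hst⟩ := mem_faces.1 (mem_filter.1 hs).1
  exact (card_three h h3 ht hst).le

theorem pair_le (D : ℕ) {e : Finset ι} (he : e.card = 2) :
    ((lgt u b D).filter fun s => e ⊆ s).card ≤ 4 * D := by
  classical
  rcases ((lgt u b D).filter fun s => e ⊆ s).eq_empty_or_nonempty with h0 | ⟨s0, hs0⟩
  · rw [h0, card_empty]
    exact Nat.zero_le _
  have h1 : size u b e ≤ D := by
    rw [mem_filter, lgt, mem_filter] at hs0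
    obtain ⟨⟨hf, hl⟩, hes⟩ := hs0
    obtain ⟨-, t, ht, hst⟩ := mem_faces.1 hf
    by_contra hcon
    exact hl e (mem_filter.2 ⟨mem_faces.2 ⟨he, t, ht, hes.trans hst⟩, by omega⟩) hes
  have h2 : ((lgt u b D).filter fun s => e ⊆ s) ⊆
      ((tets u b).filter fun t => e ⊆ t).biUnion fun t => t.powersetCard 3 := by
    intro s hs
    rw [mem_filter, lgt, mem_filter] at hs
    obtain ⟨⟨hf, -⟩, hes⟩ := hs
    obtain ⟨h3, t, ht, hst⟩ := mem_faces.1 hf
    rw [mem_biUnion]
    exact ⟨t, mem_filter.2 ⟨ht, hes.trans hst⟩, mem_powersetCard.2 ⟨hst, h3⟩⟩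
  refine (card_le_card h2).trans (card_biUnion_le.trans ?_)
  have h3 : ∀ t ∈ (tets u b).filter (fun t => e ⊆ t), (t.powersetCard 3).card ≤ 4 := by
    intro t ht
    rw [card_powersetCard, (mem_tets.1 (mem_filter.1 ht).1).1]
    decide
  refine (sum_le_sum h3).trans ?_
  rw [sum_const, smul_eq_mul, mul_comm]
  exact Nat.mul_le_mul_left _ h1

end

/-- greedy choice of edge-disjoint triples -/
theorem greedy {ι : Type} [DecidableEq ι] (F : Finset (Finset ι)) (hF : ∀ s ∈ F, s.card = 3)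
    (K : ℕ) (hK : ∀ e : Finset ι, e.card = 2 → (F.filter fun s => e ⊆ s).card ≤ K) :
    ∃ S ⊆ F, (∀ s ∈ S, ∀ s' ∈ S, s ≠ s' → (s ∩ s').card ≤ 1) ∧ F.card ≤ 3 * K * S.card := by
  classical
  obtain ⟨S, hS, hmax⟩ := exists_max_image
    (F.powerset.filter fun S => ∀ s ∈ S, ∀ s' ∈ S, s ≠ s' → (s ∩ s').card ≤ 1) Finset.card
    ⟨∅, mem_filter.2 ⟨empty_mem_powerset _, fun s hs => absurd hs (notMem_empty s)⟩⟩
  rw [mem_filter, mem_powerset] at hS
  obtain ⟨hSF, hSd⟩ := hS
  refine ⟨S, hSF, hSd, ?_⟩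
  have key : ∀ s ∈ F, ∃ s' ∈ S, 2 ≤ (s ∩ s').card := by
    intro s hs
    by_cases hsS : s ∈ S
    · exact ⟨s, hsS, by rw [inter_self, hF s hs]; norm_num⟩
    · by_contra hcon
      push Not at hcon
      have h1 := hmax (insert s S) (mem_filter.2 ⟨mem_powerset.2 (insert_subset hs hSF), ?_⟩)
      · rw [card_insert_of_notMem hsS] at h1
        omega
      · intro a ha a' ha' hne
        rw [mem_insert] at ha ha'
        rcases ha with rfl | ha <;> rcases ha' with rfl | ha'
        · exact absurd rfl hne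
        · have := hcon a' ha'
          omega
        · have := hcon a ha
          rw [inter_comm]
          omega
        · exact hSd a ha a' ha' hne
  have h1 : F ⊆ S.biUnion fun s' => (s'.powersetCard 2).biUnion fun e => F.filter fun s => e ⊆ s := by
    intro s hs
    obtain ⟨s', hs', h2⟩ := key s hs
    obtain ⟨e, he, hec⟩ := exists_subset_card_eq h2
    rw [mem_biUnion]
    refine ⟨s', hs', ?_⟩
    rw [mem_biUnion]
    exact ⟨e, mem_powersetCard.2 ⟨he.trans inter_subset_right, hec⟩,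
      mem_filter.2 ⟨hs, he.trans inter_subset_left⟩⟩
  refine (card_le_card h1).trans (card_biUnion_le.trans ?_)
  rw [mul_comm, ← smul_eq_mul, ← sum_const]
  refine sum_le_sum fun s' hs' => ?_
  refine card_biUnion_le.trans ?_
  have h2 : (s'.powersetCard 2).card = 3 := by
    rw [card_powersetCard, hF s' (hSF hs')]
    decide
  rw [← h2, ← smul_eq_mul, ← sum_const]
  exact sum_le_sum fun e he => hK e (mem_powersetCard.1 he).2

/-- edge-disjoint triangles of a simple 4-polytope -/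
theorem few_sys {ι : Type} [Fintype ι] [DecidableEq ι] {u : ι → E4} {b : ι → ℝ} (h : SP u b)
    {e : ℝ} {n0 : ℕ} (hn : ∀ (V : Type) [Fintype V] [DecidableEq V] (v : V → R5), GP v →
      ∀ T : Finset (V × V × V), Sys v T → n0 ≤ Fintype.card V →
      (T.card : ℝ) < e * ((Fintype.card V : ℕ) : ℝ) ^ 2) (hι : n0 ≤ Fintype.card ι)
    (S : Finset (Finset ι)) (hS : S ⊆ faces u b 3)
    (hd : ∀ s ∈ S, ∀ s' ∈ S, s ≠ s' → (s ∩ s').card ≤ 1) :
    (S.card : ℝ) ≤ e * (Fintype.card ι : ℝ) ^ 2 := by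
  classical
  rcases isEmpty_or_nonempty ι with hem | ⟨⟨i0⟩⟩
  · have h0 : S = ∅ := by
      rw [Finset.eq_empty_iff_forall_notMem]
      intro s hs
      have h3 := (mem_faces.1 (hS hs)).1
      rw [Finset.eq_empty_of_isEmpty s, card_empty] at h3
      omega
    rw [h0, card_empty, Fintype.card_eq_zero]
    simp
  have hf : ∀ s : Finset ι, ∃ f : ι × ι × ι, s.card = 3 →
      s = {f.1, f.2.1, f.2.2} ∧ f.1 ≠ f.2.1 ∧ f.1 ≠ f.2.2 ∧ f.2.1 ≠ f.2.2 := by
    intro s
    by_cases h3 : s.card = 3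
    · obtain ⟨x, c, y, h1, h2, h4, h5⟩ := card_eq_three.1 h3
      exact ⟨(x, c, y), fun _ => ⟨h5, h1, h2, h4⟩⟩
    · exact ⟨(i0, i0, i0), fun h => absurd h h3⟩
  choose f hf using hf
  have hS3 : ∀ s ∈ S, s.card = 3 := fun s hs => (mem_faces.1 (hS hs)).1
  set T : Finset (ι × ι × ι) := S.image f with hT
  have hTS : ∀ x c y, (x, c, y) ∈ T → ∃ s ∈ S, f s = (x, c, y) ∧ s = {x, c, y} ∧ x ≠ c ∧ x ≠ y ∧
      c ≠ y := by
    intro x c y hm
    obtain ⟨s, hs, h1⟩ := mem_image.1 hm
    obtain ⟨h2, h3, h4, h5⟩ := hf s (hS3 s hs)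
    rw [h1] at h2 h3 h4 h5
    exact ⟨s, hs, h1, h2, h3, h4, h5⟩
  have hcard : T.card = S.card := by
    rw [hT, card_image_of_injOn]
    intro s hs s' hs' hss
    rw [(hf s (hS3 s hs)).1, (hf s' (hS3 s' hs')).1, show f s = f s' from hss]
  obtain ⟨v', hv', hT'⟩ := gp_pert (vec u b) T (by
    intro x c y hm
    obtain ⟨s, hs, h1, h2, h3, h4, h5⟩ := hTS x c y hm
    exact vec_tri h h3 h4 h5 (by rw [← h2]; exact hS hs))
  have huniq : ∀ x c y x' c' y', (x, c, y) ∈ T → (x', c', y') ∈ T →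
      (∃ a a' : ι, a ≠ a' ∧ a ∈ ({x, c, y} : Finset ι) ∧ a' ∈ ({x, c, y} : Finset ι) ∧
        a ∈ ({x', c', y'} : Finset ι) ∧ a' ∈ ({x', c', y'} : Finset ι)) →
      (x, c, y) = (x', c', y') := by
    rintro x c y x' c' y' h1 h2 ⟨a, a', h3, h4, h5, h6, h7⟩
    obtain ⟨s, hs, g1, g2, -⟩ := hTS x c y h1
    obtain ⟨s', hs', g1', g2', -⟩ := hTS x' c' y' h2
    have h8 : s = s' := by
      by_contra hne
      have h9 := hd s hs s' hs' hne
      have h10 : ({a, a'} : Finset ι) ⊆ s ∩ s' := by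
        intro i hi
        rw [mem_insert, mem_singleton] at hi
        rw [mem_inter, g2, g2']
        rcases hi with rfl | rfl
        · exact ⟨h4, h6⟩
        · exact ⟨h5, h7⟩
      have h11 := card_le_card h10
      rw [card_pair h3] at h11
      omega
    rw [← g1, ← g1', h8]
  have hsys : Sys v' T := by
    refine ⟨?_, hT', ?_, ?_, ?_⟩
    · intro x c y hm
      obtain ⟨s, -, -, -, h3, h4, h5⟩ := hTS x c y hm
      exact ⟨h3, h5, h4⟩
    · intro x c y y' h1 h2
      obtain ⟨s, -, -, -, h3, -, -⟩ := hTS x c y h1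
      have := huniq x c y x c y' h1 h2 ⟨x, c, h3, by simp, by simp, by simp, by simp⟩
      simpa using this
    · intro x x' c y h1 h2
      obtain ⟨s, -, -, -, -, -, h3⟩ := hTS x c y h1
      have := huniq x c y x' c y h1 h2 ⟨c, y, h3, by simp, by simp, by simp, by simp⟩
      simpa using this
    · intro x c c' y h1 h2
      obtain ⟨s, -, -, -, -, h3, -⟩ := hTS x c y h1
      have := huniq x c y x c' y h1 h2 ⟨x, y, h3, by simp, by simp, by simp, by simp⟩
      simpa using this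
  have h1 := hn ι v' hv' T hsys hι
  rw [hcard] at h1
  exact h1.le

/-- **The simple case.** -/
theorem t_F1 (hFew : FewStmt) : StmtF1 := by
  intro ε hε
  -- the threshold for large 2-faces
  obtain ⟨D, hD⟩ := exists_nat_ge (max 1 (4626 / ε))
  have hD1 : (1 : ℝ) ≤ D := (le_max_left _ _).trans hD
  have hD2 : 4626 / ε ≤ D := (le_max_right _ _).trans hD
  rw [div_le_iff₀ hε] at hD2
  have hD0 : (0 : ℝ) < D := by linarith
  obtain ⟨n0, hn0⟩ := hFew (ε / (1008 * D)) (by positivity)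
  obtain ⟨n1, hn1⟩ := exists_nat_ge (12 / ε)
  rw [div_le_iff₀ hε] at hn1
  refine ⟨max 1 (max n0 n1), fun ι _ _ u b h hι => ?_⟩
  have hι1 : 1 ≤ Fintype.card ι := (le_max_left _ _).trans hι
  have hι0 : n0 ≤ Fintype.card ι := (le_max_left _ _).trans ((le_max_right _ _).trans hι)
  have hι2 : n1 ≤ Fintype.card ι := (le_max_right _ _).trans ((le_max_right _ _).trans hι)
  set n : ℝ := (Fintype.card ι : ℝ) with hn
  have hn1' : (1 : ℝ) ≤ n := by rw [hn]; exact_mod_cast hι1
  have hn2 : (n1 : ℝ) ≤ n := by rw [hn]; exact_mod_cast hι2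
  obtain ⟨S, hSF, hSd, hS⟩ := greedy (lgt u b D) (fun s hs =>
    (mem_faces.1 (mem_filter.1 hs).1).1) (4 * D) (fun e he => pair_le D he)
  have h1 := few_sys h hn0 hι0 S (hSF.trans (filter_subset _ _)) hSd
  rw [← hn] at h1
  have h2 := few_le h D
  have h3 := partI h D
  have h4 := big_card h D
  have h5 : ((few u b D).card : ℝ) ≤ 24 * D * S.card := by
    have : (few u b D).card ≤ 24 * D * S.card := by nlinarith
    exact_mod_cast this
  have h6 : ((nonq u b).card : ℝ) ≤ 4 * n + 14 * (few u b D).card + 257 * (big u b D).card := by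
    rw [hn]
    exact_mod_cast h3
  have h7 : ((big u b D).card : ℝ) * D ≤ 3 * (n * (n + 1)) := by
    rw [hn]
    exact_mod_cast h4
  have h8 : 24 * (D : ℝ) * S.card ≤ ε / 42 * n ^ 2 := by
    calc 24 * (D : ℝ) * S.card ≤ 24 * D * (ε / (1008 * D) * n ^ 2) :=
          mul_le_mul_of_nonneg_left h1 (by positivity)
      _ = ε / 42 * n ^ 2 := by
          field_simp
          ring
  have h9 : 257 * ((big u b D).card : ℝ) ≤ ε / 3 * n ^ 2 := by
    have h10 : ((big u b D).card : ℝ) * 4626 ≤ 6 * n ^ 2 * ε := by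
      calc ((big u b D).card : ℝ) * 4626 ≤ (big u b D).card * (D * ε) :=
            mul_le_mul_of_nonneg_left hD2 (Nat.cast_nonneg _)
        _ = ((big u b D).card * D) * ε := by ring
        _ ≤ (3 * (n * (n + 1))) * ε := mul_le_mul_of_nonneg_right h7 hε.le
        _ ≤ 6 * n ^ 2 * ε := by
            apply mul_le_mul_of_nonneg_right _ hε.le
            nlinarith
    nlinarith
  have h11 : 4 * n ≤ ε / 3 * n ^ 2 := by
    have : 12 ≤ n * ε := hn1.trans (mul_le_mul_of_nonneg_right hn2 hε.le)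
    nlinarith
  linarith

end Pool.Agent.F32.G4
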