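import Pool.Agent.F32.H_Eta

/-!
# F32: every 2-face has at least three vertices (helper68)
-/

set_option autoImplicit false

namespace Pool.Agent.F32.G4

open Finset QMark
open scoped InnerProductSpace

namespace Kv

variable {ι : Type} [Fintype ι] [DecidableEq ι] {u : ι → E4} {b : ι → ℝ}

theorem move' (h : Bornology.IsBounded (Poly u b)) {p d : E4} (hp : p ∈ Poly u b) (hd : d ≠ 0)
    (ha : ∀ i ∈ act u b p, ⟪u i, d⟫_ℝ ≤ 0) :
    ∃ t : ℝ, 0 < t ∧ p + t • d ∈ Poly u b ∧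
      ∃ j, j ∉ act u b p ∧ j ∈ act u b (p + t • d) := by
  classical
  obtain ⟨j0, hj0⟩ := H4.Eta.exists_pos' h hp hd
  have hne : (univ.filter fun j : ι => 0 < ⟪u j, d⟫_ℝ).Nonempty := ⟨j0, by simpa using hj0⟩
  obtain ⟨j, hj, hmin⟩ := exists_min_image _ (fun j => (b j - ⟪u j, p⟫_ℝ) / ⟪u j, d⟫_ℝ) hne
  simp only [mem_filter, mem_univ, true_and] at hj hmin
  have hja : j ∉ act u b p := fun hc => absurd (ha j hc) (not_le.mpr hj)
  have hjl : ⟪u j, p⟫_ℝ < b j := lt_of_le_of_ne (hp j) fun hc => hja (mem_act.mpr hc)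
  refine ⟨(b j - ⟪u j, p⟫_ℝ) / ⟪u j, d⟫_ℝ, div_pos (by linarith) hj, ?_, j, hja, ?_⟩
  · intro i
    rw [inner_add_smul]
    have hi := hp i
    rcases le_or_gt (⟪u i, d⟫_ℝ) 0 with h1 | h1
    · have h2 : 0 ≤ (b j - ⟪u j, p⟫_ℝ) / ⟪u j, d⟫_ℝ * (-⟪u i, d⟫_ℝ) :=
        mul_nonneg (div_pos (by linarith) hj).le (by linarith)
      linarith
    · have h2 := hmin i h1
      rw [le_div_iff₀ h1] at h2
      linarith
  · rw [mem_act, inner_add_smul, div_mul_cancel₀ _ hj.ne']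
    ring

/-- every point can be moved to a vertex without decreasing a linear function -/
theorem up (h : Bornology.IsBounded (Poly u b)) (c : E4) {p : E4} (hp : p ∈ Poly u b) :
    ∃ q, Vx u b q ∧ act u b p ⊆ act u b q ∧ ⟪c, p⟫_ℝ ≤ ⟪c, q⟫_ℝ := by
  obtain ⟨m, hm⟩ : ∃ m, Fintype.card ι - (act u b p).card = m := ⟨_, rfl⟩
  induction m using Nat.strong_induction_on generalizing p with
  | _ m ih =>
    by_cases hv : Vx u b p
    · exact ⟨p, hv, Subset.refl _, le_rfl⟩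
    obtain ⟨d0, hd0, hd00⟩ : ∃ d : E4, (∀ i ∈ act u b p, ⟪u i, d⟫_ℝ = 0) ∧ d ≠ 0 := by
      by_contra hcon
      apply hv
      refine ⟨hp, fun d hd => ?_⟩
      by_contra hne
      exact hcon ⟨d, hd, hne⟩
    obtain ⟨d, hd, hd1, hcd⟩ : ∃ d : E4, d ≠ 0 ∧ (∀ i ∈ act u b p, ⟪u i, d⟫_ℝ = 0) ∧
        0 ≤ ⟪c, d⟫_ℝ := by
      rcases le_total 0 ⟪c, d0⟫_ℝ with h1 | h1
      · exact ⟨d0, hd00, hd0, h1⟩
      · refine ⟨-d0, neg_ne_zero.mpr hd00, fun i hi => ?_, ?_⟩
        · rw [inner_neg_right, hd0 i hi, neg_zero]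
        · rw [inner_neg_right]
          linarith
    obtain ⟨t, ht, hq, j, hj, hj'⟩ := move' h hp hd fun i hi => (hd1 i hi).le
    have hsub : act u b p ⊆ act u b (p + t • d) := by
      intro i hi
      rw [mem_act, inner_add_smul, hd1 i hi, mul_zero, add_zero]
      exact mem_act.mp hi
    have hss : act u b p ⊂ act u b (p + t • d) :=
      (ssubset_iff_of_subset hsub).mpr ⟨j, hj', hj⟩
    have hlt2 := card_lt_card hss
    have hle2 := card_le_univ (act u b (p + t • d))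
    obtain ⟨q, hq1, hq2, hq3⟩ := ih (Fintype.card ι - (act u b (p + t • d)).card) (by omega) hq rfl
    refine ⟨q, hq1, hsub.trans hq2, le_trans ?_ hq3⟩
    rw [inner_add_right, inner_smul_right]
    have := mul_nonneg ht.le hcd
    linarith

theorem vx_eq {p q : E4} (hp : Vx u b p) (h : act u b p ⊆ act u b q) : q = p := by
  have h1 := hp.2 (q - p) fun i hi => by
    rw [inner_sub_right, mem_act.mp hi, mem_act.mp (h hi), sub_self]
  exact sub_eq_zero.mp h1

end Kv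

open Kv in
/-- **Every 2-face has at least three vertices.** -/
theorem t_Kv3 : StmtKv3 := by
  classical
  intro ι _ _ u b h e he
  have he' : e.card = 2 ∧ ∃ q ∈ Poly u b, act u b q = e := by
    unfold tf at he
    exact (mem_filter.1 he).2
  obtain ⟨he2, q0, hq0, hqa⟩ := he'
  by_contra hcon
  have hcard : ((vts u b).filter fun s => e ⊆ s).card ≤ 2 := by
    have : kv u b e < 3 := not_le.1 hcon
    unfold kv at this
    omega
  have hmem : ∀ p, Vx u b p → e ⊆ act u b p → act u b p ∈ (vts u b).filter fun s => e ⊆ s := by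
    intro p hp hep
    refine mem_filter.2 ⟨?_, hep⟩
    unfold vts
    exact mem_filter.2 ⟨mem_univ _, p, hp, rfl⟩
  obtain ⟨p1, hp1, hp1a, -⟩ := up h.bdd 0 hq0
  rw [hqa] at hp1a
  obtain ⟨p2, hp2⟩ : ∃ p2, ∀ q, Vx u b q → e ⊆ act u b q → q = p1 ∨ q = p2 := by
    by_cases hex : ∃ p2, Vx u b p2 ∧ e ⊆ act u b p2 ∧ p2 ≠ p1
    · obtain ⟨p2, h1, h2, h3⟩ := hex
      refine ⟨p2, fun q hq hqe => ?_⟩
      by_contra hne
      push Not at hne
      have h4 : ({act u b p1, act u b p2, act u b q} : Finset (Finset ι)) ⊆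
          (vts u b).filter fun s => e ⊆ s := by
        intro s hs
        simp only [mem_insert, mem_singleton] at hs
        rcases hs with rfl | rfl | rfl
        · exact hmem _ hp1 hp1a
        · exact hmem _ h1 h2
        · exact hmem _ hq hqe
      have h5 : ({act u b p1, act u b p2, act u b q} : Finset (Finset ι)).card = 3 := by
        rw [card_eq_three]
        exact ⟨_, _, _, fun e1 => h3 (vx_eq hp1 e1.le), fun e1 => hne.1 (vx_eq hp1 e1.le),
          fun e1 => hne.2 (vx_eq h1 e1.le), rfl⟩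
      have h6 := card_le_card h4
      omega
    · refine ⟨p1, fun q hq hqe => ?_⟩
      by_contra hne
      exact hex ⟨q, hq, hqe, fun e1 => hne (Or.inl e1)⟩
  obtain ⟨a, c, hac, rfl⟩ := card_eq_two.1 he2
  obtain ⟨d, hd0, hd⟩ := exists_orth (ι := Fin 3) ![u a, u c, p2 - p1] (by
    have h1 := finrank_range_le_card (R := ℝ) (![u a, u c, p2 - p1] : Fin 3 → E4)
    rw [Fintype.card_fin, Set.finrank] at h1
    omega)
  have hda : ⟪u a, d⟫_ℝ = 0 := hd 0
  have hdc : ⟪u c, d⟫_ℝ = 0 := hd 1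
  have hdp : ⟪p2 - p1, d⟫_ℝ = 0 := hd 2
  have hall : ∀ q, Vx u b q → {a, c} ⊆ act u b q → ⟪d, q⟫_ℝ = ⟪d, p1⟫_ℝ := by
    intro q hq hqe
    rcases hp2 q hq hqe with rfl | rfl
    · rfl
    · rw [real_inner_comm, inner_sub_right, sub_eq_zero] at hdp
      exact hdp
  have hd1 : ∀ i ∈ act u b q0, ⟪u i, d⟫_ℝ = 0 := by
    intro i hi
    rw [hqa, mem_insert, mem_singleton] at hi
    rcases hi with rfl | rfl
    · exact hda
    · exact hdc
  obtain ⟨t, ht, hy, -⟩ := move' h.bdd hq0 hd0 fun i hi => (hd1 i hi).le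
  have hsub : act u b q0 ⊆ act u b (q0 + t • d) := by
    intro i hi
    rw [mem_act, inner_add_smul, hd1 i hi, mul_zero, add_zero]
    exact mem_act.mp hi
  obtain ⟨q1, hq1, hq1a, hq1c⟩ := up h.bdd d hy
  obtain ⟨q2, hq2, hq2a, hq2c⟩ := up h.bdd (-d) hq0
  have e1 := hall q1 hq1 (by rw [← hqa]; exact hsub.trans hq1a)
  have e2 := hall q2 hq2 (by rw [← hqa]; exact hq2a)
  rw [inner_add_right, inner_smul_right, real_inner_self_eq_norm_sq, e1] at hq1c
  rw [inner_neg_left, inner_neg_left, e2] at hq2c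
  have h7 : 0 < t * ‖d‖ ^ 2 := mul_pos ht (pow_pos (norm_pos_iff.2 hd0) 2)
  linarith

end Pool.Agent.F32.G4
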