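import Pool.Agent.F32.Gen4

/-!
# F32: UNI, a tet is below at most one vertex (helper46)
-/

set_option autoImplicit false

namespace Pool.Agent.F32.G4

open Finset QMark
open scoped InnerProductSpace

theorem t_Uni : StmtUni := by
  classical
  intro ι _ _ u b b2 hsp t ht s hs s' hs' hts hts'
  obtain ⟨hcard, p, hp, hpt⟩ := mem_tets.1 ht
  simp only [vts, mem_filter, mem_univ, true_and] at hs hs'
  obtain ⟨q, -, rfl⟩ := hs
  obtain ⟨q', -, rfl⟩ := hs'
  have hli := QMark.indep hsp hp
  rw [hpt] at hli
  have hne : Nonempty t := by
    have : t.Nonempty := by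
      rw [← card_pos, hcard]
      norm_num
    exact this.to_subtype
  have hspan : Submodule.span ℝ (Set.range fun i : t => u i) = ⊤ := by
    apply hli.span_eq_top_of_card_eq_finrank
    rw [Fintype.card_coe, hcard, finrank_euclideanSpace_fin]
  have h0 : q - q' = 0 := by
    have h1 : ∀ x ∈ Submodule.span ℝ (Set.range fun i : t => u i), ⟪x, q - q'⟫_ℝ = 0 := by
      intro x hx
      induction hx using Submodule.span_induction with
      | mem x hx =>
        obtain ⟨i, rfl⟩ := hx
        have e1 := mem_act.1 (hts i.2)
        have e2 := mem_act.1 (hts' i.2)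
        rw [inner_sub_right, e1, e2, sub_self]
      | zero => rw [inner_zero_left]
      | add x y _ _ hx hy => rw [inner_add_left, hx, hy, add_zero]
      | smul a x _ hx => rw [inner_smul_left, hx, mul_zero]
    have h2 := h1 (q - q') (by rw [hspan]; exact Submodule.mem_top)
    exact inner_self_eq_zero.1 h2
  rw [sub_eq_zero.1 h0]

end Pool.Agent.F32.G4
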