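import Pool.Agent.F32.H_In3

/-!
# F32, ADJ: two adjacent tets below every non-simple vertex (helper40)
-/

set_option autoImplicit false

namespace Pool.Agent.F32.H4

open Finset QMark Filter Topology Pool.Agent.F32.G4
open scoped InnerProductSpace

namespace H40a

variable {ι : Type} [Fintype ι] [DecidableEq ι] {u : ι → E4} {b : ι → ℝ}

omit [Fintype ι] in
theorem orth4 {σ : Finset ι} (h4 : σ.card = 4) (hi : Ind u σ) {r : E4}
    (hr : ∀ i ∈ σ, ⟪u i, r⟫_ℝ = 0) : r = 0 := by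
  have hne : Nonempty σ := by
    rw [nonempty_coe_sort, ← card_pos, h4]
    norm_num
  have h1 := (ind_iff.1 hi).span_eq_top_of_card_eq_finrank (by
    rw [Fintype.card_coe, h4, finrank_euclideanSpace_fin])
  have h2 : r ∈ (⊤ : Submodule ℝ E4)ᗮ := by
    rw [← h1, Submodule.mem_orthogonal]
    intro v hv
    induction hv using Submodule.span_induction with
    | mem x hx =>
      obtain ⟨i, rfl⟩ := hx
      exact hr i.1 i.2
    | zero => simp
    | add x y _ _ hx hy => rw [inner_add_left, hx, hy, add_zero]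
    | smul a x _ hx => rw [inner_smul_left, hx, mul_zero]
  rw [Submodule.top_orthogonal_eq_bot] at h2
  simpa using h2

omit [Fintype ι] in
/-- the dual basis, with the sign changed -/
theorem dual (σ : Finset ι) (i0 : ι) : ∃ d : E4, Ind u σ → i0 ∈ σ →
    ∀ i ∈ σ, ⟪u i, d⟫_ℝ = if i = i0 then -1 else 0 := by
  by_cases h : Ind u σ
  · obtain ⟨d, hd⟩ := exists_inner (fun i : σ => u i) (ind_iff.1 h)
      (fun i => if i.1 = i0 then -1 else 0)
    exact ⟨d, fun _ _ i hi => hd ⟨i, hi⟩⟩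
  · exact ⟨0, fun h' => absurd h' h⟩

/-- one of the four directions raises `u j` -/
theorem up (hP : P4 u b) {p : E4} {σ : Finset ι} (h4 : σ.card = 4) (hi : Ind u σ)
    (hp : ∀ i ∈ σ, ⟪u i, p⟫_ℝ = b i) {j : ι} (hj : j ∉ σ) (hjp : ⟪u j, p⟫_ℝ = b j)
    {dd : ι → E4} (hdd : ∀ i0 ∈ σ, ∀ i ∈ σ, ⟪u i, dd i0⟫_ℝ = if i = i0 then -1 else 0) :
    ∃ i0 ∈ σ, 0 < ⟪u j, dd i0⟫_ℝ := by
  by_contra hc
  push Not at hc
  have hexp : ∀ x : E4, x = -∑ i0 ∈ σ, ⟪u i0, x⟫_ℝ • dd i0 := by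
    intro x
    have h1 := orth4 h4 hi (r := x + ∑ i0 ∈ σ, ⟪u i0, x⟫_ℝ • dd i0) (by
      intro i his
      rw [inner_add_right, inner_sum]
      have h2 : ∑ i0 ∈ σ, ⟪u i, ⟪u i0, x⟫_ℝ • dd i0⟫_ℝ = -⟪u i, x⟫_ℝ := by
        rw [sum_eq_single_of_mem i his]
        · rw [inner_smul_right, hdd i his i his, if_pos rfl]
          ring
        · intro i0 hi0 hne
          rw [inner_smul_right, hdd i0 hi0 i his, if_neg hne.symm, mul_zero]
      rw [h2, add_neg_cancel])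
    exact eq_neg_of_add_eq_zero_left h1
  obtain ⟨x, hx, hxa⟩ := hP.facet j
  have hxj : ⟪u j, x⟫_ℝ = b j := by
    rw [← mem_act, hxa]
    exact mem_singleton_self _
  have h1 : ⟪u j, x - p⟫_ℝ = 0 := by
    rw [inner_sub_right, hxj, hjp, sub_self]
  have h2 : ⟪u j, x - p⟫_ℝ = ∑ i0 ∈ σ, (b i0 - ⟪u i0, x⟫_ℝ) * ⟪u j, dd i0⟫_ℝ := by
    conv_lhs => rw [hexp (x - p)]
    rw [inner_neg_right, inner_sum, ← sum_neg_distrib]
    refine sum_congr rfl fun i0 hi0 => ?_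
    rw [inner_smul_right, inner_sub_right, hp i0 hi0]
    ring
  rw [h1] at h2
  have h3 : ∀ i0 ∈ σ, (b i0 - ⟪u i0, x⟫_ℝ) * ⟪u j, dd i0⟫_ℝ ≤ 0 := fun i0 hi0 =>
    mul_nonpos_of_nonneg_of_nonpos (sub_nonneg.2 (hx i0)) (hc i0 hi0)
  have h4' := (sum_eq_zero_iff_of_nonpos h3).1 h2.symm
  have h5 : ∀ i0 ∈ σ, ⟪u j, dd i0⟫_ℝ = 0 := by
    intro i0 hi0
    refine (mul_eq_zero.1 (h4' i0 hi0)).resolve_left fun h0 => ?_
    have h6 : i0 ∈ act u b x := mem_act.2 (sub_eq_zero.1 h0).symm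
    rw [hxa, mem_singleton] at h6
    exact hj (h6 ▸ hi0)
  have h6 : ⟪u j, u j⟫_ℝ = 0 := by
    have h7 : ⟪u j, -∑ i0 ∈ σ, ⟪u i0, u j⟫_ℝ • dd i0⟫_ℝ = 0 := by
      rw [inner_neg_right, inner_sum, sum_eq_zero, neg_zero]
      intro i0 hi0
      rw [inner_smul_right, h5 i0 hi0, mul_zero]
    rwa [← hexp (u j)] at h7
  exact H61.u_ne hP j (inner_self_eq_zero.1 h6)

end H40a

open H40a

/-- **ADJ.** -/
theorem t_Adj (hCl : S_Cl) (hTet : S_Tet) (hEmp : S_Emp) : S_Adj := by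
  intro ι _ _ u b hP η
  obtain ⟨C, hC, hCe⟩ := hCl ι u b hP η
  have hTe := hTet ι u b hP η
  have hp : ∀ s : Finset ι, ∃ p, s ∈ vts u b → Vx u b p ∧ act u b p = s := by
    intro s
    by_cases hs : s ∈ vts u b
    · obtain ⟨p, h1, h2⟩ := H61.mem_vts.1 hs
      exact ⟨p, fun _ => ⟨h1, h2⟩⟩
    · exact ⟨0, fun h => absurd h hs⟩
  choose pt hpt using hp
  choose dd hdd using fun (σ : Finset ι) (i0 : ι) => dual (u := u) σ i0
  have ev : ∀ᶠ t in 𝓝[>] (0 : ℝ), ∀ (s σ : Finset ι) (i0 j i : ι), s ∈ vts u b → i ∉ s →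
      ⟪u i, pt s⟫_ℝ + t * (‖u i‖ * (C + (|η j| + ‖u j‖ * C) / ⟪u j, dd σ i0⟫_ℝ * ‖dd σ i0‖)) <
        b i + t * η i := by
    rw [eventually_all]
    intro s
    rw [eventually_all]
    intro σ
    rw [eventually_all]
    intro i0
    rw [eventually_all]
    intro j
    rw [eventually_all]
    intro i
    by_cases hs : s ∈ vts u b ∧ i ∉ s
    · have h1 : ⟪u i, pt s⟫_ℝ < b i := by
        obtain ⟨h2, h3⟩ := hpt s hs.1
        refine lt_of_le_of_ne (h2.1 i) fun he => hs.2 ?_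
        rw [← h3]
        exact mem_act.mpr he
      filter_upwards [ev_lt h1] with t ht _ _
      exact ht
    · exact Eventually.of_forall fun t h1 h2 => absurd ⟨h1, h2⟩ hs
  filter_upwards [hCe, hTe, ev, self_mem_nhdsWithin] with t hCt hTt hev ht0 hG
  intro s hs h5
  replace ht0 : 0 < t := ht0
  obtain ⟨hV, hact⟩ := hpt s hs
  obtain ⟨t1, ht1, -, ht1s⟩ := hTt hG ∅ (hEmp ι u b hP)
    (fun c _ i hi => absurd hi (notMem_empty i)) s hs (empty_subset _)
  obtain ⟨h4, q1, hq1, hqa⟩ := mem_tets.mp ht1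
  have hI : Ind u t1 := hqa ▸ hG.2 q1
  have hps : ∀ i ∈ s, ⟪u i, pt s⟫_ℝ = b i := fun i hi => by
    rw [← mem_act, hact]
    exact hi
  have hqp : ‖q1 - pt s‖ ≤ C * t := by
    obtain ⟨p', hp', hsub, hn⟩ := hCt hG q1 hq1 (by rw [hqa]; exact h4)
    have h5 : p' = pt s := by
      have h6 := orth4 h4 hI (r := p' - pt s) fun i hi => by
        rw [hqa] at hsub
        rw [inner_sub_right, mem_act.mp (hsub hi), hps i (ht1s hi), sub_self]
      exact sub_eq_zero.mp h6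
    rw [← h5]
    exact hn
  -- a facet at the vertex which is not in the tet
  obtain ⟨j, hjs, hj⟩ : ∃ j ∈ s, j ∉ t1 := by
    by_contra hc
    push Not at hc
    have := card_le_card (show s ⊆ t1 from fun i hi => hc i hi)
    omega
  obtain ⟨i0, hi0, hup⟩ := up hP h4 hI (fun i hi => hps i (ht1s hi)) hj (hps j hjs)
    (dd := dd t1) (fun i0 hi0 => hdd t1 i0 hI hi0)
  have hdi := hdd t1 i0 hI hi0
  set d := dd t1 i0 with hd
  have hd0 : d ≠ 0 := by
    intro h0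
    rw [h0, inner_zero_right] at hup
    exact lt_irrefl _ hup
  obtain ⟨τ, hτ, hq2, j', hj'1, hj'2⟩ := move hG.1 hq1 hd0 (by
    intro i hi
    rw [hqa] at hi
    rw [hdi i hi]
    split_ifs <;> norm_num)
  set q2 := q1 + τ • d with hq2d
  rw [hqa] at hj'1
  have hτle : τ ≤ t * ((|η j| + ‖u j‖ * C) / ⟪u j, d⟫_ℝ) := by
    have h6 := hq2 j
    rw [hq2d, inner_add_smul] at h6
    have h7 : |⟪u j, q1 - pt s⟫_ℝ| ≤ ‖u j‖ * (C * t) :=
      (abs_real_inner_le_norm _ _).trans (mul_le_mul_of_nonneg_left hqp (norm_nonneg _))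
    rw [inner_sub_right, hps j hjs] at h7
    have h8 := (abs_le.mp h7).1
    have h9 : t * η j ≤ t * |η j| := mul_le_mul_of_nonneg_left (le_abs_self _) ht0.le
    have h10 : τ * ⟪u j, d⟫_ℝ ≤ t * (|η j| + ‖u j‖ * C) := by
      have h11 : bt b η t j = b j + t * η j := rfl
      rw [h11] at h6
      nlinarith
    rw [← mul_div_assoc, le_div_iff₀ hup]
    exact h10
  have hq2p : ‖q2 - pt s‖ ≤ (C + (|η j| + ‖u j‖ * C) / ⟪u j, d⟫_ℝ * ‖d‖) * t := by
    have h6 : q2 - pt s = (q1 - pt s) + τ • d := by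
      rw [hq2d]
      abel
    rw [h6]
    refine (norm_add_le _ _).trans ?_
    rw [norm_smul, Real.norm_of_nonneg hτ.le]
    have h7 := mul_le_mul_of_nonneg_right hτle (norm_nonneg d)
    nlinarith
  have hj's : j' ∈ s := by
    by_contra hc
    have h6 := hev s t1 i0 j j' hs hc
    have h7 : ⟪u j', q2 - pt s⟫_ℝ ≤
        ‖u j'‖ * ((C + (|η j| + ‖u j‖ * C) / ⟪u j, d⟫_ℝ * ‖d‖) * t) :=
      (real_inner_le_norm _ _).trans (mul_le_mul_of_nonneg_left hq2p (norm_nonneg _))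
    rw [inner_sub_right, mem_act.mp hj'2] at h7
    unfold bt at h7
    rw [← hd] at h6
    nlinarith
  have hsub2 : insert j' (t1.erase i0) ⊆ act u (bt b η t) q2 := by
    intro i hi
    rw [mem_insert, mem_erase] at hi
    rcases hi with rfl | ⟨hi1, hi2⟩
    · exact hj'2
    · rw [mem_act, hq2d, inner_add_smul, hdi i hi2, if_neg hi1, mul_zero, add_zero]
      rw [← mem_act, hqa]
      exact hi2
  have hjne : j' ∉ t1.erase i0 := fun h => hj'1 (mem_of_mem_erase h)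
  have hc3 : (t1.erase i0).card = 3 := by
    rw [card_erase_of_mem hi0, h4]
  have hc4 : (insert j' (t1.erase i0)).card = 4 := by
    rw [card_insert_of_notMem hjne, hc3]
  have hact2 : act u (bt b η t) q2 = insert j' (t1.erase i0) := by
    refine (eq_of_subset_of_card_le hsub2 ?_).symm
    rw [hc4]
    exact hG.1.simple _ hq2
  refine ⟨t1, ht1, insert j' (t1.erase i0), mem_tets.2 ⟨hc4, q2, hq2, hact2⟩, ht1s, ?_, ?_⟩
  · intro i hi
    rw [mem_insert] at hi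
    rcases hi with rfl | hi
    · exact hj's
    · exact ht1s (mem_of_mem_erase hi)
  · have h6 : t1 ∩ insert j' (t1.erase i0) = t1.erase i0 := by
      ext i
      simp only [mem_inter, mem_insert, mem_erase]
      constructor
      · rintro ⟨h7, rfl | h8⟩
        · exact absurd h7 hj'1
        · exact h8
      · rintro ⟨h7, h8⟩
        exact ⟨h8, Or.inr ⟨h7, h8⟩⟩
    rw [h6, hc3]

end Pool.Agent.F32.H4
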