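import Pool.Agent.F32.HSt

/-!
# F32, H: closeness (helper70)
-/

set_option autoImplicit false

namespace Pool.Agent.F32.H4

open Finset QMark Filter Topology Pool.Agent.F32.G4
open scoped InnerProductSpace

/-- four independent vectors span the space -/
theorem cl_orth {ι : Type} [Fintype ι] [DecidableEq ι] {u : ι → E4} {σ : Finset ι}
    (h4 : σ.card = 4) (hi : Ind u σ) {r : E4} (hr : ∀ i ∈ σ, ⟪u i, r⟫_ℝ = 0) : r = 0 := by
  have hne : Nonempty σ := by
    rw [nonempty_coe_sort, ← card_pos, h4]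
    norm_num
  have h1 := (ind_iff.1 hi).span_eq_top_of_card_eq_finrank (by
    rw [Fintype.card_coe, h4, finrank_euclideanSpace_fin])
  have h2 : r ∈ (⊤ : Submodule ℝ E4)ᗮ := by
    rw [← h1, Submodule.mem_orthogonal]
    intro v hv
    induction hv using Submodule.span_induction with
    | mem x hx =>
      obtain ⟨i, rfl⟩ := hx
      exact hr i.1 i.2
    | zero => simp
    | add x y _ _ hx hy => rw [inner_add_left, hx, hy, add_zero]
    | smul a x _ hx => rw [inner_smul_left, hx, mul_zero]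
  rw [Submodule.top_orthogonal_eq_bot] at h2
  simpa using h2

/-- **CL.** Closeness. -/
theorem t_Cl : S_Cl := by
  intro ι _ _ u b _ η
  have hp : ∀ σ : Finset ι, ∃ p w : E4, Ind u σ →
      (∀ i ∈ σ, ⟪u i, p⟫_ℝ = b i) ∧ ∀ i ∈ σ, ⟪u i, w⟫_ℝ = η i := by
    intro σ
    by_cases h : Ind u σ
    · obtain ⟨p, hp⟩ := exists_inner (fun i : σ => u i) (ind_iff.1 h) (fun i => b i)
      obtain ⟨w, hw⟩ := exists_inner (fun i : σ => u i) (ind_iff.1 h) (fun i => η i)
      exact ⟨p, w, fun _ => ⟨fun i hi => hp ⟨i, hi⟩, fun i hi => hw ⟨i, hi⟩⟩⟩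
    · exact ⟨0, 0, fun h' => absurd h' h⟩
  choose P w hPw using hp
  refine ⟨1 + ∑ σ : Finset ι, ‖w σ‖, by positivity, ?_⟩
  have hev : ∀ᶠ t in 𝓝[>] (0 : ℝ), ∀ (σ : Finset ι) (i : ι), b i < ⟪u i, P σ⟫_ℝ →
      b i + t * η i < ⟪u i, P σ⟫_ℝ + t * ⟪u i, w σ⟫_ℝ := by
    refine eventually_all.2 fun σ => eventually_all.2 fun i => ?_
    by_cases h : b i < ⟪u i, P σ⟫_ℝ
    · exact (ev_lt h).mono fun t ht _ => ht
    · exact Eventually.of_forall fun t h' => absurd h' h
  filter_upwards [hev, self_mem_nhdsWithin] with t ht ht0 hG q hq h4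
  have ht0' : (0 : ℝ) < t := ht0
  set σ : Finset ι := act u (bt b η t) q with hσ
  have hI : Ind u σ := hG.2 q
  obtain ⟨h1, h2⟩ := hPw σ hI
  have hq2 : q = P σ + t • w σ := by
    have h3 := cl_orth h4 hI (r := q - (P σ + t • w σ)) (by
      intro i hi
      have h5 : ⟪u i, q⟫_ℝ = b i + t * η i := mem_act.1 hi
      rw [inner_sub_right, inner_add_right, inner_smul_right, h5, h1 i hi, h2 i hi, sub_self])
    exact sub_eq_zero.1 h3
  have hsub : σ ⊆ act u b (P σ) := fun i hi => mem_act.2 (h1 i hi)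
  refine ⟨P σ, ⟨fun i => ?_, fun d hd => cl_orth h4 hI fun i hi => hd i (hsub hi)⟩, hsub, ?_⟩
  · by_contra hc
    have h3 := ht σ i (not_le.1 hc)
    have h5 : ⟪u i, q⟫_ℝ ≤ b i + t * η i := hq i
    rw [hq2, inner_add_right, inner_smul_right] at h5
    linarith
  · have h3 : q - P σ = t • w σ := by
      rw [sub_eq_iff_eq_add', ← hq2]
    rw [h3, norm_smul, Real.norm_eq_abs, abs_of_pos ht0', mul_comm]
    refine mul_le_mul_of_nonneg_right ?_ ht0'.le
    have h5 : ‖w σ‖ ≤ ∑ σ : Finset ι, ‖w σ‖ :=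
      single_le_sum (f := fun σ => ‖w σ‖) (fun _ _ => norm_nonneg _) (mem_univ σ)
    linarith

end Pool.Agent.F32.H4
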