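import Pool.Agent.F32.H_In3

/-!
# F32: module Crs, the crossing lemma (helper61)
-/

set_option autoImplicit false

namespace Pool.Agent.F32.H4

open Finset QMark Filter Topology Pool.Agent.F32.G4
open scoped InnerProductSpace

namespace H61

variable {ι : Type} [Fintype ι] [DecidableEq ι] {u : ι → E4} {b : ι → ℝ}

omit [Fintype ι] [DecidableEq ι] in
theorem ind_mono {A B : Finset ι} (h : Ind u B) (hAB : A ⊆ B) : Ind u A := by
  classical
  intro c hc i hi
  have h1 := h (fun j => if j ∈ A then c j else 0) (by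
    rw [← hc]
    simp only [ite_smul, zero_smul]
    rw [sum_ite_mem, inter_eq_right.2 hAB]) i (hAB hi)
  simpa [hi] using h1

omit [Fintype ι] in
/-- four independent equations -/
theorem orth_four {A : Finset ι} (hA : A.card = 4) (hI : Ind u A) {w : E4}
    (hw : ∀ i ∈ A, ⟪u i, w⟫_ℝ = 0) : w = 0 := by
  have hne : Nonempty A := by
    rw [nonempty_coe_sort, ← card_pos, hA]
    norm_num
  have h1 := (ind_iff.1 hI).span_eq_top_of_card_eq_finrank (by
    rw [Fintype.card_coe, hA, finrank_euclideanSpace_fin])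
  have h2 : w ∈ (⊤ : Submodule ℝ E4)ᗮ := by
    rw [← h1, Submodule.mem_orthogonal]
    intro v hv
    induction hv using Submodule.span_induction with
    | mem x hx =>
      obtain ⟨i, rfl⟩ := hx
      exact hw i.1 i.2
    | zero => simp
    | add x y _ _ hx hy => rw [inner_add_left, hx, hy, add_zero]
    | smul a x _ hx => rw [inner_smul_left, hx, mul_zero]
  rw [Submodule.top_orthogonal_eq_bot] at h2
  simpa using h2

/-- the active set of a point between two points of the polytope -/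
theorem seg_act {x y z o d : E4} {α β γ : ℝ} (hx : x ∈ Poly u b) (hz : z ∈ Poly u b)
    (ex : x = o + α • d) (ey : y = o + β • d) (ez : z = o + γ • d) (h1 : α < β) (h2 : β < γ) :
    act u b y ⊆ act u b x ∧ act u b y ⊆ act u b z := by
  have hpos : 0 < γ - α := by linarith
  have h0 : 0 < (β - α) / (γ - α) := div_pos (by linarith) hpos
  have h3 : (β - α) / (γ - α) < 1 := by rw [div_lt_one hpos]; linarith
  have he : y = x + ((β - α) / (γ - α)) • (z - x) := by
    rw [ex, ey, ez]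
    have h5 : o + γ • d - (o + α • d) = (γ - α) • d := by
      rw [sub_smul]; abel
    rw [h5, smul_smul, div_mul_cancel₀ _ hpos.ne', sub_smul]
    abel
  rw [he]
  exact ⟨fun i hi => ((act_seg hx hz h0 h3 i).1 hi).1, fun i hi => ((act_seg hx hz h0 h3 i).1 hi).2⟩

/-- the crossing point of one edge -/
theorem cross {c q1 q2 : E4} {γ : ℝ} {t1 t2 y : Finset ι} (h1 : q1 ∈ Poly u b)
    (h2 : q2 ∈ Poly u b) (a1 : act u b q1 = t1) (a2 : act u b q2 = t2) (c1 : t1.card = 4)
    (c2 : t2.card = 4) (hne : t1 ≠ t2) (hy : y.card = 3) (y1 : y ⊆ t1) (y2 : y ⊆ t2)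
    (g1 : γ < ⟪c, q1⟫_ℝ) (g2 : ⟪c, q2⟫_ℝ < γ) :
    ∃ z ∈ Poly u b, act u b z = y ∧ ⟪c, z⟫_ℝ = γ := by
  have hpos : 0 < ⟪c, q1⟫_ℝ - ⟪c, q2⟫_ℝ := by linarith
  set τ : ℝ := (⟪c, q1⟫_ℝ - γ) / (⟪c, q1⟫_ℝ - ⟪c, q2⟫_ℝ) with hτ
  have h0 : 0 < τ := div_pos (by linarith) hpos
  have h3 : τ < 1 := by rw [hτ, div_lt_one hpos]; linarith
  refine ⟨q1 + τ • (q2 - q1), seg_mem h1 h2 h0.le h3.le, ?_, ?_⟩
  · have h4 : act u b (q1 + τ • (q2 - q1)) = t1 ∩ t2 := by
      ext i
      rw [act_seg h1 h2 h0 h3, mem_inter, a1, a2]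
    rw [h4]
    symm
    refine eq_of_subset_of_card_le (subset_inter y1 y2) ?_
    rw [hy]
    have h5 : t1 ∩ t2 ⊂ t1 := by
      rw [ssubset_iff_subset_ne]
      refine ⟨inter_subset_left, fun h => hne ?_⟩
      exact eq_of_subset_of_card_le (inter_eq_left.1 h) (by rw [c1, c2])
    have := card_lt_card h5
    omega
  · rw [inner_add_right, inner_smul_right, inner_sub_right, hτ]
    field_simp
    ring

end H61

open H61

/-- CRS. -/
theorem t_Crs (hCl : S_Cl) : S_Crs := by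
  classical
  intro ι _ _ u b h η
  obtain ⟨C, hC, hev⟩ := hCl ι u b h η
  -- points, separating functionals
  have hsel : ∀ s : Finset ι, ∃ (p c : E4) (γ : ℝ), s ∈ vts u b → Vx u b p ∧ act u b p = s ∧
      γ < ⟪c, p⟫_ℝ ∧ ∀ p', Vx u b p' → p' ≠ p → ⟪c, p'⟫_ℝ < γ := by
    intro s
    by_cases hs : s ∈ vts u b
    · obtain ⟨p, hp, hps⟩ := mem_vts.1 hs
      obtain ⟨c, γ, h1, h2⟩ := t_Gap ι u b h p hp
      exact ⟨p, c, γ, fun _ => ⟨hp, hps, h1, h2⟩⟩
    · exact ⟨0, 0, 0, fun hc => absurd hc hs⟩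
  choose pt c γ hpt using hsel
  have hsm : ∀ᶠ t in 𝓝[>] (0 : ℝ), ∀ s s' : Finset ι, s ∈ vts u b → s' ∈ vts u b →
      ‖c s‖ * (C * t) < |⟪c s, pt s'⟫_ℝ - γ s| := by
    rw [eventually_all]
    intro s
    rw [eventually_all]
    intro s'
    by_cases hs : s ∈ vts u b
    · by_cases hs' : s' ∈ vts u b
      · obtain ⟨v1, e1, l1, l2⟩ := hpt s hs
        obtain ⟨v2, e2, -, -⟩ := hpt s' hs'
        have hpos : 0 < |⟪c s, pt s'⟫_ℝ - γ s| := by
          rw [abs_pos]
          by_cases he : pt s' = pt s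
          · rw [he]; linarith
          · have := l2 _ v2 he
            linarith
        filter_upwards [ev_lt (y := ‖c s‖ * C) (d := 0) hpos] with t ht _ _
        nlinarith
      · exact Eventually.of_forall fun t _ hc => absurd hc hs'
    · exact Eventually.of_forall fun t hc => absurd hc hs
  filter_upwards [hev, hsm] with t ht1 ht2 hG s hs e he
  have hcl := ht1 hG
  obtain ⟨hSP, hInd⟩ := hG
  obtain ⟨vs, es, gs, gs'⟩ := hpt s hs
  set b2 := bt b η t with hb2
  -- points near to `p` and far from `p`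
  have hnear : ∀ q ∈ Poly u b2, (act u b2 q).card = 4 → act u b2 q ⊆ s → γ s < ⟪c s, q⟫_ℝ := by
    intro q hq h4 hsub
    obtain ⟨p', v', hsub', hn⟩ := hcl q hq h4
    have hpp : p' = pt s := by
      refine sub_eq_zero.1 (orth_four h4 (hInd q) fun i hi => ?_)
      have h5 : i ∈ act u b (pt s) := by rw [es]; exact hsub hi
      rw [inner_sub_right, mem_act.1 (hsub' hi), mem_act.1 h5, sub_self]
    rw [hpp] at hn
    have h6 := ht2 s s hs hs
    rw [abs_of_pos (by linarith)] at h6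
    have h7 : |⟪c s, q - pt s⟫_ℝ| ≤ ‖c s‖ * (C * t) :=
      (abs_real_inner_le_norm _ _).trans (mul_le_mul_of_nonneg_left hn (norm_nonneg _))
    rw [inner_sub_right, abs_le] at h7
    linarith [h7.1]
  have hfar : ∀ q ∈ Poly u b2, (act u b2 q).card = 4 → ¬ act u b2 q ⊆ s → ⟪c s, q⟫_ℝ < γ s := by
    intro q hq h4 hsub
    obtain ⟨p', v', hsub', hn⟩ := hcl q hq h4
    have hs' : act u b p' ∈ vts u b := mem_vts.2 ⟨p', v', rfl⟩
    obtain ⟨v2, e2, -, -⟩ := hpt _ hs'
    have hp2 : pt (act u b p') = p' := vx_eq v' (by rw [e2])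
    have hne : p' ≠ pt s := by
      intro hc
      rw [hc, es] at hsub'
      exact hsub hsub'
    have h5 := gs' p' v' hne
    have h6 := ht2 s _ hs hs'
    rw [hp2, abs_of_neg (by linarith)] at h6
    have h7 : |⟪c s, q - p'⟫_ℝ| ≤ ‖c s‖ * (C * t) :=
      (abs_real_inner_le_norm _ _).trans (mul_le_mul_of_nonneg_left hn (norm_nonneg _))
    rw [inner_sub_right, abs_le] at h7
    linarith [h7.2]
  -- the crossing points
  have hcr : ∀ k ∈ crs u b2 s e, (∃ z ∈ Poly u b2, act u b2 z = insert k e ∧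
      ⟪c s, z⟫_ℝ = γ s) ∧ k ∉ e ∧ Ind u e ∧ ∃ v : E4, (∀ i ∈ e, ⟪u i, v⟫_ℝ = 0) ∧
        ⟪c s, v⟫_ℝ ≠ 0 := by
    intro k hk
    unfold crs at hk
    rw [mem_filter] at hk
    obtain ⟨-, hke, t1, ht1', t2, ht2', k1, k2, k3, k4⟩ := hk
    obtain ⟨c1, q1, hq1, a1⟩ := mem_tets.1 ht1'
    obtain ⟨c2, q2, hq2, a2⟩ := mem_tets.1 ht2'
    have g1 := hnear q1 hq1 (by rw [a1, c1]) (by rw [a1]; exact k3)
    have g2 := hfar q2 hq2 (by rw [a2, c2]) (by rw [a2]; exact k4)
    refine ⟨cross hq1 hq2 a1 a2 c1 c2 (fun hc => k4 (hc ▸ k3))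
      (by rw [card_insert_of_notMem hke, he]) k1 k2 g1 g2, hke, ?_, q1 - q2, ?_, ?_⟩
    · refine ind_mono (hInd q1) ?_
      rw [a1]
      exact (subset_insert _ _).trans k1
    · intro i hi
      have i1 : i ∈ act u b2 q1 := by rw [a1]; exact k1 (mem_insert_of_mem hi)
      have i2 : i ∈ act u b2 q2 := by rw [a2]; exact k2 (mem_insert_of_mem hi)
      rw [inner_sub_right, mem_act.1 i1, mem_act.1 i2, sub_self]
    · rw [inner_sub_right]
      linarith
  by_contra hcon
  rw [not_le, two_lt_card] at hcon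
  obtain ⟨k1, hk1, k2, hk2, k3, hk3, h12, h13, h23⟩ := hcon
  obtain ⟨⟨z1, m1, a1, g1⟩, n1, hIe, v, hv, hcv⟩ := hcr k1 hk1
  obtain ⟨⟨z2, m2, a2, g2⟩, n2, -⟩ := hcr k2 hk2
  obtain ⟨⟨z3, m3, a3, g3⟩, n3, -⟩ := hcr k3 hk3
  -- the line
  set u' : Option ι → E4 := fun o => o.elim (c s) u with hu'
  have hI' : Ind u' (insertNone e) := by
    intro a ha
    rw [sum_insertNone] at ha
    simp only [hu', Option.elim_none, Option.elim_some] at ha
    have h1 : a none * ⟪c s, v⟫_ℝ = 0 := by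
      have h2 : ⟪a none • c s + ∑ x ∈ e, a (some x) • u x, v⟫_ℝ = 0 := by
        rw [ha, inner_zero_left]
      rw [inner_add_left, real_inner_smul_left, sum_inner] at h2
      have h3 : ∑ x ∈ e, ⟪a (some x) • u x, v⟫_ℝ = 0 :=
        sum_eq_zero fun x hx => by rw [real_inner_smul_left, hv x hx, mul_zero]
      rw [h3, add_zero] at h2
      exact h2
    have h2 : a none = 0 := (mul_eq_zero.1 h1).resolve_right hcv
    rw [h2, zero_smul, zero_add] at ha
    have h3 := hIe (fun x => a (some x)) ha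
    intro o ho
    cases o with
    | none => exact h2
    | some x => exact h3 x (by simpa using ho)
  obtain ⟨d, hd0, hd⟩ := line (u := u') (A := insertNone e) (by rw [card_insertNone, he]) hI'
  have hor : ∀ (k : ι) (z : E4), act u b2 z = insert k e → ⟪c s, z⟫_ℝ = γ s →
      ∃ α : ℝ, z - z1 = α • d := by
    intro k z ha hg
    refine hd _ fun o ho => ?_
    cases o with
    | none =>
      change ⟪c s, z - z1⟫_ℝ = 0
      rw [inner_sub_right, hg, g1, sub_self]
    | some x =>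
      have hx : x ∈ e := by simpa using ho
      change ⟪u x, z - z1⟫_ℝ = 0
      have i1 : x ∈ act u b2 z := by rw [ha]; exact mem_insert_of_mem hx
      have i2 : x ∈ act u b2 z1 := by rw [a1]; exact mem_insert_of_mem hx
      rw [inner_sub_right, mem_act.1 i1, mem_act.1 i2, sub_self]
  obtain ⟨α, hα⟩ := hor k2 z2 a2 g2
  obtain ⟨β, hβ⟩ := hor k3 z3 a3 g3
  have f1 : z1 = z1 + (0 : ℝ) • d := by rw [zero_smul, add_zero]
  have f2 : z2 = z1 + α • d := by rw [← hα]; abel
  have f3 : z3 = z1 + β • d := by rw [← hβ]; abel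
  have hno : ∀ (k k' : ι), k ≠ k' → k ∉ e → ¬ (insert k e : Finset ι) ⊆ insert k' e := by
    intro k k' hkk hk hsub
    have := hsub (mem_insert_self k e)
    rw [mem_insert] at this
    rcases this with h | h
    · exact hkk h
    · exact hk h
  have n12 : ¬ act u b2 z1 ⊆ act u b2 z2 := by rw [a1, a2]; exact hno _ _ h12 n1
  have n21 : ¬ act u b2 z2 ⊆ act u b2 z1 := by rw [a1, a2]; exact hno _ _ h12.symm n2
  have n31 : ¬ act u b2 z3 ⊆ act u b2 z1 := by rw [a1, a3]; exact hno _ _ h13.symm n3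
  have w1 : (0 : ℝ) ≠ α := by
    intro h0
    rw [← h0, ← f1] at f2
    exact n12 (by rw [f2])
  have w2 : (0 : ℝ) ≠ β := by
    intro h0
    rw [← h0, ← f1] at f3
    exact n31 (by rw [f3])
  have w3 : α ≠ β := by
    intro h0
    rw [← h0, ← f2] at f3
    rw [f3] at a3
    exact hno _ _ h23 n2 (by rw [← a2, a3])
  rcases lt_or_gt_of_ne w1 with i1 | i1 <;> rcases lt_or_gt_of_ne w2 with i2 | i2 <;>
    rcases lt_or_gt_of_ne w3 with i3 | i3
  · exact n21 (seg_act m1 m3 f1 f2 f3 i1 i3).1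
  · exact n31 (seg_act m1 m2 f1 f3 f2 i2 i3).1
  · linarith
  · exact n12 (seg_act m3 m2 f3 f1 f2 i2 i1).2
  · exact n12 (seg_act m2 m3 f2 f1 f3 i1 i2).1
  · linarith
  · exact n31 (seg_act m2 m1 f2 f3 f1 i3 i2).2
  · exact n21 (seg_act m3 m1 f3 f2 f1 i3 i1).2

end Pool.Agent.F32.H4
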