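import Pool.Agent.F32.HSt

/-!
# F32: boundedness and generic perturbations (helper31)
-/

set_option autoImplicit false

namespace Pool.Agent.F32.H4

open Finset QMark Filter Topology Pool.Agent.F32.G4
open scoped InnerProductSpace

namespace Eta

variable {ι : Type} [Fintype ι] [DecidableEq ι] {u : ι → E4} {b : ι → ℝ}

omit [Fintype ι] [DecidableEq ι] in
theorem exists_pos' (h : Bornology.IsBounded (Poly u b)) {p d : E4} (hp : p ∈ Poly u b)
    (hd : d ≠ 0) : ∃ j, 0 < ⟪u j, d⟫_ℝ := by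
  by_contra hc
  push Not at hc
  obtain ⟨R, hR⟩ := h.subset_closedBall (0 : E4)
  have hdn : 0 < ‖d‖ := norm_pos_iff.mpr hd
  have hR0 : 0 ≤ R := by
    have := hR hp
    rw [mem_closedBall_zero_iff] at this
    exact (norm_nonneg _).trans this
  set t : ℝ := (R + ‖p‖ + 1) / ‖d‖ with ht
  have ht0 : 0 ≤ t := by positivity
  have hm : p + t • d ∈ Poly u b := by
    intro i
    rw [inner_add_right, inner_smul_right]
    have h1 := hp i
    have h2 := mul_nonneg ht0 (neg_nonneg.mpr (hc i))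
    linarith
  have h3 := hR hm
  rw [mem_closedBall_zero_iff] at h3
  have h4 : ‖t • d‖ ≤ ‖p + t • d‖ + ‖p‖ := by
    calc ‖t • d‖ = ‖(p + t • d) - p‖ := by rw [add_sub_cancel_left]
      _ ≤ _ := norm_sub_le _ _
  rw [norm_smul, Real.norm_of_nonneg ht0, ht, div_mul_cancel₀ _ hdn.ne'] at h4
  linarith

/-- the positive part function -/
noncomputable def fp (u : ι → E4) (d : E4) : ℝ := ∑ j, max 0 ⟪u j, d⟫_ℝ

omit [DecidableEq ι] in
theorem fp_cont : Continuous (fp u) := by
  unfold fp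
  fun_prop

omit [DecidableEq ι] in
theorem fp_smul {c : ℝ} (hc : 0 ≤ c) (d : E4) : fp u (c • d) = c * fp u d := by
  unfold fp
  rw [mul_sum]
  refine sum_congr rfl fun j _ => ?_
  rw [inner_smul_right, mul_max_of_nonneg _ _ hc, mul_zero]

/-- uniform lower bound on the unit sphere -/
theorem lower (h : ∀ d : E4, d ≠ 0 → ∃ j, 0 < ⟪u j, d⟫_ℝ) :
    ∃ c : ℝ, 0 < c ∧ ∀ x : E4, c * ‖x‖ ≤ fp u x := by
  obtain ⟨d0, hd0, hmin⟩ := (isCompact_sphere (0 : E4) 1).exists_isMinOn
    (NormedSpace.sphere_nonempty.2 zero_le_one) (fp_cont (u := u)).continuousOn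
  have hpos : 0 < fp u d0 := by
    have hne : d0 ≠ 0 := by
      rintro rfl
      rw [mem_sphere_zero_iff_norm, norm_zero] at hd0
      exact zero_ne_one hd0
    obtain ⟨j, hj⟩ := h d0 hne
    unfold fp
    refine sum_pos' (fun i _ => le_max_left _ _) ⟨j, mem_univ _, ?_⟩
    exact lt_max_of_lt_right hj
  refine ⟨fp u d0, hpos, fun x => ?_⟩
  by_cases hx : x = 0
  · rw [hx, norm_zero, mul_zero]
    exact sum_nonneg fun i _ => le_max_left _ _
  · have hn : 0 < ‖x‖ := norm_pos_iff.2 hx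
    have h1 : (‖x‖⁻¹ • x) ∈ Metric.sphere (0 : E4) 1 := by
      rw [mem_sphere_zero_iff_norm, norm_smul, norm_inv, norm_norm, inv_mul_cancel₀ hn.ne']
    have h2 := hmin h1
    have h3 : fp u x = ‖x‖ * fp u (‖x‖⁻¹ • x) := by
      rw [← fp_smul hn.le, smul_smul, mul_inv_cancel₀ hn.ne', one_smul]
    rw [h3, mul_comm]
    exact mul_le_mul_of_nonneg_left h2 hn.le

end Eta

/-- **BDD.** Every right hand side gives a bounded set. -/
theorem t_Bdd : S_Bdd := by
  intro ι _ _ u b b' h
  rcases isEmpty_or_nonempty ι with hι | ⟨⟨i0⟩⟩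
  · have : Poly u b' = Poly u b := by
      ext p
      constructor
      · intro _ i
        exact hι.elim i
      · intro _ i
        exact hι.elim i
    rw [this]
    exact h.bdd
  · obtain ⟨p, hp, -⟩ := h.facet i0
    obtain ⟨c, hc, h1⟩ := Eta.lower fun d hd => Eta.exists_pos' h.bdd hp hd
    refine (Metric.isBounded_closedBall (x := (0 : E4)) (r := (∑ j, |b' j|) / c)).subset ?_
    intro x hx
    rw [mem_closedBall_zero_iff, le_div_iff₀ hc, mul_comm]
    refine (h1 x).trans ?_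
    unfold Eta.fp
    refine sum_le_sum fun j _ => ?_
    exact max_le (abs_nonneg _) ((hx j).trans (le_abs_self _))

namespace Eta

theorem W_ne {ι : Type} [DecidableEq ι] {u : ι → E4} {S : Finset ι} (hS : ¬ Ind u S) :
    W u S ≠ ⊤ := by
  intro htop
  unfold Ind at hS
  push Not at hS
  obtain ⟨c, hc, i0, hi0, hne⟩ := hS
  have h1 : (Pi.single i0 (1 : ℝ) : ι → ℝ) ∈ W u S := by
    rw [htop]
    exact Submodule.mem_top
  obtain ⟨p, hp⟩ := h1
  have h2 : ⟪∑ i ∈ S, c i • u i, p⟫_ℝ = c i0 := by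
    rw [sum_inner, sum_eq_single_of_mem i0 hi0]
    · rw [real_inner_smul_left, hp i0 hi0, Pi.single_eq_same, mul_one]
    · intro j hj hji
      rw [real_inner_smul_left, hp j hj, Pi.single_eq_of_ne hji, mul_zero]
  rw [hc, inner_zero_left] at h2
  exact hne h2.symm

theorem exists_eta {ι : Type} [Fintype ι] [DecidableEq ι] (u : ι → E4) :
    ∃ η : ι → ℝ, ∀ S : Finset ι, ¬ Ind u S → η ∉ W u S := by
  by_contra hcon
  push Not at hcon
  let J := {S : Finset ι // ¬ Ind u S}
  obtain ⟨S, hS⟩ := Subspace.exists_eq_top_of_iUnion_eq_univ (p := fun S : J => W u S.1) (by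
    rw [Set.eq_univ_iff_forall]
    intro β
    obtain ⟨S, hS, hβ⟩ := hcon β
    exact Set.mem_iUnion.mpr ⟨⟨S, hS⟩, hβ⟩)
  exact W_ne S.2 hS

end Eta

/-- **ETA.** Generic perturbations. -/
theorem t_Eta' (hB : S_Bdd) : S_Eta := by
  intro ι _ _ u b h
  obtain ⟨η, hη⟩ := Eta.exists_eta u
  refine ⟨η, ?_⟩
  have h1 : ∀ S : Finset ι, ∀ᶠ t in 𝓝[>] (0 : ℝ), ¬ Ind u S → bt b η t ∉ W u S := by
    intro S
    by_cases hS : Ind u S
    · exact Eventually.of_forall fun t h2 => absurd hS h2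
    · have h2 := ev_not (A := {t : ℝ | bt b η t ∈ W u S}) (by
        intro x hx y hy
        by_contra hxy
        have h3 : (x - y) • η ∈ W u S := by
          have h4 : (x - y) • η = bt b η x - bt b η y := by
            funext i
            simp only [bt, Pi.smul_apply, Pi.sub_apply, smul_eq_mul]
            ring
          rw [h4]
          exact Submodule.sub_mem _ hx hy
        have h5 := Submodule.smul_mem (W u S) (x - y)⁻¹ h3
        rw [smul_smul, inv_mul_cancel₀ (sub_ne_zero.2 hxy), one_smul] at h5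
        exact hη S hS h5)
      filter_upwards [h2] with t ht _
      exact ht
  have h2 : ∀ᶠ t in 𝓝[>] (0 : ℝ), ∀ S : Finset ι, ¬ Ind u S → bt b η t ∉ W u S :=
    eventually_all.2 h1
  filter_upwards [h2] with t ht
  have h3 : ∀ q : E4, Ind u (act u (bt b η t) q) := by
    intro q
    by_contra hq
    exact ht _ hq ⟨q, fun i hi => mem_act.1 hi⟩
  refine ⟨⟨hB ι u b _ h, fun p _ => ?_⟩, h3⟩
  have h4 := (ind_iff.1 (h3 p)).fintype_card_le_finrank
  rwa [Fintype.card_coe, finrank_euclideanSpace_fin] at h4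

theorem t_Eta : S_Eta := t_Eta' t_Bdd

end Pool.Agent.F32.H4
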