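import Pool.Agent.F32.HSt

/-!
# F32: counting the 2-faces (helper56)
-/

set_option autoImplicit false

namespace Pool.Agent.F32.H4

open Finset QMark Pool.Agent.F32.G4
open scoped InnerProductSpace

namespace F2c

/-- another tet over three elements of a tet -/
theorem other {ι : Type} [Fintype ι] [DecidableEq ι] {u : ι → E4} {b2 : ι → ℝ} (h : SP u b2)
    {t e : Finset ι} (ht : t ∈ tets u b2) (he : e ⊆ t) (hc : e.card = 2) {k : ι} (hk : k ∈ t)
    (hke : k ∉ e) : ∃ t' ∈ tets u b2, t' ≠ t ∧ insert k e ⊆ t' := by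
  have h4 := (mem_tets.mp ht).1
  have h3 : (insert k e).card = 3 := by rw [card_insert_of_notMem hke, hc]
  obtain ⟨z, hz, hz'⟩ := exists_mem_notMem_of_card_lt_card (s := insert k e) (t := t) (by omega)
  obtain ⟨d, hd, hd', -⟩ := tet_flip h ht hz
  refine ⟨_, hd', ?_, ?_⟩
  · intro hcon
    apply hd
    rw [← hcon]
    exact mem_insert_self _ _
  · intro i hi
    refine mem_insert_of_mem (mem_erase.mpr ⟨?_, ?_⟩)
    · rintro rfl
      exact hz' hi
    · rcases mem_insert.mp hi with rfl | hi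
      · exact hk
      · exact he hi

/-- two tets below one vertex, all other tets over `e` are not below it -/
theorem two_tets {ι : Type} [Fintype ι] [DecidableEq ι] {u : ι → E4} {b b2 : ι → ℝ}
    (hUni : StmtUni) (hN : Near u b b2) {e : Finset ι} (he : e ∈ tf u b)
    (hk : kv u b e = 3) (hs : size u b2 e = 4) :
    ∃ s ∈ vts u b, ∃ t1 ∈ tets u b2, ∃ t2 ∈ tets u b2, t1 ≠ t2 ∧ e ⊆ t1 ∧ e ⊆ t2 ∧ t1 ⊆ s ∧
      t2 ⊆ s ∧ ∀ t ∈ tets u b2, e ⊆ t → t ⊆ s → t = t1 ∨ t = t2 := by
  classical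
  set N := (vts u b).filter fun s => e ⊆ s with hNd
  set T := (tets u b2).filter fun t => e ⊆ t with hTd
  have hNc : N.card = 3 := hk
  have hTc : T.card = 4 := hs
  -- a vertex above every tet
  have hup : ∀ t : Finset ι, ∃ s : Finset ι, t ∈ T → s ∈ N ∧ t ⊆ s := by
    intro t
    by_cases ht : t ∈ T
    · obtain ⟨ht1, ht2⟩ := mem_filter.mp ht
      obtain ⟨s, hs1, hs2⟩ := hN.up t ht1
      exact ⟨s, fun _ => ⟨mem_filter.mpr ⟨hs1, ht2.trans hs2⟩, hs2⟩⟩
    · exact ⟨∅, fun h => absurd h ht⟩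
  choose σ hσ using hup
  obtain ⟨t1, ht1, t2, ht2, hne, hst⟩ := exists_ne_map_eq_of_card_lt_of_maps_to
    (s := T) (t := N) (f := σ) (by omega) (fun t ht => (hσ t ht).1)
  have hs1 := hσ t1 ht1
  have hs2 := hσ t2 ht2
  rw [← hst] at hs2
  set s := σ t1 with hsd
  refine ⟨s, (mem_filter.mp hs1.1).1, t1, (mem_filter.mp ht1).1, t2, (mem_filter.mp ht2).1, hne,
    (mem_filter.mp ht1).2, (mem_filter.mp ht2).2, hs1.2, hs2.2, ?_⟩
  -- the tets which are not below `s`
  have hlow : ∀ s' : Finset ι, ∃ t : Finset ι, s' ∈ N → t ∈ T ∧ t ⊆ s' := by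
    intro s'
    by_cases hs' : s' ∈ N
    · obtain ⟨h1, h2⟩ := mem_filter.mp hs'
      obtain ⟨t, ht, h3, h4⟩ := hN.tet e he s' h1 h2
      exact ⟨t, fun _ => ⟨mem_filter.mpr ⟨ht, h3⟩, h4⟩⟩
    · exact ⟨∅, fun h => absurd h hs'⟩
  choose τ hτ using hlow
  have hA2 : (T.filter fun t => ¬ t ⊆ s).card ≥ 2 := by
    have h1 : (N.erase s).card = 2 := by rw [card_erase_of_mem hs1.1, hNc]
    rw [← h1, ge_iff_le]
    apply card_le_card_of_injOn τ
    · intro s' hs'
      obtain ⟨h2, h3⟩ := mem_erase.mp (mem_coe.mp hs')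
      obtain ⟨h4, h5⟩ := hτ s' h3
      refine mem_coe.mpr (mem_filter.mpr ⟨h4, fun h6 => h2 ?_⟩)
      exact hUni ι u b b2 hN.sp (τ s') (mem_filter.mp h4).1 s' (mem_filter.mp h3).1 s
        (mem_filter.mp hs1.1).1 h5 h6
    · intro s' hs' s'' hs'' hh
      have h3 := (mem_erase.mp (mem_coe.mp hs')).2
      have h3' := (mem_erase.mp (mem_coe.mp hs'')).2
      obtain ⟨h4, h5⟩ := hτ s' h3
      obtain ⟨-, h5'⟩ := hτ s'' h3'
      rw [← hh] at h5'
      exact hUni ι u b b2 hN.sp (τ s') (mem_filter.mp h4).1 s' (mem_filter.mp h3).1 s''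
        (mem_filter.mp h3').1 h5 h5'
  have hsum := card_filter_add_card_filter_not (s := T) (fun t => t ⊆ s)
  have hA1 : (T.filter fun t => t ⊆ s).card ≤ 2 := by omega
  intro t ht het hts
  by_contra hcon
  push Not at hcon
  have h1 : ({t, t1, t2} : Finset (Finset ι)) ⊆ T.filter fun t => t ⊆ s := by
    intro x hx
    rw [mem_insert, mem_insert, mem_singleton] at hx
    rcases hx with rfl | rfl | rfl
    · exact mem_filter.mpr ⟨mem_filter.mpr ⟨ht, het⟩, hts⟩
    · exact mem_filter.mpr ⟨ht1, hs1.2⟩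
    · exact mem_filter.mpr ⟨ht2, hs2.2⟩
  have h2 := card_le_card h1
  have h3 : ({t, t1, t2} : Finset (Finset ι)).card = 3 := by
    rw [card_insert_of_notMem, card_pair hne]
    rw [mem_insert, mem_singleton]
    push Not
    exact hcon
  omega

end F2c

open F2c in
theorem t_F2c (hTwo : S_Two) (hPair : S_Pair) (hSum : S_Sum) (hUni : StmtUni) : S_F2c := by
  classical
  intro ι _ _ u b b2 D hD hP hN
  set M := big u b2 D with hM
  have hM2 : ∀ x ∈ M, x.card = 2 := big_two
  set B := bad u b2 M with hB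
  set Eb := B.biUnion fun t => t.powersetCard 2 with hEb
  set Ec := (univ : Finset ι).biUnion fun r => (Tr u b2 M r).biUnion fun A =>
    ((vts u b).filter fun s => A ⊆ s).biUnion fun s => (A.erase r).biUnion fun a =>
      (crs u b2 s {r, a}).image fun i => ({i, r} : Finset ι) with hEc
  have hsub : ((tf u b).filter fun e => kv u b e = 3 ∨ 5 ≤ kv u b e) ⊆
      (nonq u b2 ∪ Eb) ∪ Ec := by
    intro e he
    obtain ⟨he1, he2⟩ := mem_filter.mp he
    have hec : e.card = 2 := (mem_filter.mp he1).2.1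
    -- `kv ≤ size`
    have hkv : kv u b e ≤ size u b2 e := by
      have hlow : ∀ s' : Finset ι, ∃ t : Finset ι, s' ∈ (vts u b).filter (fun s => e ⊆ s) →
          t ∈ (tets u b2).filter (fun t => e ⊆ t) ∧ t ⊆ s' := by
        intro s'
        by_cases hs' : s' ∈ (vts u b).filter (fun s => e ⊆ s)
        · obtain ⟨h1, h2⟩ := mem_filter.mp hs'
          obtain ⟨t, ht, h3, h4⟩ := hN.tet e he1 s' h1 h2
          exact ⟨t, fun _ => ⟨mem_filter.mpr ⟨ht, h3⟩, h4⟩⟩
        · exact ⟨∅, fun h => absurd h hs'⟩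
      choose τ hτ using hlow
      unfold kv size
      apply card_le_card_of_injOn τ
      · intro s' hs'
        exact mem_coe.mpr (hτ s' (mem_coe.mp hs')).1
      · intro s' hs' s'' hs'' hh
        obtain ⟨h4, h5⟩ := hτ s' (mem_coe.mp hs')
        obtain ⟨-, h5'⟩ := hτ s'' (mem_coe.mp hs'')
        rw [← hh] at h5'
        exact hUni ι u b b2 hN.sp (τ s') (mem_filter.mp h4).1 s'
          (mem_filter.mp (mem_coe.mp hs')).1 s'' (mem_filter.mp (mem_coe.mp hs'')).1 h5 h5'
    have hef : e ∈ faces u b2 2 := by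
      have h1 : 0 < size u b2 e := by omega
      obtain ⟨t, ht⟩ := card_pos.mp h1
      obtain ⟨ht1, ht2⟩ := mem_filter.mp ht
      exact mem_faces.mpr ⟨hec, t, ht1, ht2⟩
    by_cases hs4 : size u b2 e = 4
    swap
    · exact mem_union_left _ (mem_union_left _ (mem_filter.mpr ⟨hef, hs4⟩))
    have hk3 : kv u b e = 3 := by omega
    obtain ⟨s, hs, t1, ht1, t2, ht2, hne, he1', he2', hts1, hts2, hall⟩ :=
      two_tets hUni hN he1 hk3 hs4
    have hc1 := (mem_tets.mp ht1).1
    have hc2 := (mem_tets.mp ht2).1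
    -- the elements of `t1 \ t2`
    have hx : ∀ k ∈ t1, k ∉ t2 → ∃ t' ∈ tets u b2, insert k e ⊆ t' ∧ ¬ t' ⊆ s := by
      intro k hk1 hk2
      obtain ⟨t', ht', hn', hi'⟩ := other hN.sp ht1 he1' hec hk1 fun h => hk2 (he2' h)
      refine ⟨t', ht', hi', fun hcon => ?_⟩
      rcases hall t' ht' ((subset_insert _ _).trans hi') hcon with h | h
      · exact hn' h
      · exact hk2 (h ▸ hi' (mem_insert_self _ _))
    have hy : ∀ k ∈ t2, k ∉ t1 → ∃ t' ∈ tets u b2, insert k e ⊆ t' ∧ ¬ t' ⊆ s := by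
      intro k hk1 hk2
      obtain ⟨t', ht', hn', hi'⟩ := other hN.sp ht2 he2' hec hk1 fun h => hk2 (he1' h)
      refine ⟨t', ht', hi', fun hcon => ?_⟩
      rcases hall t' ht' ((subset_insert _ _).trans hi') hcon with h | h
      · exact hk2 (h ▸ hi' (mem_insert_self _ _))
      · exact hn' h
    have hcr : (t1 \ t2) ∪ (t2 \ t1) ⊆ crs u b2 s e := by
      intro k hk
      rcases mem_union.mp hk with hk | hk
      · obtain ⟨hk1, hk2⟩ := mem_sdiff.mp hk
        obtain ⟨t', ht', hi', hs'⟩ := hx k hk1 hk2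
        exact mem_filter.mpr ⟨mem_univ _, fun h => hk2 (he2' h), t1, ht1, t', ht',
          insert_subset hk1 he1', hi', hts1, hs'⟩
      · obtain ⟨hk1, hk2⟩ := mem_sdiff.mp hk
        obtain ⟨t', ht', hi', hs'⟩ := hy k hk1 hk2
        exact mem_filter.mpr ⟨mem_univ _, fun h => hk2 (he1' h), t2, ht2, t', ht',
          insert_subset hk1 he2', hi', hts2, hs'⟩
    have hcr2 := (card_le_card hcr).trans (hN.crs s hs e hec)
    rw [card_union_of_disjoint disjoint_sdiff_sdiff] at hcr2
    have hi1 := card_sdiff_add_card_inter t1 t2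
    have hi2 := card_sdiff_add_card_inter t2 t1
    rw [inter_comm t2 t1] at hi2
    have hi4 : (t1 ∩ t2).card ≠ 4 := by
      intro hcon
      apply hne
      have h1 : t1 ∩ t2 = t1 := eq_of_subset_of_card_le inter_subset_left (by omega)
      have h2 : t1 ∩ t2 = t2 := eq_of_subset_of_card_le inter_subset_right (by omega)
      rw [← h1]
      exact h2
    have h3 : (t1 ∩ t2).card = 3 := by omega
    by_cases hb1 : Good M t1
    swap
    · exact mem_union_left _ (mem_union_right _ (mem_biUnion.mpr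
        ⟨t1, mem_filter.mpr ⟨ht1, hb1⟩, mem_powersetCard.mpr ⟨he1', hec⟩⟩))
    by_cases hb2 : Good M t2
    swap
    · exact mem_union_left _ (mem_union_right _ (mem_biUnion.mpr
        ⟨t2, mem_filter.mpr ⟨ht2, hb2⟩, mem_powersetCard.mpr ⟨he2', hec⟩⟩))
    -- both are good
    refine mem_union_right _ ?_
    obtain ⟨r, a, c, hr, ha1, ha2, hct2, hct1, hra, hrc, her, hk⟩ :=
      hPair ι M hM2 t1 t2 hc1 hc2 h3 hb1 hb2
    obtain ⟨hr1, hr2⟩ := mem_inter.mp hr
    have hrne : a ≠ r := by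
      intro h
      exact ha2 (h ▸ hr2)
    have hrc' : c ≠ r := by
      intro h
      exact hct1 (h ▸ hr1)
    have hca : c ≠ a := by
      intro h
      exact hct1 (h ▸ ha1)
    have haP : a ∈ Pn M r := mem_filter.mpr ⟨mem_univ _, hrne, hra⟩
    have hcP : c ∈ Pn M r := mem_filter.mpr ⟨mem_univ _, hrc', hrc⟩
    have hrP : r ∉ Pn M r := fun h => (mem_filter.mp h).2.1 rfl
    have hone : (t1 \ t2).card = 1 := by omega
    have hint : t1 ∩ insert r (Pn M r) = {r, a} := by
      ext k
      rw [mem_inter, mem_insert, mem_insert, mem_singleton]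
      constructor
      · rintro ⟨hk1, rfl | hk2⟩
        · exact Or.inl rfl
        · right
          have hkM : ({r, k} : Finset ι) ∈ M := (mem_filter.mp hk2).2.2
          have hkt : k ∉ t2 := fun h => hk k (mem_inter.mpr ⟨hk1, h⟩) hkM
          obtain ⟨z, hz⟩ := card_eq_one.mp hone
          have e1 : k ∈ t1 \ t2 := mem_sdiff.mpr ⟨hk1, hkt⟩
          have e2 : a ∈ t1 \ t2 := mem_sdiff.mpr ⟨ha1, ha2⟩
          rw [hz, mem_singleton] at e1 e2
          rw [e1, e2]
      · rintro (rfl | rfl)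
        · exact ⟨hr1, Or.inl rfl⟩
        · exact ⟨ha1, Or.inr haP⟩
    obtain ⟨a', ha'M, ha'a, ha's, hW⟩ :=
      hN.wit (Pn M r) r a c hrP haP hcP hca s hs (hts2 hct2) t1 ht1 hts1 hint
    have ha'r : a' ≠ r := (mem_filter.mp ha'M).2.1
    have hA : ({r, a, a'} : Finset ι) ∈ Tr u b2 M r := by
      refine mem_filter.mpr ⟨mem_univ _, ?_, mem_insert_self _ _, ?_, hW⟩
      · rw [card_insert_of_notMem, card_pair ha'a.symm]
        rw [mem_insert, mem_singleton]
        rintro (h | h)
        · exact hrne h.symm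
        · exact ha'r h.symm
      · intro z hz
        rw [mem_insert, mem_insert, mem_singleton] at hz
        rcases hz with rfl | rfl | rfl
        · exact mem_insert_self _ _
        · exact mem_insert_of_mem haP
        · exact mem_insert_of_mem ha'M
    have hAs : ({r, a, a'} : Finset ι) ⊆ s := by
      intro z hz
      rw [mem_insert, mem_insert, mem_singleton] at hz
      rcases hz with rfl | rfl | rfl
      · exact hts1 hr1
      · exact hts1 ha1
      · exact ha's
    -- `r ∈ e`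
    have heM : e ∉ M := by
      intro h
      have := (mem_filter.mp h).2
      omega
    have hei : e ⊆ t1 ∩ t2 := subset_inter he1' he2'
    have hre : r ∈ e := by
      by_contra hcon
      apply heM
      have h1 : e ⊆ (t1 ∩ t2).erase r := fun z hz => mem_erase.mpr
        ⟨fun h => hcon (h ▸ hz), hei hz⟩
      have h2 : e = (t1 ∩ t2).erase r := by
        apply eq_of_subset_of_card_le h1
        rw [card_erase_of_mem hr, h3, hec]
      rw [h2]
      exact her
    obtain ⟨i, hi⟩ := card_eq_one.mp (show (e.erase r).card = 1 by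
      rw [card_erase_of_mem hre, hec])
    have hie : i ∈ e.erase r := by rw [hi]; exact mem_singleton_self _
    have hir : i ≠ r := ne_of_mem_erase hie
    have hie' : i ∈ e := mem_of_mem_erase hie
    have hee : e = {i, r} := by
      rw [← insert_erase hre, hi, pair_comm]
    have hia : i ≠ a := by
      rintro rfl
      exact ha2 (he2' hie')
    obtain ⟨t', ht', hi', hs'⟩ := hx a ha1 ha2
    have hins : insert i ({r, a} : Finset ι) = insert a e := by
      rw [hee]
      ext z
      simp only [mem_insert, mem_singleton]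
      tauto
    refine mem_biUnion.mpr ⟨r, mem_univ _, mem_biUnion.mpr ⟨_, hA, mem_biUnion.mpr ⟨s,
      mem_filter.mpr ⟨hs, hAs⟩, mem_biUnion.mpr ⟨a, mem_erase.mpr ⟨hrne, by simp⟩,
        mem_image.mpr ⟨i, ?_, hee.symm⟩⟩⟩⟩⟩
    refine mem_filter.mpr ⟨mem_univ _, ?_, t1, ht1, t', ht', ?_, ?_, hts1, hs'⟩
    · rw [mem_insert, mem_singleton]
      push Not
      exact ⟨hir, hia⟩
    · rw [hins]
      exact insert_subset ha1 he1'
    · rw [hins]
      exact hi'
  -- the count
  have h1 : Eb.card ≤ 6 * B.card := by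
    have h2 : ∀ t ∈ B, (t.powersetCard 2).card ≤ 6 := by
      intro t ht
      have h4 := (mem_tets.mp (mem_filter.mp ht).1).1
      rw [card_powersetCard, h4]
      decide
    refine card_biUnion_le.trans ((sum_le_card_nsmul _ _ 6 h2).trans ?_)
    rw [smul_eq_mul, mul_comm]
  have h2 : Ec.card ≤ 8 * (6 * M.card + 15 * Fintype.card ι) := by
    have h3 : ∀ (r : ι), ∀ A ∈ Tr u b2 M r, ∀ s ∈ (vts u b).filter (fun s => A ⊆ s),
        ((A.erase r).biUnion fun a =>
          (crs u b2 s {r, a}).image fun i => ({i, r} : Finset ι)).card ≤ 4 := by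
      intro r A hA s hs
      obtain ⟨-, hA3, hrA, -, -⟩ := mem_filter.mp hA
      have h4 : ∀ a ∈ A.erase r,
          ((crs u b2 s {r, a}).image fun i => ({i, r} : Finset ι)).card ≤ 2 := by
        intro a ha
        exact card_image_le.trans (hN.crs s (mem_filter.mp hs).1 _
          (card_pair (ne_of_mem_erase ha).symm))
      refine card_biUnion_le.trans ((sum_le_card_nsmul _ _ 2 h4).trans ?_)
      rw [smul_eq_mul, card_erase_of_mem hrA, hA3]
    have h5 : ∀ (r : ι), ∀ A ∈ Tr u b2 M r, (((vts u b).filter fun s => A ⊆ s).biUnion fun s =>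
        (A.erase r).biUnion fun a =>
          (crs u b2 s {r, a}).image fun i => ({i, r} : Finset ι)).card ≤ 8 := by
      intro r A hA
      refine card_biUnion_le.trans ((sum_le_card_nsmul _ _ 4 (h3 r A hA)).trans ?_)
      obtain ⟨-, hA3, -, -, q, -, -, hI⟩ := mem_filter.mp hA
      have := hTwo ι u b hP A hA3 hI
      rw [smul_eq_mul]
      omega
    have h6 : Ec.card ≤ ∑ r : ι, 8 * (Tr u b2 M r).card := by
      refine card_biUnion_le.trans (sum_le_sum fun r _ => ?_)
      refine card_biUnion_le.trans ((sum_le_card_nsmul _ _ 8 (h5 r)).trans ?_)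
      rw [smul_eq_mul, mul_comm]
    rw [← mul_sum] at h6
    exact h6.trans (Nat.mul_le_mul_left 8 (hSum ι u b2 M hM2))
  calc ((tf u b).filter fun e => kv u b e = 3 ∨ 5 ≤ kv u b e).card
      ≤ ((nonq u b2 ∪ Eb) ∪ Ec).card := card_le_card hsub
    _ ≤ ((nonq u b2).card + Eb.card) + Ec.card :=
      (card_union_le _ _).trans (Nat.add_le_add_right (card_union_le _ _) _)
    _ ≤ _ := by omega

end Pool.Agent.F32.H4
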