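import Pool.Agent.F32.HSt

/-!
# F32: counting the non-simple vertices (helper56)
-/

set_option autoImplicit false

namespace Pool.Agent.F32.H4

open Finset QMark Pool.Agent.F32.G4
open scoped InnerProductSpace

theorem t_F3c (hTwo : S_Two) (hPair : S_Pair) (hSum : S_Sum) (hUni : StmtUni) : S_F3c := by
  classical
  intro ι _ _ u b b2 D hP hN
  set M := big u b2 D with hM
  have hM2 : ∀ x ∈ M, x.card = 2 := big_two
  set B := bad u b2 M with hB
  -- the two cases
  have key : ∀ s ∈ (vts u b).filter fun s => 5 ≤ s.card,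
      (∃ t ∈ B, t ⊆ s) ∨ ∃ r : ι, ∃ A ∈ Tr u b2 M r, A ⊆ s := by
    intro s hs
    obtain ⟨hs1, hs5⟩ := mem_filter.mp hs
    obtain ⟨t1, ht1, t2, ht2, hts1, hts2, h3⟩ := hN.adj s hs1 hs5
    by_cases hb1 : Good M t1
    swap
    · exact Or.inl ⟨t1, mem_filter.mpr ⟨ht1, hb1⟩, hts1⟩
    by_cases hb2 : Good M t2
    swap
    · exact Or.inl ⟨t2, mem_filter.mpr ⟨ht2, hb2⟩, hts2⟩
    right
    have hc1 := (mem_tets.mp ht1).1
    have hc2 := (mem_tets.mp ht2).1
    obtain ⟨r, a, c, hr, ha1, ha2, hct2, hct1, hra, hrc, -, hk⟩ :=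
      hPair ι M hM2 t1 t2 hc1 hc2 h3 hb1 hb2
    obtain ⟨hr1, hr2⟩ := mem_inter.mp hr
    have hrne : a ≠ r := by
      intro h
      exact ha2 (h ▸ hr2)
    have hrc' : c ≠ r := by
      intro h
      exact hct1 (h ▸ hr1)
    have hca : c ≠ a := by
      intro h
      exact hct1 (h ▸ ha1)
    have haP : a ∈ Pn M r := mem_filter.mpr ⟨mem_univ _, hrne, hra⟩
    have hcP : c ∈ Pn M r := mem_filter.mpr ⟨mem_univ _, hrc', hrc⟩
    have hrP : r ∉ Pn M r := fun h => (mem_filter.mp h).2.1 rfl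
    have hone : (t1 \ t2).card = 1 := by
      have := card_sdiff_add_card_inter t1 t2
      omega
    have hint : t1 ∩ insert r (Pn M r) = {r, a} := by
      ext k
      rw [mem_inter, mem_insert, mem_insert, mem_singleton]
      constructor
      · rintro ⟨hk1, rfl | hk2⟩
        · exact Or.inl rfl
        · right
          have hkM : ({r, k} : Finset ι) ∈ M := (mem_filter.mp hk2).2.2
          have hkt : k ∉ t2 := fun h => hk k (mem_inter.mpr ⟨hk1, h⟩) hkM
          obtain ⟨z, hz⟩ := card_eq_one.mp hone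
          have e1 : k ∈ t1 \ t2 := mem_sdiff.mpr ⟨hk1, hkt⟩
          have e2 : a ∈ t1 \ t2 := mem_sdiff.mpr ⟨ha1, ha2⟩
          rw [hz, mem_singleton] at e1 e2
          rw [e1, e2]
      · rintro (rfl | rfl)
        · exact ⟨hr1, Or.inl rfl⟩
        · exact ⟨ha1, Or.inr haP⟩
    obtain ⟨a', ha'M, ha'a, ha's, hW⟩ :=
      hN.wit (Pn M r) r a c hrP haP hcP hca s hs1 (hts2 hct2) t1 ht1 hts1 hint
    have ha'r : a' ≠ r := (mem_filter.mp ha'M).2.1
    refine ⟨r, {r, a, a'}, mem_filter.mpr ⟨mem_univ _, ?_, mem_insert_self _ _, ?_, hW⟩, ?_⟩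
    · rw [card_insert_of_notMem, card_pair ha'a.symm]
      rw [mem_insert, mem_singleton]
      rintro (h | h)
      · exact hrne h.symm
      · exact ha'r h.symm
    · intro z hz
      rw [mem_insert, mem_insert, mem_singleton] at hz
      rcases hz with rfl | rfl | rfl
      · exact mem_insert_self _ _
      · exact mem_insert_of_mem haP
      · exact mem_insert_of_mem ha'M
    · intro z hz
      rw [mem_insert, mem_insert, mem_singleton] at hz
      rcases hz with rfl | rfl | rfl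
      · exact hts1 hr1
      · exact hts1 ha1
      · exact ha's
  -- the count
  set S1 := (vts u b).filter fun s => ∃ t ∈ B, t ⊆ s with hS1
  set S2 := (univ : Finset ι).biUnion fun r => (Tr u b2 M r).biUnion fun A =>
    (vts u b).filter fun s => A ⊆ s with hS2
  have hsub : ((vts u b).filter fun s => 5 ≤ s.card) ⊆ S1 ∪ S2 := by
    intro s hs
    have hs1 := (mem_filter.mp hs).1
    rcases key s hs with ⟨t, ht, hts⟩ | ⟨r, A, hA, hAs⟩
    · exact mem_union_left _ (mem_filter.mpr ⟨hs1, t, ht, hts⟩)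
    · refine mem_union_right _ (mem_biUnion.mpr ⟨r, mem_univ _, mem_biUnion.mpr ⟨A, hA, ?_⟩⟩)
      exact mem_filter.mpr ⟨hs1, hAs⟩
  have h1 : S1.card ≤ B.card := by
    have hch : ∀ s : Finset ι, ∃ t : Finset ι, s ∈ S1 → t ∈ B ∧ t ⊆ s := by
      intro s
      by_cases hs : s ∈ S1
      · obtain ⟨t, ht, hts⟩ := (mem_filter.mp hs).2
        exact ⟨t, fun _ => ⟨ht, hts⟩⟩
      · exact ⟨∅, fun h => absurd h hs⟩
    choose f hf using hch
    apply card_le_card_of_injOn f
    · intro s hs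
      exact (hf s hs).1
    · intro s hs s' hs' he
      have e1 := hf s hs
      have e2 := hf s' hs'
      have e3 : f s ∈ tets u b2 := (mem_filter.mp e1.1).1
      refine hUni ι u b b2 hN.sp (f s) e3 s (mem_filter.mp hs).1 s' (mem_filter.mp hs').1 e1.2 ?_
      rw [he]
      exact e2.2
  have h2 : S2.card ≤ 2 * (6 * M.card + 15 * Fintype.card ι) := by
    have h3 : S2.card ≤ ∑ r : ι, ∑ A ∈ Tr u b2 M r, ((vts u b).filter fun s => A ⊆ s).card :=
      card_biUnion_le.trans (sum_le_sum fun r _ => card_biUnion_le)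
    have h4 : ∀ r : ι, ∑ A ∈ Tr u b2 M r, ((vts u b).filter fun s => A ⊆ s).card ≤
        2 * (Tr u b2 M r).card := by
      intro r
      have h5 : ∀ A ∈ Tr u b2 M r, ((vts u b).filter fun s => A ⊆ s).card ≤ 2 := by
        intro A hA
        obtain ⟨-, hA3, -, -, q, -, -, hI⟩ := mem_filter.mp hA
        exact hTwo ι u b hP A hA3 hI
      refine (sum_le_card_nsmul _ _ 2 h5).trans ?_
      rw [smul_eq_mul, mul_comm]
    have h6 := hSum ι u b2 M hM2
    calc S2.card ≤ ∑ r : ι, ∑ A ∈ Tr u b2 M r, ((vts u b).filter fun s => A ⊆ s).card := h3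
      _ ≤ ∑ r : ι, 2 * (Tr u b2 M r).card := sum_le_sum fun r _ => h4 r
      _ = 2 * ∑ r : ι, (Tr u b2 M r).card := by rw [mul_sum]
      _ ≤ _ := Nat.mul_le_mul_left 2 h6
  calc ((vts u b).filter fun s => 5 ≤ s.card).card ≤ (S1 ∪ S2).card := card_le_card hsub
    _ ≤ S1.card + S2.card := card_union_le _ _
    _ ≤ _ := Nat.add_le_add h1 h2

end Pool.Agent.F32.H4
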