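import Pool.Agent.F32.HSt

/-!
# F32: modules Gap, In3, Emp, Two (helper61)
-/

set_option autoImplicit false

namespace Pool.Agent.F32.H4

open Finset QMark Filter Topology Pool.Agent.F32.G4
open scoped InnerProductSpace

namespace H61

variable {ι : Type} [Fintype ι] [DecidableEq ι] {u : ι → E4} {b : ι → ℝ}

/-- no normal vector is zero -/
theorem u_ne (h : P4 u b) (i : ι) : u i ≠ 0 := by
  intro hi
  obtain ⟨p, hp, hpa⟩ := h.facet i
  have h1 : ⟪u i, p⟫_ℝ = b i := by
    rw [← mem_act, hpa]; exact mem_singleton_self _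
  have h2 : b i = 0 := by rw [← h1, hi, inner_zero_left]
  have h3 : ∀ j, j = i := by
    intro j
    obtain ⟨q, -, hqa⟩ := h.facet j
    have h4 : i ∈ act u b q := by rw [mem_act, hi, inner_zero_left, h2]
    rw [hqa, mem_singleton] at h4
    exact h4.symm
  have h5 : Poly u b = Set.univ := by
    rw [Set.eq_univ_iff_forall]
    intro x j
    rw [h3 j, hi, inner_zero_left, h2]
  have h6 := h.bdd
  rw [h5] at h6
  exact NormedSpace.unbounded_univ ℝ E4 h6

theorem ne_empty (h : P4 u b) : Nonempty ι := by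
  by_contra hc
  rw [not_nonempty_iff] at hc
  have h5 : Poly u b = Set.univ := by
    rw [Set.eq_univ_iff_forall]
    intro x j
    exact hc.elim j
  have h6 := h.bdd
  rw [h5] at h6
  exact NormedSpace.unbounded_univ ℝ E4 h6

theorem mem_vts {s : Finset ι} : s ∈ vts u b ↔ ∃ p, Vx u b p ∧ act u b p = s := by
  simp [vts]

/-- a vertex is determined by its active set -/
theorem vx_eq {p q : E4} (hp : Vx u b p) (h : act u b p ⊆ act u b q) : q = p := by
  have h1 := hp.2 (q - p) fun i hi => by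
    rw [inner_sub_right, mem_act.1 hi, mem_act.1 (h hi), sub_self]
  exact sub_eq_zero.1 h1

end H61

open H61

/-- GAP. -/
theorem t_Gap : S_Gap := by
  intro ι _ _ u b _ p hp
  set c : E4 := ∑ i ∈ act u b p, u i with hc
  have hin : ∀ x : E4, ⟪c, x⟫_ℝ = ∑ i ∈ act u b p, ⟪u i, x⟫_ℝ := fun x => by
    rw [hc, sum_inner]
  have hcp : ⟪c, p⟫_ℝ = ∑ i ∈ act u b p, b i := by
    rw [hin]
    exact sum_congr rfl fun i hi => mem_act.1 hi
  have hlt : ∀ p', Vx u b p' → p' ≠ p → ⟪c, p'⟫_ℝ < ⟪c, p⟫_ℝ := by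
    intro p' hp' hne
    rw [hcp, hin]
    refine lt_of_le_of_ne (sum_le_sum fun i _ => hp'.1 i) ?_
    intro heq
    have h1 := (sum_eq_sum_iff_of_le fun i _ => hp'.1 i).1 heq
    exact hne (vx_eq hp fun i hi => mem_act.2 (h1 i hi))
  have hfin : {p' | Vx u b p' ∧ p' ≠ p}.Finite := by
    refine Set.Finite.of_finite_image (Set.toFinite ((act u b) '' {p' | Vx u b p' ∧ p' ≠ p})) ?_
    intro x hx y hy hxy
    exact (vx_eq hx.1 (by rw [hxy])).symm
  rcases hfin.toFinset.eq_empty_or_nonempty with h0 | h0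
  · refine ⟨c, ⟪c, p⟫_ℝ - 1, by linarith, fun p' hp' hne => ?_⟩
    have : p' ∈ hfin.toFinset := by
      rw [Set.Finite.mem_toFinset]; exact ⟨hp', hne⟩
    rw [h0] at this
    simp at this
  · obtain ⟨m, hm, hmax⟩ := exists_max_image hfin.toFinset (fun x => ⟪c, x⟫_ℝ) h0
    rw [Set.Finite.mem_toFinset] at hm
    have h1 := hlt m hm.1 hm.2
    refine ⟨c, (⟪c, m⟫_ℝ + ⟪c, p⟫_ℝ) / 2, by linarith, fun p' hp' hne => ?_⟩
    have h2 := hmax p' (by rw [Set.Finite.mem_toFinset]; exact ⟨hp', hne⟩)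
    linarith

/-- IN3. -/
theorem t_In3 : S_In3 := by
  intro ι _ _ u b h s hs A hA hcard c hc
  obtain ⟨p, hp, rfl⟩ := mem_vts.1 hs
  -- the identity at every point
  have hpt : ∀ (c : ι → ℝ), ∑ i ∈ A, c i • u i = 0 → ∀ x : E4,
      ∑ i ∈ A, c i * (b i - ⟪u i, x⟫_ℝ) = 0 := by
    intro c hc x
    have h1 : ∀ y : E4, ∑ i ∈ A, c i * ⟪u i, y⟫_ℝ = 0 := by
      intro y
      have h2 : ⟪∑ i ∈ A, c i • u i, y⟫_ℝ = 0 := by rw [hc, inner_zero_left]
      rw [sum_inner] at h2
      rw [← h2]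
      exact sum_congr rfl fun i _ => by rw [real_inner_smul_left]
    have h2 : ∑ i ∈ A, c i * b i = 0 := by
      rw [← h1 p]
      exact sum_congr rfl fun i hi => by rw [mem_act.1 (hA hi)]
    simp only [mul_sub, sum_sub_distrib]
    rw [h2, h1 x, sub_zero]
  -- one exceptional sign is impossible
  have key : ∀ (c : ι → ℝ), ∑ i ∈ A, c i • u i = 0 → ∀ r ∈ A,
      (∀ i ∈ A, i ≠ r → c i ≤ 0) → c r = 0 := by
    intro c hc r hr hle
    obtain ⟨x, hx, hxa⟩ := h.facet r
    have h1 := hpt c hc x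
    have h2 : ∀ i ∈ A, c i * (b i - ⟪u i, x⟫_ℝ) ≤ 0 := by
      intro i hi
      by_cases hir : i = r
      · have : i ∈ act u b x := by rw [hxa, hir]; exact mem_singleton_self _
        rw [mem_act.1 this, sub_self, mul_zero]
      · exact mul_nonpos_of_nonpos_of_nonneg (hle i hi hir) (sub_nonneg.2 (hx i))
    have h3 := (sum_eq_zero_iff_of_nonpos h2).1 h1
    have h4 : ∀ i ∈ A, i ≠ r → c i = 0 := by
      intro i hi hir
      have h5 : i ∉ act u b x := by
        rw [hxa, mem_singleton]; exact hir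
      have h6 : b i - ⟪u i, x⟫_ℝ ≠ 0 := by
        intro h0
        exact h5 (mem_act.2 (by linarith))
      exact (mul_eq_zero.1 (h3 i hi)).resolve_right h6
    have h5 : ∑ i ∈ A, c i • u i = c r • u r :=
      sum_eq_single_of_mem r hr fun i hi hir => by rw [h4 i hi hir, zero_smul]
    rw [hc] at h5
    exact (smul_eq_zero.1 h5.symm).resolve_right (u_ne h r)
  have key2 : ∀ (c : ι → ℝ), ∑ i ∈ A, c i • u i = 0 → (A.filter fun i => 0 < c i).card ≤ 1 →
      ∀ i ∈ A, c i = 0 := by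
    intro c hc h1 i hi
    rw [card_le_one] at h1
    by_cases h0 : ∃ r ∈ A, 0 < c r
    · obtain ⟨r, hr, hcr⟩ := h0
      exfalso
      refine hcr.ne' (key c hc r hr fun j hj hjr => ?_)
      by_contra hlt
      exact hjr (h1 j (mem_filter.2 ⟨hj, not_le.1 hlt⟩) r (mem_filter.2 ⟨hr, hcr⟩))
    · push Not at h0
      exact key c hc i hi fun j hj _ => h0 j hj
  have hsp : (A.filter fun i => 0 < c i).card + (A.filter fun i => 0 < -c i).card ≤ A.card := by
    rw [← card_union_of_disjoint]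
    · exact card_le_card (union_subset (filter_subset _ _) (filter_subset _ _))
    · rw [disjoint_filter]
      intro i _ h1 h2
      linarith
  rcases Nat.lt_or_ge (A.filter fun i => 0 < c i).card 2 with h1 | h1
  · exact key2 c hc (by omega)
  · intro i hi
    have h2 := key2 (fun i => -c i) (by
      simp only [neg_smul, sum_neg_distrib]
      rw [hc, neg_zero]) (by omega) i hi
    simpa using h2

/-- EMP. -/
theorem t_Emp : S_Emp := by
  intro ι _ _ u b h
  obtain ⟨i⟩ := ne_empty h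
  obtain ⟨p, hp, hpa⟩ := h.facet i
  have h1 : ∀ᶠ τ in 𝓝[>] (0 : ℝ), ∀ j, j ≠ i →
      ⟪u j, p⟫_ℝ + τ * (-⟪u j, u i⟫_ℝ) < b j + τ * 0 := by
    rw [eventually_all]
    intro j
    by_cases hj : j = i
    · exact Eventually.of_forall fun τ hc => absurd hj hc
    · have h2 : ⟪u j, p⟫_ℝ < b j := by
        refine lt_of_le_of_ne (hp j) fun hc => ?_
        have h3 := mem_act.2 hc
        rw [hpa, mem_singleton] at h3
        exact hj h3
      filter_upwards [ev_lt (y := -⟪u j, u i⟫_ℝ) (d := 0) h2] with τ hτ _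
      exact hτ
  obtain ⟨τ, hτ, hτ0⟩ := (h1.and self_mem_nhdsWithin).exists
  have h2 : ∀ j, ⟪u j, p + τ • (-u i)⟫_ℝ < b j := by
    intro j
    rw [inner_add_smul, inner_neg_right]
    by_cases hj : j = i
    · subst hj
      have h3 : ⟪u j, p⟫_ℝ = b j := by
        rw [← mem_act, hpa]; exact mem_singleton_self _
      have h4 : 0 < ⟪u j, u j⟫_ℝ := real_inner_self_pos.2 (u_ne h j)
      have h5 := mul_pos hτ0 h4
      linarith
    · have := hτ j hj
      linarith
  refine ⟨p + τ • (-u i), fun j => (h2 j).le, ?_⟩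
  rw [Finset.eq_empty_iff_forall_notMem]
  intro j hj
  exact (h2 j).ne (mem_act.1 hj)

namespace H61

variable {ι : Type} [Fintype ι] [DecidableEq ι] {u : ι → E4} {b : ι → ℝ}

/-- a vertex is not between two points -/
theorem not_mid {x y z : E4} (hx : x ∈ Poly u b) (hz : z ∈ Poly u b) (hy : Vx u b y)
    (hxz : x ≠ z) {τ : ℝ} (h0 : 0 < τ) (h1 : τ < 1) : y ≠ x + τ • (z - x) := by
  intro he
  refine hxz ?_
  have h2 := hy.2 (z - x) fun i hi => by
    rw [he] at hi
    have h3 := (act_seg hx hz h0 h1 i).1 hi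
    rw [inner_sub_right, mem_act.1 h3.1, mem_act.1 h3.2, sub_self]
  exact (sub_eq_zero.1 h2).symm

theorem not_mid' {x y z o d : E4} {α β γ : ℝ} (hx : Vx u b x) (hz : Vx u b z) (hy : Vx u b y)
    (ex : x = o + α • d) (ey : y = o + β • d) (ez : z = o + γ • d) (h1 : α < β) (h2 : β < γ)
    (hd : d ≠ 0) : False := by
  have hxz : x ≠ z := by
    intro h
    rw [ex, ez] at h
    have h3 : (γ - α) • d = 0 := by
      rw [sub_smul, sub_eq_zero]
      exact (add_left_cancel h).symm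
    rcases smul_eq_zero.1 h3 with h4 | h4
    · linarith
    · exact hd h4
  have hpos : 0 < γ - α := by linarith
  refine not_mid hx.1 hz.1 hy hxz (τ := (β - α) / (γ - α)) (div_pos (by linarith) hpos)
    (by rw [div_lt_one hpos]; linarith) ?_
  rw [ex, ey, ez]
  have h5 : o + γ • d - (o + α • d) = (γ - α) • d := by
    rw [sub_smul]; abel
  rw [h5, smul_smul, div_mul_cancel₀ _ hpos.ne', sub_smul]
  abel

omit [Fintype ι] in
/-- the line of the points with three given independent equations -/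
theorem line {A : Finset ι} (hA : A.card = 3) (hI : Ind u A) : ∃ d : E4, d ≠ 0 ∧
    ∀ w : E4, (∀ i ∈ A, ⟪u i, w⟫_ℝ = 0) → ∃ c : ℝ, w = c • d := by
  set K := Submodule.span ℝ (Set.range fun i : A => u i) with hK
  have h1 := Submodule.finrank_add_finrank_orthogonal K
  rw [finrank_euclideanSpace_fin] at h1
  have h2 : Module.finrank ℝ K = 3 := by
    rw [hK, finrank_span_eq_card (ind_iff.1 hI), Fintype.card_coe, hA]
  have h3 : Module.finrank ℝ Kᗮ = 1 := by omega
  obtain ⟨d, hd0, hd⟩ := finrank_eq_one_iff'.1 h3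
  refine ⟨d, fun h => hd0 (Subtype.ext h), fun w hw => ?_⟩
  have hwK : w ∈ Kᗮ := by
    rw [Submodule.mem_orthogonal]
    intro v hv
    induction hv using Submodule.span_induction with
    | mem x hx =>
      obtain ⟨i, rfl⟩ := hx
      exact hw i.1 i.2
    | zero => simp
    | add x y _ _ hx hy => rw [inner_add_left, hx, hy, add_zero]
    | smul a x _ hx => rw [inner_smul_left, hx, mul_zero]
  obtain ⟨c, hc⟩ := hd ⟨w, hwK⟩
  exact ⟨c, by simpa using (congrArg Subtype.val hc).symm⟩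

end H61

/-- TWO. -/
theorem t_Two : S_Two := by
  intro ι _ _ u b h A hA hI
  by_contra hcon
  rw [not_le, two_lt_card] at hcon
  obtain ⟨s1, hs1, s2, hs2, s3, hs3, h12, h13, h23⟩ := hcon
  rw [mem_filter, mem_vts] at hs1 hs2 hs3
  obtain ⟨⟨p1, v1, e1⟩, a1⟩ := hs1
  obtain ⟨⟨p2, v2, e2⟩, a2⟩ := hs2
  obtain ⟨⟨p3, v3, e3⟩, a3⟩ := hs3
  obtain ⟨d, hd0, hd⟩ := line hA hI
  have hor : ∀ q : E4, A ⊆ act u b q → ∀ i ∈ A, ⟪u i, q - p1⟫_ℝ = 0 := by
    intro q hq i hi
    rw [← e1] at a1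
    rw [inner_sub_right, mem_act.1 (a1 hi), mem_act.1 (hq hi), sub_self]
  obtain ⟨α, hα⟩ := hd (p2 - p1) (hor p2 (by rw [e2]; exact a2))
  obtain ⟨β, hβ⟩ := hd (p3 - p1) (hor p3 (by rw [e3]; exact a3))
  have f1 : p1 = p1 + (0 : ℝ) • d := by rw [zero_smul, add_zero]
  have f2 : p2 = p1 + α • d := by rw [← hα]; abel
  have f3 : p3 = p1 + β • d := by rw [← hβ]; abel
  have g1 : (0 : ℝ) ≠ α := by
    intro h0
    rw [← h0, ← f1] at f2
    exact h12 (by rw [← e1, ← e2, f2])
  have g2 : (0 : ℝ) ≠ β := by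
    intro h0
    rw [← h0, ← f1] at f3
    exact h13 (by rw [← e1, ← e3, f3])
  have g3 : α ≠ β := by
    intro h0
    rw [← h0, ← f2] at f3
    exact h23 (by rw [← e2, ← e3, f3])
  rcases lt_or_gt_of_ne g1 with k1 | k1 <;> rcases lt_or_gt_of_ne g2 with k2 | k2 <;>
    rcases lt_or_gt_of_ne g3 with k3 | k3
  · exact not_mid' v1 v3 v2 f1 f2 f3 k1 k3 hd0
  · exact not_mid' v1 v2 v3 f1 f3 f2 k2 k3 hd0
  · linarith
  · exact not_mid' v3 v2 v1 f3 f1 f2 k2 k1 hd0
  · exact not_mid' v2 v3 v1 f2 f1 f3 k1 k2 hd0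
  · linarith
  · exact not_mid' v2 v1 v3 f2 f3 f1 k3 k2 hd0
  · exact not_mid' v3 v1 v2 f3 f2 f1 k3 k1 hd0

end Pool.Agent.F32.H4
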