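import Pool.Agent.F32.HSt

/-!
# F32: two adjacent good tets; the number of triples (helper40)
-/

set_option autoImplicit false

namespace Pool.Agent.F32.H4

open Finset QMark Filter Topology Pool.Agent.F32.G4
open scoped InnerProductSpace

/-- in a good quadruple `t = insert a τ` there is exactly one marked pair inside `τ` and the other
one is `{a, r}`, `r` the third element of `τ` -/
theorem good_split {ι : Type} [DecidableEq ι] {M : Finset (Finset ι)} {t : Finset ι} {a : ι}
    (ht : t.card = 4) (ha : a ∈ t) (hG : Good M t) :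
    ∃ r ∈ t.erase a, ({r, a} : Finset ι) ∈ M ∧ (t.erase a).erase r ∈ M ∧
      ∀ x ∈ M, x ⊆ t → x = {r, a} ∨ x = (t.erase a).erase r := by
  obtain ⟨e, het, he2, hM⟩ := hG
  -- wlog `a ∈ e`
  obtain ⟨e, het, he2, hae, hM⟩ : ∃ e, e ⊆ t ∧ e.card = 2 ∧ a ∈ e ∧
      M.filter (fun x => x ⊆ t) = {e, t \ e} := by
    by_cases hae : a ∈ e
    · exact ⟨e, het, he2, hae, hM⟩
    · refine ⟨t \ e, sdiff_subset, ?_, mem_sdiff.mpr ⟨ha, hae⟩, good_symm het hM⟩
      rw [card_sdiff_of_subset het, ht, he2]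
  obtain ⟨r, hr⟩ : ∃ r, e.erase a = {r} := card_eq_one.mp (by rw [card_erase_of_mem hae, he2])
  have hre : r ∈ e.erase a := by rw [hr]; exact mem_singleton_self r
  have hra : r ≠ a := (mem_erase.mp hre).1
  have he : e = {r, a} := by
    rw [← insert_erase hae, hr, pair_comm]
  have hte : t \ e = (t.erase a).erase r := by
    ext i
    rw [he]
    simp only [Finset.mem_sdiff, mem_insert, mem_singleton, mem_erase, not_or]
    tauto
  have hmem : ∀ x, x ∈ M ∧ x ⊆ t ↔ x = e ∨ x = t \ e := by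
    intro x
    have := congrArg (fun F => x ∈ F) hM
    simp only [mem_filter, mem_insert, mem_singleton, eq_iff_iff] at this
    exact this
  refine ⟨r, ?_, ?_, ?_, ?_⟩
  · exact mem_erase.mpr ⟨hra, het (mem_of_mem_erase hre)⟩
  · rw [← he]
    exact ((hmem e).mpr (Or.inl rfl)).1
  · rw [← hte]
    exact ((hmem (t \ e)).mpr (Or.inr rfl)).1
  · intro x hx hxt
    rw [← he, ← hte]
    exact (hmem x).mp ⟨hx, hxt⟩

theorem t_Pair : S_Pair := by
  intro ι _ _ M hM t1 t2 h1 h2 h3 g1 g2
  -- `t1 = insert a τ`, `t2 = insert c τ`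
  obtain ⟨a, ha⟩ : ∃ a, t1 \ t2 = {a} := by
    apply card_eq_one.mp
    have := card_sdiff_add_card_inter t1 t2
    omega
  obtain ⟨c, hc⟩ : ∃ c, t2 \ t1 = {c} := by
    apply card_eq_one.mp
    have := card_sdiff_add_card_inter t2 t1
    rw [inter_comm] at this
    omega
  have ha1 : a ∈ t1 ∧ a ∉ t2 := mem_sdiff.mp (by rw [ha]; exact mem_singleton_self a)
  have hc1 : c ∈ t2 ∧ c ∉ t1 := mem_sdiff.mp (by rw [hc]; exact mem_singleton_self c)
  have e1 : t1.erase a = t1 ∩ t2 := by
    apply (eq_of_subset_of_card_le ?_ ?_).symm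
    · intro i hi
      rw [mem_inter] at hi
      exact mem_erase.mpr ⟨fun h => ha1.2 (h ▸ hi.2), hi.1⟩
    · rw [card_erase_of_mem ha1.1, h1, h3]
  have e2 : t2.erase c = t1 ∩ t2 := by
    apply (eq_of_subset_of_card_le ?_ ?_).symm
    · intro i hi
      rw [mem_inter] at hi
      exact mem_erase.mpr ⟨fun h => hc1.2 (h ▸ hi.1), hi.2⟩
    · rw [card_erase_of_mem hc1.1, h2, h3]
  obtain ⟨r, hr, m1, m2, m3⟩ := good_split h1 ha1.1 g1
  obtain ⟨r', hr', n1, n2, n3⟩ := good_split h2 hc1.1 g2
  rw [e1] at hr m2 m3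
  rw [e2] at hr' n2 n3
  -- `r' = r`
  have hrr : r' = r := by
    have h4 := m3 _ n2 ((erase_subset _ _).trans inter_subset_left)
    rcases h4 with h4 | h4
    · exfalso
      have h5 : a ∈ (t1 ∩ t2).erase r' := by rw [h4]; simp
      exact ha1.2 (mem_inter.mp (mem_of_mem_erase h5)).2
    · by_contra hne
      have h5 : r ∈ (t1 ∩ t2).erase r' := mem_erase.mpr ⟨fun h => hne h.symm, hr⟩
      rw [h4] at h5
      exact (mem_erase.mp h5).1 rfl
  rw [hrr] at n1
  refine ⟨r, a, c, hr, ha1.1, ha1.2, hc1.1, hc1.2, m1, n1, m2, ?_⟩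
  intro k hk hkM
  have h5 : ({r, k} : Finset ι) ⊆ t1 := by
    intro i hi
    rw [mem_insert, mem_singleton] at hi
    rcases hi with rfl | rfl
    · exact (mem_inter.mp hr).1
    · exact (mem_inter.mp hk).1
  rcases m3 _ hkM h5 with h6 | h6
  · have h7 : a ∈ ({r, k} : Finset ι) := by rw [h6]; simp
    rw [mem_insert, mem_singleton] at h7
    rcases h7 with h7 | h7
    · exact ha1.2 (h7 ▸ (mem_inter.mp hr).2)
    · exact ha1.2 (h7 ▸ (mem_inter.mp hk).2)
  · have h7 : r ∈ (t1 ∩ t2).erase r := by rw [← h6]; simp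
    exact (mem_erase.mp h7).1 rfl

theorem t_Sum : S_Sum := by
  classical
  intro ι _ _ u b2 M hM
  have h1 : ∀ r : ι, (Tr u b2 M r).card ≤ 3 * ((Pn M r).card + 5) := by
    intro r
    let S := insert r (Pn M r)
    let J := {i // i ∈ S}
    set 𝒜 : Finset (Finset J) := (Tr u b2 M r).image fun y => y.subtype (· ∈ S) with h𝒜
    have hmem : ∀ A ∈ Tr u b2 M r, A.card = 3 ∧ r ∈ A ∧ A ⊆ S ∧ WitS u b2 S A := by
      intro A hA
      unfold Tr at hA
      exact (mem_filter.mp hA).2
    have hinj : 𝒜.card = (Tr u b2 M r).card := by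
      apply card_image_of_injOn
      intro y hy y' hy' hyy
      have e1 := subtype_map_of_mem (p := (· ∈ S)) (s := y) (hmem y hy).2.2.1
      have e2 := subtype_map_of_mem (p := (· ∈ S)) (s := y') (hmem y' hy').2.2.1
      have e3 : y.subtype (· ∈ S) = y'.subtype (· ∈ S) := hyy
      rw [← e1, ← e2, e3]
    have hb := three_bound (u := fun i : J => u i) (b := fun i : J => b2 i)
      (⟨r, mem_insert_self _ _⟩ : J) 𝒜 (by
        intro A hA
        obtain ⟨y, hy, rfl⟩ := mem_image.mp hA
        obtain ⟨hy1, hy2, hy3, q, hq1, hq2, hind⟩ := hmem y hy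
        refine ⟨?_, ?_, q, ?_, ?_, ?_⟩
        · rw [card_subtype, filter_true_of_mem (fun i hi => hy3 hi), hy1]
        · rw [mem_subtype]
          exact hy2
        · intro i hi
          rw [mem_subtype] at hi
          exact hq1 i hi
        · intro i hi
          rw [mem_subtype] at hi
          exact hq2 i i.2 hi
        · intro c hc i hi
          rw [mem_subtype] at hi
          have h1 := hind (fun j => if hj : j ∈ S then c ⟨j, hj⟩ else 0) (by
            rw [← hc, ← sum_subtype_of_mem _ (p := (· ∈ S)) hy3]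
            apply sum_congr rfl
            intro j _
            simp only [j.2, dite_true]) i hi
          simpa [i.2] using h1)
    rw [hinj, Fintype.card_coe] at hb
    have hc := card_insert_le r (Pn M r)
    show (Tr u b2 M r).card ≤ 3 * ((Pn M r).card + 5)
    have hb' : (Tr u b2 M r).card ≤ 3 * ((insert r (Pn M r)).card + 4) := hb
    omega
  have h2 : ∑ r : ι, (Pn M r).card ≤ 2 * M.card := sum_mem hM
  calc ∑ r : ι, (Tr u b2 M r).card ≤ ∑ r : ι, 3 * ((Pn M r).card + 5) :=
        sum_le_sum fun r _ => h1 r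
    _ = 3 * (∑ r : ι, (Pn M r).card) + 15 * Fintype.card ι := by
        rw [← mul_sum, sum_add_distrib, sum_const, card_univ, smul_eq_mul]
        ring
    _ ≤ 6 * M.card + 15 * Fintype.card ι := by omega

end Pool.Agent.F32.H4
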