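import Pool.Agent.F32.HSt

/-!
# F32, second route: `S_Tet` (helper23)

Faces and vertices of `b` have tets of the perturbed system.
-/

set_option autoImplicit false

namespace Pool.Agent.F32.H4

open Finset QMark Filter Topology Pool.Agent.F32.G4
open scoped InnerProductSpace

/-- Every point of a simple system can be moved to a vertex, keeping the active inequalities and without
decreasing a given linear function. -/
theorem exists_up {ι : Type} [Fintype ι] [DecidableEq ι] {u : ι → E4} {b : ι → ℝ} (h : SP u b)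
    (c : E4) {p : E4} (hp : p ∈ Poly u b) :
    ∃ q ∈ Poly u b, (act u b q).card = 4 ∧ act u b p ⊆ act u b q ∧ ⟪c, p⟫_ℝ ≤ ⟪c, q⟫_ℝ := by
  obtain ⟨m, hm⟩ : ∃ m, 4 - (act u b p).card = m := ⟨_, rfl⟩
  induction m using Nat.strong_induction_on generalizing p with
  | _ m ih =>
    have hcard := h.simple p hp
    by_cases h4 : (act u b p).card = 4
    · exact ⟨p, hp, h4, Subset.refl _, le_rfl⟩
    have hlt : Module.finrank ℝ (Submodule.span ℝ (Set.range fun i : act u b p => u i)) < 4 := by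
      have h1 := finrank_range_le_card (R := ℝ) (fun i : act u b p => u i)
      rw [Set.finrank, Fintype.card_coe] at h1
      omega
    obtain ⟨d0, hd0, hd00⟩ := exists_orth _ hlt
    obtain ⟨d, hd, hdo, hcd⟩ : ∃ d : E4, d ≠ 0 ∧ (∀ i : act u b p, ⟪u i, d⟫_ℝ = 0) ∧
        0 ≤ ⟪c, d⟫_ℝ := by
      rcases le_total 0 ⟪c, d0⟫_ℝ with h1 | h1
      · exact ⟨d0, hd0, hd00, h1⟩
      · refine ⟨-d0, neg_ne_zero.mpr hd0, fun i => ?_, ?_⟩
        · rw [inner_neg_right, hd00 i, neg_zero]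
        · rw [inner_neg_right]
          linarith
    have hd1 : ∀ i ∈ act u b p, ⟪u i, d⟫_ℝ = 0 := fun i hi => hdo ⟨i, hi⟩
    obtain ⟨t, ht, hq, j, hj, hj'⟩ := move h hp hd fun i hi => (hd1 i hi).le
    have hsub : act u b p ⊆ act u b (p + t • d) := by
      intro i hi
      rw [mem_act, inner_add_smul, hd1 i hi, mul_zero, add_zero]
      exact mem_act.mp hi
    have hss : act u b p ⊂ act u b (p + t • d) :=
      (ssubset_iff_of_subset hsub).mpr ⟨j, hj', hj⟩
    have hlt2 := card_lt_card hss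
    have hle2 := h.simple _ hq
    obtain ⟨q, hq1, hq2, hq3, hq4⟩ := ih (4 - (act u b (p + t • d)).card) (by omega) hq rfl
    refine ⟨q, hq1, hq2, hsub.trans hq3, le_trans ?_ hq4⟩
    rw [inner_add_right, inner_smul_right]
    have := mul_nonneg ht.le hcd
    linarith

theorem tet_one (hCl : S_Cl) (hGap : S_Gap) (ι : Type) [Fintype ι] [DecidableEq ι] (u : ι → E4)
    (b : ι → ℝ) (hP : P4 u b) (η : ι → ℝ) (e : Finset ι) (he : ∃ g ∈ Poly u b, act u b g = e)
    (hi : Ind u e) (s : Finset ι) (hs : s ∈ vts u b) (hes : e ⊆ s) :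
    ∀ᶠ t in 𝓝[>] (0 : ℝ), Gn u (bt b η t) → ∃ t' ∈ tets u (bt b η t), e ⊆ t' ∧ t' ⊆ s := by
  classical
  obtain ⟨g, hg, hge⟩ := he
  obtain ⟨p, hp, hps⟩ : ∃ p, Vx u b p ∧ act u b p = s := by
    simpa [vts] using hs
  obtain ⟨w, hw⟩ := exists_inner (fun i : e => u i) (ind_iff.mp hi) (fun i => η i)
  obtain ⟨c, γ, hγ, hγ'⟩ := hGap ι u b hP p hp
  obtain ⟨C, hC, hCt⟩ := hCl ι u b hP η
  -- the constant `K`
  obtain ⟨K, hK⟩ : ∃ K : ℝ, ∀ i, i ∉ e → ⟪u i, w⟫_ℝ - η i ≤ K * (b i - ⟪u i, g⟫_ℝ) := by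
    have h1 : ∀ᶠ K : ℝ in atTop, ∀ i, i ∉ e → ⟪u i, w⟫_ℝ - η i ≤ K * (b i - ⟪u i, g⟫_ℝ) := by
      refine eventually_all.2 fun i => ?_
      by_cases hie : i ∈ e
      · exact Eventually.of_forall fun K h => absurd hie h
      · have h2 : 0 < b i - ⟪u i, g⟫_ℝ := by
          refine sub_pos.2 (lt_of_le_of_ne (hg i) fun h => hie ?_)
          rw [← hge, mem_act]
          exact h
        filter_upwards [(tendsto_id.atTop_mul_const h2).eventually_ge_atTop
          (⟪u i, w⟫_ℝ - η i)] with K hK _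
        exact hK
    exact h1.exists
  set v : E4 := K • (g - p) + w with hv
  have hiv : ∀ i, ⟪u i, v⟫_ℝ = K * (⟪u i, g⟫_ℝ - ⟪u i, p⟫_ℝ) + ⟪u i, w⟫_ℝ := by
    intro i
    rw [hv, inner_add_right, inner_smul_right, inner_sub_right]
  have hpe : ∀ i ∈ s, ⟪u i, p⟫_ℝ = b i := by
    intro i hi
    rw [← hps, mem_act] at hi
    exact hi
  have hge' : ∀ i ∈ e, ⟪u i, g⟫_ℝ = b i := by
    intro i hi
    rw [← hge, mem_act] at hi
    exact hi
  -- the inequalities not active at `p`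
  have hout : ∀ᶠ t in 𝓝[>] (0 : ℝ), ∀ i, i ∉ s →
      ⟪u i, p⟫_ℝ + t * ⟪u i, v⟫_ℝ < b i + t * η i := by
    refine eventually_all.2 fun i => ?_
    by_cases his : i ∈ s
    · exact Eventually.of_forall fun t h => absurd his h
    · have h2 : ⟪u i, p⟫_ℝ < b i := by
        refine lt_of_le_of_ne (hp.1 i) fun h => his ?_
        rw [← hps, mem_act]
        exact h
      filter_upwards [ev_lt (y := ⟪u i, v⟫_ℝ) (d := η i) h2] with t ht _
      exact ht
  have hlast : ∀ᶠ t in 𝓝[>] (0 : ℝ), γ + t * (‖c‖ * C) < ⟪c, p⟫_ℝ + t * ⟪c, v⟫_ℝ := ev_lt hγ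
  filter_upwards [hCt, hout, hlast, self_mem_nhdsWithin] with t h1 h2 h3 ht hGn
  have ht0 : (0 : ℝ) < t := ht
  -- the point `y0`
  have hy0 : p + t • v ∈ Poly u (bt b η t) := by
    intro i
    rw [inner_add_smul]
    show _ ≤ b i + t * η i
    by_cases his : i ∈ s
    · by_cases hie : i ∈ e
      · have h4 := hw ⟨i, hie⟩
        simp only at h4
        rw [hiv, hge' i hie, hpe i his, h4]
        simp
      · have h4 := hK i hie
        rw [hiv, hpe i his]
        have h5 : K * (⟪u i, g⟫_ℝ - b i) + ⟪u i, w⟫_ℝ ≤ η i := by linarith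
        have h6 := mul_le_mul_of_nonneg_left h5 ht0.le
        linarith
    · exact (h2 i his).le
  have hye : e ⊆ act u (bt b η t) (p + t • v) := by
    intro i hie
    rw [mem_act, inner_add_smul]
    show _ = b i + t * η i
    have h4 := hw ⟨i, hie⟩
    simp only at h4
    rw [hiv, hge' i hie, hpe i (hes hie), h4]
    simp
  obtain ⟨q, hq, hq4, hqe, hqc⟩ := exists_up hGn.1 c hy0
  obtain ⟨p', hp', hsub, hdist⟩ := h1 hGn q hq hq4
  have hpp : p' = p := by
    by_contra hne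
    have h4 := hγ' p' hp' hne
    have h5 : ⟪c, q⟫_ℝ - ⟪c, p'⟫_ℝ ≤ ‖c‖ * (C * t) := by
      rw [← inner_sub_right]
      exact (real_inner_le_norm _ _).trans (mul_le_mul_of_nonneg_left hdist (norm_nonneg _))
    rw [inner_add_right, inner_smul_right] at hqc
    nlinarith
  refine ⟨act u (bt b η t) q, mem_tets.2 ⟨hq4, q, hq, rfl⟩, hye.trans hqe, ?_⟩
  rw [hpp, hps] at hsub
  exact hsub

theorem t_Tet (hCl : S_Cl) (hGap : S_Gap) : S_Tet := by
  classical
  intro ι _ _ u b hP η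
  have h1 : ∀ᶠ t in 𝓝[>] (0 : ℝ), ∀ e : Finset ι, ∀ s : Finset ι, Gn u (bt b η t) →
      (∃ g ∈ Poly u b, act u b g = e) → Ind u e → s ∈ vts u b → e ⊆ s →
      ∃ t' ∈ tets u (bt b η t), e ⊆ t' ∧ t' ⊆ s := by
    refine eventually_all.2 fun e => eventually_all.2 fun s => ?_
    by_cases h : (∃ g ∈ Poly u b, act u b g = e) ∧ Ind u e ∧ s ∈ vts u b ∧ e ⊆ s
    · obtain ⟨ha, hb, hc, hd⟩ := h
      filter_upwards [tet_one hCl hGap ι u b hP η e ha hb s hc hd] with t ht hG _ _ _ _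
      exact ht hG
    · exact Eventually.of_forall fun t _ ha hb hc hd => absurd ⟨ha, hb, hc, hd⟩ h
  filter_upwards [h1] with t ht hG e he hi s hs hes
  exact ht e s hG he hi hs hes

end Pool.Agent.F32.H4
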