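import Pool.Agent.F32.HSt

/-!
# F32, WIT: the third facet (helper43)
-/

set_option autoImplicit false

namespace Pool.Agent.F32.H4

open Finset QMark Filter Topology Pool.Agent.F32.G4
open scoped InnerProductSpace

lemma ind_sub43 {ι : Type} [DecidableEq ι] {u : ι → E4} {A B : Finset ι} (h : Ind u A)
    (hB : B ⊆ A) : Ind u B := by
  intro c hc i hi
  have h1 : ∑ j ∈ A, (if j ∈ B then c j else 0) • u j = 0 := by
    rw [← hc, ← sum_subset hB]
    · exact sum_congr rfl fun j hj => by rw [if_pos hj]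
    · intro j _ hj
      rw [if_neg hj, zero_smul]
  have h2 := h _ h1 i (hB hi)
  rwa [if_pos hi] at h2

theorem t_Wit (hCl : S_Cl) (hIn3 : S_In3) : S_Wit := by
  intro ι _ _ u b hP η
  obtain ⟨C, hC, hCe⟩ := hCl ι u b hP η
  have hp : ∀ s : Finset ι, ∃ p, s ∈ vts u b → Vx u b p ∧ act u b p = s := by
    intro s
    by_cases hs : s ∈ vts u b
    · classical
      have hs' := hs
      unfold vts at hs'
      obtain ⟨p, h1, h2⟩ := (mem_filter.mp hs').2
      exact ⟨p, fun _ => ⟨h1, h2⟩⟩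
    · exact ⟨0, fun h => absurd h hs⟩
  choose pt hpt using hp
  have hd : ∀ (s : Finset ι) (r a c : ι), ∃ d : E4, s ∈ vts u b → r ∈ s → a ∈ s → c ∈ s →
      c ≠ a → c ≠ r → ⟪u r, d⟫_ℝ = 0 ∧ ⟪u a, d⟫_ℝ = 0 ∧ ⟪u c, d⟫_ℝ = 1 := by
    intro s r a c
    by_cases hs : s ∈ vts u b ∧ r ∈ s ∧ a ∈ s ∧ c ∈ s ∧ c ≠ a ∧ c ≠ r
    · obtain ⟨h1, h2, h3, h4, h5, h6⟩ := hs
      have hI : Ind u ({r, a, c} : Finset ι) := by
        refine hIn3 ι u b hP s h1 _ ?_ card_le_three
        intro x hx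
        simp only [mem_insert, mem_singleton] at hx
        rcases hx with rfl | rfl | rfl <;> assumption
      obtain ⟨v, hv⟩ := exists_inner (fun i : ({r, a, c} : Finset ι) => u i) (ind_iff.mp hI)
        (fun i => if i.1 = c then 1 else 0)
      refine ⟨v, fun _ _ _ _ _ _ => ⟨?_, ?_, ?_⟩⟩
      · have := hv ⟨r, by simp⟩
        simpa [h6.symm] using this
      · have := hv ⟨a, by simp⟩
        simpa [h5.symm] using this
      · have := hv ⟨c, by simp⟩
        simpa using this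
    · exact ⟨0, fun h1 h2 h3 h4 h5 h6 => absurd ⟨h1, h2, h3, h4, h5, h6⟩ hs⟩
  choose dd hdd using hd
  have ev : ∀ᶠ t in 𝓝[>] (0 : ℝ), ∀ (s : Finset ι) (r a c i : ι), s ∈ vts u b → i ∉ s →
      ⟪u i, pt s⟫_ℝ + t * (‖u i‖ * (C + (|η c| + ‖u c‖ * C) * ‖dd s r a c‖)) <
        b i + t * η i := by
    rw [eventually_all]
    intro s
    rw [eventually_all]
    intro r
    rw [eventually_all]
    intro a
    rw [eventually_all]
    intro c
    rw [eventually_all]
    intro i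
    by_cases hs : s ∈ vts u b ∧ i ∉ s
    · have h1 : ⟪u i, pt s⟫_ℝ < b i := by
        obtain ⟨h2, h3⟩ := hpt s hs.1
        refine lt_of_le_of_ne (h2.1 i) fun he => hs.2 ?_
        rw [← h3]
        exact mem_act.mpr he
      filter_upwards [ev_lt h1] with t ht _ _
      exact ht
    · exact Eventually.of_forall fun t h1 h2 => absurd ⟨h1, h2⟩ hs
  filter_upwards [hCe, ev, self_mem_nhdsWithin] with t hCt hev ht0 hG
  intro M r a c hrM haM hcM hca s hs hcs t' ht' hts htM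
  replace ht0 : 0 < t := ht0
  obtain ⟨hV, hact⟩ := hpt s hs
  obtain ⟨h4, q1, hq1, hqa⟩ := mem_tets.mp ht'
  have hcr : c ≠ r := fun h => hrM (h ▸ hcM)
  have hrt : r ∈ t' := by
    have : r ∈ t' ∩ insert r M := by rw [htM]; simp
    exact (mem_inter.mp this).1
  have hat : a ∈ t' := by
    have : a ∈ t' ∩ insert r M := by rw [htM]; simp
    exact (mem_inter.mp this).1
  obtain ⟨hdr, hda, hdc⟩ := hdd s r a c hs (hts hrt) (hts hat) hcs hca hcr
  set d0 := dd s r a c with hd0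
  -- the vertex
  have hqp : ‖q1 - pt s‖ ≤ C * t := by
    obtain ⟨p', hp', hsub, hn⟩ := hCt hG q1 hq1 (by rw [hqa]; exact h4)
    have h5 : p' = pt s := by
      have h6 := eq_zero_of_orth hG.1 hq1 (by rw [hqa]; exact h4) (r := p' - pt s) fun i hi => by
        have h7 : i ∈ act u b (pt s) := by
          rw [hact]
          rw [hqa] at hi
          exact hts hi
        rw [inner_sub_right, mem_act.mp (hsub hi), mem_act.mp h7, sub_self]
      exact sub_eq_zero.mp h6
    rw [← h5]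
    exact hn
  -- the third facet
  set lam : ι → ℝ := fun i => (bt b η t i - ⟪u i, q1⟫_ℝ) / ⟪u i, d0⟫_ℝ with hlam
  have hne : ((insert r M).filter fun i => 0 < ⟪u i, d0⟫_ℝ).Nonempty :=
    ⟨c, mem_filter.mpr ⟨mem_insert_of_mem hcM, by rw [hdc]; exact one_pos⟩⟩
  obtain ⟨a', ha', hmin⟩ := exists_min_image _ lam hne
  obtain ⟨haS, hapos⟩ := mem_filter.mp ha'
  have har : a' ≠ r := by
    rintro rfl
    rw [hdr] at hapos
    exact lt_irrefl _ hapos
  have haa : a' ≠ a := by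
    rintro rfl
    rw [hda] at hapos
    exact lt_irrefl _ hapos
  have haM' : a' ∈ M := (mem_insert.mp haS).resolve_left har
  have hl0 : 0 ≤ lam a' := div_nonneg (sub_nonneg.mpr (hq1 a')) hapos.le
  have hlc : lam a' ≤ t * (|η c| + ‖u c‖ * C) := by
    refine (hmin c (mem_filter.mpr ⟨mem_insert_of_mem hcM, by rw [hdc]; exact one_pos⟩)).trans ?_
    simp only [hlam, hdc, div_one, bt]
    have h5 : ⟪u c, pt s⟫_ℝ = b c := by
      apply mem_act.mp
      rw [hact]
      exact hcs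
    have h6 : |⟪u c, q1 - pt s⟫_ℝ| ≤ ‖u c‖ * (C * t) :=
      (abs_real_inner_le_norm _ _).trans (mul_le_mul_of_nonneg_left hqp (norm_nonneg _))
    rw [inner_sub_right, h5] at h6
    have h7 := (abs_le.mp h6).1
    have h8 : t * η c ≤ t * |η c| := mul_le_mul_of_nonneg_left (le_abs_self _) ht0.le
    linarith
  set q2 := q1 + lam a' • d0 with hq2
  have hS2 : ∀ i ∈ insert r M, ⟪u i, q2⟫_ℝ ≤ bt b η t i := by
    intro i hi
    rw [hq2, inner_add_smul]
    have h5 := hq1 i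
    rcases le_or_gt (⟪u i, d0⟫_ℝ) 0 with h6 | h6
    · have h7 := mul_nonneg hl0 (neg_nonneg.mpr h6)
      linarith
    · have h7 := hmin i (mem_filter.mpr ⟨hi, h6⟩)
      have h8 : lam a' * ⟪u i, d0⟫_ℝ ≤ bt b η t i - ⟪u i, q1⟫_ℝ := by
        rw [← le_div_iff₀ h6]
        exact h7
      linarith
  have hr2 : ⟪u r, q2⟫_ℝ = bt b η t r := by
    rw [hq2, inner_add_smul, hdr, mul_zero, add_zero]
    apply mem_act.mp
    rw [hqa]
    exact hrt
  have ha2 : ⟪u a, q2⟫_ℝ = bt b η t a := by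
    rw [hq2, inner_add_smul, hda, mul_zero, add_zero]
    apply mem_act.mp
    rw [hqa]
    exact hat
  have ha'2 : ⟪u a', q2⟫_ℝ = bt b η t a' := by
    rw [hq2, inner_add_smul, hlam]
    simp only
    rw [div_mul_cancel₀ _ hapos.ne']
    ring
  have hq2p : ‖q2 - pt s‖ ≤ (C + (|η c| + ‖u c‖ * C) * ‖d0‖) * t := by
    have h5 : q2 - pt s = (q1 - pt s) + lam a' • d0 := by
      rw [hq2]
      abel
    rw [h5]
    refine (norm_add_le _ _).trans ?_
    rw [norm_smul, Real.norm_of_nonneg hl0]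
    have h6 := mul_le_mul_of_nonneg_right hlc (norm_nonneg d0)
    linarith
  have ha's : a' ∈ s := by
    by_contra hc
    have h5 := hev s r a c a' hs hc
    have h6 : ⟪u a', q2 - pt s⟫_ℝ ≤ ‖u a'‖ * ((C + (|η c| + ‖u c‖ * C) * ‖d0‖) * t) :=
      (real_inner_le_norm _ _).trans (mul_le_mul_of_nonneg_left hq2p (norm_nonneg _))
    rw [inner_sub_right, ha'2] at h6
    unfold bt at h6
    rw [← hd0] at h5
    linarith
  refine ⟨a', haM', haa, ha's, ?_⟩
  -- the witness
  have hI := hG.2 q2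
  obtain ⟨d1, hd1⟩ := exists_inner (fun i : act u (bt b η t) q2 => u i) (ind_iff.mp hI)
    (fun i => if i.1 ∈ ({r, a, a'} : Finset ι) then 0 else -1)
  have hd1' : ∀ i ∈ act u (bt b η t) q2,
      ⟪u i, d1⟫_ℝ = if i ∈ ({r, a, a'} : Finset ι) then 0 else -1 := fun i hi => hd1 ⟨i, hi⟩
  have hsub : ({r, a, a'} : Finset ι) ⊆ act u (bt b η t) q2 := by
    intro x hx
    simp only [mem_insert, mem_singleton] at hx
    rw [mem_act]
    rcases hx with rfl | rfl | rfl <;> assumption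
  have ev3 : ∀ᶠ τ in 𝓝[>] (0 : ℝ), ∀ i, i ∈ insert r M → i ∉ act u (bt b η t) q2 →
      ⟪u i, q2⟫_ℝ + τ * ⟪u i, d1⟫_ℝ < bt b η t i + τ * 0 := by
    rw [eventually_all]
    intro i
    by_cases hi : i ∈ insert r M ∧ i ∉ act u (bt b η t) q2
    · have h5 : ⟪u i, q2⟫_ℝ < bt b η t i :=
        lt_of_le_of_ne (hS2 i hi.1) fun he => hi.2 (mem_act.mpr he)
      filter_upwards [ev_lt h5] with τ hτ _ _
      exact hτ
    · exact Eventually.of_forall fun τ h1 h2 => absurd ⟨h1, h2⟩ hi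
  obtain ⟨τ, hτ1, hτ2⟩ := (ev3.and self_mem_nhdsWithin).exists
  replace hτ2 : 0 < τ := hτ2
  refine ⟨q2 + τ • d1, ?_, ?_, ind_sub43 hI hsub⟩
  · intro i hi
    rw [inner_add_smul, hd1' i (hsub hi), if_pos hi, mul_zero, add_zero]
    exact mem_act.mp (hsub hi)
  · intro i hiS hi
    rw [inner_add_smul]
    by_cases hia : i ∈ act u (bt b η t) q2
    · rw [hd1' i hia, if_neg hi, mem_act.mp hia]
      linarith
    · have h5 := hτ1 i hiS hia
      linarith

end Pool.Agent.F32.H4
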