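import Pool.Agent.F32.H_Fin
import Pool.Agent.F32.H_Eta
import Pool.Agent.F32.H_Cl
import Pool.Agent.F32.H_Tet
import Pool.Agent.F32.H_In3
import Pool.Agent.F32.H_Adj
import Pool.Agent.F32.H_Crs
import Pool.Agent.F32.H_Wit
import Pool.Agent.F32.H_Pair
import Pool.Agent.F32.H_F3c
import Pool.Agent.F32.H_F2c
import Pool.Agent.F32.G4_Uni
import Pool.Agent.F32.G4_Kv3
import Pool.Agent.F32.F1

/-!
# F32: the closed theorems for all 4-polytopes (helper40)
-/

set_option autoImplicit false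

namespace Pool.Agent.F32.H4

open Pool.Agent.F32.G4

theorem near : S_Near :=
  t_Near t_Eta t_Cl (t_Tet t_Cl t_Gap) t_In3 (t_Adj t_Cl (t_Tet t_Cl t_Gap) t_Emp) (t_Crs t_Cl)
    (t_Wit t_Cl t_In3)

theorem f23 : StmtF2 ∧ StmtF3 :=
  t_Fin near (t_F3c t_Two t_Pair t_Sum t_Uni) (t_F2c t_Two t_Pair t_Sum t_Uni) f1

/-- almost all 2-faces of every 4-polytope are quadrilaterals -/
theorem f2 : StmtF2 := f23.1

/-- almost all vertices of every 4-polytope are simple -/
theorem f3 : StmtF3 := f23.2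

theorem kv3 : StmtKv3 := t_Kv3

end Pool.Agent.F32.H4
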