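import Pool.Agent.QMark.Brd

/-!
# F32: all 4-polytopes (helper68)

From simple 4-polytopes to all 4-polytopes: statements. A 4-polytope `P = Poly u b`, all `i : ι` are
facets (`P4`). `vts u b`: the active sets of the vertices; `tf u b`: the 2-faces; `kv u b e`: the
number of vertices of the 2-face `e`. Only `b` is perturbed, `u` is fixed.
-/

set_option autoImplicit false

namespace Pool.Agent.F32.G4

open Finset QMark
open scoped InnerProductSpace

/-- `Poly u b` is a 4-polytope (or empty index set), every `i` is a facet -/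
structure P4 {ι : Type} [Fintype ι] [DecidableEq ι] (u : ι → E4) (b : ι → ℝ) : Prop where
  bdd : Bornology.IsBounded (Poly u b)
  facet : ∀ i, ∃ p ∈ Poly u b, act u b p = {i}

/-- `p` is a vertex -/
def Vx {ι : Type} [Fintype ι] [DecidableEq ι] (u : ι → E4) (b : ι → ℝ) (p : E4) : Prop :=
  p ∈ Poly u b ∧ ∀ d : E4, (∀ i ∈ act u b p, ⟪u i, d⟫_ℝ = 0) → d = 0

open Classical in
/-- the active sets of the vertices -/
noncomputable def vts {ι : Type} [Fintype ι] [DecidableEq ι] (u : ι → E4) (b : ι → ℝ) :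
    Finset (Finset ι) :=
  univ.filter fun s => ∃ p, Vx u b p ∧ act u b p = s

open Classical in
/-- the 2-faces -/
noncomputable def tf {ι : Type} [Fintype ι] [DecidableEq ι] (u : ι → E4) (b : ι → ℝ) :
    Finset (Finset ι) :=
  univ.filter fun e => e.card = 2 ∧ ∃ q ∈ Poly u b, act u b q = e

/-- the number of vertices of a 2-face -/
noncomputable def kv {ι : Type} [Fintype ι] [DecidableEq ι] (u : ι → E4) (b : ι → ℝ)
    (e : Finset ι) : ℕ :=
  ((vts u b).filter fun s => e ⊆ s).card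

/-- `b1` is a relaxation of `b` outside `R` -/
def Relx {ι : Type} [Fintype ι] [DecidableEq ι] (u : ι → E4) (b : ι → ℝ) (R : Finset ι)
    (b1 : ι → ℝ) : Prop :=
  P4 u b1 ∧ ∀ p ∈ Poly u b, p ∈ Poly u b1 ∧ act u b1 p = act u b p ∩ R

/-- `b2` is a small generic perturbation of `b` -/
structure Pert {ι : Type} [Fintype ι] [DecidableEq ι] (u : ι → E4) (b b2 : ι → ℝ) : Prop where
  sp : SP u b2
  four : ∀ s ∈ vts u b, s.card = 4 → s ∈ tets u b2
  tet : ∀ e ∈ tf u b, ∀ s ∈ vts u b, e ⊆ s → ∃ t ∈ tets u b2, e ⊆ t ∧ t ⊆ s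
  five : ∀ s ∈ vts u b, s.card = 5 → ∃ t1 ∈ tets u b2, ∃ t2 ∈ tets u b2, t1 ≠ t2 ∧ t1 ⊆ s ∧
    t2 ⊆ s ∧ ∃ e ∈ tf u b, ∃ e' ∈ tf u b, e ≠ e' ∧ e ⊆ t1 ∩ t2 ∧ e' ⊆ t1 ∩ t2

/-- **REL.** Relaxation (uses nothing).
PROOF. `b1 j = b j` for `j ∈ R`, `b1 j = b j + t` for `j ∉ R`, `t > 0` small. `act u b1 p = act u b p ∩ R` for
`p ∈ Poly u b` (any `t > 0`). Bounded: if `Poly u b` is bounded and not empty then there is no `d ≠ 0` with
`⟪u i, d⟫ ≤ 0` for all `i` (the ray `p + s d` stays inside), and then `Poly u b'` is bounded for every `b'` (compactness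
of the unit sphere: `max_i ⟪u i, d⟫ ≥ c > 0` on it; or: a sequence / `Metric.isBounded`; if `ι` is empty `Poly u b` is the whole
space, which is not bounded, so `ι` is not empty and `facet` gives a point). Facets: `j ∈ R`: the
same point. `j ∉ R`: `x + t w` with `act u b x = {j}`, `⟪u j, w⟫ = 1` (`u j ≠ 0`, otherwise `0 = b j` and the points `y` with
`act u b y = {k}` ... (if `u j = 0` and `b j = 0` then `j` is active everywhere: then `{j}` is the only active set, every `k ≠ j` has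
no facet point; `ι = {j}`, `Poly u b` is the whole space, not bounded), and `t` so small that the other inequalities, strict at
`x`, remain strict. -/
def StmtRel : Prop := ∀ (ι : Type) [Fintype ι] [DecidableEq ι] (u : ι → E4) (b : ι → ℝ), P4 u b →
  ∀ R : Finset ι, ∃ b1 : ι → ℝ, Relx u b R b1

/-- **GEN.** Generic perturbation (uses nothing). `b2 = b + t η`.
PROOF. (1) For every `5`-set `S` there is `lam^S ≠ 0` with `∑_(i ∈ S) lam_i u_i = 0`. Choose `η` outside the hyperplanes
`∑_(i ∈ S) lam_i η_i = 0` (finite union of proper subspaces; for the five-sets of (4) the relation is unique up to a factor).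
For all small `t > 0`: `∑ lam_i (b_i + t η_i) ≠ 0` for all `S`, so at most four inequalities are active at a point: `SP`
(bounded as in REL).
(2) `four` and (4): for `p ∈ Poly u b` and `s ⊆ act u b p` with `u` linearly independent on `s`, let `⟪u i, d⟫ = η i` on
`s`; if `⟪u j, d⟫ < η j` for the other `j ∈ act u b p` then `p + t d ∈ Poly u b2` with active set `s`, `t` small.
(3) `tet`: `e = {a, b'}`, `g` with `act u b g = e`, `w` with `⟪u i, w⟫ = η i` on `e`. `y0 = (1 - K t) p + K t g + t w ∈ Poly u b2`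
for `K` large, `t` small, with `e` active. Let `c = ∑_(j ∈ s \ e) u_j`, `y` a point of the compact set `Poly u b2 ∩ {e active}` where
`⟪c, y⟫` is maximal; among these one with maximal active set (so that it is a vertex: `t := act` is in `tets`: if `|act y| < 4` there is
`d ≠ 0` orthogonal to `u` on `act y`; `⟪c, d⟫ = 0` by maximality (both directions are possible for a short time), move until a new
inequality is active). `⟪c, y⟫ ≥ ⟪c, y0⟫ ≥ ⟪c, p⟫ - C t`, and `⟪u j, y - p⟫ ≤ t η j` for all `j ∈ s`, `= t η j` on `e`: so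
`|⟪u j, y - p⟫| ≤ C' t` for `j ∈ s`, `‖y - p‖ ≤ C'' t` (`u` on `s` has rank 4), so for small `t` only inequalities of `s` are active at `y`.
(4) `five`: `Z = act u b p`, `|Z| = 5`, relation `lam` (`∑_Z lam_i u_i = 0`, so `∑_Z lam_i b_i = 0` by pairing with `p`, unique up to
a factor). For `i ∈ Z` the point `x_i` with active set `{i}`: `∑_(j ∈ Z) lam_j (b_j - ⟪u j, x_i⟫) = 0`, so the `lam_j`, `j ≠ i`, have
both signs or are all zero; so there are at least two positive and two negative `lam_j`. `σ = ∑_Z lam_i η_i ≠ 0`. If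
`lam_α σ > 0`: `s = Z \ {α}` is independent, `⟪u i, d⟫ = η i` on `s` gives `⟪u α, d⟫ = η α - σ / lam_α < η α`: `Z \ {α} ∈ tets` by (2).
Two such `α, β`: `t1, t2`; `y = t1 ∩ t2 = Z \ {α, β}`, three elements. A pair `{i, j} ⊆ Z` such that the three other `lam_k` have both
signs is in `tf u b`: choose `m_k > 0` with `∑ lam_k m_k = 0` (`k ∈ Z \ {i, j}`), `d` with `⟪u i, d⟫ = ⟪u j, d⟫ = 0`, `⟪u k, d⟫ = - m_k`, the
point `p + ε d`. The other pairs contain all positive or all negative `k`: they are `Z_+` if `|Z_+| = 2` and `Z_-` if `|Z_-| = 2`, disjoint,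
so at most one of the three pairs in `y` is not in `tf u b`. -/
def StmtGen : Prop := ∀ (ι : Type) [Fintype ι] [DecidableEq ι] (u : ι → E4) (b : ι → ℝ), P4 u b →
  ∃ b2 : ι → ℝ, Pert u b b2

/-- **UNI.** A tet is below at most one vertex (uses nothing): `u` is linearly independent on `t` (`QMark.indep`). -/
def StmtUni : Prop := ∀ (ι : Type) [Fintype ι] [DecidableEq ι] (u : ι → E4) (b b2 : ι → ℝ),
  SP u b2 → ∀ t ∈ tets u b2, ∀ s ∈ vts u b, ∀ s' ∈ vts u b, t ⊆ s → t ⊆ s' → s = s'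

/-- **MOM.** (uses GEN, UNI).
PROOF. `∑_s |s|^2 = ∑_(i, j) #{s ∋ i, j}`. `i = j`: `∑_s |s|`; every `i ∈ s` is in some `e ∈ tf u b`, `e ⊆ s` ... or simply bound
`|s| ≤ ∑_(j ≠ i) ..` (as `|s| ≥ 4`, `|s|^2 ≤ 2 |s| (|s| - 1)`), so only `i ≠ j`: if `{i, j} ∈ tf u b`: `kv u b {i,j} ≤ size u b2 {i,j}` (`tet`, UNI), and
`∑_e size u b2 e = 6 |tets| ≤ C n^2`. Otherwise at most two vertices contain `i, j`: three different vertices `p1, p2, p3` are not
on a line; all of `A = act ((p1 + p2 + p3)/3) = act p1 ∩ act p2 ∩ act p3` is orthogonal to a plane; `A ≠ {i, j}` so `A` contains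
a third `l`; `α u_i + β u_j + γ u_l = 0` not trivial, the same for `b` (pair with `p1`); evaluating at the facet points of
`i`, `j`, `l` gives that any two of `α, β, γ` have opposite signs or are both zero: a contradiction. -/
def StmtMom : Prop := ∃ C : ℝ, 0 < C ∧ ∀ (ι : Type) [Fintype ι] [DecidableEq ι] (u : ι → E4)
  (b : ι → ℝ), P4 u b → (∑ s ∈ vts u b, (s.card : ℝ) ^ 2) ≤ C * (Fintype.card ι : ℝ) ^ 2

/-- **ATV.** The number of 2-faces at a vertex: `KAG.t_AtV` (normal form `b = 1` by an interior point). -/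
def StmtAt : Prop := ∀ (ι : Type) [Fintype ι] [DecidableEq ι] (u : ι → E4) (b : ι → ℝ), P4 u b →
  ∀ s ∈ vts u b, ((tf u b).filter fun e => e ⊆ s).card ≤ 12 * s.card

/-- **TRI.** A triangle becomes a simple triangle (uses nothing).
PROOF. `e = {a, b'}`, vertices `p1, p2, p3` with active sets `s1, s2, s3`; the face `F = {e active}` is the triangle `p1 p2 p3`
(a compact convex set is the hull of its extreme points; the extreme points of `F` are vertices). The midpoint of
`p1 p2` has active set `s1 ∩ s2`, which is not `e` (otherwise `F` would contain a point beyond it): `x3 ∈ s1 ∩ s2 \ e`; similarly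
`x1 ∈ s2 ∩ s3 \ e`, `x2 ∈ s1 ∩ s3 \ e`. `x3 ∉ s3` (otherwise `x3` is active on all of `F`, but some point has active set `e`). So the
`x_i` are different. `W = s1 ∪ s2 ∪ s3`, `c = e ∪ {x1, x2, x3}`. Let `R ∩ W = c`: `act u b1 p1 = e ∪ {x2, x3}` and so on; these are
vertices of `b1` (`d` orthogonal to `u` on `e ∪ {x2, x3}`: `d` is in the span of `p2 - p1`, `p3 - p1`, and `⟪u x3, p2 - p1⟫ = 0`,
`⟪u x3, p3 - p1⟫ < 0`, ...: `d = 0`), so by `four` they are in `tets u b2`. There is no other `t ∈ tets u b2` with `e ⊆ t`: let `q1, q2, q3` be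
the points of the three tets and `y` the point of `t`; `q2 - q1, q3 - q1` span the plane orthogonal to `u` on `e`, so
`y = c1 q1 + c2 q2 + c3 q3`, `c1 + c2 + c3 = 1`; `x3` is active at `q1, q2`, not at `q3`, so `c3 ≥ 0`; also `c1, c2 ≥ 0`; if `y` is not one of
the `q_i` then two of the `c_i` are positive and the active set of `y` has at most three elements. So `size u b2 e = 3`. -/
def StmtTri : Prop := ∀ (ι : Type) [Fintype ι] [DecidableEq ι] (u : ι → E4) (b : ι → ℝ), P4 u b →
  ∀ e ∈ tf u b, kv u b e = 3 → ∃ c : Finset ι,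
    c ⊆ ((vts u b).filter fun s => e ⊆ s).biUnion id ∧
    ∀ R : Finset ι, R ∩ (((vts u b).filter fun s => e ⊆ s).biUnion id) = c →
    ∀ b1, Relx u b R b1 → ∀ b2, Pert u b1 b2 → e ∈ faces u b2 2 ∧ size u b2 e = 3

/-- **SIMPLE CASE** (the theorem of F1). -/
def StmtF1 : Prop := ∀ ε : ℝ, 0 < ε → ∃ n0 : ℕ, ∀ (ι : Type) [Fintype ι] [DecidableEq ι]
  (u : ι → E4) (b : ι → ℝ), SP u b → n0 ≤ Fintype.card ι →
  ((nonq u b).card : ℝ) ≤ ε * (Fintype.card ι : ℝ) ^ 2

/-- **F2.** (uses `StmtF1`, REL, GEN, UNI, MOM, ATV, TRI).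
PROOF. `kv e ≥ 5`: `size u b2 e ≥ kv e` (`tet`, UNI), so `e ∈ nonq u b2`. `kv e = 3` and all `|s| ≤ M` for the `s ∈ vts`, `e ⊆ s`: for
`2^(n - |W|)` of the `2^n` sets `R` (`|W| ≤ 3 M`) `e ∈ nonq u (b2 R)`; so the number of these `e` is at most `2^(3 M) ε' n^2`. Other `e`: at
most `∑_(|s| > M) 12 |s| ≤ 12 C n^2 / M`. -/
def StmtF2 : Prop := ∀ ε : ℝ, 0 < ε → ∃ n0 : ℕ, ∀ (ι : Type) [Fintype ι] [DecidableEq ι]
  (u : ι → E4) (b : ι → ℝ), P4 u b → n0 ≤ Fintype.card ι →
  (((tf u b).filter fun e => kv u b e = 3 ∨ 5 ≤ kv u b e).card : ℝ) ≤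
    ε * (Fintype.card ι : ℝ) ^ 2

/-- **KV3.** Every 2-face has at least three vertices (uses nothing). -/
def StmtKv3 : Prop := ∀ (ι : Type) [Fintype ι] [DecidableEq ι] (u : ι → E4) (b : ι → ℝ), P4 u b →
  ∀ e ∈ tf u b, 3 ≤ kv u b e

/-- **F3.** (uses `StmtF1`, `StmtF2`, REL, GEN, UNI, MOM, KV3, `QMark.partIII`, `QMark.big_card`).
PROOF. `|s| > M`: at most `C n^2 / M^2`. `5 ≤ |s| ≤ M`: choose `Z ⊆ s`, `|Z| = 5`, still of rank 4. For at least `2^(n - M)` of the `2^n` sets
`R`: `R ∩ s = Z`, then `Z ∈ vts u (b1 R)`. So it is enough to bound the number of the `s ∈ vts u b` with `|s| = 5` (for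
every `P4 u b`) by `ε' n^2`. For such an `s` take `t1, t2, e, e'` from `five`. `size u b2 e ≥ kv e + 1` (every `s'` with `e ⊆ s'` has a tet
`e ⊆ t ⊆ s'`, the vertex `s` has two; UNI). If `kv e = 3` or `kv e' = 3`: at most `3 *` F2. Otherwise both sizes are at
least 5. If `size e < D`: `e ∈ nonq u b2`, at most `D *` F1 of these `s` (`kv e < D`); the same for `e'`. Otherwise `e, e'` are two different
elements of `big u b2 D` in the tet `t1` which are not disjoint (both in the 3-set `t1 ∩ t2`): `t1 ∈ bad u b2 (big u b2 D)`; the number of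
these `s` is at most `|bad|` (UNI), `≤ 8 n + 5 |nonq| (D - 1) + 90 |big|` (`QMark.partIII`), `|big| D ≤ 3 n (n + 1)`. -/
def StmtF3 : Prop := ∀ ε : ℝ, 0 < ε → ∃ n0 : ℕ, ∀ (ι : Type) [Fintype ι] [DecidableEq ι]
  (u : ι → E4) (b : ι → ℝ), P4 u b → n0 ≤ Fintype.card ι →
  (((vts u b).filter fun s => 5 ≤ s.card).card : ℝ) ≤ ε * (Fintype.card ι : ℝ) ^ 2

end Pool.Agent.F32.G4
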