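import Pool.Agent.F32.Gen4

/-!
# F32: from simple to all 4-polytopes, second route (helper40): statements with proofs in words

`P = Poly u b` any 4-polytope (`P4`), `b2 = b + t η`, `t > 0` small, `P2 = Poly u b2` simple. Every tet of
`b2` lies in (the active set `s` of) a vertex of `P`. A pair is BIG if its 2-face in `P2` has at least
`D` vertices. By `QMark.partIII` almost all tets are GOOD (exactly two big pairs, complementary).

Write `theorem t_X (h : S_Y) .. : S_X` in `Pool/Agent/F32/H_X.lean`, namespace `Pool.Agent.F32.H4`.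
-/

set_option autoImplicit false

namespace Pool.Agent.F32.H4

open Finset QMark Filter Topology Pool.Agent.F32.G4
open scoped InnerProductSpace

/-- the perturbed right hand sides -/
def bt {ι : Type} (b η : ι → ℝ) (t : ℝ) : ι → ℝ := fun i => b i + t * η i

/-- generic: simple, and at no point of the space the active inequalities are dependent -/
def Gn {ι : Type} [Fintype ι] [DecidableEq ι] (u : ι → E4) (b2 : ι → ℝ) : Prop :=
  SP u b2 ∧ ∀ q : E4, Ind u (act u b2 q)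

/-- a point where among the inequalities of `S` exactly those of `A` are active, `A` independent -/
def WitS {ι : Type} (u : ι → E4) (b2 : ι → ℝ) (S A : Finset ι) : Prop :=
  ∃ q : E4, (∀ i ∈ A, ⟪u i, q⟫_ℝ = b2 i) ∧ (∀ i ∈ S, i ∉ A → ⟪u i, q⟫_ℝ < b2 i) ∧ Ind u A

open Classical in
/-- the third indices of the edges of the 2-face `e` of `b2` that join a tet below `s` to a tet
not below `s` -/
noncomputable def crs {ι : Type} [Fintype ι] [DecidableEq ι] (u : ι → E4) (b2 : ι → ℝ)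
    (s e : Finset ι) : Finset ι :=
  univ.filter fun k => k ∉ e ∧ ∃ t1 ∈ tets u b2, ∃ t2 ∈ tets u b2, insert k e ⊆ t1 ∧
    insert k e ⊆ t2 ∧ t1 ⊆ s ∧ ¬ t2 ⊆ s

/-- `b2` is near to `b` -/
structure Near {ι : Type} [Fintype ι] [DecidableEq ι] (u : ι → E4) (b b2 : ι → ℝ) : Prop where
  sp : SP u b2
  up : ∀ t ∈ tets u b2, ∃ s ∈ vts u b, t ⊆ s
  adj : ∀ s ∈ vts u b, 5 ≤ s.card → ∃ t1 ∈ tets u b2, ∃ t2 ∈ tets u b2, t1 ⊆ s ∧ t2 ⊆ s ∧
    (t1 ∩ t2).card = 3
  tet : ∀ e ∈ tf u b, ∀ s ∈ vts u b, e ⊆ s → ∃ t ∈ tets u b2, e ⊆ t ∧ t ⊆ s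
  crs : ∀ s ∈ vts u b, ∀ e : Finset ι, e.card = 2 → (crs u b2 s e).card ≤ 2
  wit : ∀ (M : Finset ι) (r a c : ι), r ∉ M → a ∈ M → c ∈ M → c ≠ a → ∀ s ∈ vts u b, c ∈ s →
    ∀ t ∈ tets u b2, t ⊆ s → t ∩ insert r M = {r, a} →
    ∃ a' ∈ M, a' ≠ a ∧ a' ∈ s ∧ WitS u b2 (insert r M) {r, a, a'}

/-- **BDD.** Every right hand side gives a bounded set. (uses nothing)
PROOF. `Poly u b` is bounded and contains a point `p` (`ι` is not empty, otherwise `Poly u b` is the whole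
space), so for no `d ≠ 0` all `⟪u i, d⟫ ≤ 0` (`QMark.exists_pos`, its proof uses only `bdd`). If
`Poly u b'` is not bounded: `x k` in it with `‖x k‖ → ∞`, a subsequence of `x k / ‖x k‖` tends to a unit
vector `d` with `⟪u i, d⟫ ≤ 0` for all `i`. (Or: the continuous function `max_i ⟪u i, d⟫` has a minimum
`m > 0` on the unit sphere, so `m ‖x‖ ≤ max_i b' i` for `x ∈ Poly u b'`.) -/
def S_Bdd : Prop := ∀ (ι : Type) [Fintype ι] [DecidableEq ι] (u : ι → E4) (b b' : ι → ℝ), P4 u b →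
  Bornology.IsBounded (Poly u b')

/-- **ETA.** Generic perturbations. (uses `S_Bdd`)
PROOF. For a set `S` with `¬ Ind u S` the subspace `QMark.W u S` of the `β` with a point `p`, `⟪u i, p⟫ = β i` on `S`,
is not everything (`∑ c_i u_i = 0` gives `∑ c_i β_i = 0`; model `QMark.W_ne_top`). Choose `η` outside all of them
(model `QMark.exists_dir`). For each such `S` at most one `t` has `b + t η ∈ W u S` (`QMark.ev_not`). For all other
`t` the active set of every point is independent, so it has at most 4 elements. -/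
def S_Eta : Prop := ∀ (ι : Type) [Fintype ι] [DecidableEq ι] (u : ι → E4) (b : ι → ℝ), P4 u b →
  ∃ η : ι → ℝ, ∀ᶠ t in 𝓝[>] (0 : ℝ), Gn u (bt b η t)

/-- **CL.** Closeness. (uses nothing)
PROOF. For each 4-set `σ` with `Ind u σ` let `p_σ`, `w_σ` be the points with `⟪u i, p_σ⟫ = b i`, `⟪u i, w_σ⟫ = η i`, `i ∈ σ`
(`QMark.exists_inner`). If `act u (bt b η t) q = σ` then `q = p_σ + t w_σ` (independence of 4 vectors in `E4`).
If `p_σ ∉ Poly u b` then `⟪u i, p_σ⟫ > b i` for some `i` and for small `t` (`ev_lt`) `p_σ + t w_σ ∉ Poly`. Otherwise `p_σ` is a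
vertex with `σ ⊆ act u b p_σ`. `C = 1 + ∑ ‖w_σ‖`. (`Ind u σ` for `σ = act q`: from `Gn`.) -/
def S_Cl : Prop := ∀ (ι : Type) [Fintype ι] [DecidableEq ι] (u : ι → E4) (b : ι → ℝ), P4 u b →
  ∀ η : ι → ℝ, ∃ C : ℝ, 0 < C ∧ ∀ᶠ t in 𝓝[>] (0 : ℝ), Gn u (bt b η t) →
    ∀ q ∈ Poly u (bt b η t), (act u (bt b η t) q).card = 4 →
      ∃ p, Vx u b p ∧ act u (bt b η t) q ⊆ act u b p ∧ ‖q - p‖ ≤ C * t

/-- **GAP.** A vertex is separated from the other vertices. (uses nothing)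
PROOF. `c = ∑_(i ∈ act p) u_i`. For `p' ∈ Poly u b`: `⟪c, p'⟫ ≤ ∑ b_i = ⟪c, p⟫`, equality only if `act p ⊆ act p'`, so
`p' - p` is orthogonal to `u` on `act p` and `p' = p`. There are finitely many vertices (a vertex is determined
by its active set), take `γ` between (`Finset.exists_max_image` or the like). -/
def S_Gap : Prop := ∀ (ι : Type) [Fintype ι] [DecidableEq ι] (u : ι → E4) (b : ι → ℝ), P4 u b →
  ∀ p, Vx u b p → ∃ (c : E4) (γ : ℝ), γ < ⟪c, p⟫_ℝ ∧ ∀ p', Vx u b p' → p' ≠ p → ⟪c, p'⟫_ℝ < γ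

/-- **TET.** Faces and vertices of `b` have tets. (uses `S_Cl`, `S_Gap`)
PROOF. `g ∈ Poly u b` with `act u b g = e`, `w` with `⟪u i, w⟫ = η i` on `e` (`QMark.exists_inner`), `p` the vertex with
active set `s`. `y0 = p + K t (g - p) + t w ∈ Poly u (bt b η t)` for a constant `K` large and `t` small
(`e` active; `i ∈ s \ e`: `K t (⟪u i, g⟫ - b i) + t ⟪u i, w⟫ ≤ t η i` for `K` large; `i ∉ s`: `ev_lt`). Let `c, γ` be as in GAP.
Let `y` be a point of the compact set `{y ∈ Poly u (bt b η t) | e ⊆ act y}` where `⟪c, y⟫` is maximal, among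
these one with maximal `(act y).card`. This is 4: otherwise there is `d ≠ 0` orthogonal to `u` on `act y`
(`QMark.exists_orth`), one can move in both directions `d`, `-d` a little, so `⟪c, d⟫ = 0`, and `QMark.move` gives a point with
a larger active set. CL gives the vertex `p'` with `act y ⊆ act p'`, `‖y - p'‖ ≤ C t`, and
`⟪c, p'⟫ ≥ ⟪c, y⟫ - C' t ≥ ⟪c, y0⟫ - C' t ≥ ⟪c, p⟫ - C'' t > γ` for small `t`, so `p' = p`. (`y0` gives the set is not empty.) -/
def S_Tet : Prop := ∀ (ι : Type) [Fintype ι] [DecidableEq ι] (u : ι → E4) (b : ι → ℝ), P4 u b →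
  ∀ η : ι → ℝ, ∀ᶠ t in 𝓝[>] (0 : ℝ), Gn u (bt b η t) → ∀ e : Finset ι,
    (∃ g ∈ Poly u b, act u b g = e) → Ind u e → ∀ s ∈ vts u b, e ⊆ s →
      ∃ t' ∈ tets u (bt b η t), e ⊆ t' ∧ t' ⊆ s

/-- **IN3.** Three facets through a vertex are independent; two facets too. (uses nothing)
PROOF. `α u_r + β u_a + γ u_c = 0`; pairing with `p`: `α b_r + β b_a + γ b_c = 0`. At the point `x` with `act x = {r}`:
`β (b_a - ⟪u_a, x⟫) + γ (b_c - ⟪u_c, x⟫) = 0`, both brackets are positive: `β, γ` have opposite signs or are both zero.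
The same for the other two pairs. So all are zero. -/
def S_In3 : Prop := ∀ (ι : Type) [Fintype ι] [DecidableEq ι] (u : ι → E4) (b : ι → ℝ), P4 u b →
  ∀ s ∈ vts u b, ∀ A ⊆ s, A.card ≤ 3 → Ind u A

/-- **EMP.** There is a point with no active inequality. (uses nothing)
PROOF. `ι` has at least two elements (`Poly u b` is bounded): the midpoint of the points of two facets
(`QMark.act_seg` works for every `b`, or directly). -/
def S_Emp : Prop := ∀ (ι : Type) [Fintype ι] [DecidableEq ι] (u : ι → E4) (b : ι → ℝ), P4 u b →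
  ∃ g ∈ Poly u b, act u b g = ∅

/-- **ADJ.** Two adjacent tets below every non-simple vertex. (uses `S_Cl`, `S_Tet`, `S_Emp`)
PROOF. `p` the vertex, `s = act u b p`. TET with `e = ∅` (EMP) gives `t1 ⊆ s`, with the point `q1`; by CL and uniqueness
(`u` on `t1` independent, 4 vectors) `‖q1 - p‖ ≤ C t`. Let `j ∈ s \ t1`: `u_j = ∑_(i ∈ t1) c_i u_i`, so `b_j = ∑ c_i b_i`
(pair with `p`). Some `c_(i0) < 0`: otherwise at the point `x` with `act x = {j}`: `0 = b_j - ⟪u_j, x⟫ = ∑ c_i (b_i - ⟪u_i, x⟫)` with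
positive brackets, so all `c_i = 0`, `u_j = 0`, `b_j = 0`, and then `j` is active everywhere, contradiction to EMP.
`d` with `⟪u_i, d⟫ = 0` for `i ∈ t1 \ {i0}`, `⟪u_(i0), d⟫ = -1`: `⟪u_j, d⟫ = - c_(i0) > 0`. `QMark.move` from `q1` in the direction `d`:
`q2 = q1 + τ d ∈ Poly`, with a new active inequality, so `act q2 = t2` has 4 elements, `t1 ∩ t2 = t1 \ {i0}`, and
`τ ≤ (b2 j - ⟪u_j, q1⟫) / (- c_(i0)) ≤ C' t` (`j` stays satisfied; `⟪u_j, q1⟫ ≥ b_j - ‖u_j‖ C t`). So `‖q2 - p‖ ≤ C'' t`. CL for `q2`: vertex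
`p'`, `‖p' - p‖ ≤ C''' t`, smaller than the minimal distance of two vertices: `p' = p`, `t2 ⊆ s`. The constants are
uniform: finitely many `t1, j, i0`. -/
def S_Adj : Prop := ∀ (ι : Type) [Fintype ι] [DecidableEq ι] (u : ι → E4) (b : ι → ℝ), P4 u b →
  ∀ η : ι → ℝ, ∀ᶠ t in 𝓝[>] (0 : ℝ), Gn u (bt b η t) → ∀ s ∈ vts u b, 5 ≤ s.card →
    ∃ t1 ∈ tets u (bt b η t), ∃ t2 ∈ tets u (bt b η t), t1 ⊆ s ∧ t2 ⊆ s ∧ (t1 ∩ t2).card = 3

/-- **CRS.** The crossing lemma. (uses `S_Cl`, `S_Gap`)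
PROOF. `p` the vertex of `s`, `c, γ` from GAP, `t` so small that `C t ‖c‖` is smaller than all `|⟪c, p'⟫ - γ|`, `p'` vertex. For
`k ∈ crs`: points `q1, q2` of `t1, t2` (`act q1 = t1`, ..), CL: `q1` is near `p` (its vertex has active set `⊇ t1`; `t1 ⊆ s`; `u` on `t1`
independent, so it is `p`), `q2` is near a vertex `≠ p` (`t2` is not below `s`): `⟪c, q1⟫ > γ > ⟪c, q2⟫`. `z_k` = point of the segment
`q1 q2` with `⟪c, z_k⟫ = γ`; `act z_k = t1 ∩ t2 = insert k e` (`act_seg`; `t1 ≠ t2` have 4 elements). Let `k1, k2, k3 ∈ crs` be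
different. All `z_k - z_k'` are orthogonal to `u` on `e` (independent, `Gn`) and to `c`, and `c` is not in the span of `u` on `e`
(`⟪c, q1 - q2⟫ ≠ 0`), so the space orthogonal to `u_e, c` has dimension 1: `z_(k1), z_(k2), z_(k3)` are on a line,
different (different active sets); the one in the middle has its active set in the other two
(`act_seg`): `insert k e ⊆ insert k' e`, contradiction. -/
def S_Crs : Prop := ∀ (ι : Type) [Fintype ι] [DecidableEq ι] (u : ι → E4) (b : ι → ℝ), P4 u b →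
  ∀ η : ι → ℝ, ∀ᶠ t in 𝓝[>] (0 : ℝ), Gn u (bt b η t) → ∀ s ∈ vts u b, ∀ e : Finset ι, e.card = 2 →
    (crs u (bt b η t) s e).card ≤ 2

/-- **WIT.** (uses `S_Cl`, `S_In3`)
PROOF. `p` the vertex of `s`, `q1` the point of the tet (call it `t1`), `‖q1 - p‖ ≤ C t` (CL; as in CRS). `S = insert r M`.
`act q1 ∩ S = {r, a}`. `c ∈ s`, `u_r, u_a, u_c` are independent (IN3; `r, a ∈ t1 ⊆ s`): `d0` with `⟪u_r, d0⟫ = ⟪u_a, d0⟫ = 0`, `⟪u_c, d0⟫ = 1`.
Among the `i ∈ S` with `⟪u_i, d0⟫ > 0` (`c` is one, `r, a` are not) let `a'` have the least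
`λ_i = (b2 i - ⟪u_i, q1⟫) / ⟪u_i, d0⟫ > 0`; `λ_(a') ≤ λ_c ≤ C' t`. `q* = q1 + λ_(a') d0`: all inequalities of `S` hold, `r, a, a'` are active,
`‖q* - p‖ ≤ C'' t`, so `a' ∈ s` (the inequalities not in `s` have a gap at `p`). The active inequalities of `S` at `q*` form an
independent set `A*` (`Gn`) containing `r, a, a'`: `d1` with `⟪u_i, d1⟫ = 0` for `i = r, a, a'` and `= -1` on the rest of `A*`; the
point `q* + ε d1` shows `WitS`. -/
def S_Wit : Prop := ∀ (ι : Type) [Fintype ι] [DecidableEq ι] (u : ι → E4) (b : ι → ℝ), P4 u b →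
  ∀ η : ι → ℝ, ∀ᶠ t in 𝓝[>] (0 : ℝ), Gn u (bt b η t) →
    ∀ (M : Finset ι) (r a c : ι), r ∉ M → a ∈ M → c ∈ M → c ≠ a → ∀ s ∈ vts u b, c ∈ s →
    ∀ t' ∈ tets u (bt b η t), t' ⊆ s → t' ∩ insert r M = {r, a} →
    ∃ a' ∈ M, a' ≠ a ∧ a' ∈ s ∧ WitS u (bt b η t) (insert r M) {r, a, a'}

/-- **NEAR.** Assembly. (uses `S_Eta`, `S_Cl`, `S_Tet`, `S_In3`, `S_Adj`, `S_Crs`, `S_Wit`) `tet`: `e ∈ tf u b` has
two elements, independent by IN3. -/
def S_Near : Prop := ∀ (ι : Type) [Fintype ι] [DecidableEq ι] (u : ι → E4) (b : ι → ℝ), P4 u b →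
  ∃ b2 : ι → ℝ, Near u b b2

/-- **TWO.** At most two vertices contain three given independent facets. (uses nothing)
PROOF. Three different vertices `p1, p2, p3` with `A` active: the differences are orthogonal to `u` on `A`, a space
of dimension 1, so they are on a line; the one in the middle is `p1 + τ (p3 - p1)`, `0 < τ < 1`, with active set
`act p1 ∩ act p3`; `d = p3 - p1 ≠ 0` is orthogonal to `u` on it: not a vertex. -/
def S_Two : Prop := ∀ (ι : Type) [Fintype ι] [DecidableEq ι] (u : ι → E4) (b : ι → ℝ), P4 u b →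
  ∀ A : Finset ι, A.card = 3 → Ind u A → ((vts u b).filter fun s => A ⊆ s).card ≤ 2

/-- **PAIR.** Two adjacent good tets. (uses nothing; pure combinatorics, `QMark.Good`)
PROOF. `t1 = τ ∪ {a}`, `t2 = τ ∪ {c}`, `|τ| = 3`. `{x ∈ M | x ⊆ t1} = {e, t1 \ e}`; one of the two pairs is `{a, r}`, the other one `f`,
`f = τ \ {r}`; `f` is the only element of `M` inside `τ`. In `t2` the pair `f ⊆ t2` is in `M`, so the other one is
`t2 \ f = {c, r}`. -/
def S_Pair : Prop := ∀ (ι : Type) [Fintype ι] [DecidableEq ι] (M : Finset (Finset ι)),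
  (∀ x ∈ M, x.card = 2) → ∀ t1 t2 : Finset ι, t1.card = 4 → t2.card = 4 → (t1 ∩ t2).card = 3 →
  Good M t1 → Good M t2 → ∃ r a c : ι, r ∈ t1 ∩ t2 ∧ a ∈ t1 ∧ a ∉ t2 ∧ c ∈ t2 ∧ c ∉ t1 ∧
    ({r, a} : Finset ι) ∈ M ∧ ({r, c} : Finset ι) ∈ M ∧ (t1 ∩ t2).erase r ∈ M ∧
    (∀ k ∈ t1 ∩ t2, ({r, k} : Finset ι) ∉ M)

/-- the partners of `r` in the marked pairs -/
def Pn {ι : Type} [Fintype ι] [DecidableEq ι] (M : Finset (Finset ι)) (r : ι) : Finset ι :=
  univ.filter fun c => c ≠ r ∧ ({r, c} : Finset ι) ∈ M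

open Classical in
/-- the triples at `r` -/
noncomputable def Tr {ι : Type} [Fintype ι] [DecidableEq ι] (u : ι → E4) (b2 : ι → ℝ)
    (M : Finset (Finset ι)) (r : ι) : Finset (Finset ι) :=
  univ.filter fun A => A.card = 3 ∧ r ∈ A ∧ A ⊆ insert r (Pn M r) ∧
    WitS u b2 (insert r (Pn M r)) A

/-- **SUM.** (uses nothing)
PROOF. `QMark.three_bound` for the subtype of `S = insert r (Pn M r)` (model: proof of `QMark.link_bound`):
`(Tr r).card ≤ 3 (|S| + 4) = 3 (|Pn M r| + 5)`; `∑_r |Pn M r| ≤ 2 |M|` (`QMark.sum_mem`). -/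
def S_Sum : Prop := ∀ (ι : Type) [Fintype ι] [DecidableEq ι] (u : ι → E4) (b2 : ι → ℝ)
  (M : Finset (Finset ι)), (∀ x ∈ M, x.card = 2) →
  ∑ r : ι, (Tr u b2 M r).card ≤ 6 * M.card + 15 * Fintype.card ι

/-- **F3C.** Counting the non-simple vertices. (uses `S_Two`, `S_Pair`, `S_Sum`, `G4.StmtUni`)
PROOF. `M = big u b2 D`. For `s ∈ vts u b`, `5 ≤ |s|`, take `t1, t2` from `adj`. If one of them is in `bad u b2 M`: at most `|bad|`
such `s` (a tet is below one `s`, `StmtUni`). Otherwise PAIR gives `r, a, c`; `t1 ∩ insert r (Pn M r) = {r, a}`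
(`k ∈ t1 ∩ t2`, `k ≠ r` is not in `Pn M r`), `c ∈ Pn M r`, `c ∈ s`: `wit` gives `A = {r, a, a'} ∈ Tr r`, `A ⊆ s`. By TWO at most two `s` for
each `A`. Total `|bad| + 2 ∑_r |Tr r|`. -/
def S_F3c : Prop := ∀ (ι : Type) [Fintype ι] [DecidableEq ι] (u : ι → E4) (b b2 : ι → ℝ) (D : ℕ),
  P4 u b → Near u b b2 → ((vts u b).filter fun s => 5 ≤ s.card).card ≤
    (bad u b2 (big u b2 D)).card + 2 * (6 * (big u b2 D).card + 15 * Fintype.card ι)

/-- **F2C.** Counting the 2-faces. (uses `S_Two`, `S_Pair`, `S_Sum`, `G4.StmtUni`, `G4.StmtKv3`)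
PROOF. `M = big u b2 D`, `D ≥ 5`. Let `e ∈ tf u b`. Every `s ∈ vts u b`, `e ⊆ s`, has a tet `e ⊆ t ⊆ s` (`tet`), different for
different `s` (Uni), and every tet `t ⊇ e` is below some `s ∈ vts u b`, `e ⊆ s` (`up`). So `size u b2 e ≥ kv u b e ≥ 3` and
`e ∈ faces u b2 2`. If `size ≠ 4`: `e ∈ nonq u b2`. So let `kv e = 3`, `size e = 4` (if `kv e ≥ 5` then `size ≥ 5`): one `s` has two
tets `t1 ≠ t2` above `e`, and the other two tets `t3, t4` above `e` are not below `s`.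
(a) `|t1 ∩ t2| = 3`: otherwise `t1 = e ∪ {k1, k2}`, `t2 = e ∪ {l1, l2}` with `k1, k2, l1, l2` different; the triple `e ∪ {k}` for `k = k1` is in exactly
two tets (`card_three`), `t1` and another one which contains `e`, is not `t2`, so it is `t3` or `t4`, not below `s`:
`k1 ∈ crs u b2 s e`; the same for `k2, l1, l2`: four elements, contradiction to `crs`.
(b) If `t1` or `t2` is bad: at most `6 |bad|` such `e` (a tet has 6 pairs).
(c) Otherwise PAIR: `r, a, c`, `(t1 ∩ t2).erase r ∈ M`. `e ∉ M` because `size e = 4 < D`; `e ⊆ t1 ∩ t2`, so `e ≠ (t1 ∩ t2).erase r`, so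
`r ∈ e`: `e = {i, r}`. As in F3C `wit` gives `A = {r, a, a'} ∈ Tr r`, `A ⊆ s`. The triple `{r, a, i} = e ∪ {a}` is in exactly two
tets: `t1 ⊆ s` and one which contains `e` and is not `t2` (`a ∉ t2`), so it is `t3` or `t4`, not below `s`:
`i ∈ crs u b2 s {r, a}` (`i ≠ a`, `i ≠ r`). So `e` is determined up to 2 by `(r, a, s)` (`crs`), `a ∈ A`: two choices (`a ≠ r`), `s ⊇ A`: two
choices (TWO). Total `8 ∑_r |Tr r|`. -/
def S_F2c : Prop := ∀ (ι : Type) [Fintype ι] [DecidableEq ι] (u : ι → E4) (b b2 : ι → ℝ) (D : ℕ),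
  5 ≤ D → P4 u b → Near u b b2 →
  ((tf u b).filter fun e => kv u b e = 3 ∨ 5 ≤ kv u b e).card ≤ (nonq u b2).card +
    6 * (bad u b2 (big u b2 D)).card + 8 * (6 * (big u b2 D).card + 15 * Fintype.card ι)

/-- **FIN.** (uses `S_Near`, `S_F3c`, `S_F2c`, `G4.StmtF1`; conclusions `G4.StmtF2`, `G4.StmtF3`)
PROOF. `|bad| ≤ 8 n + 5 |nonq| (D - 1) + 90 |big|` (`QMark.partIII`), `|big| D ≤ 3 n (n + 1)` (`QMark.big_card`), `|nonq| ≤ ε' n^2`
(`StmtF1`). First `D`, then `ε'`, then `n0`. -/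
def S_Fin : Prop := StmtF1 → StmtF2 ∧ StmtF3

end Pool.Agent.F32.H4
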