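import Pool.Agent.F32.HSt

/-!
# F32: assembly of the passage from simple to all 4-polytopes (helper40)
-/

set_option autoImplicit false

namespace Pool.Agent.F32.H4

open Finset QMark Filter Topology Pool.Agent.F32.G4
open scoped InnerProductSpace

theorem mem_vts {ι : Type} [Fintype ι] [DecidableEq ι] {u : ι → E4} {b : ι → ℝ} {s : Finset ι} :
    s ∈ vts u b ↔ ∃ p, Vx u b p ∧ act u b p = s := by
  classical
  unfold vts
  rw [mem_filter]
  exact ⟨fun h => h.2, fun h => ⟨mem_univ _, h⟩⟩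

theorem mem_tf {ι : Type} [Fintype ι] [DecidableEq ι] {u : ι → E4} {b : ι → ℝ} {e : Finset ι} :
    e ∈ tf u b ↔ e.card = 2 ∧ ∃ q ∈ Poly u b, act u b q = e := by
  classical
  unfold tf
  rw [mem_filter]
  exact ⟨fun h => h.2, fun h => ⟨mem_univ _, h⟩⟩

theorem t_Near (h1 : S_Eta) (h2 : S_Cl) (h3 : S_Tet) (h4 : S_In3) (h5 : S_Adj) (h6 : S_Crs)
    (h7 : S_Wit) : S_Near := by
  intro ι _ _ u b hP
  obtain ⟨η, hη⟩ := h1 ι u b hP
  obtain ⟨C, -, hC⟩ := h2 ι u b hP η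
  obtain ⟨t, g1, g2, g3, g5, g6, g7⟩ := (hη.and (hC.and ((h3 ι u b hP η).and
    ((h5 ι u b hP η).and ((h6 ι u b hP η).and (h7 ι u b hP η)))))).exists
  refine ⟨bt b η t, g1.1, ?_, g5 g1, ?_, g6 g1, g7 g1⟩
  · intro σ hσ
    obtain ⟨hc, q, hq, hqa⟩ := mem_tets.mp hσ
    obtain ⟨p, hp, hsub, -⟩ := g2 g1 q hq (by rw [hqa]; exact hc)
    exact ⟨act u b p, mem_vts.mpr ⟨p, hp, rfl⟩, by rw [← hqa]; exact hsub⟩
  · intro e he s hs hes
    obtain ⟨he2, q, hq, hqa⟩ := mem_tf.mp he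
    exact g3 g1 e ⟨q, hq, hqa⟩ (h4 ι u b hP s hs e hes (by omega)) s hs hes

theorem num {x n D : ℝ} {bg nq : ℝ} (hn : 1 ≤ n) (hD : 0 < D) (hbg : bg * D ≤ 3 * (n * (n + 1)))
    (hx : x ≤ 168 * n + 31 * D * nq + 588 * bg) {ε : ℝ} (h1 : 3528 * 3 ≤ ε * D)
    (h2 : nq ≤ ε / (93 * D) * n ^ 2) (h3 : 504 ≤ ε * n) : x ≤ ε * n ^ 2 := by
  have e1 : 168 * n ≤ ε / 3 * n ^ 2 := by nlinarith
  have e2 : 31 * D * nq ≤ ε / 3 * n ^ 2 := by
    calc 31 * D * nq ≤ 31 * D * (ε / (93 * D) * n ^ 2) :=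
          mul_le_mul_of_nonneg_left h2 (by positivity)
      _ = ε / 3 * n ^ 2 := by
          field_simp
          ring
  have e3 : 588 * bg ≤ ε / 3 * n ^ 2 := by
    have h4 : bg * D ≤ 6 * n ^ 2 := by nlinarith
    have h5 : 588 * bg * D ≤ ε / 3 * n ^ 2 * D := by
      calc 588 * bg * D = 588 * (bg * D) := by ring
        _ ≤ 588 * (6 * n ^ 2) := by linarith
        _ = (3528 * 3) / 3 * n ^ 2 := by ring
        _ ≤ (ε * D) / 3 * n ^ 2 := by
          refine mul_le_mul_of_nonneg_right ?_ (by positivity)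
          linarith
        _ = ε / 3 * n ^ 2 * D := by ring
    exact le_of_mul_le_mul_right h5 hD
  linarith

theorem t_Fin (hN : S_Near) (h3 : S_F3c) (h2 : S_F2c) : S_Fin := by
  intro h1
  -- common choice of the parameters
  have key : ∀ ε : ℝ, 0 < ε → ∃ (D n0 : ℕ), 5 ≤ D ∧ ∀ (ι : Type) [Fintype ι] [DecidableEq ι]
      (u : ι → E4) (b2 : ι → ℝ), SP u b2 → n0 ≤ Fintype.card ι → ∀ x : ℝ,
      x ≤ 168 * (Fintype.card ι : ℝ) + 31 * (D : ℝ) * ((nonq u b2).card : ℝ) +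
        588 * ((big u b2 D).card : ℝ) → x ≤ ε * (Fintype.card ι : ℝ) ^ 2 := by
    intro ε hε
    obtain ⟨D0, hD0⟩ := exists_nat_gt (3528 * 3 / ε)
    set D : ℕ := D0 + 5 with hD
    have hDpos : (0 : ℝ) < D := by
      rw [hD]
      positivity
    have hD1 : 3528 * 3 ≤ ε * D := by
      rw [div_lt_iff₀ hε] at hD0
      have : (D : ℝ) = D0 + 5 := by
        rw [hD]
        push_cast
        ring
      rw [this]
      nlinarith
    obtain ⟨n1, hn1⟩ := h1 (ε / (93 * D)) (by positivity)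
    obtain ⟨n2, hn2⟩ := exists_nat_gt (504 / ε)
    refine ⟨D, n1 + n2 + 1, by omega, ?_⟩
    intro ι _ _ u b2 hsp hn x hx
    have hc1 : (1 : ℝ) ≤ Fintype.card ι := by
      exact_mod_cast (show 1 ≤ Fintype.card ι by omega)
    have hc2 : (n2 : ℝ) ≤ Fintype.card ι := by
      exact_mod_cast (show n2 ≤ Fintype.card ι by omega)
    refine num hc1 hDpos ?_ hx hD1 (hn1 ι u b2 hsp (by omega)) ?_
    · exact_mod_cast big_card hsp D
    · rw [div_lt_iff₀ hε] at hn2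
      nlinarith
  have hbad : ∀ (ι : Type) [Fintype ι] [DecidableEq ι] (u : ι → E4) (b2 : ι → ℝ) (D : ℕ),
      SP u b2 → ((bad u b2 (big u b2 D)).card : ℝ) ≤ 8 * (Fintype.card ι : ℝ) +
        5 * ((D : ℝ) * ((nonq u b2).card : ℝ)) + 90 * ((big u b2 D).card : ℝ) := by
    intro ι _ _ u b2 D hsp
    have h4 := partIII hsp D
    have h5 : (nonq u b2).card * (D - 1) ≤ D * (nonq u b2).card := by
      rw [mul_comm D]
      exact Nat.mul_le_mul_left _ (Nat.sub_le _ _)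
    have h6 : (bad u b2 (big u b2 D)).card ≤ 8 * Fintype.card ι +
        5 * (D * (nonq u b2).card) + 90 * (big u b2 D).card := by omega
    exact_mod_cast h6
  constructor
  · intro ε hε
    obtain ⟨D, n0, hD5, hk⟩ := key ε hε
    refine ⟨n0, fun ι _ _ u b hP hn => ?_⟩
    obtain ⟨b2, hb2⟩ := hN ι u b hP
    refine hk ι u b2 hb2.sp hn _ ?_
    have h4 := h2 ι u b b2 D hD5 hP hb2
    have h5 : ((((tf u b).filter fun e => kv u b e = 3 ∨ 5 ≤ kv u b e).card : ℕ) : ℝ) ≤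
        ((nonq u b2).card : ℝ) + 6 * ((bad u b2 (big u b2 D)).card : ℝ) +
          8 * (6 * ((big u b2 D).card : ℝ) + 15 * (Fintype.card ι : ℝ)) := by exact_mod_cast h4
    have h6 := hbad ι u b2 D hb2.sp
    have h7 : ((nonq u b2).card : ℝ) ≤ (D : ℝ) * ((nonq u b2).card : ℝ) := by
      have : (1 : ℝ) ≤ D := by exact_mod_cast (show 1 ≤ D by omega)
      nlinarith [Nat.cast_nonneg (α := ℝ) (nonq u b2).card]
    linarith
  · intro ε hε
    obtain ⟨D, n0, hD5, hk⟩ := key ε hε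
    refine ⟨n0, fun ι _ _ u b hP hn => ?_⟩
    obtain ⟨b2, hb2⟩ := hN ι u b hP
    refine hk ι u b2 hb2.sp hn _ ?_
    have h4 := h3 ι u b b2 D hP hb2
    have h5 : ((((vts u b).filter fun s => 5 ≤ s.card).card : ℕ) : ℝ) ≤
        ((bad u b2 (big u b2 D)).card : ℝ) +
          2 * (6 * ((big u b2 D).card : ℝ) + 15 * (Fintype.card ι : ℝ)) := by exact_mod_cast h4
    have h6 := hbad ι u b2 D hb2.sp
    have h8 : (0 : ℝ) ≤ (D : ℝ) * ((nonq u b2).card : ℝ) := by positivity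
    have h9 : (0 : ℝ) ≤ ((big u b2 D).card : ℝ) := Nat.cast_nonneg _
    have h10 : (0 : ℝ) ≤ (Fintype.card ι : ℝ) := Nat.cast_nonneg _
    linarith

end Pool.Agent.F32.H4
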