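import Pool.Agent.TCC.Pair
import Pool.Agent.F32.Gen4

/-!
# F32: 2-faces which are not 4-gons, hand-in form (helper38)
-/

set_option autoImplicit false

namespace Pool.Agent.F32.HandA

open Finset
open scoped InnerProductSpace
open G4

variable {n : ℕ} {u : Fin n → QMark.E4} {b : Fin n → ℝ}

theorem p4 (h : TCC.IsPoly4 u b) : P4 u b := by
  refine ⟨h.bounded, fun i => ?_⟩
  obtain ⟨p, hp, hpi⟩ := h.facet i
  refine ⟨p, hp, ?_⟩
  ext j
  rw [QMark.mem_act, mem_singleton]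
  exact hpi j

theorem mem_vts {s : Finset (Fin n)} : s ∈ vts u b ↔ ∃ p, Vx u b p ∧ QMark.act u b p = s := by
  classical
  simp [vts]

theorem vx_iff {p : QMark.E4} : Vx u b p ↔ p ∈ Set.extremePoints ℝ (TCC.Poly u b) := by
  rw [TCC.mem_extreme, Vx]
  refine and_congr_right fun _ => forall_congr' fun y => imp_congr_left ?_
  constructor
  · intro h i hi
    exact h i (QMark.mem_act.2 hi)
  · intro h i hi
    exact h i (QMark.mem_act.1 hi)

/-- a vertex is determined by its active set -/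
theorem vx_inj {p q : QMark.E4} (hp : Vx u b p) (h : QMark.act u b p = QMark.act u b q) : p = q := by
  have h1 : p - q = 0 := by
    apply hp.2
    intro i hi
    have h2 := QMark.mem_act.1 hi
    rw [h] at hi
    have h3 := QMark.mem_act.1 hi
    rw [inner_sub_right, h2, h3, sub_self]
  exact sub_eq_zero.1 h1

theorem kv_eq (i j : Fin n) : kv u b {i, j} =
    (Set.extremePoints ℝ (TCC.Facet u b i ∩ TCC.Facet u b j)).ncard := by
  classical
  rw [(TCC.isExtreme_two u b i j).extremePoints_eq, kv, ← Set.ncard_coe_finset]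
  have himg : (((vts u b).filter fun s => ({i, j} : Finset (Fin n)) ⊆ s : Finset (Finset (Fin n))) :
      Set (Finset (Fin n))) = (fun p => QMark.act u b p) ''
      ((TCC.Facet u b i ∩ TCC.Facet u b j) ∩ Set.extremePoints ℝ (TCC.Poly u b)) := by
    ext s
    rw [mem_coe, mem_filter, mem_vts]
    constructor
    · rintro ⟨⟨p, hp, rfl⟩, hs⟩
      refine ⟨p, ⟨⟨⟨hp.1, ?_⟩, hp.1, ?_⟩, vx_iff.1 hp⟩, rfl⟩
      · exact QMark.mem_act.1 (hs (mem_insert_self _ _))
      · exact QMark.mem_act.1 (hs (mem_insert_of_mem (mem_singleton_self _)))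
    · rintro ⟨p, ⟨⟨⟨h1, h2⟩, h3, h4⟩, h5⟩, rfl⟩
      refine ⟨⟨p, vx_iff.2 h5, rfl⟩, ?_⟩
      intro k hk
      rw [mem_insert, mem_singleton] at hk
      rcases hk with rfl | rfl
      · exact QMark.mem_act.2 h2
      · exact QMark.mem_act.2 h4
  rw [himg, Set.InjOn.ncard_image]
  intro p hp q _ hpq
  exact vx_inj (vx_iff.2 hp.2) hpq

theorem main (hF2 : StmtF2) (hKv : StmtKv3) : ∀ ε : ℝ, 0 < ε → ∃ n0 : ℕ, ∀ (n : ℕ)
    (u : Fin n → QMark.E4) (b : Fin n → ℝ), n0 ≤ n → TCC.IsPoly4 u b →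
    (({e : Fin n × Fin n | e.1 < e.2 ∧
      Module.finrank ℝ (vectorSpan ℝ (TCC.Facet u b e.1 ∩ TCC.Facet u b e.2)) = 2 ∧
      (Set.extremePoints ℝ (TCC.Facet u b e.1 ∩ TCC.Facet u b e.2)).ncard ≠ 4} :
        Set (Fin n × Fin n)).ncard : ℝ) ≤ ε * (n : ℝ) ^ 2 := by
  classical
  intro ε hε
  obtain ⟨n0, hn0⟩ := hF2 ε hε
  refine ⟨n0, fun n u b hn hP => ?_⟩
  have h1 := hn0 (Fin n) u b (p4 hP) (by rw [Fintype.card_fin]; exact hn)
  rw [Fintype.card_fin] at h1
  refine le_trans ?_ h1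
  rw [Set.ncard_eq_toFinset_card']
  norm_cast
  apply card_le_card_of_injOn (fun e : Fin n × Fin n => ({e.1, e.2} : Finset (Fin n)))
  · intro e he
    rw [mem_coe, Set.mem_toFinset] at he
    obtain ⟨a1, a2, a3⟩ := he
    have hne : e.1 ≠ e.2 := a1.ne
    have htf : ({e.1, e.2} : Finset (Fin n)) ∈ tf u b := by
      rw [tf, mem_filter]
      refine ⟨mem_univ _, card_pair hne, ?_⟩
      obtain ⟨p, hp, hpk⟩ := TCC.exists_two hP hne a2
      refine ⟨p, hp, ?_⟩
      ext j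
      rw [QMark.mem_act, mem_insert, mem_singleton]
      exact hpk j
    rw [mem_coe, mem_filter]
    refine ⟨htf, ?_⟩
    change kv u b {e.1, e.2} = 3 ∨ 5 ≤ kv u b {e.1, e.2}
    have h3 := hKv (Fin n) u b (p4 hP) _ htf
    have h4 : kv u b {e.1, e.2} ≠ 4 := by
      rw [kv_eq]
      exact a3
    omega
  · intro e he e' he' hee
    rw [mem_coe, Set.mem_toFinset] at he he'
    have h1 : e.1 < e.2 := he.1
    have h2 : e'.1 < e'.2 := he'.1
    have hee' : ({e.1, e.2} : Finset (Fin n)) = {e'.1, e'.2} := hee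
    have a1 : e.1 ∈ ({e'.1, e'.2} : Finset (Fin n)) := by rw [← hee']; simp
    have a2 : e.2 ∈ ({e'.1, e'.2} : Finset (Fin n)) := by rw [← hee']; simp
    rw [mem_insert, mem_singleton] at a1 a2
    rcases a1 with a1 | a1 <;> rcases a2 with a2 | a2
    · rw [a1, a2] at h1
      exact absurd h1 (lt_irrefl _)
    · exact Prod.ext a1 a2
    · rw [a1, a2] at h1
      exact absurd h1 h2.asymm
    · rw [a1, a2] at h1
      exact absurd h1 (lt_irrefl _)

end Pool.Agent.F32.HandA
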