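import Pool.Agent.TPH.TrB
import Pool.Agent.F32.Gen4

/-!
# F32: facets which are not simplices, hand-in form (helper38)
-/

set_option autoImplicit false

namespace Pool.Agent.F32.HandB

open Finset
open scoped InnerProductSpace
open G4

abbrev E4 := QMark.E4

theorem mem_vts {ι : Type} [Fintype ι] [DecidableEq ι] {u : ι → E4} {b : ι → ℝ} {s : Finset ι} :
    s ∈ vts u b ↔ ∃ p, Vx u b p ∧ QMark.act u b p = s := by
  classical
  simp [vts]

/-- the vectors which represent linear functionals -/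
theorem exists_rep (f : E4 →ₗ[ℝ] ℝ) : ∃ x : E4, ∀ y, ⟪y, x⟫_ℝ = f y := by
  refine ⟨(InnerProductSpace.toDual ℝ E4).symm (LinearMap.toContinuousLinearMap f), fun y => ?_⟩
  rw [real_inner_comm, InnerProductSpace.toDual_symm_apply]
  rfl

section data

variable {V : Finset E4}

/-- the centroid -/
noncomputable def cen (V : Finset E4) : E4 := (V.card : ℝ)⁻¹ • ∑ v ∈ V, v

theorem sum_sub_cen (hV : V.Nonempty) (f : E4 →ₗ[ℝ] ℝ) : ∑ v ∈ V, f (v - cen V) = 0 := by
  have h0 : (V.card : ℝ) ≠ 0 := by exact_mod_cast hV.card_pos.ne'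
  simp only [map_sub, sum_sub_distrib, sum_const, nsmul_eq_mul, cen, map_smul, map_sum, smul_eq_mul]
  field_simp
  ring

theorem span_top (hspan : affineSpan ℝ (V : Set E4) = ⊤) (hV : V.Nonempty) {d : E4}
    (hd : ∀ v ∈ V, ⟪v - cen V, d⟫_ℝ = 0) : d = 0 := by
  obtain ⟨v0, hv0⟩ := hV
  have h1 : ∀ y : E4, ⟪y, d⟫_ℝ = 0 := by
    intro y
    have hy : y ∈ vectorSpan ℝ (V : Set E4) := by
      rw [← direction_affineSpan, hspan, AffineSubspace.direction_top]
      exact Submodule.mem_top
    rw [vectorSpan_def] at hy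
    induction hy using Submodule.span_induction with
    | mem x hx =>
      obtain ⟨a, ha, c, hc, rfl⟩ := hx
      have e1 := hd a (by exact_mod_cast ha)
      have e2 := hd c (by exact_mod_cast hc)
      rw [inner_sub_left] at e1 e2
      show ⟪a - c, d⟫_ℝ = 0
      rw [inner_sub_left]
      linarith
    | zero => exact inner_zero_left _
    | add x y _ _ hx hy => rw [inner_add_left, hx, hy, add_zero]
    | smul r x _ hx => rw [real_inner_smul_left, hx, mul_zero]
  exact inner_self_eq_zero.1 (h1 d)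

/-- the polar polytope -/
noncomputable def pu (V : Finset E4) : V → E4 := fun i => i.1 - cen V

theorem p4 (hspan : affineSpan ℝ (V : Set E4) = ⊤) (hV : V.Nonempty)
    (hconv : Pool.Agent.Lib_helper82.Facets4.ConvPos V) (h2 : 2 ≤ V.card) :
    P4 (pu V) (fun _ => 1) := by
  classical
  constructor
  · -- bounded
    let L : E4 →ₗ[ℝ] (V → ℝ) :=
      { toFun := fun x i => ⟪pu V i, x⟫_ℝ
        map_add' := fun x y => by
          funext i
          exact inner_add_right _ _ _
        map_smul' := fun c x => by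
          funext i
          exact inner_smul_right _ _ _ }
    have hL : Function.Injective L := by
      rw [← LinearMap.ker_eq_bot, LinearMap.ker_eq_bot']
      intro x hx
      apply span_top hspan hV
      intro v hv
      exact congrFun hx ⟨v, hv⟩
    obtain ⟨K, hK0, hK⟩ := LinearMap.exists_antilipschitzWith L (LinearMap.ker_eq_bot.2 hL)
    rw [isBounded_iff_forall_norm_le]
    refine ⟨K * V.card, fun x hx => ?_⟩
    have h3 : ‖x‖ ≤ K * ‖L x‖ := by
      have := hK.le_mul_dist x 0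
      rw [map_zero, dist_zero_right, dist_zero_right] at this
      exact this
    refine h3.trans (mul_le_mul_of_nonneg_left ?_ K.coe_nonneg)
    rw [pi_norm_le_iff_of_nonneg (by positivity)]
    intro i
    have h4 : ∀ v ∈ V, ⟪v - cen V, x⟫_ℝ ≤ 1 := fun v hv => hx ⟨v, hv⟩
    obtain ⟨f, hf⟩ : ∃ f : E4 →ₗ[ℝ] ℝ, ∀ y, f y = ⟪y, x⟫_ℝ :=
      ⟨{ toFun := fun y => ⟪y, x⟫_ℝ
         map_add' := fun a c => inner_add_left _ _ _
         map_smul' := fun r a => real_inner_smul_left _ _ _ }, fun _ => rfl⟩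
    have h5 := sum_sub_cen hV f
    simp only [hf] at h5
    rw [← add_sum_erase _ _ i.2] at h5
    have h6 : ∑ v ∈ V.erase i.1, ⟪v - cen V, x⟫_ℝ ≤ ∑ v ∈ V.erase i.1, (1 : ℝ) :=
      sum_le_sum fun v hv => h4 v (mem_of_mem_erase hv)
    rw [sum_const, nsmul_eq_mul, mul_one, card_erase_of_mem i.2] at h6
    have h7 : ((V.card - 1 : ℕ) : ℝ) ≤ V.card := by exact_mod_cast Nat.sub_le _ _
    have h8 : (1 : ℝ) ≤ V.card := by exact_mod_cast hV.card_pos
    have h9 := h4 i.1 i.2
    show ‖⟪i.1 - cen V, x⟫_ℝ‖ ≤ V.card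
    rw [Real.norm_eq_abs, abs_le]
    constructor <;> linarith
  · -- facets
    intro i
    obtain ⟨f, hf⟩ := TPH.Tr.exposed_pt hconv i.2
    have h3 : 0 < f (i.1 - cen V) := by
      have h5 := sum_sub_cen hV f
      by_contra hcon
      push Not at hcon
      obtain ⟨w, hw, hwi⟩ := exists_mem_ne (by omega : 1 < V.card) i.1
      have h6 : ∑ v ∈ V, f (v - cen V) < ∑ v ∈ V, (0 : ℝ) := by
        apply sum_lt_sum
        · intro v hv
          by_cases hvi : v = i.1
          · rw [hvi]; exact hcon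
          · have := hf v hv hvi
            rw [map_sub] at hcon ⊢
            linarith
        · refine ⟨w, hw, ?_⟩
          have := hf w hw hwi
          rw [map_sub] at hcon ⊢
          linarith
      rw [sum_const_zero] at h6
      linarith
    obtain ⟨x, hx⟩ := exists_rep ((f (i.1 - cen V))⁻¹ • f)
    have hval : ∀ j : V, ⟪pu V j, x⟫_ℝ = (f (i.1 - cen V))⁻¹ * f (j.1 - cen V) := fun j => hx _
    have hle : ∀ j : V, j ≠ i → ⟪pu V j, x⟫_ℝ < 1 := by
      intro j hj
      rw [hval, inv_mul_lt_one₀ h3]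
      have := hf j.1 j.2 (fun h => hj (Subtype.ext h))
      rw [map_sub, map_sub]
      linarith
    have heq : ⟪pu V i, x⟫_ℝ = 1 := by
      rw [hval, inv_mul_cancel₀ h3.ne']
    refine ⟨x, ?_, ?_⟩
    · intro j
      by_cases hj : j = i
      · rw [hj]; exact heq.le
      · exact (hle j hj).le
    · ext j
      rw [QMark.mem_act, mem_singleton]
      constructor
      · intro h
        by_contra hj
        exact (hle j hj).ne h
      · rintro rfl
        exact heq

end data

theorem main (hF3 : StmtF3) : ∀ ε : ℝ, 0 < ε → ∃ n0 : ℕ, ∀ (n : ℕ) (S P : Set E4), n0 ≤ n →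
    S.Finite → affineSpan ℝ S = ⊤ → P = convexHull ℝ S → (P.extremePoints ℝ).encard = n →
    ∃ N : ℕ, {F : Set E4 | (IsExposed ℝ P F ∧ Module.finrank ℝ (vectorSpan ℝ F) = 3) ∧
      (F.extremePoints ℝ).encard ≠ 4}.encard = N ∧ (N : ℝ) ≤ ε * (n : ℝ) ^ 2 := by
  classical
  intro ε hε
  obtain ⟨n0, hn0⟩ := hF3 ε hε
  refine ⟨n0, ?_⟩
  intro n S P hn hS hspan hP hcard
  have hdim : Module.finrank ℝ E4 = 4 := by simp
  obtain ⟨V, hV, hconv, hVspan, Ψ, hΨ⟩ :=
    Pool.Agent.Lib_helper82.Plane.exists_data hdim hS hspan hP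
  have hVcard : V.card = n := by
    have : (V.card : ℕ∞) = n := by rw [← Set.encard_coe_eq_coe_finsetCard, hV, hcard]
    exact_mod_cast this
  have hVne : V.Nonempty := by
    rw [← Finset.coe_nonempty, ← affineSpan_nonempty (k := ℝ), hVspan]
    exact ⟨0, AffineSubspace.mem_top ℝ E4 0⟩
  have hV2 : 2 ≤ V.card := by
    by_contra hcon
    have h1 : V.card = 1 := by
      have := hVne.card_pos
      omega
    obtain ⟨v, hv⟩ := card_eq_one.1 h1
    have h3 : vectorSpan ℝ (V : Set E4) = ⊤ := by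
      rw [← direction_affineSpan, hVspan, AffineSubspace.direction_top]
    rw [hv, coe_singleton, vectorSpan_singleton] at h3
    have h4 : Module.finrank ℝ (⊤ : Submodule ℝ E4) = 4 := by rw [finrank_top]; exact hdim
    rw [← h3, finrank_bot] at h4
    omega
  have hP4 := p4 hVspan hVne hconv hV2
  have h1 := hn0 V (pu V) (fun _ => 1) hP4 (by rw [Fintype.card_coe, hVcard]; exact hn)
  rw [Fintype.card_coe, hVcard] at h1
  -- the points of the facets
  have hpt : ∀ F : Set E4, ∃ x : E4, (IsExposed ℝ P F ∧ Module.finrank ℝ (vectorSpan ℝ F) = 3) →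
      Vx (pu V) (fun _ => 1) x ∧ ∀ i : V, ⟪pu V i, x⟫_ℝ = 1 ↔ i.1 ∈ F.extremePoints ℝ := by
    intro F
    by_cases hF : IsExposed ℝ P F ∧ Module.finrank ℝ (vectorSpan ℝ F) = 3
    swap
    · exact ⟨0, fun h => absurd h hF⟩
    obtain ⟨g1, g2, g3, g4, g5, g6, g7⟩ := hΨ F hF.1 hF.2
    let f : E4 →ₗ[ℝ] ℝ := (Ψ F).comp (LinearMap.inl ℝ E4 ℝ)
    set m : ℝ := Ψ F (cen V, 1) with hm
    have hval : ∀ v : E4, Ψ F (v, 1) = m + f (v - cen V) := by
      intro v
      have : ((v, 1) : E4 × ℝ) = (cen V, 1) + (v - cen V, 0) := by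
        rw [Prod.mk_add_mk, add_sub_cancel, add_zero]
      rw [this, map_add]
      rfl
    have hsum : ∑ v ∈ V, Ψ F (v, 1) = V.card * m := by
      rw [sum_congr rfl fun v _ => hval v, sum_add_distrib, sum_sub_cen hVne, sum_const,
        nsmul_eq_mul, add_zero]
    have hc0 : (0 : ℝ) < V.card := by exact_mod_cast hVne.card_pos
    have hm0 : 0 ≤ m := by
      have : 0 ≤ ∑ v ∈ V, Ψ F (v, 1) := sum_nonneg g2
      rw [hsum] at this
      exact nonneg_of_mul_nonneg_right this hc0
    have hmne : m ≠ 0 := by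
      intro h0
      rw [h0, mul_zero, sum_eq_zero_iff_of_nonneg g2] at hsum
      -- every functional is a multiple of one functional
      apply g1
      obtain ⟨y, hy⟩ := exists_rep f
      have hy0 : y = 0 := by
        apply span_top hVspan hVne
        intro v hv
        rw [hy]
        have := hval v
        rw [hsum v hv, h0, zero_add] at this
        exact this.symm
      apply LinearMap.ext
      rintro ⟨x, r⟩
      have h3 : ((x, r) : E4 × ℝ) = r • (cen V, 1) + (x - r • cen V, 0) := by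
        rw [Prod.smul_mk, Prod.mk_add_mk, smul_eq_mul, mul_one, add_zero, add_sub_cancel]
      have h4 : Ψ F (x - r • cen V, 0) = f (x - r • cen V) := rfl
      rw [h3, map_add, map_smul, ← hm, h0, smul_zero, zero_add, h4, ← hy, hy0, inner_zero_right]
      rfl
    have hmpos : 0 < m := lt_of_le_of_ne hm0 (Ne.symm hmne)
    obtain ⟨x, hx⟩ := exists_rep (-(m⁻¹) • f)
    have hxv : ∀ v : E4, ⟪v - cen V, x⟫_ℝ = 1 - m⁻¹ * Ψ F (v, 1) := by
      intro v
      rw [hx, hval, LinearMap.smul_apply, smul_eq_mul, mul_add, inv_mul_cancel₀ hmne]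
      ring
    have hact : ∀ v : E4, ⟪v - cen V, x⟫_ℝ = 1 ↔ Ψ F (v, 1) = 0 := by
      intro v
      rw [hxv]
      constructor
      · intro h
        have h3 : m⁻¹ * Ψ F (v, 1) = 0 := by linarith
        rcases mul_eq_zero.1 h3 with h4 | h4
        · exact absurd h4 (inv_ne_zero hmne)
        · exact h4
      · intro h
        rw [h, mul_zero, sub_zero]
    refine ⟨x, fun _ => ⟨⟨?_, ?_⟩, ?_⟩⟩
    · intro i
      show ⟪i.1 - cen V, x⟫_ℝ ≤ 1
      rw [hxv]
      have := mul_nonneg (inv_nonneg.2 hm0) (g2 i.1 i.2)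
      linarith
    · intro d hd
      -- the functional ⟪x - r c, d⟫
      let φ : E4 × ℝ →ₗ[ℝ] ℝ :=
        { toFun := fun z => ⟪z.1 - z.2 • cen V, d⟫_ℝ
          map_add' := fun a c => by
            show ⟪(a.1 + c.1) - (a.2 + c.2) • cen V, d⟫_ℝ = _
            rw [← inner_add_left]
            congr 1
            module
          map_smul' := fun r a => by
            show ⟪(r • a.1) - (r • a.2) • cen V, d⟫_ℝ = _
            rw [RingHom.id_apply, smul_eq_mul, smul_eq_mul, ← real_inner_smul_left]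
            congr 1
            module }
      have hφ : ∀ (x : E4) (r : ℝ), φ (x, r) = ⟪x - r • cen V, d⟫_ℝ := fun _ _ => rfl
      obtain ⟨c, hc⟩ := g6 φ (by
        intro v hv h0
        rw [hφ, one_smul]
        exact hd ⟨v, hv⟩ (QMark.mem_act.2 ((hact v).2 h0)))
      have h3 : φ (cen V, 1) = c * m := by rw [hc]; rfl
      rw [hφ, one_smul, sub_self, inner_zero_left] at h3
      have h4 : c = 0 := by
        rcases mul_eq_zero.1 h3.symm with h | h
        · exact h
        · exact absurd h hmne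
      have h5 : φ (d, 0) = 0 := by rw [hc, h4, zero_smul]; rfl
      rw [hφ, zero_smul, sub_zero] at h5
      exact inner_self_eq_zero.1 h5
    · intro i
      show ⟪i.1 - cen V, x⟫_ℝ = 1 ↔ _
      rw [hact]
      exact g3 i.1 i.2
  choose x hx using hpt
  set 𝓕 : Set (Set E4) := {F : Set E4 | (IsExposed ℝ P F ∧ Module.finrank ℝ (vectorSpan ℝ F) = 3) ∧
      (F.extremePoints ℝ).encard ≠ 4} with h𝓕
  have hinj : Set.InjOn (fun F => QMark.act (pu V) (fun _ => 1) (x F)) 𝓕 := by
    intro F hF F' hF' he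
    have he' : QMark.act (pu V) (fun _ => 1) (x F) = QMark.act (pu V) (fun _ => 1) (x F') := he
    apply (hΨ F hF.1.1 hF.1.2).2.2.2.2.2.2 F' hF'.1.1 hF'.1.2
    intro v hv h0
    have a1 := ((hΨ F hF.1.1 hF.1.2).2.2.1 v hv).1 h0
    have a2 : (⟨v, hv⟩ : V) ∈ QMark.act (pu V) (fun _ => 1) (x F) :=
      QMark.mem_act.2 (((hx F hF.1).2 ⟨v, hv⟩).2 a1)
    rw [he'] at a2
    have a3 := ((hx F' hF'.1).2 ⟨v, hv⟩).1 (QMark.mem_act.1 a2)
    exact ((hΨ F' hF'.1.1 hF'.1.2).2.2.1 v hv).2 a3
  have hmaps : ∀ F ∈ 𝓕, QMark.act (pu V) (fun _ => 1) (x F) ∈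
      (vts (pu V) (fun _ => 1)).filter fun s => 5 ≤ s.card := by
    intro F hF
    rw [mem_filter, mem_vts]
    refine ⟨⟨x F, (hx F hF.1).1, rfl⟩, ?_⟩
    obtain ⟨g1, g2, g3, g4, g5, g6, g7⟩ := hΨ F hF.1.1 hF.1.2
    have h3 : (((QMark.act (pu V) (fun _ => 1) (x F)).map (Function.Embedding.subtype _) :
        Finset E4) : Set E4) = F.extremePoints ℝ := by
      ext v
      rw [mem_coe, mem_map]
      constructor
      · rintro ⟨i, hi, rfl⟩
        exact ((hx F hF.1).2 i).1 (QMark.mem_act.1 hi)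
      · intro hv
        have hvV : v ∈ V := by exact_mod_cast g4 hv
        exact ⟨⟨v, hvV⟩, QMark.mem_act.2 (((hx F hF.1).2 ⟨v, hvV⟩).2 hv), rfl⟩
    have h4 : (F.extremePoints ℝ).encard =
        ((QMark.act (pu V) (fun _ => 1) (x F)).card : ℕ∞) := by
      rw [← h3, Set.encard_coe_eq_coe_finsetCard, card_map]
    have h5 := hF.2
    rw [h4] at g5 h5
    have h6 : 4 ≤ (QMark.act (pu V) (fun _ => 1) (x F)).card := by exact_mod_cast g5
    have h7 : (QMark.act (pu V) (fun _ => 1) (x F)).card ≠ 4 := by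
      intro h
      apply h5
      rw [h]
      rfl
    omega
  have hfin : 𝓕.Finite := by
    apply Set.Finite.of_finite_image _ hinj
    apply (((vts (pu V) (fun _ => 1)).filter fun s => 5 ≤ s.card).finite_toSet).subset
    rintro _ ⟨F, hF, rfl⟩
    exact hmaps F hF
  refine ⟨hfin.toFinset.card, ?_, ?_⟩
  · rw [← Set.encard_coe_eq_coe_finsetCard, hfin.coe_toFinset]
  · refine le_trans ?_ h1
    have h8 : hfin.toFinset.card ≤ ((vts (pu V) (fun _ => 1)).filter fun s => 5 ≤ s.card).card := by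
      apply card_le_card_of_injOn (fun F => QMark.act (pu V) (fun _ => 1) (x F))
      · intro F hF
        rw [hfin.coe_toFinset] at hF
        exact hmaps F hF
      · intro F hF F' hF'
        rw [hfin.coe_toFinset] at hF hF'
        exact hinj hF hF'
    exact_mod_cast h8

end Pool.Agent.F32.HandB
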