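import Mathlib

/-!
# F32, power saving: the abstract Clarkson-Shor lemma (helper68)

`cs`: a family of pairs (`A f`, `J f`) of disjoint subsets of a finite set `ι` (defining set, set of
violators). If every subset `S` has at most `B` members `f` with `A f ⊆ S` and `J f` disjoint from `S`,
then at most `2 ^ (a + j) B` members have `|J f| = j`.

`sym`: symmetrization over the positions of a sample. `moment`: the two together.
-/

set_option autoImplicit false

namespace Pool.Agent.F32.PSCS

open Finset

/-- the number of subsets which contain `A` and are disjoint from `J` -/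
theorem card_between {ι : Type} [Fintype ι] [DecidableEq ι] {A J : Finset ι}
    (hd : Disjoint A J) :
    ((univ : Finset (Finset ι)).filter fun S => A ⊆ S ∧ Disjoint J S).card * 2 ^ (A.card + J.card) =
      2 ^ Fintype.card ι := by
  classical
  have h1 : ((univ : Finset (Finset ι)).filter fun S => A ⊆ S ∧ Disjoint J S) =
      (univ \ (A ∪ J)).powerset.image fun S => S ∪ A := by
    ext S
    simp only [mem_filter, mem_univ, true_and, mem_image, mem_powerset]
    constructor
    · rintro ⟨h2, h3⟩
      refine ⟨S \ A, ?_, sdiff_union_of_subset h2⟩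
      intro x hx
      obtain ⟨hx1, hx2⟩ := mem_sdiff.1 hx
      refine mem_sdiff.2 ⟨mem_univ _, fun h => ?_⟩
      rcases mem_union.1 h with h | h
      · exact hx2 h
      · exact disjoint_left.1 h3 h hx1
    · rintro ⟨R, h2, rfl⟩
      refine ⟨subset_union_right, ?_⟩
      rw [disjoint_left]
      intro x hxJ hx
      rcases mem_union.1 hx with h | h
      · exact (mem_sdiff.1 (h2 h)).2 (mem_union_right _ hxJ)
      · exact disjoint_left.1 hd h hxJ
  rw [h1, card_image_of_injOn, card_powerset]
  · have h2 : (univ \ (A ∪ J)).card = Fintype.card ι - (A.card + J.card) := by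
      rw [card_sdiff_of_subset (subset_univ _), card_union_of_disjoint hd, card_univ]
    have h3 : A.card + J.card ≤ Fintype.card ι := by
      rw [← card_union_of_disjoint hd]
      exact card_le_univ _
    rw [h2, ← pow_add, Nat.sub_add_cancel h3]
  · intro S hS R hR h
    have hS' := mem_powerset.1 (mem_coe.1 hS)
    have hR' := mem_powerset.1 (mem_coe.1 hR)
    dsimp only at h
    have e : ∀ Q : Finset ι, Q ⊆ univ \ (A ∪ J) → (Q ∪ A) \ A = Q := by
      intro Q hQ
      rw [union_sdiff_right, Finset.sdiff_eq_self_iff_disjoint, disjoint_left]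
      intro x hx hxA
      exact (mem_sdiff.1 (hQ hx)).2 (mem_union_left _ hxA)
    rw [← e S hS', ← e R hR', h]

/-- **Clarkson-Shor** -/
theorem cs {ι Φ : Type} [Fintype ι] [DecidableEq ι] [Fintype Φ] (A J : Φ → Finset ι)
    (hd : ∀ f, Disjoint (A f) (J f)) (a j : ℕ) (hA : ∀ f, (A f).card = a) (B : ℕ)
    (hB : ∀ S : Finset ι, ((univ : Finset Φ).filter fun f => A f ⊆ S ∧ Disjoint (J f) S).card ≤ B) :
    ((univ : Finset Φ).filter fun f => (J f).card = j).card ≤ 2 ^ (a + j) * B := by
  classical
  have h1 : ∑ S : Finset ι, ((univ : Finset Φ).filter fun f => A f ⊆ S ∧ Disjoint (J f) S).card =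
      ∑ f : Φ, ((univ : Finset (Finset ι)).filter fun S => A f ⊆ S ∧ Disjoint (J f) S).card :=
    sum_card_bipartiteAbove_eq_sum_card_bipartiteBelow (s := (univ : Finset (Finset ι)))
      (t := (univ : Finset Φ)) fun S f => A f ⊆ S ∧ Disjoint (J f) S
  have h2 : ∑ S : Finset ι, ((univ : Finset Φ).filter fun f => A f ⊆ S ∧ Disjoint (J f) S).card ≤
      2 ^ Fintype.card ι * B := by
    refine (sum_le_card_nsmul _ _ _ fun S _ => hB S).trans (le_of_eq ?_)
    rw [card_univ, Fintype.card_finset, smul_eq_mul]
  have h3 : ((univ : Finset Φ).filter fun f => (J f).card = j).card * 2 ^ Fintype.card ι ≤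
      (∑ f : Φ, ((univ : Finset (Finset ι)).filter
        fun S => A f ⊆ S ∧ Disjoint (J f) S).card) * 2 ^ (a + j) := by
    rw [sum_mul]
    calc ((univ : Finset Φ).filter fun f => (J f).card = j).card * 2 ^ Fintype.card ι
        = ∑ f ∈ (univ : Finset Φ).filter fun f => (J f).card = j, 2 ^ Fintype.card ι := by
          rw [sum_const, smul_eq_mul]
      _ = ∑ f ∈ (univ : Finset Φ).filter fun f => (J f).card = j,
            ((univ : Finset (Finset ι)).filter fun S => A f ⊆ S ∧ Disjoint (J f) S).card *
              2 ^ (a + j) := by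
          refine sum_congr rfl fun f hf => ?_
          have h4 := card_between (hd f)
          rw [hA f, (mem_filter.1 hf).2] at h4
          exact h4.symm
      _ ≤ ∑ f : Φ, ((univ : Finset (Finset ι)).filter
            fun S => A f ⊆ S ∧ Disjoint (J f) S).card * 2 ^ (a + j) :=
          sum_le_sum_of_subset (filter_subset _ _)
  rw [← h1] at h3
  have h5 := h3.trans (Nat.mul_le_mul_right _ h2)
  have h6 : 0 < 2 ^ Fintype.card ι := by positivity
  rw [show 2 ^ Fintype.card ι * B * 2 ^ (a + j) = (2 ^ (a + j) * B) * 2 ^ Fintype.card ι by ring]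
    at h5
  exact Nat.le_of_mul_le_mul_right h5 h6

/-- for every `j`-subset there is a permutation of the positions which maps it to the last `j` -/
theorem exists_perm {ι : Type} [Fintype ι] [DecidableEq ι] {J J0 : Finset ι}
    (h : J.card = J0.card) : ∃ π : Equiv.Perm ι, J.map π.toEmbedding = J0 := by
  classical
  have h1 : Fintype.card {x // x ∈ J} = Fintype.card {x // x ∈ J0} := by
    rw [Fintype.card_coe, Fintype.card_coe, h]
  obtain ⟨e⟩ : Nonempty ({x // x ∈ J} ≃ {x // x ∈ J0}) := Fintype.card_eq.1 h1
  refine ⟨e.extendSubtype, ?_⟩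
  ext x
  rw [mem_map]
  constructor
  · rintro ⟨y, hy, rfl⟩
    have := e.extendSubtype_mem y hy
    exact this
  · intro hx
    refine ⟨e.symm ⟨x, hx⟩, (e.symm ⟨x, hx⟩).2, ?_⟩
    show e.extendSubtype _ = x
    rw [e.extendSubtype_apply_of_mem _ (e.symm ⟨x, hx⟩).2]
    simp

/-- **symmetrization**: `q W A J` is a property of a sample `W : ι → Ω` and two sets of positions
which is invariant under permutations of the positions. The number of `(W, A)` with `q W A J0` is at
most the average over all `J` with `|J| = |J0|`. -/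
theorem sym {ι Ω : Type} [Fintype ι] [DecidableEq ι] [Fintype Ω] (q : (ι → Ω) → Finset ι → Finset ι → Prop)
    [∀ W A J, Decidable (q W A J)]
    (hq : ∀ (W : ι → Ω) (A J : Finset ι) (π : Equiv.Perm ι),
      q (W ∘ π) A J ↔ q W (A.map π.toEmbedding) (J.map π.toEmbedding)) (J0 : Finset ι) :
    (∑ W : ι → Ω, ((univ : Finset (Finset ι)).filter fun A => q W A J0).card) *
        (Fintype.card ι).choose J0.card =
      ∑ W : ι → Ω, ((univ : Finset (Finset ι × Finset ι)).filter
        fun AJ => AJ.2.card = J0.card ∧ q W AJ.1 AJ.2).card := by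
  classical
  have h1 : ∀ J : Finset ι, J.card = J0.card →
      ∑ W : ι → Ω, ((univ : Finset (Finset ι)).filter fun A => q W A J).card =
        ∑ W : ι → Ω, ((univ : Finset (Finset ι)).filter fun A => q W A J0).card := by
    intro J hJ
    obtain ⟨π, hπ⟩ := exists_perm hJ
    have h2 : ∀ W : ι → Ω, ((univ : Finset (Finset ι)).filter fun A => q (W ∘ π) A J).card =
        ((univ : Finset (Finset ι)).filter fun A => q W A J0).card := by
      intro W
      refine card_bij (fun A _ => A.map π.toEmbedding) ?_ ?_ ?_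
      · intro A hA
        have := (hq W A J π).1 (mem_filter.1 hA).2
        rw [hπ] at this
        exact mem_filter.2 ⟨mem_univ _, this⟩
      · intro A _ A' _ h
        exact map_injective _ h
      · intro A hA
        refine ⟨A.map π.symm.toEmbedding, mem_filter.2 ⟨mem_univ _, ?_⟩, ?_⟩
        · rw [hq, hπ, map_map]
          have : π.symm.toEmbedding.trans π.toEmbedding = Function.Embedding.refl ι := by
            ext x
            simp
          rw [this, map_refl]
          exact (mem_filter.1 hA).2
        · rw [map_map]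
          have : π.symm.toEmbedding.trans π.toEmbedding = Function.Embedding.refl ι := by
            ext x
            simp
          rw [this, map_refl]
    rw [← sum_congr rfl fun W _ => h2 W]
    exact (Fintype.sum_equiv (Equiv.arrowCongr π (Equiv.refl Ω)) _ _ fun W => by
      congr 1
      ext A
      simp only [mem_filter, mem_univ, true_and]
      rw [show (Equiv.arrowCongr π (Equiv.refl Ω)) W ∘ ⇑π = W by
        funext i
        simp [Equiv.arrowCongr]])
  have h3 : ∑ W : ι → Ω, ((univ : Finset (Finset ι × Finset ι)).filter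
        fun AJ => AJ.2.card = J0.card ∧ q W AJ.1 AJ.2).card =
      ∑ J ∈ (univ : Finset ι).powersetCard J0.card,
        ∑ W : ι → Ω, ((univ : Finset (Finset ι)).filter fun A => q W A J).card := by
    rw [sum_comm]
    refine sum_congr rfl fun W _ => ?_
    rw [card_eq_sum_card_fiberwise (f := fun AJ : Finset ι × Finset ι => AJ.2)
      (t := (univ : Finset ι).powersetCard J0.card)]
    · refine sum_congr rfl fun J hJ => ?_
      refine card_bij (fun AJ _ => AJ.1) ?_ ?_ ?_
      · intro AJ h
        obtain ⟨h4, h5⟩ := mem_filter.1 h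
        obtain ⟨_, h6, h7⟩ := mem_filter.1 h4
        rw [h5] at h7
        exact mem_filter.2 ⟨mem_univ _, h7⟩
      · intro AJ h AJ' h' e
        have h4 := (mem_filter.1 h).2
        have h5 := (mem_filter.1 h').2
        exact Prod.ext e (h4.trans h5.symm)
      · intro A hA
        refine ⟨(A, J), mem_filter.2 ⟨mem_filter.2 ⟨mem_univ _, ?_, (mem_filter.1 hA).2⟩, rfl⟩, rfl⟩
        exact (mem_powersetCard.1 hJ).2
    · intro AJ h
      obtain ⟨_, h4, _⟩ := mem_filter.1 (mem_coe.1 h)
      exact mem_coe.2 (mem_powersetCard.2 ⟨subset_univ _, h4⟩)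
  rw [h3, sum_congr rfl fun J hJ => h1 J (mem_powersetCard.1 hJ).2, sum_const, card_powersetCard,
    card_univ, smul_eq_mul, mul_comm]

/-- **moment bound**: if moreover every `W` and every set `S` of positions has at most `B` pairs
`(A, J)` with `q W A J`, `A ⊆ S`, `J` disjoint from `S`, then the number of `(W, A)` with `q W A J0`
is at most `2 ^ (a + j) B |Ω| ^ |ι| / (|ι| choose j)`. -/
theorem moment {ι Ω : Type} [Fintype ι] [DecidableEq ι] [Fintype Ω]
    (q : (ι → Ω) → Finset ι → Finset ι → Prop) [∀ W A J, Decidable (q W A J)]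
    (hq : ∀ (W : ι → Ω) (A J : Finset ι) (π : Equiv.Perm ι),
      q (W ∘ π) A J ↔ q W (A.map π.toEmbedding) (J.map π.toEmbedding))
    (a : ℕ) (hA : ∀ W A J, q W A J → A.card = a ∧ Disjoint A J) (B : ℕ)
    (hB : ∀ (W : ι → Ω) (S : Finset ι), ((univ : Finset (Finset ι × Finset ι)).filter
      fun AJ => q W AJ.1 AJ.2 ∧ AJ.1 ⊆ S ∧ Disjoint AJ.2 S).card ≤ B) (J0 : Finset ι) :
    (∑ W : ι → Ω, ((univ : Finset (Finset ι)).filter fun A => q W A J0).card) *
        (Fintype.card ι).choose J0.card ≤
      Fintype.card Ω ^ Fintype.card ι * (2 ^ (a + J0.card) * B) := by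
  classical
  rw [sym q hq J0]
  have h1 : ∀ W : ι → Ω, ((univ : Finset (Finset ι × Finset ι)).filter
        fun AJ => AJ.2.card = J0.card ∧ q W AJ.1 AJ.2).card ≤ 2 ^ (a + J0.card) * B := by
    intro W
    let Φ : Type := {AJ : Finset ι × Finset ι // q W AJ.1 AJ.2}
    have h2 := cs (ι := ι) (Φ := Φ) (fun f => f.1.1) (fun f => f.1.2) (fun f => (hA _ _ _ f.2).2)
      a J0.card (fun f => (hA _ _ _ f.2).1) B (fun S => ?_)
    · refine le_trans (le_of_eq ?_) h2
      symm
      refine card_bij (fun f _ => f.1) ?_ ?_ ?_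
      · intro f hf
        exact mem_filter.2 ⟨mem_univ _, (mem_filter.1 hf).2, f.2⟩
      · intro f _ g _ h
        exact Subtype.ext h
      · intro AJ h
        obtain ⟨_, h3, h4⟩ := mem_filter.1 h
        exact ⟨⟨AJ, h4⟩, mem_filter.2 ⟨mem_univ _, h3⟩, rfl⟩
    · refine le_trans (le_of_eq ?_) (hB W S)
      refine card_bij (fun f _ => f.1) ?_ ?_ ?_
      · intro f hf
        exact mem_filter.2 ⟨mem_univ _, f.2, (mem_filter.1 hf).2⟩
      · intro f _ g _ h
        exact Subtype.ext h
      · intro AJ h
        obtain ⟨_, h3, h4⟩ := mem_filter.1 h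
        exact ⟨⟨AJ, h3⟩, mem_filter.2 ⟨mem_univ _, h4⟩, rfl⟩
  refine (sum_le_card_nsmul _ _ _ fun W _ => h1 W).trans (le_of_eq ?_)
  rw [card_univ, Fintype.card_fun, smul_eq_mul]

end Pool.Agent.F32.PSCS
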