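import Pool.Agent.F32.Final

/-!
# F32: power saving, the end (helper38)

From `StmtPS` (a system of edge-disjoint triangular faces of `n` points of `ℝ⁴` in general position has at
most `C n^(2-c)` elements) to all 4-polytopes: at most `C' n^(2-c')` of the 2-faces are not 4-gons,
at most `C' n^(2-c')` of the vertices are not simple.
-/

set_option autoImplicit false

namespace Pool.Agent.F32.PS

open Finset QMark Matrix
open Pool.Agent.F32.G4 Pool.Agent.F32.H4

/-- **power saving** for systems of edge-disjoint triangular faces -/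
def StmtPS : Prop := ∃ c C : ℝ, 0 < c ∧ 0 < C ∧ ∀ (V : Type) [Fintype V] [DecidableEq V]
  (v : V → R5), GP v → ∀ T : Finset (V × V × V), Sys v T →
  (T.card : ℝ) ≤ C * ((Fintype.card V : ℕ) : ℝ) ^ (2 - c)

/-- simple 4-polytopes -/
theorem nonq_pow (h : StmtPS) : ∃ c C : ℝ, 0 < c ∧ c ≤ 1 ∧ 0 < C ∧ ∀ (ι : Type) [Fintype ι]
    [DecidableEq ι] (u : ι → E4) (b : ι → ℝ), SP u b → 1 ≤ Fintype.card ι →
    ((nonq u b).card : ℝ) ≤ C * ((Fintype.card ι : ℕ) : ℝ) ^ (2 - c) := by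
  obtain ⟨c0, C, hc0, hC, hT⟩ := h
  set c : ℝ := min c0 1 with hc
  have hcpos : 0 < c := lt_min hc0 one_pos
  have hc1 : c ≤ 1 := min_le_right _ _
  have hcc : c ≤ c0 := min_le_left _ _
  refine ⟨c / 2, 4 + 14 * (96 * C) + 257 * 6, by positivity, by linarith, by positivity, ?_⟩
  intro ι _ _ u b hSP hι
  set n : ℝ := ((Fintype.card ι : ℕ) : ℝ) with hn
  have hn1 : (1 : ℝ) ≤ n := by rw [hn]; exact_mod_cast hι
  have hn0 : (0 : ℝ) < n := by linarith
  -- the threshold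
  set q : ℝ := n ^ (c / 2) with hq
  have hq1 : 1 ≤ q := Real.one_le_rpow hn1 (by positivity)
  set D : ℕ := ⌈q⌉₊ with hD
  have hDq : q ≤ D := Nat.le_ceil q
  have hDq2 : (D : ℝ) ≤ 2 * q := by
    have := (Nat.ceil_lt_add_one (by linarith : 0 ≤ q)).le
    linarith
  have hD0 : (0 : ℝ) < D := by linarith
  obtain ⟨S, hSF, hSd, hS⟩ := greedy (lgt u b D) (fun s hs =>
    (mem_faces.1 (mem_filter.1 hs).1).1) (4 * D) (fun e he => pair_le D he)
  have h1 : (S.card : ℝ) ≤ (2 * C * n ^ (-c)) * n ^ 2 := by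
    refine few_sys hSP (n0 := Fintype.card ι) ?_ le_rfl S (hSF.trans (filter_subset _ _)) hSd
    intro V _ _ v hv T hTs hV
    have hN : n ≤ ((Fintype.card V : ℕ) : ℝ) := by rw [hn]; exact_mod_cast hV
    set N : ℝ := ((Fintype.card V : ℕ) : ℝ) with hNdef
    have hN1 : 1 ≤ N := hn1.trans hN
    have hN0 : 0 < N := by linarith
    have g1 := hT V v hv T hTs
    rw [← hNdef] at g1
    have g2 : N ^ (2 - c0) ≤ N ^ (2 - c) := Real.rpow_le_rpow_of_exponent_le hN1 (by linarith)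
    have g3 : N ^ (2 - c) = N ^ (-c) * N ^ 2 := by
      rw [← Real.rpow_natCast N 2, ← Real.rpow_add hN0]
      congr 1
      push_cast
      ring
    have g4 : N ^ (-c) ≤ n ^ (-c) := Real.rpow_le_rpow_of_nonpos hn0 hN (by linarith)
    have g5 : 0 < n ^ (-c) * N ^ 2 := by positivity
    have g6 : N ^ (-c) * N ^ 2 ≤ n ^ (-c) * N ^ 2 := mul_le_mul_of_nonneg_right g4 (by positivity)
    have g7 : C * N ^ (2 - c0) ≤ C * (n ^ (-c) * N ^ 2) :=
      mul_le_mul_of_nonneg_left (g2.trans (g3.le.trans g6)) hC.le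
    nlinarith
  have e1 : n ^ (-c) * n ^ 2 = n ^ (2 - c) := by
    rw [← Real.rpow_natCast n 2, ← Real.rpow_add hn0]
    congr 1
    push_cast
    ring
  have e2 : q * n ^ (2 - c) = n ^ (2 - c / 2) := by
    rw [hq, ← Real.rpow_add hn0]
    congr 1
    ring
  have e3 : q * n ^ (2 - c / 2) = n ^ 2 := by
    rw [hq, ← Real.rpow_natCast n 2, ← Real.rpow_add hn0]
    congr 1
    push_cast
    ring
  have e4 : n ≤ n ^ (2 - c / 2) := by
    calc n = n ^ (1 : ℝ) := (Real.rpow_one n).symm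
      _ ≤ n ^ (2 - c / 2) := Real.rpow_le_rpow_of_exponent_le hn1 (by linarith)
  have e5 : 0 ≤ n ^ (2 - c) := Real.rpow_nonneg hn0.le _
  have e6 : 0 ≤ n ^ (2 - c / 2) := Real.rpow_nonneg hn0.le _
  have h2 := few_le hSP D
  have h3 := partI hSP D
  have h4 := big_card hSP D
  have h5 : ((QMark.few u b D).card : ℝ) ≤ 24 * D * S.card := by
    have : (QMark.few u b D).card ≤ 24 * D * S.card := by nlinarith
    exact_mod_cast this
  have h6 : ((nonq u b).card : ℝ) ≤ 4 * n + 14 * (QMark.few u b D).card + 257 * (big u b D).card := by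
    rw [hn]
    exact_mod_cast h3
  have h7 : ((big u b D).card : ℝ) * D ≤ 3 * (n * (n + 1)) := by
    rw [hn]
    exact_mod_cast h4
  have h8 : ((QMark.few u b D).card : ℝ) ≤ 96 * C * n ^ (2 - c / 2) := by
    have g1 : (S.card : ℝ) ≤ 2 * C * n ^ (2 - c) := by
      rw [← e1]
      linarith
    calc ((QMark.few u b D).card : ℝ) ≤ 24 * D * S.card := h5
      _ ≤ 24 * (2 * q) * (2 * C * n ^ (2 - c)) := by
          apply mul_le_mul _ g1 (Nat.cast_nonneg _) (by positivity)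
          linarith
      _ = 96 * C * (q * n ^ (2 - c)) := by ring
      _ = 96 * C * n ^ (2 - c / 2) := by rw [e2]
  have h9 : ((big u b D).card : ℝ) ≤ 6 * n ^ (2 - c / 2) := by
    have g1 : ((big u b D).card : ℝ) * q ≤ 6 * n ^ (2 - c / 2) * q := by
      calc ((big u b D).card : ℝ) * q ≤ (big u b D).card * D :=
            mul_le_mul_of_nonneg_left hDq (Nat.cast_nonneg _)
        _ ≤ 3 * (n * (n + 1)) := h7
        _ ≤ 6 * n ^ 2 := by nlinarith
        _ = 6 * n ^ (2 - c / 2) * q := by rw [← e3]; ring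
    exact le_of_mul_le_mul_right g1 (by linarith)
  have hgoal : (4 + 14 * (96 * C) + 257 * 6) * n ^ (2 - c / 2) =
      4 * n ^ (2 - c / 2) + 14 * (96 * C * n ^ (2 - c / 2)) + 257 * (6 * n ^ (2 - c / 2)) := by
    ring
  rw [hgoal]
  linarith

/-- all 4-polytopes -/
theorem pow_all (h : StmtPS) : ∃ c C : ℝ, 0 < c ∧ 0 < C ∧
    (∀ (ι : Type) [Fintype ι] [DecidableEq ι] (u : ι → E4) (b : ι → ℝ), P4 u b →
      1 ≤ Fintype.card ι →
      (((tf u b).filter fun e => kv u b e = 3 ∨ 5 ≤ kv u b e).card : ℝ) ≤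
        C * ((Fintype.card ι : ℕ) : ℝ) ^ (2 - c)) ∧
    (∀ (ι : Type) [Fintype ι] [DecidableEq ι] (u : ι → E4) (b : ι → ℝ), P4 u b →
      1 ≤ Fintype.card ι →
      (((vts u b).filter fun s => 5 ≤ s.card).card : ℝ) ≤
        C * ((Fintype.card ι : ℕ) : ℝ) ^ (2 - c)) := by
  obtain ⟨c, C, hc, hc1, hC, hq⟩ := nonq_pow h
  -- the parameter
  have key : ∀ (ι : Type) [Fintype ι] [DecidableEq ι] (u : ι → E4) (b2 : ι → ℝ), SP u b2 →
      1 ≤ Fintype.card ι → ∃ D : ℕ, 5 ≤ D ∧ ∀ x : ℝ,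
      x ≤ 168 * (Fintype.card ι : ℝ) + 31 * (D : ℝ) * ((nonq u b2).card : ℝ) +
        588 * ((big u b2 D).card : ℝ) →
      x ≤ (168 + 217 * C + 3528) * ((Fintype.card ι : ℕ) : ℝ) ^ (2 - c / 2) := by
    intro ι _ _ u b2 hSP hι
    set n : ℝ := ((Fintype.card ι : ℕ) : ℝ) with hn
    have hn1 : (1 : ℝ) ≤ n := by rw [hn]; exact_mod_cast hι
    have hn0 : (0 : ℝ) < n := by linarith
    set q : ℝ := n ^ (c / 2) with hqd
    have hq1 : 1 ≤ q := Real.one_le_rpow hn1 (by positivity)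
    set D : ℕ := ⌈q⌉₊ + 5 with hD
    have hDc : (D : ℝ) = (⌈q⌉₊ : ℝ) + 5 := by rw [hD]; push_cast; ring
    have hDq : q ≤ D := by
      rw [hDc]
      have := Nat.le_ceil q
      linarith
    have hDq2 : (D : ℝ) ≤ 7 * q := by
      rw [hDc]
      have := (Nat.ceil_lt_add_one (by linarith : 0 ≤ q)).le
      linarith
    have e2 : q * n ^ (2 - c) = n ^ (2 - c / 2) := by
      rw [hqd, ← Real.rpow_add hn0]
      congr 1
      ring
    have e3 : q * n ^ (2 - c / 2) = n ^ 2 := by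
      rw [hqd, ← Real.rpow_natCast n 2, ← Real.rpow_add hn0]
      congr 1
      push_cast
      ring
    have e4 : n ≤ n ^ (2 - c / 2) := by
      calc n = n ^ (1 : ℝ) := (Real.rpow_one n).symm
        _ ≤ n ^ (2 - c / 2) := Real.rpow_le_rpow_of_exponent_le hn1 (by linarith)
    have e5 : 0 ≤ n ^ (2 - c) := Real.rpow_nonneg hn0.le _
    refine ⟨D, by omega, fun x hx => ?_⟩
    have h1 : 31 * (D : ℝ) * ((nonq u b2).card : ℝ) ≤ 217 * C * n ^ (2 - c / 2) := by
      calc 31 * (D : ℝ) * ((nonq u b2).card : ℝ) ≤ 31 * (7 * q) * (C * n ^ (2 - c)) := by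
            apply mul_le_mul _ (hq ι u b2 hSP hι) (Nat.cast_nonneg _) (by positivity)
            linarith
        _ = 217 * C * (q * n ^ (2 - c)) := by ring
        _ = 217 * C * n ^ (2 - c / 2) := by rw [e2]
    have h7 : ((big u b2 D).card : ℝ) * D ≤ 3 * (n * (n + 1)) := by
      rw [hn]
      exact_mod_cast big_card hSP D
    have h9 : ((big u b2 D).card : ℝ) ≤ 6 * n ^ (2 - c / 2) := by
      have g1 : ((big u b2 D).card : ℝ) * q ≤ 6 * n ^ (2 - c / 2) * q := by
        calc ((big u b2 D).card : ℝ) * q ≤ (big u b2 D).card * D :=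
              mul_le_mul_of_nonneg_left hDq (Nat.cast_nonneg _)
          _ ≤ 3 * (n * (n + 1)) := h7
          _ ≤ 6 * n ^ 2 := by nlinarith
          _ = 6 * n ^ (2 - c / 2) * q := by rw [← e3]; ring
      exact le_of_mul_le_mul_right g1 (by linarith)
    have hgoal : (168 + 217 * C + 3528) * n ^ (2 - c / 2) =
        168 * n ^ (2 - c / 2) + 217 * C * n ^ (2 - c / 2) + 588 * (6 * n ^ (2 - c / 2)) := by
      ring
    rw [hgoal]
    linarith
  have hbad : ∀ (ι : Type) [Fintype ι] [DecidableEq ι] (u : ι → E4) (b2 : ι → ℝ) (D : ℕ),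
      SP u b2 → ((bad u b2 (big u b2 D)).card : ℝ) ≤ 8 * (Fintype.card ι : ℝ) +
        5 * ((D : ℝ) * ((nonq u b2).card : ℝ)) + 90 * ((big u b2 D).card : ℝ) := by
    intro ι _ _ u b2 D hsp
    have h4 := partIII hsp D
    have h5 : (nonq u b2).card * (D - 1) ≤ D * (nonq u b2).card := by
      rw [mul_comm D]
      exact Nat.mul_le_mul_left _ (Nat.sub_le _ _)
    have h6 : (bad u b2 (big u b2 D)).card ≤ 8 * Fintype.card ι +
        5 * (D * (nonq u b2).card) + 90 * (big u b2 D).card := by omega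
    exact_mod_cast h6
  refine ⟨c / 2, 168 + 217 * C + 3528, by positivity, by positivity, ?_, ?_⟩
  · intro ι _ _ u b hP hι
    obtain ⟨b2, hb2⟩ := near ι u b hP
    obtain ⟨D, hD5, hk⟩ := key ι u b2 hb2.sp hι
    refine hk _ ?_
    have h4 := t_F2c t_Two t_Pair t_Sum t_Uni ι u b b2 D hD5 hP hb2
    have h5 : ((((tf u b).filter fun e => kv u b e = 3 ∨ 5 ≤ kv u b e).card : ℕ) : ℝ) ≤
        ((nonq u b2).card : ℝ) + 6 * ((bad u b2 (big u b2 D)).card : ℝ) +
          8 * (6 * ((big u b2 D).card : ℝ) + 15 * (Fintype.card ι : ℝ)) := by exact_mod_cast h4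
    have h6 := hbad ι u b2 D hb2.sp
    have h7 : ((nonq u b2).card : ℝ) ≤ (D : ℝ) * ((nonq u b2).card : ℝ) := by
      have : (1 : ℝ) ≤ D := by exact_mod_cast (show 1 ≤ D by omega)
      nlinarith [Nat.cast_nonneg (α := ℝ) (nonq u b2).card]
    linarith
  · intro ι _ _ u b hP hι
    obtain ⟨b2, hb2⟩ := near ι u b hP
    obtain ⟨D, hD5, hk⟩ := key ι u b2 hb2.sp hι
    refine hk _ ?_
    have h4 := t_F3c t_Two t_Pair t_Sum t_Uni ι u b b2 D hP hb2
    have h5 : ((((vts u b).filter fun s => 5 ≤ s.card).card : ℕ) : ℝ) ≤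
        ((bad u b2 (big u b2 D)).card : ℝ) +
          2 * (6 * ((big u b2 D).card : ℝ) + 15 * (Fintype.card ι : ℝ)) := by exact_mod_cast h4
    have h6 := hbad ι u b2 D hb2.sp
    have h8 : (0 : ℝ) ≤ (D : ℝ) * ((nonq u b2).card : ℝ) := by positivity
    have h9 : (0 : ℝ) ≤ ((big u b2 D).card : ℝ) := Nat.cast_nonneg _
    have h10 : (0 : ℝ) ≤ (Fintype.card ι : ℝ) := Nat.cast_nonneg _
    linarith

end Pool.Agent.F32.PS
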