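import Pool.Agent.F32.HandA

/-!
# F32: 2-faces which are not 4-gons, hand-in form with a bound function (helper38)
-/

set_option autoImplicit false

namespace Pool.Agent.F32.HandA

open Finset
open scoped InnerProductSpace
open G4

theorem mainB (B : ℕ → ℝ) (hB : ∀ (ι : Type) [Fintype ι] [DecidableEq ι] (u : ι → QMark.E4)
    (b : ι → ℝ), P4 u b → 1 ≤ Fintype.card ι →
    (((tf u b).filter fun e => kv u b e = 3 ∨ 5 ≤ kv u b e).card : ℝ) ≤ B (Fintype.card ι))
    (hKv : StmtKv3) (n : ℕ) (u : Fin n → QMark.E4) (b : Fin n → ℝ) (hn : 1 ≤ n)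
    (hP : TCC.IsPoly4 u b) :
    (({e : Fin n × Fin n | e.1 < e.2 ∧
      Module.finrank ℝ (vectorSpan ℝ (TCC.Facet u b e.1 ∩ TCC.Facet u b e.2)) = 2 ∧
      (Set.extremePoints ℝ (TCC.Facet u b e.1 ∩ TCC.Facet u b e.2)).ncard ≠ 4} :
        Set (Fin n × Fin n)).ncard : ℝ) ≤ B n := by
  classical
  have h1 := hB (Fin n) u b (p4 hP) (by rw [Fintype.card_fin]; exact hn)
  rw [Fintype.card_fin] at h1
  refine le_trans ?_ h1
  rw [Set.ncard_eq_toFinset_card']
  norm_cast
  apply card_le_card_of_injOn (fun e : Fin n × Fin n => ({e.1, e.2} : Finset (Fin n)))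
  · intro e he
    rw [mem_coe, Set.mem_toFinset] at he
    obtain ⟨a1, a2, a3⟩ := he
    have hne : e.1 ≠ e.2 := a1.ne
    have htf : ({e.1, e.2} : Finset (Fin n)) ∈ tf u b := by
      rw [tf, mem_filter]
      refine ⟨mem_univ _, card_pair hne, ?_⟩
      obtain ⟨p, hp, hpk⟩ := TCC.exists_two hP hne a2
      refine ⟨p, hp, ?_⟩
      ext j
      rw [QMark.mem_act, mem_insert, mem_singleton]
      exact hpk j
    rw [mem_coe, mem_filter]
    refine ⟨htf, ?_⟩
    change kv u b {e.1, e.2} = 3 ∨ 5 ≤ kv u b {e.1, e.2}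
    have h3 := hKv (Fin n) u b (p4 hP) _ htf
    have h4 : kv u b {e.1, e.2} ≠ 4 := by
      rw [kv_eq]
      exact a3
    omega
  · intro e he e' he' hee
    rw [mem_coe, Set.mem_toFinset] at he he'
    have h1 : e.1 < e.2 := he.1
    have h2 : e'.1 < e'.2 := he'.1
    have hee' : ({e.1, e.2} : Finset (Fin n)) = {e'.1, e'.2} := hee
    have a1 : e.1 ∈ ({e'.1, e'.2} : Finset (Fin n)) := by rw [← hee']; simp
    have a2 : e.2 ∈ ({e'.1, e'.2} : Finset (Fin n)) := by rw [← hee']; simp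
    rw [mem_insert, mem_singleton] at a1 a2
    rcases a1 with a1 | a1 <;> rcases a2 with a2 | a2
    · rw [a1, a2] at h1
      exact absurd h1 (lt_irrefl _)
    · exact Prod.ext a1 a2
    · rw [a1, a2] at h1
      exact absurd h1 h2.asymm
    · rw [a1, a2] at h1
      exact absurd h1 (lt_irrefl _)

end Pool.Agent.F32.HandA
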