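import Pool.Agent.F32.Final
import Pool.Agent.F32.PS_HandA
import Pool.Agent.F32.PS_HandB

/-!
# F32: power saving, the end, second form (helper38)

From `StmtT` (edge-disjoint triangles, i.e. vertices triples of a simple 4-polytope) to all 4-polytopes and to
the hand-in forms.
-/

set_option autoImplicit false

namespace Pool.Agent.F32.PS

open Finset QMark Matrix
open Pool.Agent.F32.G4 Pool.Agent.F32.H4

/-- **power saving** for edge-disjoint sets of three facets of a simple 4-polytope -/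
def StmtT : Prop := ∃ κ Φ : ℝ, 3 * κ < 2 ∧ 0 < Φ ∧ ∀ (ι : Type) [Fintype ι] [DecidableEq ι]
  (u : ι → E4) (b : ι → ℝ), SP u b → ∀ S ⊆ faces u b 3,
  (∀ s ∈ S, ∀ s' ∈ S, s ≠ s' → (s ∩ s').card ≤ 1) →
  (S.card : ℝ) ≤ Φ * ((Fintype.card ι : ℕ) : ℝ) ^ (3 * κ)

/-- power saving for simple 4-polytopes -/
def NonqPow : Prop := ∃ c C : ℝ, 0 < c ∧ c ≤ 1 ∧ 0 < C ∧ ∀ (ι : Type) [Fintype ι]
    [DecidableEq ι] (u : ι → E4) (b : ι → ℝ), SP u b → 1 ≤ Fintype.card ι →
    ((nonq u b).card : ℝ) ≤ C * ((Fintype.card ι : ℕ) : ℝ) ^ (2 - c)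

theorem nonq_powT (h : StmtT) : NonqPow := by
  obtain ⟨κ, C, hκ, hC, hT⟩ := h
  set c0 : ℝ := 2 - 3 * κ with hc0d
  have hc0 : 0 < c0 := by rw [hc0d]; linarith
  set c : ℝ := min c0 1 with hc
  have hcpos : 0 < c := lt_min hc0 one_pos
  have hc1 : c ≤ 1 := min_le_right _ _
  have hcc : c ≤ c0 := min_le_left _ _
  refine ⟨c / 2, 4 + 14 * (96 * C) + 257 * 6, by positivity, by linarith, by positivity, ?_⟩
  intro ι _ _ u b hSP hι
  set n : ℝ := ((Fintype.card ι : ℕ) : ℝ) with hn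
  have hn1 : (1 : ℝ) ≤ n := by rw [hn]; exact_mod_cast hι
  have hn0 : (0 : ℝ) < n := by linarith
  -- the threshold
  set q : ℝ := n ^ (c / 2) with hq
  have hq1 : 1 ≤ q := Real.one_le_rpow hn1 (by positivity)
  set D : ℕ := ⌈q⌉₊ with hD
  have hDq : q ≤ D := Nat.le_ceil q
  have hDq2 : (D : ℝ) ≤ 2 * q := by
    have := (Nat.ceil_lt_add_one (by linarith : 0 ≤ q)).le
    linarith
  have hD0 : (0 : ℝ) < D := by linarith
  obtain ⟨S, hSF, hSd, hS⟩ := greedy (lgt u b D) (fun s hs =>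
    (mem_faces.1 (mem_filter.1 hs).1).1) (4 * D) (fun e he => pair_le D he)
  have h1 : (S.card : ℝ) ≤ 2 * C * n ^ (2 - c) := by
    have g1 := hT ι u b hSP S (hSF.trans (filter_subset _ _)) hSd
    rw [← hn] at g1
    have g2 : n ^ (3 * κ) ≤ n ^ (2 - c) := by
      refine Real.rpow_le_rpow_of_exponent_le hn1 ?_
      have : 3 * κ = 2 - c0 := by rw [hc0d]; ring
      linarith
    have g3 : C * n ^ (3 * κ) ≤ C * n ^ (2 - c) := mul_le_mul_of_nonneg_left g2 hC.le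
    have g4 : 0 ≤ C * n ^ (2 - c) := mul_nonneg hC.le (Real.rpow_nonneg hn0.le _)
    linarith
  have e2 : q * n ^ (2 - c) = n ^ (2 - c / 2) := by
    rw [hq, ← Real.rpow_add hn0]
    congr 1
    ring
  have e3 : q * n ^ (2 - c / 2) = n ^ 2 := by
    rw [hq, ← Real.rpow_natCast n 2, ← Real.rpow_add hn0]
    congr 1
    push_cast
    ring
  have e4 : n ≤ n ^ (2 - c / 2) := by
    calc n = n ^ (1 : ℝ) := (Real.rpow_one n).symm
      _ ≤ n ^ (2 - c / 2) := Real.rpow_le_rpow_of_exponent_le hn1 (by linarith)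
  have e5 : 0 ≤ n ^ (2 - c) := Real.rpow_nonneg hn0.le _
  have e6 : 0 ≤ n ^ (2 - c / 2) := Real.rpow_nonneg hn0.le _
  have h2 := few_le hSP D
  have h3 := partI hSP D
  have h4 := big_card hSP D
  have h5 : ((QMark.few u b D).card : ℝ) ≤ 24 * D * S.card := by
    have : (QMark.few u b D).card ≤ 24 * D * S.card := by nlinarith
    exact_mod_cast this
  have h6 : ((nonq u b).card : ℝ) ≤ 4 * n + 14 * (QMark.few u b D).card + 257 * (big u b D).card := by
    rw [hn]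
    exact_mod_cast h3
  have h7 : ((big u b D).card : ℝ) * D ≤ 3 * (n * (n + 1)) := by
    rw [hn]
    exact_mod_cast h4
  have h8 : ((QMark.few u b D).card : ℝ) ≤ 96 * C * n ^ (2 - c / 2) := by
    calc ((QMark.few u b D).card : ℝ) ≤ 24 * D * S.card := h5
      _ ≤ 24 * (2 * q) * (2 * C * n ^ (2 - c)) := by
          apply mul_le_mul _ h1 (Nat.cast_nonneg _) (by positivity)
          linarith
      _ = 96 * C * (q * n ^ (2 - c)) := by ring
      _ = 96 * C * n ^ (2 - c / 2) := by rw [e2]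
  have h9 : ((big u b D).card : ℝ) ≤ 6 * n ^ (2 - c / 2) := by
    have g1 : ((big u b D).card : ℝ) * q ≤ 6 * n ^ (2 - c / 2) * q := by
      calc ((big u b D).card : ℝ) * q ≤ (big u b D).card * D :=
            mul_le_mul_of_nonneg_left hDq (Nat.cast_nonneg _)
        _ ≤ 3 * (n * (n + 1)) := h7
        _ ≤ 6 * n ^ 2 := by nlinarith
        _ = 6 * n ^ (2 - c / 2) * q := by rw [← e3]; ring
    exact le_of_mul_le_mul_right g1 (by linarith)
  have hgoal : (4 + 14 * (96 * C) + 257 * 6) * n ^ (2 - c / 2) =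
      4 * n ^ (2 - c / 2) + 14 * (96 * C * n ^ (2 - c / 2)) + 257 * (6 * n ^ (2 - c / 2)) := by
    ring
  rw [hgoal]
  linarith

/-- all 4-polytopes -/
theorem pow_all2 (h : NonqPow) : ∃ c C : ℝ, 0 < c ∧ 0 < C ∧
    (∀ (ι : Type) [Fintype ι] [DecidableEq ι] (u : ι → E4) (b : ι → ℝ), P4 u b →
      1 ≤ Fintype.card ι →
      (((tf u b).filter fun e => kv u b e = 3 ∨ 5 ≤ kv u b e).card : ℝ) ≤
        C * ((Fintype.card ι : ℕ) : ℝ) ^ (2 - c)) ∧
    (∀ (ι : Type) [Fintype ι] [DecidableEq ι] (u : ι → E4) (b : ι → ℝ), P4 u b →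
      1 ≤ Fintype.card ι →
      (((vts u b).filter fun s => 5 ≤ s.card).card : ℝ) ≤
        C * ((Fintype.card ι : ℕ) : ℝ) ^ (2 - c)) := by
  obtain ⟨c, C, hc, hc1, hC, hq⟩ := h
  -- the parameter
  have key : ∀ (ι : Type) [Fintype ι] [DecidableEq ι] (u : ι → E4) (b2 : ι → ℝ), SP u b2 →
      1 ≤ Fintype.card ι → ∃ D : ℕ, 5 ≤ D ∧ ∀ x : ℝ,
      x ≤ 168 * (Fintype.card ι : ℝ) + 31 * (D : ℝ) * ((nonq u b2).card : ℝ) +
        588 * ((big u b2 D).card : ℝ) →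
      x ≤ (168 + 217 * C + 3528) * ((Fintype.card ι : ℕ) : ℝ) ^ (2 - c / 2) := by
    intro ι _ _ u b2 hSP hι
    set n : ℝ := ((Fintype.card ι : ℕ) : ℝ) with hn
    have hn1 : (1 : ℝ) ≤ n := by rw [hn]; exact_mod_cast hι
    have hn0 : (0 : ℝ) < n := by linarith
    set q : ℝ := n ^ (c / 2) with hqd
    have hq1 : 1 ≤ q := Real.one_le_rpow hn1 (by positivity)
    set D : ℕ := ⌈q⌉₊ + 5 with hD
    have hDc : (D : ℝ) = (⌈q⌉₊ : ℝ) + 5 := by rw [hD]; push_cast; ring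
    have hDq : q ≤ D := by
      rw [hDc]
      have := Nat.le_ceil q
      linarith
    have hDq2 : (D : ℝ) ≤ 7 * q := by
      rw [hDc]
      have := (Nat.ceil_lt_add_one (by linarith : 0 ≤ q)).le
      linarith
    have e2 : q * n ^ (2 - c) = n ^ (2 - c / 2) := by
      rw [hqd, ← Real.rpow_add hn0]
      congr 1
      ring
    have e3 : q * n ^ (2 - c / 2) = n ^ 2 := by
      rw [hqd, ← Real.rpow_natCast n 2, ← Real.rpow_add hn0]
      congr 1
      push_cast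
      ring
    have e4 : n ≤ n ^ (2 - c / 2) := by
      calc n = n ^ (1 : ℝ) := (Real.rpow_one n).symm
        _ ≤ n ^ (2 - c / 2) := Real.rpow_le_rpow_of_exponent_le hn1 (by linarith)
    have e5 : 0 ≤ n ^ (2 - c) := Real.rpow_nonneg hn0.le _
    refine ⟨D, by omega, fun x hx => ?_⟩
    have h1 : 31 * (D : ℝ) * ((nonq u b2).card : ℝ) ≤ 217 * C * n ^ (2 - c / 2) := by
      calc 31 * (D : ℝ) * ((nonq u b2).card : ℝ) ≤ 31 * (7 * q) * (C * n ^ (2 - c)) := by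
            apply mul_le_mul _ (hq ι u b2 hSP hι) (Nat.cast_nonneg _) (by positivity)
            linarith
        _ = 217 * C * (q * n ^ (2 - c)) := by ring
        _ = 217 * C * n ^ (2 - c / 2) := by rw [e2]
    have h7 : ((big u b2 D).card : ℝ) * D ≤ 3 * (n * (n + 1)) := by
      rw [hn]
      exact_mod_cast big_card hSP D
    have h9 : ((big u b2 D).card : ℝ) ≤ 6 * n ^ (2 - c / 2) := by
      have g1 : ((big u b2 D).card : ℝ) * q ≤ 6 * n ^ (2 - c / 2) * q := by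
        calc ((big u b2 D).card : ℝ) * q ≤ (big u b2 D).card * D :=
              mul_le_mul_of_nonneg_left hDq (Nat.cast_nonneg _)
          _ ≤ 3 * (n * (n + 1)) := h7
          _ ≤ 6 * n ^ 2 := by nlinarith
          _ = 6 * n ^ (2 - c / 2) * q := by rw [← e3]; ring
      exact le_of_mul_le_mul_right g1 (by linarith)
    have hgoal : (168 + 217 * C + 3528) * n ^ (2 - c / 2) =
        168 * n ^ (2 - c / 2) + 217 * C * n ^ (2 - c / 2) + 588 * (6 * n ^ (2 - c / 2)) := by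
      ring
    rw [hgoal]
    linarith
  have hbad : ∀ (ι : Type) [Fintype ι] [DecidableEq ι] (u : ι → E4) (b2 : ι → ℝ) (D : ℕ),
      SP u b2 → ((bad u b2 (big u b2 D)).card : ℝ) ≤ 8 * (Fintype.card ι : ℝ) +
        5 * ((D : ℝ) * ((nonq u b2).card : ℝ)) + 90 * ((big u b2 D).card : ℝ) := by
    intro ι _ _ u b2 D hsp
    have h4 := partIII hsp D
    have h5 : (nonq u b2).card * (D - 1) ≤ D * (nonq u b2).card := by
      rw [mul_comm D]
      exact Nat.mul_le_mul_left _ (Nat.sub_le _ _)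
    have h6 : (bad u b2 (big u b2 D)).card ≤ 8 * Fintype.card ι +
        5 * (D * (nonq u b2).card) + 90 * (big u b2 D).card := by omega
    exact_mod_cast h6
  refine ⟨c / 2, 168 + 217 * C + 3528, by positivity, by positivity, ?_, ?_⟩
  · intro ι _ _ u b hP hι
    obtain ⟨b2, hb2⟩ := near ι u b hP
    obtain ⟨D, hD5, hk⟩ := key ι u b2 hb2.sp hι
    refine hk _ ?_
    have h4 := t_F2c t_Two t_Pair t_Sum t_Uni ι u b b2 D hD5 hP hb2
    have h5 : ((((tf u b).filter fun e => kv u b e = 3 ∨ 5 ≤ kv u b e).card : ℕ) : ℝ) ≤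
        ((nonq u b2).card : ℝ) + 6 * ((bad u b2 (big u b2 D)).card : ℝ) +
          8 * (6 * ((big u b2 D).card : ℝ) + 15 * (Fintype.card ι : ℝ)) := by exact_mod_cast h4
    have h6 := hbad ι u b2 D hb2.sp
    have h7 : ((nonq u b2).card : ℝ) ≤ (D : ℝ) * ((nonq u b2).card : ℝ) := by
      have : (1 : ℝ) ≤ D := by exact_mod_cast (show 1 ≤ D by omega)
      nlinarith [Nat.cast_nonneg (α := ℝ) (nonq u b2).card]
    linarith
  · intro ι _ _ u b hP hι
    obtain ⟨b2, hb2⟩ := near ι u b hP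
    obtain ⟨D, hD5, hk⟩ := key ι u b2 hb2.sp hι
    refine hk _ ?_
    have h4 := t_F3c t_Two t_Pair t_Sum t_Uni ι u b b2 D hP hb2
    have h5 : ((((vts u b).filter fun s => 5 ≤ s.card).card : ℕ) : ℝ) ≤
        ((bad u b2 (big u b2 D)).card : ℝ) +
          2 * (6 * ((big u b2 D).card : ℝ) + 15 * (Fintype.card ι : ℝ)) := by exact_mod_cast h4
    have h6 := hbad ι u b2 D hb2.sp
    have h8 : (0 : ℝ) ≤ (D : ℝ) * ((nonq u b2).card : ℝ) := by positivity
    have h9 : (0 : ℝ) ≤ ((big u b2 D).card : ℝ) := Nat.cast_nonneg _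
    have h10 : (0 : ℝ) ≤ (Fintype.card ι : ℝ) := Nat.cast_nonneg _
    linarith


/-- hand-in form: 2-faces which are not 4-gons -/
theorem handA (h : NonqPow) : ∃ c C : ℝ, 0 < c ∧ 0 < C ∧ ∀ (n : ℕ) (u : Fin n → QMark.E4)
    (b : Fin n → ℝ), 1 ≤ n → TCC.IsPoly4 u b →
    (({e : Fin n × Fin n | e.1 < e.2 ∧
      Module.finrank ℝ (vectorSpan ℝ (TCC.Facet u b e.1 ∩ TCC.Facet u b e.2)) = 2 ∧
      (Set.extremePoints ℝ (TCC.Facet u b e.1 ∩ TCC.Facet u b e.2)).ncard ≠ 4} :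
        Set (Fin n × Fin n)).ncard : ℝ) ≤ C * (n : ℝ) ^ (2 - c) := by
  obtain ⟨c, C, hc, hC, h2, -⟩ := pow_all2 h
  exact ⟨c, C, hc, hC, fun n u b hn hP =>
    HandA.mainB (fun m => C * ((m : ℕ) : ℝ) ^ (2 - c)) h2 kv3 n u b hn hP⟩

/-- hand-in form: facets which are not simplices -/
theorem handB (h : NonqPow) : ∃ c C : ℝ, 0 < c ∧ 0 < C ∧ ∀ (n : ℕ) (S P : Set E4), 1 ≤ n →
    S.Finite → affineSpan ℝ S = ⊤ → P = convexHull ℝ S → (P.extremePoints ℝ).encard = n →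
    ∃ N : ℕ, {F : Set E4 | (IsExposed ℝ P F ∧ Module.finrank ℝ (vectorSpan ℝ F) = 3) ∧
      (F.extremePoints ℝ).encard ≠ 4}.encard = N ∧ (N : ℝ) ≤ C * (n : ℝ) ^ (2 - c) := by
  obtain ⟨c, C, hc, hC, -, h3⟩ := pow_all2 h
  exact ⟨c, C, hc, hC, fun n S P hn hS hspan hP hcard =>
    HandB.mainB (fun m => C * ((m : ℕ) : ℝ) ^ (2 - c)) h3 n S P hn hS hspan hP hcard⟩

end Pool.Agent.F32.PS
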