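import Pool.Agent.F32.Circ

/-!
# F32, power saving: locality (helper80)

`U` a finite set of points in general position, `x c y` a triangular face of the cone over `U` and
`x, c, y`, not in `U`. Either there is a ridge `R` of `U` such that each of `x, c, y` sees one of the two
facets at `R`, or there is an edge `u1 u2` of `U` all of whose facets are seen by `x`, `c` or `y`, and
for two of the three points there is a ridge at the edge such that both see one of its facets.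
-/

set_option autoImplicit false

namespace Pool.Agent.F32

open Finset Matrix

variable {V : Type*}

/-- `F` is a facet of `U` with the functional `h` -/
def Fct (v : V → R5) (U F : Finset V) (h : R5) : Prop :=
  F ⊆ U ∧ F.card = 4 ∧ (∀ u ∈ F, v u ⬝ᵥ h = 0) ∧ ∀ u ∈ U, u ∉ F → 0 < v u ⬝ᵥ h

/-- `x` is beyond the facet `F` of `U` -/
def Sees (v : V → R5) (U : Finset V) (x : V) (F : Finset V) : Prop :=
  ∃ h, Fct v U F h ∧ v x ⬝ᵥ h < 0

/-- `R` is the ridge of the facets `F`, `F'` -/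
def Rdg (v : V → R5) (U R F F' : Finset V) : Prop :=
  R.card = 3 ∧ R ⊆ F ∧ R ⊆ F' ∧ F ≠ F' ∧ (∃ h, Fct v U F h) ∧ ∃ h, Fct v U F' h

/-- each of the points `z`, `z'` sees a facet at a ridge which contains `u1`, `u2` -/
def PairAt (v : V → R5) (U : Finset V) (u1 u2 z z' : V) : Prop :=
  ∃ R F F', Rdg v U R F F' ∧ u1 ∈ R ∧ u2 ∈ R ∧ (Sees v U z F ∨ Sees v U z F') ∧
    (Sees v U z' F ∨ Sees v U z' F')

/-- case R of the locality theorem -/
def LocR (v : V → R5) (U : Finset V) (x c y : V) : Prop :=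
  ∃ R F F', Rdg v U R F F' ∧ (Sees v U x F ∨ Sees v U x F') ∧ (Sees v U c F ∨ Sees v U c F') ∧
    (Sees v U y F ∨ Sees v U y F')

/-- case H of the locality theorem -/
def LocH (v : V → R5) (U : Finset V) (x c y : V) : Prop :=
  ∃ u1 u2, u1 ∈ U ∧ u2 ∈ U ∧ u1 ≠ u2 ∧ Circ.Edge v (U : Set V) u1 u2 ∧
    (∀ F h, Fct v U F h → u1 ∈ F → u2 ∈ F → Sees v U x F ∨ Sees v U c F ∨ Sees v U y F) ∧
    PairAt v U u1 u2 x c ∧ PairAt v U u1 u2 x y ∧ PairAt v U u1 u2 c y

namespace PSLoc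

theorem zero_of {v : V → R5} (hv : GP v) {S : Finset V} (hS : 5 ≤ S.card) {h : R5}
    (h0 : ∀ u ∈ S, v u ⬝ᵥ h = 0) : h = 0 := by
  classical
  obtain ⟨T, hTS, hT⟩ := Finset.exists_subset_card_eq hS
  have e : Fin 5 ≃ T := (Finset.equivFinOfCardEq hT).symm
  refine hv.spans (m := 5) le_rfl (W := fun i => (e i : V)) ?_ h fun i => h0 _ (hTS (e i).2)
  intro a b hab
  exact e.injective (Subtype.ext hab)

theorem ex_fun {v : V → R5} (hv : GP v) {S : Finset V} (hS : S.card = 5) (t : V → ℝ) :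
    ∃ h : R5, ∀ u ∈ S, v u ⬝ᵥ h = t u := by
  classical
  have e : Fin 5 ≃ S := (Finset.equivFinOfCardEq hS).symm
  have hd := hv (fun i => (e i : V)) fun a b hab => e.injective (Subtype.ext hab)
  set M : Matrix (Fin 5) (Fin 5) ℝ := Matrix.of fun k => v ((e k : S) : V) with hM
  have hu : IsUnit M.det := isUnit_iff_ne_zero.2 hd
  refine ⟨M⁻¹ *ᵥ fun k => t (e k), fun u hu' => ?_⟩
  have h1 : M *ᵥ (M⁻¹ *ᵥ fun k => t ((e k : S) : V)) = fun k => t ((e k : S) : V) := by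
    rw [Matrix.mulVec_mulVec, Matrix.mul_nonsing_inv _ hu, Matrix.one_mulVec]
  have h2 := congrFun h1 (e.symm ⟨u, hu'⟩)
  have h3 : ((e (e.symm ⟨u, hu'⟩) : S) : V) = u := by rw [Equiv.apply_symm_apply]
  change v ((e (e.symm ⟨u, hu'⟩) : S) : V) ⬝ᵥ (M⁻¹ *ᵥ fun k => t ((e k : S) : V)) =
    t ((e (e.symm ⟨u, hu'⟩) : S) : V) at h2
  rw [h3] at h2
  exact h2

theorem minr {W : Finset V} (hW : W.Nonempty) (f g : V → ℝ) (hf : ∀ w ∈ W, 0 < f w) :
    ∃ r : ℝ, ∃ u ∈ W, g u = r * f u ∧ ∀ w ∈ W, r * f w ≤ g w := by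
  obtain ⟨u, hu, hm⟩ := Finset.exists_min_image W (fun w => g w / f w) hW
  refine ⟨g u / f u, u, hu, (div_mul_cancel₀ _ (hf u hu).ne').symm, fun w hw => ?_⟩
  have h1 := hm w hw
  have h2 := hf w hw
  calc g u / f u * f w ≤ g w / f w * f w := mul_le_mul_of_nonneg_right h1 h2.le
    _ = g w := div_mul_cancel₀ _ h2.ne'

theorem dot_sub_smul (a g h : R5) (r : ℝ) : a ⬝ᵥ (h - r • g) = a ⬝ᵥ h - r * (a ⬝ᵥ g) := by
  rw [dotProduct_sub, dotProduct_smul, smul_eq_mul]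

/-- the facets at a ridge generate the functionals which support the ridge -/
theorem ridge [DecidableEq V] {v : V → R5} (hv : GP v) {U : Finset V} (hU : 5 ≤ U.card)
    {R : Finset V} (hR : R ⊆ U) (hR3 : R.card = 3) {g : R5} (hg0 : g ≠ 0)
    (hgR : ∀ u ∈ R, v u ⬝ᵥ g = 0) (hgU : ∀ u ∈ U, 0 ≤ v u ⬝ᵥ g) :
    ∃ (F F' : Finset V) (hF hF' : R5) (a b : ℝ), Fct v U F hF ∧ Fct v U F' hF' ∧ R ⊆ F ∧ R ⊆ F' ∧ F ≠ F' ∧ 0 ≤ a ∧
      0 ≤ b ∧ g = a • hF + b • hF' := by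
  have key : ∀ u ∉ R, ∀ w ∉ R, u ≠ w → ∀ h : R5, (∀ z ∈ R, v z ⬝ᵥ h = 0) → v u ⬝ᵥ h = 0 →
      v w ⬝ᵥ h = 0 → h = 0 := by
    intro u hu w hw huw h h1 h2 h3
    refine zero_of hv (S := insert u (insert w R)) ?_ ?_
    · rw [card_insert_of_notMem, card_insert_of_notMem hw, hR3]
      rw [mem_insert]
      rintro (h | h)
      · exact huw h
      · exact hu h
    · intro z hz
      rw [mem_insert, mem_insert] at hz
      rcases hz with rfl | rfl | hz
      · exact h2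
      · exact h3
      · exact h1 z hz
  have exf : ∀ u ∉ R, ∀ w ∉ R, u ≠ w → ∃ h : R5, (∀ z ∈ R, v z ⬝ᵥ h = 0) ∧ v u ⬝ᵥ h = 1 ∧
      v w ⬝ᵥ h = 0 := by
    intro u hu w hw huw
    obtain ⟨h, hh⟩ := ex_fun hv (S := insert u (insert w R)) (by
      rw [card_insert_of_notMem, card_insert_of_notMem hw, hR3]
      rw [mem_insert]
      rintro (h | h)
      · exact huw h
      · exact hu h) (fun z => if z = u then 1 else 0)
    refine ⟨h, fun z hz => ?_, ?_, ?_⟩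
    · rw [hh z (mem_insert_of_mem (mem_insert_of_mem hz)), if_neg]
      rintro rfl
      exact hu hz
    · rw [hh u (mem_insert_self _ _), if_pos rfl]
    · rw [hh w (mem_insert_of_mem (mem_insert_self _ _)), if_neg huw.symm]
  have cF : ∀ u ∉ R, (insert u R).card = 4 := by
    intro u hu
    rw [card_insert_of_notMem hu, hR3]
  by_cases hz : ∃ u4 ∈ U, u4 ∉ R ∧ v u4 ⬝ᵥ g = 0
  · obtain ⟨u4, hu4, hn4, hg4⟩ := hz
    have hpos : ∀ u ∈ U, u ∉ insert u4 R → 0 < v u ⬝ᵥ g := by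
      intro u hu hn
      rw [mem_insert, not_or] at hn
      rcases (hgU u hu).lt_or_eq with h | h
      · exact h
      · exact absurd (key u hn.2 u4 hn4 hn.1 g hgR h.symm hg4) hg0
    have hFg : Fct v U (insert u4 R) g := by
      refine ⟨insert_subset hu4 hR, cF u4 hn4, ?_, hpos⟩
      intro u hu
      rw [mem_insert] at hu
      rcases hu with rfl | hu
      · exact hg4
      · exact hgR u hu
    have hW : (U \ insert u4 R).Nonempty := by
      rw [← card_pos, card_sdiff_of_subset (insert_subset hu4 hR), cF u4 hn4]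
      omega
    obtain ⟨w0, hw0⟩ := hW
    have hw0' := mem_sdiff.1 hw0
    rw [mem_insert, not_or] at hw0'
    obtain ⟨h, h1, h2, h3⟩ := exf u4 hn4 w0 hw0'.2.2 (fun h => hw0'.2.1 h.symm)
    obtain ⟨r, u5, hu5, h4, h5⟩ := minr ⟨w0, hw0⟩ (fun w => v w ⬝ᵥ g) (fun w => v w ⬝ᵥ h)
      fun w hw => hpos w (mem_sdiff.1 hw).1 (mem_sdiff.1 hw).2
    have hu5' := mem_sdiff.1 hu5
    rw [mem_insert, not_or] at hu5'
    have e4 : v u4 ⬝ᵥ (h - r • g) = 1 := by
      rw [dot_sub_smul, h2, hg4]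
      ring
    have e5 : v u5 ⬝ᵥ (h - r • g) = 0 := by
      rw [dot_sub_smul]
      rw [h4]
      ring
    have eR : ∀ u ∈ R, v u ⬝ᵥ (h - r • g) = 0 := by
      intro u hu
      rw [dot_sub_smul, h1 u hu, hgR u hu]
      ring
    have hne : h - r • g ≠ 0 := by
      intro h0
      rw [h0, dotProduct_zero] at e4
      exact one_ne_zero e4.symm
    refine ⟨insert u4 R, insert u5 R, g, h - r • g, 1, 0, hFg, ⟨insert_subset hu5'.1 hR,
      cF u5 hu5'.2.2, ?_, ?_⟩, subset_insert _ _, subset_insert _ _, ?_, zero_le_one, le_rfl, ?_⟩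
    · intro u hu
      rw [mem_insert] at hu
      rcases hu with rfl | hu
      · exact e5
      · exact eR u hu
    · intro u hu hn
      rw [mem_insert, not_or] at hn
      by_cases h6 : u = u4
      · rw [h6, e4]
        exact one_pos
      · have h7 : 0 ≤ v u ⬝ᵥ (h - r • g) := by
          rw [dot_sub_smul]
          have := h5 u (mem_sdiff.2 ⟨hu, by rw [mem_insert, not_or]; exact ⟨h6, hn.2⟩⟩)
          linarith
        rcases h7.lt_or_eq with h8 | h8
        · exact h8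
        · exact absurd (key u hn.2 u5 hu5'.2.2 hn.1 _ eR h8.symm e5) hne
    · intro h6
      have h7 : u4 ∈ insert u5 R := h6 ▸ mem_insert_self u4 R
      rw [mem_insert] at h7
      rcases h7 with h7 | h7
      · exact hu5'.2.1 h7.symm
      · exact hn4 h7
    · rw [one_smul, zero_smul, add_zero]
  · have hz : ∀ u ∈ U, u ∉ R → v u ⬝ᵥ g ≠ 0 := fun u hu hn h => hz ⟨u, hu, hn, h⟩
    have hpos : ∀ u ∈ U \ R, 0 < v u ⬝ᵥ g := by
      intro u hu
      rw [mem_sdiff] at hu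
      exact lt_of_le_of_ne (hgU u hu.1) (hz u hu.1 hu.2).symm
    have hc2 : 1 < (U \ R).card := by
      rw [card_sdiff_of_subset hR, hR3]
      omega
    obtain ⟨w1, hw1, w2, hw2, h12⟩ := one_lt_card.1 hc2
    have hw1' := mem_sdiff.1 hw1
    have hw2' := mem_sdiff.1 hw2
    obtain ⟨h, h1, h2, h3⟩ := exf w1 hw1'.2 w2 hw2'.2 h12
    have nprop : ∀ r : ℝ, h ≠ r • g := by
      intro r h0
      have a1 : v w2 ⬝ᵥ h = r * (v w2 ⬝ᵥ g) := by
        rw [h0, dotProduct_smul, smul_eq_mul]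
      have a2 : v w1 ⬝ᵥ h = r * (v w1 ⬝ᵥ g) := by
        rw [h0, dotProduct_smul, smul_eq_mul]
      rw [h3] at a1
      rw [h2] at a2
      rcases mul_eq_zero.1 a1.symm with a3 | a3
      · rw [a3, zero_mul] at a2
        exact one_ne_zero a2
      · exact (hpos w2 hw2).ne' a3
    have build : ∀ k : R5, (∀ z ∈ R, v z ⬝ᵥ k = 0) → k ≠ 0 → ∀ r : ℝ, k ≠ r • g → ∀ u ∈ U \ R,
        v u ⬝ᵥ k = r * (v u ⬝ᵥ g) → (∀ w ∈ U \ R, r * (v w ⬝ᵥ g) ≤ v w ⬝ᵥ k) →
        Fct v U (insert u R) (k - r • g) := by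
      intro k k1 _ r kr u hu k4 k5
      have hu' := mem_sdiff.1 hu
      have eR : ∀ z ∈ R, v z ⬝ᵥ (k - r • g) = 0 := by
        intro z hz
        rw [dot_sub_smul, k1 z hz, hgR z hz]
        ring
      have eu : v u ⬝ᵥ (k - r • g) = 0 := by
        rw [dot_sub_smul, k4]
        ring
      refine ⟨insert_subset hu'.1 hR, cF u hu'.2, ?_, ?_⟩
      · intro z hz
        rw [mem_insert] at hz
        rcases hz with rfl | hz
        · exact eu
        · exact eR z hz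
      · intro w hw hn
        rw [mem_insert, not_or] at hn
        have h7 : 0 ≤ v w ⬝ᵥ (k - r • g) := by
          rw [dot_sub_smul]
          have := k5 w (mem_sdiff.2 ⟨hw, hn.2⟩)
          linarith
        rcases h7.lt_or_eq with h8 | h8
        · exact h8
        · exfalso
          have := key w hn.2 u hu'.2 hn.1 _ eR h8.symm eu
          exact kr (sub_eq_zero.1 this)
    have hh0 : h ≠ 0 := by
      have := nprop 0
      rwa [zero_smul] at this
    obtain ⟨r, u4, hu4, h4, h5⟩ := minr ⟨w1, hw1⟩ (fun w => v w ⬝ᵥ g) (fun w => v w ⬝ᵥ h) hpos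
    obtain ⟨s, u5, hu5, h6, h7⟩ := minr ⟨w1, hw1⟩ (fun w => v w ⬝ᵥ g) (fun w => v w ⬝ᵥ (-h)) hpos
    have F1 := build h h1 hh0 r (nprop r) u4 hu4 h4 h5
    have F2 := build (-h) (fun z hz => by rw [dotProduct_neg, h1 z hz, neg_zero])
      (neg_ne_zero.2 hh0) s (fun h0 => nprop (-s) (by rw [neg_smul, ← h0, neg_neg])) u5 hu5 h6 h7
    have hu4' := mem_sdiff.1 hu4
    have hu5' := mem_sdiff.1 hu5
    have hrs : 0 < -(r + s) := by
      -- at w1: r g ≤ h ≤ -s g, not both equalities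
      have b1 := h5 w1 hw1
      have b2 := h7 w1 hw1
      have b3 := h5 w2 hw2
      have b4 := h7 w2 hw2
      rw [dotProduct_neg] at b2 b4
      have p1 := hpos w1 hw1
      have p2 := hpos w2 hw2
      by_contra hcon
      rw [not_lt] at hcon
      rw [h2] at b1 b2
      rw [h3] at b3 b4
      -- r ≤ 0 and s ≤ 0 from w2
      have c1 : r ≤ 0 := by
        by_contra hh
        have := mul_pos (not_le.1 hh) p2
        linarith
      have c2 : s ≤ 0 := by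
        by_contra hh
        have := mul_pos (not_le.1 hh) p2
        linarith
      have c3 : r = 0 := by linarith
      have c4 : s = 0 := by linarith
      rw [c4, zero_mul] at b2
      linarith
    refine ⟨insert u4 R, insert u5 R, h - r • g, -h - s • g, 1 / (-(r + s)), 1 / (-(r + s)), F1, F2,
      subset_insert _ _, subset_insert _ _, ?_, by positivity, by positivity, ?_⟩
    · intro h8
      have h9 : u4 ∈ insert u5 R := h8 ▸ mem_insert_self u4 R
      rw [mem_insert] at h9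
      rcases h9 with h9 | h9
      · rw [h9] at h4
        have p5 := hpos u5 hu5
        rw [dotProduct_neg] at h6
        have : (-(r + s)) * (v u5 ⬝ᵥ g) = 0 := by
          have e1 : r * (v u5 ⬝ᵥ g) + s * (v u5 ⬝ᵥ g) = 0 := by rw [← h4, ← h6]; ring
          linarith
        have := mul_pos hrs p5
        linarith
      · exact hu4'.2 h9
    · have : (1 / (-(r + s))) • (h - r • g) + (1 / (-(r + s))) • (-h - s • g) =
          ((1 / (-(r + s))) * (-(r + s))) • g := by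
        rw [← smul_add, mul_smul]
        congr 1
        module
      rw [this, one_div, inv_mul_cancel₀ hrs.ne', one_smul]

/-- a point which is not beyond a functional supporting the ridge sees neither facet -/
theorem ridge_sees [DecidableEq V] {v : V → R5} (hv : GP v) {U : Finset V} (hU : 5 ≤ U.card)
    {R : Finset V} (hR : R ⊆ U) (hR3 : R.card = 3) {g : R5} (hg0 : g ≠ 0)
    (hgR : ∀ u ∈ R, v u ⬝ᵥ g = 0) (hgU : ∀ u ∈ U, 0 ≤ v u ⬝ᵥ g) :
    ∃ F F', Rdg v U R F F' ∧ ∀ z ∉ U, v z ⬝ᵥ g ≤ 0 → Sees v U z F ∨ Sees v U z F' := by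
  obtain ⟨F, F', hF, hF', a, b, h1, h2, h3, h4, h5, ha, hb, h6⟩ := ridge hv hU hR hR3 hg0 hgR hgU
  refine ⟨F, F', ⟨hR3, h3, h4, h5, ⟨hF, h1⟩, ⟨hF', h2⟩⟩, fun z hz hg => ?_⟩
  by_contra hcon
  rw [not_or] at hcon
  have hne : ∀ (G : Finset V) (hG : R5), Fct v U G hG → v z ⬝ᵥ hG ≠ 0 := by
    intro G hG hGf h0
    have h7 : hG = 0 := by
      refine zero_of hv (S := insert z G) ?_ ?_
      · rw [card_insert_of_notMem fun h => hz (hGf.1 h), hGf.2.1]
      · intro u hu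
        rw [mem_insert] at hu
        rcases hu with rfl | hu
        · exact h0
        · exact hGf.2.2.1 u hu
    have hne' : (U \ G).Nonempty := by
      rw [← card_pos, card_sdiff_of_subset hGf.1, hGf.2.1]
      omega
    obtain ⟨w, hw⟩ := hne'
    rw [mem_sdiff] at hw
    have := hGf.2.2.2 w hw.1 hw.2
    rw [h7, dotProduct_zero] at this
    exact lt_irrefl _ this
  have p1 : 0 < v z ⬝ᵥ hF := by
    rcases lt_trichotomy (v z ⬝ᵥ hF) 0 with h | h | h
    · exact absurd ⟨hF, h1, h⟩ hcon.1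
    · exact absurd h (hne F hF h1)
    · exact h
  have p2 : 0 < v z ⬝ᵥ hF' := by
    rcases lt_trichotomy (v z ⬝ᵥ hF') 0 with h | h | h
    · exact absurd ⟨hF', h2, h⟩ hcon.2
    · exact absurd h (hne F' hF' h2)
    · exact h
  have h7 : v z ⬝ᵥ g = a * (v z ⬝ᵥ hF) + b * (v z ⬝ᵥ hF') := by
    rw [h6, dotProduct_add, dotProduct_smul, dotProduct_smul, smul_eq_mul, smul_eq_mul]
  have q1 := mul_nonneg ha p1.le
  have q2 := mul_nonneg hb p2.le
  have z1 : a * (v z ⬝ᵥ hF) = 0 := by linarith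
  have z2 : b * (v z ⬝ᵥ hF') = 0 := by linarith
  have a0 : a = 0 := (mul_eq_zero.1 z1).resolve_right p1.ne'
  have b0 : b = 0 := (mul_eq_zero.1 z2).resolve_right p2.ne'
  apply hg0
  rw [h6, a0, b0, zero_smul, zero_smul, add_zero]

/-- three functionals at an edge, all positive: two points see facets at a common ridge -/
theorem pair_at [DecidableEq V] {v : V → R5} (hv : GP v) {U : Finset V} (hU : 5 ≤ U.card)
    {u1 u2 : V} (hu1 : u1 ∈ U) (hu2 : u2 ∈ U) (h12 : u1 ≠ u2) {lp lq lr : R5}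
    (hp1 : v u1 ⬝ᵥ lp = 0) (hp2 : v u2 ⬝ᵥ lp = 0) (hq1 : v u1 ⬝ᵥ lq = 0) (hq2 : v u2 ⬝ᵥ lq = 0)
    (hr1 : v u1 ⬝ᵥ lr = 0) (hr2 : v u2 ⬝ᵥ lr = 0)
    (hr : ∀ u ∈ (U.erase u1).erase u2, 0 < v u ⬝ᵥ lr) {p q : V} (hpU : p ∉ U) (hqU : q ∉ U)
    (pp : v p ⬝ᵥ lp = -1) (pq : v p ⬝ᵥ lq = 0) (pr : v p ⬝ᵥ lr = 0)
    (qp : v q ⬝ᵥ lp = 0) (qq : v q ⬝ᵥ lq = -1) (qr : v q ⬝ᵥ lr = 0) : PairAt v U u1 u2 p q := by
  have hne : ((U.erase u1).erase u2).Nonempty := by
    rw [← card_pos, card_erase_of_mem (mem_erase.2 ⟨h12.symm, hu2⟩), card_erase_of_mem hu1]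
    omega
  obtain ⟨s, u3, hu3, h3, h4⟩ := minr hne (fun w => v w ⬝ᵥ lr) (fun w => v w ⬝ᵥ (lp + lq)) hr
  rw [mem_erase, mem_erase] at hu3
  set g : R5 := (lp + lq) - s • lr with hg
  have eg : ∀ a : R5, a ⬝ᵥ g = a ⬝ᵥ lp + a ⬝ᵥ lq - s * (a ⬝ᵥ lr) := by
    intro a
    rw [hg, dot_sub_smul, dotProduct_add]
  have g1 : v u1 ⬝ᵥ g = 0 := by rw [eg, hp1, hq1, hr1]; ring
  have g2 : v u2 ⬝ᵥ g = 0 := by rw [eg, hp2, hq2, hr2]; ring
  have g3 : v u3 ⬝ᵥ g = 0 := by
    rw [hg, dot_sub_smul, h3]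
    ring
  have gp : v p ⬝ᵥ g = -1 := by rw [eg, pp, pq, pr]; ring
  have gq : v q ⬝ᵥ g = -1 := by rw [eg, qp, qq, qr]; ring
  have hg0 : g ≠ 0 := by
    intro h0
    rw [h0, dotProduct_zero] at gp
    linarith
  have hR3 : ({u1, u2, u3} : Finset V).card = 3 :=
    card_eq_three.2 ⟨u1, u2, u3, h12, fun h => hu3.2.1 h.symm, fun h => hu3.1 h.symm, rfl⟩
  have hR : ({u1, u2, u3} : Finset V) ⊆ U := by
    intro u hu
    rw [mem_insert, mem_insert, mem_singleton] at hu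
    rcases hu with rfl | rfl | rfl
    · exact hu1
    · exact hu2
    · exact hu3.2.2
  obtain ⟨F, F', h5, h6⟩ := ridge_sees hv hU hR hR3 hg0 (by
    intro u hu
    rw [mem_insert, mem_insert, mem_singleton] at hu
    rcases hu with rfl | rfl | rfl
    · exact g1
    · exact g2
    · exact g3) (by
    intro u hu
    by_cases e1 : u = u1
    · rw [e1, g1]
    by_cases e2 : u = u2
    · rw [e2, g2]
    have := h4 u (mem_erase.2 ⟨e2, mem_erase.2 ⟨e1, hu⟩⟩)
    rw [hg, dot_sub_smul]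
    linarith)
  refine ⟨_, F, F', h5, mem_insert_self _ _, mem_insert_of_mem (mem_insert_self _ _),
    h6 p hpU (by rw [gp]; norm_num), h6 q hqU (by rw [gq]; norm_num)⟩

/-- a third zero: case R -/
theorem third [DecidableEq V] {v : V → R5} (hv : GP v) {U : Finset V} (hU : 5 ≤ U.card)
    {u1 u2 : V} (hu1 : u1 ∈ U) (hu2 : u2 ∈ U) (h12 : u1 ≠ u2) {lx lc : R5}
    (hx1 : v u1 ⬝ᵥ lx = 0) (hx2 : v u2 ⬝ᵥ lx = 0) (hc1 : v u1 ⬝ᵥ lc = 0) (hc2 : v u2 ⬝ᵥ lc = 0)
    (hx : ∀ u ∈ (U.erase u1).erase u2, 0 < v u ⬝ᵥ lx) {w : V}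
    (hw : w ∈ (U.erase u1).erase u2) (hwc : v w ⬝ᵥ lc ≤ 0) {z0 : V} (h0 : v z0 ⬝ᵥ lc = -1)
    (h00 : v z0 ⬝ᵥ lx = 0) :
    ∃ R F F', Rdg v U R F F' ∧ ∀ z ∉ U, v z ⬝ᵥ lx ≤ 0 → v z ⬝ᵥ lc ≤ 0 →
      Sees v U z F ∨ Sees v U z F' := by
  obtain ⟨s, u3, hu3, h3, h4⟩ := minr ⟨w, hw⟩ (fun w => v w ⬝ᵥ lx) (fun w => v w ⬝ᵥ lc) hx
  rw [mem_erase, mem_erase] at hu3
  have hs : s ≤ 0 := by
    have h5 := h4 w hw
    have h6 := hx w hw
    by_contra hcon
    have := mul_pos (not_le.1 hcon) h6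
    linarith
  set g : R5 := lc - s • lx with hg
  have eg : ∀ a : R5, a ⬝ᵥ g = a ⬝ᵥ lc - s * (a ⬝ᵥ lx) := fun a => dot_sub_smul _ _ _ _
  have g1 : v u1 ⬝ᵥ g = 0 := by rw [eg, hc1, hx1]; ring
  have g2 : v u2 ⬝ᵥ g = 0 := by rw [eg, hc2, hx2]; ring
  have g3 : v u3 ⬝ᵥ g = 0 := by rw [eg, h3]; ring
  have hg0 : g ≠ 0 := by
    intro h
    have := eg (v z0)
    rw [h, dotProduct_zero, h0, h00] at this
    linarith
  have hR3 : ({u1, u2, u3} : Finset V).card = 3 :=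
    card_eq_three.2 ⟨u1, u2, u3, h12, fun h => hu3.2.1 h.symm, fun h => hu3.1 h.symm, rfl⟩
  have hR : ({u1, u2, u3} : Finset V) ⊆ U := by
    intro u hu
    rw [mem_insert, mem_insert, mem_singleton] at hu
    rcases hu with rfl | rfl | rfl
    · exact hu1
    · exact hu2
    · exact hu3.2.2
  obtain ⟨F, F', h5, h6⟩ := ridge_sees hv hU hR hR3 hg0 (by
    intro u hu
    rw [mem_insert, mem_insert, mem_singleton] at hu
    rcases hu with rfl | rfl | rfl
    · exact g1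
    · exact g2
    · exact g3) (by
    intro u hu
    by_cases e1 : u = u1
    · rw [e1, g1]
    by_cases e2 : u = u2
    · rw [e2, g2]
    have := h4 u (mem_erase.2 ⟨e2, mem_erase.2 ⟨e1, hu⟩⟩)
    rw [eg]
    linarith)
  refine ⟨_, F, F', h5, fun z hz k1 k2 => h6 z hz ?_⟩
  rw [eg]
  have := mul_nonneg_of_nonpos_of_nonpos hs k1
  linarith

/-- the first edge: a functional with exactly two zeros on `U`, negative at `x` only -/
theorem first [DecidableEq V] {v : V → R5} (hv : GP v) {U : Finset V} (hU : 5 ≤ U.card)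
    {x c y : V} (hx : x ∉ U) (hc : c ∉ U) (hy : y ∉ U) (hxc : x ≠ c) (hxy : x ≠ y) (hcy : c ≠ y)
    (ht : Circ.Tri v (U : Set V) x c y) :
    ∃ u1 ∈ U, ∃ u2 ∈ U, u1 ≠ u2 ∧ ∃ l : R5, v u1 ⬝ᵥ l = 0 ∧ v u2 ⬝ᵥ l = 0 ∧
      (∀ u ∈ (U.erase u1).erase u2, 0 < v u ⬝ᵥ l) ∧ v x ⬝ᵥ l = -1 ∧ v c ⬝ᵥ l = 0 ∧
      v y ⬝ᵥ l = 0 := by
  obtain ⟨f, fx, fc, fy, fp⟩ := ht
  have fpos : ∀ u ∈ U, 0 < v u ⬝ᵥ f := fun u hu => fp u (mem_coe.2 hu)
    (fun h => hx (h ▸ hu)) (fun h => hc (h ▸ hu)) (fun h => hy (h ▸ hu))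
  have hc2 : 1 < U.card := by omega
  obtain ⟨w1, hw1, w2, hw2, h12⟩ := one_lt_card.1 hc2
  have c5 : ∀ a ∈ U, ∀ b ∈ U, a ≠ b → ({a, b, x, c, y} : Finset V).card = 5 := by
    intro a ha b hb hab
    have n1 : c ∉ ({y} : Finset V) := by
      rw [mem_singleton]
      exact hcy
    have n2 : x ∉ ({c, y} : Finset V) := by
      rw [mem_insert, mem_singleton]
      rintro (h | h)
      · exact hxc h
      · exact hxy h
    have n3 : ∀ z ∈ U, z ∉ ({x, c, y} : Finset V) := by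
      intro z hz
      rw [mem_insert, mem_insert, mem_singleton]
      rintro (h | h | h)
      · exact hx (h ▸ hz)
      · exact hc (h ▸ hz)
      · exact hy (h ▸ hz)
    have n4 : a ∉ ({b, x, c, y} : Finset V) := by
      rw [mem_insert]
      rintro (h | h)
      · exact hab h
      · exact n3 a ha h
    rw [card_insert_of_notMem n4, card_insert_of_notMem (n3 b hb), card_insert_of_notMem n2,
      card_insert_of_notMem n1, card_singleton]
  have zero5 : ∀ a ∈ U, ∀ b ∈ U, a ≠ b → ∀ h : R5, v a ⬝ᵥ h = 0 → v b ⬝ᵥ h = 0 →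
      v x ⬝ᵥ h = 0 → v c ⬝ᵥ h = 0 → v y ⬝ᵥ h = 0 → h = 0 := by
    intro a ha b hb hab h h1 h2 h3 h4 h5
    refine zero_of hv (S := {a, b, x, c, y}) (c5 a ha b hb hab).ge ?_
    intro u hu
    simp only [mem_insert, mem_singleton] at hu
    rcases hu with rfl | rfl | rfl | rfl | rfl
    · exact h1
    · exact h2
    · exact h3
    · exact h4
    · exact h5
  have ex5 : ∀ a ∈ U, ∀ b ∈ U, a ≠ b → ∀ t : V → ℝ, ∃ h : R5, v a ⬝ᵥ h = t a ∧
      v b ⬝ᵥ h = t b ∧ v x ⬝ᵥ h = t x ∧ v c ⬝ᵥ h = t c ∧ v y ⬝ᵥ h = t y := by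
    intro a ha b hb hab t
    obtain ⟨h, hh⟩ := ex_fun hv (c5 a ha b hb hab) t
    refine ⟨h, hh a ?_, hh b ?_, hh x ?_, hh c ?_, hh y ?_⟩ <;> simp
  -- first zero
  obtain ⟨h, ha1, ha2, hax, hac, hay⟩ := ex5 w1 hw1 w2 hw2 h12 (fun z => if z = w1 then 1 else 0)
  rw [if_pos rfl] at ha1
  rw [if_neg h12.symm] at ha2
  rw [if_neg (show x ≠ w1 from fun h => hx (h ▸ hw1))] at hax
  rw [if_neg (show c ≠ w1 from fun h => hc (h ▸ hw1))] at hac
  rw [if_neg (show y ≠ w1 from fun h => hy (h ▸ hw1))] at hay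
  obtain ⟨r, u1, hu1, h3, h4⟩ := minr ⟨w1, hw1⟩ (fun w => v w ⬝ᵥ f) (fun w => v w ⬝ᵥ h) fpos
  set g1 : R5 := h - r • f with hg1
  have e1 : ∀ a : R5, a ⬝ᵥ g1 = a ⬝ᵥ h - r * (a ⬝ᵥ f) := fun a => dot_sub_smul _ _ _ _
  have g1x : v x ⬝ᵥ g1 = 0 := by rw [e1, hax, fx]; ring
  have g1c : v c ⬝ᵥ g1 = 0 := by rw [e1, hac, fc]; ring
  have g1y : v y ⬝ᵥ g1 = 0 := by rw [e1, hay, fy]; ring
  have g1u : v u1 ⬝ᵥ g1 = 0 := by rw [e1, h3]; ring
  have g1n : g1 ≠ 0 := by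
    intro h0
    have b2 := e1 (v w2)
    rw [h0, dotProduct_zero, ha2] at b2
    have b1 := e1 (v w1)
    rw [h0, dotProduct_zero, ha1] at b1
    have : r * (v w2 ⬝ᵥ f) = 0 := by linarith
    rcases mul_eq_zero.1 this with h5 | h5
    · rw [h5] at b1
      linarith
    · exact (fpos w2 hw2).ne' h5
  have g1p : ∀ u ∈ U.erase u1, 0 < v u ⬝ᵥ g1 := by
    intro u hu
    rw [mem_erase] at hu
    have h5 : 0 ≤ v u ⬝ᵥ g1 := by
      rw [e1]
      have := h4 u hu.2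
      linarith
    rcases h5.lt_or_eq with h6 | h6
    · exact h6
    · exact absurd (zero5 u hu.2 u1 hu1 hu.1 g1 h6.symm g1u g1x g1c g1y) g1n
  have hne1 : (U.erase u1).Nonempty := by
    rw [← card_pos, card_erase_of_mem hu1]
    omega
  obtain ⟨w, hw⟩ := hne1
  have hw' := mem_erase.1 hw
  -- second zero
  obtain ⟨k, kw, k1, kx, kc, ky⟩ := ex5 w hw'.2 u1 hu1 hw'.1 (fun z => if z = x then -1 else 0)
  rw [if_pos rfl] at kx
  rw [if_neg (show u1 ≠ x from fun h => hx (h ▸ hu1))] at k1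
  rw [if_neg hxc.symm] at kc
  rw [if_neg hxy.symm] at ky
  obtain ⟨s, u2, hu2, h5, h6⟩ := minr ⟨w, hw⟩ (fun w => v w ⬝ᵥ g1) (fun w => v w ⬝ᵥ k) g1p
  have hu2' := mem_erase.1 hu2
  set l : R5 := k - s • g1 with hl
  have e2 : ∀ a : R5, a ⬝ᵥ l = a ⬝ᵥ k - s * (a ⬝ᵥ g1) := fun a => dot_sub_smul _ _ _ _
  have lx : v x ⬝ᵥ l = -1 := by rw [e2, kx, g1x]; ring
  have lc : v c ⬝ᵥ l = 0 := by rw [e2, kc, g1c]; ring
  have ly : v y ⬝ᵥ l = 0 := by rw [e2, ky, g1y]; ring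
  have l1 : v u1 ⬝ᵥ l = 0 := by rw [e2, k1, g1u]; ring
  have l2 : v u2 ⬝ᵥ l = 0 := by rw [e2, h5]; ring
  refine ⟨u1, hu1, u2, hu2'.2, fun h => hu2'.1 h.symm, l, l1, l2, ?_, lx, lc, ly⟩
  intro u hu
  rw [mem_erase, mem_erase] at hu
  have h7 : 0 ≤ v u ⬝ᵥ l := by
    rw [e2]
    have := h6 u (mem_erase.2 hu.2)
    linarith
  rcases h7.lt_or_eq with h8 | h8
  · exact h8
  · exfalso
    have h9 : l = 0 := by
      refine zero_of hv (S := {u, u1, u2, c, y}) ?_ ?_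
      · have n1 : c ∉ ({y} : Finset V) := by
          rw [mem_singleton]
          exact hcy
        have n3 : ∀ z ∈ U, z ∉ ({c, y} : Finset V) := by
          intro z hz
          rw [mem_insert, mem_singleton]
          rintro (h | h)
          · exact hc (h ▸ hz)
          · exact hy (h ▸ hz)
        have n4 : u1 ∉ ({u2, c, y} : Finset V) := by
          rw [mem_insert]
          rintro (h | h)
          · exact hu2'.1 h.symm
          · exact n3 u1 hu1 h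
        have n5 : u ∉ ({u1, u2, c, y} : Finset V) := by
          rw [mem_insert, mem_insert]
          rintro (h | h | h)
          · exact hu.2.1 h
          · exact hu.1 h
          · exact n3 u hu.2.2 h
        rw [card_insert_of_notMem n5, card_insert_of_notMem n4, card_insert_of_notMem
          (n3 u2 hu2'.2), card_insert_of_notMem n1, card_singleton]
      · intro z hz
        simp only [mem_insert, mem_singleton] at hz
        rcases hz with rfl | rfl | rfl | rfl | rfl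
        · exact h8.symm
        · exact l1
        · exact l2
        · exact lc
        · exact ly
    rw [h9, dotProduct_zero] at lx
    linarith

end PSLoc

open PSLoc in
/-- **locality** -/
theorem loc [DecidableEq V] {v : V → R5} (hv : GP v) {U : Finset V} (hU : 5 ≤ U.card)
    {x c y : V} (hx : x ∉ U) (hc : c ∉ U) (hy : y ∉ U) (hxc : x ≠ c) (hxy : x ≠ y) (hcy : c ≠ y)
    (ht : Circ.Tri v (U : Set V) x c y) : LocR v U x c y ∨ LocH v U x c y := by
  obtain ⟨u1, hu1, u2, hu2, h12, lx, x1, x2, xp, xx, xc, xy⟩ :=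
    first hv hU hx hc hy hxc hxy hcy ht
  have c5 : ({u1, u2, x, c, y} : Finset V).card = 5 := by
    have n1 : c ∉ ({y} : Finset V) := by
      rw [mem_singleton]
      exact hcy
    have n2 : x ∉ ({c, y} : Finset V) := by
      rw [mem_insert, mem_singleton]
      rintro (h | h)
      · exact hxc h
      · exact hxy h
    have n3 : ∀ z ∈ U, z ∉ ({x, c, y} : Finset V) := by
      intro z hz
      rw [mem_insert, mem_insert, mem_singleton]
      rintro (h | h | h)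
      · exact hx (h ▸ hz)
      · exact hc (h ▸ hz)
      · exact hy (h ▸ hz)
    have n4 : u1 ∉ ({u2, x, c, y} : Finset V) := by
      rw [mem_insert]
      rintro (h | h)
      · exact h12 h
      · exact n3 u1 hu1 h
    rw [card_insert_of_notMem n4, card_insert_of_notMem (n3 u2 hu2), card_insert_of_notMem n2,
      card_insert_of_notMem n1, card_singleton]
  have ex5 : ∀ t : V → ℝ, ∃ h : R5, v u1 ⬝ᵥ h = t u1 ∧ v u2 ⬝ᵥ h = t u2 ∧ v x ⬝ᵥ h = t x ∧
      v c ⬝ᵥ h = t c ∧ v y ⬝ᵥ h = t y := by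
    intro t
    obtain ⟨h, hh⟩ := ex_fun hv c5 t
    refine ⟨h, hh _ ?_, hh _ ?_, hh _ ?_, hh _ ?_, hh _ ?_⟩ <;> simp
  have nx1 : u1 ≠ x := fun h => hx (h ▸ hu1)
  have nx2 : u2 ≠ x := fun h => hx (h ▸ hu2)
  have nc1 : u1 ≠ c := fun h => hc (h ▸ hu1)
  have nc2 : u2 ≠ c := fun h => hc (h ▸ hu2)
  have ny1 : u1 ≠ y := fun h => hy (h ▸ hu1)
  have ny2 : u2 ≠ y := fun h => hy (h ▸ hu2)
  obtain ⟨lc, c1, c2, cx, cc, cy⟩ := ex5 (fun z => if z = c then -1 else 0)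
  obtain ⟨ly, y1, y2, yx, yc, yy⟩ := ex5 (fun z => if z = y then -1 else 0)
  rw [if_neg nc1] at c1
  rw [if_neg nc2] at c2
  rw [if_neg hxc] at cx
  rw [if_pos rfl] at cc
  rw [if_neg hcy.symm] at cy
  rw [if_neg ny1] at y1
  rw [if_neg ny2] at y2
  rw [if_neg hxy] at yx
  rw [if_neg hcy] at yc
  rw [if_pos rfl] at yy
  by_cases hcp : ∀ u ∈ (U.erase u1).erase u2, 0 < v u ⬝ᵥ lc
  · by_cases hyp : ∀ u ∈ (U.erase u1).erase u2, 0 < v u ⬝ᵥ ly
    · refine Or.inr ⟨u1, u2, hu1, hu2, h12, ⟨lx, x1, x2, fun s hs h1 h2 => xp s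
        (mem_erase.2 ⟨h2, mem_erase.2 ⟨h1, mem_coe.1 hs⟩⟩)⟩, ?_,
        pair_at hv hU hu1 hu2 h12 x1 x2 c1 c2 y1 y2 hyp hx hc xx cx yx xc cc yc,
        pair_at hv hU hu1 hu2 h12 x1 x2 y1 y2 c1 c2 hcp hx hy xx yx cx xy yy cy,
        pair_at hv hU hu1 hu2 h12 c1 c2 y1 y2 x1 x2 xp hc hy cc yc xc cy yy xy⟩
      intro F h hF hF1 hF2
      by_contra hcon
      rw [not_or, not_or] at hcon
      have nn : ∀ z, ¬ Sees v U z F → 0 ≤ v z ⬝ᵥ h := fun z hz =>
        not_lt.1 fun hlt => hz ⟨h, hF, hlt⟩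
      have px := nn x hcon.1
      have pc := nn c hcon.2.1
      have py := nn y hcon.2.2
      have hzero : h + (v x ⬝ᵥ h) • lx + (v c ⬝ᵥ h) • lc + (v y ⬝ᵥ h) • ly = 0 := by
        refine zero_of hv c5.ge ?_
        intro u hu
        rw [dotProduct_add, dotProduct_add, dotProduct_add, dotProduct_smul, dotProduct_smul,
          dotProduct_smul, smul_eq_mul, smul_eq_mul, smul_eq_mul]
        simp only [mem_insert, mem_singleton] at hu
        rcases hu with rfl | rfl | rfl | rfl | rfl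
        · rw [hF.2.2.1 _ hF1, x1, c1, y1]
          ring
        · rw [hF.2.2.1 _ hF2, x2, c2, y2]
          ring
        · rw [xx, cx, yx]
          ring
        · rw [xc, cc, yc]
          ring
        · rw [xy, cy, yy]
          ring
      have hne : (U \ F).Nonempty := by
        rw [← card_pos, card_sdiff_of_subset hF.1, hF.2.1]
        omega
      obtain ⟨u, hu⟩ := hne
      rw [mem_sdiff] at hu
      have hu' : u ∈ (U.erase u1).erase u2 := mem_erase.2 ⟨fun h => hu.2 (h ▸ hF2),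
        mem_erase.2 ⟨fun h => hu.2 (h ▸ hF1), hu.1⟩⟩
      have q0 := hF.2.2.2 u hu.1 hu.2
      have q1 := mul_nonneg px (xp u hu').le
      have q2 := mul_nonneg pc (hcp u hu').le
      have q3 := mul_nonneg py (hyp u hu').le
      have q4 : v u ⬝ᵥ (h + (v x ⬝ᵥ h) • lx + (v c ⬝ᵥ h) • lc + (v y ⬝ᵥ h) • ly) = 0 := by
        rw [hzero, dotProduct_zero]
      rw [dotProduct_add, dotProduct_add, dotProduct_add, dotProduct_smul, dotProduct_smul,
        dotProduct_smul, smul_eq_mul, smul_eq_mul, smul_eq_mul] at q4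
      linarith
    · push Not at hyp
      obtain ⟨w, hw, hwy⟩ := hyp
      obtain ⟨R, F, F', h3, h4⟩ := third hv hU hu1 hu2 h12 x1 x2 y1 y2 xp hw hwy yy xy
      exact Or.inl ⟨R, F, F', h3, h4 x hx (by rw [xx]; norm_num) (by rw [yx]),
        h4 c hc (by rw [xc]) (by rw [yc]), h4 y hy (by rw [xy]) (by rw [yy]; norm_num)⟩
  · push Not at hcp
    obtain ⟨w, hw, hwc⟩ := hcp
    obtain ⟨R, F, F', h3, h4⟩ := third hv hU hu1 hu2 h12 x1 x2 c1 c2 xp hw hwc cc xc
    exact Or.inl ⟨R, F, F', h3, h4 x hx (by rw [xx]; norm_num) (by rw [cx]),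
      h4 c hc (by rw [xc]) (by rw [cc]; norm_num), h4 y hy (by rw [xy]) (by rw [cy])⟩

end Pool.Agent.F32
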