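import Mathlib

/-!
# F32: Ramsey for finite families of colourings of strictly increasing maps (helper31)

`Ram.two` is the two-colour theorem for `r`-subsets (same proof as `ramsey_exists` in
`Results/MP_654b32_co/SuperpolyRamsey.lean`). `Ram.maps` is the form used for the array.
-/

set_option autoImplicit false

namespace Pool.Agent.F32

open Finset

/-- Ramsey for `r`-subsets, two colours. -/
theorem Ram.two (r : ℕ) : ∀ s n : ℕ, ∃ N : ℕ, ∀ {α : Type} [DecidableEq α] (A : Finset α)
    (c : Finset α → Prop), N ≤ A.card →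
    (∃ S ⊆ A, S.card = s ∧ ∀ T ⊆ S, T.card = r → c T) ∨
    (∃ S ⊆ A, S.card = n ∧ ∀ T ⊆ S, T.card = r → ¬ c T) := by
  induction r with
  | zero =>
    intro s n
    refine ⟨max s n, ?_⟩
    intro α _ A c hA
    by_cases h : c ∅
    · obtain ⟨S, hS, hc⟩ := Finset.exists_subset_card_eq (le_trans (le_max_left s n) hA)
      refine Or.inl ⟨S, hS, hc, ?_⟩
      intro T _ hT
      rw [Finset.card_eq_zero] at hT
      rw [hT]; exact h
    · obtain ⟨S, hS, hc⟩ := Finset.exists_subset_card_eq (le_trans (le_max_right s n) hA)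
      refine Or.inr ⟨S, hS, hc, ?_⟩
      intro T _ hT
      rw [Finset.card_eq_zero] at hT
      rw [hT]; exact h
  | succ r ih =>
    intro s
    induction s with
    | zero =>
      intro n
      refine ⟨0, ?_⟩
      intro α _ A c _
      refine Or.inl ⟨∅, Finset.empty_subset _, rfl, ?_⟩
      intro T hT hc
      rw [Finset.subset_empty] at hT
      subst hT
      simp at hc
    | succ s ihs =>
      intro n
      induction n with
      | zero =>
        refine ⟨0, ?_⟩
        intro α _ A c _
        refine Or.inr ⟨∅, Finset.empty_subset _, rfl, ?_⟩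
        intro T hT hc
        rw [Finset.subset_empty] at hT
        subst hT
        simp at hc
      | succ n ihn =>
        obtain ⟨N1, h1⟩ := ihs (n + 1)
        obtain ⟨N2, h2⟩ := ihn
        obtain ⟨M, hM⟩ := ih N1 N2
        refine ⟨M + 1, ?_⟩
        intro α _ A c hA
        have hne : A.Nonempty := by
          rw [← Finset.card_pos]; omega
        obtain ⟨x, hx⟩ := hne
        have hcard : M ≤ (A.erase x).card := by
          rw [Finset.card_erase_of_mem hx]; omega
        -- helper: extension of a monochromatic set by x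
        have ext : ∀ (P : Finset α → Prop) (S' S'' : Finset α), S' ⊆ A.erase x → S'' ⊆ S' →
            (∀ T ⊆ S', T.card = r → P (insert x T)) →
            (∀ T ⊆ S'', T.card = r + 1 → P T) →
            ∀ T ⊆ insert x S'', T.card = r + 1 → P T := by
          intro P S' S'' hS' hS'' hP1 hP2 T hT hTc
          by_cases hxT : x ∈ T
          · have : T = insert x (T.erase x) := (Finset.insert_erase hxT).symm
            rw [this]
            apply hP1
            · intro y hy
              rw [Finset.mem_erase] at hy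
              have := hT hy.2
              rw [Finset.mem_insert] at this
              exact hS'' (this.resolve_left hy.1)
            · rw [Finset.card_erase_of_mem hxT]; omega
          · apply hP2 T _ hTc
            intro y hy
            have := hT hy
            rw [Finset.mem_insert] at this
            exact this.resolve_left (fun h => hxT (h ▸ hy))
        have hxn : ∀ S'' : Finset α, S'' ⊆ A.erase x → x ∉ S'' := by
          intro S'' h hxS
          exact (Finset.mem_erase.mp (h hxS)).1 rfl
        rcases hM (A.erase x) (fun T => c (insert x T)) hcard with ⟨S', hS'A, hS'c, hS'⟩ |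
          ⟨S', hS'A, hS'c, hS'⟩
        · rcases h1 S' c (le_of_eq hS'c.symm) with ⟨S'', hS''S, hS''c, hS''⟩ |
            ⟨S'', hS''S, hS''c, hS''⟩
          · refine Or.inl ⟨insert x S'', ?_, ?_, ?_⟩
            · intro y hy
              rw [Finset.mem_insert] at hy
              rcases hy with rfl | hy
              · exact hx
              · exact Finset.mem_of_mem_erase (hS'A (hS''S hy))
            · rw [Finset.card_insert_of_notMem (hxn S'' (hS''S.trans hS'A)), hS''c]
            · exact ext c S' S'' hS'A hS''S hS' hS''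
          · exact Or.inr ⟨S'', (hS''S.trans hS'A).trans (Finset.erase_subset _ _), hS''c, hS''⟩
        · rcases h2 S' c (le_of_eq hS'c.symm) with ⟨S'', hS''S, hS''c, hS''⟩ |
            ⟨S'', hS''S, hS''c, hS''⟩
          · exact Or.inl ⟨S'', (hS''S.trans hS'A).trans (Finset.erase_subset _ _), hS''c, hS''⟩
          · refine Or.inr ⟨insert x S'', ?_, ?_, ?_⟩
            · intro y hy
              rw [Finset.mem_insert] at hy
              rcases hy with rfl | hy
              · exact hx
              · exact Finset.mem_of_mem_erase (hS'A (hS''S hy))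
            · rw [Finset.card_insert_of_notMem (hxn S'' (hS''S.trans hS'A)), hS''c]
            · exact ext (fun T => ¬ c T) S' S'' hS'A hS''S hS' hS''

/-- a finite family of properties `P j` of `r j`-subsets has a common homogeneous set -/
theorem Ram.fam (n : ℕ) : ∀ (b : ℕ) (r : Fin b → ℕ), ∃ N : ℕ, ∀ {α : Type} [DecidableEq α]
    (A : Finset α) (P : Fin b → Finset α → Prop), N ≤ A.card → ∃ S ⊆ A, S.card = n ∧
      ∀ j, (∀ T ⊆ S, T.card = r j → P j T) ∨ (∀ T ⊆ S, T.card = r j → ¬ P j T) := by
  intro b
  induction b with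
  | zero =>
    intro r
    refine ⟨n, fun A P hA => ?_⟩
    obtain ⟨S, hS, hc⟩ := Finset.exists_subset_card_eq hA
    exact ⟨S, hS, hc, fun j => j.elim0⟩
  | succ b ih =>
    intro r
    obtain ⟨N1, h1⟩ := ih (fun j => r j.succ)
    obtain ⟨N, hN⟩ := Ram.two (r 0) N1 N1
    refine ⟨N, fun A P hA => ?_⟩
    have key : ∃ S' ⊆ A, S'.card = N1 ∧
        ((∀ T ⊆ S', T.card = r 0 → P 0 T) ∨ (∀ T ⊆ S', T.card = r 0 → ¬ P 0 T)) := by
      rcases hN A (P 0) hA with ⟨S', hS, hc, hh⟩ | ⟨S', hS, hc, hh⟩
      · exact ⟨S', hS, hc, Or.inl hh⟩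
      · exact ⟨S', hS, hc, Or.inr hh⟩
    obtain ⟨S', hS', hc', hh'⟩ := key
    obtain ⟨S, hS, hc, hh⟩ := h1 S' (fun j => P j.succ) hc'.ge
    refine ⟨S, hS.trans hS', hc, fun j => ?_⟩
    refine Fin.cases ?_ (fun j => ?_) j
    · rcases hh' with h | h
      · exact Or.inl fun T hT => h T (hT.trans hS)
      · exact Or.inr fun T hT => h T (hT.trans hS)
    · exact hh j

/-- **Ramsey for strictly increasing maps**: for finitely many properties `Q j` of increasing maps
`Fin (r j) → Fin L` there is an increasing `σ : Fin n → Fin L` such that every `Q j` is constant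
on the maps which factor through `σ`. -/
theorem Ram.maps (n : ℕ) {ι : Type} [Finite ι] (r : ι → ℕ) : ∃ L0 : ℕ, ∀ L ≥ L0,
    ∀ Q : ∀ j : ι, (Fin (r j) ↪o Fin L) → Prop,
      ∃ σ : Fin n ↪o Fin L, ∀ (j : ι) (t t' : Fin (r j) ↪o Fin n),
        Q j (t.trans σ) ↔ Q j (t'.trans σ) := by
  obtain ⟨b, ⟨e⟩⟩ := Finite.exists_equiv_fin ι
  obtain ⟨N, hN⟩ := Ram.fam n b (fun j => r (e.symm j))
  refine ⟨N, fun L hL Q => ?_⟩
  obtain ⟨S, -, hc, hh⟩ := hN (univ : Finset (Fin L))
    (fun j T => ∃ h : T.card = r (e.symm j), Q (e.symm j) (T.orderEmbOfFin h)) (by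
      rw [card_univ, Fintype.card_fin]
      exact hL)
  refine ⟨S.orderEmbOfFin hc, fun j t t' => ?_⟩
  have key : ∀ u : Fin (r j) ↪o Fin n, ∃ T ⊆ S, ∃ h : T.card = r j,
      T.orderEmbOfFin h = u.trans (S.orderEmbOfFin hc) := by
    intro u
    set g : Fin (r j) ↪o Fin L := u.trans (S.orderEmbOfFin hc) with hg
    have h1 : (univ.map g.toEmbedding).card = r j := by
      rw [card_map, card_univ, Fintype.card_fin]
    refine ⟨univ.map g.toEmbedding, ?_, h1, ?_⟩
    · intro x hx
      obtain ⟨y, -, rfl⟩ := mem_map.1 hx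
      exact orderEmbOfFin_mem S hc (u y)
    · symm
      refine orderEmbOfFin_unique' h1 fun x => ?_
      exact mem_map.2 ⟨x, mem_univ _, rfl⟩
  obtain ⟨T, hT, h1, h2⟩ := key t
  obtain ⟨T', hT', h1', h2'⟩ := key t'
  have h3 := hh (e j)
  have hj : e.symm (e j) = j := e.symm_apply_apply j
  have h4 : ∀ (j' : ι) (_ : j' = j) (T : Finset (Fin L)) (h : T.card = r j)
      (h' : T.card = r j'), Q j' (T.orderEmbOfFin h') ↔ Q j (T.orderEmbOfFin h) := by
    rintro j' rfl T h h'
    rfl
  rw [← h2, ← h2']
  rcases h3 with h3 | h3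
  · have g1 := h3 T hT (by rw [hj]; exact h1)
    have g2 := h3 T' hT' (by rw [hj]; exact h1')
    obtain ⟨k1, k2⟩ := g1
    obtain ⟨k1', k2'⟩ := g2
    exact ⟨fun _ => (h4 _ hj T' h1' k1').1 k2', fun _ => (h4 _ hj T h1 k1).1 k2⟩
  · have g1 := h3 T hT (by rw [hj]; exact h1)
    have g2 := h3 T' hT' (by rw [hj]; exact h1')
    refine ⟨fun h => absurd ?_ g1, fun h => absurd ?_ g2⟩
    · exact ⟨by rw [hj]; exact h1, (h4 _ hj T h1 (by rw [hj]; exact h1)).2 h⟩
    · exact ⟨by rw [hj]; exact h1', (h4 _ hj T' h1' (by rw [hj]; exact h1')).2 h⟩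

end Pool.Agent.F32
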