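import Pool.Agent.F32.Data

/-!
# F32: the run of the certificate checker (helper46)
-/

set_option autoImplicit false

namespace Pool.Agent.F32.Sem

theorem cert_ok : cert (nat_lit 512) (nat_lit 13407807929942597099574024998205846127479365820592393377723561443721764030073546976801874298166903427690031858186486050853753882811946569946433649006084096) (nat_lit 13407807929942597099574024998205846127479365820592393377723561443721764030073546976801874298166903427690031858186486050853753882811946569946433649006084097) keyL relL lemL = true := by
  decide +kernel

end Pool.Agent.F32.Sem
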