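import Mathlib

/-!
# F32: kernel RUP checker (helper46)

Clauses and assignments are bit masks. Bit `i < K` is the literal `x_i`, bit `i + K` the
literal `not x_i`. The functions are written with recursors and raw `Nat` operations, because they are
evaluated by the kernel.
-/

set_option autoImplicit false

namespace Pool.Agent.F32.Rup

noncomputable section

/-- the clause with mask `c` is true -/
def Sat (τ : ℕ → Bool) (c : ℕ) : Prop := ∃ i, Nat.testBit c i = true ∧ τ i = true

/-- all literals of the mask `a` are false -/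
def Fls (τ : ℕ → Bool) (a : ℕ) : Prop := ∀ i, Nat.testBit a i = true → τ i = false

/-- `τ` is a valuation -/
structure Val (K : ℕ) (τ : ℕ → Bool) : Prop where
  lo : ∀ i, i < K → τ i = true → τ (i + K) = false
  hi : ∀ i, K ≤ i → τ i = true → τ (i - K) = false
  tot : τ 0 = true ∨ τ K = true

/-- `b && c` -/
def aa (b c : Bool) : Bool := Bool.rec false c b

/-- evaluate `x`, then continue with `k` -/
def frc {β : Type} (x : ℕ) (k : ℕ → β) : β :=
  Nat.rec (motive := fun _ => β) (k (nat_lit 0)) (fun n _ => k (Nat.succ n)) x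

/-- the literals of `c` which are not in `a` -/
def rem (c a : ℕ) : ℕ := Nat.xor c (Nat.land c a)

/-- the mask of the negation of the single literal with mask `r`; `Kp = 2 ^ K` -/
def ngm (K Kp r : ℕ) : ℕ := Bool.rec (Nat.shiftRight r K) (Nat.shiftLeft r K) (Nat.ble (Nat.succ r) Kp)

/-- binary tree of clauses, keys `1, 2, 3, ..` -/
inductive Tr : Type
  | e : Tr
  | n : Tr → ℕ → Tr → Tr

/-- the clause with key `i` (`d` if there is none) -/
def get (d : ℕ) (t : Tr) : ℕ → ℕ :=
  Tr.rec (motive := fun _ => ℕ → ℕ) (fun _ => d)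
    (fun _ c _ l r i => Bool.rec
      (Bool.rec (r (Nat.shiftRight i (nat_lit 1))) (l (Nat.shiftRight i (nat_lit 1)))
        (Nat.beq (Nat.land i (nat_lit 1)) (nat_lit 0)))
      c (Nat.beq i (nat_lit 1))) t

/-- insertion of `c` with key `i` -/
def ins (c : ℕ) (t : Tr) : ℕ → Tr :=
  Tr.rec (motive := fun _ => ℕ → Tr) (fun _ => Tr.n Tr.e c Tr.e)
    (fun l x r il ir i => Bool.rec
      (Tr.n l x (ir (Nat.shiftRight i (nat_lit 1))))
      (Tr.n (il (Nat.shiftRight i (nat_lit 1))) x r)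
      (Nat.beq (Nat.land i (nat_lit 1)) (nat_lit 0))) t

/-- insertion with continuation -/
def insK (c : ℕ) (t : Tr) : ℕ → (Tr → Bool) → Bool :=
  Tr.rec (motive := fun _ => ℕ → (Tr → Bool) → Bool) (fun _ k => k (Tr.n Tr.e c Tr.e))
    (fun l x r il ir i k => Bool.rec
      (ir (Nat.shiftRight i (nat_lit 1)) fun r' => k (Tr.n l x r'))
      (il (Nat.shiftRight i (nat_lit 1)) fun l' => k (Tr.n l' x r))
      (Nat.beq (Nat.land i (nat_lit 1)) (nat_lit 0))) t

/-- unit propagation along the hints -/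
def up (K Kp d : ℕ) (t : Tr) (hs : List ℕ) : ℕ → Bool :=
  List.rec (motive := fun _ => ℕ → Bool) (fun _ => false)
    (fun h _ ih a => frc (rem (get d t h) a) fun r =>
      Bool.rec
        (Bool.rec false (frc (Nat.lor a (ngm K Kp r)) ih)
          (Nat.beq (Nat.land r (Nat.sub r (nat_lit 1))) (nat_lit 0)))
        true (Nat.beq r (nat_lit 0))) hs

/-- the mask of a list of literals -/
def mk (ls : List ℕ) : ℕ :=
  List.rec (motive := fun _ => ℕ) (nat_lit 0)
    (fun l _ ih => Nat.lor (Nat.shiftLeft (nat_lit 1) l) ih) ls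

/-- check a list of lemmas -/
def chk (K Kp d : ℕ) (L : List (List ℕ × List ℕ)) : Tr → ℕ → Bool :=
  List.rec (motive := fun _ => Tr → ℕ → Bool) (fun _ _ => false)
    (fun p _ ih t k => frc (mk (Prod.fst p)) fun c =>
      aa (up K Kp d t (Prod.snd p) c)
        (Bool.rec (insK c t k fun t' => ih t' (Nat.succ k)) true (Nat.beq c (nat_lit 0)))) L

/-! ## Soundness -/

theorem frc_eq {β : Type} (x : ℕ) (k : ℕ → β) : frc x k = k x := by
  cases x <;> rfl

theorem aa_eq (b c : Bool) : aa b c = (b && c) := by cases b <;> rfl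

/-- all clauses of the tree are true -/
def Ok (τ : ℕ → Bool) : Tr → Prop
  | Tr.e => True
  | Tr.n l c r => Ok τ l ∧ Sat τ c ∧ Ok τ r

theorem get_n (d : ℕ) (l r : Tr) (c i : ℕ) : get d (Tr.n l c r) i =
    Bool.rec
      (Bool.rec (get d r (Nat.shiftRight i (nat_lit 1))) (get d l (Nat.shiftRight i (nat_lit 1)))
        (Nat.beq (Nat.land i (nat_lit 1)) (nat_lit 0)))
      c (Nat.beq i (nat_lit 1)) := rfl

theorem get_ok {τ : ℕ → Bool} {d : ℕ} (hd : Sat τ d) :
    ∀ (t : Tr), Ok τ t → ∀ i, Sat τ (get d t i)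
  | Tr.e, _, _ => hd
  | Tr.n l c r, h, i => by
    rw [get_n]
    obtain ⟨h1, h2, h3⟩ := h
    cases Nat.beq i (nat_lit 1)
    · cases Nat.beq (Nat.land i (nat_lit 1)) (nat_lit 0)
      · exact get_ok hd r h3 _
      · exact get_ok hd l h1 _
    · exact h2

theorem ins_n (c : ℕ) (l r : Tr) (x i : ℕ) : ins c (Tr.n l x r) i =
    Bool.rec
      (Tr.n l x (ins c r (Nat.shiftRight i (nat_lit 1))))
      (Tr.n (ins c l (Nat.shiftRight i (nat_lit 1))) x r)
      (Nat.beq (Nat.land i (nat_lit 1)) (nat_lit 0)) := rfl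

theorem ins_ok {τ : ℕ → Bool} {c : ℕ} (hc : Sat τ c) :
    ∀ (t : Tr), Ok τ t → ∀ i, Ok τ (ins c t i)
  | Tr.e, _, _ => ⟨trivial, hc, trivial⟩
  | Tr.n l x r, h, i => by
    rw [ins_n]
    obtain ⟨h1, h2, h3⟩ := h
    cases Nat.beq (Nat.land i (nat_lit 1)) (nat_lit 0)
    · exact ⟨h1, h2, ins_ok hc r h3 _⟩
    · exact ⟨ins_ok hc l h1 _, h2, h3⟩

theorem insK_n (c : ℕ) (l r : Tr) (x i : ℕ) (k : Tr → Bool) : insK c (Tr.n l x r) i k =
    Bool.rec
      (insK c r (Nat.shiftRight i (nat_lit 1)) fun r' => k (Tr.n l x r'))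
      (insK c l (Nat.shiftRight i (nat_lit 1)) fun l' => k (Tr.n l' x r))
      (Nat.beq (Nat.land i (nat_lit 1)) (nat_lit 0)) := rfl

theorem insK_eq (c : ℕ) : ∀ (t : Tr) (i : ℕ) (k : Tr → Bool), insK c t i k = k (ins c t i)
  | Tr.e, _, _ => rfl
  | Tr.n l x r, i, k => by
    rw [insK_n, ins_n]
    cases Nat.beq (Nat.land i (nat_lit 1)) (nat_lit 0)
    · exact insK_eq c r _ _
    · exact insK_eq c l _ _

theorem rem_sat {τ : ℕ → Bool} {c a : ℕ} (hc : Sat τ c) (ha : Fls τ a) : Sat τ (rem c a) := by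
  obtain ⟨i, h1, h2⟩ := hc
  refine ⟨i, ?_, h2⟩
  have h3 : Nat.testBit a i = false := by
    by_contra h
    rw [Bool.not_eq_false] at h
    rw [ha i h] at h2
    exact Bool.false_ne_true h2
  unfold rem
  change Nat.testBit (c ^^^ (c &&& a)) i = true
  rw [Nat.testBit_xor, Nat.testBit_and, h1, h3]
  rfl

/-- a number `r ≠ 0` with `r &&& (r - 1) = 0` has one bit -/
theorem single {r : ℕ} (h0 : r ≠ 0) (h : r &&& (r - 1) = 0) : ∃ i, r = 2 ^ i := by
  induction r using Nat.strong_induction_on with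
  | _ r ih =>
    rcases Nat.even_or_odd' r with ⟨m, rfl | rfl⟩
    · have hm : m ≠ 0 := by
        rintro rfl
        exact h0 rfl
      have h1 : m &&& (m - 1) = 0 := by
        apply Nat.eq_of_testBit_eq
        intro j
        have h2 := congrArg (fun n => Nat.testBit n (j + 1)) h
        simp only [Nat.testBit_and, Nat.zero_testBit] at h2
        rw [Nat.testBit_and, Nat.zero_testBit]
        rw [Nat.testBit_succ, Nat.testBit_succ] at h2
        have e1 : 2 * m / 2 = m := by omega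
        have e2 : (2 * m - 1) / 2 = m - 1 := by omega
        rw [e1, e2] at h2
        exact h2
      obtain ⟨i, hi⟩ := ih m (by omega) hm h1
      exact ⟨i + 1, by rw [pow_succ, hi]; ring⟩
    · by_cases hm : m = 0
      · exact ⟨0, by rw [hm]; rfl⟩
      · exfalso
        have e0 : 2 * m + 1 - 1 = 2 * m := by omega
        rw [e0] at h
        have h1 : ∀ j, Nat.testBit m j = false := by
          intro j
          have h2 := congrArg (fun n => Nat.testBit n (j + 1)) h
          simp only [Nat.testBit_and, Nat.zero_testBit] at h2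
          rw [Nat.testBit_succ, Nat.testBit_succ] at h2
          have e1 : (2 * m + 1) / 2 = m := by omega
          have e2 : 2 * m / 2 = m := by omega
          rw [e1, e2, Bool.and_self] at h2
          exact h2
        apply hm
        apply Nat.eq_of_testBit_eq
        intro j
        rw [h1 j, Nat.zero_testBit]

theorem ngm_fls {K : ℕ} {τ : ℕ → Bool} (hτ : Val K τ) {r : ℕ} (h0 : r ≠ 0)
    (h1 : r &&& (r - 1) = 0) (hr : Sat τ r) : Fls τ (ngm K (2 ^ K) r) := by
  obtain ⟨i, rfl⟩ := single h0 h1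
  obtain ⟨j, h2, h3⟩ := hr
  rw [Nat.testBit_two_pow] at h2
  have hij : i = j := of_decide_eq_true h2
  subst hij
  intro k hk
  unfold ngm at hk
  by_cases hi : i < K
  · have h4 : Nat.ble (Nat.succ (2 ^ i)) (2 ^ K) = true := by
      rw [Nat.ble_eq]
      exact Nat.pow_lt_pow_right (by norm_num) hi
    rw [h4] at hk
    change Nat.testBit (2 ^ i <<< K) k = true at hk
    rw [Nat.shiftLeft_eq, ← pow_add, Nat.testBit_two_pow] at hk
    have hk' : i + K = k := of_decide_eq_true hk
    rw [← hk']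
    exact hτ.lo i hi h3
  · have h4 : Nat.ble (Nat.succ (2 ^ i)) (2 ^ K) = false := by
      rw [← Bool.not_eq_true, Nat.ble_eq, not_le]
      have : 2 ^ K ≤ 2 ^ i := Nat.pow_le_pow_right (by norm_num) (not_lt.1 hi)
      omega
    rw [h4] at hk
    change Nat.testBit (2 ^ i >>> K) k = true at hk
    have h5 : 2 ^ i >>> K = 2 ^ (i - K) := by
      rw [Nat.shiftRight_eq_div_pow, Nat.pow_div (not_lt.1 hi) (by norm_num)]
    rw [h5, Nat.testBit_two_pow] at hk
    have hk' : i - K = k := of_decide_eq_true hk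
    rw [← hk']
    exact hτ.hi i (not_lt.1 hi) h3

theorem Fls.lor {τ : ℕ → Bool} {a b : ℕ} (ha : Fls τ a) (hb : Fls τ b) : Fls τ (a ||| b) := by
  intro i hi
  rw [Nat.testBit_or, Bool.or_eq_true] at hi
  rcases hi with h | h
  · exact ha i h
  · exact hb i h

theorem up_cons (K Kp d : ℕ) (t : Tr) (h : ℕ) (hs : List ℕ) (a : ℕ) :
    up K Kp d t (h :: hs) a = frc (rem (get d t h) a) fun r =>
      Bool.rec
        (Bool.rec false (frc (Nat.lor a (ngm K Kp r)) (up K Kp d t hs))
          (Nat.beq (Nat.land r (Nat.sub r (nat_lit 1))) (nat_lit 0)))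
        true (Nat.beq r (nat_lit 0)) := rfl

theorem up_sound {K : ℕ} {τ : ℕ → Bool} (hτ : Val K τ) {d : ℕ} (hd : Sat τ d) {t : Tr}
    (ht : Ok τ t) : ∀ (hs : List ℕ) (a : ℕ), Fls τ a → up K (2 ^ K) d t hs a = true → False
  | [], _, _, h => by exact Bool.false_ne_true h
  | h :: hs, a, ha, hu => by
    rw [up_cons, frc_eq] at hu
    have h1 := rem_sat (get_ok hd t ht h) ha
    generalize rem (get d t h) a = r at hu h1
    have hr0 : r ≠ 0 := by
      rintro rfl
      obtain ⟨i, h2, -⟩ := h1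
      rw [Nat.zero_testBit] at h2
      exact Bool.false_ne_true h2
    have hb : Nat.beq r (nat_lit 0) = false := by
      rw [← Bool.not_eq_true]
      exact fun h => hr0 (Nat.eq_of_beq_eq_true h)
    rw [hb] at hu
    by_cases hs1 : Nat.beq (Nat.land r (Nat.sub r (nat_lit 1))) (nat_lit 0) = true
    · rw [hs1] at hu
      change frc (Nat.lor a (ngm K (2 ^ K) r)) (up K (2 ^ K) d t hs) = true at hu
      rw [frc_eq] at hu
      refine up_sound hτ hd ht hs _ ?_ hu
      refine ha.lor (ngm_fls hτ hr0 ?_ h1)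
      exact Nat.eq_of_beq_eq_true hs1
    · rw [Bool.not_eq_true] at hs1
      rw [hs1] at hu
      exact Bool.false_ne_true hu

theorem sat_of_up {K : ℕ} {τ : ℕ → Bool} (hτ : Val K τ) {d : ℕ} (hd : Sat τ d) {t : Tr}
    (ht : Ok τ t) (hs : List ℕ) (c : ℕ) (h : up K (2 ^ K) d t hs c = true) : Sat τ c := by
  by_contra hc
  refine up_sound hτ hd ht hs c ?_ h
  intro i hi
  by_contra h1
  rw [Bool.not_eq_false] at h1
  exact hc ⟨i, hi, h1⟩

theorem chk_cons (K Kp d : ℕ) (p : List ℕ × List ℕ) (L : List (List ℕ × List ℕ)) (t : Tr)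
    (k : ℕ) : chk K Kp d (p :: L) t k = frc (mk (Prod.fst p)) fun c =>
      aa (up K Kp d t (Prod.snd p) c)
        (Bool.rec (insK c t k fun t' => chk K Kp d L t' (Nat.succ k)) true
          (Nat.beq c (nat_lit 0))) := rfl

/-- soundness of the checker -/
theorem chk_sound {K : ℕ} {τ : ℕ → Bool} (hτ : Val K τ) {d : ℕ} (hd : Sat τ d) :
    ∀ (L : List (List ℕ × List ℕ)) (t : Tr) (k : ℕ), Ok τ t → chk K (2 ^ K) d L t k = true → False
  | [], _, _, _, h => by exact Bool.false_ne_true h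
  | p :: L, t, k, ht, h => by
    rw [chk_cons, frc_eq, aa_eq, Bool.and_eq_true] at h
    obtain ⟨h1, h2⟩ := h
    generalize mk (Prod.fst p) = c at h1 h2
    have hc := sat_of_up hτ hd ht _ c h1
    have hc0 : c ≠ 0 := by
      rintro rfl
      obtain ⟨i, h3, -⟩ := hc
      rw [Nat.zero_testBit] at h3
      exact Bool.false_ne_true h3
    have hb : Nat.beq c (nat_lit 0) = false := by
      rw [← Bool.not_eq_true]
      exact fun h => hc0 (Nat.eq_of_beq_eq_true h)
    rw [hb] at h2
    change insK c t k (fun t' => chk K (2 ^ K) d L t' (Nat.succ k)) = true at h2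
    rw [insK_eq] at h2
    exact chk_sound hτ hd L _ _ (ins_ok hc t ht k) h2

theorem dflt_sat {K : ℕ} {τ : ℕ → Bool} (hτ : Val K τ) : Sat τ (1 ||| 2 ^ K) := by
  rcases hτ.tot with h | h
  · refine ⟨0, ?_, h⟩
    rw [Nat.testBit_or]
    simp
  · refine ⟨K, ?_, h⟩
    rw [Nat.testBit_or, Nat.testBit_two_pow]
    simp

end

end Pool.Agent.F32.Rup
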