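import Pool.Agent.F32.Run

/-!
# F32: the machine theorem (helper46)
-/

set_option autoImplicit false

namespace Pool.Agent.F32

theorem sat_thm : SatThm := by
  have h1 : (13407807929942597099574024998205846127479365820592393377723561443721764030073546976801874298166903427690031858186486050853753882811946569946433649006084096 : ℕ) = 2 ^ 512 := by decide +kernel
  have h2 : (13407807929942597099574024998205846127479365820592393377723561443721764030073546976801874298166903427690031858186486050853753882811946569946433649006084097 : ℕ) = 1 ||| 2 ^ 512 := by decide +kernel
  have h := Sem.cert_ok
  intro P
  refine Sem.cert_sound (K := 512) (keys := Sem.keyL) (R := Sem.relL) (L := Sem.lemL)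
    (by norm_num) ?_ P
  rw [← h2, ← h1]
  exact h

end Pool.Agent.F32
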