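import Pool.Agent.F32.Pat
import Pool.Agent.F32.Rup

/-!
# F32: semantic layer of the certificate, part 1 (helper46)

Label numbers: `X r i = 3 r + i`, `C k = 9 + k`, `Y r i = 12 + 3 r + i`, `W = 21`. `key a b c d e` is a
code of the order type of five labels. Functions used by the kernel are written with recursors.
-/

set_option autoImplicit false

namespace Pool.Agent.F32.Sem

open Circ Rup

noncomputable section

/-- the label with number `n` -/
def lab (n : ℕ) : El 3 :=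
  if n < 9 then .X ⟨n / 3 % 3, by omega⟩ ⟨n % 3, by omega⟩
  else if n < 12 then .C ⟨(n - 9) % 3, by omega⟩
  else if n < 21 then .Y ⟨(n - 12) / 3 % 3, by omega⟩ ⟨(n - 12) % 3, by omega⟩
  else .W

theorem lab_inj {a b : ℕ} (ha : a < 22) (hb : b < 22) (h : lab a = lab b) : a = b := by
  have key : ∀ x y : Fin 22, lab x.1 = lab y.1 → x = y := by decide +kernel
  exact congrArg Fin.val (key ⟨a, ha⟩ ⟨b, hb⟩ h)

/-- code of a pair of labels -/
def pcE (p q : El 3) : ℕ :=
  match p, q with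
  | .X r i, .X s j => if r.1 < s.1 then 1 else if s.1 < r.1 then 2 else
      if i.1 < j.1 then 3 else if j.1 < i.1 then 4 else 5
  | .X r i, .Y s j => if r.1 < s.1 then 1 else if s.1 < r.1 then 2 else
      if i.1 < j.1 then 3 else if j.1 < i.1 then 4 else 5
  | .Y r i, .X s j => if r.1 < s.1 then 1 else if s.1 < r.1 then 2 else
      if i.1 < j.1 then 3 else if j.1 < i.1 then 4 else 5
  | .Y r i, .Y s j => if r.1 < s.1 then 1 else if s.1 < r.1 then 2 else
      if i.1 < j.1 then 3 else if j.1 < i.1 then 4 else 5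
  | .C k, .C l => if k.1 < l.1 then 1 else if l.1 < k.1 then 2 else 3
  | .C k, .Y _ _ => if k.1 < 1 then 1 else if 1 < k.1 then 2 else 3
  | .Y _ _, .C l => if 1 < l.1 then 1 else if l.1 < 1 then 2 else 3
  | _, _ => 0

/-- the condition of `SameT` for one pair -/
def cnd (p q p' q' : El 3) : Prop :=
  (∀ u ∈ p.ri, ∀ v ∈ q.ri, ∀ u' ∈ p'.ri, ∀ v' ∈ q'.ri,
    (u.1 < v.1 ↔ u'.1 < v'.1) ∧ (u.1 = v.1 → (u.2 < v.2 ↔ u'.2 < v'.2))) ∧
  ∀ u ∈ p.kk 1, ∀ v ∈ q.kk 1, ∀ u' ∈ p'.kk 1, ∀ v' ∈ q'.kk 1, (u < v ↔ u' < v')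

theorem cmp5 {r s i j r' s' i' j' : ℕ}
    (h : (if r < s then 1 else if s < r then 2 else if i < j then 3 else if j < i then 4 else 5) =
      (if r' < s' then 1 else if s' < r' then 2 else if i' < j' then 3 else
        if j' < i' then 4 else (5 : ℕ))) :
    ((r < s ↔ r' < s') ∧ (r = s → (i < j ↔ i' < j'))) ∧
      ((s < r ↔ s' < r') ∧ (s = r → (j < i ↔ j' < i'))) := by
  split_ifs at h <;> omega

theorem cmp3 {k l k' l' : ℕ}
    (h : (if k < l then 1 else if l < k then 2 else 3) =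
      (if k' < l' then 1 else if l' < k' then 2 else (3 : ℕ))) :
    (k < l ↔ k' < l') ∧ (l < k ↔ l' < k') := by
  split_ifs at h <;> omega

theorem cnd_of {p q p' q' : El 3} (h1 : p.ty = p'.ty) (h2 : q.ty = q'.ty)
    (h : pcE p q = pcE p' q') : cnd p q p' q' ∧ cnd q p q' p' := by
  rcases p with ⟨r, i⟩ | k | ⟨r, i⟩ | _ <;> rcases p' with ⟨r', i'⟩ | k' | ⟨r', i'⟩ | _ <;>
    simp [El.ty] at h1 <;>
  rcases q with ⟨s, j⟩ | l | ⟨s, j⟩ | _ <;> rcases q' with ⟨s', j'⟩ | l' | ⟨s', j'⟩ | _ <;>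
    simp [El.ty] at h2 <;>
  unfold pcE at h <;>
  simp only [cnd, El.ri, El.kk, Option.mem_def, Option.some.injEq, reduceCtorEq,
    forall_eq', false_imp_iff, implies_true, and_true, true_and, IsEmpty.forall_iff,
    forall_const, lt_self_iff_false, Fin.val_one, iff_self] <;>
  first
    | exact cmp5 h
    | exact cmp3 h
    | (have h5 := cmp5 h; exact ⟨⟨h5.1, by simp⟩, ⟨h5.2, by simp⟩⟩)
    | trivial

theorem cnd_self (p p' : El 3) (h : p.ty = p'.ty) : cnd p p p' p' := by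
  cases p <;> cases p' <;> simp [El.ty] at h <;> simp [cnd, El.ri, El.kk]

/-! ## Numeric tables -/

/-- table of `pcE`, three bits for each pair -/
def PCT : ℕ := nat_lit 146896839138566802516086547765684265878803860603362376222451528719730297053765148585812476038784421606049503558188827760075461992596267538216919395549350752995805528410120170907183190933417871804419558760110692418111218006843758164826509543772894254327030396411703452462204292213105332485447222999387901042907721348843359156670731744928083957708762049615453228120472732134394958147886006080042021158598449219699512029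

/-- table of the types, two bits for each label -/
def TYT : ℕ := nat_lit 16126164860928

/-- code of a pair -/
def pcN (a b : ℕ) : ℕ := Nat.land (Nat.shiftRight PCT
  (Nat.mul (nat_lit 3) (Nat.add (Nat.mul (nat_lit 22) a) b))) (nat_lit 7)

/-- type of a label -/
def tyN (a : ℕ) : ℕ := Nat.land (Nat.shiftRight TYT (Nat.mul (nat_lit 2) a)) (nat_lit 3)

theorem pcN_eq {a b : ℕ} (ha : a < 22) (hb : b < 22) : pcN a b = pcE (lab a) (lab b) := by
  have key : ∀ x y : Fin 22, pcN x.1 y.1 = pcE (lab x.1) (lab y.1) := by decide +kernel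
  exact key ⟨a, ha⟩ ⟨b, hb⟩

theorem tyN_eq {a : ℕ} (ha : a < 22) : tyN a = (lab a).ty := by
  have key : ∀ x : Fin 22, tyN x.1 = (lab x.1).ty := by decide +kernel
  exact key ⟨a, ha⟩

/-- digit and rest -/
def d4 (x r : ℕ) : ℕ := Nat.add x (Nat.mul (nat_lit 4) r)
def d8 (x r : ℕ) : ℕ := Nat.add x (Nat.mul (nat_lit 8) r)

/-- code of the order type of five labels -/
def key (a b c d e : ℕ) : ℕ :=
  d4 (tyN a) (d4 (tyN b) (d4 (tyN c) (d4 (tyN d) (d4 (tyN e) (d8 (pcN a b) (d8 (pcN a c)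
    (d8 (pcN a d) (d8 (pcN a e) (d8 (pcN b c) (d8 (pcN b d) (d8 (pcN b e) (d8 (pcN c d)
      (d8 (pcN c e) (pcN d e))))))))))))))

theorem d4_inj {x y r s : ℕ} (hx : x < 4) (hy : y < 4) (h : d4 x r = d4 y s) : x = y ∧ r = s := by
  have h' : x + 4 * r = y + 4 * s := h
  constructor <;> omega

theorem d8_inj {x y r s : ℕ} (hx : x < 8) (hy : y < 8) (h : d8 x r = d8 y s) : x = y ∧ r = s := by
  have h' : x + 8 * r = y + 8 * s := h
  constructor <;> omega

theorem tyN_lt (a : ℕ) : tyN a < 4 := Nat.lt_succ_of_le (Nat.and_le_right (n := TYT >>> (2 * a)))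

theorem pcN_lt (a b : ℕ) : pcN a b < 8 :=
  Nat.lt_succ_of_le (Nat.and_le_right (n := PCT >>> (3 * (22 * a + b))))

theorem same_of_key {a b c d e a' b' c' d' e' : ℕ} (ha : a < 22) (hb : b < 22) (hc : c < 22)
    (hd : d < 22) (he : e < 22) (ha' : a' < 22) (hb' : b' < 22) (hc' : c' < 22) (hd' : d' < 22)
    (he' : e' < 22) (h : key a b c d e = key a' b' c' d' e') :
    SameT 1 ![lab a, lab b, lab c, lab d, lab e] ![lab a', lab b', lab c', lab d', lab e'] := by
  unfold key at h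
  obtain ⟨ta, h⟩ := d4_inj (tyN_lt _) (tyN_lt _) h
  obtain ⟨tb, h⟩ := d4_inj (tyN_lt _) (tyN_lt _) h
  obtain ⟨tc, h⟩ := d4_inj (tyN_lt _) (tyN_lt _) h
  obtain ⟨td, h⟩ := d4_inj (tyN_lt _) (tyN_lt _) h
  obtain ⟨te, h⟩ := d4_inj (tyN_lt _) (tyN_lt _) h
  obtain ⟨pab, h⟩ := d8_inj (pcN_lt _ _) (pcN_lt _ _) h
  obtain ⟨pac, h⟩ := d8_inj (pcN_lt _ _) (pcN_lt _ _) h
  obtain ⟨pad, h⟩ := d8_inj (pcN_lt _ _) (pcN_lt _ _) h
  obtain ⟨pae, h⟩ := d8_inj (pcN_lt _ _) (pcN_lt _ _) h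
  obtain ⟨pbc, h⟩ := d8_inj (pcN_lt _ _) (pcN_lt _ _) h
  obtain ⟨pbd, h⟩ := d8_inj (pcN_lt _ _) (pcN_lt _ _) h
  obtain ⟨pbe, h⟩ := d8_inj (pcN_lt _ _) (pcN_lt _ _) h
  obtain ⟨pcd, h⟩ := d8_inj (pcN_lt _ _) (pcN_lt _ _) h
  obtain ⟨pce, pde⟩ := d8_inj (pcN_lt _ _) (pcN_lt _ _) h
  rw [tyN_eq ha, tyN_eq ha'] at ta
  rw [tyN_eq hb, tyN_eq hb'] at tb
  rw [tyN_eq hc, tyN_eq hc'] at tc
  rw [tyN_eq hd, tyN_eq hd'] at td
  rw [tyN_eq he, tyN_eq he'] at te
  rw [pcN_eq ha hb, pcN_eq ha' hb'] at pab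
  rw [pcN_eq ha hc, pcN_eq ha' hc'] at pac
  rw [pcN_eq ha hd, pcN_eq ha' hd'] at pad
  rw [pcN_eq ha he, pcN_eq ha' he'] at pae
  rw [pcN_eq hb hc, pcN_eq hb' hc'] at pbc
  rw [pcN_eq hb hd, pcN_eq hb' hd'] at pbd
  rw [pcN_eq hb he, pcN_eq hb' he'] at pbe
  rw [pcN_eq hc hd, pcN_eq hc' hd'] at pcd
  rw [pcN_eq hc he, pcN_eq hc' he'] at pce
  rw [pcN_eq hd he, pcN_eq hd' he'] at pde
  obtain ⟨qab, qba⟩ := cnd_of ta tb pab
  obtain ⟨qac, qca⟩ := cnd_of ta tc pac
  obtain ⟨qad, qda⟩ := cnd_of ta td pad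
  obtain ⟨qae, qea⟩ := cnd_of ta te pae
  obtain ⟨qbc, qcb⟩ := cnd_of tb tc pbc
  obtain ⟨qbd, qdb⟩ := cnd_of tb td pbd
  obtain ⟨qbe, qeb⟩ := cnd_of tb te pbe
  obtain ⟨qcd, qdc⟩ := cnd_of tc td pcd
  obtain ⟨qce, qec⟩ := cnd_of tc te pce
  obtain ⟨qde, qed⟩ := cnd_of td te pde
  have qaa := cnd_self _ _ ta
  have qbb := cnd_self _ _ tb
  have qcc := cnd_self _ _ tc
  have qdd := cnd_self _ _ td
  have qee := cnd_self _ _ te
  have H : ∀ i j : Fin 5, cnd (![lab a, lab b, lab c, lab d, lab e] i)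
      (![lab a, lab b, lab c, lab d, lab e] j) (![lab a', lab b', lab c', lab d', lab e'] i)
      (![lab a', lab b', lab c', lab d', lab e'] j) := by
    intro i j
    fin_cases i <;> fin_cases j
    exacts [qaa, qab, qac, qad, qae, qba, qbb, qbc, qbd, qbe, qca, qcb, qcc, qcd, qce,
      qda, qdb, qdc, qdd, qde, qea, qeb, qec, qed, qee]
  refine ⟨?_, fun i j => (H i j).1, fun i j => (H i j).2⟩
  intro i
  fin_cases i
  exacts [ta, tb, tc, td, te]

/-! ## Determinants of label numbers -/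

/-- the determinant of five label numbers -/
def DD (P : El 3 → R5) (a b c d e : ℕ) : ℝ :=
  D5 (P (lab a)) (P (lab b)) (P (lab c)) (P (lab d)) (P (lab e))

/-- the order type with code `x` has positive determinants -/
def chi (P : El 3 → R5) (x : ℕ) : Prop :=
  ∃ a b c d e : ℕ, a < 22 ∧ b < 22 ∧ c < 22 ∧ d < 22 ∧ e < 22 ∧ key a b c d e = x ∧
    0 < DD P a b c d e

theorem chi_iff {P : El 3 → R5} (hP : Pat P) {a b c d e : ℕ} (ha : a < 22) (hb : b < 22)
    (hc : c < 22) (hd : d < 22) (he : e < 22) : chi P (key a b c d e) ↔ 0 < DD P a b c d e := by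
  constructor
  · rintro ⟨a', b', c', d', e', ha', hb', hc', hd', he', h1, h2⟩
    exact (hP.hom _ _ (same_of_key ha' hb' hc' hd' he' ha hb hc hd he h1)).1 h2
  · intro h
    exact ⟨a, b, c, d, e, ha, hb, hc, hd, he, rfl, h⟩

open Classical in
/-- the valuation: variable `i` is the order type with code `get 0 U i` -/
def tau (P : El 3 → R5) (K : ℕ) (U : Tr) (i : ℕ) : Bool :=
  if i < K then decide (chi P (get 0 U i))
  else if i < 2 * K then !decide (chi P (get 0 U (i - K))) else false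

open Classical in
theorem tau_val (P : El 3 → R5) {K : ℕ} (hK : 0 < K) (U : Tr) : Val K (tau P K U) := by
  refine ⟨?_, ?_, ?_⟩
  · intro i hi h
    unfold tau at h ⊢
    rw [if_pos hi] at h
    rw [if_neg (by omega), if_pos (by omega), Nat.add_sub_cancel, h]
    rfl
  · intro i hi h
    unfold tau at h ⊢
    rw [if_neg (by omega)] at h
    by_cases h2 : i < 2 * K
    · rw [if_pos h2] at h
      rw [if_pos (by omega)]
      rw [Bool.not_eq_true'] at h
      exact h
    · rw [if_neg h2] at h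
      exact absurd h Bool.false_ne_true
  · unfold tau
    rw [if_pos hK, if_neg (lt_irrefl K), if_pos (by omega), Nat.sub_self]
    by_cases h : chi P (get 0 U 0)
    · left
      exact decide_eq_true h
    · right
      rw [decide_eq_false h]
      rfl

/-! ## Transpositions -/

theorem swp (v : Fin 5 → R5) {i j : Fin 5} (h : i ≠ j) :
    Matrix.det (Matrix.of (v ∘ Equiv.swap i j)) = -Matrix.det (Matrix.of v) := by
  have h1 := Matrix.det_permute (Equiv.swap i j) (Matrix.of v)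
  rw [Equiv.Perm.sign_swap h, Units.val_neg, Units.val_one, Int.cast_neg, Int.cast_one,
    neg_one_mul] at h1
  exact h1

theorem D5_01 (a b c d e : R5) : D5 b a c d e = -D5 a b c d e := by
  have h := swp ![a, b, c, d, e] (i := 0) (j := 1) (by decide)
  have e1 : (![a, b, c, d, e] : Fin 5 → R5) ∘ Equiv.swap 0 1 = ![b, a, c, d, e] := by
    funext i; fin_cases i <;> rfl
  rw [e1] at h
  exact h

theorem D5_34 (a b c d e : R5) : D5 a b c e d = -D5 a b c d e := by
  have h := swp ![a, b, c, d, e] (i := 3) (j := 4) (by decide)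
  have e1 : (![a, b, c, d, e] : Fin 5 → R5) ∘ Equiv.swap 3 4 = ![a, b, c, e, d] := by
    funext i; fin_cases i <;> rfl
  rw [e1] at h
  exact h

theorem D5_24 (a b c d e : R5) : D5 a b e d c = -D5 a b c d e := by
  have h := swp ![a, b, c, d, e] (i := 2) (j := 4) (by decide)
  have e1 : (![a, b, c, d, e] : Fin 5 → R5) ∘ Equiv.swap 2 4 = ![a, b, e, d, c] := by
    funext i; fin_cases i <;> rfl
  rw [e1] at h
  exact h

theorem D5_23 (a b c d e : R5) : D5 a b d c e = -D5 a b c d e := by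
  have h := swp ![a, b, c, d, e] (i := 2) (j := 3) (by decide)
  have e1 : (![a, b, c, d, e] : Fin 5 → R5) ∘ Equiv.swap 2 3 = ![a, b, d, c, e] := by
    funext i; fin_cases i <;> rfl
  rw [e1] at h
  exact h

theorem D5_03 (a b c d e : R5) : D5 d b c a e = -D5 a b c d e := by
  have h := swp ![a, b, c, d, e] (i := 0) (j := 3) (by decide)
  have e1 : (![a, b, c, d, e] : Fin 5 → R5) ∘ Equiv.swap 0 3 = ![d, b, c, a, e] := by
    funext i; fin_cases i <;> rfl
  rw [e1] at h
  exact h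

theorem D5_02 (a b c d e : R5) : D5 c b a d e = -D5 a b c d e := by
  have h := swp ![a, b, c, d, e] (i := 0) (j := 2) (by decide)
  have e1 : (![a, b, c, d, e] : Fin 5 → R5) ∘ Equiv.swap 0 2 = ![c, b, a, d, e] := by
    funext i; fin_cases i <;> rfl
  rw [e1] at h
  exact h

theorem D5_14 (a b c d e : R5) : D5 a e c d b = -D5 a b c d e := by
  have h := swp ![a, b, c, d, e] (i := 1) (j := 4) (by decide)
  have e1 : (![a, b, c, d, e] : Fin 5 → R5) ∘ Equiv.swap 1 4 = ![a, e, c, d, b] := by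
    funext i; fin_cases i <;> rfl
  rw [e1] at h
  exact h

theorem D5_13 (a b c d e : R5) : D5 a d c b e = -D5 a b c d e := by
  have h := swp ![a, b, c, d, e] (i := 1) (j := 3) (by decide)
  have e1 : (![a, b, c, d, e] : Fin 5 → R5) ∘ Equiv.swap 1 3 = ![a, d, c, b, e] := by
    funext i; fin_cases i <;> rfl
  rw [e1] at h
  exact h

theorem D5_12 (a b c d e : R5) : D5 a c b d e = -D5 a b c d e := by
  have h := swp ![a, b, c, d, e] (i := 1) (j := 2) (by decide)
  have e1 : (![a, b, c, d, e] : Fin 5 → R5) ∘ Equiv.swap 1 2 = ![a, c, b, d, e] := by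
    funext i; fin_cases i <;> rfl
  rw [e1] at h
  exact h

/-- three-term relation -/
theorem gp (a b c d e f g : R5) : D5 a b c d e * D5 a b c f g - D5 a b c d f * D5 a b c e g +
    D5 a b c d g * D5 a b c e f = 0 := by
  have hd : ∀ x : R5, x ⬝ᵥ cr ![a, b, c, g] = D5 a b c g x := fun x => by
    rw [dotProduct_comm, VC.cr_dot]
    rfl
  have h := rel a b c d e f (cr ![a, b, c, g])
  rw [hd, hd, hd, hd, hd, hd] at h
  have z1 : D5 a b c g a = 0 := Matrix.det_zero_of_row_eq (i := 0) (j := 4) (by decide) rfl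
  have z2 : D5 a b c g b = 0 := Matrix.det_zero_of_row_eq (i := 1) (j := 4) (by decide) rfl
  have z3 : D5 a b c g c = 0 := Matrix.det_zero_of_row_eq (i := 2) (j := 4) (by decide) rfl
  rw [z1, z2, z3, D5_34 a b c d g, D5_34 a b c e g, D5_34 a b c f g] at h
  linarith

end

end Pool.Agent.F32.Sem
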