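import Pool.Agent.F32.Sem

/-!
# F32: semantic layer of the certificate, part 2: the checker (helper46)
-/

set_option autoImplicit false

namespace Pool.Agent.F32.Sem

open Circ Rup

noncomputable section

/-- `!b` -/
def nn (b : Bool) : Bool := Bool.rec true false b
/-- `b || c` -/
def oo (b c : Bool) : Bool := Bool.rec c true b
/-- `xor b c` -/
def xr (b c : Bool) : Bool := Bool.rec c (nn c) b

theorem nn_eq (b : Bool) : nn b = !b := by cases b <;> rfl
theorem oo_eq (b c : Bool) : oo b c = (b || c) := by cases b <;> rfl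
theorem xr_eq (b c : Bool) : xr b c = Bool.xor b c := by cases b <;> cases c <;> rfl

/-- compare and exchange -/
def cmpx (a b : ℕ) (s : Bool) (k : ℕ → ℕ → Bool → Bool) : Bool :=
  Bool.rec (k b a (nn s)) (k a b s) (Nat.ble a b)

/-- signed determinant -/
def sD (P : El 3 → R5) (s : Bool) (a b c d e : ℕ) : ℝ := bif s then -DD P a b c d e else DD P a b c d e

theorem sD_nn {P : El 3 → R5} {s : Bool} {a b c d e a' b' c' d' e' : ℕ}
    (h : DD P a' b' c' d' e' = -DD P a b c d e) :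
    sD P (nn s) a' b' c' d' e' = sD P s a b c d e := by
  cases s
  · change -DD P a' b' c' d' e' = DD P a b c d e
    rw [h, neg_neg]
  · change DD P a' b' c' d' e' = -DD P a b c d e
    exact h

theorem st01 (P : El 3 → R5) {a b c d e : ℕ} {s : Bool} {k : ℕ → ℕ → Bool → Bool}
    (h : cmpx a b s k = true) : ∃ a' b' s', k a' b' s' = true ∧
      sD P s' a' b' c d e = sD P s a b c d e := by
  unfold cmpx at h
  cases h1 : Nat.ble a b
  · rw [h1] at h
    exact ⟨b, a, nn s, h, sD_nn (D5_01 _ _ _ _ _)⟩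
  · rw [h1] at h
    exact ⟨a, b, s, h, rfl⟩

theorem st34 (P : El 3 → R5) {a b c d e : ℕ} {s : Bool} {k : ℕ → ℕ → Bool → Bool}
    (h : cmpx d e s k = true) : ∃ d' e' s', k d' e' s' = true ∧
      sD P s' a b c d' e' = sD P s a b c d e := by
  unfold cmpx at h
  cases h1 : Nat.ble d e
  · rw [h1] at h
    exact ⟨e, d, nn s, h, sD_nn (D5_34 _ _ _ _ _)⟩
  · rw [h1] at h
    exact ⟨d, e, s, h, rfl⟩

theorem st24 (P : El 3 → R5) {a b c d e : ℕ} {s : Bool} {k : ℕ → ℕ → Bool → Bool}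
    (h : cmpx c e s k = true) : ∃ c' e' s', k c' e' s' = true ∧
      sD P s' a b c' d e' = sD P s a b c d e := by
  unfold cmpx at h
  cases h1 : Nat.ble c e
  · rw [h1] at h
    exact ⟨e, c, nn s, h, sD_nn (D5_24 _ _ _ _ _)⟩
  · rw [h1] at h
    exact ⟨c, e, s, h, rfl⟩

theorem st23 (P : El 3 → R5) {a b c d e : ℕ} {s : Bool} {k : ℕ → ℕ → Bool → Bool}
    (h : cmpx c d s k = true) : ∃ c' d' s', k c' d' s' = true ∧
      sD P s' a b c' d' e = sD P s a b c d e := by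
  unfold cmpx at h
  cases h1 : Nat.ble c d
  · rw [h1] at h
    exact ⟨d, c, nn s, h, sD_nn (D5_23 _ _ _ _ _)⟩
  · rw [h1] at h
    exact ⟨c, d, s, h, rfl⟩

theorem st03 (P : El 3 → R5) {a b c d e : ℕ} {s : Bool} {k : ℕ → ℕ → Bool → Bool}
    (h : cmpx a d s k = true) : ∃ a' d' s', k a' d' s' = true ∧
      sD P s' a' b c d' e = sD P s a b c d e := by
  unfold cmpx at h
  cases h1 : Nat.ble a d
  · rw [h1] at h
    exact ⟨d, a, nn s, h, sD_nn (D5_03 _ _ _ _ _)⟩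
  · rw [h1] at h
    exact ⟨a, d, s, h, rfl⟩

theorem st02 (P : El 3 → R5) {a b c d e : ℕ} {s : Bool} {k : ℕ → ℕ → Bool → Bool}
    (h : cmpx a c s k = true) : ∃ a' c' s', k a' c' s' = true ∧
      sD P s' a' b c' d e = sD P s a b c d e := by
  unfold cmpx at h
  cases h1 : Nat.ble a c
  · rw [h1] at h
    exact ⟨c, a, nn s, h, sD_nn (D5_02 _ _ _ _ _)⟩
  · rw [h1] at h
    exact ⟨a, c, s, h, rfl⟩

theorem st14 (P : El 3 → R5) {a b c d e : ℕ} {s : Bool} {k : ℕ → ℕ → Bool → Bool}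
    (h : cmpx b e s k = true) : ∃ b' e' s', k b' e' s' = true ∧
      sD P s' a b' c d e' = sD P s a b c d e := by
  unfold cmpx at h
  cases h1 : Nat.ble b e
  · rw [h1] at h
    exact ⟨e, b, nn s, h, sD_nn (D5_14 _ _ _ _ _)⟩
  · rw [h1] at h
    exact ⟨b, e, s, h, rfl⟩

theorem st13 (P : El 3 → R5) {a b c d e : ℕ} {s : Bool} {k : ℕ → ℕ → Bool → Bool}
    (h : cmpx b d s k = true) : ∃ b' d' s', k b' d' s' = true ∧
      sD P s' a b' c d' e = sD P s a b c d e := by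
  unfold cmpx at h
  cases h1 : Nat.ble b d
  · rw [h1] at h
    exact ⟨d, b, nn s, h, sD_nn (D5_13 _ _ _ _ _)⟩
  · rw [h1] at h
    exact ⟨b, d, s, h, rfl⟩

theorem st12 (P : El 3 → R5) {a b c d e : ℕ} {s : Bool} {k : ℕ → ℕ → Bool → Bool}
    (h : cmpx b c s k = true) : ∃ b' c' s', k b' c' s' = true ∧
      sD P s' a b' c' d e = sD P s a b c d e := by
  unfold cmpx at h
  cases h1 : Nat.ble b c
  · rw [h1] at h
    exact ⟨c, b, nn s, h, sD_nn (D5_12 _ _ _ _ _)⟩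
  · rw [h1] at h
    exact ⟨b, c, s, h, rfl⟩

/-- sorting network -/
def srt5 (a b c d e : ℕ) (s : Bool) (k : ℕ → ℕ → ℕ → ℕ → ℕ → Bool → Bool) : Bool :=
  cmpx a b s fun a b s => 
    cmpx d e s fun d e s => cmpx c e s fun c e s => cmpx c d s fun c d s => 
    cmpx a d s fun a d s => cmpx a c s fun a c s => cmpx b e s fun b e s => 
    cmpx b d s fun b d s => cmpx b c s fun b c s => k a b c d e s

theorem srt5_sound (P : El 3 → R5) {a b c d e : ℕ} {s : Bool}
    {k : ℕ → ℕ → ℕ → ℕ → ℕ → Bool → Bool} (h : srt5 a b c d e s k = true) :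
    ∃ a' b' c' d' e' s', k a' b' c' d' e' s' = true ∧ sD P s' a' b' c' d' e' = sD P s a b c d e := by
  unfold srt5 at h
  obtain ⟨a1, b1, s1, h, q1⟩ := st01 P (a := a) (b := b) (c := c) (d := d) (e := e) h
  obtain ⟨d2, e2, s2, h, q2⟩ := st34 P (a := a1) (b := b1) (c := c) (d := d) (e := e) h
  obtain ⟨c3, e3, s3, h, q3⟩ := st24 P (a := a1) (b := b1) (c := c) (d := d2) (e := e2) h
  obtain ⟨c4, d4, s4, h, q4⟩ := st23 P (a := a1) (b := b1) (c := c3) (d := d2) (e := e3) h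
  obtain ⟨a5, d5, s5, h, q5⟩ := st03 P (a := a1) (b := b1) (c := c4) (d := d4) (e := e3) h
  obtain ⟨a6, c6, s6, h, q6⟩ := st02 P (a := a5) (b := b1) (c := c4) (d := d5) (e := e3) h
  obtain ⟨b7, e7, s7, h, q7⟩ := st14 P (a := a6) (b := b1) (c := c6) (d := d5) (e := e3) h
  obtain ⟨b8, d8, s8, h, q8⟩ := st13 P (a := a6) (b := b7) (c := c6) (d := d5) (e := e7) h
  obtain ⟨b9, c9, s9, h, q9⟩ := st12 P (a := a6) (b := b8) (c := c6) (d := d8) (e := e7) h
  exact ⟨a6, b9, c9, d8, e7, s9, h, q9.trans (q8.trans (q7.trans (q6.trans (q5.trans (q4.trans (q3.trans (q2.trans (q1))))))))⟩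

/-! ## Masks -/

theorem sat_pow {τ : ℕ → Bool} {i : ℕ} : Sat τ (2 ^ i) ↔ τ i = true := by
  constructor
  · rintro ⟨j, h1, h2⟩
    rw [Nat.testBit_two_pow] at h1
    rw [of_decide_eq_true h1]
    exact h2
  · intro h
    exact ⟨i, by rw [Nat.testBit_two_pow]; simp, h⟩

theorem sat_or {τ : ℕ → Bool} {a b : ℕ} : Sat τ (Nat.lor a b) ↔ Sat τ a ∨ Sat τ b := by
  change Sat τ (a ||| b) ↔ _
  constructor
  · rintro ⟨j, h1, h2⟩
    rw [Nat.testBit_or, Bool.or_eq_true] at h1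
    rcases h1 with h | h
    · exact Or.inl ⟨j, h, h2⟩
    · exact Or.inr ⟨j, h, h2⟩
  · rintro (⟨j, h1, h2⟩ | ⟨j, h1, h2⟩)
    · exact ⟨j, by rw [Nat.testBit_or, h1, Bool.true_or], h2⟩
    · exact ⟨j, by rw [Nat.testBit_or, h1, Bool.or_true], h2⟩

/-- `m`, `n` are the masks of the literals `0 < D`, `D < 0` -/
structure MP (τ : ℕ → Bool) (D : ℝ) (m n : ℕ) : Prop where
  ne : D ≠ 0
  pos : Sat τ m ↔ 0 < D
  neg : Sat τ n ↔ D < 0

/-- one tuple of labels, with the number `i` of its order type -/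
def tup (K : ℕ) (U : Tr) (a b c d e i : ℕ) (k : ℕ → ℕ → Bool) : Bool :=
  srt5 a b c d e false fun a b c d e s =>
    aa (Nat.ble (Nat.succ a) b) (aa (Nat.ble (Nat.succ b) c) (aa (Nat.ble (Nat.succ c) d)
      (aa (Nat.ble (Nat.succ d) e) (aa (Nat.ble (Nat.succ e) (nat_lit 22))
        (aa (Nat.beq (key a b c d e) (get (nat_lit 0) U i)) (aa (Nat.ble (Nat.succ i) K)
          (frc (Nat.shiftLeft (nat_lit 1) i) fun m => frc (Nat.shiftLeft m K) fun n =>
            Bool.rec (k m n) (k n m) s)))))))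

theorem DD_ne {P : El 3 → R5} (hP : Pat P) {a b c d e : ℕ} (hab : a < b) (hbc : b < c)
    (hcd : c < d) (hde : d < e) (he : e < 22) : DD P a b c d e ≠ 0 := by
  refine hP.nz ![lab a, lab b, lab c, lab d, lab e] ?_
  intro i j hij
  fin_cases i <;> fin_cases j <;> first
    | rfl
    | (exfalso
       have h := lab_inj (by omega) (by omega) hij
       omega)

open Classical in
theorem tup_sound {P : El 3 → R5} (hP : Pat P) {K : ℕ} {U : Tr} {a b c d e i : ℕ}
    {k : ℕ → ℕ → Bool} (h : tup K U a b c d e i k = true) :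
    ∃ m n, k m n = true ∧ MP (tau P K U) (DD P a b c d e) m n := by
  unfold tup at h
  obtain ⟨a', b', c', d', e', s, h, hs⟩ := srt5_sound P h
  simp only [aa_eq, Bool.and_eq_true, frc_eq] at h
  obtain ⟨h1, h2, h3, h4, h5, h6, h7, h⟩ := h
  have hab : a' < b' := Nat.le_of_ble_eq_true h1
  have hbc : b' < c' := Nat.le_of_ble_eq_true h2
  have hcd : c' < d' := Nat.le_of_ble_eq_true h3
  have hde : d' < e' := Nat.le_of_ble_eq_true h4
  have he : e' < 22 := Nat.le_of_ble_eq_true h5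
  have hi : i < K := Nat.le_of_ble_eq_true h7
  have hkey : key a' b' c' d' e' = get 0 U i := Nat.eq_of_beq_eq_true h6
  have hne := DD_ne hP hab hbc hcd hde he
  have hchi := chi_iff hP (a := a') (b := b') (c := c') (d := d') (e := e') (by omega) (by omega)
    (by omega) (by omega) he
  have em : Nat.shiftLeft (nat_lit 1) i = 2 ^ i := by
    change 1 <<< i = 2 ^ i
    rw [Nat.shiftLeft_eq, one_mul]
  have en : Nat.shiftLeft (2 ^ i) K = 2 ^ (i + K) := by
    change (2 ^ i) <<< K = _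
    rw [Nat.shiftLeft_eq, pow_add]
  rw [em, en] at h
  have t1 : Sat (tau P K U) (2 ^ i) ↔ 0 < DD P a' b' c' d' e' := by
    rw [sat_pow, ← hchi, hkey]
    unfold tau
    rw [if_pos hi]
    exact decide_eq_true_iff
  have t2 : Sat (tau P K U) (2 ^ (i + K)) ↔ DD P a' b' c' d' e' < 0 := by
    have h8 : DD P a' b' c' d' e' < 0 ↔ ¬ 0 < DD P a' b' c' d' e' := by
      rw [not_lt]
      exact ⟨le_of_lt, fun h => lt_of_le_of_ne h hne⟩
    rw [sat_pow, h8, ← hchi, hkey]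
    unfold tau
    rw [if_neg (by omega), if_pos (by omega), Nat.add_sub_cancel, Bool.not_eq_true',
      decide_eq_false_iff_not]
  cases s
  · have hs' : DD P a' b' c' d' e' = DD P a b c d e := hs
    rw [hs'] at hne t1 t2
    exact ⟨_, _, h, hne, t1, t2⟩
  · have hs' : DD P a' b' c' d' e' = -DD P a b c d e := by
      have : -DD P a' b' c' d' e' = DD P a b c d e := hs
      rw [← this, neg_neg]
    rw [hs'] at hne t1 t2
    refine ⟨_, _, h, neg_ne_zero.1 hne, ?_, ?_⟩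
    · rw [t2, neg_lt_zero]
    · rw [t1, neg_pos]

/-! ## Clauses -/

/-- bit `j` of `p` -/
def bt (p j : ℕ) : Bool := Nat.beq (Nat.land (Nat.shiftRight p j) (nat_lit 1)) (nat_lit 1)

/-- bit `1`: the determinant is assumed positive; the literal of the clause is its negation -/
def selm (b : Bool) (m n : ℕ) : ℕ := Bool.rec m n b

theorem selm_false {τ : ℕ → Bool} {D : ℝ} {m n : ℕ} (h : MP τ D m n) {b : Bool}
    (hs : ¬ Sat τ (selm b m n)) : bif b then 0 < D else D < 0 := by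
  cases b
  · change ¬ Sat τ m at hs
    rw [h.pos, not_lt] at hs
    exact lt_of_le_of_ne hs h.ne
  · change ¬ Sat τ n at hs
    rw [h.neg, not_lt] at hs
    exact lt_of_le_of_ne hs (Ne.symm h.ne)

/-- insertion of the clauses of the patterns `ps` -/
def insP (v : ℕ → Bool) (cl : ℕ → ℕ) (ps : List ℕ) (cont : Tr → ℕ → Bool) : Tr → ℕ → Bool :=
  List.rec (motive := fun _ => Tr → ℕ → Bool) cont
    (fun p _ ih t k => aa (v p) (frc (cl p) fun c => insK c t k fun t' =>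
      frc (Nat.succ k) fun k' => ih t' k')) ps

theorem insP_cons (v : ℕ → Bool) (cl : ℕ → ℕ) (p : ℕ) (ps : List ℕ) (cont : Tr → ℕ → Bool)
    (t : Tr) (k : ℕ) : insP v cl (p :: ps) cont t k =
      aa (v p) (frc (cl p) fun c => insK c t k fun t' => frc (Nat.succ k) fun k' =>
        insP v cl ps cont t' k') := rfl

theorem insP_sound {τ : ℕ → Bool} {v : ℕ → Bool} {cl : ℕ → ℕ}
    (hv : ∀ p, v p = true → Sat τ (cl p)) {cont : Tr → ℕ → Bool} :
    ∀ (ps : List ℕ) (t : Tr) (k : ℕ), Ok τ t → insP v cl ps cont t k = true →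
      ∃ t' k', Ok τ t' ∧ cont t' k' = true
  | [], t, k, ht, h => ⟨t, k, ht, h⟩
  | p :: ps, t, k, ht, h => by
    rw [insP_cons, aa_eq, Bool.and_eq_true, frc_eq, insK_eq, frc_eq] at h
    exact insP_sound hv ps _ _ (ins_ok (hv p h.1) t ht k) h.2

/-- valid patterns of a three-term relation -/
def vG (p : ℕ) : Bool :=
  aa (xr (xr (bt p (nat_lit 0)) (bt p (nat_lit 1))) (xr (bt p (nat_lit 2)) (bt p (nat_lit 3))))
    (nn (xr (xr (bt p (nat_lit 0)) (bt p (nat_lit 1))) (xr (bt p (nat_lit 4)) (bt p (nat_lit 5)))))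

/-- clause of a three-term relation -/
def cG (m0 n0 m1 n1 m2 n2 m3 n3 m4 n4 m5 n5 p : ℕ) : ℕ :=
  Nat.lor (selm (bt p (nat_lit 0)) m0 n0) (Nat.lor (selm (bt p (nat_lit 1)) m1 n1)
    (Nat.lor (selm (bt p (nat_lit 2)) m2 n2) (Nat.lor (selm (bt p (nat_lit 3)) m3 n3)
      (Nat.lor (selm (bt p (nat_lit 4)) m4 n4) (selm (bt p (nat_lit 5)) m5 n5)))))

theorem prod_sign {D E : ℝ} {b c : Bool} (h1 : bif b then 0 < D else D < 0)
    (h2 : bif c then 0 < E else E < 0) : bif xr b c then D * E < 0 else 0 < D * E := by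
  cases b <;> cases c
  · exact mul_pos_of_neg_of_neg h1 h2
  · exact mul_neg_of_neg_of_pos h1 h2
  · exact mul_neg_of_pos_of_neg h1 h2
  · exact mul_pos h1 h2

theorem cG_sat {τ : ℕ → Bool} {D0 D1 D2 D3 D4 D5 : ℝ} {m0 n0 m1 n1 m2 n2 m3 n3 m4 n4 m5 n5 : ℕ}
    (h0 : MP τ D0 m0 n0) (h1 : MP τ D1 m1 n1) (h2 : MP τ D2 m2 n2) (h3 : MP τ D3 m3 n3)
    (h4 : MP τ D4 m4 n4) (h5 : MP τ D5 m5 n5) (hgp : D0 * D1 - D2 * D3 + D4 * D5 = 0) (p : ℕ)
    (hp : vG p = true) : Sat τ (cG m0 n0 m1 n1 m2 n2 m3 n3 m4 n4 m5 n5 p) := by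
  by_contra hc
  unfold cG at hc
  simp only [sat_or, not_or] at hc
  obtain ⟨c0, c1, c2, c3, c4, c5⟩ := hc
  have p1 := prod_sign (selm_false h0 c0) (selm_false h1 c1)
  have p2 := prod_sign (selm_false h2 c2) (selm_false h3 c3)
  have p3 := prod_sign (selm_false h4 c4) (selm_false h5 c5)
  unfold vG at hp
  generalize xr (bt p (nat_lit 0)) (bt p (nat_lit 1)) = x at hp p1
  generalize xr (bt p (nat_lit 2)) (bt p (nat_lit 3)) = y at hp p2
  generalize xr (bt p (nat_lit 4)) (bt p (nat_lit 5)) = z at hp p3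
  cases x <;> cases y <;> cases z <;> first
    | exact absurd hp (by decide)
    | (simp only [cond_false, cond_true] at p1 p2 p3
       linarith)

/-- valid patterns of an edge -/
def vE (p : ℕ) : Bool := oo (Nat.beq p (nat_lit 5)) (Nat.beq p (nat_lit 10))

def cE (m0 n0 m1 n1 m2 n2 m3 n3 p : ℕ) : ℕ :=
  Nat.lor (selm (bt p (nat_lit 0)) m0 n0) (Nat.lor (selm (bt p (nat_lit 1)) m1 n1)
    (Nat.lor (selm (bt p (nat_lit 2)) m2 n2) (selm (bt p (nat_lit 3)) m3 n3)))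

theorem cE_sat {τ : ℕ → Bool} {P : El 3 → R5} {x y a b c d : ℕ} {m0 n0 m1 n1 m2 n2 m3 n3 : ℕ}
    (h0 : MP τ (DD P x y b c d) m0 n0) (h1 : MP τ (DD P x y a c d) m1 n1)
    (h2 : MP τ (DD P x y a b d) m2 n2) (h3 : MP τ (DD P x y a b c) m3 n3)
    (hpos : ¬ Pos4 (P (lab x)) (P (lab y)) (P (lab a)) (P (lab b)) (P (lab c)) (P (lab d)))
    (p : ℕ) (hp : vE p = true) : Sat τ (cE m0 n0 m1 n1 m2 n2 m3 n3 p) := by
  by_contra hc
  unfold cE at hc
  simp only [sat_or, not_or] at hc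
  obtain ⟨c0, c1, c2, c3⟩ := hc
  have q0 := selm_false h0 c0
  have q1 := selm_false h1 c1
  have q2 := selm_false h2 c2
  have q3 := selm_false h3 c3
  apply hpos
  unfold vE at hp
  rw [oo_eq, Bool.or_eq_true] at hp
  rcases hp with hp | hp
  · have e : p = 5 := Nat.eq_of_beq_eq_true hp
    subst e
    exact Or.inl ⟨q0, q1, q2, q3⟩
  · have e : p = 10 := Nat.eq_of_beq_eq_true hp
    subst e
    exact Or.inr ⟨q0, q1, q2, q3⟩

/-- valid patterns of a triangle -/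
def vT (p : ℕ) : Bool := oo (Nat.beq p (nat_lit 5)) (Nat.beq p (nat_lit 2))

def cT (m0 n0 m1 n1 m2 n2 p : ℕ) : ℕ :=
  Nat.lor (selm (bt p (nat_lit 0)) m0 n0) (Nat.lor (selm (bt p (nat_lit 1)) m1 n1)
    (selm (bt p (nat_lit 2)) m2 n2))

theorem cT_sat {τ : ℕ → Bool} {P : El 3 → R5} {x y z a b c : ℕ} {m0 n0 m1 n1 m2 n2 : ℕ}
    (h0 : MP τ (DD P x y z b c) m0 n0) (h1 : MP τ (DD P x y z a c) m1 n1)
    (h2 : MP τ (DD P x y z a b) m2 n2)
    (hpos : ¬ Pos3 (P (lab x)) (P (lab y)) (P (lab z)) (P (lab a)) (P (lab b)) (P (lab c)))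
    (p : ℕ) (hp : vT p = true) : Sat τ (cT m0 n0 m1 n1 m2 n2 p) := by
  by_contra hc
  unfold cT at hc
  simp only [sat_or, not_or] at hc
  obtain ⟨c0, c1, c2⟩ := hc
  have q0 := selm_false h0 c0
  have q1 := selm_false h1 c1
  have q2 := selm_false h2 c2
  apply hpos
  unfold vT at hp
  rw [oo_eq, Bool.or_eq_true] at hp
  rcases hp with hp | hp
  · have e : p = 5 := Nat.eq_of_beq_eq_true hp
    subst e
    exact Or.inl ⟨q0, q1, q2⟩
  · have e : p = 2 := Nat.eq_of_beq_eq_true hp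
    subst e
    exact Or.inr ⟨q0, q1, q2⟩

/-- valid patterns of an equality -/
def vC (p : ℕ) : Bool := oo (Nat.beq p (nat_lit 1)) (Nat.beq p (nat_lit 2))

def cC (m0 n0 m1 n1 p : ℕ) : ℕ :=
  Nat.lor (selm (bt p (nat_lit 0)) m0 n0) (selm (bt p (nat_lit 1)) m1 n1)

theorem cC_sat {τ : ℕ → Bool} {D E : ℝ} {m0 n0 m1 n1 : ℕ}
    (h0 : MP τ D m0 n0) (h1 : MP τ E m1 n1) (hpos : 0 < D * E)
    (p : ℕ) (hp : vC p = true) : Sat τ (cC m0 n0 m1 n1 p) := by
  by_contra hc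
  unfold cC at hc
  simp only [sat_or, not_or] at hc
  obtain ⟨c0, c1⟩ := hc
  have q0 := selm_false h0 c0
  have q1 := selm_false h1 c1
  unfold vC at hp
  rw [oo_eq, Bool.or_eq_true] at hp
  rcases hp with hp | hp
  · have e : p = 1 := Nat.eq_of_beq_eq_true hp
    subst e
    exact absurd (mul_neg_of_pos_of_neg (a := D) (b := E) q0 q1) (not_lt.2 hpos.le)
  · have e : p = 2 := Nat.eq_of_beq_eq_true hp
    subst e
    exact absurd (mul_neg_of_neg_of_pos (a := D) (b := E) q0 q1) (not_lt.2 hpos.le)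

end

end Pool.Agent.F32.Sem
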