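import Pool.Agent.F32.Sem2

/-!
# F32: semantic layer of the certificate, part 3: relations (helper46)
-/

set_option autoImplicit false

namespace Pool.Agent.F32.Sem

open Circ Rup

noncomputable section

/-! ## Tests on label numbers -/

def isX (n : ℕ) : Bool := Nat.ble (Nat.succ n) (nat_lit 9)
def isC (n : ℕ) : Bool := aa (Nat.ble (nat_lit 9) n) (Nat.ble (Nat.succ n) (nat_lit 12))
def isY (n : ℕ) : Bool := aa (Nat.ble (nat_lit 12) n) (Nat.ble (Nat.succ n) (nat_lit 21))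
/-- row of an `X` -/
def rw9 (n : ℕ) : ℕ := Nat.div n (nat_lit 3)
/-- index of the point of a `Y` -/
def ox (n : ℕ) : ℕ := Nat.sub n (nat_lit 12)

theorem isX_iff {n : ℕ} : isX n = true ↔ n < 9 := by
  unfold isX
  rw [Nat.ble_eq]
  exact Iff.rfl
theorem isC_iff {n : ℕ} : isC n = true ↔ 9 ≤ n ∧ n < 12 := by
  unfold isC
  rw [aa_eq, Bool.and_eq_true, Nat.ble_eq, Nat.ble_eq]
  exact Iff.rfl
theorem isY_iff {n : ℕ} : isY n = true ↔ 12 ≤ n ∧ n < 21 := by
  unfold isY
  rw [aa_eq, Bool.and_eq_true, Nat.ble_eq, Nat.ble_eq]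
  exact Iff.rfl

theorem lab_X {n : ℕ} (h : n < 9) : lab n = .X ⟨n / 3, by omega⟩ ⟨n % 3, by omega⟩ := by
  unfold lab
  rw [if_pos h]
  congr 1
  exact Fin.ext (by show n / 3 % 3 = n / 3; omega)

theorem lab_C {n : ℕ} (h : 9 ≤ n ∧ n < 12) : lab n = .C ⟨n - 9, by omega⟩ := by
  unfold lab
  rw [if_neg (by omega), if_pos h.2]
  congr 1
  exact Fin.ext (by show (n - 9) % 3 = n - 9; omega)

theorem lab_Y {n : ℕ} (h : 12 ≤ n ∧ n < 21) :
    lab n = .Y ⟨(n - 12) / 3, by omega⟩ ⟨(n - 12) % 3, by omega⟩ := by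
  unfold lab
  rw [if_neg (by omega), if_neg (by omega), if_pos h.2]
  congr 1
  exact Fin.ext (by show (n - 12) / 3 % 3 = (n - 12) / 3; omega)

theorem lab_W : lab 21 = .W := by
  unfold lab
  rw [if_neg (by omega), if_neg (by omega), if_neg (by omega)]

/-- mask of six labels -/
def m6 (x y a b c d : ℕ) : ℕ :=
  Nat.lor (Nat.shiftLeft (nat_lit 1) x) (Nat.lor (Nat.shiftLeft (nat_lit 1) y)
    (Nat.lor (Nat.shiftLeft (nat_lit 1) a) (Nat.lor (Nat.shiftLeft (nat_lit 1) b)
      (Nat.lor (Nat.shiftLeft (nat_lit 1) c) (Nat.shiftLeft (nat_lit 1) d)))))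

/-- mask of the related pairs -/
def z6 (m : ℕ) : ℕ := Nat.land (Nat.land m (Nat.shiftRight m (nat_lit 12))) (nat_lit 511)

/-- bounded law -/
def bddN (x y a b c d : ℕ) : Bool :=
  frc (m6 x y a b c d) fun m => frc (z6 m) fun z =>
    Bool.rec (Nat.beq (Nat.land z (Nat.sub z (nat_lit 1))) (nat_lit 0)) (Nat.beq z (nat_lit 0))
      (bt m (nat_lit 10))

/-- the labels of a set -/
def S6 (x y a b c d : ℕ) : Finset (El 3) := {lab x, lab y, lab a, lab b, lab c, lab d}

theorem m6_bit {x y a b c d n : ℕ} : Nat.testBit (m6 x y a b c d) n = true ↔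
    n = x ∨ n = y ∨ n = a ∨ n = b ∨ n = c ∨ n = d := by
  have e : ∀ i : ℕ, Nat.testBit (Nat.shiftLeft (nat_lit 1) i) n = true ↔ n = i := by
    intro i
    have h1 : Nat.shiftLeft (nat_lit 1) i = 2 ^ i := by
      change 1 <<< i = 2 ^ i
      rw [Nat.shiftLeft_eq, one_mul]
    rw [h1, Nat.testBit_two_pow, decide_eq_true_iff]
    exact eq_comm
  unfold m6
  change Nat.testBit (Nat.shiftLeft (nat_lit 1) x ||| (Nat.shiftLeft (nat_lit 1) y |||
    (Nat.shiftLeft (nat_lit 1) a ||| (Nat.shiftLeft (nat_lit 1) b |||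
      (Nat.shiftLeft (nat_lit 1) c ||| Nat.shiftLeft (nat_lit 1) d))))) n = true ↔ _
  simp only [Nat.testBit_or, Bool.or_eq_true, e]

theorem mem_S6 {x y a b c d n : ℕ} (hx : x < 22) (hy : y < 22) (ha : a < 22) (hb : b < 22)
    (hc : c < 22) (hd : d < 22) (hn : n < 22) :
    lab n ∈ S6 x y a b c d ↔ Nat.testBit (m6 x y a b c d) n = true := by
  have e : ∀ i : ℕ, i < 22 → (lab n = lab i ↔ n = i) := fun i hi =>
    ⟨fun h => lab_inj hn hi h, fun h => by rw [h]⟩
  rw [m6_bit]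
  unfold S6
  simp only [Finset.mem_insert, Finset.mem_singleton, e x hx, e y hy, e a ha, e b hb, e c hc,
    e d hd]

/-- number of a pair -/
def ph (p : Fin 3 × Fin 3) : ℕ := 3 * p.1.1 + p.2.1

theorem ph_lt (p : Fin 3 × Fin 3) : ph p < 9 := by
  have h1 := p.1.2
  have h2 := p.2.2
  unfold ph
  omega

theorem ph_inj {p q : Fin 3 × Fin 3} (h : ph p = ph q) : p = q := by
  have key : ∀ p q : Fin 3 × Fin 3, ph p = ph q → p = q := by decide
  exact key p q h

theorem ph_X (p : Fin 3 × Fin 3) : El.X p.1 p.2 = lab (ph p) := by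
  have key : ∀ p : Fin 3 × Fin 3, El.X p.1 p.2 = lab (ph p) := by decide
  exact key p

theorem ph_Y (p : Fin 3 × Fin 3) : El.Y p.1 p.2 = lab (12 + ph p) := by
  have key : ∀ p : Fin 3 × Fin 3, El.Y p.1 p.2 = lab (12 + ph p) := by decide
  exact key p

theorem lab_10 : El.C 1 = lab 10 := by decide

theorem bt_eq (p j : ℕ) : bt p j = Nat.testBit p j := by
  unfold bt
  change Nat.beq ((p >>> j) &&& 1) 1 = _
  rw [Nat.and_one_is_mod]
  have h := Nat.testBit_eq_decide_div_mod_eq (x := p) (i := j)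
  rw [h, Nat.shiftRight_eq_div_pow]
  cases hb : Nat.beq (p / 2 ^ j % 2) 1
  · symm
    rw [decide_eq_false_iff_not]
    intro h2
    rw [h2] at hb
    exact absurd hb (by decide)
  · symm
    rw [decide_eq_true_iff]
    exact Nat.eq_of_beq_eq_true hb

theorem bdd_of {x y a b c d : ℕ} (hx : x < 22) (hy : y < 22) (ha : a < 22) (hb : b < 22)
    (hc : c < 22) (hd : d < 22) (h : bddN x y a b c d = true) : Bdd 1 (S6 x y a b c d) := by
  have hm : ∀ n, n < 22 → (lab n ∈ S6 x y a b c d ↔ Nat.testBit (m6 x y a b c d) n = true) :=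
    fun n hn => mem_S6 hx hy ha hb hc hd hn
  unfold bddN at h
  rw [frc_eq, frc_eq, bt_eq] at h
  generalize m6 x y a b c d = m at h hm
  set F : Finset (Fin 3 × Fin 3) := (Finset.univ : Finset (Fin 3 × Fin 3)).filter fun p =>
    El.X p.1 p.2 ∈ S6 x y a b c d ∧ El.Y p.1 p.2 ∈ S6 x y a b c d with hF
  have hz : ∀ p ∈ F, Nat.testBit (z6 m) (ph p) = true := by
    intro p hp
    have h9 := ph_lt p
    rw [hF, Finset.mem_filter, ph_X, ph_Y, hm _ (by omega), hm _ (by omega)] at hp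
    obtain ⟨-, h1, h2⟩ := hp
    unfold z6
    change Nat.testBit ((m &&& (m >>> 12)) &&& 511) (ph p) = true
    rw [Nat.testBit_and, Nat.testBit_and, Nat.testBit_shiftRight, h1, h2, Bool.true_and,
      Bool.true_and]
    have key : ∀ i : Fin 9, Nat.testBit 511 i.1 = true := by decide
    exact key ⟨ph p, h9⟩
  unfold Bdd
  change F.card + _ ≤ 1
  rw [lab_10]
  by_cases h10 : Nat.testBit m 10 = true
  · rw [h10] at h
    have hz0 : z6 m = 0 := Nat.eq_of_beq_eq_true h
    have hF0 : F = ∅ := by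
      rw [Finset.eq_empty_iff_forall_notMem]
      intro p hp
      have := hz p hp
      rw [hz0, Nat.zero_testBit] at this
      exact Bool.false_ne_true this
    rw [hF0, Finset.card_empty]
    split_ifs <;> omega
  · have h10' : Nat.testBit m 10 = false := by
      rw [← Bool.not_eq_true]
      exact h10
    rw [h10'] at h
    have hnm : lab 10 ∉ S6 x y a b c d := by
      rw [hm 10 (by omega)]
      exact h10
    rw [if_neg hnm, add_zero]
    by_cases hz0 : z6 m = 0
    · have hF0 : F = ∅ := by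
        rw [Finset.eq_empty_iff_forall_notMem]
        intro p hp
        have := hz p hp
        rw [hz0, Nat.zero_testBit] at this
        exact Bool.false_ne_true this
      rw [hF0, Finset.card_empty]
      omega
    · obtain ⟨i, hi⟩ := single hz0 (Nat.eq_of_beq_eq_true h)
      rw [Finset.card_le_one]
      intro p hp q hq
      have h1 := hz p hp
      have h2 := hz q hq
      rw [hi, Nat.testBit_two_pow] at h1 h2
      exact ph_inj ((of_decide_eq_true h1).symm.trans (of_decide_eq_true h2))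

/-- the pair `x, y` is an edge without the positive circuit `a, b, c, d` -/
def edgeOK (x y a b c d : ℕ) : Bool :=
  oo (aa (isX x) (isC y))
    (oo (aa (isX x) (Nat.beq y (Nat.add x (nat_lit 12))))
      (oo (aa (Nat.beq x (nat_lit 10)) (isY y))
        (aa (isX x) (aa (isY y) (aa (nn (Nat.beq (rw9 x) (rw9 (ox y))))
          (aa (Nat.ble (Nat.succ a) (nat_lit 22)) (aa (Nat.ble (Nat.succ b) (nat_lit 22))
            (aa (Nat.ble (Nat.succ c) (nat_lit 22)) (aa (Nat.ble (Nat.succ d) (nat_lit 22))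
              (bddN x y a b c d))))))))))

theorem DD_ne_lab {P : El 3 → R5} {a b c d e : ℕ} (h : DD P a b c d e ≠ 0) :
    lab a ≠ lab b ∧ lab a ≠ lab c ∧ lab a ≠ lab d ∧ lab a ≠ lab e ∧ lab b ≠ lab c ∧
      lab b ≠ lab d ∧ lab b ≠ lab e ∧ lab c ≠ lab d ∧ lab c ≠ lab e ∧ lab d ≠ lab e := by
  refine ⟨?_, ?_, ?_, ?_, ?_, ?_, ?_, ?_, ?_, ?_⟩ <;> intro he <;> apply h <;> unfold DD D5 <;>
    rw [he]
  · exact Matrix.det_zero_of_row_eq (i := 0) (j := 1) (by decide) rfl
  · exact Matrix.det_zero_of_row_eq (i := 0) (j := 2) (by decide) rfl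
  · exact Matrix.det_zero_of_row_eq (i := 0) (j := 3) (by decide) rfl
  · exact Matrix.det_zero_of_row_eq (i := 0) (j := 4) (by decide) rfl
  · exact Matrix.det_zero_of_row_eq (i := 1) (j := 2) (by decide) rfl
  · exact Matrix.det_zero_of_row_eq (i := 1) (j := 3) (by decide) rfl
  · exact Matrix.det_zero_of_row_eq (i := 1) (j := 4) (by decide) rfl
  · exact Matrix.det_zero_of_row_eq (i := 2) (j := 3) (by decide) rfl
  · exact Matrix.det_zero_of_row_eq (i := 2) (j := 4) (by decide) rfl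
  · exact Matrix.det_zero_of_row_eq (i := 3) (j := 4) (by decide) rfl

theorem edgeOK_sound {P : El 3 → R5} (hP : Pat P) {x y a b c d : ℕ}
    (h : edgeOK x y a b c d = true) (d0 : DD P x y b c d ≠ 0) (d1 : DD P x y a c d ≠ 0)
    (d2 : DD P x y a b d ≠ 0) :
    ¬ Pos4 (P (lab x)) (P (lab y)) (P (lab a)) (P (lab b)) (P (lab c)) (P (lab d)) := by
  unfold edgeOK at h
  simp only [oo_eq, aa_eq, nn_eq, Bool.or_eq_true, Bool.and_eq_true, Bool.not_eq_true',
    Nat.ble_eq] at h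
  rcases h with ⟨h1, h2⟩ | ⟨h1, h2⟩ | ⟨h1, h2⟩ | ⟨h1, h2, h3, h4, h5, h6, h7, h8⟩
  · rw [lab_X (isX_iff.1 h1), lab_C (isC_iff.1 h2)]
    exact hP.exc _ _ _ _ _ _ _
  · have hx := isX_iff.1 h1
    have hy : y = x + 12 := Nat.eq_of_beq_eq_true h2
    have e : lab y = .Y ⟨x / 3, by omega⟩ ⟨x % 3, by omega⟩ := by
      have hy2 : 12 ≤ y ∧ y < 21 := by omega
      rw [lab_Y hy2]
      have e1 : y - 12 = x := by omega
      congr 1
      · exact Fin.ext (by show (y - 12) / 3 = x / 3; rw [e1])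
      · exact Fin.ext (by show (y - 12) % 3 = x % 3; rw [e1])
    rw [lab_X hx, e]
    exact hP.exy _ _ _ _ _ _
  · have hx : x = 10 := Nat.eq_of_beq_eq_true h1
    rw [hx, ← lab_10, lab_Y (isY_iff.1 h2)]
    exact hP.ecy _ _ _ _ _ _
  · have hx := isX_iff.1 h1
    have hy := isY_iff.1 h2
    obtain ⟨n1, n2, n3, n4, n5, n6, n7, n8, n9, n10⟩ := DD_ne_lab d0
    obtain ⟨o1, o2, o3, o4, o5, o6, o7, o8, o9, o10⟩ := DD_ne_lab d1
    obtain ⟨p1, p2, p3, p4, p5, p6, p7, p8, p9, p10⟩ := DD_ne_lab d2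
    have hcard : (S6 x y a b c d).card = 6 := by
      unfold S6
      rw [Finset.card_insert_of_notMem, Finset.card_insert_of_notMem,
        Finset.card_insert_of_notMem, Finset.card_insert_of_notMem,
        Finset.card_insert_of_notMem, Finset.card_singleton]
      · simpa using n10
      · simp only [Finset.mem_insert, Finset.mem_singleton, not_or]
        exact ⟨n8, n9⟩
      · simp only [Finset.mem_insert, Finset.mem_singleton, not_or]
        exact ⟨p8, o8, o9⟩
      · simp only [Finset.mem_insert, Finset.mem_singleton, not_or]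
        exact ⟨o5, n5, n6, n7⟩
      · simp only [Finset.mem_insert, Finset.mem_singleton, not_or]
        exact ⟨n1, o2, n2, n3, n4⟩
    have hb : Bdd 1 (S6 x y a b c d) := bdd_of (by omega) (by omega) h4 h5 h6 h7 h8
    have hr : (⟨x / 3, by omega⟩ : Fin 3) ≠ ⟨(y - 12) / 3, by omega⟩ := by
      intro he
      have h9 : x / 3 = (y - 12) / 3 := congrArg Fin.val he
      have h10 : Nat.beq (rw9 x) (rw9 (ox y)) = true := by
        change Nat.beq (x / 3) ((y - 12) / 3) = true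
        rw [h9]
        exact Nat.beq_refl _
      rw [h10] at h3
      exact Bool.noConfusion h3
    unfold S6 at hcard hb
    rw [lab_X hx, lab_Y hy] at hcard hb ⊢
    exact hP.es _ _ _ _ hr _ _ _ _ hcard hb

/-- triangle -/
def triOK (x y z : ℕ) : Bool :=
  aa (isX x) (aa (Nat.beq y (nat_lit 10)) (Nat.beq z (Nat.add x (nat_lit 12))))

theorem triOK_sound {P : El 3 → R5} (hP : Pat P) {x y z : ℕ} (a b c : ℕ)
    (h : triOK x y z = true) :
    ¬ Pos3 (P (lab x)) (P (lab y)) (P (lab z)) (P (lab a)) (P (lab b)) (P (lab c)) := by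
  unfold triOK at h
  simp only [aa_eq, Bool.and_eq_true] at h
  obtain ⟨h1, h2, h3⟩ := h
  have hx := isX_iff.1 h1
  have hy : y = 10 := Nat.eq_of_beq_eq_true h2
  have hz : z = x + 12 := Nat.eq_of_beq_eq_true h3
  have e : lab z = .Y ⟨x / 3, by omega⟩ ⟨x % 3, by omega⟩ := by
    have hz2 : 12 ≤ z ∧ z < 21 := by omega
    rw [lab_Y hz2]
    have e1 : z - 12 = x := by omega
    congr 1
    · exact Fin.ext (by show (z - 12) / 3 = x / 3; rw [e1])
    · exact Fin.ext (by show (z - 12) % 3 = x % 3; rw [e1])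
  rw [lab_X hx, hy, ← lab_10, e]
  exact hP.tri _ _ _ _ _

/-- `a`, `b`, `c` are `X`, `d` is `X` or a `Y` not related to them -/
def clA (a b c d : ℕ) : Bool :=
  oo (isX d) (aa (isY d) (aa (nn (Nat.beq a (ox d))) (aa (nn (Nat.beq b (ox d)))
    (nn (Nat.beq c (ox d))))))

def clB (p c d : ℕ) : Bool :=
  aa (isX c) (aa (isX d) (aa (nn (Nat.beq (rw9 c) (rw9 p))) (nn (Nat.beq (rw9 d) (rw9 p)))))

def clC (p c d : ℕ) : Bool :=
  aa (isX c) (aa (isY d) (aa (nn (Nat.beq (rw9 c) (rw9 p)))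
    (aa (nn (Nat.beq (rw9 (ox d)) (rw9 p))) (nn (Nat.beq (rw9 c) (rw9 (ox d)))))))

def clD (p c d : ℕ) : Bool :=
  aa (isY c) (aa (isY d) (aa (nn (Nat.beq (rw9 (ox c)) (rw9 p)))
    (aa (nn (Nat.beq (rw9 (ox d)) (rw9 p))) (nn (Nat.beq (rw9 (ox c)) (rw9 (ox d)))))))

/-- closeness -/
def closeOK (a b c d p q : ℕ) : Bool :=
  oo (aa (isC p) (aa (isC q) (aa (isX a) (aa (isX b) (aa (isX c) (clA a b c d))))))
    (aa (Nat.beq a (nat_lit 21)) (aa (isY b) (aa (isX p) (aa (isX q)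
      (aa (Nat.beq (rw9 p) (rw9 (ox b))) (aa (Nat.beq (rw9 q) (rw9 (ox b)))
        (oo (clB p c d) (oo (clC p c d) (clD p c d)))))))))

theorem beq_false_ne {a b : ℕ} (h : Nat.beq a b = false) : a ≠ b := by
  rintro rfl
  rw [Nat.beq_refl] at h
  exact Bool.noConfusion h

theorem closeOK_sound {P : El 3 → R5} (hP : Pat P) {a b c d p q : ℕ}
    (h : closeOK a b c d p q = true) (h0 : DD P a b c d p ≠ 0) :
    0 < DD P a b c d p * DD P a b c d q := by
  obtain ⟨n1, n2, n3, n4, n5, n6, n7, n8, n9, n10⟩ := DD_ne_lab h0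
  unfold closeOK clA clB clC clD at h
  simp only [oo_eq, aa_eq, nn_eq, Bool.or_eq_true, Bool.and_eq_true, Bool.not_eq_true',
    isX_iff, isC_iff, isY_iff] at h
  unfold DD
  rcases h with ⟨hp, hq, ha, hb, hc, h⟩ | ⟨ha, hb, hp, hq, hr, hs, h⟩
  · have eab : ((⟨a / 3, by omega⟩, ⟨a % 3, by omega⟩) : Fin 3 × Fin 3) ≠
        (⟨b / 3, by omega⟩, ⟨b % 3, by omega⟩) := by
      intro he
      apply n1
      rw [lab_X ha, lab_X hb]
      rw [Prod.mk.injEq] at he
      rw [he.1, he.2]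
    have eac : ((⟨a / 3, by omega⟩, ⟨a % 3, by omega⟩) : Fin 3 × Fin 3) ≠
        (⟨c / 3, by omega⟩, ⟨c % 3, by omega⟩) := by
      intro he
      apply n2
      rw [lab_X ha, lab_X hc]
      rw [Prod.mk.injEq] at he
      rw [he.1, he.2]
    have ebc : ((⟨b / 3, by omega⟩, ⟨b % 3, by omega⟩) : Fin 3 × Fin 3) ≠
        (⟨c / 3, by omega⟩, ⟨c % 3, by omega⟩) := by
      intro he
      apply n5
      rw [lab_X hb, lab_X hc]
      rw [Prod.mk.injEq] at he
      rw [he.1, he.2]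
    rcases h with hd | ⟨hd, h1, h2, h3⟩
    · have ead : ((⟨a / 3, by omega⟩, ⟨a % 3, by omega⟩) : Fin 3 × Fin 3) ≠
          (⟨d / 3, by omega⟩, ⟨d % 3, by omega⟩) := by
        intro he
        apply n3
        rw [lab_X ha, lab_X hd]
        rw [Prod.mk.injEq] at he
        rw [he.1, he.2]
      have ebd : ((⟨b / 3, by omega⟩, ⟨b % 3, by omega⟩) : Fin 3 × Fin 3) ≠
          (⟨d / 3, by omega⟩, ⟨d % 3, by omega⟩) := by
        intro he
        apply n6
        rw [lab_X hb, lab_X hd]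
        rw [Prod.mk.injEq] at he
        rw [he.1, he.2]
      have ecd : ((⟨c / 3, by omega⟩, ⟨c % 3, by omega⟩) : Fin 3 × Fin 3) ≠
          (⟨d / 3, by omega⟩, ⟨d % 3, by omega⟩) := by
        intro he
        apply n8
        rw [lab_X hc, lab_X hd]
        rw [Prod.mk.injEq] at he
        rw [he.1, he.2]
      rw [lab_X ha, lab_X hb, lab_X hc, lab_X hd, lab_C hp, lab_C hq]
      refine hP.cx (⟨a / 3, by omega⟩, ⟨a % 3, by omega⟩) (⟨b / 3, by omega⟩, ⟨b % 3, by omega⟩)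
        (⟨c / 3, by omega⟩, ⟨c % 3, by omega⟩) (⟨d / 3, by omega⟩, ⟨d % 3, by omega⟩) ?_ _ _
      simp only [List.nodup_cons, List.mem_cons, List.not_mem_nil, or_false, not_or,
        not_false_eq_true, List.nodup_nil, and_true]
      exact ⟨⟨eab, eac, ead⟩, ⟨ebc, ebd⟩, ecd⟩
    · have g1 := beq_false_ne h1
      have g2 := beq_false_ne h2
      have g3 := beq_false_ne h3
      unfold ox at g1 g2 g3
      change a ≠ d - 12 at g1
      change b ≠ d - 12 at g2
      change c ≠ d - 12 at g3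
      have ead : ((⟨a / 3, by omega⟩, ⟨a % 3, by omega⟩) : Fin 3 × Fin 3) ≠
          (⟨(d - 12) / 3, by omega⟩, ⟨(d - 12) % 3, by omega⟩) := by
        intro he
        rw [Prod.mk.injEq, Fin.mk.injEq, Fin.mk.injEq] at he
        omega
      have ebd : ((⟨b / 3, by omega⟩, ⟨b % 3, by omega⟩) : Fin 3 × Fin 3) ≠
          (⟨(d - 12) / 3, by omega⟩, ⟨(d - 12) % 3, by omega⟩) := by
        intro he
        rw [Prod.mk.injEq, Fin.mk.injEq, Fin.mk.injEq] at he
        omega
      have ecd : ((⟨c / 3, by omega⟩, ⟨c % 3, by omega⟩) : Fin 3 × Fin 3) ≠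
          (⟨(d - 12) / 3, by omega⟩, ⟨(d - 12) % 3, by omega⟩) := by
        intro he
        rw [Prod.mk.injEq, Fin.mk.injEq, Fin.mk.injEq] at he
        omega
      rw [lab_X ha, lab_X hb, lab_X hc, lab_Y hd, lab_C hp, lab_C hq]
      refine hP.cy (⟨a / 3, by omega⟩, ⟨a % 3, by omega⟩) (⟨b / 3, by omega⟩, ⟨b % 3, by omega⟩)
        (⟨c / 3, by omega⟩, ⟨c % 3, by omega⟩)
        (⟨(d - 12) / 3, by omega⟩, ⟨(d - 12) % 3, by omega⟩) ?_ _ _
      simp only [List.nodup_cons, List.mem_cons, List.not_mem_nil, or_false, not_or,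
        not_false_eq_true, List.nodup_nil, and_true]
      exact ⟨⟨eab, eac, ead⟩, ⟨ebc, ebd⟩, ecd⟩
  · have ha' : a = 21 := Nat.eq_of_beq_eq_true ha
    have hr' : p / 3 = (b - 12) / 3 := Nat.eq_of_beq_eq_true hr
    have hs' : q / 3 = (b - 12) / 3 := Nat.eq_of_beq_eq_true hs
    have hqr : lab q = .X ⟨(b - 12) / 3, by omega⟩ ⟨q % 3, by omega⟩ := by
      rw [lab_X hq]
      congr 1
      exact Fin.ext hs'
    have hpr : lab p = .X ⟨(b - 12) / 3, by omega⟩ ⟨p % 3, by omega⟩ := by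
      rw [lab_X hp]
      congr 1
      exact Fin.ext hr'
    rw [ha', lab_W, lab_Y hb, hpr, hqr]
    rcases h with ⟨hc, hd, h1, h2⟩ | ⟨hc, hd, h1, h2, h3⟩ | ⟨hc, hd, h1, h2, h3⟩
    · have g1 : c / 3 ≠ p / 3 := beq_false_ne h1
      have g2 : d / 3 ≠ p / 3 := beq_false_ne h2
      rw [lab_X hc, lab_X hd]
      refine hP.xa _ _ _ _ (⟨c / 3, by omega⟩, ⟨c % 3, by omega⟩)
        (⟨d / 3, by omega⟩, ⟨d % 3, by omega⟩) ?_ ?_ ?_
      · intro he
        exact g1 ((congrArg Fin.val he).trans hr'.symm)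
      · intro he
        exact g2 ((congrArg Fin.val he).trans hr'.symm)
      · intro he
        apply n8
        rw [lab_X hc, lab_X hd]
        rw [Prod.mk.injEq] at he
        rw [he.1, he.2]
    · have g1 : c / 3 ≠ p / 3 := beq_false_ne h1
      have g2 : (d - 12) / 3 ≠ p / 3 := beq_false_ne h2
      have g3 : c / 3 ≠ (d - 12) / 3 := beq_false_ne h3
      rw [lab_X hc, lab_Y hd]
      refine hP.xb _ _ _ _ (⟨c / 3, by omega⟩, ⟨c % 3, by omega⟩)
        (⟨(d - 12) / 3, by omega⟩, ⟨(d - 12) % 3, by omega⟩) ?_ ?_ ?_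
      · intro he
        exact g1 ((congrArg Fin.val he).trans hr'.symm)
      · intro he
        exact g2 ((congrArg Fin.val he).trans hr'.symm)
      · intro he
        exact g3 (congrArg Fin.val he)
    · have g1 : (c - 12) / 3 ≠ p / 3 := beq_false_ne h1
      have g2 : (d - 12) / 3 ≠ p / 3 := beq_false_ne h2
      have g3 : (c - 12) / 3 ≠ (d - 12) / 3 := beq_false_ne h3
      rw [lab_Y hc, lab_Y hd]
      refine hP.xc _ _ _ _ (⟨(c - 12) / 3, by omega⟩, ⟨(c - 12) % 3, by omega⟩)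
        (⟨(d - 12) / 3, by omega⟩, ⟨(d - 12) % 3, by omega⟩) ?_ ?_ ?_
      · intro he
        exact g1 ((congrArg Fin.val he).trans hr'.symm)
      · intro he
        exact g2 ((congrArg Fin.val he).trans hr'.symm)
      · intro he
        exact g3 (congrArg Fin.val he)

end

end Pool.Agent.F32.Sem
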