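import Pool.Agent.F32.Win

/-!
# F32: the choice of the sample (helper31)

`Smp.sample`: for every vector configuration there are a window `m ≤ m' ≤ G m` (one of finitely many)
and a sample `U` of size `m'` such that few pairs are edges relative to the first `m` points but not
relative to `U`, and few 6-tuples consist of an edge relative to `U` and a positive circuit.
-/

set_option autoImplicit false

namespace Pool.Agent.F32

open Finset Matrix

namespace Smp

/-- number of steps in the window at `m` -/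
noncomputable def K (dD : ℕ → ℝ) (m : ℕ) : ℕ := ⌈1 / dD m⌉₊ + 1

/-- end of the window at `m` -/
noncomputable def G (dD : ℕ → ℝ) (m : ℕ) : ℕ := m + 4 * K dD m

open Classical in
/-- pairs which are edges relative to `W` but not relative to `U` -/
noncomputable def QE {V : Type*} [Fintype V] (v : V → R5) {m m' : ℕ} (W : Fin m → V)
    (U : Fin m' → V) : Finset (V × V) :=
  univ.filter fun p => EdgeC v W p.1 p.2 ∧ ¬ EdgeC v U p.1 p.2

open Classical in
/-- edges relative to `U` with a positive circuit -/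
noncomputable def QD {V : Type*} [Fintype V] (v : V → R5) {m' : ℕ} (U : Fin m' → V) :
    Finset ((V × V) × (Fin 4 → V)) :=
  univ.filter fun p => EdgeC v U p.1.1 p.1.2 ∧
    Circ.Pos4 (v p.1.1) (v p.1.2) (v (p.2 0)) (v (p.2 1)) (v (p.2 2)) (v (p.2 3))

theorem mem_QE {V : Type*} [Fintype V] {v : V → R5} {m m' : ℕ} {W : Fin m → V}
    {U : Fin m' → V} {p : V × V} :
    p ∈ QE v W U ↔ EdgeC v W p.1 p.2 ∧ ¬ EdgeC v U p.1 p.2 := by
  unfold QE
  simp

theorem mem_QD {V : Type*} [Fintype V] {v : V → R5} {m' : ℕ} {U : Fin m' → V}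
    {p : (V × V) × (Fin 4 → V)} :
    p ∈ QD v U ↔ EdgeC v U p.1.1 p.1.2 ∧
      Circ.Pos4 (v p.1.1) (v p.1.2) (v (p.2 0)) (v (p.2 1)) (v (p.2 2)) (v (p.2 3)) := by
  unfold QD
  simp

/-- the sum over all samples of the number of lost pairs -/
theorem sum_QE {V : Type*} [Fintype V] [DecidableEq V] (v : V → R5) (m k : ℕ)
    (h0 : 0 < Fintype.card V) :
    (∑ U : Fin (m + k) → V, ((QE v (fun l => U (Fin.castAdd k l)) U).card : ℝ)) =
      (w v m - w v (m + k)) * ((Fintype.card V : ℕ) : ℝ) ^ (m + k + 2) := by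
  classical
  rw [← Win.lost_eq v m k h0]
  have h1 : (∑ U : Fin (m + k) → V, (QE v (fun l => U (Fin.castAdd k l)) U).card) =
      (univ.sigma fun U : Fin (m + k) → V => QE v (fun l => U (Fin.castAdd k l)) U).card := by
    rw [card_sigma]
  rw [← Nat.cast_sum, h1]
  congr 1
  refine card_bij (fun p _ => (p.2, Win.split p.1)) ?_ ?_ ?_
  · intro p hp
    have hp1 := mem_QE.1 (mem_sigma.1 hp).2
    have e1 : Fin.append (Win.split p.1).1 (Win.split p.1).2 = p.1 := by
      apply Win.split_inj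
      rw [Win.split_append]
    refine mem_filter.2 ⟨mem_univ _, hp1.1, ?_⟩
    show ¬ EdgeC v (Fin.append (Win.split p.1).1 (Win.split p.1).2) p.2.1 p.2.2
    rw [e1]
    exact hp1.2
  · rintro ⟨U, p⟩ _ ⟨U', q⟩ _ h
    rw [Prod.mk.injEq] at h
    obtain ⟨h1, h2⟩ := h
    have h3 := Win.split_inj h2
    subst h3
    dsimp only at h1
    rw [h1]
  · rintro ⟨p, W, U⟩ hq
    have hq1 := (mem_filter.1 hq).2
    refine ⟨⟨Fin.append W U, p⟩, mem_sigma.2 ⟨mem_univ _, mem_QE.2 ⟨?_, hq1.2⟩⟩, ?_⟩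
    · have e2 : (fun l => Fin.append W U (Fin.castAdd k l)) = W := by
        funext l
        rw [Fin.append_left]
      rw [e2]
      exact hq1.1
    · show (p, Win.split (Fin.append W U)) = (p, W, U)
      rw [Win.split_append]

/-- the sum over all samples of the number of destroyed edges -/
theorem sum_QD {V : Type*} [Fintype V] [DecidableEq V] (v : V → R5) (m : ℕ)
    (h0 : 0 < Fintype.card V) :
    (∑ U : Fin m → V, ((QD v U).card : ℝ)) ≤
      (w v m - w v (m + 4)) * ((Fintype.card V : ℕ) : ℝ) ^ (m + 6) := by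
  classical
  refine le_trans (le_of_eq ?_) (Win.destroyed v m h0)
  have h1 : (∑ U : Fin m → V, (QD v U).card) =
      (univ.sigma fun U : Fin m → V => QD v U).card := by
    rw [card_sigma]
  rw [← Nat.cast_sum, h1]
  congr 1
  refine card_bij (fun p _ => (p.2.1, p.1, p.2.2)) ?_ ?_ ?_
  · intro p hp
    exact mem_filter.2 ⟨mem_univ _, mem_QD.1 (mem_sigma.1 hp).2⟩
  · rintro ⟨U, p⟩ _ ⟨U', q⟩ _ h
    simp only [Prod.mk.injEq] at h
    obtain ⟨h1, h2, h3⟩ := h
    subst h2
    rw [Prod.ext h1 h3]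
  · rintro ⟨p, W, U⟩ hq
    exact ⟨⟨W, (p, U)⟩, mem_sigma.2 ⟨mem_univ _, mem_QD.2 (mem_filter.1 hq).2⟩, rfl⟩

/-- pigeonhole over the steps of a window -/
theorem step {f : ℕ → ℝ} (hf0 : ∀ m, 0 ≤ f m) (hf1 : ∀ m, f m ≤ 1) {dD : ℕ → ℝ}
    (hD : ∀ m, 0 < dD m) (m : ℕ) : ∃ j < K dD m, f (m + 4 * j) - f (m + 4 * j + 4) ≤ dD m := by
  by_contra hcon
  push Not at hcon
  have h1 : ∀ i ≤ K dD m, f (m + 4 * i) ≤ 1 - i * dD m := by
    intro i
    induction i with
    | zero =>
      intro _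
      simpa using hf1 m
    | succ i ih =>
      intro hi
      have h2 := ih (by omega)
      have h3 := hcon i (by omega)
      rw [show m + 4 * (i + 1) = m + 4 * i + 4 by ring]
      push_cast
      linarith
  have h2 := h1 _ le_rfl
  have h3 := hf0 (m + 4 * K dD m)
  have h4 : 1 / dD m < (K dD m : ℝ) := by
    unfold K
    have := Nat.le_ceil (1 / dD m)
    push_cast
    linarith
  rw [div_lt_iff₀ (hD m)] at h4
  linarith

/-- **the choice of the sample** -/
theorem sample {d : ℝ} (hd : 0 < d) {dD : ℕ → ℝ} (hD : ∀ m, 0 < dD m) (m0 : ℕ) {V : Type*}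
    [Fintype V] (v : V → R5) (h0 : 0 < Fintype.card V) :
    ∃ i < ⌊1 / d⌋₊ + 1, ∃ m, m = (G dD)^[i] m0 ∧ ∃ j < K dD m, ∃ U : Fin (m + 4 * j) → V,
      ((QE v (fun l => U (Fin.castAdd (4 * j) l)) U).card : ℝ) ≤
        2 * d * ((Fintype.card V : ℕ) : ℝ) ^ 2 ∧
      ((QD v U).card : ℝ) ≤ 2 * dD m * ((Fintype.card V : ℕ) : ℝ) ^ 6 := by
  classical
  obtain ⟨i, hi, h1⟩ := Win.window (Win.w_nonneg v) (Win.w_le_one v) (G dD) m0 hd
  refine ⟨i, hi, _, rfl, ?_⟩
  set m := (G dD)^[i] m0 with hm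
  obtain ⟨j, hj, h2⟩ := step (Win.w_nonneg v) (Win.w_le_one v) hD m
  refine ⟨j, hj, ?_⟩
  have hn : (0 : ℝ) < (Fintype.card V : ℕ) := by exact_mod_cast h0
  set n : ℝ := ((Fintype.card V : ℕ) : ℝ) with hn1
  have hne : (univ : Finset (Fin (m + 4 * j) → V)).Nonempty := by
    haveI : Nonempty V := Fintype.card_pos_iff.1 h0
    exact univ_nonempty
  have h3 := sum_QE v m (4 * j) h0
  have h4 := sum_QD v (m + 4 * j) h0
  have h5 : w v m - w v (m + 4 * j) ≤ d := by
    have h6 : w v (G dD m) ≤ w v (m + 4 * j) := by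
      refine Win.w_anti v ?_
      unfold G
      omega
    linarith
  have h7 := hD m
  have hsum : ∑ U : Fin (m + 4 * j) → V,
      (((QE v (fun l => U (Fin.castAdd (4 * j) l)) U).card : ℝ) / (2 * d * n ^ 2) +
        ((QD v U).card : ℝ) / (2 * dD m * n ^ 6)) ≤ ∑ U : Fin (m + 4 * j) → V, 1 := by
    rw [sum_add_distrib, ← sum_div, ← sum_div, h3]
    rw [sum_const, card_univ, Fintype.card_fun, Fintype.card_fin, nsmul_eq_mul, mul_one]
    push_cast
    rw [← hn1]
    have e1 : (w v m - w v (m + 4 * j)) * n ^ (m + 4 * j + 2) / (2 * d * n ^ 2) ≤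
        n ^ (m + 4 * j) / 2 := by
      rw [div_le_div_iff₀ (by positivity) (by norm_num)]
      have : (w v m - w v (m + 4 * j)) * n ^ (m + 4 * j + 2) ≤ d * n ^ (m + 4 * j + 2) :=
        mul_le_mul_of_nonneg_right h5 (by positivity)
      calc (w v m - w v (m + 4 * j)) * n ^ (m + 4 * j + 2) * 2
          ≤ d * n ^ (m + 4 * j + 2) * 2 := by linarith
        _ = n ^ (m + 4 * j) * (2 * d * n ^ 2) := by ring
    have e2 : (∑ U : Fin (m + 4 * j) → V, ((QD v U).card : ℝ)) / (2 * dD m * n ^ 6) ≤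
        n ^ (m + 4 * j) / 2 := by
      rw [div_le_div_iff₀ (by positivity) (by norm_num)]
      have : (w v (m + 4 * j) - w v (m + 4 * j + 4)) * n ^ (m + 4 * j + 6) ≤
          dD m * n ^ (m + 4 * j + 6) :=
        mul_le_mul_of_nonneg_right h2 (by positivity)
      calc (∑ U : Fin (m + 4 * j) → V, ((QD v U).card : ℝ)) * 2
          ≤ dD m * n ^ (m + 4 * j + 6) * 2 := by linarith
        _ = n ^ (m + 4 * j) * (2 * dD m * n ^ 6) := by ring
    linarith
  obtain ⟨U, _, hU⟩ := exists_le_of_sum_le hne hsum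
  refine ⟨U, ?_, ?_⟩
  · have h8 : 0 ≤ ((QD v U).card : ℝ) / (2 * dD m * n ^ 6) := by positivity
    have h9 : ((QE v (fun l => U (Fin.castAdd (4 * j) l)) U).card : ℝ) / (2 * d * n ^ 2) ≤ 1 := by
      linarith
    rwa [div_le_one (by positivity)] at h9
  · have h8 : 0 ≤ ((QE v (fun l => U (Fin.castAdd (4 * j) l)) U).card : ℝ) / (2 * d * n ^ 2) := by
      positivity
    have h9 : ((QD v U).card : ℝ) / (2 * dD m * n ^ 6) ≤ 1 := by linarith
    rwa [div_le_one (by positivity)] at h9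

end Smp

end Pool.Agent.F32
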