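import Pool.Agent.F32.ArrDefs
import Pool.Agent.F32.Smp

/-!
# F32: the union bound (helper40)
-/

set_option autoImplicit false

namespace Pool.Agent.F32

open Finset Matrix Circ

set_option synthInstance.maxSize 2000 in
/-- the indices of the bad events -/
inductive Evt (L : ℕ) : Type
  | cx : Fin L × Fin L → Fin L × Fin L → Fin L × Fin L → Fin L × Fin L → Fin L → Evt L
  | cy : Fin L × Fin L → Fin L × Fin L → Fin L × Fin L → Fin L × Fin L → Fin L → Fin L → Evt L
  | xa : Fin L → Fin L → Fin L → Fin L → Fin L × Fin L → Fin L × Fin L → Evt L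
  | xb : Fin L → Fin L → Fin L → Fin L → Fin L × Fin L → Fin L × Fin L → Evt L
  | xc : Fin L → Fin L → Fin L → Fin L → Fin L × Fin L → Fin L × Fin L → Evt L
  | av : Fin L → Fin L → Evt L
  | ec : Fin L → Fin L → Fin L → Evt L
  | eu : Fin L → Fin L → Fin L → Fin L → Fin L → Evt L
  | ed : Fin L → (Fin 6 → El L) → Evt L
  | ij : Fin L → El L → El L → Evt L
deriving Fintype

/-- the bad events -/
def Evt.bad {V : Type} [Fintype V] (v : V → R5) {K : BK V} {κ0 κ1 κ2 : Type} (f0 : V → κ0)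
    (f1 : V → κ1) (f2 : V → κ2) {m N : ℕ} (W : Fin m → V) (U : Fin N → V) (p : PT V) {L : ℕ} :
    Evt L → Om K L → Prop
  | .cx a b d e k, o => cc o k ∈ cutf v f2
    (cr ![v (xx o a.1 a.2), v (xx o b.1 b.2), v (xx o d.1 d.2), v (xx o e.1 e.2)])
  | .cy a b d e j k, o => [a, b, d, e].Nodup ∧ cc o j ∈ cutf v f2
    (cr ![v (xx o a.1 a.2), v (xx o b.1 b.2), v (xx o d.1 d.2), v (yy p o e.1 e.2 k)])
  | .xa r j i k a b, o => a.1 ≠ r ∧ b.1 ≠ r ∧ xx o r i ∈ cutf v f1
    (cr ![v (ww o), v (yy p o r j k), v (xx o a.1 a.2), v (xx o b.1 b.2)])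
  | .xb r j i k a b, o => a.1 ≠ r ∧ b.1 ≠ r ∧ a.1 ≠ b.1 ∧ xx o r i ∈ cutf v f1
    (cr ![v (ww o), v (yy p o r j k), v (xx o a.1 a.2), v (yy p o b.1 b.2 k)])
  | .xc r j i k a b, o => a.1 ≠ r ∧ b.1 ≠ r ∧ a.1 ≠ b.1 ∧ xx o r i ∈ cutf v f1
    (cr ![v (ww o), v (yy p o r j k), v (yy p o a.1 a.2 k), v (yy p o b.1 b.2 k)])
  | .av r i, o => ∃ t : Fin m, xx o r i = W t
  | .ec s j k, o => ∃ t : Fin 3 → Fin m, xx o s j ∈ cutf v f0
    (cr ![v (yy p o s j k), v (W (t 0)), v (W (t 1)), v (W (t 2))])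
  | .eu r i s j k, o => r ≠ s ∧ EdgeC v W (xx o r i) (yy p o s j k) ∧
    ¬ EdgeC v U (xx o r i) (yy p o s j k)
  | .ed k l, o => Function.Injective l ∧ Bdd k (univ.image l) ∧
    EdgeC v U ((arr p o).el k (l 0)) ((arr p o).el k (l 1)) ∧
    Pos4 (v ((arr p o).el k (l 0))) (v ((arr p o).el k (l 1))) (v ((arr p o).el k (l 2)))
      (v ((arr p o).el k (l 3))) (v ((arr p o).el k (l 4))) (v ((arr p o).el k (l 5)))
  | .ij k l l', o => l ≠ l' ∧ (arr p o).el k l = (arr p o).el k l'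

theorem good_of {V : Type} [Fintype V] {v : V → R5} {K : BK V} {κ0 κ1 κ2 : Type} {f0 : V → κ0}
    {f1 : V → κ1} {f2 : V → κ2} {m N : ℕ} {W : Fin m → V} {U : Fin N → V} {p : PT V} {L : ℕ}
    {o : Om K L} (ho : AllT p o) (hb : ∀ e, ¬ Evt.bad v f0 f1 f2 W U p e o) :
    Good v f0 f1 f2 W U p o where
  all := ho
  inj := by
    intro k l l' h
    by_contra hne
    exact hb (.ij k l l') ⟨hne, h⟩
  cx := fun a b d e k h => hb (.cx a b d e k) h
  cy := fun a b d e j k hn h => hb (.cy a b d e j k) ⟨hn, h⟩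
  xa := fun r j i k a b h1 h2 h => hb (.xa r j i k a b) ⟨h1, h2, h⟩
  xb := fun r j i k a b h1 h2 h3 h => hb (.xb r j i k a b) ⟨h1, h2, h3, h⟩
  xc := fun r j i k a b h1 h2 h3 h => hb (.xc r j i k a b) ⟨h1, h2, h3, h⟩
  av := fun r i t h => hb (.av r i) ⟨t, h⟩
  ec := fun s j k t h => hb (.ec s j k) ⟨t, h⟩
  eu := by
    intro r i s j k h1 h2
    by_contra h3
    exact hb (.eu r i s j k) ⟨h1, h2, h3⟩
  ed := fun k l h1 h2 h3 h4 => hb (.ed k l) ⟨h1, h2, h3, h4⟩

section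

variable {V : Type} [Fintype V] {K : BK V} {L : ℕ}

theorem nc_nonneg (P : Om K L → Prop) : 0 ≤ nc P := Nat.cast_nonneg _

theorem nc_false {P : Om K L → Prop} (h : ∀ o, ¬ P o) : nc P = 0 := by
  classical
  unfold nc
  rw [Nat.cast_eq_zero, card_eq_zero, filter_eq_empty_iff]
  exact fun o _ => h o

theorem nc_mono {P Q : Om K L → Prop} (h : ∀ o, P o → Q o) : nc P ≤ nc Q := by
  classical
  unfold nc
  exact_mod_cast card_le_card fun o ho => mem_filter.2 ⟨mem_univ _, h o (mem_filter.1 ho).2⟩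

/-- union bound -/
theorem exists_of_nc {ι : Type} [Fintype ι] (D : Om K L → Prop) (P : ι → Om K L → Prop)
    {θ τ : ℝ} (h0 : 0 < no K L) (hD : τ * no K L ≤ nc D)
    (hP : ∀ i, nc (fun o => D o ∧ P i o) ≤ θ * no K L) (hM : (Fintype.card ι : ℝ) * θ < τ) :
    ∃ o, D o ∧ ∀ i, ¬ P i o := by
  classical
  by_contra hcon
  push Not at hcon
  have h1 : (univ : Finset (Om K L)).filter D ⊆
      (univ : Finset ι).biUnion fun i => univ.filter fun o => D o ∧ P i o := by
    intro o ho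
    obtain ⟨i, hi⟩ := hcon o (mem_filter.1 ho).2
    exact mem_biUnion.2 ⟨i, mem_univ _, mem_filter.2 ⟨mem_univ _, (mem_filter.1 ho).2, hi⟩⟩
  have h2 := (card_le_card h1).trans card_biUnion_le
  have h3 : nc D ≤ ∑ i : ι, nc (fun o => D o ∧ P i o) := by
    unfold nc
    have h4 : (((univ : Finset (Om K L)).filter D).card : ℝ) ≤
        ((∑ i : ι, ((univ : Finset (Om K L)).filter fun o => D o ∧ P i o).card : ℕ) : ℝ) := by
      exact_mod_cast h2
    rw [Nat.cast_sum] at h4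
    refine (le_of_eq ?_).trans (h4.trans (le_of_eq ?_))
    · congr
    · refine sum_congr rfl fun i _ => ?_
      congr
  have h5 : ∑ i : ι, nc (fun o => D o ∧ P i o) ≤ (Fintype.card ι : ℝ) * (θ * no K L) := by
    refine (sum_le_card_nsmul _ _ _ fun i _ => hP i).trans ?_
    rw [nsmul_eq_mul, card_univ]
  have h6 : (Fintype.card ι : ℝ) * θ * no K L < τ * no K L := mul_lt_mul_of_pos_right hM h0
  linarith

end

/-- numerical hypotheses -/
structure Par {V : Type} [Fintype V] (v : V → R5) (K : BK V) {κ0 κ1 κ2 : Type} (f0 : V → κ0)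
    (f1 : V → κ1) (f2 : V → κ2) {m N : ℕ} (W : Fin m → V) (U : Fin N → V)
    (θ n A0 A1 B e0 e1 e2 d dD : ℝ) : Prop where
  hn : n = ((Fintype.card V : ℕ) : ℝ)
  n0 : 0 < n
  th : 0 < θ
  pa0 : 0 < K.a0
  pa1 : 0 < K.a1
  ps : 0 < K.s
  pb : 0 < K.b
  pt : 0 < K.t
  x : n ≤ 2 * ((K.a0 : ℝ) * K.a1 * K.s)
  c : n ≤ 2 * ((K.b : ℝ) * K.t)
  la0 : (K.a0 : ℝ) ≤ A0
  la1 : (K.a1 : ℝ) ≤ A1
  lb : (K.b : ℝ) ≤ B
  c0 : ∀ h, ((cutf v f0 h).card : ℝ) ≤ e0 * n
  c1 : ∀ h, ((cutf v f1 h).card : ℝ) ≤ e1 * n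
  c2 : ∀ h, ((cutf v f2 h).card : ℝ) ≤ e2 * n
  qe : ((Smp.QE v W U).card : ℝ) ≤ 2 * d * n ^ 2
  qd : ((Smp.QD v U).card : ℝ) ≤ 2 * dD * n ^ 6
  p0 : 4 * (m : ℝ) ^ 3 * e0 ≤ θ
  p1 : 16 * e1 * A0 ^ 3 ≤ θ
  p2 : 4 * e2 * (A0 * A1) ≤ θ
  pd : 8 * d ≤ θ
  pD : 2 * dD * (2 * (A0 * A1 + B)) ^ 6 ≤ θ
  pn : 2 * (A0 * A1 + B) * (m + 1) ≤ θ * n

theorem le_of_mul {x D B θ N : ℝ} (h : x * D ≤ N * B) (hB : B ≤ θ * D) (hD : 0 < D)
    (hN : 0 ≤ N) : x ≤ θ * N := by
  have h1 : x * D ≤ (θ * N) * D := by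
    calc x * D ≤ N * B := h
      _ ≤ N * (θ * D) := mul_le_mul_of_nonneg_left hB hN
      _ = (θ * N) * D := by ring
  exact le_of_mul_le_mul_right h1 hD

section

variable {V : Type} [Fintype V] {v : V → R5} {K : BK V} {κ0 κ1 κ2 : Type} {f0 : V → κ0}
  {f1 : V → κ1} {f2 : V → κ2} {m N : ℕ} {W : Fin m → V} {U : Fin N → V}
  {θ n A0 A1 B e0 e1 e2 d dD : ℝ} {L : ℕ}

theorem bad_le (P : Par v K f0 f1 f2 W U θ n A0 A1 B e0 e1 e2 d dD) (p : PT V)
    (hp : ∀ x c, p.tp x c → x ≠ c ∧ c ≠ p.pr x c ∧ x ≠ p.pr x c)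
    (hcy : Se_cy) (hxa : Se_xa) (hxb : Se_xb) (hxc : Se_xc) (hxy : Se_xy) (hij : Se_inj)
    (hav : Se_av) (hes : Se_es) (e : Evt L) :
    nc (fun o : Om K L => AllT p o ∧ Evt.bad v f0 f1 f2 W U p e o) ≤ θ * no K L := by
  classical
  have hno : 0 ≤ no K L := Nat.cast_nonneg _
  have ha0 : (1 : ℝ) ≤ K.a0 := by exact_mod_cast P.pa0
  have ha1 : (1 : ℝ) ≤ K.a1 := by exact_mod_cast P.pa1
  have hs : (1 : ℝ) ≤ K.s := by exact_mod_cast P.ps
  have hb : (1 : ℝ) ≤ K.b := by exact_mod_cast P.pb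
  have ht : (1 : ℝ) ≤ K.t := by exact_mod_cast P.pt
  have hA0 : 1 ≤ A0 := ha0.trans P.la0
  have hA1 : 1 ≤ A1 := ha1.trans P.la1
  have hBB : 1 ≤ B := hb.trans P.lb
  have hn0 := P.n0
  have hth := P.th
  have he : ∀ (κ : Type) (f : V → κ) (ε : ℝ), (∀ h, ((cutf v f h).card : ℝ) ≤ ε * n) → 0 ≤ ε := by
    intro κ f ε h
    by_contra h1
    push Not at h1
    have h2 : (0 : ℝ) ≤ ((cutf v f 0).card : ℝ) := Nat.cast_nonneg _
    have h3 := h 0
    have h4 : ε * n < 0 := mul_neg_of_neg_of_pos h1 hn0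
    linarith
  have he0 := he _ _ _ P.c0
  have he1 := he _ _ _ P.c1
  have he2 := he _ _ _ P.c2
  set Y : ℝ := (K.b : ℝ) * K.t with hY
  set X : ℝ := (K.a1 : ℝ) * K.s with hX
  have hY1 : 1 ≤ Y := by nlinarith
  have hX1 : 1 ≤ X := by nlinarith
  have hnY : n ≤ 2 * Y := P.c
  have hnX : n ≤ 2 * A0 * X := by
    have h1 := P.x
    have h2 : (K.a0 : ℝ) * K.a1 * K.s = K.a0 * X := by rw [hX]; ring
    have h3 : (K.a0 : ℝ) * X ≤ A0 * X := mul_le_mul_of_nonneg_right P.la0 (by linarith)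
    rw [h2] at h1
    linarith
  have hAA : 1 ≤ A0 * A1 := by nlinarith
  have hns : n ≤ 2 * (A0 * A1) * K.s := by
    have h3 : X ≤ A1 * K.s := mul_le_mul_of_nonneg_right P.la1 (by linarith)
    have h4 : 2 * A0 * X ≤ 2 * A0 * (A1 * K.s) := mul_le_mul_of_nonneg_left h3 (by linarith)
    calc n ≤ 2 * A0 * X := hnX
      _ ≤ 2 * A0 * (A1 * K.s) := h4
      _ = 2 * (A0 * A1) * K.s := by ring
  have hnt : n ≤ 2 * B * K.t := by
    have h3 : Y ≤ B * K.t := mul_le_mul_of_nonneg_right P.lb (by linarith)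
    linarith
  set C : ℝ := 2 * (A0 * A1 + B) with hC
  have hC1 : 1 ≤ C := by rw [hC]; linarith
  have hCs : n ≤ C * K.s := by
    have : 2 * (A0 * A1) * (K.s : ℝ) ≤ C * K.s :=
      mul_le_mul_of_nonneg_right (by rw [hC]; linarith) (by linarith)
    linarith
  have hCt : n ≤ C * K.t := by
    have : 2 * B * (K.t : ℝ) ≤ C * K.t :=
      mul_le_mul_of_nonneg_right (by rw [hC]; linarith) (by linarith)
    linarith
  have hC0 : 0 < C := by linarith
  have hμ0 : 0 < n / C := div_pos hn0 hC0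
  have hμs : n / C ≤ K.s := by rw [div_le_iff₀ hC0]; linarith
  have hμt : n / C ≤ K.t := by rw [div_le_iff₀ hC0]; linarith
  have hμn : n / C ≤ ((Fintype.card V : ℕ) : ℝ) := by
    rw [div_le_iff₀ hC0, ← P.hn]
    nlinarith
  have hm0 : (0 : ℝ) ≤ m := Nat.cast_nonneg _
  cases e with
  | cx a b d e k =>
    refine (nc_mono fun o ho => ho.2).trans ?_
    have h := ev_cx (K := K) (L := L) (fun x y z w => cutf v f2 (cr ![v x, v y, v z, v w]))
      (fun _ _ _ _ => P.c2 _) k a b d e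
    refine le_of_mul h ?_ (by linarith) hno
    calc e2 * n ≤ e2 * (2 * Y) := mul_le_mul_of_nonneg_left hnY he2
      _ = 2 * e2 * Y := by ring
      _ ≤ θ * Y := by
        refine mul_le_mul_of_nonneg_right ?_ (by linarith)
        have := P.p2
        nlinarith
  | cy a b d e j k =>
    by_cases hnd : [a, b, d, e].Nodup
    · refine (nc_mono (Q := fun o => AllT p o ∧ cc o j ∈ cutf v f2
        (cr ![v (xx o a.1 a.2), v (xx o b.1 b.2), v (xx o d.1 d.2), v (yy p o e.1 e.2 k)]))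
        fun o ho => ⟨ho.1, ho.2.2⟩).trans ?_
      have h := hcy V K L p (fun x y z w => cutf v f2 (cr ![v x, v y, v z, v w])) (e2 * n)
        (fun _ _ _ _ => P.c2 _) j k a b d e hnd
      rw [← P.hn] at h
      refine le_of_mul h ?_ (by positivity) hno
      calc n * (e2 * n) = e2 * (n * n) := by ring
        _ ≤ e2 * ((2 * Y) * (2 * (A0 * A1) * K.s)) := by
          refine mul_le_mul_of_nonneg_left ?_ he2
          exact mul_le_mul hnY hns hn0.le (by linarith)
        _ = (4 * e2 * (A0 * A1)) * (Y * K.s) := by ring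
        _ ≤ θ * (Y * K.s) := mul_le_mul_of_nonneg_right P.p2 (by positivity)
    · refine (le_of_eq (nc_false fun o h => hnd h.2.1)).trans (mul_nonneg hth.le hno)
  | xa r j i k a b =>
    by_cases hab : a.1 ≠ r ∧ b.1 ≠ r
    · refine (nc_mono (Q := fun o => AllT p o ∧ xx o r i ∈ cutf v f1
        (cr ![v (ww o), v (yy p o r j k), v (xx o a.1 a.2), v (xx o b.1 b.2)]))
        fun o ho => ⟨ho.1, ho.2.2.2⟩).trans ?_
      have h := hxa V K L p (fun x y z w => cutf v f1 (cr ![v x, v y, v z, v w])) (e1 * n)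
        (fun _ _ _ _ => P.c1 _) r j i k a b hab.1 hab.2
      rw [← P.hn] at h
      refine le_of_mul h ?_ (by positivity) hno
      calc n * (e1 * n) = e1 * (n * n) := by ring
        _ ≤ e1 * ((2 * A0 * X) * (2 * Y)) := by
          refine mul_le_mul_of_nonneg_left ?_ he1
          exact mul_le_mul hnX hnY hn0.le (by positivity)
        _ = (4 * e1 * A0) * (X * Y) := by ring
        _ ≤ θ * (X * Y) := by
          refine mul_le_mul_of_nonneg_right (le_trans ?_ P.p1) (by positivity)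
          have h1 : A0 ≤ A0 ^ 3 := by nlinarith [sq_nonneg (A0 - 1), mul_self_nonneg A0]
          have h2 : 0 ≤ e1 * A0 ^ 3 := by positivity
          have h3 : e1 * A0 ≤ e1 * A0 ^ 3 := mul_le_mul_of_nonneg_left h1 he1
          linarith
    · refine (le_of_eq (nc_false fun o h => hab ⟨h.2.1, h.2.2.1⟩)).trans (mul_nonneg hth.le hno)
  | xb r j i k a b =>
    by_cases hab : a.1 ≠ r ∧ b.1 ≠ r ∧ a.1 ≠ b.1
    · refine (nc_mono (Q := fun o => AllT p o ∧ xx o r i ∈ cutf v f1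
        (cr ![v (ww o), v (yy p o r j k), v (xx o a.1 a.2), v (yy p o b.1 b.2 k)]))
        fun o ho => ⟨ho.1, ho.2.2.2.2⟩).trans ?_
      have h := hxb V K L p (fun x y z w => cutf v f1 (cr ![v x, v y, v z, v w])) (e1 * n)
        (fun _ _ _ _ => P.c1 _) r j i k a b hab.1 hab.2.1 hab.2.2
      rw [← P.hn] at h
      refine le_of_mul h ?_ (by positivity) hno
      calc n ^ 2 * (e1 * n) = e1 * (n ^ 2 * n) := by ring
        _ ≤ e1 * ((2 * A0 * X) ^ 2 * (2 * Y)) := by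
          refine mul_le_mul_of_nonneg_left ?_ he1
          exact mul_le_mul (pow_le_pow_left₀ hn0.le hnX 2) hnY hn0.le (by positivity)
        _ = (8 * e1 * A0 ^ 2) * (X ^ 2 * Y) := by ring
        _ ≤ θ * (X ^ 2 * Y) := by
          refine mul_le_mul_of_nonneg_right (le_trans ?_ P.p1) (by positivity)
          have h1 : A0 ^ 2 ≤ A0 ^ 3 := by nlinarith [sq_nonneg A0]
          have h2 : 0 ≤ e1 * A0 ^ 3 := by positivity
          have h3 : e1 * A0 ^ 2 ≤ e1 * A0 ^ 3 := mul_le_mul_of_nonneg_left h1 he1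
          linarith
    · refine (le_of_eq (nc_false fun o h => hab ⟨h.2.1, h.2.2.1, h.2.2.2.1⟩)).trans (mul_nonneg hth.le hno)
  | xc r j i k a b =>
    by_cases hab : a.1 ≠ r ∧ b.1 ≠ r ∧ a.1 ≠ b.1
    · refine (nc_mono (Q := fun o => AllT p o ∧ xx o r i ∈ cutf v f1
        (cr ![v (ww o), v (yy p o r j k), v (yy p o a.1 a.2 k), v (yy p o b.1 b.2 k)]))
        fun o ho => ⟨ho.1, ho.2.2.2.2⟩).trans ?_
      have h := hxc V K L p (fun x y z w => cutf v f1 (cr ![v x, v y, v z, v w])) (e1 * n)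
        (fun _ _ _ _ => P.c1 _) r j i k a b hab.1 hab.2.1 hab.2.2
      rw [← P.hn] at h
      refine le_of_mul h ?_ (by positivity) hno
      calc n ^ 3 * (e1 * n) = e1 * (n ^ 3 * n) := by ring
        _ ≤ e1 * ((2 * A0 * X) ^ 3 * (2 * Y)) := by
          refine mul_le_mul_of_nonneg_left ?_ he1
          exact mul_le_mul (pow_le_pow_left₀ hn0.le hnX 3) hnY hn0.le (by positivity)
        _ = (16 * e1 * A0 ^ 3) * (X ^ 3 * Y) := by ring
        _ ≤ θ * (X ^ 3 * Y) := mul_le_mul_of_nonneg_right P.p1 (by positivity)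
    · refine (le_of_eq (nc_false fun o h => hab ⟨h.2.1, h.2.2.1, h.2.2.2.1⟩)).trans (mul_nonneg hth.le hno)
  | av r i =>
    refine (nc_mono (Q := fun o => xx o r i ∈ univ.image W) fun o ho => ?_).trans ?_
    · obtain ⟨t, ht⟩ := ho.2
      exact mem_image.2 ⟨t, mem_univ _, ht.symm⟩
    have h := hav V K L (univ.image W) r i
    refine le_of_mul h ?_ (by linarith) hno
    have h1 : ((univ.image W).card : ℝ) ≤ m := by
      have := card_image_le (s := (univ : Finset (Fin m))) (f := W)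
      rw [card_univ, Fintype.card_fin] at this
      exact_mod_cast this
    have h2 := P.pn
    rw [← hC] at h2
    have h3 : C * ((m : ℝ) + 1) ≤ C * (θ * K.s) := by
      have : θ * n ≤ θ * (C * K.s) := mul_le_mul_of_nonneg_left hCs hth.le
      linarith [this]
    have h4 := le_of_mul_le_mul_left h3 hC0
    linarith
  | ec s j k =>
    set Q : Finset (V × V) := (univ : Finset (Fin 3 → Fin m)).biUnion fun t =>
      (univ : Finset V).biUnion fun y => (cutf v f0
        (cr ![v y, v (W (t 0)), v (W (t 1)), v (W (t 2))])).image fun x => (x, y) with hQ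
    refine (nc_mono (Q := fun o => AllT p o ∧ (xx o s j, yy p o s j k) ∈ Q) fun o ho => ?_).trans ?_
    · obtain ⟨t, ht⟩ := ho.2
      refine ⟨ho.1, mem_biUnion.2 ⟨t, mem_univ _, mem_biUnion.2 ⟨yy p o s j k, mem_univ _,
        mem_image.2 ⟨_, ht, rfl⟩⟩⟩⟩
    have hQc : (Q.card : ℝ) ≤ (m : ℝ) ^ 3 * (n * (e0 * n)) := by
      have h1 : ∀ t : Fin 3 → Fin m, (((univ : Finset V).biUnion fun y => (cutf v f0
        (cr ![v y, v (W (t 0)), v (W (t 1)), v (W (t 2))])).image fun x => (x, y)).card : ℝ) ≤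
          n * (e0 * n) := by
        intro t
        have h2 : (((univ : Finset V).biUnion fun y => (cutf v f0
          (cr ![v y, v (W (t 0)), v (W (t 1)), v (W (t 2))])).image fun x => (x, y)).card : ℝ) ≤
            ∑ y : V, ((cutf v f0
          (cr ![v y, v (W (t 0)), v (W (t 1)), v (W (t 2))])).card : ℝ) := by
          have h3 : ((univ : Finset V).biUnion fun y => (cutf v f0
            (cr ![v y, v (W (t 0)), v (W (t 1)), v (W (t 2))])).image fun x => (x, y)).card ≤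
              ∑ y : V, (cutf v f0
            (cr ![v y, v (W (t 0)), v (W (t 1)), v (W (t 2))])).card :=
            card_biUnion_le.trans (sum_le_sum fun y _ => card_image_le)
          exact_mod_cast h3
        refine h2.trans ((sum_le_card_nsmul _ _ _ fun y _ => P.c0 _).trans (le_of_eq ?_))
        rw [nsmul_eq_mul, card_univ, ← P.hn]
      have h4 : (Q.card : ℝ) ≤ ∑ t : Fin 3 → Fin m, (((univ : Finset V).biUnion fun y => (cutf v f0
        (cr ![v y, v (W (t 0)), v (W (t 1)), v (W (t 2))])).image fun x => (x, y)).card : ℝ) := by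
        have := card_biUnion_le (s := (univ : Finset (Fin 3 → Fin m)))
          (t := fun t => (univ : Finset V).biUnion fun y => (cutf v f0
            (cr ![v y, v (W (t 0)), v (W (t 1)), v (W (t 2))])).image fun x => (x, y))
        exact_mod_cast this
      refine h4.trans ((sum_le_card_nsmul _ _ _ fun t _ => h1 t).trans (le_of_eq ?_))
      rw [nsmul_eq_mul, card_univ, Fintype.card_fun, Fintype.card_fin, Fintype.card_fin]
      push_cast
      ring
    have h := hxy V K L p Q s j s j k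
    have hXx : n ≤ 2 * ((K.a0 : ℝ) * K.a1 * K.s) := P.x
    refine le_of_mul h (hQc.trans ?_) (by positivity) hno
    calc (m : ℝ) ^ 3 * (n * (e0 * n)) = (m : ℝ) ^ 3 * e0 * (n * n) := by ring
      _ ≤ (m : ℝ) ^ 3 * e0 * ((2 * ((K.a0 : ℝ) * K.a1 * K.s)) * (2 * Y)) := by
        refine mul_le_mul_of_nonneg_left ?_ (by positivity)
        exact mul_le_mul hXx hnY hn0.le (by positivity)
      _ = (4 * (m : ℝ) ^ 3 * e0) * ((K.a0 : ℝ) * K.a1 * K.s * Y) := by ring
      _ ≤ θ * ((K.a0 : ℝ) * K.a1 * K.s * Y) := mul_le_mul_of_nonneg_right P.p0 (by positivity)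
  | eu r i s j k =>
    refine (nc_mono (Q := fun o => AllT p o ∧ (xx o r i, yy p o s j k) ∈ Smp.QE v W U)
      fun o ho => ⟨ho.1, Smp.mem_QE.2 ho.2.2⟩).trans ?_
    have h := hxy V K L p (Smp.QE v W U) r i s j k
    have hXx : n ≤ 2 * ((K.a0 : ℝ) * K.a1 * K.s) := P.x
    have hd0 : 0 ≤ d := by
      have h1 := P.qe
      have h2 : (0 : ℝ) ≤ ((Smp.QE v W U).card : ℝ) := Nat.cast_nonneg _
      by_contra h3
      push Not at h3
      have h4 : 2 * d * n ^ 2 < 0 := mul_neg_of_neg_of_pos (by linarith) (by positivity)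
      linarith
    refine le_of_mul h (P.qe.trans ?_) (by positivity) hno
    calc 2 * d * n ^ 2 = 2 * d * (n * n) := by ring
      _ ≤ 2 * d * ((2 * ((K.a0 : ℝ) * K.a1 * K.s)) * (2 * Y)) := by
        refine mul_le_mul_of_nonneg_left ?_ (by positivity)
        exact mul_le_mul hXx hnY hn0.le (by positivity)
      _ = (8 * d) * ((K.a0 : ℝ) * K.a1 * K.s * Y) := by ring
      _ ≤ θ * ((K.a0 : ℝ) * K.a1 * K.s * Y) := mul_le_mul_of_nonneg_right P.pd (by positivity)
  | ed k l =>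
    by_cases hl : Function.Injective l ∧ Bdd k (univ.image l)
    · set Q : Finset (Fin 6 → V) := (Smp.QD v U).image fun q =>
        ![q.1.1, q.1.2, q.2 0, q.2 1, q.2 2, q.2 3] with hQ
      refine (nc_mono (Q := fun o => AllT p o ∧ (fun i => (arr p o).el k (l i)) ∈ Q)
        fun o ho => ?_).trans ?_
      · refine ⟨ho.1, mem_image.2 ⟨(((arr p o).el k (l 0), (arr p o).el k (l 1)),
          ![(arr p o).el k (l 2), (arr p o).el k (l 3), (arr p o).el k (l 4),
            (arr p o).el k (l 5)]), Smp.mem_QD.2 ⟨ho.2.2.2.1, ho.2.2.2.2⟩, ?_⟩⟩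
        funext i
        fin_cases i <;> rfl
      have h := hes V K L p Q (n / C) hμ0.le hμs hμt hμn k l hl.1 hl.2
      have hQc : (Q.card : ℝ) ≤ 2 * dD * n ^ 6 := by
        refine le_trans ?_ P.qd
        exact_mod_cast card_image_le
      refine le_of_mul h (hQc.trans ?_) (by positivity) hno
      have h1 := P.pD
      rw [← hC] at h1
      rw [div_pow, ← mul_div_assoc, le_div_iff₀ (by positivity)]
      calc 2 * dD * n ^ 6 * C ^ 6 = 2 * dD * C ^ 6 * n ^ 6 := by ring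
        _ ≤ θ * n ^ 6 := mul_le_mul_of_nonneg_right h1 (by positivity)
    · refine (le_of_eq (nc_false fun o h => hl ⟨h.2.1, h.2.2.1⟩)).trans (mul_nonneg hth.le hno)
  | ij k l l' =>
    by_cases hl : l ≠ l'
    · refine (nc_mono (Q := fun o => AllT p o ∧ (arr p o).el k l = (arr p o).el k l')
        fun o ho => ⟨ho.1, ho.2.2⟩).trans ?_
      have h := hij V K L p hp (n / C) hμ0.le hμs hμt hμn k l l' hl
      rw [← mul_one (no K L)] at h
      refine le_of_mul h ?_ hμ0 hno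
      have h2 := P.pn
      rw [← hC] at h2
      rw [← mul_div_assoc, le_div_iff₀ hC0, one_mul]
      nlinarith
    · refine (le_of_eq (nc_false fun o h => hl h.2.1)).trans (mul_nonneg hth.le hno)

end

end Pool.Agent.F32
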