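import Mathlib

/-!
# F32: the strong VC lemma (helper61)

`v : V → ℝ⁵` finite family of vectors. For most samples `W : Fin m → V` the following holds: for EVERY
`h : ℝ⁵` at most `e |V|` points `p` of `V` are separated by `h` from a point of their `W`-cell
(two points are in the same `W`-cell if they have the same signs with respect to all hyperplanes
spanned by four points of `W`).
-/

set_option autoImplicit false

namespace Pool.Agent.F32

open Finset Matrix Module

abbrev R5 := Fin 5 → ℝ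

/-- the determinant of `a 0, a 1, a 2, a 3, p` -/
def det5 (a : Fin 4 → R5) (p : R5) : ℝ :=
  Matrix.det (Matrix.of ![a 0, a 1, a 2, a 3, p])

/-- the vector with `cr a ⬝ᵥ p = det5 a p` -/
def cr (a : Fin 4 → R5) : R5 := fun k => det5 a (Pi.single k 1)

namespace VC

theorem det5_eq (a : Fin 4 → R5) (q : R5) :
    det5 a q = (Matrix.detRowAlternating (R := ℝ) (n := Fin 5)).toMultilinearMap
      (Function.update ![a 0, a 1, a 2, a 3, 0] 4 q) := by
  unfold det5
  change _ = Matrix.det _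
  congr 1
  ext i j
  fin_cases i <;> simp

theorem cr_dot (a : Fin 4 → R5) (p : R5) : cr a ⬝ᵥ p = det5 a p := by
  have hp : p = ∑ k, p k • (Pi.single k (1 : ℝ) : R5) := by
    ext j
    simp [Finset.sum_apply, Pi.single_apply]
  have h2 : det5 a (∑ k, p k • (Pi.single k (1 : ℝ) : R5)) =
      ∑ k, p k * det5 a (Pi.single k 1) := by
    rw [det5_eq, MultilinearMap.map_update_sum]
    refine Finset.sum_congr rfl fun k _ => ?_
    rw [MultilinearMap.map_update_smul, ← det5_eq]
    rfl
  rw [← hp] at h2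
  rw [h2, dotProduct]
  refine Finset.sum_congr rfl fun k _ => ?_
  rw [cr, mul_comm]

/-- sign compatibility: `r` is in the closed cell of `h` -/
def SC {ι : Type*} (W : ι → R5) (h r : R5) : Prop :=
  ∀ i, (0 ≤ W i ⬝ᵥ h → 0 ≤ W i ⬝ᵥ r) ∧ (W i ⬝ᵥ h ≤ 0 → W i ⬝ᵥ r ≤ 0)

theorem SC.refl {ι : Type*} (W : ι → R5) (h : R5) : SC W h h := fun _ => ⟨id, id⟩

theorem SC.trans {ι : Type*} {W : ι → R5} {h r s : R5} (h1 : SC W h r) (h2 : SC W r s) :
    SC W h s := fun i => ⟨fun h => (h2 i).1 ((h1 i).1 h), fun h => (h2 i).2 ((h1 i).2 h)⟩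

/-- the vectors orthogonal to all `W i` which are orthogonal to `h` -/
def U {ι : Type*} (W : ι → R5) (h : R5) : Submodule ℝ R5 where
  carrier := {z | ∀ i, W i ⬝ᵥ h = 0 → W i ⬝ᵥ z = 0}
  add_mem' := by
    intro a b ha hb i hi
    rw [dotProduct_add, ha i hi, hb i hi, add_zero]
  zero_mem' := by
    intro i _
    rw [dotProduct_zero]
  smul_mem' := by
    intro c x hx i hi
    rw [dotProduct_smul, hx i hi, smul_zero]

theorem mem_U {ι : Type*} {W : ι → R5} {h z : R5} :
    z ∈ U W h ↔ ∀ i, W i ⬝ᵥ h = 0 → W i ⬝ᵥ z = 0 := Iff.rfl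

theorem self_mem_U {ι : Type*} (W : ι → R5) (h : R5) : h ∈ U W h := fun _ hi => hi

/-- one step of the decomposition -/
theorem step {ι : Type*} [Fintype ι] {W : ι → R5} (hW : ∀ z, (∀ i, W i ⬝ᵥ z = 0) → z = 0)
    {h : R5} (h0 : h ≠ 0) (hf : 1 < finrank ℝ (U W h)) :
    ∃ h1 h2 : R5, ∃ c : ℝ, 0 < c ∧ h1 ≠ 0 ∧ h2 ≠ 0 ∧ SC W h h1 ∧ SC W h h2 ∧
      finrank ℝ (U W h1) < finrank ℝ (U W h) ∧ finrank ℝ (U W h2) < finrank ℝ (U W h) ∧
      h1 + h2 = c • h := by
  classical
  -- z in U, not proportional to h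
  obtain ⟨z, hz, hzh⟩ : ∃ z ∈ U W h, ∀ c : ℝ, z ≠ c • h := by
    by_contra hcon
    push Not at hcon
    have : finrank ℝ (U W h) ≤ 1 := by
      refine finrank_le_one (⟨h, self_mem_U W h⟩ : U W h) ?_
      intro w
      obtain ⟨c, hc⟩ := hcon w.1 w.2
      exact ⟨c, Subtype.ext hc.symm⟩
    omega
  set I : Finset ι := univ.filter fun i => W i ⬝ᵥ h ≠ 0 with hI
  have hIne : I.Nonempty := by
    by_contra hcon
    rw [Finset.not_nonempty_iff_eq_empty] at hcon
    apply h0
    apply hW
    intro i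
    by_contra hi
    have : i ∈ I := by
      rw [hI, mem_filter]
      exact ⟨mem_univ _, hi⟩
    rw [hcon] at this
    exact absurd this (notMem_empty _)
  obtain ⟨i1, hi1, hmin⟩ := exists_min_image I (fun i => (W i ⬝ᵥ z) / (W i ⬝ᵥ h)) hIne
  obtain ⟨i2, hi2, hmax⟩ := exists_max_image I (fun i => (W i ⬝ᵥ z) / (W i ⬝ᵥ h)) hIne
  set s1 := (W i1 ⬝ᵥ z) / (W i1 ⬝ᵥ h) with hs1
  set s2 := (W i2 ⬝ᵥ z) / (W i2 ⬝ᵥ h) with hs2
  have hi1' : W i1 ⬝ᵥ h ≠ 0 := (mem_filter.1 hi1).2
  have hi2' : W i2 ⬝ᵥ h ≠ 0 := (mem_filter.1 hi2).2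
  have key : ∀ i, W i ⬝ᵥ h ≠ 0 → ∀ s, W i ⬝ᵥ (z - s • h) =
      (W i ⬝ᵥ h) * ((W i ⬝ᵥ z) / (W i ⬝ᵥ h) - s) := by
    intro i hi s
    rw [dotProduct_sub, dotProduct_smul, smul_eq_mul, mul_sub, mul_div_cancel₀ _ hi]
    ring
  have key0 : ∀ i, W i ⬝ᵥ h = 0 → ∀ s : ℝ, W i ⬝ᵥ (z - s • h) = 0 := by
    intro i hi s
    rw [dotProduct_sub, dotProduct_smul, hi, hz i hi, smul_zero, sub_zero]
  have hlt : s1 < s2 := by
    rcases lt_or_ge s1 s2 with hlt | hge
    · exact hlt
    · exfalso
      apply hzh s1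
      have : z - s1 • h = 0 := by
        apply hW
        intro i
        by_cases hi : W i ⬝ᵥ h = 0
        · exact key0 i hi s1
        · have hiI : i ∈ I := by
            rw [hI, mem_filter]
            exact ⟨mem_univ _, hi⟩
          have h1 := hmin i hiI
          have h2 := hmax i hiI
          rw [key i hi, show (W i ⬝ᵥ z) / (W i ⬝ᵥ h) = s1 from le_antisymm (h2.trans hge) h1,
            sub_self, mul_zero]
      exact sub_eq_zero.1 this
  refine ⟨z - s1 • h, s2 • h - z, s2 - s1, sub_pos.2 hlt, sub_ne_zero.2 (hzh s1),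
    sub_ne_zero.2 (hzh s2).symm, ?_, ?_, ?_, ?_, ?_⟩
  · intro i
    by_cases hi : W i ⬝ᵥ h = 0
    · rw [key0 i hi]
      exact ⟨fun _ => le_rfl, fun _ => le_rfl⟩
    · have hiI : i ∈ I := by
        rw [hI, mem_filter]
        exact ⟨mem_univ _, hi⟩
      have h1 := sub_nonneg.2 (hmin i hiI)
      rw [key i hi]
      exact ⟨fun h => mul_nonneg h h1, fun h => mul_nonpos_of_nonpos_of_nonneg h h1⟩
  · intro i
    have e1 : s2 • h - z = -(z - s2 • h) := by abel
    rw [e1, dotProduct_neg]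
    by_cases hi : W i ⬝ᵥ h = 0
    · rw [key0 i hi, neg_zero]
      exact ⟨fun _ => le_rfl, fun _ => le_rfl⟩
    · have hiI : i ∈ I := by
        rw [hI, mem_filter]
        exact ⟨mem_univ _, hi⟩
      have h1 := sub_nonneg.2 (hmax i hiI)
      rw [key i hi, ← mul_neg, neg_sub]
      exact ⟨fun h => mul_nonneg h h1, fun h => mul_nonpos_of_nonpos_of_nonneg h h1⟩
  · apply Submodule.finrank_lt_finrank_of_lt
    refine lt_of_le_of_ne (fun y hy i hi => hy i (key0 i hi s1)) fun he => ?_
    have h1 : h ∈ U W (z - s1 • h) := by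
      rw [he]
      exact self_mem_U W h
    exact hi1' (h1 i1 (by rw [key i1 hi1', hs1, sub_self, mul_zero]))
  · apply Submodule.finrank_lt_finrank_of_lt
    have e1 : s2 • h - z = -(z - s2 • h) := by abel
    refine lt_of_le_of_ne (fun y hy i hi => hy i (by
      rw [e1, dotProduct_neg, key0 i hi s2, neg_zero])) fun he => ?_
    have h1 : h ∈ U W (s2 • h - z) := by
      rw [he]
      exact self_mem_U W h
    exact hi2' (h1 i2 (by rw [e1, dotProduct_neg, key i2 hi2', hs2, sub_self, mul_zero, neg_zero]))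
  · rw [sub_smul]
    abel

/-- `h` is a positive combination of `2 ^ k` vectors of its closed cell with one-dimensional `U` -/
theorem decomp {ι : Type*} [Fintype ι] {W : ι → R5} (hW : ∀ z, (∀ i, W i ⬝ᵥ z = 0) → z = 0) :
    ∀ (k : ℕ) (h : R5), h ≠ 0 → finrank ℝ (U W h) ≤ k + 1 →
      ∃ r : (Fin k → Bool) → R5, (∀ j, r j ≠ 0 ∧ SC W h (r j) ∧ finrank ℝ (U W (r j)) ≤ 1) ∧
        (∀ p : R5, 0 < p ⬝ᵥ h → ∃ j, 0 < p ⬝ᵥ r j) ∧
        (∀ p : R5, p ⬝ᵥ h < 0 → ∃ j, p ⬝ᵥ r j < 0) := by
  intro k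
  induction k with
  | zero =>
    intro h h0 hf
    exact ⟨fun _ => h, fun _ => ⟨h0, SC.refl W h, by omega⟩,
      fun p hp => ⟨fun _ => true, hp⟩, fun p hp => ⟨fun _ => true, hp⟩⟩
  | succ k ih =>
    intro h h0 hf
    by_cases h1 : finrank ℝ (U W h) ≤ 1
    · exact ⟨fun _ => h, fun _ => ⟨h0, SC.refl W h, h1⟩,
        fun p hp => ⟨fun _ => true, hp⟩, fun p hp => ⟨fun _ => true, hp⟩⟩
    · obtain ⟨a, b, c, hc, ha0, hb0, hsa, hsb, hfa, hfb, hab⟩ := step hW h0 (by omega)
      obtain ⟨ra, ra1, ra2, ra3⟩ := ih a ha0 (by omega)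
      obtain ⟨rb, rb1, rb2, rb3⟩ := ih b hb0 (by omega)
      have hdot : ∀ p : R5, p ⬝ᵥ a + p ⬝ᵥ b = c * (p ⬝ᵥ h) := by
        intro p
        rw [← dotProduct_add, hab, dotProduct_smul, smul_eq_mul]
      have hT : ∀ j : Fin k → Bool, (fun i : Fin k => (Fin.cons true j : Fin (k + 1) → Bool) i.succ) = j := by
        intro j
        funext i
        exact Fin.cons_succ _ _ _
      have hF : ∀ j : Fin k → Bool, (fun i : Fin k => (Fin.cons false j : Fin (k + 1) → Bool) i.succ) = j := by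
        intro j
        funext i
        exact Fin.cons_succ _ _ _
      let r : (Fin (k + 1) → Bool) → R5 := fun j =>
        cond (j 0) (ra fun i => j i.succ) (rb fun i => j i.succ)
      have hrT : ∀ j : Fin k → Bool, r (Fin.cons true j) = ra j := by
        intro j
        change cond ((Fin.cons true j : Fin (k + 1) → Bool) 0) _ _ = _
        rw [Fin.cons_zero, cond_true, hT]
      have hrF : ∀ j : Fin k → Bool, r (Fin.cons false j) = rb j := by
        intro j
        change cond ((Fin.cons false j : Fin (k + 1) → Bool) 0) _ _ = _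
        rw [Fin.cons_zero, cond_false, hF]
      refine ⟨r, ?_, ?_, ?_⟩
      · intro j
        rcases hj : j 0 with _ | _
        · have e : r j = rb fun i => j i.succ := by
            change cond (j 0) _ _ = _
            rw [hj, cond_false]
          rw [e]
          exact ⟨(rb1 _).1, hsb.trans (rb1 _).2.1, (rb1 _).2.2⟩
        · have e : r j = ra fun i => j i.succ := by
            change cond (j 0) _ _ = _
            rw [hj, cond_true]
          rw [e]
          exact ⟨(ra1 _).1, hsa.trans (ra1 _).2.1, (ra1 _).2.2⟩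
      · intro p hp
        have h2 : 0 < p ⬝ᵥ a + p ⬝ᵥ b := by
          rw [hdot]
          exact mul_pos hc hp
        rcases lt_or_ge 0 (p ⬝ᵥ a) with h3 | h3
        · obtain ⟨j, hj⟩ := ra2 p h3
          exact ⟨Fin.cons true j, by rw [hrT]; exact hj⟩
        · obtain ⟨j, hj⟩ := rb2 p (by linarith)
          exact ⟨Fin.cons false j, by rw [hrF]; exact hj⟩
      · intro p hp
        have h2 : p ⬝ᵥ a + p ⬝ᵥ b < 0 := by
          rw [hdot]
          exact mul_neg_of_pos_of_neg hc hp
        rcases lt_or_ge (p ⬝ᵥ a) 0 with h3 | h3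
        · obtain ⟨j, hj⟩ := ra3 p h3
          exact ⟨Fin.cons true j, by rw [hrT]; exact hj⟩
        · obtain ⟨j, hj⟩ := rb3 p (by linarith)
          exact ⟨Fin.cons false j, by rw [hrF]; exact hj⟩

/-- a vector orthogonal to four independent vectors is proportional to `cr` -/
theorem eq_smul_cr {a : Fin 4 → R5} (ha : LinearIndependent ℝ a) {r : R5} (r0 : r ≠ 0)
    (hr : ∀ k, a k ⬝ᵥ r = 0) : ∃ c : ℝ, c ≠ 0 ∧ r = c • cr a := by
  -- the determinant of a, r is not zero
  have hrr : r ⬝ᵥ r ≠ 0 := fun h => r0 (dotProduct_self_eq_zero.1 h)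
  have hdet : det5 a r ≠ 0 := by
    intro h
    obtain ⟨y, hy0, hy⟩ := Matrix.exists_vecMul_eq_zero_iff.2 h
    have h1 : y 0 • a 0 + y 1 • a 1 + y 2 • a 2 + y 3 • a 3 + y 4 • r = 0 := by
      ext j
      have := congrFun hy j
      simp only [Matrix.vecMul, dotProduct, Fin.sum_univ_five] at this
      simpa using this
    have h2 : y 4 = 0 := by
      have := congrArg (fun z => z ⬝ᵥ r) h1
      simp only [add_dotProduct, smul_dotProduct, hr, smul_eq_mul, mul_zero, zero_add,
        zero_dotProduct] at this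
      exact (mul_eq_zero.1 this).resolve_right hrr
    rw [h2, zero_smul, add_zero] at h1
    have h3 := Fintype.linearIndependent_iff.1 ha (fun k => y k.castSucc) (by
      rw [Fin.sum_univ_four]
      exact h1)
    apply hy0
    ext k
    refine Fin.lastCases ?_ (fun i => ?_) k
    · exact h2
    · exact h3 i
  -- the space of vectors orthogonal to a
  let K : Submodule ℝ R5 := LinearMap.ker (Matrix.mulVecLin (Matrix.of a))
  have hK : ∀ z : R5, z ∈ K ↔ ∀ k, a k ⬝ᵥ z = 0 := by
    intro z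
    rw [LinearMap.mem_ker, Matrix.mulVecLin_apply]
    constructor
    · intro h k
      exact congrFun h k
    · intro h
      ext k
      exact h k
  have hrank : (Matrix.of a).rank = 4 := by
    have h := LinearIndependent.rank_matrix (M := Matrix.of a) ha
    simpa using h
  have hfin : finrank ℝ K = 1 := by
    have h := LinearMap.finrank_range_add_finrank_ker (Matrix.mulVecLin (Matrix.of a))
    have h2 : finrank ℝ (LinearMap.range (Matrix.mulVecLin (Matrix.of a))) = 4 := hrank
    have h3 : finrank ℝ R5 = 5 := by simp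
    rw [h2, h3] at h
    change 4 + finrank ℝ K = 5 at h
    omega
  have hcr : cr a ∈ K := by
    rw [hK]
    intro k
    rw [dotProduct_comm, cr_dot]
    unfold det5
    refine Matrix.det_zero_of_row_eq (i := k.castSucc) (j := Fin.last 4) ?_ ?_
    · exact (Fin.castSucc_lt_last k).ne
    · ext j
      fin_cases k <;> rfl
  have hcr0 : cr a ≠ 0 := by
    intro h
    apply hdet
    rw [← cr_dot, h, zero_dotProduct]
  obtain ⟨c, hc⟩ := (finrank_eq_one_iff_of_nonzero' (⟨cr a, hcr⟩ : K)
    (fun h => hcr0 (congrArg Subtype.val h))).1 hfin ⟨r, (hK r).2 hr⟩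
  have hc' : c • cr a = r := congrArg Subtype.val hc
  refine ⟨c, ?_, hc'.symm⟩
  rintro rfl
  exact r0 (by rw [← hc', zero_smul])

/-- extreme rays are spanned -/
theorem spanned {ι : Type*} [Fintype ι] {W : ι → R5} {r : R5} (r0 : r ≠ 0)
    (hf : finrank ℝ (U W r) ≤ 1) :
    ∃ i : Fin 4 → ι, ∃ c : ℝ, c ≠ 0 ∧ r = c • cr (fun k => W (i k)) := by
  classical
  let F := {i : ι // W i ⬝ᵥ r = 0}
  let A : Matrix F (Fin 5) ℝ := Matrix.of fun i => W i.1
  have hker : LinearMap.ker (Matrix.mulVecLin A) = U W r := by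
    ext z
    rw [LinearMap.mem_ker, Matrix.mulVecLin_apply, mem_U]
    constructor
    · intro h i hi
      exact congrFun h ⟨i, hi⟩
    · intro h
      ext k
      exact h k.1 k.2
  have hrank : 4 ≤ A.rank := by
    have h := LinearMap.finrank_range_add_finrank_ker (Matrix.mulVecLin A)
    have h3 : finrank ℝ R5 = 5 := by simp
    have h4 : finrank ℝ (LinearMap.ker (Matrix.mulVecLin A)) ≤ 1 := by
      rw [hker]
      exact hf
    rw [h3] at h
    change A.rank + finrank ℝ (LinearMap.ker (Matrix.mulVecLin A)) = 5 at h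
    omega
  rw [Matrix.rank_eq_finrank_span_row] at hrank
  obtain ⟨b, hb1, hb2, hb3⟩ := exists_linearIndependent ℝ (Set.range A)
  have hbf : b.Finite := LinearIndependent.setFinite hb3
  have : Fintype b := hbf.fintype
  have hcard : 4 ≤ Fintype.card b := by
    have h := finrank_span_set_eq_card hb3
    rw [hb2] at h
    rw [← Set.toFinset_card, ← h]
    exact hrank
  obtain ⟨f⟩ : Nonempty (Fin 4 ↪ b) := Function.Embedding.nonempty_of_card_le (by simpa using hcard)
  have hex : ∀ k : Fin 4, ∃ i : ι, W i ⬝ᵥ r = 0 ∧ W i = (f k).1 := by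
    intro k
    obtain ⟨i, hi⟩ := hb1 (f k).2
    exact ⟨i.1, i.2, hi⟩
  choose i hi1 hi2 using hex
  have hli : LinearIndependent ℝ (fun k => W (i k)) := by
    have h := hb3.comp f f.injective
    have e : (fun k => W (i k)) = (Subtype.val ∘ f : Fin 4 → R5) := by
      funext k
      exact hi2 k
    rw [e]
    exact h
  obtain ⟨c, hc, hr⟩ := eq_smul_cr hli r0 hi1
  exact ⟨i, c, hc, hr⟩

/-- sign -/
def sg (b : Bool) : ℝ := cond b 1 (-1)

end VC

/-- `p` and `q` are in the same cell of the sample `W` -/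
def Same {V : Type*} (v : V → R5) {m : ℕ} (W : Fin m → V) (p q : V) : Prop :=
  ∀ i : Fin 4 → Fin m, SignType.sign (det5 (fun k => v (W (i k))) (v p)) =
    SignType.sign (det5 (fun k => v (W (i k))) (v q))

open Classical in
/-- the union of the cells of the sample `W` which are cut by the hyperplane `h` -/
noncomputable def cut {V : Type*} [Fintype V] (v : V → R5) {m : ℕ} (W : Fin m → V) (h : R5) :
    Finset V :=
  univ.filter fun p => ∃ q q', Same v W p q ∧ Same v W p q' ∧ h ⬝ᵥ v q < 0 ∧ 0 < h ⬝ᵥ v q'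

namespace VC

abbrev J4 := Fin 4 → Bool

open Classical in
/-- conflict set of the signed hyperplanes `i`, `s` -/
noncomputable def Conf {V : Type*} [Fintype V] (v : V → R5) {m : ℕ} (W : Fin m → V)
    (i : J4 → Fin 4 → Fin m) (s : J4 → Bool) : Finset V :=
  univ.filter fun p => (∃ j, 0 < sg (s j) * det5 (fun k => v (W (i j k))) (v p)) ∧
    ∃ j, sg (s j) * det5 (fun k => v (W (i j k))) (v p) < 0

theorem conf_of_cut {V : Type*} [Fintype V] (v : V → R5) {m : ℕ} (W : Fin m → V) (h : R5)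
    (hW : ∀ z, (∀ i, v (W i) ⬝ᵥ z = 0) → z = 0) (hne : (cut v W h).Nonempty) :
    ∃ (i : J4 → Fin 4 → Fin m) (s : J4 → Bool), cut v W h ⊆ Conf v W i s ∧
      ∀ k, W k ∉ Conf v W i s := by
  classical
  have h0 : h ≠ 0 := by
    rintro rfl
    obtain ⟨p, hp⟩ := hne
    obtain ⟨q, q', -, -, h1, -⟩ := (mem_filter.1 hp).2
    rw [zero_dotProduct] at h1
    exact lt_irrefl _ h1
  have hf : finrank ℝ (U (fun i => v (W i)) h) ≤ 4 + 1 := by
    have h1 := Submodule.finrank_le (U (fun i => v (W i)) h)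
    have h3 : finrank ℝ R5 = 5 := by simp
    omega
  obtain ⟨r, hr1, hr2, hr3⟩ := decomp (W := fun i => v (W i)) hW 4 h h0 hf
  have hsp := fun j => spanned (hr1 j).1 (hr1 j).2.2
  choose i c hc hr using hsp
  have hdot : ∀ (j : J4) (x : R5), x ⬝ᵥ r j = c j * det5 (fun k => v (W (i j k))) x := by
    intro j x
    rw [dotProduct_comm, hr j, smul_dotProduct, cr_dot, smul_eq_mul]
  let s : J4 → Bool := fun j => decide (0 < c j)
  have hs : ∀ j, (0 < c j ∧ sg (s j) = 1) ∨ (c j < 0 ∧ sg (s j) = -1) := by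
    intro j
    rcases lt_or_gt_of_ne (hc j) with h1 | h1
    · right
      refine ⟨h1, ?_⟩
      have : s j = false := decide_eq_false (not_lt.2 h1.le)
      rw [this]
      rfl
    · left
      refine ⟨h1, ?_⟩
      have : s j = true := decide_eq_true h1
      rw [this]
      rfl
  have hpos : ∀ (j : J4) (x : R5), 0 < x ⬝ᵥ r j ↔
      0 < sg (s j) * det5 (fun k => v (W (i j k))) x := by
    intro j x
    rw [hdot]
    rcases hs j with ⟨h1, h2⟩ | ⟨h1, h2⟩
    · rw [h2, one_mul, mul_pos_iff_of_pos_left h1]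
    · rw [h2, neg_one_mul, neg_pos]
      constructor
      · intro h3
        by_contra h4
        exact absurd h3 (not_lt.2 (mul_nonpos_of_nonpos_of_nonneg h1.le (not_lt.1 h4)))
      · exact fun h3 => mul_pos_of_neg_of_neg h1 h3
  have hneg : ∀ (j : J4) (x : R5), x ⬝ᵥ r j < 0 ↔
      sg (s j) * det5 (fun k => v (W (i j k))) x < 0 := by
    intro j x
    rw [hdot]
    rcases hs j with ⟨h1, h2⟩ | ⟨h1, h2⟩
    · rw [h2, one_mul]
      constructor
      · intro h3
        by_contra h4
        exact absurd h3 (not_lt.2 (mul_nonneg h1.le (not_lt.1 h4)))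
      · exact fun h3 => mul_neg_of_pos_of_neg h1 h3
    · rw [h2, neg_one_mul, neg_lt_zero]
      constructor
      · intro h3
        by_contra h4
        exact absurd h3 (not_lt.2 (mul_nonneg_of_nonpos_of_nonpos h1.le (not_lt.1 h4)))
      · exact fun h3 => mul_neg_of_neg_of_pos h1 h3
  refine ⟨i, s, ?_, ?_⟩
  · intro p hp
    obtain ⟨q, q', hq, hq', h1, h2⟩ := (mem_filter.1 hp).2
    obtain ⟨j, hj⟩ := hr3 (v q) (by rw [dotProduct_comm]; exact h1)
    obtain ⟨j', hj'⟩ := hr2 (v q') (by rw [dotProduct_comm]; exact h2)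
    rw [Conf, mem_filter]
    refine ⟨mem_univ _, ⟨j', ?_⟩, ⟨j, ?_⟩⟩
    · have h3 := (hpos j' _).1 hj'
      have h4 := hq' (i j')
      rcases hs j' with ⟨-, h5⟩ | ⟨-, h5⟩
      · rw [h5, one_mul] at h3 ⊢
        rw [← sign_eq_one_iff] at h3 ⊢
        rw [h4, h3]
      · rw [h5, neg_one_mul, neg_pos] at h3 ⊢
        rw [← sign_eq_neg_one_iff] at h3 ⊢
        rw [h4, h3]
    · have h3 := (hneg j _).1 hj
      have h4 := hq (i j)
      rcases hs j with ⟨-, h5⟩ | ⟨-, h5⟩
      · rw [h5, one_mul] at h3 ⊢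
        rw [← sign_eq_neg_one_iff] at h3 ⊢
        rw [h4, h3]
      · rw [h5, neg_one_mul, neg_lt_zero] at h3 ⊢
        rw [← sign_eq_one_iff] at h3 ⊢
        rw [h4, h3]
  · intro k hk
    obtain ⟨⟨j, hj⟩, ⟨j', hj'⟩⟩ := (mem_filter.1 hk).2
    rw [← hpos] at hj
    rw [← hneg] at hj'
    rcases le_total 0 (v (W k) ⬝ᵥ h) with h1 | h1
    · exact absurd (((hr1 j').2.1 k).1 h1) (not_le.2 hj')
    · exact absurd (((hr1 j).2.1 k).2 h1) (not_le.2 hj)

/-- the conflict set depends only on the values of `W` at the indices -/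
theorem conf_congr {V : Type*} [Fintype V] (v : V → R5) {m : ℕ} {W W' : Fin m → V}
    {i : J4 → Fin 4 → Fin m} (s : J4 → Bool) (h : ∀ j k, W (i j k) = W' (i j k)) :
    Conf v W i s = Conf v W' i s := by
  unfold Conf
  simp only [h]

open Classical in
theorem fiber_card {V : Type*} [Fintype V] {m : ℕ} (D : Finset (Fin m)) (C : Finset V)
    (W0 : Fin m → V) :
    ((univ : Finset (Fin m → V)).filter fun W => (∀ k ∈ D, W k = W0 k) ∧ ∀ k, W k ∉ C).card ≤
      (univ \ C).card ^ (m - D.card) := by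
  have hsub : ((univ : Finset (Fin m → V)).filter fun W => (∀ k ∈ D, W k = W0 k) ∧
      ∀ k, W k ∉ C) ⊆ Fintype.piFinset fun k => if k ∈ D then {W0 k} else univ \ C := by
    intro W hW
    obtain ⟨h1, h2⟩ := (mem_filter.1 hW).2
    rw [Fintype.mem_piFinset]
    intro k
    by_cases hk : k ∈ D
    · rw [if_pos hk, mem_singleton]
      exact h1 k hk
    · rw [if_neg hk, mem_sdiff]
      exact ⟨mem_univ _, h2 k⟩
  refine (card_le_card hsub).trans ?_
  rw [Fintype.card_piFinset]
  have h3 : ∀ k : Fin m, (if k ∈ D then ({W0 k} : Finset V) else univ \ C).card =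
      if k ∈ D then 1 else (univ \ C).card := by
    intro k
    by_cases hk : k ∈ D
    · rw [if_pos hk, if_pos hk, card_singleton]
    · rw [if_neg hk, if_neg hk]
  rw [prod_congr rfl fun k _ => h3 k, prod_ite, prod_const_one, one_mul, prod_const]
  apply le_of_eq
  congr 1
  rw [filter_not, card_sdiff_of_subset (filter_subset _ _), card_univ, Fintype.card_fin]
  congr 2
  ext k
  simp

open Classical in
/-- union bound, one term -/
theorem count_abs {V : Type*} [Fintype V] {m : ℕ} (D : Finset (Fin m))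
    (C : (Fin m → V) → Finset V) (hC : ∀ W W' : Fin m → V, (∀ k ∈ D, W k = W' k) → C W = C W')
    {e n : ℝ} (hn : n = ((Fintype.card V : ℕ) : ℝ)) (he1 : e ≤ 1) :
    (((univ : Finset (Fin m → V)).filter fun W => e * n < (C W).card ∧
      ∀ k, W k ∉ C W).card : ℝ) ≤ n ^ D.card * ((1 - e) * n) ^ (m - D.card) := by
  have hn0 : 0 ≤ n := by
    rw [hn]
    exact Nat.cast_nonneg _
  have h1 := card_eq_sum_card_fiberwise (s := (univ : Finset (Fin m → V)).filter fun W =>
    e * n < (C W).card ∧ ∀ k, W k ∉ C W) (t := (univ : Finset (D → V)))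
    (f := fun W x => W x.1) (fun _ _ => mem_univ _)
  have h2 : ∀ g : D → V, (((((univ : Finset (Fin m → V)).filter fun W =>
      e * n < (C W).card ∧ ∀ k, W k ∉ C W).filter fun W => (fun x : D => W x.1) = g).card : ℕ) : ℝ) ≤
      ((1 - e) * n) ^ (m - D.card) := by
    intro g
    rcases (((univ : Finset (Fin m → V)).filter fun W =>
      e * n < (C W).card ∧ ∀ k, W k ∉ C W).filter
        fun W => (fun x : D => W x.1) = g).eq_empty_or_nonempty with h3 | ⟨W0, hW0⟩
    · rw [h3]
      simp only [card_empty, Nat.cast_zero]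
      exact pow_nonneg (mul_nonneg (by linarith) hn0) _
    · obtain ⟨hW0E, hW0g⟩ := mem_filter.1 hW0
      have hW0E' := (mem_filter.1 hW0E).2
      have hsub : (((univ : Finset (Fin m → V)).filter fun W =>
          e * n < (C W).card ∧ ∀ k, W k ∉ C W).filter fun W => (fun x : D => W x.1) = g) ⊆
          (univ : Finset (Fin m → V)).filter fun W => (∀ k ∈ D, W k = W0 k) ∧ ∀ k, W k ∉ C W0 := by
        intro W hW
        obtain ⟨hWE, hWg⟩ := mem_filter.1 hW
        have hWE' := (mem_filter.1 hWE).2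
        have hag : ∀ k ∈ D, W k = W0 k := fun k hk => congrFun (hWg.trans hW0g.symm) ⟨k, hk⟩
        rw [mem_filter]
        refine ⟨mem_univ _, hag, fun k => ?_⟩
        rw [← hC W W0 hag]
        exact hWE'.2 k
      have hcard := (card_le_card hsub).trans (fiber_card D (C W0) W0)
      have hc2 : (((univ \ C W0).card : ℕ) : ℝ) ≤ (1 - e) * n := by
        rw [card_sdiff_of_subset (subset_univ _), Nat.cast_sub (card_le_card (subset_univ _)),
          card_univ, ← hn]
        have := hW0E'.1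
        linarith
      refine le_trans ?_ (pow_le_pow_left₀ (Nat.cast_nonneg _) hc2 _)
      exact_mod_cast hcard
  rw [h1, Nat.cast_sum]
  refine (sum_le_sum fun g _ => h2 g).trans (le_of_eq ?_)
  rw [sum_const, card_univ, Fintype.card_fun, Fintype.card_coe, nsmul_eq_mul, hn]
  push_cast
  rfl

open Classical in
/-- the number of samples with a large conflict set which they avoid -/
theorem count {V : Type*} [Fintype V] (v : V → R5) {m : ℕ} (hm : 64 ≤ m)
    (i : J4 → Fin 4 → Fin m) (s : J4 → Bool) {e n : ℝ} (hn : n = ((Fintype.card V : ℕ) : ℝ))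
    (he0 : 0 ≤ e) (he1 : e ≤ 1) :
    (((univ : Finset (Fin m → V)).filter fun W => e * n < (Conf v W i s).card ∧
      ∀ k, W k ∉ Conf v W i s).card : ℝ) ≤ (1 - e) ^ (m - 64) * n ^ m := by
  have hn0 : 0 ≤ n := by
    rw [hn]
    exact Nat.cast_nonneg _
  have hD : (univ.image fun x : J4 × Fin 4 => i x.1 x.2).card ≤ 64 := by
    refine card_image_le.trans ?_
    rw [card_univ, Fintype.card_prod]
    simp
  have h1 := count_abs (univ.image fun x : J4 × Fin 4 => i x.1 x.2) (fun W => Conf v W i s)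
    (fun W W' h => conf_congr v s fun j k => h _ (mem_image.2 ⟨(j, k), mem_univ _, rfl⟩)) hn he1
  refine h1.trans ?_
  generalize (univ.image fun x : J4 × Fin 4 => i x.1 x.2).card = D at hD
  have hDm : D ≤ m := hD.trans hm
  calc n ^ D * ((1 - e) * n) ^ (m - D)
      = (1 - e) ^ (m - D) * n ^ m := by
        rw [mul_pow, ← mul_assoc, mul_comm (n ^ D), mul_assoc, ← pow_add,
          Nat.add_sub_cancel' hDm]
    _ ≤ (1 - e) ^ (m - 64) * n ^ m := by
        refine mul_le_mul_of_nonneg_right ?_ (pow_nonneg hn0 _)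
        exact pow_le_pow_of_le_one (by linarith) (by linarith) (by omega)

open Classical in
theorem not_inj {V : Type*} [Fintype V] {m : ℕ} {n : ℝ} (hn : n = ((Fintype.card V : ℕ) : ℝ)) :
    (((univ : Finset (Fin m → V)).filter fun W => ¬ Function.Injective W).card : ℝ) ≤
      m ^ 2 * n ^ (m - 1) := by
  have hsub : ((univ : Finset (Fin m → V)).filter fun W => ¬ Function.Injective W) ⊆
      ((univ : Finset (Fin m × Fin m)).filter fun x => x.1 ≠ x.2).biUnion fun x =>
        (univ : Finset (Fin m → V)).filter fun W => W x.1 = W x.2 := by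
    intro W hW
    have h1 := (mem_filter.1 hW).2
    rw [Function.Injective] at h1
    push Not at h1
    obtain ⟨a, b, hab, hne⟩ := h1
    rw [mem_biUnion]
    exact ⟨(a, b), mem_filter.2 ⟨mem_univ _, hne⟩, mem_filter.2 ⟨mem_univ _, hab⟩⟩
  have hcard : ∀ x ∈ ((univ : Finset (Fin m × Fin m)).filter fun x => x.1 ≠ x.2),
      ((univ : Finset (Fin m → V)).filter fun W => W x.1 = W x.2).card ≤
        Fintype.card V ^ (m - 1) := by
    intro x hx
    have hne : x.1 ≠ x.2 := (mem_filter.1 hx).2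
    have h2 : Fintype.card ({k : Fin m // k ≠ x.2} → V) = Fintype.card V ^ (m - 1) := by
      rw [Fintype.card_fun]
      congr 1
      rw [Fintype.card_subtype_compl, Fintype.card_fin]
      simp
    rw [← h2, ← card_univ]
    refine card_le_card_of_injOn (fun W k => W k.1) (fun _ _ => mem_univ _) ?_
    intro W hW W' hW' he
    have hW1 : W x.1 = W x.2 := (mem_filter.1 (Finset.mem_coe.1 hW)).2
    have hW2 : W' x.1 = W' x.2 := (mem_filter.1 (Finset.mem_coe.1 hW')).2
    funext k
    by_cases hk : k = x.2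
    · rw [hk, ← hW1, ← hW2]
      exact congrFun he ⟨x.1, hne⟩
    · exact congrFun he ⟨k, hk⟩
  have h3 := (card_le_card hsub).trans (card_biUnion_le_card_mul _ _ _ hcard)
  have h4 : ((univ : Finset (Fin m × Fin m)).filter fun x => x.1 ≠ x.2).card ≤ m ^ 2 := by
    refine (card_filter_le _ _).trans ?_
    rw [card_univ, Fintype.card_prod, Fintype.card_fin, sq]
  have h5 := h3.trans (Nat.mul_le_mul_right _ h4)
  rw [hn]
  exact_mod_cast h5

end VC

/-- general position: any five of the vectors are independent -/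
def GP {V : Type*} (v : V → R5) : Prop :=
  ∀ a : Fin 5 → V, Function.Injective a → Matrix.det (Matrix.of fun k => v (a k)) ≠ 0

theorem GP.spans {V : Type*} {v : V → R5} (hv : GP v) {m : ℕ} (hm : 5 ≤ m) {W : Fin m → V}
    (hW : Function.Injective W) (z : R5) (hz : ∀ i, v (W i) ⬝ᵥ z = 0) : z = 0 := by
  have h1 := hv (fun k => W (Fin.castLE hm k)) fun a b hab => Fin.castLE_injective hm (hW hab)
  apply Matrix.eq_zero_of_mulVec_eq_zero h1
  ext k
  exact hz _

open Classical in
theorem strong_vc_inj {V : Type*} [Fintype V] {v : V → R5} (hv : GP v) {m : ℕ} (hm : 64 ≤ m)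
    {e n : ℝ} (hn : n = ((Fintype.card V : ℕ) : ℝ)) (he0 : 0 ≤ e) (he1 : e ≤ 1) :
    (((univ : Finset (Fin m → V)).filter fun W => Function.Injective W ∧
      ∃ h : R5, e * n < (cut v W h).card).card : ℝ) ≤
      2 ^ 16 * (m : ℝ) ^ 64 * ((1 - e) ^ (m - 64) * n ^ m) := by
  have hn0 : 0 ≤ n := by
    rw [hn]
    exact Nat.cast_nonneg _
  have hsub : ((univ : Finset (Fin m → V)).filter fun W => Function.Injective W ∧
      ∃ h : R5, e * n < (cut v W h).card) ⊆
      (univ : Finset ((VC.J4 → Fin 4 → Fin m) × (VC.J4 → Bool))).biUnion fun x =>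
        (univ : Finset (Fin m → V)).filter fun W => e * n < (VC.Conf v W x.1 x.2).card ∧
          ∀ k, W k ∉ VC.Conf v W x.1 x.2 := by
    intro W hW
    obtain ⟨hinj, h, hh⟩ := (mem_filter.1 hW).2
    have hne : (cut v W h).Nonempty := by
      rw [← card_pos]
      have : (0 : ℝ) < (cut v W h).card := lt_of_le_of_lt (mul_nonneg he0 hn0) hh
      exact_mod_cast this
    obtain ⟨i, s, h1, h2⟩ := VC.conf_of_cut v W h (hv.spans (by omega) hinj) hne
    rw [mem_biUnion]
    refine ⟨(i, s), mem_univ _, mem_filter.2 ⟨mem_univ _, ?_, h2⟩⟩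
    refine lt_of_lt_of_le hh ?_
    exact_mod_cast card_le_card h1
  have h1 : (((univ : Finset (Fin m → V)).filter fun W => Function.Injective W ∧
      ∃ h : R5, e * n < (cut v W h).card).card : ℝ) ≤
      ∑ x : (VC.J4 → Fin 4 → Fin m) × (VC.J4 → Bool),
        (((univ : Finset (Fin m → V)).filter fun W => e * n < (VC.Conf v W x.1 x.2).card ∧
          ∀ k, W k ∉ VC.Conf v W x.1 x.2).card : ℝ) := by
    have := (card_le_card hsub).trans card_biUnion_le
    exact_mod_cast this
  refine h1.trans ((sum_le_sum fun x _ => VC.count v hm x.1 x.2 hn he0 he1).trans (le_of_eq ?_))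
  rw [sum_const, card_univ, nsmul_eq_mul]
  congr 1
  have hJ : Fintype.card VC.J4 = 16 := by
    rw [Fintype.card_fun, Fintype.card_fin, Fintype.card_bool]
    norm_num
  have h2 : Fintype.card (VC.J4 → Fin 4 → Fin m) = (m ^ 4) ^ 16 := by
    rw [Fintype.card_fun, hJ, Fintype.card_fun, Fintype.card_fin, Fintype.card_fin]
  have h3 : Fintype.card (VC.J4 → Bool) = 2 ^ 16 := by
    rw [Fintype.card_fun, hJ, Fintype.card_bool]
  rw [Fintype.card_prod, h2, h3]
  push_cast
  ring

open Classical in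
/-- **Strong VC lemma.** For most samples `W` of a large constant size `m` every hyperplane cuts
cells which contain at most `e |V|` points. -/
theorem strong_vc {e d : ℝ} (he : 0 < e) (hd : 0 < d) :
    ∃ m0 : ℕ, ∀ m ≥ m0, ∀ (V : Type) [Fintype V] (v : V → R5), GP v →
      2 * (m : ℝ) ^ 2 ≤ d * ((Fintype.card V : ℕ) : ℝ) →
      (((univ : Finset (Fin m → V)).filter fun W =>
        ∃ h : R5, e * ((Fintype.card V : ℕ) : ℝ) < (cut v W h).card).card : ℝ) ≤
        d * ((Fintype.card V : ℕ) : ℝ) ^ m := by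
  rcases lt_or_ge 1 e with he1 | he1
  · refine ⟨0, fun m _ V _ v _ _ => ?_⟩
    have h0 : ((univ : Finset (Fin m → V)).filter fun W =>
        ∃ h : R5, e * ((Fintype.card V : ℕ) : ℝ) < (cut v W h).card) = ∅ := by
      rw [filter_eq_empty_iff]
      rintro W - ⟨h, hh⟩
      have h1 : ((cut v W h).card : ℝ) ≤ Fintype.card V := by
        exact_mod_cast card_le_univ _
      have h2 : (0 : ℝ) ≤ Fintype.card V := Nat.cast_nonneg _
      nlinarith
    rw [h0, card_empty, Nat.cast_zero]
    exact mul_nonneg hd.le (pow_nonneg (Nat.cast_nonneg _) _)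
  · have hlim : Filter.Tendsto (fun m : ℕ => (m : ℝ) ^ 64 * (1 - e) ^ m) Filter.atTop (nhds 0) :=
      tendsto_pow_const_mul_const_pow_of_abs_lt_one 64 (by
        rw [abs_lt]
        constructor <;> linarith)
    have hc : (0 : ℝ) < d / (2 * (2 ^ 16 * 65 ^ 64)) := by positivity
    obtain ⟨k0, hk0⟩ := Filter.eventually_atTop.1 (hlim.eventually (gt_mem_nhds hc))
    refine ⟨k0 + 65, fun m hm V _ v hv hmV => ?_⟩
    obtain ⟨n, hn⟩ : ∃ n : ℝ, n = ((Fintype.card V : ℕ) : ℝ) := ⟨_, rfl⟩
    have hn0 : 0 ≤ n := by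
      rw [hn]
      exact Nat.cast_nonneg _
    have h1 := strong_vc_inj hv (by omega : 64 ≤ m) hn he.le he1
    have h2 := VC.not_inj (V := V) (m := m) hn
    have hsub : ((univ : Finset (Fin m → V)).filter fun W =>
        ∃ h : R5, e * n < (cut v W h).card) ⊆
        ((univ : Finset (Fin m → V)).filter fun W => Function.Injective W ∧
          ∃ h : R5, e * n < (cut v W h).card) ∪
        ((univ : Finset (Fin m → V)).filter fun W => ¬ Function.Injective W) := by
      intro W hW
      have h3 := (mem_filter.1 hW).2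
      rw [mem_union]
      by_cases hi : Function.Injective W
      · exact Or.inl (mem_filter.2 ⟨mem_univ _, hi, h3⟩)
      · exact Or.inr (mem_filter.2 ⟨mem_univ _, hi⟩)
    have h3 : (((univ : Finset (Fin m → V)).filter fun W =>
        ∃ h : R5, e * n < (cut v W h).card).card : ℝ) ≤
        2 ^ 16 * (m : ℝ) ^ 64 * ((1 - e) ^ (m - 64) * n ^ m) + m ^ 2 * n ^ (m - 1) := by
      have h4 := (card_le_card hsub).trans (card_union_le _ _)
      have h5 : (((univ : Finset (Fin m → V)).filter fun W =>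
        ∃ h : R5, e * n < (cut v W h).card).card : ℝ) ≤
        (((univ : Finset (Fin m → V)).filter fun W => Function.Injective W ∧
          ∃ h : R5, e * n < (cut v W h).card).card : ℝ) +
        (((univ : Finset (Fin m → V)).filter fun W => ¬ Function.Injective W).card : ℝ) := by
        exact_mod_cast h4
      linarith
    rw [← hn]
    rw [← hn] at hmV
    refine h3.trans ?_
    -- first term
    obtain ⟨k, rfl⟩ : ∃ k, m = k + 64 := ⟨m - 64, by omega⟩
    have hk1 : k0 ≤ k := by omega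
    have hk2 : 1 ≤ k := by omega
    have h4 := hk0 k hk1
    have h5 : ((k + 64 : ℕ) : ℝ) ^ 64 ≤ 65 ^ 64 * (k : ℝ) ^ 64 := by
      rw [← mul_pow]
      refine pow_le_pow_left₀ (Nat.cast_nonneg _) ?_ _
      have : (1 : ℝ) ≤ k := by exact_mod_cast hk2
      push_cast
      linarith
    have h6 : (0 : ℝ) ≤ (1 - e) ^ k := pow_nonneg (by linarith) _
    have h7 : 2 ^ 16 * ((k + 64 : ℕ) : ℝ) ^ 64 * (1 - e) ^ k ≤ d / 2 := by
      have h8 : 2 ^ 16 * ((k + 64 : ℕ) : ℝ) ^ 64 * (1 - e) ^ k ≤
          2 ^ 16 * (65 ^ 64 * (k : ℝ) ^ 64) * (1 - e) ^ k := by gcongr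
      have h9 : 2 ^ 16 * (65 ^ 64 * (k : ℝ) ^ 64) * (1 - e) ^ k ≤
          2 ^ 16 * 65 ^ 64 * (d / (2 * (2 ^ 16 * 65 ^ 64))) := by
        have := mul_le_mul_of_nonneg_left h4.le (by positivity : (0 : ℝ) ≤ 2 ^ 16 * 65 ^ 64)
        linarith
      have h10 : 2 ^ 16 * 65 ^ 64 * (d / (2 * (2 ^ 16 * 65 ^ 64))) = d / 2 := by
        field_simp
      linarith
    have h8 : 2 ^ 16 * ((k + 64 : ℕ) : ℝ) ^ 64 * ((1 - e) ^ (k + 64 - 64) * n ^ (k + 64)) ≤
        d / 2 * n ^ (k + 64) := by
      rw [Nat.add_sub_cancel, ← mul_assoc]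
      exact mul_le_mul_of_nonneg_right h7 (pow_nonneg hn0 _)
    have h9 : ((k + 64 : ℕ) : ℝ) ^ 2 * n ^ (k + 64 - 1) ≤ d / 2 * n ^ (k + 64) := by
      have e1 : n ^ (k + 64) = n * n ^ (k + 64 - 1) := by
        rw [← pow_succ']
        congr 1
      rw [e1, ← mul_assoc]
      refine mul_le_mul_of_nonneg_right ?_ (pow_nonneg hn0 _)
      linarith
    linarith

end Pool.Agent.F32
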