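import Pool.Agent.F32.Circ

/-!
# F32: edges relative to samples, monotonicity and windows (helper40)

`EdgeC v W x y`: no four points of the sample `W` form a positive circuit with `x, y`.
`wc v m` is the number of triples (x, y, W), `W : Fin m → V`, with this property,
`w v m` its density.
-/

set_option autoImplicit false

namespace Pool.Agent.F32

open Finset Matrix

/-- no four points of the sample form a positive circuit modulo `x, y` -/
def EdgeC {V : Type*} (v : V → R5) {m : ℕ} (W : Fin m → V) (x y : V) : Prop :=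
  ∀ i : Fin 4 → Fin m,
    ¬ Circ.Pos4 (v x) (v y) (v (W (i 0))) (v (W (i 1))) (v (W (i 2))) (v (W (i 3)))

open Classical in
/-- the number of triples (x, y, W) with `EdgeC v W x y` -/
noncomputable def wc {V : Type*} [Fintype V] (v : V → R5) (m : ℕ) : ℕ :=
  ((univ : Finset ((V × V) × (Fin m → V))).filter fun p => EdgeC v p.2 p.1.1 p.1.2).card

/-- the density of the pairs which are edges relative to a sample of size `m` -/
noncomputable def w {V : Type*} [Fintype V] (v : V → R5) (m : ℕ) : ℝ :=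
  (wc v m : ℝ) / ((Fintype.card V : ℕ) : ℝ) ^ (m + 2)

namespace Win

theorem D5_12 (a c d e : R5) : D5 a a c d e = 0 :=
  Matrix.det_zero_of_row_eq (i := 0) (j := 1) (by decide) rfl
theorem D5_13 (a b d e : R5) : D5 a b a d e = 0 :=
  Matrix.det_zero_of_row_eq (i := 0) (j := 2) (by decide) rfl
theorem D5_23 (a b d e : R5) : D5 a b b d e = 0 :=
  Matrix.det_zero_of_row_eq (i := 1) (j := 2) (by decide) rfl
theorem D5_14 (a b c e : R5) : D5 a b c a e = 0 :=
  Matrix.det_zero_of_row_eq (i := 0) (j := 3) (by decide) rfl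
theorem D5_24 (a b c e : R5) : D5 a b c b e = 0 :=
  Matrix.det_zero_of_row_eq (i := 1) (j := 3) (by decide) rfl
theorem D5_15 (a b c d : R5) : D5 a b c d a = 0 :=
  Matrix.det_zero_of_row_eq (i := 0) (j := 4) (by decide) rfl
theorem D5_25 (a b c d : R5) : D5 a b c d b = 0 :=
  Matrix.det_zero_of_row_eq (i := 1) (j := 4) (by decide) rfl

theorem pos4_ne {x y a b c d : R5} (h : Circ.Pos4 x y a b c d) :
    a ≠ x ∧ a ≠ y ∧ b ≠ x ∧ b ≠ y ∧ c ≠ x ∧ c ≠ y ∧ d ≠ x ∧ d ≠ y := by
  refine ⟨?_, ?_, ?_, ?_, ?_, ?_, ?_, ?_⟩ <;> rintro rfl <;>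
    rcases h with ⟨h1, h2, h3, h4⟩ | ⟨h1, h2, h3, h4⟩ <;>
    simp only [D5_13, D5_23, D5_14, D5_24, D5_15, D5_25, lt_self_iff_false] at *

/-- an edge of the whole set is an edge relative to every sample -/
theorem edgeC_of_edge {V : Type*} {v : V → R5} {S : Set V} {x y : V} (h : Circ.Edge v S x y)
    {m : ℕ} (W : Fin m → V) (hW : ∀ i, W i ∈ S) : EdgeC v W x y := by
  intro i hp
  obtain ⟨h1, h2, h3, h4, h5, h6, h7, h8⟩ := pos4_ne hp
  refine h.not_pos4 (hW _) (hW _) (hW _) (hW _) ?_ ?_ ?_ ?_ ?_ ?_ ?_ ?_ hp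
  · exact fun e => h1 (congrArg v e)
  · exact fun e => h2 (congrArg v e)
  · exact fun e => h3 (congrArg v e)
  · exact fun e => h4 (congrArg v e)
  · exact fun e => h5 (congrArg v e)
  · exact fun e => h6 (congrArg v e)
  · exact fun e => h7 (congrArg v e)
  · exact fun e => h8 (congrArg v e)

theorem EdgeC.comp {V : Type*} {v : V → R5} {m k : ℕ} {W : Fin m → V} {x y : V}
    (h : EdgeC v W x y) (g : Fin k → Fin m) : EdgeC v (W ∘ g) x y :=
  fun i => h (g ∘ i)

/-- sample of size `m + k` as a pair -/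
def split {V : Type*} {m k : ℕ} (W : Fin (m + k) → V) : (Fin m → V) × (Fin k → V) :=
  (fun i => W (Fin.castAdd k i), fun i => W (Fin.natAdd m i))

theorem split_inj {V : Type*} {m k : ℕ} :
    Function.Injective (split : (Fin (m + k) → V) → (Fin m → V) × (Fin k → V)) := by
  intro W W' h
  funext i
  refine Fin.addCases (fun j => ?_) (fun j => ?_) i
  · exact congrFun (congrArg Prod.fst h) j
  · exact congrFun (congrArg Prod.snd h) j

theorem split_append {V : Type*} {m k : ℕ} (W : Fin m → V) (U : Fin k → V) :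
    split (Fin.append W U) = (W, U) := by
  unfold split
  simp

theorem split_surj {V : Type*} {m k : ℕ} (p : (Fin m → V) × (Fin k → V)) :
    ∃ W : Fin (m + k) → V, split W = p := ⟨Fin.append p.1 p.2, split_append _ _⟩

open Classical in
/-- the triples (x, y, W) with an extension `U` of the sample which destroys the edge -/
theorem lost_card {V : Type*} [Fintype V] (v : V → R5) (m k : ℕ) :
    ((univ : Finset ((V × V) × (Fin m → V) × (Fin k → V))).filter fun p =>
      EdgeC v p.2.1 p.1.1 p.1.2 ∧ ¬ EdgeC v (Fin.append p.2.1 p.2.2) p.1.1 p.1.2).card +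
      wc v (m + k) = Fintype.card V ^ k * wc v m := by
  have h1 : wc v (m + k) = ((univ : Finset ((V × V) × (Fin m → V) × (Fin k → V))).filter fun p =>
      EdgeC v p.2.1 p.1.1 p.1.2 ∧ EdgeC v (Fin.append p.2.1 p.2.2) p.1.1 p.1.2).card := by
    unfold wc
    refine card_bij (fun p _ => (p.1, split p.2)) ?_ ?_ ?_
    · intro p hp
      have hp1 := (mem_filter.1 hp).2
      have e1 : Fin.append (split p.2).1 (split p.2).2 = p.2 := by
        apply split_inj
        rw [split_append]
      refine mem_filter.2 ⟨mem_univ _, ?_, ?_⟩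
      · exact EdgeC.comp hp1 (Fin.castAdd k)
      · show EdgeC v (Fin.append (split p.2).1 (split p.2).2) p.1.1 p.1.2
        rw [e1]
        exact hp1
    · intro p _ q _ h
      rw [Prod.mk.injEq] at h
      exact Prod.ext h.1 (split_inj h.2)
    · intro q hq
      refine ⟨(q.1, Fin.append q.2.1 q.2.2), mem_filter.2 ⟨mem_univ _, (mem_filter.1 hq).2.2⟩, ?_⟩
      show (q.1, split (Fin.append q.2.1 q.2.2)) = q
      rw [split_append]
  have h2 : Fintype.card V ^ k * wc v m =
      ((univ : Finset ((V × V) × (Fin m → V) × (Fin k → V))).filter fun p =>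
        EdgeC v p.2.1 p.1.1 p.1.2).card := by
    have e : (univ : Finset ((V × V) × (Fin m → V) × (Fin k → V))).filter (fun p =>
        EdgeC v p.2.1 p.1.1 p.1.2) =
        (((univ : Finset ((V × V) × (Fin m → V))).filter fun p => EdgeC v p.2 p.1.1 p.1.2) ×ˢ
          (univ : Finset (Fin k → V))).map
          ⟨fun q => (q.1.1, q.1.2, q.2), fun a b h => by
            simp only [Prod.mk.injEq] at h
            exact Prod.ext (Prod.ext h.1 h.2.1) h.2.2⟩ := by
      ext p
      simp only [mem_filter, mem_univ, true_and, mem_map, mem_product, and_true,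
        Function.Embedding.coeFn_mk]
      constructor
      · intro h
        exact ⟨((p.1, p.2.1), p.2.2), h, rfl⟩
      · rintro ⟨q, hq, rfl⟩
        exact hq
    rw [e, card_map, card_product, card_univ, Fintype.card_fun, Fintype.card_fin, mul_comm]
    rfl
  rw [h1, h2, add_comm, ← filter_filter, ← filter_filter,
    Finset.card_filter_add_card_filter_not]

open Classical in
theorem wc_mono {V : Type*} [Fintype V] (v : V → R5) (m k : ℕ) :
    wc v (m + k) ≤ Fintype.card V ^ k * wc v m := by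
  have := lost_card v m k
  omega

open Classical in
theorem wc_le {V : Type*} [Fintype V] (v : V → R5) (m : ℕ) :
    wc v m ≤ Fintype.card V ^ (m + 2) := by
  unfold wc
  refine (card_filter_le _ _).trans (le_of_eq ?_)
  rw [card_univ, Fintype.card_prod, Fintype.card_prod, Fintype.card_fun, Fintype.card_fin]
  ring

theorem w_nonneg {V : Type*} [Fintype V] (v : V → R5) (m : ℕ) : 0 ≤ w v m := by
  unfold w
  positivity

theorem w_le_one {V : Type*} [Fintype V] (v : V → R5) (m : ℕ) : w v m ≤ 1 := by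
  unfold w
  refine div_le_one_of_le₀ ?_ (by positivity)
  exact_mod_cast wc_le v m

theorem w_anti {V : Type*} [Fintype V] (v : V → R5) : Antitone (w v) := by
  intro m l hml
  obtain ⟨k, rfl⟩ := Nat.exists_eq_add_of_le hml
  rcases Nat.eq_zero_or_pos (Fintype.card V) with h0 | h0
  · unfold w
    rw [h0]
    simp
  · unfold w
    have hn : (0 : ℝ) < (Fintype.card V : ℕ) := by exact_mod_cast h0
    rw [div_le_div_iff₀ (by positivity) (by positivity)]
    have h1 : (wc v (m + k) : ℝ) ≤ ((Fintype.card V : ℕ) : ℝ) ^ k * wc v m := by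
      exact_mod_cast wc_mono v m k
    calc (wc v (m + k) : ℝ) * ((Fintype.card V : ℕ) : ℝ) ^ (m + 2)
        ≤ (((Fintype.card V : ℕ) : ℝ) ^ k * wc v m) * ((Fintype.card V : ℕ) : ℝ) ^ (m + 2) :=
          mul_le_mul_of_nonneg_right h1 (by positivity)
      _ = wc v m * ((Fintype.card V : ℕ) : ℝ) ^ (m + k + 2) := by ring

open Classical in
/-- the number of lost edges is `(w m - w (m + k)) n ^ (m + k + 2)` -/
theorem lost_eq {V : Type*} [Fintype V] (v : V → R5) (m k : ℕ) (h0 : 0 < Fintype.card V) :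
    (((univ : Finset ((V × V) × (Fin m → V) × (Fin k → V))).filter fun p =>
      EdgeC v p.2.1 p.1.1 p.1.2 ∧ ¬ EdgeC v (Fin.append p.2.1 p.2.2) p.1.1 p.1.2).card : ℝ) =
      (w v m - w v (m + k)) * ((Fintype.card V : ℕ) : ℝ) ^ (m + k + 2) := by
  have h1 : ((((univ : Finset ((V × V) × (Fin m → V) × (Fin k → V))).filter fun p =>
      EdgeC v p.2.1 p.1.1 p.1.2 ∧ ¬ EdgeC v (Fin.append p.2.1 p.2.2) p.1.1 p.1.2).card : ℕ) : ℝ) +
      wc v (m + k) = ((Fintype.card V : ℕ) : ℝ) ^ k * wc v m := by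
    exact_mod_cast lost_card v m k
  have hn : (0 : ℝ) < (Fintype.card V : ℕ) := by exact_mod_cast h0
  have h2 : w v m * ((Fintype.card V : ℕ) : ℝ) ^ (m + k + 2) =
      ((Fintype.card V : ℕ) : ℝ) ^ k * wc v m := by
    unfold w
    field_simp
    ring
  have h3 : w v (m + k) * ((Fintype.card V : ℕ) : ℝ) ^ (m + k + 2) = wc v (m + k) := by
    unfold w
    field_simp
  rw [sub_mul, h2, h3]
  linarith

open Classical in
/-- **destroyed edges**: the number of (x, y, W, a, b, c, d) such that `x y` is an edge relative to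
`W` and `a b c d` form a positive circuit with `x y` -/
theorem destroyed {V : Type*} [Fintype V] (v : V → R5) (m : ℕ) (h0 : 0 < Fintype.card V) :
    (((univ : Finset ((V × V) × (Fin m → V) × (Fin 4 → V))).filter fun p =>
      EdgeC v p.2.1 p.1.1 p.1.2 ∧ Circ.Pos4 (v p.1.1) (v p.1.2) (v (p.2.2 0)) (v (p.2.2 1))
        (v (p.2.2 2)) (v (p.2.2 3))).card : ℝ) ≤
      (w v m - w v (m + 4)) * ((Fintype.card V : ℕ) : ℝ) ^ (m + 6) := by
  rw [show m + 6 = m + 4 + 2 by ring, ← lost_eq v m 4 h0]
  have : (univ : Finset ((V × V) × (Fin m → V) × (Fin 4 → V))).filter (fun p =>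
      EdgeC v p.2.1 p.1.1 p.1.2 ∧ Circ.Pos4 (v p.1.1) (v p.1.2) (v (p.2.2 0)) (v (p.2.2 1))
        (v (p.2.2 2)) (v (p.2.2 3))) ⊆
      (univ : Finset ((V × V) × (Fin m → V) × (Fin 4 → V))).filter fun p =>
      EdgeC v p.2.1 p.1.1 p.1.2 ∧ ¬ EdgeC v (Fin.append p.2.1 p.2.2) p.1.1 p.1.2 := by
    intro p hp
    obtain ⟨h1, h2⟩ := (mem_filter.1 hp).2
    refine mem_filter.2 ⟨mem_univ _, h1, fun hcon => ?_⟩
    have h3 := hcon (fun j => Fin.natAdd m j)
    simp only [Fin.append_right] at h3
    exact h3 h2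
  exact_mod_cast card_le_card this

/-- pigeonhole over the iterates of `F` -/
theorem window {f : ℕ → ℝ} (hf0 : ∀ m, 0 ≤ f m) (hf1 : ∀ m, f m ≤ 1) (F : ℕ → ℕ) (m0 : ℕ) {d : ℝ}
    (hd : 0 < d) : ∃ i < ⌊1 / d⌋₊ + 1, f (F^[i] m0) - f (F (F^[i] m0)) ≤ d := by
  by_contra hcon
  push Not at hcon
  have h1 : ∀ i ≤ ⌊1 / d⌋₊ + 1, f (F^[i] m0) ≤ 1 - i * d := by
    intro i
    induction i with
    | zero =>
      intro _
      simpa using hf1 m0
    | succ i ih =>
      intro hi
      have h2 := ih (by omega)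
      have h3 := hcon i (by omega)
      rw [Function.iterate_succ_apply']
      push_cast
      linarith
  have h2 := h1 _ le_rfl
  have h3 := hf0 (F^[⌊1 / d⌋₊ + 1] m0)
  have h4 := Nat.lt_floor_add_one (1 / d)
  rw [div_lt_iff₀ hd] at h4
  push_cast at h2
  linarith

end Win

end Pool.Agent.F32
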